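import Pool.Agent.Lib.MP_a325a5_ag.F.Def

open NumberField MvPolynomial

namespace BMF

/-- integer points of a box in a translate of a rational subspace -/
theorem box_count (N A : ℕ) (W : Submodule ℚ (Fin N → ℚ)) (F0 : Fin N → ℤ)
    (s : Finset (Fin N → ℤ)) (hs : ∀ F ∈ s, (∀ j, 0 ≤ F j ∧ F j ≤ A) ∧
      (fun j => ((F j - F0 j : ℤ) : ℚ)) ∈ W) :
    s.card ≤ (A + 1) ^ Module.finrank ℚ W := by
  classical
  obtain ⟨d, hd⟩ : ∃ d, Module.finrank ℚ W ≤ d := ⟨_, le_rfl⟩
  suffices h : ∀ (d : ℕ) (W : Submodule ℚ (Fin N → ℚ)) (F0 : Fin N → ℤ)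
      (s : Finset (Fin N → ℤ)), Module.finrank ℚ W = d → (∀ F ∈ s, (∀ j, 0 ≤ F j ∧ F j ≤ A) ∧
      (fun j => ((F j - F0 j : ℤ) : ℚ)) ∈ W) → s.card ≤ (A + 1) ^ d from h _ W F0 s rfl hs
  clear hd d hs s F0 W
  intro d
  induction d using Nat.strong_induction_on with
  | _ d ih =>
    intro W F0 s hW hs
    by_cases hbot : W = ⊥
    · have h1 : s.card ≤ 1 := by
        rw [Finset.card_le_one]
        intro F hF G hG
        funext j
        have h2 := (hs F hF).2
        have h3 := (hs G hG).2
        rw [hbot, Submodule.mem_bot] at h2 h3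
        have h4 := congrFun h2 j
        have h5 := congrFun h3 j
        simp only [Pi.zero_apply, Int.cast_eq_zero] at h4 h5
        omega
      exact h1.trans (Nat.one_le_pow _ _ (by omega))
    · obtain ⟨w, hwW, hw0⟩ := Submodule.exists_mem_ne_zero_of_ne_bot hbot
      obtain ⟨j, hj⟩ : ∃ j, w j ≠ 0 := by
        by_contra hc
        push Not at hc
        exact hw0 (funext hc)
      obtain ⟨W', hW'⟩ : ∃ W' : Submodule ℚ (Fin N → ℚ),
          W' = W ⊓ LinearMap.ker (LinearMap.proj (R := ℚ) (φ := fun _ : Fin N => ℚ) j) := ⟨_, rfl⟩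
      have hlt : W' < W := by
        rw [hW']
        refine lt_of_le_of_ne inf_le_left fun h => ?_
        have h1 : w ∈ W ⊓ LinearMap.ker (LinearMap.proj (R := ℚ) (φ := fun _ : Fin N => ℚ) j) := by
          rw [h]
          exact hwW
        exact hj (LinearMap.mem_ker.1 h1.2)
      have hfr : Module.finrank ℚ W' < d := by
        rw [← hW]
        exact Submodule.finrank_lt_finrank_of_lt hlt
      have hmaps : ∀ F ∈ s, F j ∈ Finset.Icc (0 : ℤ) A := fun F hF => by
        rw [Finset.mem_Icc]
        exact (hs F hF).1 j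
      rw [Finset.card_eq_sum_card_fiberwise hmaps]
      have hfib : ∀ v ∈ Finset.Icc (0 : ℤ) A, (s.filter fun F => F j = v).card ≤ (A + 1) ^ (d - 1) := by
        intro v _
        rcases (s.filter fun F => F j = v).eq_empty_or_nonempty with h | ⟨F1, hF1⟩
        · rw [h, Finset.card_empty]
          exact Nat.zero_le _
        · rw [Finset.mem_filter] at hF1
          refine (ih _ hfr W' F1 _ rfl fun F hF => ?_).trans
            (Nat.pow_le_pow_right (by omega) (by omega))
          rw [Finset.mem_filter] at hF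
          refine ⟨(hs F hF.1).1, ?_⟩
          rw [hW']
          refine ⟨?_, ?_⟩
          · have h1 := W.sub_mem (hs F hF.1).2 (hs F1 hF1.1).2
            have e : (fun j => ((F j - F1 j : ℤ) : ℚ)) = (fun j => ((F j - F0 j : ℤ) : ℚ)) -
                fun j => ((F1 j - F0 j : ℤ) : ℚ) := by
              funext i
              simp only [Pi.sub_apply]
              push_cast
              ring
            rw [e]
            exact h1
          · rw [SetLike.mem_coe, LinearMap.mem_ker]
            show ((F j - F1 j : ℤ) : ℚ) = 0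
            rw [hF.2, hF1.2, sub_self, Int.cast_zero]
      calc ∑ v ∈ Finset.Icc (0 : ℤ) A, (s.filter fun F => F j = v).card
          ≤ ∑ v ∈ Finset.Icc (0 : ℤ) A, (A + 1) ^ (d - 1) := Finset.sum_le_sum hfib
        _ = (A + 1) * (A + 1) ^ (d - 1) := by
            rw [Finset.sum_const, Int.card_Icc, smul_eq_mul,
              show ((A : ℤ) + 1 - 0).toNat = A + 1 by omega]
        _ = (A + 1) ^ d := by
            rw [← Nat.pow_succ']
            congr 1
            have : d ≠ 0 := by omega
            omega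

end BMF
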