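import Pool.Agent.Lib.MP_a325a5_ag.F.B1
import Pool.Agent.Lib.MP_a325a5_ag.F.B2

open NumberField MvPolynomial

namespace BMF

/-- abstract box principle: many integer vectors with small values of all functionals -/
theorem box_abs (N A : ℕ) (hA : 1 ≤ A) {ι : Type} [Fintype ι]
    (ℓ : ι → ((Fin N → ℝ) →ₗ[ℝ] ℝ)) (hℓ : ∀ i F, |ℓ i F| ≤ ‖F‖) (r : ℕ)
    (hr : Module.finrank ℝ (Submodule.span ℝ (Set.range ℓ)) ≤ r) {s : ℝ} (hs : 0 < s)
    (hs1 : s ≤ 1) :
    ∃ S : Set (Fin N → ℤ), (∀ F ∈ S, (∀ j, |F j| ≤ A) ∧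
        ∀ i, |ℓ i (fun j => (F j : ℝ))| ≤ r * s) ∧
      (N : ℝ) * Real.log (A + 1) ≤
        Module.finrank ℚ (Submodule.span ℚ ((fun F : Fin N → ℤ => fun j => (F j : ℚ)) '' S)) *
          Real.log (A + 1) + r * Real.log (4 * A / s) := by
  classical
  obtain ⟨s0, hcard, hcomb⟩ := max_det ℓ
  have hA1 : (1 : ℝ) ≤ A := by exact_mod_cast hA
  have hAs : 2 ≤ 2 * (A : ℝ) / s := by
    rw [le_div_iff₀ hs]
    nlinarith
  -- the box
  obtain ⟨T, hT⟩ : ∃ T : Finset (Fin N → ℤ), T = Fintype.piFinset fun _ => Finset.Icc (0 : ℤ) A :=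
    ⟨_, rfl⟩
  have hTm : ∀ F, F ∈ T ↔ ∀ j, 0 ≤ F j ∧ F j ≤ A := by
    intro F
    rw [hT, Fintype.mem_piFinset]
    simp only [Finset.mem_Icc]
  have hTc : T.card = (A + 1) ^ N := by
    rw [hT, Fintype.card_piFinset]
    simp [Int.card_Icc, show ((A : ℤ) + 1).toNat = A + 1 by omega]
  -- the cells
  obtain ⟨cell, hcell⟩ : ∃ cell : (Fin N → ℤ) → ι → ℤ, ∀ F i,
      cell F i = if i ∈ s0 then ⌊(ℓ i (fun j => (F j : ℝ)) + A) / s⌋ else 0 := ⟨_, fun _ _ => rfl⟩
  obtain ⟨q, hq⟩ : ∃ q : ℕ, q = ⌊2 * (A : ℝ) / s⌋₊ := ⟨_, rfl⟩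
  obtain ⟨C, hC⟩ : ∃ C : Finset (ι → ℤ), C = Fintype.piFinset fun i =>
      if i ∈ s0 then Finset.Icc (0 : ℤ) q else {0} := ⟨_, rfl⟩
  have hCc : C.card = (q + 1) ^ s0.card := by
    rw [hC, Fintype.card_piFinset]
    have h1 : ∀ i : ι, (if i ∈ s0 then Finset.Icc (0 : ℤ) q else {0}).card =
        if i ∈ s0 then q + 1 else 1 := by
      intro i
      split_ifs
      · rw [Int.card_Icc]
        omega
      · rfl
    simp only [h1]
    rw [Finset.prod_ite_mem, Finset.univ_inter, Finset.prod_const]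
  have hnorm : ∀ F ∈ T, ‖(fun j => (F j : ℝ))‖ ≤ A := by
    intro F hF
    rw [pi_norm_le_iff_of_nonneg (by positivity)]
    intro j
    have h1 := (hTm F).1 hF j
    have h2 : (0 : ℝ) ≤ (F j : ℝ) := by exact_mod_cast h1.1
    have h3 : (F j : ℝ) ≤ A := by exact_mod_cast h1.2
    rw [Real.norm_eq_abs, abs_of_nonneg h2]
    exact h3
  have hmaps : ∀ F ∈ T, cell F ∈ C := by
    intro F hF
    rw [hC, Fintype.mem_piFinset]
    intro i
    rw [hcell]
    split_ifs with h
    · have h1 := (hℓ i (fun j => (F j : ℝ))).trans (hnorm F hF)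
      rw [abs_le] at h1
      rw [Finset.mem_Icc]
      constructor
      · exact Int.floor_nonneg.2 (div_nonneg (by linarith) hs.le)
      · have h2 : (ℓ i (fun j => (F j : ℝ)) + A) / s ≤ 2 * (A : ℝ) / s :=
          div_le_div_of_nonneg_right (by linarith) hs.le
        have h3 := Int.floor_le_floor h2
        have h4 : ⌊2 * (A : ℝ) / s⌋ = (q : ℤ) := by
          rw [hq, Int.natCast_floor_eq_floor (by positivity)]
        rw [h4] at h3
        exact h3
    · exact Finset.mem_singleton_self _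
  have hCne : C.Nonempty := ⟨cell 0, hmaps 0 ((hTm 0).2 fun j => ⟨le_rfl, by positivity⟩)⟩
  -- the pigeonhole principle
  obtain ⟨y, hyC, hy⟩ : ∃ y ∈ C, T.card ≤ C.card * (T.filter fun F => cell F = y).card := by
    by_contra hcon
    push Not at hcon
    have h1 : T.card = ∑ y ∈ C, (T.filter fun F => cell F = y).card :=
      Finset.card_eq_sum_card_fiberwise hmaps
    have hCpos : 0 < C.card := Finset.card_pos.2 hCne
    have h2 : ∑ y ∈ C, C.card * (T.filter fun F => cell F = y).card < ∑ y ∈ C, T.card :=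
      Finset.sum_lt_sum_of_nonempty hCne hcon
    rw [← Finset.mul_sum, ← h1, Finset.sum_const, smul_eq_mul] at h2
    exact lt_irrefl _ h2
  obtain ⟨S0, hS0⟩ : ∃ S0, S0 = T.filter fun F => cell F = y := ⟨_, rfl⟩
  rw [← hS0] at hy
  have hTpos : 0 < T.card := by
    rw [hTc]
    positivity
  have hS0ne : S0.Nonempty := by
    rw [Finset.nonempty_iff_ne_empty]
    intro h
    rw [h, Finset.card_empty, Nat.mul_zero] at hy
    omega
  obtain ⟨F0, hF0⟩ := hS0ne
  have hSm : ∀ F ∈ S0, F ∈ T ∧ cell F = y := by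
    intro F hF
    rw [hS0, Finset.mem_filter] at hF
    exact hF
  refine ⟨(fun F => F - F0) '' (S0 : Set (Fin N → ℤ)), ?_, ?_⟩
  · rintro _ ⟨F, hF, rfl⟩
    obtain ⟨hFT, hFy⟩ := hSm F hF
    obtain ⟨hF0T, hF0y⟩ := hSm F0 hF0
    constructor
    · intro j
      have h1 := (hTm F).1 hFT j
      have h2 := (hTm F0).1 hF0T j
      show |F j - F0 j| ≤ (A : ℤ)
      rw [abs_le]
      constructor <;> linarith
    · intro i
      obtain ⟨c, hc1, hc2⟩ := hcomb i
      have hdiff : (fun j => (((F - F0) j : ℤ) : ℝ)) = (fun j => (F j : ℝ)) - fun j => (F0 j : ℝ) := by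
        funext j
        simp
      have hsmall : ∀ k ∈ s0, |ℓ k (fun j => (((F - F0) j : ℤ) : ℝ))| ≤ s := by
        intro k hk
        rw [hdiff, map_sub]
        have h1 := congrFun (hFy.trans hF0y.symm) k
        rw [hcell, hcell, if_pos hk, if_pos hk] at h1
        have h2 := Int.abs_sub_lt_one_of_floor_eq_floor h1
        rw [← sub_div, abs_div, abs_of_pos hs, div_lt_one hs] at h2
        have e : ℓ k (fun j => (F j : ℝ)) + A - (ℓ k (fun j => (F0 j : ℝ)) + A) =
            ℓ k (fun j => (F j : ℝ)) - ℓ k (fun j => (F0 j : ℝ)) := by ring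
        rw [e] at h2
        exact h2.le
      rw [hc2]
      have h3 : (∑ k ∈ s0, c k • ℓ k) (fun j => (((F - F0) j : ℤ) : ℝ)) =
          ∑ k ∈ s0, c k * ℓ k (fun j => (((F - F0) j : ℤ) : ℝ)) := by
        rw [LinearMap.sum_apply]
        rfl
      rw [h3]
      calc |∑ k ∈ s0, c k * ℓ k (fun j => (((F - F0) j : ℤ) : ℝ))|
          ≤ ∑ k ∈ s0, |c k * ℓ k (fun j => (((F - F0) j : ℤ) : ℝ))| := Finset.abs_sum_le_sum_abs _ _
        _ ≤ ∑ k ∈ s0, s := by
            refine Finset.sum_le_sum fun k hk => ?_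
            rw [abs_mul]
            have h4 := hc1 k hk
            have h5 := hsmall k hk
            have h6 := abs_nonneg (c k)
            nlinarith
        _ = s0.card * s := by rw [Finset.sum_const, nsmul_eq_mul]
        _ ≤ r * s := by
            refine mul_le_mul_of_nonneg_right ?_ hs.le
            exact_mod_cast hcard ▸ hr
  · obtain ⟨W, hW⟩ : ∃ W, W = Submodule.span ℚ ((fun F : Fin N → ℤ => fun j => (F j : ℚ)) ''
        ((fun F => F - F0) '' (S0 : Set (Fin N → ℤ)))) := ⟨_, rfl⟩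
    rw [← hW]
    have hcnt := box_count N A W F0 S0 fun F hF => ⟨(hTm F).1 (hSm F hF).1, by
      rw [hW]
      exact Submodule.subset_span ⟨F - F0, ⟨F, hF, rfl⟩, rfl⟩⟩
    have h1 : ((A : ℝ) + 1) ^ N ≤ (4 * A / s) ^ s0.card * ((A : ℝ) + 1) ^ Module.finrank ℚ W := by
      have h2 : (T.card : ℝ) ≤ C.card * S0.card := by exact_mod_cast hy
      rw [hTc, hCc] at h2
      push_cast at h2
      have h3 : (S0.card : ℝ) ≤ ((A : ℝ) + 1) ^ Module.finrank ℚ W := by exact_mod_cast hcnt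
      have h4 : (q : ℝ) + 1 ≤ 4 * A / s := by
        have h5 : (q : ℝ) ≤ 2 * (A : ℝ) / s := by
          rw [hq]
          exact Nat.floor_le (by positivity)
        have h6 : 4 * (A : ℝ) / s = 2 * A / s + 2 * A / s := by ring
        rw [h6]
        linarith
      have h5 : ((q : ℝ) + 1) ^ s0.card ≤ (4 * A / s) ^ s0.card :=
        pow_le_pow_left₀ (by positivity) h4 _
      calc ((A : ℝ) + 1) ^ N ≤ ((q : ℝ) + 1) ^ s0.card * S0.card := h2
        _ ≤ (4 * A / s) ^ s0.card * ((A : ℝ) + 1) ^ Module.finrank ℚ W :=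
          mul_le_mul h5 h3 (by positivity) (by positivity)
    have hpos1 : (0 : ℝ) < 4 * A / s := by positivity
    have hpos2 : (0 : ℝ) < (A : ℝ) + 1 := by positivity
    have h2 := Real.log_le_log (by positivity) h1
    rw [Real.log_pow, Real.log_mul (by positivity) (by positivity), Real.log_pow, Real.log_pow] at h2
    have h3 : (s0.card : ℝ) * Real.log (4 * A / s) ≤ r * Real.log (4 * A / s) := by
      refine mul_le_mul_of_nonneg_right ?_ (Real.log_nonneg ?_)
      · exact_mod_cast hcard ▸ hr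
      · have h6 : 4 * (A : ℝ) / s = 2 * A / s + 2 * A / s := by ring
        rw [h6]
        linarith
    linarith

end BMF
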