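import Pool.Agent.Lib.MP_a325a5_ag.F.Def

open NumberField MvPolynomial

namespace BMF

/-- real functionals coming from a rational linear map span a space of dimension at most its rank -/
theorem real_rank_le (N : ℕ) {W : Type} [AddCommGroup W] [Module ℚ W] (Λ : (Fin N → ℚ) →ₗ[ℚ] W)
    {ι : Type} [Fintype ι] (ℓ : ι → ((Fin N → ℝ) →ₗ[ℝ] ℝ))
    (h : ∀ F : Fin N → ℚ, Λ F = 0 → ∀ i, ℓ i (fun j => (F j : ℝ)) = 0) :
    Module.finrank ℝ (Submodule.span ℝ (Set.range ℓ)) ≤
      Module.finrank ℚ (LinearMap.range Λ) := by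
  classical
  obtain ⟨b⟩ : Nonempty (Module.Basis (Fin (Module.finrank ℚ (LinearMap.range Λ))) ℚ
      (LinearMap.range Λ)) := ⟨Module.finBasis ℚ _⟩
  have hex : ∀ k, ∃ e : Fin N → ℚ, Λ e = b k := fun k => (b k).2
  choose e he using hex
  obtain ⟨c, hc⟩ : ∃ c : (Fin N → ℚ) → Fin (Module.finrank ℚ (LinearMap.range Λ)) → ℚ,
      ∀ F k, c F k = b.repr ⟨Λ F, F, rfl⟩ k := ⟨_, fun _ _ => rfl⟩
  have hsum : ∀ F, Λ F = ∑ k, c F k • (b k : W) := by
    intro F
    have h1 := b.sum_repr ⟨Λ F, F, rfl⟩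
    have h2 := congrArg (fun x : LinearMap.range Λ => (x : W)) h1
    simp only [Submodule.coe_sum, Submodule.coe_smul] at h2
    rw [← h2]
    exact Finset.sum_congr rfl fun k _ => by rw [hc]
  have hval : ∀ F i, ℓ i (fun j => (F j : ℝ)) = ∑ k, (c F k : ℝ) * ℓ i (fun j => (e k j : ℝ)) := by
    intro F i
    have h1 : Λ (F - ∑ k, c F k • e k) = 0 := by
      rw [map_sub, map_sum, hsum F, sub_eq_zero]
      exact Finset.sum_congr rfl fun k _ => by rw [map_smul, he]
    have h2 := h _ h1 i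
    have h3 : (fun j => (((F - ∑ k, c F k • e k) j : ℚ) : ℝ)) =
        (fun j => (F j : ℝ)) - ∑ k, (c F k : ℝ) • (fun j => (e k j : ℝ)) := by
      funext j
      simp [Finset.sum_apply]
    rw [h3, map_sub, map_sum, sub_eq_zero] at h2
    rw [h2]
    exact Finset.sum_congr rfl fun k _ => by rw [map_smul, smul_eq_mul]
  obtain ⟨m, hm⟩ : ∃ m : Fin (Module.finrank ℚ (LinearMap.range Λ)) → ((Fin N → ℝ) →ₗ[ℝ] ℝ),
      ∀ k j, m k (Pi.single j 1) = (c (Pi.single j 1) k : ℝ) := by
    refine ⟨fun k => (Pi.basisFun ℝ (Fin N)).constr ℝ fun j => (c (Pi.single j 1) k : ℝ),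
      fun k j => ?_⟩
    rw [← Pi.basisFun_apply ℝ, Module.Basis.constr_basis]
  have hle : Submodule.span ℝ (Set.range ℓ) ≤ Submodule.span ℝ (Set.range m) := by
    rw [Submodule.span_le]
    rintro _ ⟨i, rfl⟩
    have h1 : ℓ i = ∑ k, ℓ i (fun j => (e k j : ℝ)) • m k := by
      refine (Pi.basisFun ℝ (Fin N)).ext fun j => ?_
      rw [Pi.basisFun_apply, LinearMap.sum_apply]
      have h2 := hval (Pi.single j 1) i
      have h3 : (fun l => (((Pi.single j 1 : Fin N → ℚ) l : ℚ) : ℝ)) = Pi.single j 1 := by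
        funext l
        by_cases hl : l = j
        · subst hl
          simp
        · simp [Pi.single_eq_of_ne hl]
      rw [h3] at h2
      rw [h2]
      refine Finset.sum_congr rfl fun k _ => ?_
      rw [LinearMap.smul_apply, hm, smul_eq_mul, mul_comm]
    rw [h1]
    exact Submodule.sum_mem _ fun k _ => Submodule.smul_mem _ _ (Submodule.subset_span ⟨k, rfl⟩)
  calc Module.finrank ℝ (Submodule.span ℝ (Set.range ℓ))
      ≤ Module.finrank ℝ (Submodule.span ℝ (Set.range m)) := Submodule.finrank_mono hle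
    _ ≤ Fintype.card (Fin (Module.finrank ℚ (LinearMap.range Λ))) := finrank_range_le_card m
    _ = Module.finrank ℚ (LinearMap.range Λ) := Fintype.card_fin _

end BMF
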