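import Pool.Agent.Lib.MP_a325a5_ag.F.Def

open NumberField MvPolynomial

namespace BMF

variable {k K : Type} [Field k] [NumberField k] [Field K] [NumberField K] [Algebra k K]

section C1aux

variable {B : Type} [CommRing B] [IsDomain B] [IsDedekindDomain B]

/-- choice of the generator -/
private theorem c1_theta (P : Ideal B) [hPm : P.IsMaximal] (hP0 : P ≠ ⊥) [Finite (B ⧸ P)]
    [CharZero B] :
    ∃ θ : B, ∃ q : ℕ, 2 ≤ q ∧ (q : B) ∈ P ∧ (∀ x : B, x ∈ P ∨ ∃ n : ℕ, x - θ ^ n ∈ P) ∧ θ ∉ P ∧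
      θ ^ (q - 1) - 1 ∈ P ∧ θ ^ q - θ ∈ P ∧ θ ^ q - θ ∉ P ^ 2 ∧
      (∀ Q : Ideal B, Q.IsMaximal → (q : B) ∈ Q → Q ≠ P → θ ∈ Q) := by
  classical
  letI : Field (B ⧸ P) := Ideal.Quotient.field P
  letI : Fintype (B ⧸ P) := Fintype.ofFinite _
  set q : ℕ := Fintype.card (B ⧸ P) with hq
  have hq2 : 2 ≤ q := Fintype.one_lt_card
  have hqP : (q : B) ∈ P := by
    rw [← Ideal.Quotient.eq_zero_iff_mem, map_natCast, hq]
    exact Nat.cast_card_eq_zero (B ⧸ P)
  obtain ⟨u, hu⟩ := IsCyclic.exists_monoid_generator (α := (B ⧸ P)ˣ)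
  obtain ⟨θ0, hθ0⟩ := Ideal.Quotient.mk_surjective (u : B ⧸ P)
  have hgenmod : ∀ θ : B, Ideal.Quotient.mk P θ = u →
      (∀ x : B, x ∈ P ∨ ∃ n : ℕ, x - θ ^ n ∈ P) ∧ θ ∉ P ∧ θ ^ (q - 1) - 1 ∈ P ∧ θ ^ q - θ ∈ P := by
    intro θ hθ
    refine ⟨?_, ?_, ?_, ?_⟩
    · intro x
      by_cases hx : Ideal.Quotient.mk P x = 0
      · exact Or.inl (Ideal.Quotient.eq_zero_iff_mem.mp hx)
      · right
        obtain ⟨n, hn⟩ := hu (Units.mk0 _ hx)
        refine ⟨n, ?_⟩
        rw [← Ideal.Quotient.eq_zero_iff_mem, map_sub, map_pow, hθ, sub_eq_zero]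
        have := congrArg (fun y : (B ⧸ P)ˣ => (y : B ⧸ P)) hn
        simpa using this.symm
    · intro h
      rw [← Ideal.Quotient.eq_zero_iff_mem, hθ] at h
      exact u.ne_zero h
    · rw [← Ideal.Quotient.eq_zero_iff_mem, map_sub, map_pow, hθ, map_one, sub_eq_zero]
      exact FiniteField.pow_card_sub_one_eq_one _ u.ne_zero
    · rw [← Ideal.Quotient.eq_zero_iff_mem, map_sub, map_pow, hθ, sub_eq_zero]
      exact FiniteField.pow_card _
  -- correction modulo the square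
  obtain ⟨θ1, hθ1, hθ1q⟩ : ∃ θ1 : B, Ideal.Quotient.mk P θ1 = u ∧ θ1 ^ q - θ1 ∉ P ^ 2 := by
    by_cases h0 : θ0 ^ q - θ0 ∈ P ^ 2
    · obtain ⟨π, hπ1, hπ2⟩ := Ideal.exists_mem_pow_notMem_pow_succ P hP0 hPm.ne_top 1
      rw [pow_one] at hπ1
      refine ⟨θ0 + π, ?_, ?_⟩
      · rw [map_add, Ideal.Quotient.eq_zero_iff_mem.mpr hπ1, add_zero, hθ0]
      · intro h1
        apply hπ2
        have e1 := geom_sum₂_mul (θ0 + π) θ0 q
        have e2 : ∑ i ∈ Finset.range q, (θ0 + π) ^ i * θ0 ^ (q - 1 - i) ∈ P := by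
          rw [← Ideal.Quotient.eq_zero_iff_mem, map_sum]
          have e3 : ∀ i ∈ Finset.range q, Ideal.Quotient.mk P ((θ0 + π) ^ i * θ0 ^ (q - 1 - i)) =
              Ideal.Quotient.mk P (θ0 ^ (q - 1)) := by
            intro i hi
            rw [Finset.mem_range] at hi
            rw [map_mul, map_pow, map_add, Ideal.Quotient.eq_zero_iff_mem.mpr hπ1, add_zero,
              map_pow, map_pow, ← pow_add]
            congr 1
            omega
          rw [Finset.sum_congr rfl e3, Finset.sum_const, Finset.card_range, nsmul_eq_mul,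
            ← map_natCast (Ideal.Quotient.mk P) q, Ideal.Quotient.eq_zero_iff_mem.mpr hqP, zero_mul]
        have e4 : (θ0 + π) ^ q - θ0 ^ q ∈ P ^ 2 := by
          rw [← e1, add_sub_cancel_left, pow_two]
          exact Ideal.mul_mem_mul e2 hπ1
        have e5 : π = ((θ0 + π) ^ q - θ0 ^ q) - (((θ0 + π) ^ q - (θ0 + π)) - (θ0 ^ q - θ0)) := by
          ring
        rw [e5]
        exact (P ^ 2).sub_mem e4 ((P ^ 2).sub_mem h1 h0)
    · exact ⟨θ0, hθ0, h0⟩
  -- Chinese remainder theorem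
  have hqne : Ideal.span {(q : B)} ≠ ⊥ := by
    rw [Ne, Ideal.span_singleton_eq_bot]
    exact_mod_cast (by omega : q ≠ 0)
  have hPprime : Prime P := Ideal.prime_of_isPrime hP0 hPm.isPrime
  have hfm : FiniteMultiplicity P (Ideal.span {(q : B)}) :=
    FiniteMultiplicity.of_prime_left hPprime hqne
  obtain ⟨J, hJ1, hJ2⟩ := hfm.exists_eq_pow_mul_and_not_dvd
  have hJP : IsCoprime J (P ^ 2) := by
    apply IsCoprime.pow_right
    rw [Ideal.isCoprime_iff_sup_eq]
    by_contra hne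
    apply hJ2
    rw [Ideal.dvd_iff_le]
    have := hPm.eq_of_le hne le_sup_right
    rw [this]
    exact le_sup_left
  obtain ⟨a, haJ, b, hbP, hab⟩ := Ideal.isCoprime_iff_exists.mp hJP
  have hθ2 : Ideal.Quotient.mk P (a * θ1) = u := by
    have hb1 : b ∈ P := Ideal.pow_le_self two_ne_zero hbP
    have ha1 : a = 1 - b := by rw [← hab]; ring
    rw [map_mul, ha1, map_sub, map_one, Ideal.Quotient.eq_zero_iff_mem.mpr hb1, sub_zero, one_mul,
      hθ1]
  obtain ⟨g1, g2, g3, g4⟩ := hgenmod (a * θ1) hθ2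
  refine ⟨a * θ1, q, hq2, hqP, g1, g2, g3, g4, ?_, ?_⟩
  · intro h
    apply hθ1q
    have h1 : a * θ1 - θ1 ∈ P ^ 2 := by
      have : a * θ1 - θ1 = -(b * θ1) := by rw [← sub_eq_zero]; linear_combination θ1 * hab
      rw [this]
      exact (P ^ 2).neg_mem ((P ^ 2).mul_mem_right _ hbP)
    have h2 : (a * θ1) ^ q - θ1 ^ q ∈ P ^ 2 := by
      obtain ⟨c, hc⟩ := sub_dvd_pow_sub_pow (a * θ1) θ1 q
      rw [hc]
      exact (P ^ 2).mul_mem_right _ h1
    have h3 : θ1 ^ q - θ1 = ((a * θ1) ^ q - a * θ1) - ((a * θ1) ^ q - θ1 ^ q) +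
        (a * θ1 - θ1) := by ring
    rw [h3]
    exact (P ^ 2).add_mem ((P ^ 2).sub_mem h h2) h1
  · intro Q hQm hqQ hQP
    have h1 : P ^ multiplicity P (Ideal.span {(q : B)}) * J ≤ Q := by
      rw [← hJ1, Ideal.span_singleton_le_iff_mem]
      exact hqQ
    rcases hQm.isPrime.mul_le.mp h1 with h2 | h2
    · exfalso
      have h3 : P ≤ Q := by
        by_cases hm : multiplicity P (Ideal.span {(q : B)}) = 0
        · rw [hm, pow_zero, Ideal.one_eq_top] at h2
          exact absurd (top_le_iff.mp h2) hQm.ne_top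
        · exact (Ideal.IsPrime.pow_le_iff hm).mp h2
      exact hQP (hPm.eq_of_le hQm.ne_top h3).symm
    · exact Q.mul_mem_right _ (h2 haJ)

/-- the conductor is not contained in the prime -/
private theorem c1_cond [Module.Finite ℤ B] (P : Ideal B) [hPm : P.IsMaximal] (hP0 : P ≠ ⊥)
    [Finite (B ⧸ P)] [CharZero B] :
    ∃ θ : B, θ ∉ P ∧ ∃ D ∈ Algebra.adjoin ℤ {θ}, D ∉ P ∧ ∀ y : B, D * y ∈ Algebra.adjoin ℤ {θ} := by
  classical
  obtain ⟨θ, q, hq2, hqP, hgen, hθP, hθ1, hθq, hθq2, hQ⟩ := c1_theta P hP0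
  refine ⟨θ, hθP, ?_⟩
  set A : Subalgebra ℤ B := Algebra.adjoin ℤ {θ} with hA
  have hθA : θ ∈ A := Algebra.self_mem_adjoin_singleton ℤ θ
  let m : Ideal A := P.comap (algebraMap A B)
  -- the ideal generated by `m` is `P`
  have hJP : m.map (algebraMap A B) = P := by
    set J := m.map (algebraMap A B) with hJ
    have hJle : J ≤ P := Ideal.map_comap_le
    have hmem : ∀ y : B, y ∈ A → y ∈ P → y ∈ J := fun y hy hyP =>
      Ideal.mem_map_of_mem (algebraMap A B) (show (⟨y, hy⟩ : A) ∈ m from hyP)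
    obtain ⟨J', hJ'⟩ := Ideal.dvd_iff_le.mpr hJle
    by_cases htop : J' = ⊤
    · rw [hJ', htop, Ideal.mul_top]
    · exfalso
      obtain ⟨Q, hQm, hJQ⟩ := Ideal.exists_le_maximal J' htop
      have hJQ2 : J ≤ Q := by
        rw [hJ']
        exact (Ideal.mul_le_right (I := P) (J := J')).trans hJQ
      have hqQ : (q : B) ∈ Q := hJQ2 (hmem _ (natCast_mem A q) hqP)
      have hQP : Q = P := by
        by_contra hne
        have h1 := hQ Q hQm hqQ hne
        have h2 : θ ^ (q - 1) - 1 ∈ Q :=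
          hJQ2 (hmem _ (A.sub_mem (A.pow_mem hθA _) A.one_mem) hθ1)
        have h3 : θ ^ (q - 1) ∈ Q := Ideal.pow_mem_of_mem Q h1 _ (by omega)
        have h4 : (1 : B) ∈ Q := by
          have := Q.sub_mem h3 h2
          rwa [sub_sub_cancel] at this
        exact hQm.ne_top ((Ideal.eq_top_iff_one Q).mpr h4)
      rw [hQP] at hJQ
      apply hθq2
      rw [pow_two]
      have h5 : θ ^ q - θ ∈ J := hmem _ (A.sub_mem (A.pow_mem hθA _) hθA) hθq
      rw [hJ'] at h5
      exact Ideal.mul_mono_right hJQ h5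
  -- Nakayama
  haveI : Module.Finite A B := Module.Finite.of_restrictScalars_finite ℤ A B
  let N : Submodule A B := LinearMap.range (Algebra.linearMap A B)
  have hN : ∀ y : B, y ∈ N ↔ y ∈ A := by
    intro y
    constructor
    · rintro ⟨x, rfl⟩
      exact x.2
    · intro hy
      exact ⟨⟨y, hy⟩, rfl⟩
  have hPT : ∀ y : B, y ∈ P → y ∈ m • (⊤ : Submodule A B) := by
    intro y hy
    rw [← hJP] at hy
    refine Submodule.span_induction (p := fun y _ => y ∈ m • (⊤ : Submodule A B)) ?_ ?_ ?_ ?_ hy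
    · rintro _ ⟨x, hx, rfl⟩
      have : algebraMap A B x = x • (1 : B) := Algebra.algebraMap_eq_smul_one x
      rw [this]
      exact Submodule.smul_mem_smul hx Submodule.mem_top
    · exact Submodule.zero_mem _
    · intro x y _ _ hx hy
      exact Submodule.add_mem _ hx hy
    · intro c x _ hx
      refine Submodule.smul_induction_on (p := fun x => c • x ∈ m • (⊤ : Submodule A B)) hx ?_ ?_
      · intro r hr n _
        rw [smul_comm]
        exact Submodule.smul_mem_smul hr Submodule.mem_top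
      · intro x y hx hy
        rw [smul_add]
        exact Submodule.add_mem _ hx hy
  have hle : (⊤ : Submodule A (B ⧸ N)) ≤ m • (⊤ : Submodule A (B ⧸ N)) := by
    intro z _
    obtain ⟨y, rfl⟩ := Submodule.mkQ_surjective N z
    obtain ⟨c, hc1, hc2⟩ : ∃ c ∈ A, y - c ∈ P := by
      rcases hgen y with h | ⟨n, h⟩
      · exact ⟨0, A.zero_mem, by rwa [sub_zero]⟩
      · exact ⟨θ ^ n, A.pow_mem hθA n, h⟩
    have h1 : N.mkQ y = N.mkQ (y - c) := by
      rw [map_sub, (Submodule.Quotient.mk_eq_zero N).mpr ((hN c).mpr hc1) |> fun h => show N.mkQ c = 0 from h, sub_zero]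
    rw [h1]
    have h2 := Submodule.mem_map_of_mem (f := N.mkQ) (hPT _ hc2)
    rw [Submodule.map_smul'', Submodule.map_top, Submodule.range_mkQ] at h2
    exact h2
  obtain ⟨r, hr1, hr2⟩ := Submodule.exists_sub_one_mem_and_smul_eq_zero_of_fg_of_le_smul m
    (⊤ : Submodule A (B ⧸ N)) Module.Finite.fg_top hle
  refine ⟨(r : B), r.2, ?_, ?_⟩
  · intro hrP
    have h1 : ((r : B) - 1) ∈ P := hr1
    have h2 : (1 : B) ∈ P := by
      have := P.sub_mem hrP h1
      rwa [sub_sub_cancel] at this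
    exact hPm.ne_top ((Ideal.eq_top_iff_one P).mpr h2)
  · intro y
    have h1 := hr2 (N.mkQ y) Submodule.mem_top
    rw [← map_smul] at h1
    have h2 : r • y ∈ N := (Submodule.Quotient.mk_eq_zero N).mp h1
    rw [hN] at h2
    exact h2

end C1aux

/-- the local ring at a prime of `K` is generated by one element over the ring of integers of `k` -/
theorem local_gen (w : FinitePlace K) :
    ∃ θ : K, IsIntegral ℤ θ ∧ w θ = 1 ∧ ∀ x : K, w x ≤ 1 →
      ∃ b s : Polynomial k, (∀ n, IsIntegral ℤ (b.coeff n)) ∧ (∀ n, IsIntegral ℤ (s.coeff n)) ∧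
        w (Polynomial.aeval θ s) = 1 ∧
        x * Polynomial.aeval θ s = Polynomial.aeval θ b := by
  classical
  set P : Ideal (𝓞 K) := w.maximalIdeal.asIdeal with hP
  haveI hPm : P.IsMaximal := w.maximalIdeal.isMaximal
  have hP0 : P ≠ ⊥ := w.maximalIdeal.ne_bot
  haveI : Finite (𝓞 K ⧸ P) := Ideal.finiteQuotientOfFreeOfNeBot P hP0
  obtain ⟨θ, hθ, D, hDA, hDP, hD⟩ := c1_cond P hP0
  have hw : ∀ y : 𝓞 K, w (algebraMap (𝓞 K) K y) = 1 ↔ y ∉ P := by
    intro y
    rw [← FinitePlace.norm_embedding_eq]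
    exact FinitePlace.norm_eq_one_iff_notMem K w.maximalIdeal y
  refine ⟨algebraMap (𝓞 K) K θ, RingOfIntegers.isIntegral_coe θ, (hw θ).mpr hθ, ?_⟩
  intro x hx
  -- write `x` as a fraction with denominator outside `P`
  obtain ⟨s0, c, hs0, hsc⟩ : ∃ s0 c : 𝓞 K, s0 ∉ P ∧
      x * algebraMap (𝓞 K) K s0 = algebraMap (𝓞 K) K c := by
    rcases IsFractionRing.div_surjective (A := 𝓞 K) x with ⟨a, b, hb, rfl⟩
    have hb0 : b ≠ 0 := nonZeroDivisors.ne_zero hb
    by_cases ha0 : a = 0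
    · refine ⟨1, 0, ?_, ?_⟩
      · exact (Ideal.ne_top_iff_one P).mp hPm.ne_top
      · simp [ha0]
    have hbK : algebraMap (𝓞 K) K b ≠ 0 := by
      simpa using hb0
    have hwb : 0 < w (algebraMap (𝓞 K) K b) := FinitePlace.pos_iff.mpr hbK
    have hab : w (algebraMap (𝓞 K) K a) ≤ w (algebraMap (𝓞 K) K b) := by
      rw [map_div₀, div_le_one hwb] at hx
      exact hx
    have ea := FinitePlace.apply_mul_absNorm_pow_eq_one w ha0
    have eb := FinitePlace.apply_mul_absNorm_pow_eq_one w hb0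
    have hN1 : 1 < Ideal.absNorm w.maximalIdeal.asIdeal := HeightOneSpectrum.one_lt_absNorm _
    have hle : multiplicity P (Ideal.span {b}) ≤ multiplicity P (Ideal.span {a}) := by
      by_contra hlt
      push Not at hlt
      have h1 : ((Ideal.absNorm w.maximalIdeal.asIdeal : ℝ)) ^ multiplicity P (Ideal.span {a}) <
          ((Ideal.absNorm w.maximalIdeal.asIdeal : ℝ)) ^ multiplicity P (Ideal.span {b}) :=
        pow_lt_pow_right₀ (by exact_mod_cast hN1) hlt
      have h2 : w (algebraMap (𝓞 K) K a) *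
          ((Ideal.absNorm w.maximalIdeal.asIdeal : ℝ)) ^ multiplicity P (Ideal.span {a}) <
          w (algebraMap (𝓞 K) K b) *
          ((Ideal.absNorm w.maximalIdeal.asIdeal : ℝ)) ^ multiplicity P (Ideal.span {b}) :=
        mul_lt_mul' hab h1 (by positivity) hwb
      have h3 : w (algebraMap (𝓞 K) K a) *
          ((Ideal.absNorm w.maximalIdeal.asIdeal : ℝ)) ^ multiplicity P (Ideal.span {a}) = 1 := ea
      have h4 : w (algebraMap (𝓞 K) K b) *
          ((Ideal.absNorm w.maximalIdeal.asIdeal : ℝ)) ^ multiplicity P (Ideal.span {b}) = 1 := eb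
      rw [h3, h4] at h2
      exact lt_irrefl _ h2
    have hPprime : Prime P := Ideal.prime_of_isPrime hP0 hPm.isPrime
    have hbne : Ideal.span {b} ≠ ⊥ := by
      rw [Ne, Ideal.span_singleton_eq_bot]
      exact hb0
    obtain ⟨J, hJ1, hJ2⟩ := (FiniteMultiplicity.of_prime_left hPprime hbne).exists_eq_pow_mul_and_not_dvd
    rw [Ideal.dvd_iff_le, SetLike.not_le_iff_exists] at hJ2
    obtain ⟨s, hsJ, hsP⟩ := hJ2
    have haP : a ∈ P ^ multiplicity P (Ideal.span {b}) := by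
      have := pow_dvd_of_le_multiplicity hle
      rw [Ideal.dvd_iff_le, Ideal.span_singleton_le_iff_mem] at this
      exact this
    have hmem : a * s ∈ Ideal.span {b} := by
      rw [hJ1]
      exact Ideal.mul_mem_mul haP hsJ
    rw [Ideal.mem_span_singleton'] at hmem
    obtain ⟨c, hc⟩ := hmem
    refine ⟨s, c, hsP, ?_⟩
    rw [div_mul_eq_mul_div, div_eq_iff hbK, ← map_mul, ← map_mul, hc]
  have hmemA : ∀ y : 𝓞 K, y ∈ Algebra.adjoin ℤ {θ} →
      ∃ f : Polynomial k, (∀ n, IsIntegral ℤ (f.coeff n)) ∧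
        Polynomial.aeval (algebraMap (𝓞 K) K θ) f = algebraMap (𝓞 K) K y := by
    intro y hy
    rw [Algebra.adjoin_singleton_eq_range_aeval] at hy
    obtain ⟨f, rfl⟩ := hy
    refine ⟨f.map (algebraMap ℤ k), ?_, ?_⟩
    · intro n
      rw [Polynomial.coeff_map]
      exact isIntegral_algebraMap
    · rw [Polynomial.aeval_map_algebraMap]
      exact Polynomial.aeval_algebraMap_apply K θ f
  obtain ⟨s, hs1, hs2⟩ := hmemA (D * s0) (hD s0)
  obtain ⟨b, hb1, hb2⟩ := hmemA (D * c) (hD c)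
  refine ⟨b, s, hb1, hs1, ?_, ?_⟩
  · rw [hs2, hw]
    intro h
    rcases hPm.isPrime.mem_or_mem h with h1 | h1
    · exact hDP h1
    · exact hs0 h1
  · rw [hs2, hb2, map_mul, map_mul, ← hsc]
    ring

end BMF
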