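import Pool.Agent.Lib.MP_a325a5_ag.F.Def

open NumberField MvPolynomial

namespace BMF

variable {M : ℕ} {k : Type} [Field k] [NumberField k]

private theorem C2_cyc (Z : Cyc M k) : IsCyclotomicExtension {M} ℚ k := by
  have : NeZero M := ⟨Z.pos.ne'⟩
  have h1 : IsCyclotomicExtension {M} ℚ (IntermediateField.adjoin ℚ {Z.ζ}) :=
    Z.prim.intermediateField_adjoin_isCyclotomicExtension ℚ
  rw [Z.gen] at h1
  exact h1.equiv _ _ _ IntermediateField.topEquiv

/-- integral elements are integral polynomials in the root of unity -/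
private theorem C2_mem (Z : Cyc M k) {x : k} (hx : IsIntegral ℤ x) :
    ∃ f : Polynomial ℤ, Polynomial.aeval Z.ζ f = x := by
  have : NeZero M := ⟨Z.pos.ne'⟩
  have := C2_cyc Z
  have := IsCyclotomicExtension.Rat.isIntegralClosure_adjoin_singleton Z.prim
  obtain ⟨y, hy⟩ := (IsIntegralClosure.isIntegral_iff
    (A := Algebra.adjoin ℤ ({Z.ζ} : Set k)) (R := ℤ) (B := k)).1 hx
  have hy2 : (algebraMap (Algebra.adjoin ℤ ({Z.ζ} : Set k)) k) y ∈
      Algebra.adjoin ℤ ({Z.ζ} : Set k) := y.2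
  rw [hy, Algebra.adjoin_singleton_eq_range_aeval] at hy2
  obtain ⟨f, hf⟩ := hy2
  exact ⟨f, hf⟩

private theorem C2_fr (Z : Cyc M k) {m : ℕ} (hm : m.Coprime M) (f : Polynomial ℤ) :
    Z.fr m (Polynomial.aeval Z.ζ f) = Polynomial.aeval (Z.ζ ^ m) f := by
  rw [← Z.fr_spec m hm, Polynomial.aeval_def, Polynomial.hom_eval₂, Polynomial.aeval_def]
  congr 1
  exact RingHom.ext_int _ _

/-- Frobenius congruence in the cyclotomic field -/
theorem frob_congr (Z : Cyc M k) {p : ℕ} (hp : p.Prime) (hpM : ¬ p ∣ M) {x : k}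
    (hx : IsIntegral ℤ x) : ∃ y : k, IsIntegral ℤ y ∧ Z.fr p x = x ^ p + p * y := by
  have : Fact p.Prime := ⟨hp⟩
  obtain ⟨f, rfl⟩ := C2_mem Z hx
  have hζ : IsIntegral ℤ Z.ζ := Z.prim.isIntegral Z.pos
  have hcop : p.Coprime M := (Nat.Prime.coprime_iff_not_dvd hp).2 hpM
  have h1 : ∃ g : Polynomial ℤ, Polynomial.expand ℤ p f - f ^ p = Polynomial.C (p : ℤ) * g := by
    have h2 : (Polynomial.expand ℤ p f - f ^ p).map (Int.castRingHom (ZMod p)) = 0 := by
      rw [Polynomial.map_sub, Polynomial.map_pow, Polynomial.map_expand, ZMod.expand_card,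
        sub_self]
    have h3 : Polynomial.C (p : ℤ) ∣ (Polynomial.expand ℤ p f - f ^ p) := by
      rw [Polynomial.C_dvd_iff_dvd_coeff]
      intro i
      have h4 := congrArg (fun q => Polynomial.coeff q i) h2
      simp only [Polynomial.coeff_map, Polynomial.coeff_zero] at h4
      rw [eq_intCast, ZMod.intCast_zmod_eq_zero_iff_dvd] at h4
      exact h4
    exact h3
  obtain ⟨g, hg⟩ := h1
  refine ⟨Polynomial.aeval Z.ζ g, ?_, ?_⟩
  · have : Polynomial.aeval Z.ζ g ∈ Algebra.adjoin ℤ ({Z.ζ} : Set k) :=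
      Polynomial.aeval_mem_adjoin_singleton ℤ Z.ζ
    exact IsIntegral.of_mem_of_fg _ (hζ.fg_adjoin_singleton) _ this
  · rw [C2_fr Z hcop]
    have h5 := congrArg (Polynomial.aeval Z.ζ) hg
    rw [map_sub, Polynomial.expand_aeval, map_pow, map_mul, Polynomial.aeval_C] at h5
    have h6 : (algebraMap ℤ k) (p : ℤ) = (p : k) := by simp
    rw [h6] at h5
    rw [← h5]; ring

/-- two endomorphisms agree as soon as they agree on the root of unity -/
private theorem C2_ext (Z : Cyc M k) {φ ψ : k →+* k} (h : φ Z.ζ = ψ Z.ζ) : φ = ψ := by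
  have h1 : (φ.toRatAlgHom : k →ₐ[ℚ] k) = ψ.toRatAlgHom := by
    have h2 : ∀ x ∈ IntermediateField.adjoin ℚ {Z.ζ}, φ.toRatAlgHom x = ψ.toRatAlgHom x := by
      intro x hx
      induction hx using IntermediateField.adjoin_induction with
      | mem x hx => rw [Set.mem_singleton_iff] at hx; subst hx; exact h
      | algebraMap x => rw [AlgHom.commutes, AlgHom.commutes]
      | add x y _ _ hx hy => rw [map_add, map_add, hx, hy]
      | inv x _ hx => rw [map_inv₀, map_inv₀, hx]
      | mul x y _ _ hx hy => rw [map_mul, map_mul, hx, hy]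
    ext x
    exact h2 x (by rw [Z.gen]; trivial)
  ext x
  exact DFunLike.congr_fun h1 x

/-- endomorphisms of the cyclotomic field are determined by the image of the root of unity -/
theorem fr_mul (Z : Cyc M k) {m n : ℕ} (hm : m.Coprime M) (hn : n.Coprime M) :
    (Z.fr m).comp (Z.fr n) = Z.fr (m * n) := by
  apply C2_ext Z
  rw [RingHom.comp_apply, Z.fr_spec n hn, map_pow, Z.fr_spec m hm,
    Z.fr_spec (m * n) (Nat.Coprime.mul_left hm hn), pow_mul]

theorem fr_one (Z : Cyc M k) : Z.fr 1 = RingHom.id k := by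
  apply C2_ext Z
  rw [Z.fr_spec 1 (Nat.coprime_one_left M), pow_one, RingHom.id_apply]

theorem fr_bijective (Z : Cyc M k) {m : ℕ} (hm : m.Coprime M) :
    Function.Bijective (Z.fr m) := by
  have := Algebra.IsAlgebraic.algHom_bijective (K := ℚ) (L := k) ((Z.fr m).toRatAlgHom)
  exact this

end BMF
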