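import Pool.Agent.Lib.MP_a325a5_ag.F.Def

open NumberField MvPolynomial

namespace BMF

variable {K : Type} [Field K] [NumberField K]

/-- the places above `p` have total weight one -/
theorem tot_p {p : ℕ} (hp : p.Prime) :
    tot (fun v : Pl K => Sum.elim (fun _ => 0) (fun w => Real.log (w (p : K))) v) =
      - Real.log p := by
  have hp0 : (p : K) ≠ 0 := Nat.cast_ne_zero.2 hp.ne_zero
  have h1 := tot_lg hp0
  have h2 : (fun v : Pl K => lg v (p : K)) = fun v =>
      Sum.elim (fun _ => Real.log p) (fun _ => 0) v +
      Sum.elim (fun _ => 0) (fun w : FinitePlace K => Real.log (w (p : K))) v := by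
    funext v
    rcases v with σ | w
    · show Real.log ‖σ (p : K)‖ = Real.log p + 0
      rw [map_natCast, Complex.norm_natCast, add_zero]
    · show Real.log (w (p : K)) = 0 + Real.log (w (p : K))
      rw [zero_add]
  have f1 : FS (fun v : Pl K => Sum.elim (fun _ => Real.log p) (fun _ => 0) v) :=
    FS.inf _ fun w => rfl
  have f2 : FS (fun v : Pl K => Sum.elim (fun _ => 0)
      (fun w : FinitePlace K => Real.log (w (p : K))) v) := by
    refine (fs_lg hp0).mono fun v hv => ?_
    rcases v with σ | w
    · rfl
    · exact hv
  rw [h2, tot_add f1 f2, tot_inf_const] at h1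
  linarith

end BMF
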