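import Pool.Agent.Lib.MP_a325a5_ag.F.Def
import Mathlib.FieldTheory.Relrank

open NumberField MvPolynomial

namespace BMF

variable {M : ℕ} {k K : Type} [Field k] [NumberField k] [Field K] [NumberField K] [Algebra k K]

private theorem E4_fd : FiniteDimensional k K := by
  have : FiniteDimensional ℚ K := inferInstance
  exact Module.Finite.of_restrictScalars_finite ℚ k K

theorem dg_pos (g : Fin 2 → K) (m : ℕ) : 0 < dg k g m := by
  have : FiniteDimensional k K := E4_fd
  exact Module.finrank_pos

private noncomputable abbrev E4_F (k : Type) {K : Type} [Field k] [Field K] [Algebra k K]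
    (g : Fin 2 → K) (m : ℕ) : IntermediateField k K :=
  IntermediateField.adjoin k (Set.range fun i => g i ^ m)

private theorem E4_mem (g : Fin 2 → K) (m : ℕ) (i : Fin 2) : g i ^ m ∈ E4_F k g m :=
  IntermediateField.subset_adjoin k _ ⟨i, rfl⟩

private theorem E4_le (g : Fin 2 → K) {m n : ℕ} (h : m ∣ n) : E4_F k g n ≤ E4_F k g m := by
  obtain ⟨q, rfl⟩ := h
  rw [IntermediateField.adjoin_le_iff]
  rintro _ ⟨i, rfl⟩
  show g i ^ (m * q) ∈ E4_F k g m
  rw [pow_mul]
  exact pow_mem (E4_mem g m i) q

private theorem E4_sup (g : Fin 2 → K) (hg : ∀ i, g i ≠ 0) {m n : ℕ} (h : m.Coprime n) :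
    E4_F k g m ⊔ E4_F k g n = E4_F k g 1 := by
  apply le_antisymm
  · exact sup_le (E4_le g (one_dvd m)) (E4_le g (one_dvd n))
  · rw [IntermediateField.adjoin_le_iff]
    rintro _ ⟨i, rfl⟩
    show g i ^ 1 ∈ E4_F k g m ⊔ E4_F k g n
    have hb := Nat.gcd_eq_gcd_ab m n
    rw [h] at hb
    have e : g i ^ 1 = (g i ^ m) ^ (Nat.gcdA m n) * (g i ^ n) ^ (Nat.gcdB m n) := by
      rw [← zpow_natCast (g i) m, ← zpow_natCast (g i) n, ← zpow_mul, ← zpow_mul,
        ← zpow_add₀ (hg i), ← hb]
      simp
    rw [e]
    have h1 : g i ^ m ∈ E4_F k g m ⊔ E4_F k g n :=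
      (le_sup_left : E4_F k g m ≤ E4_F k g m ⊔ E4_F k g n) (E4_mem g m i)
    have h2 : g i ^ n ∈ E4_F k g m ⊔ E4_F k g n :=
      (le_sup_right : E4_F k g n ≤ E4_F k g m ⊔ E4_F k g n) (E4_mem g n i)
    exact mul_mem (zpow_mem h1 _) (zpow_mem h2 _)

private theorem E4_dvd (g : Fin 2 → K) (m : ℕ) : dg k g m ∣ dg k g 1 :=
  IntermediateField.finrank_dvd_of_le_right (E4_le g (one_dvd m))

/-- the submodular inequality for degrees -/
private theorem E4_submod (g : Fin 2 → K) (hg : ∀ i, g i ≠ 0) {m n : ℕ} (h : m.Coprime n) :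
    dg k g 1 * dg k g (m * n) ≤ dg k g m * dg k g n := by
  have hm : E4_F k g (m * n) ≤ E4_F k g m := E4_le g (Dvd.intro _ rfl)
  have hn : E4_F k g (m * n) ≤ E4_F k g n := E4_le g (Dvd.intro_left _ rfl)
  have h1 : E4_F k g (m * n) ≤ E4_F k g 1 := E4_le g (one_dvd _)
  have key := IntermediateField.finrank_sup_le (E1 := IntermediateField.extendScalars hm)
    (E2 := IntermediateField.extendScalars hn)
  have e1 := IntermediateField.finrank_bot_mul_relfinrank hm
  have e2 := IntermediateField.finrank_bot_mul_relfinrank hn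
  have e3 := IntermediateField.finrank_bot_mul_relfinrank h1
  rw [IntermediateField.relfinrank_eq_finrank_of_le hm] at e1
  rw [IntermediateField.relfinrank_eq_finrank_of_le hn] at e2
  rw [IntermediateField.relfinrank_eq_finrank_of_le h1] at e3
  have key2 : Module.finrank (E4_F k g (m * n)) (IntermediateField.extendScalars h1) ≤
      Module.finrank (E4_F k g (m * n)) (IntermediateField.extendScalars hm) *
        Module.finrank (E4_F k g (m * n)) (IntermediateField.extendScalars hn) := by
    refine le_trans (le_of_eq ?_) key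
    rw [IntermediateField.extendScalars_sup]
    have hs := E4_sup (k := k) g hg h
    have : ∀ (A B : IntermediateField k K) (hA : E4_F k g (m * n) ≤ A)
        (hB : E4_F k g (m * n) ≤ B), A = B →
        Module.finrank (E4_F k g (m * n)) (IntermediateField.extendScalars hA) =
        Module.finrank (E4_F k g (m * n)) (IntermediateField.extendScalars hB) := by
      rintro A B hA hB rfl
      rfl
    exact this _ _ _ _ hs.symm
  show Module.finrank k (E4_F k g 1) * Module.finrank k (E4_F k g (m * n)) ≤
    Module.finrank k (E4_F k g m) * Module.finrank k (E4_F k g n)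
  rw [← e1, ← e2, ← e3]
  calc _ = Module.finrank k (E4_F k g (m * n)) * Module.finrank k (E4_F k g (m * n)) *
        Module.finrank (E4_F k g (m * n)) (IntermediateField.extendScalars h1) := by ring
    _ ≤ Module.finrank k (E4_F k g (m * n)) * Module.finrank k (E4_F k g (m * n)) *
        (Module.finrank (E4_F k g (m * n)) (IntermediateField.extendScalars hm) *
        Module.finrank (E4_F k g (m * n)) (IntermediateField.extendScalars hn)) :=
        Nat.mul_le_mul_left _ key2
    _ = _ := by ring

private theorem E4_ind (g : Fin 2 → K) (hg : ∀ i, g i ≠ 0) (r : ℕ) : ∀ (N m : ℕ) (P : Finset ℕ),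
    (∀ p ∈ P, p.Prime) → (∀ p ∈ P, m.Coprime p) → dg k g m ≤ N →
    ∃ R ⊆ P, (R.card : ℝ) ≤ r * Real.logb 2 (dg k g m) ∧
      ∀ S ⊆ P \ R, S.card ≤ r → dg k g (∏ p ∈ S, p) = dg k g 1 := by
  intro N
  induction N with
  | zero =>
    intro m P _ _ h
    exact absurd h (by have := dg_pos (k := k) g m; omega)
  | succ N ih =>
    intro m P hP hm hN
    have hpos := dg_pos (k := k) g m
    have hpos1 : (1 : ℝ) ≤ dg k g m := by exact_mod_cast hpos
    by_cases hbad : ∃ S ⊆ P, S.card ≤ r ∧ dg k g (∏ p ∈ S, p) ≠ dg k g 1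
    · obtain ⟨S, hSP, hSr, hSb⟩ := hbad
      set n := ∏ p ∈ S, p with hn
      have hcop : m.Coprime n := Nat.Coprime.prod_right fun p hp => hm p (hSP hp)
      have hsub := E4_submod (k := k) g hg hcop
      have h2 : 2 * dg k g n ≤ dg k g 1 := by
        obtain ⟨c, hc⟩ := E4_dvd (k := k) g n
        have hp1 := dg_pos (k := k) g 1
        have hc2 : 2 ≤ c := by
          rcases c with _ | _ | c
          · rw [mul_zero] at hc; omega
          · rw [zero_add, mul_one] at hc; exact absurd hc.symm hSb
          · omega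
        rw [hc]
        calc 2 * dg k g n = dg k g n * 2 := by ring
          _ ≤ dg k g n * c := Nat.mul_le_mul_left _ hc2
      have h3 : 2 * dg k g (m * n) ≤ dg k g m := by
        have hp1 := dg_pos (k := k) g 1
        have : dg k g 1 * (2 * dg k g (m * n)) ≤ dg k g 1 * dg k g m := by
          calc dg k g 1 * (2 * dg k g (m * n)) = 2 * (dg k g 1 * dg k g (m * n)) := by ring
            _ ≤ 2 * (dg k g m * dg k g n) := Nat.mul_le_mul_left _ hsub
            _ = dg k g m * (2 * dg k g n) := by ring
            _ ≤ dg k g m * dg k g 1 := Nat.mul_le_mul_left _ h2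
            _ = dg k g 1 * dg k g m := by ring
        exact Nat.le_of_mul_le_mul_left this hp1
      have hpmn := dg_pos (k := k) g (m * n)
      obtain ⟨R, hR, hRc, hRS⟩ := ih (m * n) (P \ S) (fun p hp => hP p (Finset.mem_sdiff.1 hp).1)
        (fun p hp => by
          have hp' := Finset.mem_sdiff.1 hp
          refine Nat.Coprime.mul_left (hm p hp'.1) ?_
          refine Nat.Coprime.prod_left fun q hq => ?_
          refine (Nat.coprime_primes (hP q (hSP hq)) (hP p hp'.1)).2 ?_
          rintro rfl
          exact hp'.2 hq) (by omega)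
      refine ⟨S ∪ R, Finset.union_subset hSP (hR.trans Finset.sdiff_subset), ?_, ?_⟩
      · have hc1 : ((S ∪ R).card : ℝ) ≤ S.card + R.card := by
          exact_mod_cast Finset.card_union_le S R
        have hc2 : (S.card : ℝ) ≤ r := by exact_mod_cast hSr
        have hlog : Real.logb 2 (dg k g (m * n)) ≤ Real.logb 2 (dg k g m) - 1 := by
          have h0 : (0 : ℝ) < dg k g (m * n) := by exact_mod_cast hpmn
          have h3' : 2 * (dg k g (m * n) : ℝ) ≤ dg k g m := by exact_mod_cast h3
          have : Real.logb 2 (2 * (dg k g (m * n) : ℝ)) ≤ Real.logb 2 (dg k g m) :=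
            Real.logb_le_logb_of_le (by norm_num) (by positivity) h3'
          rw [Real.logb_mul (by norm_num) h0.ne', Real.logb_self_eq_one (by norm_num)] at this
          linarith
        calc ((S ∪ R).card : ℝ) ≤ S.card + R.card := hc1
          _ ≤ r + r * Real.logb 2 (dg k g (m * n)) := add_le_add hc2 hRc
          _ ≤ r + r * (Real.logb 2 (dg k g m) - 1) := by
              have : (0 : ℝ) ≤ r := Nat.cast_nonneg r
              nlinarith
          _ = r * Real.logb 2 (dg k g m) := by ring
      · intro T hT hTr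
        apply hRS T _ hTr
        intro p hp
        have := Finset.mem_sdiff.1 (hT hp)
        rw [Finset.mem_union, not_or] at this
        exact Finset.mem_sdiff.2 ⟨Finset.mem_sdiff.2 ⟨this.1, this.2.1⟩, this.2.2⟩
    · push Not at hbad
      refine ⟨∅, Finset.empty_subset _, ?_, ?_⟩
      · rw [Finset.card_empty, Nat.cast_zero]
        exact mul_nonneg (Nat.cast_nonneg r) (Real.logb_nonneg (by norm_num) hpos1)
      · intro S hS hSr
        rw [Finset.sdiff_empty] at hS
        exact hbad S hS hSr

/-- all products of few primes outside a small set generate the same field -/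
theorem good_primes (g : Fin 2 → K) (hg : ∀ i, g i ≠ 0) (r : ℕ) (P : Finset ℕ)
    (hP : ∀ p ∈ P, p.Prime) :
    ∃ R ⊆ P, (R.card : ℝ) ≤ r * Real.logb 2 (dg k g 1) ∧
      ∀ S ⊆ P \ R, S.card ≤ r → dg k g (∏ p ∈ S, p) = dg k g 1 :=
  E4_ind g hg r _ 1 P hP (fun _ _ => Nat.coprime_one_left _) le_rfl

end BMF
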