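import Pool.Agent.Lib.MP_a325a5_ag.F.HtC

open NumberField MvPolynomial

namespace BMF

/-- heights of constants are bounded independently of the field -/
theorem ht_const (L : Type) [Field L] [NumberField L] (a : L) :
    ∃ C : ℝ, ∀ (K : Type) [Field K] [NumberField K] [Algebra L K],
      ht (algebraMap L K a) ≤ C := by
  obtain ⟨C, _, hC⟩ := ht_bdd a
  exact ⟨C, fun K _ _ _ => hC K⟩

end BMF
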