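import Pool.Agent.Lib.MP_a325a5_ag.F.Def

open NumberField MvPolynomial

namespace BMF

section han

variable {ι : Type} {α : ι → Type}

open Classical in
/-- the number of points of `T` which agree with `x` on `S` -/
noncomputable def A10_n (TT : Finset (∀ i, α i)) (S : Set ι) (x : ∀ i, α i) : ℕ :=
  (TT.filter fun y : ∀ i, α i => ∀ j ∈ S, y j = x j).card

theorem A10_eq (TT : Finset (∀ i, α i)) (S : Set ι) (x : ∀ i, α i) (T' : Finset (∀ i, α i))
    (h : ∀ y, y ∈ T' ↔ y ∈ TT ∧ ∀ j ∈ S, y j = x j) : A10_n TT S x = T'.card := by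
  classical
  unfold A10_n
  congr 1
  ext y
  rw [Finset.mem_filter, h]

theorem A10_pos (TT : Finset (∀ i, α i)) (S : Set ι) {x : ∀ i, α i} (hx : x ∈ TT) :
    0 < A10_n TT S x := by
  classical
  unfold A10_n
  exact Finset.card_pos.2 ⟨x, Finset.mem_filter.2 ⟨hx, fun _ _ => rfl⟩⟩

theorem A10_congr (TT : Finset (∀ i, α i)) (S : Set ι) {x y : ∀ i, α i}
    (h : ∀ j ∈ S, y j = x j) : A10_n TT S y = A10_n TT S x := by
  classical
  unfold A10_n
  congr 1
  refine Finset.filter_congr fun z _ => ?_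
  exact forall₂_congr fun j hj => by rw [h j hj]

/-- the chain rule step: `H(X_q | all others) ≤ H(X_q | X_S)` -/
theorem A10_step (TT : Finset (∀ i, α i)) (S : Set ι) (q : ι) (hq : q ∉ S) :
    ∑ x ∈ TT, ((A10_n TT {j | j ≠ q} x : ℝ) * (A10_n TT (insert q S) x : ℝ)) / (A10_n TT S x : ℝ) ≤
      TT.card := by
  classical
  -- triples
  obtain ⟨P, hP⟩ : ∃ P : Finset ((∀ i, α i) × (∀ i, α i) × (∀ i, α i)),
      P = (TT ×ˢ (TT ×ˢ TT)).filter fun p => (∀ j ≠ q, p.2.1 j = p.1 j) ∧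
        ∀ j ∈ insert q S, p.2.2 j = p.1 j := ⟨_, rfl⟩
  obtain ⟨Q, hQ⟩ : ∃ Q : Finset ((∀ i, α i) × (∀ i, α i)),
      Q = (TT ×ˢ TT).filter fun p => ∀ j ∈ S, p.2 j = p.1 j := ⟨_, rfl⟩
  have h1 : ∑ x ∈ TT, ((A10_n TT {j | j ≠ q} x : ℝ) * (A10_n TT (insert q S) x : ℝ)) /
      (A10_n TT S x : ℝ) = ∑ p ∈ P, 1 / (A10_n TT S p.1 : ℝ) := by
    rw [hP, Finset.sum_filter, Finset.sum_product]
    refine Finset.sum_congr rfl fun x _ => ?_
    rw [Finset.sum_product]
    have h2 : ∀ y ∈ TT, ∀ z ∈ TT, (if (∀ j ≠ q, y j = x j) ∧ ∀ j ∈ insert q S, z j = x j then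
        1 / (A10_n TT S x : ℝ) else 0) = (if ∀ j ≠ q, y j = x j then (1 : ℝ) else 0) *
        ((if ∀ j ∈ insert q S, z j = x j then (1 : ℝ) else 0) * (1 / (A10_n TT S x : ℝ))) := by
      intro y _ z _
      by_cases a1 : ∀ j ≠ q, y j = x j
      · by_cases a2 : ∀ j ∈ insert q S, z j = x j
        · rw [if_pos ⟨a1, a2⟩, if_pos a1, if_pos a2, one_mul, one_mul]
        · rw [if_neg (fun h => a2 h.2), if_neg a2, zero_mul, mul_zero]
      · rw [if_neg (fun h => a1 h.1), if_neg a1, zero_mul]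
    rw [Finset.sum_congr rfl fun y hy => Finset.sum_congr rfl fun z hz => h2 y hy z hz]
    simp only [← Finset.mul_sum, ← Finset.sum_mul]
    rw [← Finset.sum_filter, ← Finset.sum_filter]
    simp only [Finset.sum_const, nsmul_eq_mul, mul_one]
    unfold A10_n
    simp only [Set.mem_setOf_eq]
    ring
  have hmem : ∀ p ∈ P, (p.2.1, p.2.2) ∈ Q := by
    intro p hp
    rw [hP, Finset.mem_filter, Finset.mem_product, Finset.mem_product] at hp
    rw [hQ, Finset.mem_filter, Finset.mem_product]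
    refine ⟨hp.1.2, fun j hj => ?_⟩
    have hjq : j ≠ q := fun h => hq (h ▸ hj)
    show p.2.2 j = p.2.1 j
    rw [hp.2.1 j hjq, hp.2.2 j (Or.inr hj)]
  have hinj : ∀ p ∈ P, ∀ p' ∈ P, (p.2.1, p.2.2) = (p'.2.1, p'.2.2) → p = p' := by
    intro p hp p' hp' h
    rw [hP, Finset.mem_filter] at hp hp'
    have e1 : p.2.1 = p'.2.1 := congrArg Prod.fst h
    have e2 : p.2.2 = p'.2.2 := congrArg Prod.snd h
    have e3 : p.1 = p'.1 := by
      funext j
      by_cases hj : j = q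
      · rw [hj, ← hp.2.2 q (Or.inl rfl), ← hp'.2.2 q (Or.inl rfl), e2]
      · rw [← hp.2.1 j hj, ← hp'.2.1 j hj, e1]
    exact Prod.ext e3 (Prod.ext e1 e2)
  have h3 : ∑ p ∈ P, 1 / (A10_n TT S p.1 : ℝ) = ∑ p ∈ P.image (fun p => (p.2.1, p.2.2)),
      1 / (A10_n TT S p.1 : ℝ) := by
    rw [Finset.sum_image hinj]
    refine Finset.sum_congr rfl fun p hp => ?_
    rw [hP, Finset.mem_filter] at hp
    rw [A10_congr TT S (x := p.1) (y := p.2.1) fun j hj => hp.2.1 j fun h => hq (h ▸ hj)]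
  have h4 : ∑ p ∈ P.image (fun p => (p.2.1, p.2.2)), 1 / (A10_n TT S p.1 : ℝ) ≤
      ∑ p ∈ Q, 1 / (A10_n TT S p.1 : ℝ) := by
    refine Finset.sum_le_sum_of_subset_of_nonneg (fun x hx => ?_) fun _ _ _ => by positivity
    obtain ⟨p, hp, rfl⟩ := Finset.mem_image.1 hx
    exact hmem p hp
  have h5 : ∑ p ∈ Q, 1 / (A10_n TT S p.1 : ℝ) = TT.card := by
    rw [hQ, Finset.sum_filter, Finset.sum_product]
    have h6 : ∀ x ∈ TT, ∑ y ∈ TT, (if ∀ j ∈ S, y j = x j then 1 / (A10_n TT S x : ℝ) else 0) = 1 := by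
      intro x hx
      rw [← Finset.sum_filter, Finset.sum_const, nsmul_eq_mul]
      have h7 := A10_pos TT S hx
      have h8 : ((TT.filter fun y : ∀ i, α i => ∀ j ∈ S, y j = x j).card : ℝ) =
          (A10_n TT S x : ℝ) := rfl
      rw [h8, mul_one_div, div_self]
      exact_mod_cast h7.ne'
    rw [Finset.sum_congr rfl h6]
    simp
  rw [h1, h3]
  exact h4.trans h5.le

theorem A10_log (TT : Finset (∀ i, α i)) (S : Set ι) (q : ι) (hq : q ∉ S) :
    ∑ x ∈ TT, Real.log (A10_n TT {j | j ≠ q} x : ℝ) ≤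
      ∑ x ∈ TT, (Real.log (A10_n TT S x : ℝ) - Real.log (A10_n TT (insert q S) x : ℝ)) := by
  have h1 := A10_step TT S q hq
  have h2 : ∀ x ∈ TT, Real.log (A10_n TT {j | j ≠ q} x : ℝ) -
      (Real.log (A10_n TT S x : ℝ) - Real.log (A10_n TT (insert q S) x : ℝ)) ≤
      ((A10_n TT {j | j ≠ q} x : ℝ) * (A10_n TT (insert q S) x : ℝ)) / (A10_n TT S x : ℝ) - 1 := by
    intro x hx
    have p1 : (0 : ℝ) < A10_n TT {j | j ≠ q} x := by exact_mod_cast A10_pos TT _ hx
    have p2 : (0 : ℝ) < A10_n TT (insert q S) x := by exact_mod_cast A10_pos TT _ hx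
    have p3 : (0 : ℝ) < A10_n TT S x := by exact_mod_cast A10_pos TT _ hx
    have h3 := Real.log_le_sub_one_of_pos (div_pos (mul_pos p1 p2) p3)
    rw [Real.log_div (mul_pos p1 p2).ne' p3.ne', Real.log_mul p1.ne' p2.ne'] at h3
    linarith
  have h3 := Finset.sum_le_sum h2
  rw [Finset.sum_sub_distrib, Finset.sum_sub_distrib (f := fun x => ((A10_n TT {j | j ≠ q} x : ℝ) *
    (A10_n TT (insert q S) x : ℝ)) / (A10_n TT S x : ℝ))] at h3
  rw [Finset.sum_const, nsmul_eq_mul, mul_one] at h3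
  linarith

theorem A10_chain (TT : Finset (∀ i, α i)) (S : Finset ι) :
    ∑ x ∈ TT, ∑ q ∈ S, Real.log (A10_n TT {j | j ≠ q} x : ℝ) ≤
      ∑ x ∈ TT, (Real.log (TT.card : ℝ) - Real.log (A10_n TT (S : Set ι) x : ℝ)) := by
  classical
  induction S using Finset.induction_on with
  | empty =>
    refine Finset.sum_le_sum fun x _ => ?_
    have h1 : A10_n TT ((∅ : Finset ι) : Set ι) x = TT.card :=
      A10_eq TT _ x TT fun y => by simp
    rw [h1, Finset.sum_empty, sub_self]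
  | insert q S hq ih =>
    have h1 := A10_log TT (S : Set ι) q (by simpa using hq)
    have h2 : ∑ x ∈ TT, ∑ q' ∈ insert q S, Real.log (A10_n TT {j | j ≠ q'} x : ℝ) =
        ∑ x ∈ TT, Real.log (A10_n TT {j | j ≠ q} x : ℝ) +
        ∑ x ∈ TT, ∑ q' ∈ S, Real.log (A10_n TT {j | j ≠ q'} x : ℝ) := by
      rw [← Finset.sum_add_distrib]
      refine Finset.sum_congr rfl fun x _ => ?_
      rw [Finset.sum_insert hq]
    rw [h2, Finset.coe_insert]
    have h3 : ∑ x ∈ TT, (Real.log (TT.card : ℝ) - Real.log (A10_n TT (insert q (S : Set ι)) x : ℝ)) =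
        ∑ x ∈ TT, (Real.log (A10_n TT (S : Set ι) x : ℝ) -
          Real.log (A10_n TT (insert q (S : Set ι)) x : ℝ)) +
        ∑ x ∈ TT, (Real.log (TT.card : ℝ) - Real.log (A10_n TT (S : Set ι) x : ℝ)) := by
      rw [← Finset.sum_add_distrib]
      refine Finset.sum_congr rfl fun x _ => ?_
      ring
    rw [h3]
    linarith

end han

open Classical in
/-- Han's inequality for the uniform measure on a finite subset of a finite product -/
theorem han {ι : Type} [Fintype ι] {α : ι → Type} (TT : Finset (∀ i, α i)) :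
    ∑ x ∈ TT, ∑ q : ι, Real.log ((TT.filter fun y : ∀ i, α i =>
      ∀ j, j ≠ q → y j = x j).card : ℝ) ≤ TT.card * Real.log (TT.card : ℝ) := by
  have h1 := A10_chain TT Finset.univ
  have h2 : ∑ x ∈ TT, (Real.log (TT.card : ℝ) -
      Real.log (A10_n TT ((Finset.univ : Finset ι) : Set ι) x : ℝ)) =
      TT.card * Real.log (TT.card : ℝ) := by
    have h3 : ∀ x ∈ TT, Real.log (TT.card : ℝ) -
        Real.log (A10_n TT ((Finset.univ : Finset ι) : Set ι) x : ℝ) = Real.log (TT.card : ℝ) := by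
      intro x hx
      have h4 : A10_n TT ((Finset.univ : Finset ι) : Set ι) x = 1 := by
        rw [A10_eq TT _ x {x} fun y => ?_, Finset.card_singleton]
        rw [Finset.mem_singleton]
        constructor
        · rintro rfl
          exact ⟨hx, fun _ _ => rfl⟩
        · rintro ⟨_, h⟩
          exact funext fun j => h j (by simp)
      rw [h4, Nat.cast_one, Real.log_one, sub_zero]
    rw [Finset.sum_congr rfl h3, Finset.sum_const, nsmul_eq_mul]
  rw [h2] at h1
  refine le_trans (le_of_eq ?_) h1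
  refine Finset.sum_congr rfl fun x _ => Finset.sum_congr rfl fun q _ => ?_
  rw [A10_eq TT {j | j ≠ q} x (TT.filter fun y : ∀ i, α i => ∀ j, j ≠ q → y j = x j) fun y => ?_]
  rw [Finset.mem_filter]
  exact Iff.rfl

end BMF
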