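import Pool.Agent.Lib.MP_a325a5_ag.F.E1

/-! Different powers of a point give different closed points.

Equal kernels give `minpoly ℚ (g 0 ^ m) = minpoly ℚ (g 0 ^ n)`; so an automorphism `σ` of a finite
normal extension maps `g 0 ^ m` to `g 0 ^ n`, and with `d` the order of `σ` one gets
`g 0 ^ (m ^ d) = g 0 ^ (n ^ d)`. -/

open NumberField MvPolynomial

namespace BMF

theorem e2_pow {F L : Type} [Field F] [Field L] [Algebra F L] (σ : L ≃ₐ[F] L) (x : L) (m n : ℕ)
    (h : σ (x ^ m) = x ^ n) (j : ℕ) : (σ ^ j) (x ^ (m ^ j)) = x ^ (n ^ j) := by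
  induction j with
  | zero => simp
  | succ j ih =>
    have e1 : σ (x ^ m ^ (j + 1)) = (x ^ m ^ j) ^ n := by
      rw [pow_succ' m j, pow_mul, map_pow, h, ← pow_mul, ← pow_mul, mul_comm n]
    rw [pow_succ σ j, AlgEquiv.mul_apply, e1, map_pow, ih, ← pow_mul, ← pow_succ]

theorem e2_core {F K : Type} [Field F] [Field K] [Algebra F K] [FiniteDimensional F K] (x : K)
    (hx : x ≠ 0) (hnt : ∀ n : ℕ, 0 < n → x ^ n ≠ 1) {m n : ℕ} (hmn : m ≠ n)
    (h : minpoly F (x ^ m) = minpoly F (x ^ n)) : False := by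
  let N := IntermediateField.normalClosure F K (AlgebraicClosure F)
  have φ : K →ₐ[F] AlgebraicClosure F := IsAlgClosed.lift
  have i : K →ₐ[F] N := (normalClosure.algHomEquiv F K (AlgebraicClosure F)).symm φ
  have hN : Normal F N := normalClosure.normal F K (AlgebraicClosure F)
  have hconj : IsConjRoot F (i (x ^ n)) (i (x ^ m)) := by
    change minpoly F (i (x ^ n)) = minpoly F (i (x ^ m))
    rw [minpoly.algHom_eq i i.injective, minpoly.algHom_eq i i.injective, h]
  obtain ⟨σ, hσ⟩ := isConjRoot_iff_exists_algEquiv.mp hconj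
  have hσ2 : σ (i x ^ m) = i x ^ n := by
    rw [← map_pow i, hσ, map_pow i]
  have hfin : Finite (N ≃ₐ[F] N) := inferInstance
  have hord : 0 < orderOf σ := orderOf_pos σ
  have h1 := e2_pow σ (i x) m n hσ2 (orderOf σ)
  rw [pow_orderOf_eq_one, AlgEquiv.one_apply, ← map_pow, ← map_pow] at h1
  have h2 : x ^ (m ^ orderOf σ) = x ^ (n ^ orderOf σ) := i.injective h1
  have h3 : ∀ a b : ℕ, a < b → x ^ a = x ^ b → False := by
    intro a b hab h
    refine hnt (b - a) (by omega) ?_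
    have h4 : x ^ a * x ^ (b - a) = x ^ a * 1 := by
      rw [← pow_add, Nat.add_sub_cancel' hab.le, mul_one, ← h]
    exact mul_left_cancel₀ (pow_ne_zero a hx) h4
  rcases lt_or_gt_of_ne hmn with h | h
  · exact h3 _ _ (Nat.pow_lt_pow_left h hord.ne') h2
  · exact h3 _ _ (Nat.pow_lt_pow_left h hord.ne') h2.symm

variable {M : ℕ} {k K : Type} [Field k] [NumberField k] [Field K] [NumberField K] [Algebra k K]

theorem e2_ev (φ : k →+* k) (m : ℕ) (g : Fin 2 → K) (P : Polynomial ℚ) :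
    ev φ m g (Polynomial.eval₂ ((C : k →+* P2 k).comp (algebraMap ℚ k)) (X 0) P) =
      Polynomial.aeval (g 0 ^ m) P := by
  rw [Polynomial.hom_eval₂, Polynomial.aeval_def]
  have h : (ev φ m g).comp ((C : k →+* P2 k).comp (algebraMap ℚ k)) = algebraMap ℚ K :=
    RingHom.ext_rat _ _
  have h2 : ev φ m g (X 0) = g 0 ^ m := by
    unfold ev
    rw [coe_eval₂Hom, eval₂_X]
  rw [h, h2]

/-- different powers give different closed points -/
theorem ker_ev_ne (Z : Cyc M k) (g : Fin 2 → K) (hg : g 0 ≠ 0) (hnt : ∀ n : ℕ, 0 < n → g 0 ^ n ≠ 1)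
    {m n : ℕ} (hm : m.Coprime M) (hn : n.Coprime M) (hm0 : 0 < m) (hn0 : 0 < n) (hmn : m ≠ n) :
    RingHom.ker (ev (Z.fr m) m g) ≠ RingHom.ker (ev (Z.fr n) n g) := by
  intro hker
  have hint : IsIntegral ℚ (g 0 ^ m) := Algebra.IsIntegral.isIntegral _
  have hz : Polynomial.aeval (g 0 ^ n) (minpoly ℚ (g 0 ^ m)) = 0 := by
    have h1 : Polynomial.eval₂ ((C : k →+* P2 k).comp (algebraMap ℚ k)) (X 0)
        (minpoly ℚ (g 0 ^ m)) ∈ RingHom.ker (ev (Z.fr m) m g) := by
      rw [RingHom.mem_ker, e2_ev]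
      exact minpoly.aeval ℚ _
    rw [hker, RingHom.mem_ker, e2_ev] at h1
    exact h1
  exact e2_core (g 0) hg hnt hmn
    (minpoly.eq_of_irreducible_of_monic (minpoly.irreducible hint) hz (minpoly.monic hint))

end BMF
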