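import Pool.Agent.Lib.MP_a325a5_ag.F.Def

open NumberField MvPolynomial

namespace BMF

/-- enough primes between `X` and `8 X` -/
theorem exists_primes : ∃ X0 : ℝ, 1 ≤ X0 ∧ ∀ X : ℝ, X0 ≤ X → ∃ P : Finset ℕ,
    (∀ p ∈ P, p.Prime ∧ X < p ∧ (p : ℝ) ≤ 8 * X) ∧ X ^ (3 / 4 : ℝ) ≤ P.card := by
  refine ⟨16 ^ 8, by norm_num, fun X hX => ?_⟩
  have hX0 : (0 : ℝ) < X := lt_of_lt_of_le (by positivity) hX
  obtain ⟨t, ht⟩ : ∃ t : ℝ, t = X ^ (1 / 8 : ℝ) := ⟨_, rfl⟩
  have ht16 : 16 ≤ t := by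
    have h1 : ((16 : ℝ) ^ 8) ^ (1 / 8 : ℝ) ≤ t := by
      rw [ht]
      exact Real.rpow_le_rpow (by positivity) hX (by norm_num)
    have h2 : ((16 : ℝ) ^ 8) ^ (1 / 8 : ℝ) = 16 := by
      rw [← Real.rpow_natCast, ← Real.rpow_mul (by norm_num)]
      norm_num
    rwa [h2] at h1
  have ht0 : 0 < t := by linarith
  have htX : t ^ 8 = X := by
    rw [ht, ← Real.rpow_natCast, ← Real.rpow_mul hX0.le]
    norm_num
  have ht6 : X ^ (3 / 4 : ℝ) = t ^ 6 := by
    rw [ht, ← Real.rpow_natCast, ← Real.rpow_mul hX0.le]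
    norm_num
  rw [ht6]
  have hlog2 := Real.log_two_gt_d9
  have hlog2' := Real.log_two_lt_d9
  have hlogt : Real.log t ≤ t - 1 := Real.log_le_sub_one_of_pos ht0
  have hlog8 : Real.log (8 * X) ≤ 8 * t := by
    rw [← htX, Real.log_mul (by norm_num) (by positivity), Real.log_pow,
      show (8 : ℝ) = 2 ^ 3 by norm_num, Real.log_pow]
    push_cast
    linarith
  have hlog8' : 0 < Real.log (8 * X) := Real.log_pos (by nlinarith)
  -- lower bound for theta
  have h1 := Chebyshev.theta_ge' (x := 8 * X) (by nlinarith)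
  have h2 := Chebyshev.theta_le_log4_mul_x (x := X) hX0.le
  have h3 : Real.log 4 = 2 * Real.log 2 := by
    rw [show (4 : ℝ) = 2 ^ 2 by norm_num, Real.log_pow]
    push_cast
    ring
  have h4 : Real.log (8 * X + 2) ≤ 1 + 8 * t := by
    have h5 : Real.log (8 * X + 2) ≤ Real.log (2 * (8 * X)) :=
      Real.log_le_log (by positivity) (by nlinarith)
    rw [Real.log_mul (by norm_num) (by positivity)] at h5
    linarith
  have h5 : √(8 * X) ≤ 3 * t ^ 4 := by
    rw [Real.sqrt_le_left (by positivity), ← htX]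
    nlinarith [pow_pos ht0 8]
  have h6 : 2 * √(8 * X) * Real.log (8 * X) ≤ 2 * (3 * t ^ 4) * (8 * t) :=
    mul_le_mul (by linarith) hlog8 hlog8'.le (by positivity)
  have h7 : 8 * t ^ 7 ≤ Chebyshev.theta (8 * X) - Chebyshev.theta X := by
    rw [h3] at h2
    have e1 : 2 * (3 * t ^ 4) * (8 * t) = 48 * t ^ 5 := by ring
    rw [e1] at h6
    have h8 : (8 * X - 1) * Real.log 2 - 2 * Real.log 2 * X ≥ 4 * X - 1 := by nlinarith
    have p7 : 0 < t ^ 7 := by positivity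
    have p5 : 0 < t ^ 5 := by positivity
    have e8 : X = t * t ^ 7 := by rw [← htX]; ring
    have e7 : t ^ 7 = t ^ 2 * t ^ 5 := by ring
    have h9 : 256 * t ^ 5 ≤ t ^ 7 := by
      rw [e7]
      have : (256 : ℝ) ≤ t ^ 2 := by nlinarith
      nlinarith
    have h10 : t ≤ t ^ 5 := by
      have : (1 : ℝ) ≤ t ^ 4 := one_le_pow₀ (by linarith)
      have e5 : t ^ 5 = t ^ 4 * t := by ring
      rw [e5]
      nlinarith
    have h11 : 16 * t ^ 7 ≤ X := by
      rw [e8]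
      nlinarith
    nlinarith
  -- the primes
  obtain ⟨P, hP⟩ : ∃ P : Finset ℕ, P = (Finset.Ioc ⌊X⌋₊ ⌊8 * X⌋₊).filter Nat.Prime := ⟨_, rfl⟩
  have hle : ⌊X⌋₊ ≤ ⌊8 * X⌋₊ := Nat.floor_le_floor (by linarith)
  have hsplit : Chebyshev.theta (8 * X) = Chebyshev.theta X + ∑ p ∈ P, Real.log p := by
    unfold Chebyshev.theta
    rw [hP, ← Finset.sum_union]
    · congr 1
      rw [← Finset.filter_union, Finset.Ioc_union_Ioc_eq_Ioc (Nat.zero_le _) hle]
    · rw [Finset.disjoint_left]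
      intro p hp hp'
      rw [Finset.mem_filter, Finset.mem_Ioc] at hp hp'
      omega
  have hmem : ∀ p ∈ P, p.Prime ∧ X < p ∧ (p : ℝ) ≤ 8 * X := by
    intro p hp
    rw [hP, Finset.mem_filter, Finset.mem_Ioc] at hp
    refine ⟨hp.2, ?_, ?_⟩
    · exact (Nat.floor_lt hX0.le).1 hp.1.1
    · exact (Nat.le_floor_iff (by positivity)).1 hp.1.2
  refine ⟨P, hmem, ?_⟩
  have h8 : ∑ p ∈ P, Real.log p ≤ P.card * (8 * t) := by
    rw [← nsmul_eq_mul, ← Finset.sum_const]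
    refine Finset.sum_le_sum fun p hp => ?_
    obtain ⟨a1, a2, a3⟩ := hmem p hp
    exact (Real.log_le_log (by exact_mod_cast a1.pos) a3).trans hlog8
  have h9 : 8 * t ^ 7 ≤ P.card * (8 * t) := by linarith
  have e7 : 8 * t ^ 7 = t ^ 6 * (8 * t) := by ring
  rw [e7] at h9
  exact le_of_mul_le_mul_right h9 (by positivity)

end BMF
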