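import Pool.Agent.Lib.MP_a325a5_ag.F.Def

open NumberField MvPolynomial

namespace BMF

variable {M : ℕ} {k K : Type} [Field k] [NumberField k] [Field K] [NumberField K] [Algebra k K]

theorem N4_finrank (Z : Cyc M k) : Module.finrank ℚ k = M.totient := by
  have h1 : IsIntegral ℚ Z.ζ := Algebra.IsIntegral.isIntegral _
  have h2 := IntermediateField.adjoin.finrank h1
  rw [Z.gen, IntermediateField.finrank_top', ← Polynomial.cyclotomic_eq_minpoly_rat Z.prim Z.pos,
    Polynomial.natDegree_cyclotomic] at h2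
  exact h2

theorem N4_tower : Module.finrank ℚ k * Module.finrank k K = Module.finrank ℚ K :=
  Module.finrank_mul_finrank ℚ k K

theorem totient_mul_dg_le (Z : Cyc M k) (g : Fin 2 → K) :
    M.totient * dg k g 1 ≤ Module.finrank ℚ K := by
  have : FiniteDimensional k K := Module.Finite.of_restrictScalars_finite ℚ k K
  rw [← N4_finrank Z, ← N4_tower (k := k) (K := K)]
  refine Nat.mul_le_mul_left _ ?_
  unfold dg
  exact Submodule.finrank_le (IntermediateField.adjoin k
    (Set.range fun i => g i ^ 1)).toSubalgebra.toSubmodule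

/-- the totient is at least `2 ^ (ω - 1)` -/
theorem N4_two_pow {M : ℕ} (hM : 0 < M) : 2 ^ M.primeFactors.card ≤ 2 * M.totient := by
  classical
  have h1 : ∏ p ∈ M.primeFactors, (p - 1) ≤ M.totient := by
    rw [Nat.totient_eq_div_primeFactors_mul]
    refine Nat.le_mul_of_pos_left _ ?_
    exact Nat.div_pos (Nat.le_of_dvd hM (Nat.prod_primeFactors_dvd M))
      (Finset.prod_pos fun p hp => (Nat.prime_of_mem_primeFactors hp).pos)
  have h2 : 2 ^ M.primeFactors.card ≤ 2 * ∏ p ∈ M.primeFactors, (p - 1) := by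
    have h3 : ∀ p ∈ M.primeFactors.erase 2, 2 ≤ p - 1 := by
      intro p hp
      rw [Finset.mem_erase] at hp
      have h4 := (Nat.prime_of_mem_primeFactors hp.2).two_le
      omega
    have h5 : 2 ^ (M.primeFactors.erase 2).card ≤ ∏ p ∈ M.primeFactors.erase 2, (p - 1) := by
      rw [← Finset.prod_const]
      exact Finset.prod_le_prod' h3
    by_cases h6 : 2 ∈ M.primeFactors
    · rw [← Finset.mul_prod_erase _ _ h6, ← Finset.card_erase_add_one h6, pow_succ]
      omega
    · rw [Finset.erase_eq_of_notMem h6] at h5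
      omega
  omega

/-- few primes divide `M` -/
theorem card_primes_dvd (Z : Cyc M k) : ((M.primeFactors).card : ℝ) ≤
    2 * Real.logb 2 (Module.finrank ℚ K) + 2 := by
  have h1 := N4_two_pow Z.pos
  have h2 : M.totient ≤ Module.finrank ℚ K := by
    rw [← N4_finrank Z, ← N4_tower (k := k) (K := K)]
    have : FiniteDimensional k K := Module.Finite.of_restrictScalars_finite ℚ k K
    exact Nat.le_mul_of_pos_right _ (Module.finrank_pos (R := k) (M := K))
  have h3 : (2 : ℝ) ^ ((M.primeFactors).card : ℝ) ≤ 2 * (Module.finrank ℚ K : ℝ) := by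
    rw [Real.rpow_natCast]
    exact_mod_cast h1.trans (Nat.mul_le_mul_left 2 h2)
  have hD : (1 : ℝ) ≤ (Module.finrank ℚ K : ℝ) := by
    exact_mod_cast (Module.finrank_pos : 0 < Module.finrank ℚ K)
  have h4 : ((M.primeFactors).card : ℝ) ≤ Real.logb 2 (2 * (Module.finrank ℚ K : ℝ)) := by
    rw [Real.le_logb_iff_rpow_le (by norm_num) (by linarith)]
    exact h3
  rw [Real.logb_mul (by norm_num) (by linarith), Real.logb_self_eq_one (by norm_num)] at h4
  have h5 : 0 ≤ Real.logb 2 (Module.finrank ℚ K : ℝ) := Real.logb_nonneg (by norm_num) hD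
  linarith

end BMF
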