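import Pool.Agent.Lib.MP_a325a5_ag.F.Def

open NumberField MvPolynomial

namespace BMF

private theorem P1_aux {k : Type} [Field k] (A1 A2 : Algebra ℚ k) (z : k)
    (h : @IntermediateField.adjoin ℚ _ k _ A1 {z} = ⊤) :
    @IntermediateField.adjoin ℚ _ k _ A2 {z} = ⊤ := by
  have e : A1 = A2 := Subsingleton.elim _ _
  subst e
  exact h

/-- the cyclotomic field inside a number field containing a primitive root of unity -/
theorem exists_cyc {K : Type} [Field K] [NumberField K] {M : ℕ} (hM : 0 < M) {ζ : K}
    (hζ : IsPrimitiveRoot ζ M) :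
    ∃ (k : Type) (_ : Field k) (_ : NumberField k) (_ : Algebra k K), Nonempty (Cyc M k) := by
  classical
  let k : IntermediateField ℚ K := IntermediateField.adjoin ℚ {ζ}
  have hint : IsIntegral ℚ ζ := Algebra.IsIntegral.isIntegral ζ
  let pb : PowerBasis ℚ k := IntermediateField.adjoin.powerBasis hint
  have hgen : pb.gen = IntermediateField.AdjoinSimple.gen ℚ ζ :=
    IntermediateField.adjoin.powerBasis_gen hint
  let z : k := IntermediateField.AdjoinSimple.gen ℚ ζ
  have hz : IsPrimitiveRoot z M := by
    have h1 : IsPrimitiveRoot (algebraMap k K z) M := by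
      have : algebraMap k K z = ζ := IntermediateField.AdjoinSimple.algebraMap_gen ℚ ζ
      rw [this]
      exact hζ
    exact IsPrimitiveRoot.of_map_of_injective h1 (algebraMap k K).injective
  have hfr : ∀ m : ℕ, ∃ f : k →+* k, m.Coprime M → f z = z ^ m := by
    intro m
    by_cases hm : m.Coprime M
    · have h2 : IsPrimitiveRoot (z ^ m) M := hz.pow_of_coprime m hm
      have h3 : Polynomial.aeval (z ^ m) (minpoly ℚ pb.gen) = 0 := by
        rw [hgen]
        change Polynomial.aeval (z ^ m) (minpoly ℚ z) = 0
        rw [← Polynomial.cyclotomic_eq_minpoly_rat hz hM,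
          Polynomial.cyclotomic_eq_minpoly_rat h2 hM]
        exact minpoly.aeval ℚ (z ^ m)
      refine ⟨(pb.lift (z ^ m) h3).toRingHom, fun _ => ?_⟩
      have h4 := pb.lift_gen (z ^ m) h3
      rw [hgen] at h4
      exact h4
    · exact ⟨RingHom.id k, fun h => absurd h hm⟩
  choose fr hfr using hfr
  refine ⟨k, inferInstance, inferInstance, inferInstance, ⟨⟨hM, z, hz, ?_, fr, fun m hm => hfr m hm⟩⟩⟩
  refine P1_aux k.algebra' _ z ?_
  apply IntermediateField.lift_injective k
  rw [IntermediateField.lift_top, IntermediateField.lift_adjoin, Set.image_singleton]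
  rfl

end BMF
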