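import Pool.Agent.Lib.MP_a325a5_ag.F.Hgt

open NumberField MvPolynomial

namespace BMF

private theorem Hn_emb {K : Type} [Field K] [NumberField K] (x : K) (φ : K →+* ℂ) {W : ℝ}
    (hW : (Module.finrank ℚ K : ℝ) * ht x ≤ W) (hW0 : 0 ≤ W) : ‖φ x‖ ≤ Real.exp W := by
  rcases eq_or_ne x 0 with rfl | hx
  · simp [Real.exp_nonneg]
  have h1 : max (lg (.inl φ) x) 0 ≤ (Module.finrank ℚ K : ℝ) * ht x :=
    le_tot (fs_ht x) (fun _ => le_max_right _ _) (.inl φ)
  have h2 : Real.log ‖φ x‖ ≤ W := (le_max_left _ _).trans (h1.trans hW)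
  have h3 : 0 < ‖φ x‖ := norm_pos_iff.2 ((map_ne_zero φ).2 hx)
  exact (Real.log_le_iff_le_exp h3).1 h2

/-- uniform Northcott property -/
theorem northcott (d : ℕ) (B : ℝ) : ∃ S : Set ℂ, S.Finite ∧
    ∀ (K : Type) [Field K] [NumberField K], Module.finrank ℚ K ≤ d →
      ∀ x : K, ht x ≤ B → ∀ σ : K →+* ℂ, σ x ∈ S := by
  classical
  set W : ℝ := d * |B| with hW
  have hW0 : 0 ≤ W := by positivity
  set H : ℝ := Real.exp W with hH
  have hH1 : 1 ≤ H := Real.one_le_exp hW0
  set C : ℕ := ⌈max (H * H) 1 ^ d * 2 ^ d⌉₊ with hC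
  have hU := Polynomial.bUnion_roots_finite (algebraMap ℤ ℂ) d (Set.finite_Icc (-C : ℤ) C)
  set U := ⋃ (f : Polynomial ℤ) (_ : f.natDegree ≤ d ∧ ∀ i, f.coeff i ∈ Set.Icc (-C : ℤ) C),
    ((f.map (algebraMap ℤ ℂ)).roots.toFinset : Set ℂ) with hUdef
  refine ⟨⋃ n ∈ Set.Icc 1 ⌊H⌋₊, (fun z : ℂ => (n : ℂ) * z) ⁻¹' U, ?_, ?_⟩
  · refine (Set.finite_Icc 1 ⌊H⌋₊).biUnion fun n hn => ?_
    apply hU.preimage
    intro a _ b _ hab
    have hn0 : (n : ℂ) ≠ 0 := by
      have := hn.1
      exact_mod_cast (by omega : n ≠ 0)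
    exact mul_left_cancel₀ hn0 hab
  · intro K _ _ hd x hx σ
    have hfin : (Module.finrank ℚ K : ℝ) ≤ d := by exact_mod_cast hd
    have hDW : (Module.finrank ℚ K : ℝ) * ht x ≤ W := by
      have h0 := ht_nonneg x
      calc (Module.finrank ℚ K : ℝ) * ht x ≤ d * ht x := mul_le_mul_of_nonneg_right hfin h0
        _ ≤ d * |B| := mul_le_mul_of_nonneg_left (hx.trans (le_abs_self B)) (Nat.cast_nonneg d)
    obtain ⟨n, hn0, hn, hint⟩ := NumberField.exists_nat_le_mulHeight₁ x
    have hmul : Height.mulHeight₁ x ≤ H := by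
      have h1 : Height.logHeight₁ x ≤ W := by
        have := ht_eq x
        rw [eq_div_iff finrank_pos.ne'] at this
        rw [← this, mul_comm]
        exact hDW
      rw [Height.logHeight₁_eq_log_mulHeight₁] at h1
      exact (Real.log_le_iff_le_exp (Height.mulHeight₁_pos x)).1 h1
    have hnH : (n : ℝ) ≤ H := hn.trans hmul
    refine Set.mem_biUnion (x := n) ⟨Nat.one_le_iff_ne_zero.2 hn0, Nat.le_floor hnH⟩ ?_
    show (n : ℂ) * σ x ∈ U
    have hconj : ∀ φ : K →+* ℂ, ‖φ ((n : K) * x)‖ ≤ H * H := by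
      intro φ
      rw [map_mul, map_natCast, norm_mul, Complex.norm_natCast]
      exact mul_le_mul hnH (Hn_emb x φ hDW hW0) (norm_nonneg _) (by positivity)
    have h_map := minpoly.isIntegrallyClosed_eq_field_fractions' ℚ hint
    rw [hUdef]
    simp_rw [Set.mem_iUnion]
    refine ⟨minpoly ℤ ((n : K) * x), ⟨?_, fun i => ?_⟩, ?_⟩
    · rw [← (minpoly.monic hint).natDegree_map (algebraMap ℤ ℚ), ← h_map]
      exact (minpoly.natDegree_le _).trans hd
    · rw [Set.mem_Icc, ← abs_le, ← @Int.cast_le ℝ]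
      have hb := Embeddings.coeff_bdd_of_norm_le hconj i
      have hle : max (H * H) 1 ^ Module.finrank ℚ K *
          ((Module.finrank ℚ K).choose (Module.finrank ℚ K / 2) : ℝ) ≤
          max (H * H) 1 ^ d * 2 ^ d := by
        apply mul_le_mul
        · exact pow_le_pow_right₀ (le_max_right _ _) hd
        · have h1 : (Module.finrank ℚ K).choose (Module.finrank ℚ K / 2) ≤
              2 ^ Module.finrank ℚ K := Nat.choose_le_two_pow _ _
          have h2 : 2 ^ Module.finrank ℚ K ≤ 2 ^ d := Nat.pow_le_pow_right (by norm_num) hd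
          exact_mod_cast h1.trans h2
        · positivity
        · positivity
      refine ((Eq.trans_le ?_ hb).trans hle).trans (Nat.le_ceil _)
      rw [h_map, Polynomial.coeff_map, eq_intCast, Int.norm_cast_rat, Int.norm_eq_abs,
        Int.cast_abs]
    · have hne : (minpoly ℤ ((n : K) * x)).map (algebraMap ℤ ℂ) ≠ 0 :=
        ((minpoly.monic hint).map _).ne_zero
      rw [Finset.mem_coe, Multiset.mem_toFinset, Polynomial.mem_roots hne, Polynomial.IsRoot.def,
        Polynomial.eval_map]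
      have h1 : Polynomial.aeval ((n : K) * x) (minpoly ℤ ((n : K) * x)) = 0 := minpoly.aeval _ _
      have h2 := congrArg σ h1
      rw [map_zero, Polynomial.aeval_def, Polynomial.hom_eval₂, map_mul, map_natCast] at h2
      have e : σ.comp (algebraMap ℤ K) = algebraMap ℤ ℂ := RingHom.ext_int _ _
      rw [e] at h2
      exact h2

end BMF
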