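import Pool.Agent.Lib.MP_a325a5_ag.F.Def
import Pool.Agent.Lib.MP_a325a5_ag.F.Hn

open NumberField MvPolynomial

namespace BMF

/-- small degree: heights of numbers which are not roots of unity are bounded below -/
theorem ht_lower (D0 : ℕ) : ∃ c : ℝ, 0 < c ∧ ∀ (K : Type) [Field K] [NumberField K],
    Module.finrank ℚ K ≤ D0 → ∀ g : K, g ≠ 0 → (∀ n : ℕ, 0 < n → g ^ n ≠ 1) → c ≤ ht g := by
  classical
  obtain ⟨S, hS, hN⟩ := northcott D0 1
  refine ⟨1 / ((hS.toFinset.card : ℝ) + 1), by positivity, ?_⟩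
  intro K _ _ hK g hg hroot
  by_contra hcon
  rw [not_le, lt_div_iff₀ (by positivity)] at hcon
  obtain ⟨w⟩ : Nonempty (InfinitePlace K) := inferInstance
  have hmem : ∀ j ∈ Finset.Icc 1 (hS.toFinset.card + 1), w.embedding (g ^ j) ∈ hS.toFinset := by
    intro j hj
    rw [Finset.mem_Icc] at hj
    rw [hS.mem_toFinset]
    refine hN K hK _ ?_ _
    rw [ht_pow]
    have h1 : (j : ℝ) ≤ (hS.toFinset.card : ℝ) + 1 := by exact_mod_cast hj.2
    have h2 := ht_nonneg g
    nlinarith
  obtain ⟨i, hi, j, hj, hij, heq⟩ := Finset.exists_ne_map_eq_of_card_lt_of_maps_to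
    (by rw [Nat.card_Icc]; omega) hmem
  have key : ∀ i j : ℕ, i < j → w.embedding (g ^ i) = w.embedding (g ^ j) → False := by
    intro i j hlt h
    have h1 := w.embedding.injective h
    refine hroot (j - i) (by omega) ?_
    have h2 : g ^ i * g ^ (j - i) = g ^ i * 1 := by
      rw [← pow_add, mul_one, show i + (j - i) = j by omega, h1]
    exact mul_left_cancel₀ (pow_ne_zero _ hg) h2
  rcases lt_or_gt_of_ne hij with h | h
  · exact key i j h heq
  · exact key j i h heq.symm

end BMF
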