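import Pool.Agent.Lib.MP_a325a5_ag.F.Def

open NumberField MvPolynomial

namespace BMF

variable {k : Type} [Field k]

theorem wt_nonneg (L : Fin 2 → ℕ) (f : P2 k) : 0 ≤ wt L f := by
  unfold wt; positivity

theorem wt_mul (L : Fin 2 → ℕ) {f h : P2 k} (hf : f ≠ 0) (hh : h ≠ 0) :
    wt L (f * h) = wt L f + wt L h := by
  unfold wt
  rw [degreeOf_mul_eq hf hh, degreeOf_mul_eq hf hh]
  push_cast
  ring

theorem wt_mono_dvd (L : Fin 2 → ℕ) {f h : P2 k} (hh : h ≠ 0) (hd : f ∣ h) :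
    wt L f ≤ wt L h := by
  obtain ⟨g, rfl⟩ := hd
  rw [wt_mul L (left_ne_zero_of_mul hh) (right_ne_zero_of_mul hh)]
  have := wt_nonneg L g
  linarith

/-- weight zero means constant -/
theorem wt_eq_zero {L : Fin 2 → ℕ} {f : P2 k} (h : wt L f = 0) : ∃ c : k, f = C c := by
  unfold wt at h
  have h0 : (0 : ℝ) ≤ (f.degreeOf 0 : ℝ) / (L 0 + 1) := by positivity
  have h1 : (0 : ℝ) ≤ (f.degreeOf 1 : ℝ) / (L 1 + 1) := by positivity
  have e0 : (f.degreeOf 0 : ℝ) / (L 0 + 1) = 0 := by linarith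
  have e1 : (f.degreeOf 1 : ℝ) / (L 1 + 1) = 0 := by linarith
  have p0 : (0 : ℝ) < (L 0 : ℝ) + 1 := by positivity
  have p1 : (0 : ℝ) < (L 1 : ℝ) + 1 := by positivity
  rw [div_eq_zero_iff] at e0 e1
  have d0 : f.degreeOf 0 = 0 := by
    have := e0.resolve_right p0.ne'
    exact_mod_cast this
  have d1 : f.degreeOf 1 = 0 := by
    have := e1.resolve_right p1.ne'
    exact_mod_cast this
  refine ⟨coeff 0 f, totalDegree_eq_zero_iff_eq_C.1 ?_⟩
  rw [← Nat.le_zero, totalDegree, Finset.sup_le_iff]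
  intro m hm
  have h2 := monomial_le_degreeOf 0 hm
  have h3 := monomial_le_degreeOf 1 hm
  have : m = 0 := by
    ext i
    fin_cases i
    · simp only [Fin.zero_eta, Finsupp.coe_zero, Pi.zero_apply]
      omega
    · simp only [Fin.mk_one, Finsupp.coe_zero, Pi.zero_apply]
      omega
  rw [this]
  simp

theorem degreeOf_le_wt (L : Fin 2 → ℕ) (f : P2 k) (i : Fin 2) :
    (f.degreeOf i : ℝ) ≤ wt L f * (L i + 1) := by
  have p0 : (0 : ℝ) < (L 0 : ℝ) + 1 := by positivity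
  have p1 : (0 : ℝ) < (L 1 : ℝ) + 1 := by positivity
  have h0 : (0 : ℝ) ≤ (f.degreeOf 0 : ℝ) / (L 0 + 1) := by positivity
  have h1 : (0 : ℝ) ≤ (f.degreeOf 1 : ℝ) / (L 1 + 1) := by positivity
  unfold wt
  fin_cases i
  · simp only [Fin.zero_eta]
    rw [← div_le_iff₀ p0]
    linarith
  · simp only [Fin.mk_one]
    rw [← div_le_iff₀ p1]
    linarith

/-- the two mixed products of the degrees are bounded by the product of the weights -/
theorem deg_mul_le_wt (L : Fin 2 → ℕ) (f h : P2 k) :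
    ((f.degreeOf 0 * h.degreeOf 1 + f.degreeOf 1 * h.degreeOf 0 : ℕ) : ℝ) ≤
      ((L 0 : ℝ) + 1) * ((L 1 : ℝ) + 1) * wt L f * wt L h := by
  have p0 : (0 : ℝ) < (L 0 : ℝ) + 1 := by positivity
  have p1 : (0 : ℝ) < (L 1 : ℝ) + 1 := by positivity
  unfold wt
  push_cast
  have a0 : (0 : ℝ) ≤ (f.degreeOf 0 : ℝ) := by positivity
  have a1 : (0 : ℝ) ≤ (f.degreeOf 1 : ℝ) := by positivity
  have b0 : (0 : ℝ) ≤ (h.degreeOf 0 : ℝ) := by positivity
  have b1 : (0 : ℝ) ≤ (h.degreeOf 1 : ℝ) := by positivity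
  generalize (f.degreeOf 0 : ℝ) = x0 at *
  generalize (f.degreeOf 1 : ℝ) = x1 at *
  generalize (h.degreeOf 0 : ℝ) = y0 at *
  generalize (h.degreeOf 1 : ℝ) = y1 at *
  generalize (L 0 : ℝ) + 1 = A at *
  generalize (L 1 : ℝ) + 1 = B at *
  have e : A * B * (x0 / A + x1 / B) * (y0 / A + y1 / B) =
      x0 * y1 + x1 * y0 + (x0 * y0 * (B / A) + x1 * y1 * (A / B)) := by
    field_simp
    ring
  rw [e]
  have : 0 ≤ x0 * y0 * (B / A) + x1 * y1 * (A / B) := by positivity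
  linarith

private lemma a1_deg (φ : k →+* k) (p : ℕ) (hp : 0 < p) (B : P2 k) (i : Fin 2) :
    (psi φ p B).degreeOf i = p * B.degreeOf i := by
  classical
  unfold psi
  rw [degreeOf_eq_sup, degreeOf_eq_sup, support_expand _ hp.ne',
    support_map_of_injective _ φ.injective, Finset.sup_image]
  apply le_antisymm
  · refine Finset.sup_le fun m hm => ?_
    simp only [Function.comp_apply, Finsupp.smul_apply, smul_eq_mul]
    exact Nat.mul_le_mul_left _ (Finset.le_sup (f := fun m : Fin 2 →₀ ℕ => m i) hm)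
  · rcases B.support.eq_empty_or_nonempty with h | h
    · rw [h]
      simp
    · obtain ⟨m, hm, he⟩ := Finset.exists_mem_eq_sup _ h fun m : Fin 2 →₀ ℕ => m i
      rw [he]
      have := Finset.le_sup (f := (fun m : Fin 2 →₀ ℕ => m i) ∘ fun x => p • x) hm
      simpa using this

theorem wt_psi (L : Fin 2 → ℕ) (φ : k →+* k) (p : ℕ) (hp : 0 < p) (B : P2 k) :
    wt L (psi φ p B) = p * wt L B := by
  unfold wt
  rw [a1_deg φ p hp, a1_deg φ p hp]
  push_cast
  ring

end BMF
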