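import Pool.Agent.Lib.MP_a325a5_ag.F.Def

open NumberField MvPolynomial

namespace BMF

variable {k F : Type} [Field k] [Field F] [Algebra k F]

/-- a linear functional applied to the coefficients -/
private noncomputable def a7f (φ : F →ₗ[k] k) (a : P2 F) : P2 k :=
  ∑ m ∈ a.support, monomial m (φ (coeff m a))

private lemma a7f_coeff (φ : F →ₗ[k] k) (a : P2 F) (m : Fin 2 →₀ ℕ) :
    coeff m (a7f φ a) = φ (coeff m a) := by
  classical
  unfold a7f
  rw [coeff_sum]
  simp only [coeff_monomial]
  rw [Finset.sum_ite_eq']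
  split_ifs with h
  · rfl
  · rw [notMem_support_iff.1 h, map_zero]

private lemma a7f_mul (φ : F →ₗ[k] k) (a : P2 F) (f : P2 k) :
    a7f φ (a * MvPolynomial.map (algebraMap k F) f) = a7f φ a * f := by
  classical
  ext m
  rw [a7f_coeff, coeff_mul, coeff_mul, map_sum]
  refine Finset.sum_congr rfl fun x _ => ?_
  rw [a7f_coeff, coeff_map, mul_comm, ← Algebra.smul_def, map_smul, smul_eq_mul, mul_comm]

private lemma a7f_deg (φ : F →ₗ[k] k) (a : P2 F) : (a7f φ a).totalDegree ≤ a.totalDegree := by
  unfold totalDegree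
  refine Finset.sup_mono fun m hm => ?_
  rw [mem_support_iff, a7f_coeff] at hm
  rw [mem_support_iff]
  intro h0
  rw [h0, map_zero] at hm
  exact hm rfl

private lemma a7_map_ne {f : P2 k} (hf : f ≠ 0) : MvPolynomial.map (algebraMap k F) f ≠ 0 := by
  rw [Ne, map_eq_zero_iff _ (map_injective _ (algebraMap k F).injective)]
  exact hf

/-- coprimality is stable under field extensions -/
theorem relPrime_map {f h : P2 k} (hc : IsRelPrime f h) :
    IsRelPrime (MvPolynomial.map (algebraMap k F) f) (MvPolynomial.map (algebraMap k F) h) := by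
  rcases eq_or_ne f 0 with rfl | hf
  · rw [isRelPrime_zero_left] at hc
    rw [map_zero, isRelPrime_zero_left]
    exact hc.map _
  rcases eq_or_ne h 0 with rfl | hh
  · rw [isRelPrime_zero_right] at hc
    rw [map_zero, isRelPrime_zero_right]
    exact hc.map _
  have hf' : MvPolynomial.map (algebraMap k F) f ≠ 0 := a7_map_ne hf
  have hh' : MvPolynomial.map (algebraMap k F) h ≠ 0 := a7_map_ne hh
  rintro d ⟨b, hb⟩ ⟨a, ha⟩
  by_contra hd
  have hd0 : d ≠ 0 := by
    rintro rfl
    rw [zero_mul] at hb
    exact hf' hb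
  have ha0 : a ≠ 0 := by
    rintro rfl
    rw [mul_zero] at ha
    exact hh' ha
  have hdeg : 0 < d.totalDegree := by
    rw [Nat.pos_iff_ne_zero]
    intro h0
    have h1 := totalDegree_eq_zero_iff_eq_C.1 h0
    have h2 : coeff 0 d ≠ 0 := by
      intro h3
      rw [h3, map_zero] at h1
      exact hd0 h1
    exact hd (isUnit_iff_eq_C_of_isReduced.2 ⟨_, isUnit_iff_ne_zero.2 h2, h1⟩)
  have hlt : a.totalDegree < h.totalDegree := by
    have h1 := totalDegree_mul_of_isDomain hd0 ha0
    rw [← ha] at h1
    have h2 : (MvPolynomial.map (algebraMap k F) h).totalDegree ≤ h.totalDegree := by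
      unfold totalDegree
      exact Finset.sup_mono (support_map_subset _ _)
    omega
  obtain ⟨m, hm⟩ : ∃ m, coeff m a ≠ 0 := by
    by_contra hcon
    exact ha0 (MvPolynomial.ext _ _ fun m => by
      rw [coeff_zero]
      by_contra h1
      exact hcon ⟨m, h1⟩)
  obtain ⟨φ, hφ⟩ : ∃ φ : F →ₗ[k] k, φ (coeff m a) ≠ 0 := by
    by_contra hcon
    refine hm ((Module.forall_dual_apply_eq_zero_iff k (coeff m a)).1 fun φ => ?_)
    by_contra h1
    exact hcon ⟨φ, h1⟩
  have key : a7f φ a * f = a7f φ b * h := by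
    rw [← a7f_mul, ← a7f_mul, hb, ha]
    congr 1
    ring
  have hdvd : h ∣ a7f φ a := hc.symm.dvd_of_dvd_mul_right ⟨a7f φ b, by rw [key, mul_comm]⟩
  have hne : a7f φ a ≠ 0 := by
    intro h0
    apply hφ
    rw [← a7f_coeff, h0, coeff_zero]
  have h1 := totalDegree_le_of_dvd_of_isDomain hdvd hne
  have h2 := a7f_deg φ a
  omega

/-- irreducible polynomials stay squarefree in characteristic zero -/
theorem squarefree_map [CharZero k] {Y : P2 k} (hY : Irreducible Y) :
    Squarefree (MvPolynomial.map (algebraMap k F) Y) := by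
  classical
  have hY0 := hY.ne_zero
  -- a nonzero partial derivative
  obtain ⟨i, hi⟩ : ∃ i, pderiv i Y ≠ 0 := by
    obtain ⟨m, hm, hm0⟩ : ∃ m ∈ Y.support, m ≠ 0 := by
      by_contra hcon
      have h1 : Y.totalDegree = 0 := by
        rw [← Nat.le_zero, totalDegree, Finset.sup_le_iff]
        intro m hm
        have : m = 0 := by
          by_contra h2
          exact hcon ⟨m, hm, h2⟩
        rw [this]
        simp
      have h2 := totalDegree_eq_zero_iff_eq_C.1 h1
      refine hY.not_isUnit (isUnit_iff_eq_C_of_isReduced.2 ⟨_, isUnit_iff_ne_zero.2 ?_, h2⟩)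
      intro h3
      rw [h3, map_zero] at h2
      exact hY0 h2
    obtain ⟨i, hi⟩ : ∃ i, m i ≠ 0 := by
      by_contra hcon
      refine hm0 (Finsupp.ext fun i => ?_)
      by_contra h1
      exact hcon ⟨i, h1⟩
    refine ⟨i, fun h0 => ?_⟩
    have h1 := coeff_pderiv (i := i) Y (m - Finsupp.single i 1)
    have hle : Finsupp.single i 1 ≤ m := by
      rw [Finsupp.single_le_iff]
      omega
    rw [h0, coeff_zero, tsub_add_cancel_of_le hle] at h1
    have h2 : coeff m Y ≠ 0 := mem_support_iff.1 hm
    rcases mul_eq_zero.1 h1.symm with h4 | h4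
    · exact h2 h4
    · exact Nat.cast_add_one_ne_zero _ h4
  have hrel : IsRelPrime Y (pderiv i Y) := by
    rw [hY.isRelPrime_iff_not_dvd]
    rintro ⟨g, hg⟩
    have hg0 : g ≠ 0 := by
      rintro rfl
      rw [mul_zero] at hg
      exact hi hg
    have h1 := degreeOf_mul_eq (n := i) hY0 hg0
    rw [← hg] at h1
    have h2 : degreeOf i (pderiv i Y) < degreeOf i Y := by
      have h3 : ∀ m ∈ (pderiv i Y).support, m i + 1 ≤ degreeOf i Y := by
        intro m hm
        rw [mem_support_iff, coeff_pderiv] at hm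
        have h4 : m + Finsupp.single i 1 ∈ Y.support := by
          rw [mem_support_iff]
          exact left_ne_zero_of_mul hm
        have h5 := monomial_le_degreeOf i h4
        simpa using h5
      obtain ⟨m, hm⟩ := support_nonempty.2 hi
      have h4 := h3 m hm
      rw [degreeOf_lt_iff (by omega)]
      intro m hm
      have := h3 m hm
      omega
    omega
  have hmap := relPrime_map (F := F) hrel
  intro W hW
  obtain ⟨V, hV⟩ := hW
  refine hmap ⟨W * V, by rw [hV]; ring⟩ ?_
  rw [← pderiv_map, hV, pderiv_mul, pderiv_mul]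
  exact ⟨pderiv i W * V + pderiv i W * V + W * pderiv i V, by ring⟩

end BMF
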