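import Pool.Agent.Lib.MP_a325a5_ag.F.A7

open NumberField MvPolynomial

namespace BMF

variable {k F : Type} [Field k] [Field F] [Algebra k F]

/-- The sum of maximal elements of two supports is in the support of the product. -/
private theorem A8_max {A : Type} [AddCommGroup A] [LinearOrder A] [IsOrderedAddMonoid A]
    (K : (Fin 2 →₀ ℕ) →+ A) (hK : Function.Injective K) {f g : P2 k} (hf : f ≠ 0) (hg : g ≠ 0) :
    ∃ u ∈ f.support, ∃ v ∈ g.support, (∀ x ∈ f.support, K x ≤ K u) ∧
      (∀ y ∈ g.support, K y ≤ K v) ∧ u + v ∈ (f * g).support := by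
  classical
  have hf' : f.support.Nonempty := MvPolynomial.support_nonempty.2 hf
  have hg' : g.support.Nonempty := MvPolynomial.support_nonempty.2 hg
  obtain ⟨u, hu, hu'⟩ := Finset.exists_max_image f.support K hf'
  obtain ⟨v, hv, hv'⟩ := Finset.exists_max_image g.support K hg'
  refine ⟨u, hu, v, hv, hu', hv', ?_⟩
  rw [mem_support_iff, coeff_mul]
  rw [Finset.sum_eq_single (u, v)]
  · exact mul_ne_zero (mem_support_iff.1 hu) (mem_support_iff.1 hv)
  · rintro ⟨x, y⟩ hxy hne
    rw [Finset.HasAntidiagonal.mem_antidiagonal] at hxy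
    simp only at hxy ⊢
    by_contra h0
    have hx : x ∈ f.support := mem_support_iff.2 (left_ne_zero_of_mul h0)
    have hy : y ∈ g.support := mem_support_iff.2 (right_ne_zero_of_mul h0)
    have h1 := hu' x hx
    have h2 := hv' y hy
    have h3 : K x + K y = K u + K v := by rw [← map_add, hxy, map_add]
    have h4 : K x = K u := by
      refine le_antisymm h1 ?_
      by_contra hlt
      push Not at hlt
      exact absurd h3 (ne_of_lt (add_lt_add_of_lt_of_le hlt h2))
    have h5 : K y = K v := by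
      rw [h4] at h3
      exact add_left_cancel h3
    exact hne (Prod.ext (hK h4) (hK h5))
  · intro h
    exfalso
    apply h
    rw [Finset.HasAntidiagonal.mem_antidiagonal]

/-- The weight with the coordinates as tie breakers. -/
private noncomputable def A8_key (w : Fin 2 → ℤ) : (Fin 2 →₀ ℕ) →+ Lex (ℤ × Lex (ℤ × ℤ)) where
  toFun m := toLex (Finsupp.weight w m, toLex ((m 0 : ℤ), (m 1 : ℤ)))
  map_zero' := by
    rw [map_zero]
    rfl
  map_add' x y := by
    rw [map_add]
    simp only [Finsupp.add_apply, Nat.cast_add]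
    rfl

private theorem A8_key_inj (w : Fin 2 → ℤ) : Function.Injective (A8_key w) := by
  intro x y h
  have h1 : (toLex (Finsupp.weight w x, toLex ((x 0 : ℤ), (x 1 : ℤ)))) =
      toLex (Finsupp.weight w y, toLex ((y 0 : ℤ), (y 1 : ℤ))) := h
  have h2 := congrArg ofLex h1
  simp only [ofLex_toLex, Prod.mk.injEq] at h2
  have h3 := congrArg ofLex h2.2
  simp only [ofLex_toLex, Prod.mk.injEq] at h3
  ext i
  fin_cases i
  · exact_mod_cast h3.1
  · exact_mod_cast h3.2

private theorem A8_key_le (w : Fin 2 → ℤ) {x y : Fin 2 →₀ ℕ} (h : A8_key w x ≤ A8_key w y) :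
    Finsupp.weight w x ≤ Finsupp.weight w y := by
  have h1 : (toLex (Finsupp.weight w x, toLex ((x 0 : ℤ), (x 1 : ℤ)))) ≤
      toLex (Finsupp.weight w y, toLex ((y 0 : ℤ), (y 1 : ℤ))) := h
  rw [Prod.Lex.toLex_le_toLex] at h1
  rcases h1 with h1 | h1
  · exact le_of_lt h1
  · exact h1.1.le

private theorem A8_weight (a b : ℤ) (m : Fin 2 →₀ ℕ) :
    Finsupp.weight ![a, b] m = a * m 0 + b * m 1 := by
  rw [Finsupp.weight_apply, Finsupp.sum_fintype _ _ (by simp)]
  simp [Fin.sum_univ_two]
  ring

private theorem A8_line (f : P2 k) (a b : ℤ) (h0 : (a, b) ≠ (0, 0)) (c : ℤ)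
    (h : IsWeightedHomogeneous ![a, b] f c) : LineSupp f := by
  refine ⟨a, b, h0, fun m hm m' hm' => ?_⟩
  have h1 := h (mem_support_iff.1 hm)
  have h2 := h (mem_support_iff.1 hm')
  rw [A8_weight] at h1 h2
  linear_combination h1 - h2

private theorem A8_hom {f : P2 k} (hf : f ≠ 0) (a b : ℤ)
    (h : ∀ m ∈ f.support, ∀ m' ∈ f.support,
      a * ((m 0 : ℤ) - m' 0) + b * ((m 1 : ℤ) - m' 1) = 0) :
    ∃ c, IsWeightedHomogeneous ![a, b] f c := by
  obtain ⟨m', hm'⟩ := MvPolynomial.support_nonempty.2 hf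
  refine ⟨Finsupp.weight ![a, b] m', fun m hm => ?_⟩
  have h1 := h m (mem_support_iff.2 hm) m' hm'
  rw [A8_weight, A8_weight]
  linear_combination h1

/-- a divisor of a polynomial with support on a line has support on a line -/
theorem lineSupp_of_dvd {f h : P2 k} (hh : h ≠ 0) (hd : f ∣ h) (hl : LineSupp h) :
    LineSupp f := by
  obtain ⟨g, rfl⟩ := hd
  have hf : f ≠ 0 := left_ne_zero_of_mul hh
  have hg : g ≠ 0 := right_ne_zero_of_mul hh
  obtain ⟨a, b, h0, hl⟩ := hl
  obtain ⟨c, hc⟩ := A8_hom hh a b hl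
  obtain ⟨u, hu, v, hv, hu', hv', huv⟩ := A8_max (A8_key ![a, b]) (A8_key_inj _) hf hg
  obtain ⟨u2, hu2, v2, hv2, hu2', hv2', huv2⟩ := A8_max (-A8_key ![a, b])
    (fun x y hxy => A8_key_inj ![a, b] (neg_injective hxy)) hf hg
  have h1 := hc (mem_support_iff.1 huv)
  have h2 := hc (mem_support_iff.1 huv2)
  rw [map_add] at h1 h2
  have h3 : ∀ y ∈ g.support, Finsupp.weight ![a, b] y ≤ Finsupp.weight ![a, b] v :=
    fun y hy => A8_key_le _ (hv' y hy)
  have h4 : ∀ x ∈ f.support, Finsupp.weight ![a, b] x ≤ Finsupp.weight ![a, b] u :=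
    fun x hx => A8_key_le _ (hu' x hx)
  have h5 : ∀ x ∈ f.support, Finsupp.weight ![a, b] u2 ≤ Finsupp.weight ![a, b] x := by
    intro x hx
    have h6 := hu2' x hx
    rw [AddMonoidHom.neg_apply, AddMonoidHom.neg_apply, neg_le_neg_iff] at h6
    exact A8_key_le _ h6
  have h7 : Finsupp.weight ![a, b] u2 = Finsupp.weight ![a, b] u := by
    have e1 := h3 v2 hv2
    have e2 := h4 u2 hu2
    omega
  refine A8_line f a b h0 (Finsupp.weight ![a, b] u) fun m hm => ?_
  have hm' := mem_support_iff.2 hm
  have e1 := h4 m hm'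
  have e2 := h5 m hm'
  omega

/-- an irreducible polynomial over `k` with a geometric component supported on a line is
supported on a line -/
theorem lineSupp_of_component [CharZero k] [IsAlgClosed F] [Algebra.IsAlgebraic k F]
    {Y : P2 k} (hY : Irreducible Y) {W : P2 F} (hW : Irreducible W)
    (hd : W ∣ MvPolynomial.map (algebraMap k F) Y) (hl : LineSupp W) : LineSupp Y := by
  classical
  obtain ⟨a, b, h0, hl⟩ := hl
  obtain ⟨c, hc⟩ := A8_hom hW.ne_zero a b hl
  let _ := MvPolynomial.weightedGradedAlgebra F (![a, b] : Fin 2 → ℤ)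
  -- `W` divides the components of `Y`
  have hcomp : ∀ n : ℤ, W ∣ MvPolynomial.map (algebraMap k F)
      (weightedHomogeneousComponent ![a, b] n Y) := by
    intro n
    have hI : (Ideal.span {W}).IsHomogeneous (weightedHomogeneousSubmodule F ![a, b]) := by
      refine Ideal.homogeneous_span _ _ ?_
      intro x hx
      rw [Set.mem_singleton_iff] at hx
      subst hx
      exact ⟨c, hc⟩
    have h1 := weightedHomogeneousComponent_mem_of_mem F ![a, b] hI
      (Ideal.mem_span_singleton.2 hd) n
    rw [Ideal.mem_span_singleton] at h1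
    have h2 : weightedHomogeneousComponent ![a, b] n (MvPolynomial.map (algebraMap k F) Y) =
        MvPolynomial.map (algebraMap k F) (weightedHomogeneousComponent ![a, b] n Y) := by
      ext m
      rw [coeff_weightedHomogeneousComponent, coeff_map, coeff_map,
        coeff_weightedHomogeneousComponent]
      split_ifs
      · rfl
      · rw [map_zero]
    rw [← h2]
    exact h1
  obtain ⟨m, hm⟩ := MvPolynomial.support_nonempty.2 hY.ne_zero
  set n := Finsupp.weight ![a, b] m with hn
  set Z := weightedHomogeneousComponent ![a, b] n Y with hZ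
  have hZ0 : Z ≠ 0 := by
    intro h
    have h1 : coeff m Z = 0 := by rw [h, coeff_zero]
    rw [hZ, coeff_weightedHomogeneousComponent, if_pos rfl] at h1
    exact mem_support_iff.1 hm h1
  have hZl : LineSupp Z := A8_line Z a b h0 n
    (weightedHomogeneousComponent_isWeightedHomogeneous n Y)
  rcases hY.dvd_or_isRelPrime (n := Z) with h1 | h1
  · exact lineSupp_of_dvd hZ0 h1 hZl
  · exact absurd (relPrime_map (F := F) h1 hd (hcomp n)) hW.not_isUnit

end BMF
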