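import Pool.Agent.Lib.MP_a325a5_ag.F.Def

open NumberField MvPolynomial

namespace BMF

/-- translation by a pair of numbers -/
noncomputable def tr {F : Type} [Field F] (ξ : Fin 2 → F) : P2 F →ₐ[F] P2 F :=
  aeval fun i => C (ξ i) * X i

private lemma a9_coeff {F : Type} [Field F] (ξ : Fin 2 → F) (W : P2 F) (m : Fin 2 →₀ ℕ) :
    coeff m (tr ξ W) = ξ 0 ^ m 0 * ξ 1 ^ m 1 * coeff m W := by
  classical
  induction W using MvPolynomial.induction_on' with
  | monomial s a =>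
    have h1 : tr ξ (monomial s a) = monomial s (a * (ξ 0 ^ s 0 * ξ 1 ^ s 1)) := by
      unfold tr
      rw [aeval_monomial, Finsupp.prod_fintype _ _ (fun i => pow_zero _), Fin.prod_univ_two,
        monomial_eq, Finsupp.prod_fintype _ _ (fun i => pow_zero _), Fin.prod_univ_two]
      simp only [MvPolynomial.algebraMap_eq, map_mul, map_pow, mul_pow]
      ring
    rw [h1, coeff_monomial, coeff_monomial]
    split_ifs with h
    · subst h
      ring
    · rw [mul_zero]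
  | add p q hp hq => rw [map_add, coeff_add, coeff_add, hp, hq]; ring

private lemma a9_zpow {F : Type} [Field F] {x : F} {E : ℤ} (h : x ^ E = 1) : x ^ E.natAbs = 1 := by
  rcases Int.natAbs_eq E with h1 | h1
  · rw [h1, zpow_natCast] at h
    exact h
  · rw [h1, zpow_neg, inv_eq_one, zpow_natCast] at h
    exact h

private lemma a9_count {F : Type} [Field F] (s : Finset (Fin 2 → F)) (u v : Fin 2 → ℤ)
    (hD : u 0 * v 1 - u 1 * v 0 ≠ 0) (hs : ∀ ξ ∈ s, (∀ i, ξ i ≠ 0) ∧ ξ 0 ^ u 0 * ξ 1 ^ u 1 = 1 ∧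
      ξ 0 ^ v 0 * ξ 1 ^ v 1 = 1) : s.card ≤ (u 0 * v 1 - u 1 * v 0).natAbs := by
  classical
  obtain ⟨g, hg⟩ : ∃ g, Int.gcd (u 1) (v 1) = g := ⟨_, rfl⟩
  have hg0 : 0 < g := by
    rw [← hg]
    refine Nat.pos_of_ne_zero fun h0 => hD ?_
    rw [Int.gcd_eq_zero_iff] at h0
    rw [h0.1, h0.2]
    ring
  obtain ⟨u', hu'⟩ : (g : ℤ) ∣ u 1 := hg ▸ Int.gcd_dvd_left _ _
  obtain ⟨v', hv'⟩ : (g : ℤ) ∣ v 1 := hg ▸ Int.gcd_dvd_right _ _
  have hbez : (g : ℤ) = u 1 * Int.gcdA (u 1) (v 1) + v 1 * Int.gcdB (u 1) (v 1) := by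
    rw [← hg]
    exact Int.gcd_eq_gcd_ab _ _
  generalize Int.gcdA (u 1) (v 1) = x at hbez
  generalize Int.gcdB (u 1) (v 1) = y at hbez
  obtain ⟨E, hE⟩ : ∃ E, u 0 * v' - u' * v 0 = E := ⟨_, rfl⟩
  have hDE : u 0 * v 1 - u 1 * v 0 = g * E := by
    rw [← hE, hv', hu']
    ring
  have hE0 : E ≠ 0 := by
    rintro rfl
    rw [hDE, mul_zero] at hD
    exact hD rfl
  have hEpos : 0 < E.natAbs := Int.natAbs_pos.2 hE0
  rw [hDE, Int.natAbs_mul, Int.natAbs_natCast]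
  have him : (s.image fun ξ => ξ 0) ⊆ (Polynomial.nthRoots E.natAbs (1 : F)).toFinset := by
    intro z hz
    obtain ⟨ξ, hξ, rfl⟩ := Finset.mem_image.1 hz
    rw [Multiset.mem_toFinset, Polynomial.mem_nthRoots hEpos]
    obtain ⟨hne, h1, h2⟩ := hs ξ hξ
    apply a9_zpow
    have h3 : (ξ 0 ^ u 0 * ξ 1 ^ u 1) ^ v' * ((ξ 0 ^ v 0 * ξ 1 ^ v 1) ^ u')⁻¹ = 1 := by
      rw [h1, h2, one_zpow, one_zpow, inv_one, one_mul]
    rw [mul_zpow, mul_zpow, ← zpow_mul, ← zpow_mul, ← zpow_mul, ← zpow_mul, mul_inv,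
      ← zpow_neg, ← zpow_neg] at h3
    have h4 : ξ 0 ^ (u 0 * v') * ξ 1 ^ (u 1 * v') * (ξ 0 ^ (-(v 0 * u')) * ξ 1 ^ (-(v 1 * u'))) =
        ξ 0 ^ (u 0 * v' + -(v 0 * u')) * ξ 1 ^ (u 1 * v' + -(v 1 * u')) := by
      rw [zpow_add₀ (hne 0), zpow_add₀ (hne 1)]
      ring
    rw [h4] at h3
    have e1 : u 1 * v' + -(v 1 * u') = 0 := by
      rw [hu', hv']
      ring
    have e2 : u 0 * v' + -(v 0 * u') = E := by
      rw [← hE]
      ring
    rw [e1, e2, zpow_zero, mul_one] at h3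
    exact h3
  have hcard : (s.image fun ξ => ξ 0).card ≤ E.natAbs :=
    (Finset.card_le_card him).trans ((Multiset.toFinset_card_le _).trans
      (Polynomial.card_nthRoots _ _))
  have hfib : ∀ z ∈ s.image fun ξ => ξ 0, (s.filter fun ξ => ξ 0 = z).card ≤ g := by
    intro z hz
    have h1 : (s.filter fun ξ => ξ 0 = z).card ≤
        (Polynomial.nthRoots g ((z ^ (u 0 * x + v 0 * y))⁻¹)).toFinset.card := by
      refine Finset.card_le_card_of_injOn (fun ξ => ξ 1) ?_ ?_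
      · intro ξ hξ
        rw [Finset.mem_coe, Finset.mem_filter] at hξ
        rw [Finset.mem_coe, Multiset.mem_toFinset, Polynomial.mem_nthRoots hg0]
        obtain ⟨hξ, rfl⟩ := hξ
        obtain ⟨hne, h1, h2⟩ := hs ξ hξ
        have h3 : (ξ 0 ^ u 0 * ξ 1 ^ u 1) ^ x * (ξ 0 ^ v 0 * ξ 1 ^ v 1) ^ y = 1 := by
          rw [h1, h2, one_zpow, one_zpow, one_mul]
        rw [mul_zpow, mul_zpow, ← zpow_mul, ← zpow_mul, ← zpow_mul, ← zpow_mul] at h3
        have h4 : ξ 0 ^ (u 0 * x) * ξ 1 ^ (u 1 * x) * (ξ 0 ^ (v 0 * y) * ξ 1 ^ (v 1 * y)) =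
            ξ 0 ^ (u 0 * x + v 0 * y) * ξ 1 ^ (u 1 * x + v 1 * y) := by
          rw [zpow_add₀ (hne 0), zpow_add₀ (hne 1)]
          ring
        rw [h4, ← hbez, zpow_natCast] at h3
        exact eq_inv_of_mul_eq_one_right h3
      · intro ξ hξ η hη h
        rw [Finset.mem_coe, Finset.mem_filter] at hξ hη
        funext i
        fin_cases i
        · exact hξ.2.trans hη.2.symm
        · exact h
    exact h1.trans ((Multiset.toFinset_card_le _).trans (Polynomial.card_nthRoots _ _))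
  have h2 := Finset.card_le_mul_card_image s g hfib
  exact h2.trans (Nat.mul_le_mul_left _ hcard)

private lemma a9_line {F : Type} [Field F] {W : P2 F} (hW : ¬ LineSupp W) :
    ∃ e0 ∈ W.support, ∃ e1 ∈ W.support, ∃ e2 ∈ W.support,
      ((e1 0 : ℤ) - e0 0) * ((e2 1 : ℤ) - e0 1) - ((e1 1 : ℤ) - e0 1) * ((e2 0 : ℤ) - e0 0) ≠ 0 := by
  by_contra hcon
  apply hW
  rcases W.support.eq_empty_or_nonempty with h0 | ⟨e0, he0⟩
  · refine ⟨1, 0, by simp, fun m hm => ?_⟩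
    rw [h0] at hm
    simp at hm
  by_cases h1 : ∀ m ∈ W.support, m = e0
  · refine ⟨1, 0, by simp, fun m hm m' hm' => ?_⟩
    rw [h1 m hm, h1 m' hm']
    ring
  · obtain ⟨e1, he1, hne⟩ : ∃ e1 ∈ W.support, e1 ≠ e0 := by
      by_contra h2
      exact h1 fun m hm => by
        by_contra h3
        exact h2 ⟨m, hm, h3⟩
    have hdet : ∀ m ∈ W.support,
        ((e1 0 : ℤ) - e0 0) * ((m 1 : ℤ) - e0 1) - ((e1 1 : ℤ) - e0 1) * ((m 0 : ℤ) - e0 0) = 0 := by
      intro m hm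
      by_contra h2
      exact hcon ⟨e0, he0, e1, he1, m, hm, h2⟩
    refine ⟨(e1 1 : ℤ) - e0 1, -((e1 0 : ℤ) - e0 0), ?_, fun m hm m' hm' => ?_⟩
    · intro h2
      apply hne
      rw [Prod.mk.injEq] at h2
      ext i
      fin_cases i
      · have := h2.2
        simp only [Fin.zero_eta]
        omega
      · have := h2.1
        simp only [Fin.mk_one]
        omega
    · have h2 := hdet m hm
      have h3 := hdet m' hm'
      linear_combination h3 - h2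

/-- the stabiliser of a polynomial whose support is not on a line -/
theorem stab_card_le {F : Type} [Field F] {W : P2 F} (hW : ¬ LineSupp W)
    (s : Finset (Fin 2 → F)) (hs : ∀ ξ ∈ s, (∀ i, ξ i ≠ 0) ∧ Associated (tr ξ W) W) :
    s.card ≤ 2 * W.degreeOf 0 * W.degreeOf 1 := by
  obtain ⟨e0, he0, e1, he1, e2, he2, hD⟩ := a9_line hW
  have hc : ∀ ξ ∈ s, ∃ c : F, ∀ m ∈ W.support, ξ 0 ^ m 0 * ξ 1 ^ m 1 = c := by
    intro ξ hξ
    obtain ⟨hne, ⟨w, hw⟩⟩ := hs ξ hξ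
    obtain ⟨c, hc, hcw⟩ := isUnit_iff_eq_C_of_isReduced.1 w.isUnit
    refine ⟨c⁻¹, fun m hm => ?_⟩
    have h1 : coeff m (C c * tr ξ W) = coeff m W := by rw [← hcw, mul_comm, hw]
    rw [coeff_C_mul, a9_coeff] at h1
    have h2 : coeff m W ≠ 0 := mem_support_iff.1 hm
    have h3 : (ξ 0 ^ m 0 * ξ 1 ^ m 1 * c) * coeff m W = 1 * coeff m W := by
      linear_combination h1
    exact eq_inv_of_mul_eq_one_left (mul_right_cancel₀ h2 h3)
  have hcount := a9_count s (fun i => (e1 i : ℤ) - e0 i) (fun i => (e2 i : ℤ) - e0 i) hD ?_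
  · refine hcount.trans ?_
    have b : ∀ e ∈ W.support, ∀ i, (e i : ℤ) ≤ W.degreeOf i := fun e he i => by
      exact_mod_cast monomial_le_degreeOf i he
    have a1 : |(e1 0 : ℤ) - e0 0| ≤ W.degreeOf 0 := by
      have := b e1 he1 0; have := b e0 he0 0
      rw [abs_le]; constructor <;> omega
    have a2 : |(e1 1 : ℤ) - e0 1| ≤ W.degreeOf 1 := by
      have := b e1 he1 1; have := b e0 he0 1
      rw [abs_le]; constructor <;> omega
    have a3 : |(e2 0 : ℤ) - e0 0| ≤ W.degreeOf 0 := by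
      have := b e2 he2 0; have := b e0 he0 0
      rw [abs_le]; constructor <;> omega
    have a4 : |(e2 1 : ℤ) - e0 1| ≤ W.degreeOf 1 := by
      have := b e2 he2 1; have := b e0 he0 1
      rw [abs_le]; constructor <;> omega
    have h5 : |((e1 0 : ℤ) - e0 0) * ((e2 1 : ℤ) - e0 1) - ((e1 1 : ℤ) - e0 1) * ((e2 0 : ℤ) - e0 0)| ≤
        2 * W.degreeOf 0 * W.degreeOf 1 := by
      refine (abs_sub _ _).trans ?_
      rw [abs_mul, abs_mul]
      have h6 := mul_le_mul a1 a4 (abs_nonneg _) (by positivity)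
      have h7 := mul_le_mul a2 a3 (abs_nonneg _) (by positivity)
      linarith
    zify
    exact h5
  · intro ξ hξ
    obtain ⟨c, hc⟩ := hc ξ hξ
    have hne := (hs ξ hξ).1
    have key : ∀ e ∈ W.support, ξ 0 ^ ((e 0 : ℤ) - e0 0) * ξ 1 ^ ((e 1 : ℤ) - e0 1) = 1 := by
      intro e he
      rw [zpow_sub₀ (hne 0), zpow_sub₀ (hne 1), zpow_natCast, zpow_natCast, zpow_natCast,
        zpow_natCast, div_mul_div_comm, hc e he, hc e0 he0]
      apply div_self
      rw [← hc e0 he0]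
      exact mul_ne_zero (pow_ne_zero _ (hne 0)) (pow_ne_zero _ (hne 1))
    exact ⟨hne, key e1 he1, key e2 he2⟩

end BMF
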