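import Pool.Agent.Lib.MP_a325a5_ag.F.A1
import Pool.Agent.Lib.MP_a325a5_ag.F.A7
import Pool.Agent.Lib.MP_a325a5_ag.F.A8
import Pool.Agent.Lib.MP_a325a5_ag.F.A9
import Pool.Agent.Lib.MP_a325a5_ag.F.A10

open NumberField MvPolynomial

namespace BMF

section abs
open Classical Finset

variable {Γ Ω ι : Type} [CommGroup Γ] [Fintype ι]

/-- number of elements of `H` which move `Z` into `II` -/
private noncomputable def nn (act : Γ → Ω → Ω) (H : Finset Γ) (II : Finset Ω) (Z : Ω) : ℕ :=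
  (H.filter fun g => act g Z ∈ II).card

private noncomputable def TT (act : Γ → Ω → Ω) (H : ι → Finset Γ) (II : Finset Ω) (Z : Ω) :
    Finset (ι → Γ) :=
  (Fintype.piFinset H).filter fun x => act (∏ i, x i) Z ∈ II

private noncomputable def NN (act : Γ → Ω → Ω) (H : ι → Finset Γ) (Z Z' : Ω) : ℕ :=
  ((Fintype.piFinset H).filter fun x => act (∏ i, x i) Z = Z').card

private theorem prod_upd (x : ι → Γ) (q : ι) (g : Γ) :
    ∏ i, Function.update x q (g * x q) i = g * ∏ i, x i := by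
  rw [Finset.prod_update_of_mem (mem_univ q), mul_assoc]
  congr 1
  exact (Finset.prod_eq_mul_prod_sdiff_singleton_of_mem (mem_univ q) x).symm

private theorem line_card {act : Γ → Ω → Ω} (hm : ∀ g h z, act (g * h) z = act g (act h z))
    {H : ι → Finset Γ} (hHm : ∀ i, ∀ g ∈ H i, ∀ h ∈ H i, g * h ∈ H i)
    (hHi : ∀ i, ∀ g ∈ H i, g⁻¹ ∈ H i) {II : Finset Ω} {Z : Ω} {x : ι → Γ}
    (hx : x ∈ TT act H II Z) (q : ι) :
    ((TT act H II Z).filter fun y => ∀ j, j ≠ q → y j = x j).card =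
      nn act (H q) II (act (∏ i, x i) Z) := by
  rw [TT, mem_filter, Fintype.mem_piFinset] at hx
  refine Finset.card_bij' (fun y _ => y q * (x q)⁻¹) (fun g _ => Function.update x q (g * x q))
    ?_ ?_ ?_ ?_
  · intro y hy
    rw [mem_filter, TT, mem_filter, Fintype.mem_piFinset] at hy
    rw [mem_filter]
    refine ⟨hHm q _ (hy.1.1 q) _ (hHi q _ (hx.1 q)), ?_⟩
    rw [← hm]
    have h2 : y = Function.update x q (y q * (x q)⁻¹ * x q) := by
      funext j
      by_cases hj : j = q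
      · subst hj; simp
      · rw [Function.update_of_ne hj]; exact hy.2 j hj
    rw [← prod_upd x q, ← h2]
    exact hy.1.2
  · intro g hg
    rw [mem_filter] at hg
    rw [mem_filter, TT, mem_filter, Fintype.mem_piFinset]
    refine ⟨⟨?_, ?_⟩, ?_⟩
    · intro j
      by_cases hj : j = q
      · subst hj; simp only [Function.update_self]; exact hHm _ _ hg.1 _ (hx.1 _)
      · rw [Function.update_of_ne hj]; exact hx.1 j
    · rw [prod_upd, hm]; exact hg.2
    · intro j hj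
      rw [Function.update_of_ne hj]
  · intro y hy
    rw [mem_filter] at hy
    funext j
    by_cases hj : j = q
    · subst hj; simp
    · rw [Function.update_of_ne hj]; exact (hy.2 j hj).symm
  · intro g _
    simp

private theorem NN_symm {act : Γ → Ω → Ω} (h1 : ∀ z, act 1 z = z)
    (hm : ∀ g h z, act (g * h) z = act g (act h z))
    {H : ι → Finset Γ} (hHi : ∀ i, ∀ g ∈ H i, g⁻¹ ∈ H i) (Z Z' : Ω) :
    NN act H Z Z' = NN act H Z' Z := by
  have key : ∀ (Z Z' : Ω) (x : ι → Γ), act (∏ i, x i) Z = Z' → act (∏ i, (x i)⁻¹) Z' = Z := by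
    intro Z Z' x h
    rw [← h, ← hm, ← Finset.prod_mul_distrib]
    simp [h1]
  refine Finset.card_bij' (fun x _ i => (x i)⁻¹) (fun x _ i => (x i)⁻¹) ?_ ?_ ?_ ?_
  · intro x hx
    rw [mem_filter, Fintype.mem_piFinset] at hx ⊢
    exact ⟨fun i => hHi i _ (hx.1 i), key _ _ _ hx.2⟩
  · intro x hx
    rw [mem_filter, Fintype.mem_piFinset] at hx ⊢
    exact ⟨fun i => hHi i _ (hx.1 i), key _ _ _ hx.2⟩
  · intro x _; simp
  · intro x _; simp

private theorem NN_le {act : Γ → Ω → Ω} (h1 : ∀ z, act 1 z = z)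
    (hm : ∀ g h z, act (g * h) z = act g (act h z)) {H : ι → Finset Γ}
    (hHm : ∀ i, ∀ g ∈ H i, ∀ h ∈ H i, g * h ∈ H i)
    (hHi : ∀ i, ∀ g ∈ H i, g⁻¹ ∈ H i) (Z Z' : Ω) :
    NN act H Z Z' ≤ NN act H Z Z := by
  by_cases h0 : NN act H Z Z' = 0
  · omega
  obtain ⟨x, hx⟩ := Finset.card_pos.1 (Nat.pos_of_ne_zero h0)
  rw [Finset.mem_filter, Fintype.mem_piFinset] at hx
  refine Finset.card_le_card_of_injOn (fun y i => (x i)⁻¹ * y i) ?_ ?_
  · intro y hy
    rw [Finset.mem_coe, Finset.mem_filter, Fintype.mem_piFinset] at hy ⊢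
    refine ⟨fun i => hHm i _ (hHi i _ (hx.1 i)) _ (hy.1 i), ?_⟩
    rw [Finset.prod_mul_distrib, hm, hy.2, ← hx.2, ← hm, ← Finset.prod_mul_distrib]
    simp only [inv_mul_cancel, Finset.prod_const_one]
    exact h1 Z
  · intro y _ z _ h
    funext i
    exact mul_left_cancel (congrFun h i)

private theorem NN_image {β : Type} (act : Γ → Ω → Ω) (H : ι → Finset Γ) (Z Z' : Ω)
    (f : (ι → Γ) → β)
    (hf : ∀ x y, (∀ i, x i ∈ H i) → (∀ i, y i ∈ H i) → f x = f y → x = y) :
    ∃ s : Finset β, s.card = NN act H Z Z' ∧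
      ∀ b ∈ s, ∃ x, (∀ i, x i ∈ H i) ∧ act (∏ i, x i) Z = Z' ∧ f x = b := by
  refine ⟨((Fintype.piFinset H).filter fun x => act (∏ i, x i) Z = Z').image f, ?_, ?_⟩
  · apply Finset.card_image_of_injOn
    intro x hx y hy hxy
    rw [Finset.mem_coe, Finset.mem_filter, Fintype.mem_piFinset] at hx hy
    exact hf x y hx.1 hy.1 hxy
  · intro b hb
    obtain ⟨x, hx, rfl⟩ := Finset.mem_image.1 hb
    rw [Finset.mem_filter, Fintype.mem_piFinset] at hx
    exact ⟨x, hx.1, hx.2, rfl⟩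

/-- counting is invariant under the action -/
private theorem TT_card_eq {act : Γ → Ω → Ω}
    (hm : ∀ g h z, act (g * h) z = act g (act h z))
    {H : ι → Finset Γ} (hHm : ∀ i, ∀ g ∈ H i, ∀ h ∈ H i, g * h ∈ H i)
    (hHi : ∀ i, ∀ g ∈ H i, g⁻¹ ∈ H i) (II : Finset Ω) {Z Z' : Ω} {x : ι → Γ}
    (hx : x ∈ Fintype.piFinset H) (hZ : act (∏ i, x i) Z = Z') :
    (TT act H II Z).card = (TT act H II Z').card := by
  rw [Fintype.mem_piFinset] at hx
  refine Finset.card_bij' (fun y _ i => y i * (x i)⁻¹) (fun y _ i => y i * x i) ?_ ?_ ?_ ?_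
  · intro y hy
    rw [TT, mem_filter, Fintype.mem_piFinset] at hy ⊢
    refine ⟨fun i => hHm i _ (hy.1 i) _ (hHi i _ (hx i)), ?_⟩
    rw [← hZ, ← hm, ← Finset.prod_mul_distrib]
    simpa using hy.2
  · intro y hy
    rw [TT, mem_filter, Fintype.mem_piFinset] at hy ⊢
    refine ⟨fun i => hHm i _ (hy.1 i) _ (hx i), ?_⟩
    rw [Finset.prod_mul_distrib, hm, hZ]
    exact hy.2
  · intro x _; simp
  · intro x _; simp

private theorem TT_card_sum (act : Γ → Ω → Ω) (H : ι → Finset Γ) (II : Finset Ω) (Z : Ω) :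
    (TT act H II Z).card = ∑ Z' ∈ II, NN act H Z Z' := by
  rw [Finset.card_eq_sum_card_fiberwise (f := fun x => act (∏ i, x i) Z) (t := II)]
  · apply Finset.sum_congr rfl
    intro Z' hZ'
    rw [NN, TT, Finset.filter_filter]
    congr 1
    apply Finset.filter_congr
    intro x _
    constructor
    · rintro ⟨_, h⟩; exact h
    · intro h; exact ⟨h ▸ hZ', h⟩
  · intro x hx
    rw [Finset.mem_coe, TT, mem_filter] at hx
    exact hx.2

private theorem TT_sum (act : Γ → Ω → Ω) (H : ι → Finset Γ) (II : Finset Ω) (Z : Ω)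
    (g : Ω → ℝ) :
    ∑ x ∈ TT act H II Z, g (act (∏ i, x i) Z) = ∑ Z' ∈ II, NN act H Z Z' * g Z' := by
  rw [← Finset.sum_fiberwise_of_maps_to (s := TT act H II Z) (t := II)
    (g := fun x => act (∏ i, x i) Z)]
  · apply Finset.sum_congr rfl
    intro Z' hZ'
    have h2 : ∀ x ∈ (TT act H II Z).filter (fun x => act (∏ i, x i) Z = Z'),
        g (act (∏ i, x i) Z) = g Z' := by
      intro x hx
      rw [mem_filter] at hx
      rw [hx.2]
    rw [Finset.sum_congr rfl h2, Finset.sum_const, nsmul_eq_mul]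
    congr 2
    rw [NN, TT, Finset.filter_filter]
    congr 1
    apply Finset.filter_congr
    intro x _
    constructor
    · rintro ⟨_, h⟩; exact h
    · intro h; exact ⟨h ▸ hZ', h⟩
  · intro x hx
    rw [TT, mem_filter] at hx
    exact hx.2

private theorem han_action {act : Γ → Ω → Ω} (h1 : ∀ z, act 1 z = z)
    (hm : ∀ g h z, act (g * h) z = act g (act h z))
    {H : ι → Finset Γ} (hH1 : ∀ i, 1 ∈ H i) (hHm : ∀ i, ∀ g ∈ H i, ∀ h ∈ H i, g * h ∈ H i)
    (hHi : ∀ i, ∀ g ∈ H i, g⁻¹ ∈ H i) (II : Finset Ω) (w : Ω → ℝ) (hw : ∀ Z, 0 ≤ w Z)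
    (hwi : ∀ g Z, w (act g Z) = w Z) {M : ℝ} (hM : ∀ Z ∈ II, ((TT act H II Z).card : ℝ) ≤ M) :
    ∑ Z ∈ II, w Z * ∑ i, Real.log (nn act (H i) II Z) ≤ Real.log M * ∑ Z ∈ II, w Z := by
  set g : Ω → ℝ := fun Z => ∑ i, Real.log (nn act (H i) II Z) with hg
  set t : Ω → ℝ := fun Z => ((TT act H II Z).card : ℝ) with ht
  have hTpos : ∀ Z ∈ II, 0 < t Z := by
    intro Z hZ
    have : (fun _ => 1 : ι → Γ) ∈ TT act H II Z := by
      rw [TT, mem_filter, Fintype.mem_piFinset]
      refine ⟨fun i => hH1 i, ?_⟩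
      simpa [h1] using hZ
    have : 0 < (TT act H II Z).card := Finset.card_pos.2 ⟨_, this⟩
    simp only [ht]
    exact_mod_cast this
  -- Han for one `Z`
  have hhan : ∀ Z, ∑ Z' ∈ II, NN act H Z Z' * g Z' ≤ t Z * Real.log (t Z) := by
    intro Z
    have h := han (TT act H II Z)
    rw [← TT_sum]
    refine le_trans (le_of_eq ?_) h
    apply Finset.sum_congr rfl
    intro x hx
    simp only [hg]
    apply Finset.sum_congr rfl
    intro q _
    rw [← line_card hm hHm hHi hx q]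
  have hstep : ∀ Z ∈ II, w Z / t Z * ∑ Z' ∈ II, NN act H Z Z' * g Z' ≤ w Z * Real.log M := by
    intro Z hZ
    have h2 := mul_le_mul_of_nonneg_left (hhan Z) (div_nonneg (hw Z) (hTpos Z hZ).le)
    refine h2.trans ?_
    have h3 : w Z / t Z * (t Z * Real.log (t Z)) = w Z * Real.log (t Z) := by
      field_simp [(hTpos Z hZ).ne']
    rw [h3]
    exact mul_le_mul_of_nonneg_left (Real.log_le_log (hTpos Z hZ) (hM Z hZ)) (hw Z)
  have hsum := Finset.sum_le_sum hstep
  rw [← Finset.sum_mul, mul_comm _ (Real.log M)] at hsum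
  refine le_trans (le_of_eq ?_) hsum
  have hexp : ∑ Z ∈ II, w Z / t Z * ∑ Z' ∈ II, (NN act H Z Z' : ℝ) * g Z' =
      ∑ Z' ∈ II, ∑ Z ∈ II, w Z / t Z * ((NN act H Z Z' : ℝ) * g Z') := by
    rw [Finset.sum_comm]
    apply Finset.sum_congr rfl
    intro Z _
    rw [Finset.mul_sum]
  rw [hexp]
  apply Finset.sum_congr rfl
  intro Z hZ
  -- swap the roles
  have hsw : ∀ Z0 ∈ II, w Z0 / t Z0 * (NN act H Z0 Z * g Z) =
      (w Z / t Z * g Z) * NN act H Z Z0 := by
    intro Z0 _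
    rw [NN_symm h1 hm hHi Z0 Z]
    by_cases h0 : NN act H Z Z0 = 0
    · rw [h0]; simp
    · obtain ⟨x, hx⟩ := Finset.card_pos.1 (Nat.pos_of_ne_zero h0)
      rw [mem_filter] at hx
      have e1 : t Z = t Z0 := by
        simp only [ht]
        rw [TT_card_eq hm hHm hHi II hx.1 hx.2]
      have e2 : w Z0 = w Z := by rw [← hx.2, hwi]
      rw [e1, e2]
      ring
  rw [Finset.sum_congr rfl hsw, ← Finset.mul_sum]
  have h4 : ∑ i ∈ II, (NN act H Z i : ℝ) = t Z := by
    simp only [ht]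
    rw [TT_card_sum]
    push_cast
    rfl
  rw [h4]
  have h5 := (hTpos Z hZ).ne'
  simp only [hg]
  field_simp

private theorem orbit_sum {act : Γ → Ω → Ω} (h1 : ∀ z, act 1 z = z)
    (hm : ∀ g h z, act (g * h) z = act g (act h z))
    {H : Finset Γ} (hHm : ∀ g ∈ H, ∀ h ∈ H, g * h ∈ H)
    (hHi : ∀ g ∈ H, g⁻¹ ∈ H) (II : Finset Ω) (w : Ω → ℝ)
    (hwi : ∀ g Z, w (act g Z) = w Z) :
    ∑ Z ∈ (H ×ˢ II).image (fun p => act p.1 p.2), w Z =
      (H.card : ℝ) * ∑ Z ∈ II, w Z / nn act H II Z := by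
  have hcanc : ∀ g z, act g⁻¹ (act g z) = z := fun g z => by rw [← hm]; simp [h1]
  have hcanc' : ∀ g z, act g (act g⁻¹ z) = z := fun g z => by rw [← hm]; simp [h1]
  have hL : ∑ p ∈ H ×ˢ II, w p.2 / nn act H II p.2 =
      (H.card : ℝ) * ∑ Z ∈ II, w Z / nn act H II Z := by
    rw [Finset.sum_product]
    simp only [Finset.sum_const, nsmul_eq_mul]
  rw [← hL, ← Finset.sum_fiberwise_of_maps_to (s := H ×ˢ II)
    (t := (H ×ˢ II).image (fun p => act p.1 p.2)) (g := fun p => act p.1 p.2)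
    (fun p hp => Finset.mem_image_of_mem _ hp)]
  apply Finset.sum_congr rfl
  intro Z' hZ'
  -- the fibre
  have hfib : ((H ×ˢ II).filter (fun p => act p.1 p.2 = Z')).card = nn act H II Z' := by
    refine Finset.card_bij' (fun p _ => p.1⁻¹) (fun g _ => (g⁻¹, act g Z')) ?_ ?_ ?_ ?_
    · rintro ⟨g, Z⟩ hp
      rw [mem_filter, mem_product] at hp
      rw [mem_filter]
      refine ⟨hHi _ hp.1.1, ?_⟩
      rw [← hp.2, hcanc]
      exact hp.1.2
    · intro g hg
      rw [mem_filter] at hg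
      rw [mem_filter, mem_product]
      exact ⟨⟨hHi _ hg.1, hg.2⟩, by simp only [hcanc]⟩
    · rintro ⟨g, Z⟩ hp
      rw [mem_filter] at hp
      simp only at hp ⊢
      rw [← hp.2, hcanc, inv_inv]
    · intro g _; simp
  have hconst : ∀ p ∈ (H ×ˢ II).filter (fun p => act p.1 p.2 = Z'),
      w p.2 / nn act H II p.2 = w Z' / nn act H II Z' := by
    rintro ⟨g, Z⟩ hp
    rw [mem_filter, mem_product] at hp
    simp only at hp ⊢
    have e1 : w Z = w Z' := by rw [← hp.2, hwi]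
    have e2 : nn act H II Z = nn act H II Z' := by
      refine Finset.card_bij' (fun h _ => h * g⁻¹) (fun h _ => h * g) ?_ ?_ ?_ ?_
      · intro h hh
        rw [mem_filter] at hh ⊢
        refine ⟨hHm _ hh.1 _ (hHi _ hp.1.1), ?_⟩
        rw [← hp.2, ← hm]
        simpa using hh.2
      · intro h hh
        rw [mem_filter] at hh ⊢
        refine ⟨hHm _ hh.1 _ hp.1.1, ?_⟩
        rw [hm, hp.2]
        exact hh.2
      · intro h _; simp
      · intro h _; simp
    rw [e1, e2]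
  rw [Finset.sum_congr rfl hconst, Finset.sum_const, hfib, nsmul_eq_mul]
  have hpos : (nn act H II Z' : ℝ) ≠ 0 := by
    rw [← hfib]
    rw [Finset.mem_image] at hZ'
    obtain ⟨p, hp, hpe⟩ := hZ'
    have : 0 < ((H ×ˢ II).filter (fun p => act p.1 p.2 = Z')).card :=
      Finset.card_pos.2 ⟨p, mem_filter.2 ⟨hp, hpe⟩⟩
    exact_mod_cast this.ne'
  field_simp

private theorem orbit_sum' {act : Γ → Ω → Ω} (h1 : ∀ z, act 1 z = z)
    (hm : ∀ g h z, act (g * h) z = act g (act h z))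
    {H : Finset Γ} (hHm : ∀ g ∈ H, ∀ h ∈ H, g * h ∈ H)
    (hHi : ∀ g ∈ H, g⁻¹ ∈ H) (II : Finset Ω) (w : Ω → ℝ)
    (hwi : ∀ g Z, w (act g Z) = w Z) :
    ∃ O : Finset Ω, (∀ Z ∈ O, ∃ g ∈ H, ∃ Z0 ∈ II, act g Z0 = Z) ∧
      ∑ Z ∈ O, w Z = (H.card : ℝ) * ∑ Z ∈ II, w Z / nn act H II Z := by
  refine ⟨_, ?_, orbit_sum h1 hm hHm hHi II w hwi⟩
  intro Z hZ
  obtain ⟨⟨g, Z0⟩, hp, hZ⟩ := Finset.mem_image.1 hZ
  rw [Finset.mem_product] at hp
  exact ⟨g, hp.1, Z0, hp.2, hZ⟩

private theorem nn_pos {act : Γ → Ω → Ω} (h1 : ∀ z, act 1 z = z) {H : Finset Γ} (hH1 : 1 ∈ H)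
    {II : Finset Ω} {Z : Ω} (hZ : Z ∈ II) : (0 : ℝ) < nn act H II Z := by
  have : 0 < nn act H II Z :=
    Finset.card_pos.2 ⟨1, Finset.mem_filter.2 ⟨hH1, by rw [h1]; exact hZ⟩⟩
  exact_mod_cast this

end abs

section pol
open Classical

variable {k F : Type} [Field k] [Field F]

private theorem degreeOf_map_inj (f : k →+* F) (p : P2 k) (i : Fin 2) :
    (MvPolynomial.map f p).degreeOf i = p.degreeOf i := by
  rw [degreeOf_def, degreeOf_def, degrees_map_of_injective p f.injective]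

private theorem wt_map (L : Fin 2 → ℕ) (f : k →+* F) (p : P2 k) :
    wt L (MvPolynomial.map f p) = wt L p := by
  unfold wt
  rw [degreeOf_map_inj, degreeOf_map_inj]

private theorem wt_assoc (L : Fin 2 → ℕ) {p q : P2 F} (h : Associated p q) :
    wt L p = wt L q := by
  by_cases hp : p = 0
  · rw [hp] at h
    rw [hp, (associated_zero_iff_eq_zero q).1 h.symm]
  · have hq : q ≠ 0 := h.ne_zero_iff.1 hp
    exact le_antisymm (wt_mono_dvd L hq h.dvd) (wt_mono_dvd L hp h.symm.dvd)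

private noncomputable def aw (L : Fin 2 → ℕ) (a : Associates (P2 F)) : ℝ := wt L (Quot.out a)

private theorem aw_mk (L : Fin 2 → ℕ) (p : P2 F) : aw L (Associates.mk p) = wt L p :=
  wt_assoc L (Associates.mk_quot_out p)

private theorem aw_nonneg (L : Fin 2 → ℕ) (a : Associates (P2 F)) : 0 ≤ aw L a := wt_nonneg L _

private theorem aw_mul (L : Fin 2 → ℕ) {a b : Associates (P2 F)} (ha : a ≠ 0) (hb : b ≠ 0) :
    aw L (a * b) = aw L a + aw L b := by
  obtain ⟨p, rfl⟩ := Associates.mk_surjective a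
  obtain ⟨q, rfl⟩ := Associates.mk_surjective b
  rw [Associates.mk_mul_mk, aw_mk, aw_mk, aw_mk]
  exact wt_mul L (Associates.mk_ne_zero.1 ha) (Associates.mk_ne_zero.1 hb)

private theorem aw_one (L : Fin 2 → ℕ) : aw L (1 : Associates (P2 F)) = 0 := by
  have h := aw_mul (F := F) L (a := 1) (b := 1) one_ne_zero one_ne_zero
  rw [mul_one] at h
  linarith

private theorem aw_prod (L : Fin 2 → ℕ) (O : Finset (Associates (P2 F))) (hO : ∀ Z ∈ O, Z ≠ 0) :
    aw L (∏ Z ∈ O, Z) = ∑ Z ∈ O, aw L Z := by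
  induction O using Finset.induction_on with
  | empty => simp [aw_one]
  | insert a s ha ih =>
    rw [Finset.prod_insert ha, Finset.sum_insert ha, aw_mul L (hO a (Finset.mem_insert_self a s)),
      ih fun Z hZ => hO Z (Finset.mem_insert_of_mem hZ)]
    exact Finset.prod_ne_zero_iff.2 fun Z hZ => hO Z (Finset.mem_insert_of_mem hZ)

private theorem aw_le_of_dvd (L : Fin 2 → ℕ) {a : Associates (P2 F)} {p : P2 F} (hp : p ≠ 0)
    (h : a ∣ Associates.mk p) : aw L a ≤ wt L p := by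
  obtain ⟨q, rfl⟩ := Associates.mk_surjective a
  rw [aw_mk]
  exact wt_mono_dvd L hp (Associates.mk_dvd_mk.1 h)

private theorem sum_aw_le (L : Fin 2 → ℕ) {O : Finset (Associates (P2 F))}
    (hO : ∀ Z ∈ O, Irreducible Z) {p : P2 F} (hp : p ≠ 0) (hd : ∀ Z ∈ O, Z ∣ Associates.mk p) :
    ∑ Z ∈ O, aw L Z ≤ wt L p := by
  rw [← aw_prod L O fun Z hZ => (hO Z hZ).ne_zero]
  exact aw_le_of_dvd L hp (Finset.prod_primes_dvd _ (fun Z hZ => (hO Z hZ).prime) hd)

/-- the set of the irreducible factors of a squarefree polynomial -/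
private theorem exists_II {P : P2 F} (hP : P ≠ 0) (hs : Squarefree P) :
    ∃ II : Finset (Associates (P2 F)), (∀ Z ∈ II, Irreducible Z ∧ Z ∣ Associates.mk P) ∧
      ∏ Z ∈ II, Z = Associates.mk P := by
  have hprod : (Multiset.map Associates.mk (UniqueFactorizationMonoid.factors P)).prod =
      Associates.mk P := by
    rw [Associates.prod_mk, Associates.mk_eq_mk_iff_associated]
    exact UniqueFactorizationMonoid.factors_prod hP
  have hirr : ∀ Z ∈ Multiset.map Associates.mk (UniqueFactorizationMonoid.factors P),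
      Irreducible Z := by
    intro Z hZ
    obtain ⟨W, hW, rfl⟩ := Multiset.mem_map.1 hZ
    exact Associates.irreducible_mk.2 (UniqueFactorizationMonoid.irreducible_of_factor W hW)
  have hnd : (Multiset.map Associates.mk (UniqueFactorizationMonoid.factors P)).Nodup := by
    rw [Multiset.nodup_iff_ne_cons_cons]
    intro a t hat
    have ha : Irreducible a := hirr a (by rw [hat]; exact Multiset.mem_cons_self _ _)
    obtain ⟨W, rfl⟩ := Associates.mk_surjective a
    rw [hat, Multiset.prod_cons, Multiset.prod_cons] at hprod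
    have hdvd : Associates.mk (W * W) ∣ Associates.mk P := by
      rw [← hprod, ← Associates.mk_mul_mk]
      exact ⟨t.prod, by rw [mul_assoc]⟩
    exact (Associates.irreducible_mk.1 ha).not_isUnit (hs W (Associates.mk_dvd_mk.1 hdvd))
  refine ⟨⟨_, hnd⟩, ?_, ?_⟩
  · intro Z hZ
    have hZ' : Z ∈ Multiset.map Associates.mk (UniqueFactorizationMonoid.factors P) := hZ
    exact ⟨hirr Z hZ', hprod ▸ Multiset.dvd_prod hZ'⟩
  · rw [Finset.prod_eq_multiset_prod]
    simpa using hprod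

/-! ### translations -/

private theorem tr_monomial (ξ : Fin 2 → F) (u : Fin 2 →₀ ℕ) (a : F) :
    tr ξ (monomial u a) = monomial u (a * ∏ i, ξ i ^ u i) := by
  rw [tr, aeval_monomial, Finsupp.prod_fintype _ _ (by intro i; simp)]
  simp only [mul_pow, Finset.prod_mul_distrib, ← C_pow]
  rw [← map_prod C, monomial_eq (s := u), Finsupp.prod_fintype _ _ (by intro i; simp)]
  rw [algebraMap_eq, C_mul, mul_assoc]

private theorem coeff_tr (ξ : Fin 2 → F) (m : Fin 2 →₀ ℕ) (p : P2 F) :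
    coeff m (tr ξ p) = coeff m p * ∏ i, ξ i ^ m i := by
  induction p using MvPolynomial.induction_on' with
  | monomial u a =>
    rw [tr_monomial, coeff_monomial, coeff_monomial]
    by_cases h : u = m
    · subst h; simp
    · simp [h]
  | add p q hp hq => rw [map_add, coeff_add, coeff_add, hp, hq, add_mul]

private theorem tr_tr (ξ η : Fin 2 → F) (p : P2 F) :
    tr (fun i => ξ i * η i) p = tr ξ (tr η p) := by
  ext m
  rw [coeff_tr, coeff_tr, coeff_tr]
  simp only [mul_pow, Finset.prod_mul_distrib]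
  ring

private theorem tr_one (p : P2 F) : tr (fun _ => 1) p = p := by
  ext m
  rw [coeff_tr]
  simp

private theorem tr_support {ξ : Fin 2 → F} (h : ∀ i, ξ i ≠ 0) (p : P2 F) :
    (tr ξ p).support = p.support := by
  ext m
  rw [mem_support_iff, mem_support_iff, coeff_tr]
  have : ∏ i, ξ i ^ m i ≠ 0 := Finset.prod_ne_zero_iff.2 fun i _ => pow_ne_zero _ (h i)
  rw [not_iff_not, mul_eq_zero, or_iff_left this]

private theorem tr_degreeOf {ξ : Fin 2 → F} (h : ∀ i, ξ i ≠ 0) (p : P2 F) (i : Fin 2) :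
    (tr ξ p).degreeOf i = p.degreeOf i := by
  rw [degreeOf_eq_sup, degreeOf_eq_sup, tr_support h]

private theorem tr_wt {ξ : Fin 2 → F} (h : ∀ i, ξ i ≠ 0) (L : Fin 2 → ℕ) (p : P2 F) :
    wt L (tr ξ p) = wt L p := by
  unfold wt
  rw [tr_degreeOf h, tr_degreeOf h]

private noncomputable def act (ξ : Fin 2 → Fˣ) : Associates (P2 F) → Associates (P2 F) :=
  Quotient.map (tr fun i => (ξ i : F)) fun _ _ h => h.map _

private theorem act_mk (ξ : Fin 2 → Fˣ) (p : P2 F) :
    act ξ (Associates.mk p) = Associates.mk (tr (fun i => (ξ i : F)) p) := rfl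

private theorem act_one (Z : Associates (P2 F)) : act 1 Z = Z := by
  obtain ⟨p, rfl⟩ := Associates.mk_surjective Z
  rw [act_mk]
  congr 1
  exact tr_one p

private theorem act_mul (ξ η : Fin 2 → Fˣ) (Z : Associates (P2 F)) :
    act (ξ * η) Z = act ξ (act η Z) := by
  obtain ⟨p, rfl⟩ := Associates.mk_surjective Z
  rw [act_mk, act_mk, act_mk]
  congr 1
  simp only [Pi.mul_apply, Units.val_mul]
  exact tr_tr _ _ p

private theorem aw_act (L : Fin 2 → ℕ) (ξ : Fin 2 → Fˣ) (Z : Associates (P2 F)) :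
    aw L (act ξ Z) = aw L Z := by
  obtain ⟨p, rfl⟩ := Associates.mk_surjective Z
  rw [act_mk, aw_mk, aw_mk, tr_wt fun i => (ξ i).ne_zero]

private theorem irreducible_tr (ξ : Fin 2 → Fˣ) {W : P2 F} (hW : Irreducible W) :
    Irreducible (tr (fun i => (ξ i : F)) W) := by
  have hl : ∀ p : P2 F, tr (fun i => ((ξ i)⁻¹ : Fˣ) : Fin 2 → F) (tr (fun i => (ξ i : F)) p) = p := by
    intro p
    rw [← tr_tr]
    simp only [Units.inv_mul]
    exact tr_one p
  have hr : ∀ p : P2 F, tr (fun i => (ξ i : F)) (tr (fun i => ((ξ i)⁻¹ : Fˣ) : Fin 2 → F) p) = p := by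
    intro p
    rw [← tr_tr]
    simp only [Units.mul_inv]
    exact tr_one p
  let e : P2 F ≃* P2 F :=
    { toFun := tr (fun i => (ξ i : F))
      invFun := tr (fun i => ((ξ i)⁻¹ : Fˣ) : Fin 2 → F)
      left_inv := hl
      right_inv := hr
      map_mul' := fun a b => map_mul _ a b }
  exact (MulEquiv.irreducible_iff e).2 hW

private theorem tr_expand {ξ : Fin 2 → F} {q : ℕ} (h : ∀ i, ξ i ^ q = 1) (p : P2 F) :
    tr ξ (expand q p) = expand q p := by
  have h2 : (tr ξ).comp (expand q) = (expand q : P2 F →ₐ[F] P2 F) := by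
    apply MvPolynomial.algHom_ext
    intro i
    rw [AlgHom.comp_apply, expand_X, map_pow, tr, aeval_X, mul_pow, ← C_pow, h i]
    simp
  exact congrArg (fun f : P2 F →ₐ[F] P2 F => f p) h2

private theorem finU (F : Type) [Field F] (q : ℕ) [NeZero q] :
    ((rootsOfUnity q F : Subgroup Fˣ) : Set Fˣ).Finite := by
  have h : Finite (rootsOfUnity q F) := inferInstance
  exact Set.finite_coe_iff.1 h

/-- pairs of `q`-th roots of unity -/
private noncomputable def mu (F : Type) [Field F] (q : ℕ) [NeZero q] : Finset (Fin 2 → Fˣ) :=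
  Fintype.piFinset fun _ => (finU F q).toFinset

private theorem mem_mu {q : ℕ} [NeZero q] {ξ : Fin 2 → Fˣ} : ξ ∈ mu F q ↔ ∀ i, ξ i ^ q = 1 := by
  rw [mu, Fintype.mem_piFinset]
  apply forall_congr'
  intro i
  rw [Set.Finite.mem_toFinset, SetLike.mem_coe, mem_rootsOfUnity]

private theorem card_mu [IsAlgClosed F] [CharZero F] (q : ℕ) [NeZero q] :
    (mu F q).card = q ^ 2 := by
  have hq : NeZero (q : F) := ⟨Nat.cast_ne_zero.2 (NeZero.ne q)⟩
  rw [mu, Fintype.card_piFinset]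
  have : (finU F q).toFinset.card = q := by
    rw [← Set.ncard_eq_toFinset_card _ (finU F q)]
    exact HasEnoughRootsOfUnity.natCard_rootsOfUnity F q
  simp [this]

end pol

section prodinj
open Classical

variable {F : Type} [Field F]

/-- the product map on pairs of roots of unity of distinct prime orders is injective -/
private theorem prod_inj {ι : Type} [Fintype ι] (p : ι → ℕ) (hp : ∀ i, (p i).Prime)
    (hne : Function.Injective p) {x y : ι → Fin 2 → Fˣ} (hx : ∀ i j, x i j ^ p i = 1)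
    (hy : ∀ i j, y i j ^ p i = 1) (h : ∏ i, x i = ∏ i, y i) : x = y := by
  funext i j
  set u : ι → Fˣ := fun l => x l j * (y l j)⁻¹ with hu
  have hu1 : ∀ l, u l ^ p l = 1 := by
    intro l
    simp only [hu, mul_pow, inv_pow, hx, hy]
    simp
  have hprod : ∏ l, u l = 1 := by
    have h2 := congrFun h j
    rw [Finset.prod_apply, Finset.prod_apply] at h2
    simp only [hu, Finset.prod_mul_distrib, Finset.prod_inv_distrib, h2, mul_inv_cancel]
  -- raise to the product of the other primes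
  set R : ℕ := ∏ l ∈ Finset.univ.erase i, p l with hR
  have h3 : u i ^ R = 1 := by
    have h4 : (∏ l, u l) ^ R = u i ^ R := by
      rw [← Finset.prod_pow, ← Finset.mul_prod_erase _ _ (Finset.mem_univ i)]
      rw [Finset.prod_eq_one, mul_one]
      intro l hl
      obtain ⟨c, hc⟩ : p l ∣ R := Finset.dvd_prod_of_mem p hl
      rw [hc, pow_mul, hu1, one_pow]
    rw [← h4, hprod, one_pow]
  have hcop : (p i).Coprime R := by
    rw [hR, Nat.coprime_prod_right_iff]
    intro l hl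
    exact (Nat.coprime_primes (hp i) (hp l)).2 fun e => (Finset.mem_erase.1 hl).1 (hne e).symm
  have h5 : u i = 1 := by
    have h6 : orderOf (u i) ∣ Nat.gcd (p i) R :=
      Nat.dvd_gcd (orderOf_dvd_of_pow_eq_one (hu1 i)) (orderOf_dvd_of_pow_eq_one h3)
    rw [hcop.gcd_eq_one, Nat.dvd_one, orderOf_eq_one_iff] at h6
    exact h6
  exact mul_inv_eq_one.1 h5

end prodinj

section main
open Classical

variable {F : Type} [Field F]

private theorem NN_stab {ι : Type} [Fintype ι] (p : ι → ℕ) (hp : ∀ i, (p i).Prime)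
    (hne : Function.Injective p) (H : ι → Finset (Fin 2 → Fˣ))
    (hH : ∀ i, ∀ g ∈ H i, ∀ j, g j ^ p i = 1) {W : P2 F} (hW : ¬ LineSupp W) :
    NN act H (Associates.mk W) (Associates.mk W) ≤ 2 * W.degreeOf 0 * W.degreeOf 1 := by
  obtain ⟨s, hs, hsm⟩ := NN_image act H (Associates.mk W) (Associates.mk W)
    (fun x i => (((∏ j, x j) i : Fˣ) : F)) (by
      intro x y hx hy hxy
      apply prod_inj p hp hne (fun i j => hH i _ (hx i) j) (fun i j => hH i _ (hy i) j)
      funext i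
      exact Units.ext (congrFun hxy i))
  rw [← hs]
  apply stab_card_le hW
  intro ξ hξ
  obtain ⟨x, hx, hx2, rfl⟩ := hsm ξ hξ
  refine ⟨fun i => Units.ne_zero _, ?_⟩
  rw [act_mk, Associates.mk_eq_mk_iff_associated] at hx2
  exact hx2

private theorem one_le_wt_zero {W : P2 F} (hW : Irreducible W) :
    1 ≤ W.degreeOf 0 + W.degreeOf 1 := by
  by_contra hcon
  have h0 : W.degreeOf 0 = 0 := by omega
  have h1 : W.degreeOf 1 = 0 := by omega
  obtain ⟨c, hc⟩ := wt_eq_zero (L := fun _ => 0) (f := W) (by simp [wt, h0, h1])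
  by_cases hc0 : c = 0
  · rw [hc0, C_0] at hc
    exact hW.ne_zero hc
  · apply hW.not_isUnit
    rw [hc]
    exact (isUnit_iff_ne_zero.2 hc0).map C

private theorem jensen {ι : Type} (s : Finset ι) (w t : ι → ℝ) (hw : ∀ i ∈ s, 0 ≤ w i)
    (ht : ∀ i ∈ s, 0 < t i) (a : ℝ) (h : ∑ i ∈ s, w i * Real.log (t i) ≤ a * ∑ i ∈ s, w i) :
    Real.exp (-a) * ∑ i ∈ s, w i ≤ ∑ i ∈ s, w i / t i := by
  have h1 : ∀ i ∈ s, Real.exp (-a) * (w i * (1 + a - Real.log (t i))) ≤ w i / t i := by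
    intro i hi
    have h2 : Real.exp (-a) * (1 + a - Real.log (t i)) ≤ (t i)⁻¹ := by
      have h3 := Real.add_one_le_exp (a - Real.log (t i))
      have h4 : (t i)⁻¹ = Real.exp (-a) * Real.exp (a - Real.log (t i)) := by
        rw [← Real.exp_add]
        rw [show -a + (a - Real.log (t i)) = - Real.log (t i) by ring, Real.exp_neg,
          Real.exp_log (ht i hi)]
      rw [h4]
      exact mul_le_mul_of_nonneg_left (by linarith) (Real.exp_pos _).le
    have h5 := mul_le_mul_of_nonneg_left h2 (hw i hi)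
    rw [div_eq_mul_inv]
    linarith
  have h6 := Finset.sum_le_sum h1
  rw [← Finset.mul_sum] at h6
  refine le_trans (mul_le_mul_of_nonneg_left ?_ (Real.exp_pos _).le) h6
  have h7 : ∑ i ∈ s, w i * (1 + a - Real.log (t i)) =
      (1 + a) * ∑ i ∈ s, w i - ∑ i ∈ s, w i * Real.log (t i) := by
    rw [Finset.mul_sum, ← Finset.sum_sub_distrib]
    apply Finset.sum_congr rfl
    intro i _
    ring
  rw [h7]
  linarith

private theorem fin_calc {X q W0 T0 b : ℝ} (hX : 1 ≤ X) (hqX : X < q) (hW : 0 ≤ W0)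
    (hJ : Real.exp (-(1 / 4 * Real.log X)) * W0 ≤ T0) (h1 : q * T0 ≤ b) (hb : 0 ≤ b) :
    W0 ≤ 2 / Real.sqrt X * b := by
  have hXpos : 0 < X := by linarith
  have hq0 : 0 < q := by linarith
  have hlX : 0 ≤ Real.log X := Real.log_nonneg hX
  have hsqrt : 0 < Real.sqrt X := Real.sqrt_pos.2 hXpos
  have hexp : 1 / Real.sqrt X ≤ Real.exp (-(1 / 4 * Real.log X)) := by
    rw [Real.exp_neg, one_div]
    apply inv_anti₀ (Real.exp_pos _)
    apply Real.le_sqrt_of_sq_le
    rw [← Real.exp_nat_mul]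
    have h3 : ((2 : ℕ) : ℝ) * (1 / 4 * Real.log X) ≤ Real.log X := by push_cast; linarith
    calc Real.exp (((2 : ℕ) : ℝ) * (1 / 4 * Real.log X)) ≤ Real.exp (Real.log X) :=
          Real.exp_le_exp.2 h3
      _ = X := Real.exp_log hXpos
  have h4 : 1 / Real.sqrt X * W0 ≤ T0 := (mul_le_mul_of_nonneg_right hexp hW).trans hJ
  have h4' : 0 ≤ 1 / Real.sqrt X * W0 := mul_nonneg (by positivity) hW
  have h5 : X * (1 / Real.sqrt X * W0) ≤ b :=
    (mul_le_mul hqX.le h4 h4' hq0.le).trans h1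
  have h7 : X * (1 / Real.sqrt X * W0) = Real.sqrt X * W0 := by
    have h9 : X * (1 / Real.sqrt X) = Real.sqrt X := by
      rw [mul_one_div]
      exact Real.div_sqrt
    rw [← mul_assoc, h9]
  rw [h7] at h5
  have h8 : W0 ≤ b / Real.sqrt X := by
    rw [le_div_iff₀ hsqrt]
    linarith
  have h9 : 0 ≤ b / Real.sqrt X := div_nonneg hb hsqrt.le
  have h10 : 2 / Real.sqrt X * b = 2 * (b / Real.sqrt X) := by ring
  rw [h10]
  linarith

end main

variable {k : Type} [Field k]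

private theorem sqf_prod [CharZero k] {F : Type} [Field F] [Algebra k F] (S : Finset (P2 k))
    (hS : ∀ Y ∈ S, Irreducible Y) (hpair : ∀ Y ∈ S, ∀ Y' ∈ S, Associated Y Y' → Y = Y') :
    Squarefree (∏ Y ∈ S, MvPolynomial.map (algebraMap k F) Y) := by
  classical
  induction S using Finset.induction_on with
  | empty => simp
  | insert Y S hY ih =>
    rw [Finset.prod_insert hY, squarefree_mul_iff]
    refine ⟨?_, squarefree_map (hS Y (Finset.mem_insert_self Y S)),
      ih (fun Z hZ => hS Z (Finset.mem_insert_of_mem hZ))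
        (fun Z hZ Z' hZ' => hpair Z (Finset.mem_insert_of_mem hZ) Z'
          (Finset.mem_insert_of_mem hZ'))⟩
    apply IsRelPrime.prod_right
    intro Z hZ
    apply relPrime_map
    have hYi := hS Y (Finset.mem_insert_self Y S)
    have hZi := hS Z (Finset.mem_insert_of_mem hZ)
    rw [hYi.isRelPrime_iff_not_dvd]
    intro hdvd
    have := hpair Y (Finset.mem_insert_self Y S) Z (Finset.mem_insert_of_mem hZ)
      (hYi.associated_of_dvd hZi hdvd)
    rw [this] at hY
    exact hY hZ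

private theorem wt_prod_map {F : Type} [Field F] [Algebra k F] (L : Fin 2 → ℕ)
    (S : Finset (P2 k)) (hS : ∀ Y ∈ S, Y ≠ 0) :
    wt L (∏ Y ∈ S, MvPolynomial.map (algebraMap k F) Y) = ∑ Y ∈ S, wt L Y ∧
      ∏ Y ∈ S, MvPolynomial.map (algebraMap k F) Y ≠ 0 := by
  classical
  have hinj : Function.Injective (MvPolynomial.map (σ := Fin 2) (algebraMap k F)) :=
    MvPolynomial.map_injective _ (algebraMap k F).injective
  induction S using Finset.induction_on with
  | empty =>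
    simp only [Finset.prod_empty, Finset.sum_empty]
    refine ⟨?_, one_ne_zero⟩
    have h := wt_mul (k := F) L (f := 1) (h := 1) one_ne_zero one_ne_zero
    rw [mul_one] at h
    linarith
  | insert Y S hY ih =>
    obtain ⟨h1, h2⟩ := ih fun Z hZ => hS Z (Finset.mem_insert_of_mem hZ)
    have h3 : MvPolynomial.map (algebraMap k F) Y ≠ 0 := by
      intro h
      exact hS Y (Finset.mem_insert_self Y S) (hinj (by rw [h, map_zero]))
    rw [Finset.prod_insert hY, Finset.sum_insert hY, wt_mul L h3 h2, h1, wt_map]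
    exact ⟨rfl, mul_ne_zero h3 h2⟩

/-- the K-lemma -/
theorem klemma [CharZero k] (φ : ℕ → (k →+* k)) (L : Fin 2 → ℕ) {X D : ℝ} (hX : 1 ≤ X) (hD : 4 ≤ D)
    (Q : Finset ℕ) (hQ : ∀ q ∈ Q, q.Prime ∧ X < q ∧ (q : ℝ) ≤ 8 * X)
    (hc : 40 * Real.log D ≤ Q.card * Real.log X)
    {B : P2 k} (hB : B ≠ 0) (hdeg : ∀ i, 8 * X * (B.degreeOf i : ℝ) ≤ D ^ 3)
    (S : Finset (P2 k)) (hS : ∀ Y ∈ S, Irreducible Y ∧ ¬ LineSupp Y ∧
      ∀ q ∈ Q, Y ∣ psi (φ q) q B)
    (hpair : ∀ Y ∈ S, ∀ Y' ∈ S, Associated Y Y' → Y = Y') :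
    ∑ Y ∈ S, wt L Y ≤ 2 / Real.sqrt X * wt L B := by
  classical
  let F := AlgebraicClosure k
  let alg := algebraMap k F
  have hinj : Function.Injective (MvPolynomial.map (σ := Fin 2) alg) :=
    MvPolynomial.map_injective _ alg.injective
  obtain ⟨hwtP, hP0⟩ := wt_prod_map (F := F) L S fun Y hY => (hS Y hY).1.ne_zero
  set P : P2 F := ∏ Y ∈ S, MvPolynomial.map (algebraMap k F) Y with hPdef
  have hsq : Squarefree P := sqf_prod S (fun Y hY => (hS Y hY).1) hpair
  obtain ⟨II, hII, hIIprod⟩ := exists_II hP0 hsq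
  have hIne : ∀ Z ∈ II, Z ≠ 0 := fun Z hZ => (hII Z hZ).1.ne_zero
  have hW0 : ∑ Z ∈ II, aw L Z = ∑ Y ∈ S, wt L Y := by
    rw [← aw_prod L II hIne, hIIprod, aw_mk, hwtP]
  -- the polynomials `B_q`
  set Bq : ℕ → P2 F := fun q => MvPolynomial.map alg (psi (φ q) q B) with hBq
  have hBq_exp : ∀ q, Bq q = expand q (MvPolynomial.map (alg.comp (φ q)) B) := by
    intro q
    simp only [hBq, psi]
    rw [map_expand, map_map]
  have hBq0 : ∀ q ∈ Q, Bq q ≠ 0 := by
    intro q hq h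
    have hp := (hQ q hq).1
    rw [hBq_exp] at h
    have h3 : MvPolynomial.map (alg.comp (φ q)) B ≠ 0 := by
      intro h4
      exact hB (MvPolynomial.map_injective _ (alg.comp (φ q)).injective (by rw [h4, map_zero]))
    exact h3 ((expand_eq_zero hp.pos).1 h)
  have hwtBq : ∀ q ∈ Q, ∀ L' : Fin 2 → ℕ, wt L' (Bq q) = q * wt L' B := by
    intro q hq L'
    simp only [hBq]
    rw [wt_map, wt_psi L' (φ q) q (hQ q hq).1.pos B]
  -- representatives
  have hrep : ∀ Z ∈ II, ∃ W : P2 F, Z = Associates.mk W ∧ Irreducible W ∧ ¬ LineSupp W ∧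
      ∀ q ∈ Q, W ∣ Bq q := by
    intro Z hZ
    obtain ⟨W, rfl⟩ := Associates.mk_surjective Z
    have hWi : Irreducible W := Associates.irreducible_mk.1 (hII _ hZ).1
    have hWd : W ∣ P := Associates.mk_dvd_mk.1 (hII _ hZ).2
    obtain ⟨Y, hY, hWY⟩ := (hWi.prime.dvd_finsetProd_iff _).1 hWd
    refine ⟨W, rfl, hWi, ?_, ?_⟩
    · intro hl
      exact (hS Y hY).2.1 (lineSupp_of_component (F := F) (hS Y hY).1 hWi hWY hl)
    · intro q hq
      obtain ⟨R, hR⟩ := (hS Y hY).2.2 q hq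
      refine hWY.trans ⟨MvPolynomial.map alg R, ?_⟩
      simp only [hBq]
      rw [hR, map_mul]
  -- the index type
  let ι := {q : ℕ // q ∈ Q}
  have hNZ : ∀ i : ι, NeZero (i : ℕ) := fun i => ⟨(hQ i i.2).1.ne_zero⟩
  let H : ι → Finset (Fin 2 → Fˣ) := fun i => mu F (i : ℕ)
  have hH1 : ∀ i, 1 ∈ H i := fun i => mem_mu.2 fun j => by simp
  have hHm : ∀ i, ∀ g ∈ H i, ∀ h ∈ H i, g * h ∈ H i := by
    intro i g hg h hh
    refine mem_mu.2 fun j => ?_
    rw [Pi.mul_apply, mul_pow, mem_mu.1 hg j, mem_mu.1 hh j, one_mul]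
  have hHi : ∀ i, ∀ g ∈ H i, g⁻¹ ∈ H i := by
    intro i g hg
    refine mem_mu.2 fun j => ?_
    rw [Pi.inv_apply, inv_pow, mem_mu.1 hg j, inv_one]
  -- the logarithm of D and of X
  have hlD : 0 < Real.log D := Real.log_pos (by linarith)
  have hlX : 0 ≤ Real.log X := Real.log_nonneg hX
  have hQne : Q.Nonempty := by
    rw [Finset.nonempty_iff_ne_empty]
    intro h
    rw [h] at hc
    simp at hc
    linarith
  have hXpos : 0 < X := by linarith
  -- bounds for the degrees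
  have hdsum : ∀ W : P2 F, (∀ q ∈ Q, W ∣ Bq q) →
      ((W.degreeOf 0 : ℝ) + W.degreeOf 1) ≤ 2 * D ^ 3 := by
    intro W hW
    obtain ⟨q, hq⟩ := hQne
    have h1 := wt_mono_dvd (fun _ => 0) (hBq0 q hq) (hW q hq)
    rw [hwtBq q hq] at h1
    have h2 : (q : ℝ) * wt (fun _ => 0) B ≤ 8 * X * wt (fun _ => 0) B :=
      mul_le_mul_of_nonneg_right (hQ q hq).2.2 (wt_nonneg _ _)
    have h3 := hdeg 0
    have h4 := hdeg 1
    simp only [wt, Nat.cast_zero, zero_add, div_one] at h1 h2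
    linarith
  have hcardII : (II.card : ℝ) ≤ 2 * D ^ 3 := by
    obtain ⟨q, hq⟩ := hQne
    have h1 : ∑ Z ∈ II, aw (fun _ => 0) Z ≤ wt (fun _ => 0) (Bq q) := by
      apply sum_aw_le _ (fun Z hZ => (hII Z hZ).1) (hBq0 q hq)
      intro Z hZ
      obtain ⟨W, rfl, _, _, hW⟩ := hrep Z hZ
      exact Associates.mk_dvd_mk.2 (hW q hq)
    have h2 : (II.card : ℝ) ≤ ∑ Z ∈ II, aw (fun _ => 0) Z := by
      rw [Finset.card_eq_sum_ones]
      push_cast
      apply Finset.sum_le_sum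
      intro Z hZ
      obtain ⟨W, rfl, hWi, _, _⟩ := hrep Z hZ
      rw [aw_mk]
      have h3 := one_le_wt_zero hWi
      simp only [wt, Nat.cast_zero, zero_add, div_one]
      exact_mod_cast h3
    rw [hwtBq q hq] at h1
    have h2' : (q : ℝ) * wt (fun _ => 0) B ≤ 8 * X * wt (fun _ => 0) B :=
      mul_le_mul_of_nonneg_right (hQ q hq).2.2 (wt_nonneg _ _)
    have h3 := hdeg 0
    have h4 := hdeg 1
    simp only [wt, Nat.cast_zero, zero_add, div_one] at h1 h2'
    linarith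
  have hM : ∀ Z ∈ II, ((TT act H II Z).card : ℝ) ≤ D ^ 10 := by
    intro Z hZ
    obtain ⟨W, rfl, hWi, hWl, hW⟩ := hrep Z hZ
    rw [TT_card_sum]
    push_cast
    have h1 : ∀ Z' ∈ II, (NN act H (Associates.mk W) Z' : ℝ) ≤ 2 * (D ^ 3) ^ 2 := by
      intro Z' _
      have h2 : NN act H (Associates.mk W) Z' ≤ 2 * W.degreeOf 0 * W.degreeOf 1 :=
        (NN_le act_one act_mul hHm hHi _ _).trans (NN_stab (fun i : ι => (i : ℕ)) (fun i => (hQ i i.2).1)
          Subtype.val_injective H (fun i g hg j => mem_mu.1 hg j) hWl)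
      have h3 : ((NN act H (Associates.mk W) Z' : ℕ) : ℝ) ≤
          2 * (W.degreeOf 0 : ℝ) * (W.degreeOf 1 : ℝ) := by exact_mod_cast h2
      have h4 := hdsum W hW
      have h5 : (0 : ℝ) ≤ W.degreeOf 0 := Nat.cast_nonneg _
      have h6 : (0 : ℝ) ≤ W.degreeOf 1 := Nat.cast_nonneg _
      have h7 : 0 ≤ D ^ 3 := by positivity
      nlinarith [sq_nonneg ((W.degreeOf 0 : ℝ) - W.degreeOf 1),
        mul_self_le_mul_self (add_nonneg h5 h6) h4]
    have h2 := Finset.sum_le_sum h1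
    rw [Finset.sum_const, nsmul_eq_mul] at h2
    refine h2.trans ?_
    have h3 : (II.card : ℝ) * (2 * (D ^ 3) ^ 2) ≤ 2 * D ^ 3 * (2 * (D ^ 3) ^ 2) :=
      mul_le_mul_of_nonneg_right hcardII (by positivity)
    have h4 : 2 * D ^ 3 * (2 * (D ^ 3) ^ 2) = 4 * D ^ 9 := by ring
    have h5 : D ^ 10 = D * D ^ 9 := by ring
    have h6 : 0 ≤ D ^ 9 := by positivity
    nlinarith
  have hhan := han_action (act := act (F := F)) act_one act_mul hH1 hHm hHi II (aw L)
    (aw_nonneg L) (aw_act L) hM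
  -- choose the prime
  have hsw : ∑ i : ι, ∑ Z ∈ II, aw L Z * Real.log (nn act (H i) II Z) ≤
      ∑ _i : ι, (1 / 4 * Real.log X) * ∑ Z ∈ II, aw L Z := by
    rw [Finset.sum_comm]
    have h1 : ∑ Z ∈ II, ∑ i : ι, aw L Z * Real.log (nn act (H i) II Z) =
        ∑ Z ∈ II, aw L Z * ∑ i, Real.log (nn act (H i) II Z) := by
      apply Finset.sum_congr rfl
      intro Z _
      rw [Finset.mul_sum]
    rw [h1]
    refine hhan.trans ?_
    rw [Finset.sum_const, nsmul_eq_mul, Real.log_pow]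
    have h2 : (Finset.univ : Finset ι).card = Q.card := by
      rw [Finset.card_univ, Fintype.card_coe]
    rw [h2, ← mul_assoc]
    apply mul_le_mul_of_nonneg_right _ (Finset.sum_nonneg fun Z _ => aw_nonneg L Z)
    push_cast
    linarith
  have hιne : (Finset.univ : Finset ι).Nonempty := by
    obtain ⟨q, hq⟩ := hQne
    exact ⟨⟨q, hq⟩, Finset.mem_univ _⟩
  obtain ⟨i, -, hi⟩ := Finset.exists_le_of_sum_le hιne hsw
  have hnnpos : ∀ Z ∈ II, (0 : ℝ) < nn act (H i) II Z := fun Z hZ => nn_pos act_one (hH1 i) hZ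
  have hJ := jensen II (aw L) (fun Z => (nn act (H i) II Z : ℝ)) (fun Z _ => aw_nonneg L Z)
    hnnpos _ hi
  obtain ⟨O, hO, horb⟩ := orbit_sum' (act := act (F := F)) act_one act_mul (hHm i) (hHi i) II
    (aw L) (aw_act L)
  have hOle : ∑ Z ∈ O, aw L Z ≤ wt L (Bq i) := by
    apply sum_aw_le _ _ (hBq0 i i.2)
    · intro Z hZ
      obtain ⟨ξ, hξ, Z0, hZ0, rfl⟩ := hO Z hZ
      obtain ⟨W, hWe, hWi, _, hW⟩ := hrep Z0 hZ0
      rw [hWe, act_mk]
      apply Associates.mk_dvd_mk.2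
      have h2 : tr (fun j => ((ξ j : Fˣ) : F)) (Bq i) = Bq i := by
        rw [hBq_exp]
        apply tr_expand
        intro j
        have h3 := mem_mu.1 hξ j
        rw [← Units.val_pow_eq_pow_val, h3, Units.val_one]
      rw [← h2]
      exact map_dvd _ (hW i i.2)
    · intro Z hZ
      obtain ⟨ξ, hξ, Z0, hZ0, rfl⟩ := hO Z hZ
      obtain ⟨W, hWe, hWi, _, _⟩ := hrep Z0 hZ0
      rw [hWe, act_mk]
      exact Associates.irreducible_mk.2 (irreducible_tr ξ hWi)
  rw [horb, hwtBq i i.2, card_mu] at hOle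
  set W0 : ℝ := ∑ Z ∈ II, aw L Z with hW0def
  set T0 : ℝ := ∑ Z ∈ II, aw L Z / nn act (H i) II Z with hT0
  have hq0 : (0 : ℝ) < ((i : ℕ) : ℝ) := by exact_mod_cast (hQ i i.2).1.pos
  have hqX : X < ((i : ℕ) : ℝ) := (hQ i i.2).2.1
  have h1 : ((i : ℕ) : ℝ) * T0 ≤ wt L B := by
    push_cast at hOle
    have h2 : ((i : ℕ) : ℝ) * (((i : ℕ) : ℝ) * T0) ≤ ((i : ℕ) : ℝ) * wt L B := by
      nlinarith
    exact le_of_mul_le_mul_left h2 hq0
  have hW0nn : 0 ≤ W0 := Finset.sum_nonneg fun Z _ => aw_nonneg L Z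
  rw [← hW0]
  exact fin_calc hX hqX hW0nn hJ h1 (wt_nonneg _ _)

end BMF
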