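import Pool.Agent.Lib.MP_a325a5_ag.F.Def

open NumberField MvPolynomial

namespace BMF

variable {k : Type} [Field k]

theorem A2_hd_monomial (i : Fin 2 → ℕ) (v : Fin 2 →₀ ℕ) (c : k) :
    hd i (monomial v c) = monomial v (c * (((v 0).choose (i 0) : k) * ((v 1).choose (i 1) : k))) := by
  have h1 : (monomial v c : P2 k) = c • (MvPolynomial.basisMonomials (Fin 2) k) v := by
    rw [MvPolynomial.coe_basisMonomials, MvPolynomial.smul_monomial, smul_eq_mul, mul_one]
  unfold hd
  rw [h1, map_smul, Module.Basis.constr_basis, MvPolynomial.smul_monomial, smul_eq_mul]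

theorem coeff_hd (i : Fin 2 → ℕ) (f : P2 k) (m : Fin 2 →₀ ℕ) :
    coeff m (hd i f) = coeff m f * (((m 0).choose (i 0) : k) * ((m 1).choose (i 1) : k)) := by
  induction f using MvPolynomial.induction_on' with
  | monomial v c =>
    rw [A2_hd_monomial, coeff_monomial, coeff_monomial]
    split_ifs with h
    · rw [h]
    · rw [zero_mul]
  | add p q hp hq =>
    rw [map_add, coeff_add, coeff_add, hp, hq, add_mul]

theorem A2_choose (m n i : ℕ) : ((m + n).choose i : k) =
    ∑ a ∈ Finset.range (i + 1), (m.choose a : k) * (n.choose (i - a) : k) := by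
  rw [Nat.add_choose_eq, Finset.Nat.sum_antidiagonal_eq_sum_range_succ
    (fun a b => m.choose a * n.choose b)]
  push_cast
  rfl

/-- Leibniz rule -/
theorem hd_mul (i : Fin 2 → ℕ) (f h : P2 k) :
    hd i (f * h) = ∑ a ∈ Finset.range (i 0 + 1), ∑ b ∈ Finset.range (i 1 + 1),
      hd ![a, b] f * hd ![i 0 - a, i 1 - b] h := by
  induction f using MvPolynomial.induction_on' with
  | monomial v c =>
    induction h using MvPolynomial.induction_on' with
    | monomial v' c' =>
      rw [monomial_mul, A2_hd_monomial]
      have h1 : ∀ a b : ℕ, hd ![a, b] (monomial v c : P2 k) *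
          hd ![i 0 - a, i 1 - b] (monomial v' c' : P2 k) =
          monomial (v + v') ((c * c') * ((((v 0).choose a : k) * ((v' 0).choose (i 0 - a) : k)) *
            (((v 1).choose b : k) * ((v' 1).choose (i 1 - b) : k)))) := by
        intro a b
        rw [A2_hd_monomial, A2_hd_monomial, monomial_mul]
        congr 1
        simp only [Matrix.cons_val_zero, Matrix.cons_val_one]
        ring
      simp only [h1]
      have h2 : ∀ a : ℕ, ∑ b ∈ Finset.range (i 1 + 1),
          (monomial (v + v') ((c * c') * ((((v 0).choose a : k) * ((v' 0).choose (i 0 - a) : k)) *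
            (((v 1).choose b : k) * ((v' 1).choose (i 1 - b) : k)))) : P2 k) =
          monomial (v + v') (∑ b ∈ Finset.range (i 1 + 1),
            (c * c') * ((((v 0).choose a : k) * ((v' 0).choose (i 0 - a) : k)) *
            (((v 1).choose b : k) * ((v' 1).choose (i 1 - b) : k)))) := fun a =>
        (map_sum _ _ _).symm
      simp only [h2]
      rw [← map_sum]
      congr 1
      rw [Finsupp.add_apply, Finsupp.add_apply, A2_choose, A2_choose, Finset.sum_mul_sum,
        Finset.mul_sum]
      refine Finset.sum_congr rfl fun a _ => ?_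
      rw [Finset.mul_sum]
    | add p q hp hq =>
      rw [mul_add, map_add, hp, hq, ← Finset.sum_add_distrib]
      refine Finset.sum_congr rfl fun a _ => ?_
      rw [← Finset.sum_add_distrib]
      refine Finset.sum_congr rfl fun b _ => ?_
      rw [map_add, mul_add]
  | add p q hp hq =>
    rw [add_mul, map_add, hp, hq, ← Finset.sum_add_distrib]
    refine Finset.sum_congr rfl fun a _ => ?_
    rw [← Finset.sum_add_distrib]
    refine Finset.sum_congr rfl fun b _ => ?_
    rw [map_add, add_mul]

theorem van_one_iff (f : P2 k) (z : Fin 2 → k) : van 1 f z ↔ eval z f = 0 := by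
  have h0 : hd (fun _ => 0) f = f := by
    ext m
    rw [coeff_hd]
    simp
  constructor
  · intro h
    have := h (fun _ => 0) (by norm_num)
    rwa [h0] at this
  · intro h i hi
    have hi0 : i = fun _ => 0 := by
      funext j
      fin_cases j
      · change i 0 = 0
        omega
      · change i 1 = 0
        omega
    rw [hi0, h0, h]

theorem van_mul {s t : ℕ} {f h : P2 k} {z : Fin 2 → k} (hf : van s f z) (hh : van t h z) :
    van (s + t) (f * h) z := by
  intro i hi
  rw [hd_mul, map_sum]
  refine Finset.sum_eq_zero fun a ha => ?_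
  rw [map_sum]
  refine Finset.sum_eq_zero fun b hb => ?_
  rw [map_mul]
  rw [Finset.mem_range] at ha hb
  by_cases hab : a + b < s
  · rw [hf ![a, b] (by simpa using hab), zero_mul]
  · rw [hh ![i 0 - a, i 1 - b] (by simp only [Matrix.cons_val_zero, Matrix.cons_val_one]; omega),
      mul_zero]

theorem van_mono {s t : ℕ} (hst : s ≤ t) {f : P2 k} {z : Fin 2 → k} (hf : van t f z) :
    van s f z := fun i hi => hf i (hi.trans_le hst)

theorem van_pow (T : ℕ) {f : P2 k} {z : Fin 2 → k} (hf : eval z f = 0) : van T (f ^ T) z := by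
  induction T with
  | zero =>
    intro i hi
    omega
  | succ T ih =>
    rw [pow_succ]
    exact van_mul ih ((van_one_iff f z).mpr hf)

end BMF
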