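import Pool.Agent.Lib.MP_a325a5_ag.F.Def

open NumberField MvPolynomial

namespace BMF

variable {k : Type} [Field k]

private lemma a3_eq (L : Fin 2 → ℕ) : bx k L = restrictSupport k {m | ∀ i, m i ≤ L i} := by
  ext f
  rw [mem_restrictSupport_iff]
  change (∀ i, f.degreeOf i ≤ L i) ↔ _
  constructor
  · intro h m hm i
    exact (monomial_le_degreeOf i hm).trans (h i)
  · intro h i
    rw [degreeOf_le_iff]
    exact fun m hm => h hm i

private noncomputable def a3e (L : Fin 2 → ℕ) :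
    {m : Fin 2 →₀ ℕ | ∀ i, m i ≤ L i} ≃ Fin (L 0 + 1) × Fin (L 1 + 1) where
  toFun m := (⟨m.1 0, Nat.lt_succ_of_le (m.2 0)⟩, ⟨m.1 1, Nat.lt_succ_of_le (m.2 1)⟩)
  invFun p := ⟨Finsupp.equivFunOnFinite.symm ![p.1.1, p.2.1], by
    intro i
    fin_cases i
    · exact Nat.le_of_lt_succ p.1.2
    · exact Nat.le_of_lt_succ p.2.2⟩
  left_inv m := by
    apply Subtype.ext
    ext i
    fin_cases i
    · rfl
    · rfl
  right_inv p := by
    rfl

private lemma a3_finite (L : Fin 2 → ℕ) : Finite {m : Fin 2 →₀ ℕ | ∀ i, m i ≤ L i} :=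
  Finite.of_equiv _ (a3e L).symm

instance finite_bx (L : Fin 2 → ℕ) : Module.Finite k (bx k L) := by
  rw [a3_eq]
  have := a3_finite L
  exact Module.Finite.of_basis (basisRestrictSupport k {m | ∀ i, m i ≤ L i})

theorem finrank_bx (L : Fin 2 → ℕ) :
    Module.finrank k (bx k L) = (L 0 + 1) * (L 1 + 1) := by
  rw [a3_eq, Module.finrank_eq_nat_card_basis (basisRestrictSupport k {m | ∀ i, m i ≤ L i}),
    Nat.card_congr (a3e L), Nat.card_prod, Nat.card_fin, Nat.card_fin]

end BMF
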