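import Pool.Agent.Lib.MP_a325a5_ag.F.A3

open NumberField MvPolynomial

namespace BMF

variable {k : Type} [Field k]

private theorem A4_finrank_map {p : P2 k} (hp : p ≠ 0) (V : Submodule k (P2 k)) :
    Module.finrank k (V.map (LinearMap.mulLeft k p)) = Module.finrank k V := by
  have hinj : Function.Injective (LinearMap.mulLeft k p) := by
    intro a b hab
    simp only [LinearMap.mulLeft_apply] at hab
    exact mul_left_cancel₀ hp hab
  exact (Submodule.equivMapOfInjective _ hinj V).finrank_eq.symm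

private theorem A4_map_le {p : P2 k} {L M : Fin 2 → ℕ} (h : ∀ i, p.degreeOf i + L i ≤ M i) :
    (bx k L).map (LinearMap.mulLeft k p) ≤ bx k M := by
  rintro _ ⟨u, hu, rfl⟩
  intro i
  simp only [LinearMap.mulLeft_apply]
  exact (degreeOf_mul_le i p u).trans ((Nat.add_le_add_left (hu i) _).trans (h i))

private theorem A4_count {a b f0 f1 h0 h1 K U1 U2 W T S : ℕ} (e1 : U1 = (a + h0) * (b + h1))
    (e2 : U2 = (a + f0) * (b + f1)) (eW : W ≤ a * b) (eS : S + W = U1 + U2)
    (eK : S ≤ K) (eT : T + K = (a + f0 + h0) * (b + f1 + h1)) :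
    T ≤ f0 * h1 + f1 * h0 := by
  subst e1 e2
  have e3 : (a + f0 + h0) * (b + f1 + h1) + a * b =
      (a + h0) * (b + h1) + (a + f0) * (b + f1) + (f0 * h1 + f1 * h0) := by ring
  omega

/-- Bezout: distinct closed points common to two coprime curves, counted with their degrees -/
theorem bezout {f h : P2 k} (hf : f ≠ 0) (hh : h ≠ 0) (hc : IsRelPrime f h)
    {ι : Type} (s : Finset ι) (I : ι → Ideal (P2 k)) (hmax : ∀ i ∈ s, (I i).IsMaximal)
    (hfin : ∀ i ∈ s, Module.Finite k (P2 k ⧸ I i))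
    (hne : ∀ i ∈ s, ∀ j ∈ s, i ≠ j → I i ≠ I j)
    (hmem : ∀ i ∈ s, f ∈ I i ∧ h ∈ I i) :
    ∑ i ∈ s, Module.finrank k (P2 k ⧸ I i) ≤
      f.degreeOf 0 * h.degreeOf 1 + f.degreeOf 1 * h.degreeOf 0 := by
  classical
  -- the map to the product of the quotients
  have hfin' : ∀ i : s, Module.Finite k (P2 k ⧸ I i) := fun i => hfin i i.2
  let ψ : P2 k →ₗ[k] (∀ i : s, P2 k ⧸ I i) :=
    LinearMap.pi fun i => (Ideal.Quotient.mkₐ k (I i)).toLinearMap
  have hψ : Function.Surjective ψ := by
    intro y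
    have hcop : Pairwise (Function.onFun IsCoprime fun i : s => I i) := by
      intro i j hij
      have := hmax i i.2
      have := hmax j j.2
      exact Ideal.isCoprime_of_isMaximal (hne i i.2 j j.2 fun e => hij (Subtype.ext e))
    obtain ⟨r, hr⟩ := Ideal.pi_quotient_surjective hcop y
    exact ⟨r, funext fun i => hr i⟩
  -- preimages of a basis
  let bs := Module.finBasis k (∀ i : s, P2 k ⧸ I i)
  choose g hg using fun j => hψ (bs j)
  set D : ℕ := ∑ j, ∑ i, (g j).degreeOf i with hD
  set A : Fin 2 → ℕ := fun _ => D with hA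
  set F : Fin 2 → ℕ := fun i => f.degreeOf i with hF
  set H : Fin 2 → ℕ := fun i => h.degreeOf i with hH
  set N : Fin 2 → ℕ := fun i => A i + F i + H i with hN
  -- the restriction is onto
  let ρ : bx k N →ₗ[k] (∀ i : s, P2 k ⧸ I i) := ψ.domRestrict (bx k N)
  have hρ : LinearMap.range ρ = ⊤ := by
    rw [eq_top_iff, ← bs.span_eq, Submodule.span_le]
    rintro _ ⟨j, rfl⟩
    have hgj : g j ∈ bx k N := by
      intro i
      have h1 : (g j).degreeOf i ≤ ∑ i, (g j).degreeOf i :=
        Finset.single_le_sum (f := fun i => (g j).degreeOf i) (fun _ _ => Nat.zero_le _)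
          (Finset.mem_univ i)
      have h2 : ∑ i, (g j).degreeOf i ≤ D :=
        Finset.single_le_sum (f := fun j => ∑ i, (g j).degreeOf i) (fun _ _ => Nat.zero_le _)
          (Finset.mem_univ j)
      simp only [hN, hA]
      omega
    exact ⟨⟨g j, hgj⟩, hg j⟩
  have hrk := LinearMap.finrank_range_add_finrank_ker ρ
  rw [hρ, finrank_top, Module.finrank_pi_fintype, finrank_bx] at hrk
  -- the submodules
  set U1 : Submodule k (P2 k) := (bx k fun i => A i + H i).map (LinearMap.mulLeft k f) with hU1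
  set U2 : Submodule k (P2 k) := (bx k fun i => A i + F i).map (LinearMap.mulLeft k h) with hU2
  have hU1le : U1 ≤ bx k N := A4_map_le fun i => by simp only [hN, hF]; omega
  have hU2le : U2 ≤ bx k N := A4_map_le fun i => by simp only [hN, hH]; omega
  have : Module.Finite k U1 := Submodule.finiteDimensional_of_le hU1le
  have : Module.Finite k U2 := Submodule.finiteDimensional_of_le hU2le
  have hinf : U1 ⊓ U2 ≤ (bx k A).map (LinearMap.mulLeft k (f * h)) := by
    rintro _ ⟨⟨u, hu, rfl⟩, ⟨w, hw, hwu⟩⟩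
    simp only [LinearMap.mulLeft_apply] at hwu ⊢
    have hdvd : h ∣ f * u := ⟨w, hwu.symm⟩
    obtain ⟨t, rfl⟩ := (hc.symm).dvd_of_dvd_mul_left hdvd
    refine ⟨t, ?_, by simp [mul_assoc]⟩
    intro i
    by_cases ht : t = 0
    · simp [ht]
    · have h3 := hu i
      rw [degreeOf_mul_eq hh ht] at h3
      simp only [hH] at h3
      omega
  have hsum := Submodule.finrank_sup_add_finrank_inf_eq U1 U2
  have hcomap : U1 ⊔ U2 ≤ (LinearMap.ker ρ).map (bx k N).subtype := by
    rw [sup_le_iff]
    constructor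
    · rintro x hx
      refine ⟨⟨x, hU1le hx⟩, ?_, rfl⟩
      obtain ⟨u, hu, rfl⟩ := hx
      show ρ _ = 0
      funext i
      show Ideal.Quotient.mk (I i) (f * u) = 0
      exact Ideal.Quotient.eq_zero_iff_mem.2 ((I i).mul_mem_right u (hmem i i.2).1)
    · rintro x hx
      refine ⟨⟨x, hU2le hx⟩, ?_, rfl⟩
      obtain ⟨u, hu, rfl⟩ := hx
      show ρ _ = 0
      funext i
      show Ideal.Quotient.mk (I i) (h * u) = 0
      exact Ideal.Quotient.eq_zero_iff_mem.2 ((I i).mul_mem_right u (hmem i i.2).2)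
  have hK : Module.finrank k (U1 ⊔ U2 : Submodule k (P2 k)) ≤
      Module.finrank k (LinearMap.ker ρ) := by
    have h1 := Submodule.finrank_mono hcomap
    rwa [(Submodule.equivMapOfInjective (bx k N).subtype
      (Submodule.subtype_injective _) (LinearMap.ker ρ)).finrank_eq.symm] at h1
  have hW : Module.finrank k (U1 ⊓ U2 : Submodule k (P2 k)) ≤ (D + 1) * (D + 1) := by
    have h1 := Submodule.finrank_mono hinf
    rwa [A4_finrank_map (mul_ne_zero hf hh), finrank_bx] at h1
  have e1 : Module.finrank k U1 = (D + 1 + H 0) * (D + 1 + H 1) := by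
    rw [hU1, A4_finrank_map hf, finrank_bx]
    simp only [hA]
    ring
  have e2 : Module.finrank k U2 = (D + 1 + F 0) * (D + 1 + F 1) := by
    rw [hU2, A4_finrank_map hh, finrank_bx]
    simp only [hA]
    ring
  have hT : ∑ i ∈ s, Module.finrank k (P2 k ⧸ I i) = ∑ i : s, Module.finrank k (P2 k ⧸ I i) := by
    rw [← Finset.sum_coe_sort]
  rw [hT]
  refine A4_count e1 e2 hW hsum hK ?_
  rw [hrk]
  simp only [hN, hA]
  ring

end BMF
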