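import Pool.Agent.Lib.MP_a325a5_ag.F.Def

open NumberField MvPolynomial

namespace BMF

variable {k : Type} [Field k] [Infinite k]

omit [Infinite k] in
private theorem a5_deg {B q : P2 k} (hB : B ≠ 0) (hq : Irreducible q) :
    B.totalDegree < (B * q).totalDegree := by
  rw [totalDegree_mul_of_isDomain hB hq.ne_zero]
  have h1 : q.totalDegree ≠ 0 := by
    intro h0
    have h2 := totalDegree_eq_zero_iff_eq_C.mp h0
    apply hq.not_isUnit
    rw [h2]
    have hc : coeff 0 q ≠ 0 := by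
      intro hc
      rw [hc, C_0] at h2
      exact hq.ne_zero h2
    exact (isUnit_iff_ne_zero.mpr hc).map C
  omega

/-- the members of `V` divisible by `D` -/
private def a5_sub (V : Submodule k (P2 k)) (D : P2 k) : Submodule k V where
  carrier := {G | D ∣ (G : P2 k)}
  add_mem' := fun {a b} ha hb => by
    change D ∣ ((a + b : V) : P2 k)
    rw [Submodule.coe_add]
    exact dvd_add ha hb
  zero_mem' := by
    change D ∣ ((0 : V) : P2 k)
    rw [Submodule.coe_zero]
    exact dvd_zero D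
  smul_mem' := fun c a ha => by
    change D ∣ ((c • a : V) : P2 k)
    rw [Submodule.coe_smul, MvPolynomial.smul_eq_C_mul]
    exact Dvd.dvd.mul_left ha _

/-- the common divisor of a finite dimensional space of polynomials, with two coprime quotients -/
theorem exists_gcd_sub (V : Submodule k (P2 k)) [Module.Finite k V] (hV : V ≠ ⊥) :
    ∃ B : P2 k, B ≠ 0 ∧ (∀ G ∈ V, B ∣ G) ∧
      ∃ f h : P2 k, f ≠ 0 ∧ h ≠ 0 ∧ B * f ∈ V ∧ B * h ∈ V ∧ IsRelPrime f h := by
  classical
  obtain ⟨G1, hG1, hG1n⟩ := V.ne_bot_iff.mp hV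
  -- a common divisor of maximal degree
  let S : Set ℕ := {n | ∃ B : P2 k, (∀ G ∈ V, B ∣ G) ∧ B.totalDegree = n}
  have hSne : S.Nonempty := ⟨_, 1, fun G _ => one_dvd G, rfl⟩
  have hSbd : ∀ n ∈ S, n ≤ G1.totalDegree := by
    rintro n ⟨B, hB, rfl⟩
    obtain ⟨c, hc⟩ := hB G1 hG1
    have hB0 : B ≠ 0 := by
      rintro rfl
      rw [zero_mul] at hc
      exact hG1n hc
    have hc0 : c ≠ 0 := by
      rintro rfl
      rw [mul_zero] at hc
      exact hG1n hc
    rw [hc, totalDegree_mul_of_isDomain hB0 hc0]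
    omega
  obtain ⟨B, hB, hBmax⟩ : ∃ B : P2 k, (∀ G ∈ V, B ∣ G) ∧ B.totalDegree = sSup S :=
    Nat.sSup_mem hSne ⟨_, hSbd⟩
  have hmax : ∀ B' : P2 k, (∀ G ∈ V, B' ∣ G) → B'.totalDegree ≤ B.totalDegree := by
    intro B' hB'
    rw [hBmax]
    exact le_csSup ⟨_, hSbd⟩ ⟨B', hB', rfl⟩
  obtain ⟨f, hf⟩ := hB G1 hG1
  have hB0 : B ≠ 0 := by
    rintro rfl
    rw [zero_mul] at hf
    exact hG1n hf
  have hf0 : f ≠ 0 := by
    rintro rfl
    rw [mul_zero] at hf
    exact hG1n hf
  have hprop : ∀ q : P2 k, Irreducible q → a5_sub V (B * q) ≠ ⊤ := by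
    intro q hq htop
    have h1 : ∀ G ∈ V, B * q ∣ G := by
      intro G hG
      have h2 : (⟨G, hG⟩ : V) ∈ a5_sub V (B * q) := by
        rw [htop]
        exact Submodule.mem_top
      exact h2
    have h3 := hmax _ h1
    have h4 := a5_deg hB0 hq
    omega
  let s : Finset (Submodule k V) :=
    insert ⊥ ((UniqueFactorizationMonoid.factors f).toFinset.image (fun q => a5_sub V (B * q)))
  have hs : ⊤ ∉ s := by
    intro h
    rcases Finset.mem_insert.mp h with h | h
    · have h1 : (⟨G1, hG1⟩ : V) ∈ (⊤ : Submodule k V) := Submodule.mem_top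
      rw [h, Submodule.mem_bot] at h1
      exact hG1n (congrArg Subtype.val h1)
    · obtain ⟨q, hq, hq'⟩ := Finset.mem_image.mp h
      exact hprop q (UniqueFactorizationMonoid.irreducible_of_factor q (Multiset.mem_toFinset.mp hq)) hq'
  have hne := Subspace.biUnion_ne_univ_of_top_notMem hs
  obtain ⟨G2, hG2⟩ := (Set.ne_univ_iff_exists_notMem _).mp hne
  simp only [Set.mem_iUnion, not_exists] at hG2
  have hG2n : (G2 : P2 k) ≠ 0 := by
    intro h0
    apply hG2 ⊥ (Finset.mem_insert_self _ _)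
    exact (Submodule.mem_bot k).mpr (Subtype.ext h0)
  obtain ⟨h, hh⟩ := hB G2 G2.2
  refine ⟨B, hB0, hB, f, h, hf0, ?_, ?_, ?_, ?_⟩
  · rintro rfl
    rw [mul_zero] at hh
    exact hG2n hh
  · rw [← hf]
    exact hG1
  · rw [← hh]
    exact G2.2
  · intro d hdf hdh
    by_contra hd
    have hd0 : d ≠ 0 := by
      rintro rfl
      exact hf0 (zero_dvd_iff.mp hdf)
    obtain ⟨q, hq, hqd⟩ := WfDvdMonoid.exists_irreducible_factor hd hd0
    obtain ⟨π, hπ, hqπ⟩ := UniqueFactorizationMonoid.exists_mem_factors_of_dvd hf0 hq (hqd.trans hdf)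
    apply hG2 (a5_sub V (B * π))
      (Finset.mem_insert_of_mem (Finset.mem_image.mpr ⟨π, Multiset.mem_toFinset.mpr hπ, rfl⟩))
    change B * π ∣ (G2 : P2 k)
    rw [hh]
    exact mul_dvd_mul_left B (hqπ.symm.dvd.trans (hqd.trans hdh))

end BMF
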