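import Pool.Agent.Lib.MP_a325a5_ag.F.A1
import Pool.Agent.Lib.MP_a325a5_ag.F.A3

open NumberField MvPolynomial

namespace BMF

variable {k : Type} [Field k]

private lemma a6_half {A B a b δ : ℝ} (hA : 0 < A) (hB : 0 < B) (ha : 0 ≤ a) (haA : a ≤ A)
    (hb : 0 ≤ b) (h : (1 - δ) * (A * B) ≤ (A - a) * (B - b)) : a / A ≤ δ := by
  have h1 : (A - a) * (B - b) ≤ (A - a) * B :=
    mul_le_mul_of_nonneg_left (by linarith) (by linarith)
  have h2 : ((1 - δ) * A) * B ≤ (A - a) * B := by linarith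
  have h3 := le_of_mul_le_mul_right h2 hB
  rw [div_le_iff₀ hA]
  linarith

theorem top_wt (L : Fin 2 → ℕ) (V : Submodule k (P2 k)) (hV : V ≤ bx k L) (hne : V ≠ ⊥)
    {B : P2 k} (hB : B ≠ 0) (hdvd : ∀ G ∈ V, B ∣ G) {δ : ℝ} (h0 : 0 ≤ δ) (h1 : δ ≤ 1)
    (hdim : (1 - δ) * (((L 0 : ℝ) + 1) * ((L 1 : ℝ) + 1)) ≤ Module.finrank k V) :
    wt L B ≤ 2 * δ := by
  have hmem : ∀ G ∈ V, ∃ H : P2 k, G = B * H ∧ (G ≠ 0 → ∀ i, B.degreeOf i + H.degreeOf i ≤ L i) := by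
    intro G hG
    obtain ⟨H, hH⟩ := hdvd G hG
    refine ⟨H, hH, fun hG0 i => ?_⟩
    have h2 : H ≠ 0 := by
      rintro rfl
      rw [mul_zero] at hH
      exact hG0 hH
    rw [← degreeOf_mul_eq hB h2, ← hH]
    exact hV hG i
  have hb : ∀ i, B.degreeOf i ≤ L i := by
    obtain ⟨G, hG, hG0⟩ := (Submodule.ne_bot_iff V).1 hne
    obtain ⟨H, -, hH⟩ := hmem G hG
    intro i
    have := hH hG0 i
    omega
  have hle : V ≤ (bx k fun i => L i - B.degreeOf i).map (LinearMap.mulLeft k B) := by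
    intro G hG
    obtain ⟨H, hGH, hH⟩ := hmem G hG
    rcases eq_or_ne G 0 with rfl | hG0
    · exact Submodule.zero_mem _
    · refine Submodule.mem_map.2 ⟨H, fun i => ?_, hGH.symm⟩
      have := hH hG0 i
      change H.degreeOf i ≤ L i - B.degreeOf i
      omega
  have hfin : Module.finrank k V ≤ (L 0 - B.degreeOf 0 + 1) * (L 1 - B.degreeOf 1 + 1) := by
    refine (Submodule.finrank_mono hle).trans ?_
    refine (Submodule.finrank_map_le _ _).trans ?_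
    rw [finrank_bx]
  have hfin' : (Module.finrank k V : ℝ) ≤
      ((L 0 : ℝ) + 1 - B.degreeOf 0) * ((L 1 : ℝ) + 1 - B.degreeOf 1) := by
    have h2 : (Module.finrank k V : ℝ) ≤
        (((L 0 - B.degreeOf 0 + 1) * (L 1 - B.degreeOf 1 + 1) : ℕ) : ℝ) := by exact_mod_cast hfin
    refine h2.trans (le_of_eq ?_)
    rw [Nat.cast_mul, Nat.cast_add, Nat.cast_add, Nat.cast_sub (hb 0), Nat.cast_sub (hb 1)]
    push_cast
    ring
  have p0 : (0 : ℝ) < (L 0 : ℝ) + 1 := by positivity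
  have p1 : (0 : ℝ) < (L 1 : ℝ) + 1 := by positivity
  have c0 : (B.degreeOf 0 : ℝ) ≤ L 0 := by exact_mod_cast hb 0
  have c1 : (B.degreeOf 1 : ℝ) ≤ L 1 := by exact_mod_cast hb 1
  have n0 : (0 : ℝ) ≤ (B.degreeOf 0 : ℝ) := by positivity
  have n1 : (0 : ℝ) ≤ (B.degreeOf 1 : ℝ) := by positivity
  have h3 := hdim.trans hfin'
  have r0 := a6_half p0 p1 n0 (by linarith) n1 h3
  have r1 := a6_half p1 p0 n1 (by linarith) n0 (δ := δ) (by
    rw [mul_comm ((L 1 : ℝ) + 1) ((L 0 : ℝ) + 1), mul_comm ((L 1 : ℝ) + 1 - _) _]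
    exact h3)
  unfold wt
  linarith

end BMF
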