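import Pool.Agent.Lib.MP_a325a5_ag.F.AnomB

/-! The degree of a point with two independent relations, outside the anomalous curves.

Proof.  `G` from `anom_irr`.  Let `H` be a greatest common divisor of `bin a`, `bin b` (nonzero by
`bin_ne_zero`; `L[X][Y]` is a unique factorisation domain, use a `GCDMonoid` instance or
`exists_reduced_factors`).  `H` does not vanish at the point: otherwise one of its irreducible
factors vanishes there, and `G` too by `anom_irr`.  So `bin a = H f'`, `bin b = H g'` with `f'`, `g'`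
relatively prime and zero at the point (`aeval_bin`); `dX f' ≤ dX (bin a) ≤ l1 a` (`dX_mul`,
`dX_bin`), the same for `dY` and `b`; `bez_deg`. -/

open Polynomial Polynomial.Bivariate

namespace BMF

private theorem irr_zero {L : Type} [Field L] {K : Type} [Field K] [Algebra L K] (t s : K)
    (H : L[X][Y]) (hH : H ≠ 0) (h0 : aevalAeval t s H = 0) :
    ∃ q : L[X][Y], Irreducible q ∧ q ∣ H ∧ aevalAeval t s q = 0 := by
  obtain ⟨f, hf, hfa⟩ := WfDvdMonoid.exists_factors H hH
  have h1 : aevalAeval t s f.prod = 0 := by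
    obtain ⟨u, hu⟩ := hfa.symm
    rw [← hu, map_mul, h0, zero_mul]
  rw [map_multiset_prod, Multiset.prod_eq_zero_iff, Multiset.mem_map] at h1
  obtain ⟨q, hq, hq0⟩ := h1
  exact ⟨q, hf q hq, (Multiset.dvd_prod hq).trans hfa.dvd, hq0⟩

theorem anom {L : Type} [Field L] [NumberField L] (α γ : Fin 3 → L) (r p : L)
    (hα : Function.Injective α) (hγ : ∀ j, γ j ≠ 0) (hr : r ≠ 0) (hp : p ≠ 0) :
    ∃ G : L[X][Y], G ≠ 0 ∧ ∀ (K : Type) [Field K] [NumberField K] [Algebra L K] (t s : K),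
      IntermediateField.adjoin L {t, s} = ⊤ → (∀ i, cv α γ r p t s i ≠ 0) →
      (∀ a b : Fin 3 → ℤ, LinearIndependent ℤ ![a, b] →
        ¬ (∏ j : Fin 3, cv α γ r p t s (Fin.castAdd 2 j) ^ a j = 1 ∧
          ∏ j : Fin 3, cv α γ r p t s (Fin.castAdd 2 j) ^ b j = 1)) →
      aevalAeval t s G ≠ 0 → ∀ a b : Fin 5 → ℤ, LinearIndependent ℤ ![a, b] →
      ∏ i, cv α γ r p t s i ^ a i = 1 → ∏ i, cv α γ r p t s i ^ b i = 1 →
      Module.finrank L K ≤ 2 * l1 a * l1 b := by
  obtain ⟨G, hG, hG2⟩ := anom_irr α γ r p hα hγ hr hp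
  refine ⟨G, hG, ?_⟩
  intro K _ _ _ t s hadj hcv hc hGts a b hab ha hb
  have ha0 : a ≠ 0 := by simpa using hab.ne_zero 0
  have hb0 : b ≠ 0 := by simpa using hab.ne_zero 1
  have hA := bin_ne_zero α γ r p hα hγ hr hp a ha0
  have hB := bin_ne_zero α γ r p hα hγ hr hp b hb0
  obtain ⟨f, g, H, hrel, hHf, hHg⟩ :=
    UniqueFactorizationMonoid.exists_reduced_factors (bin α γ r p a) hA (bin α γ r p b)
  have hH0 : H ≠ 0 := fun h => hA (by rw [← hHf, h, zero_mul])
  have hf0 : f ≠ 0 := fun h => hA (by rw [← hHf, h, mul_zero])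
  have hg0 : g ≠ 0 := fun h => hB (by rw [← hHg, h, mul_zero])
  have hA0 := (aeval_bin α γ r p t s hcv a).mpr ha
  have hB0 := (aeval_bin α γ r p t s hcv b).mpr hb
  have hHts : aevalAeval t s H ≠ 0 := by
    intro h0
    obtain ⟨q, hq, hqH, hq0⟩ := irr_zero t s H hH0 h0
    refine hGts (hG2 K t s hcv hc a b hab ha hb q hq (hqH.trans ⟨f, hHf.symm⟩)
      (hqH.trans ⟨g, hHg.symm⟩) hq0)
  rw [← hHf, map_mul, mul_eq_zero] at hA0
  rw [← hHg, map_mul, mul_eq_zero] at hB0
  have hf1 := hA0.resolve_left hHts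
  have hg1 := hB0.resolve_left hHts
  have hbez := bez_deg f g hrel t s hadj hf1 hg1
  have x1 : dX f ≤ l1 a := by
    have h1 := dX_bin α γ r p a
    rw [← hHf, dX_mul H f hH0 hf0] at h1
    omega
  have x2 : dX g ≤ l1 b := by
    have h1 := dX_bin α γ r p b
    rw [← hHg, dX_mul H g hH0 hg0] at h1
    omega
  have y1 : dY f ≤ l1 a := by
    have h1 := dY_bin α γ r p a
    unfold dY at h1 ⊢
    rw [← hHf, natDegree_mul hH0 hf0] at h1
    omega
  have y2 : dY g ≤ l1 b := by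
    have h1 := dY_bin α γ r p b
    unfold dY at h1 ⊢
    rw [← hHg, natDegree_mul hH0 hg0] at h1
    omega
  calc Module.finrank L K ≤ dX f * dY g + dX g * dY f := hbez
    _ ≤ l1 a * l1 b + l1 b * l1 a :=
      Nat.add_le_add (Nat.mul_le_mul x1 y2) (Nat.mul_le_mul x2 y1)
    _ = 2 * l1 a * l1 b := by ring

end BMF
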