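import Pool.Agent.Lib.MP_a325a5_ag.F.CoPr

/-! A vertical line on which a binomial vanishes.

Proof.  Apply the ring homomorphism `L[X][Y] → K[Y]`, `X ↦ t` (`Polynomial.map` of evaluation at
`t`).  It kills `C q₀`, hence `bin a`:
`∏_{j < 3} c_j(t) ^ (a_j)⁺ * Y ^ (a_3)⁺ * (r Y + p) ^ (a_4)⁺ = ` the same with negative parts, in `K[Y]`,
with nonzero constants `c_j(t)`.  The order of vanishing at `Y = 0` (`r Y + p` does not vanish there)
gives `(a_3)⁺ = (a_3)⁻ = 0`, at `Y = - p / r` the same for `a_4`.  Then the constants are equal. -/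

open Polynomial Polynomial.Bivariate

namespace BMF

theorem anom_deg0 {L : Type} [Field L] (α γ : Fin 3 → L) (r p : L) (hγ : ∀ j, γ j ≠ 0)
    (hr : r ≠ 0) (hp : p ≠ 0) (K : Type) [Field K] [Algebra L K] (t s : K) (q₀ : L[X])
    (h0 : aeval t q₀ = 0) (ht : ∀ j, t ≠ algebraMap L K (α j)) (a : Fin 5 → ℤ)
    (hd : (C q₀ : L[X][Y]) ∣ bin α γ r p a) :
    a 3 = 0 ∧ a 4 = 0 ∧ ∏ j : Fin 3, cv α γ r p t s (Fin.castAdd 2 j) ^ a (Fin.castAdd 2 j) = 1 := by
  -- the ring homomorphism to `K[Y]`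
  set φ : L[X][Y] →+* K[X] := mapRingHom (aeval t : L[X] →ₐ[L] K).toRingHom with hφ
  set c : Fin 3 → K := fun j => algebraMap L K (γ j) * (t - algebraMap L K (α j)) with hc
  have hc0 : ∀ j, c j ≠ 0 := fun j =>
    mul_ne_zero ((_root_.map_ne_zero _).2 (hγ j)) (sub_ne_zero.2 (ht j))
  have hφC : ∀ q : L[X], φ (C q) = C (aeval t q) := by
    intro q
    simp [hφ]
  have hφY : φ Y = X := by simp [hφ]
  have hbin : φ (bin α γ r p a) = 0 := by
    obtain ⟨q, hq⟩ := hd
    rw [hq, map_mul, hφC, h0, C_0, zero_mul]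
  set r' : K := algebraMap L K r with hr'
  set p' : K := algebraMap L K p with hp'
  have hr0 : r' ≠ 0 := (_root_.map_ne_zero _).2 hr
  have hp0 : p' ≠ 0 := (_root_.map_ne_zero _).2 hp
  have hco : ∀ i, φ (co α γ r p i) = (![C (c 0), C (c 1), C (c 2), X, C r' * X + C p'] : Fin 5 → K[X]) i := by
    intro i
    fin_cases i
    · show φ (C (C (γ 0) * (X - C (α 0)))) = C (c 0)
      rw [hφC]; simp [hc]
    · show φ (C (C (γ 1) * (X - C (α 1)))) = C (c 1)
      rw [hφC]; simp [hc]
    · show φ (C (C (γ 2) * (X - C (α 2)))) = C (c 2)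
      rw [hφC]; simp [hc]
    · exact hφY
    · show φ (C (C r) * Y + C (C p)) = C r' * X + C p'
      rw [map_add, map_mul, hφC, hφC, hφY]; simp [hr', hp']
  have hE : (∏ j, (C (c j)) ^ (a (Fin.castAdd 2 j)).toNat) * X ^ (a 3).toNat * (C r' * X + C p') ^ (a 4).toNat =
      (∏ j, (C (c j)) ^ (-a (Fin.castAdd 2 j)).toNat) * X ^ (-a 3).toNat * (C r' * X + C p') ^ (-a 4).toNat := by
    rw [← sub_eq_zero, ← hbin]
    unfold bin
    rw [map_sub, map_prod, map_prod, Fin.prod_univ_five, Fin.prod_univ_five, Fin.prod_univ_three,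
      Fin.prod_univ_three]
    simp only [map_pow, hco]
    rfl
  set P : K := ∏ j, (c j) ^ (a (Fin.castAdd 2 j)).toNat with hP
  set N : K := ∏ j, (c j) ^ (-a (Fin.castAdd 2 j)).toNat with hN
  have hP0 : P ≠ 0 := Finset.prod_ne_zero_iff.2 fun j _ => pow_ne_zero _ (hc0 j)
  have hN0 : N ≠ 0 := Finset.prod_ne_zero_iff.2 fun j _ => pow_ne_zero _ (hc0 j)
  have hE1 : ∀ y : K, P * y ^ (a 3).toNat * (r' * y + p') ^ (a 4).toNat =
      N * y ^ (-a 3).toNat * (r' * y + p') ^ (-a 4).toNat := by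
    intro y
    have := congrArg (eval y) hE
    simp only [eval_mul, eval_pow, eval_X, eval_add, eval_C, eval_prod] at this
    exact this
  have h3 : a 3 = 0 := by
    have := hE1 0
    rw [mul_zero, zero_add] at this
    rcases lt_trichotomy (a 3) 0 with h | h | h
    · have e1 : (a 3).toNat = 0 := by omega
      rw [e1, pow_zero, zero_pow (by omega : (-a 3).toNat ≠ 0), mul_one, mul_zero, zero_mul] at this
      exact absurd this (mul_ne_zero hP0 (pow_ne_zero _ hp0))
    · exact h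
    · have e1 : (-a 3).toNat = 0 := by omega
      rw [e1, pow_zero, zero_pow (by omega : (a 3).toNat ≠ 0), mul_one, mul_zero, zero_mul] at this
      exact absurd this.symm (mul_ne_zero hN0 (pow_ne_zero _ hp0))
  have h4 : a 4 = 0 := by
    have hy : r' * (-p' / r') + p' = 0 := by
      field_simp
      ring
    have hy0 : -p' / r' ≠ 0 := div_ne_zero (neg_ne_zero.2 hp0) hr0
    have := hE1 (-p' / r')
    rw [hy] at this
    rcases lt_trichotomy (a 4) 0 with h | h | h
    · have e1 : (a 4).toNat = 0 := by omega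
      rw [e1, pow_zero, zero_pow (by omega : (-a 4).toNat ≠ 0), mul_one, mul_zero] at this
      exact absurd this (mul_ne_zero hP0 (pow_ne_zero _ hy0))
    · exact h
    · have e1 : (-a 4).toNat = 0 := by omega
      rw [e1, pow_zero, zero_pow (by omega : (a 4).toNat ≠ 0), mul_one, mul_zero] at this
      exact absurd this.symm (mul_ne_zero hN0 (pow_ne_zero _ hy0))
  refine ⟨h3, h4, ?_⟩
  have hPN : P = N := by
    have := hE1 0
    rw [h3, h4] at this
    simpa using this
  have hcv : ∀ j : Fin 3, cv α γ r p t s (Fin.castAdd 2 j) = c j := by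
    intro j
    fin_cases j <;> rfl
  have : ∀ j : Fin 3, cv α γ r p t s (Fin.castAdd 2 j) ^ a (Fin.castAdd 2 j) =
      c j ^ (a (Fin.castAdd 2 j)).toNat / c j ^ (-a (Fin.castAdd 2 j)).toNat := by
    intro j
    rw [hcv j, ← zpow_natCast, ← zpow_natCast, ← zpow_sub₀ (hc0 j)]
    congr 1
    omega
  rw [Finset.prod_congr rfl fun j _ => this j, Finset.prod_div_distrib]
  exact (div_eq_one_iff_eq hN0).2 hPN

end BMF
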