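import Pool.Agent.Lib.MP_a325a5_ag.F.Grad

/-! The degenerate case of the polynomial of bidegree `(2, 1)`.

Proof.  Evaluate the identity at `X = α j` and `Y = 0` or `Y = -p / r`: all but one summand of
`nn a` vanish, so `a j * b k = b j * a k` in `L`, hence in `ℤ`, for `j < 3` and `k = 3, 4`.  If some
`a j ≠ 0` (or `b j ≠ 0`) and some `a k ≠ 0` (or `b k ≠ 0`) then `a` and `b` are proportional,
contradiction. -/

open Polynomial Polynomial.Bivariate

namespace BMF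

variable {L : Type} [Field L]

private theorem QZero_ev (α γ : Fin 3 → L) (r p : L) (a b : Fin 5 → ℤ)
    (h : C (nn α γ a) * ll r p b - C (nn α γ b) * ll r p a = 0) (x y : L) :
    (nn α γ a).eval x * ((b 3 : L) * (r * y + p) + (b 4 : L) * r * y) =
      (nn α γ b).eval x * ((a 3 : L) * (r * y + p) + (a 4 : L) * r * y) := by
  have h1 := congrArg (fun f => Polynomial.eval x (Polynomial.eval (C y) f)) h
  simp only [Polynomial.eval_sub, Polynomial.eval_mul, Polynomial.eval_C, Polynomial.eval_zero,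
    ll, Polynomial.eval_add, Polynomial.eval_X, sub_eq_zero] at h1
  exact h1

private theorem QZero_par {x1 y1 x2 y2 x3 y3 : ℤ} (h2 : x2 ≠ 0 ∨ y2 ≠ 0)
    (h12 : x1 * y2 = y1 * x2) (h32 : x3 * y2 = y3 * x2) : x1 * y3 = y1 * x3 := by
  rcases h2 with h | h
  · refine mul_right_cancel₀ (mul_ne_zero h h) ?_
    have e1 : x1 * y3 * (x2 * x2) = (x1 * x2) * (y3 * x2) := by ring
    have e2 : y1 * x3 * (x2 * x2) = (y1 * x2) * (x3 * x2) := by ring
    rw [e1, e2, ← h12, ← h32]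
    ring
  · refine mul_right_cancel₀ (mul_ne_zero h h) ?_
    have e1 : x1 * y3 * (y2 * y2) = (x1 * y2) * (y3 * y2) := by ring
    have e2 : y1 * x3 * (y2 * y2) = (y1 * y2) * (x3 * y2) := by ring
    rw [e1, e2, h12, h32]
    ring

theorem qzero [CharZero L] (α γ : Fin 3 → L) (r p : L) (hα : Function.Injective α)
    (hγ : ∀ j, γ j ≠ 0) (hr : r ≠ 0) (hp : p ≠ 0) (a b : Fin 5 → ℤ)
    (hab : LinearIndependent ℤ ![a, b])
    (h : C (nn α γ a) * ll r p b - C (nn α γ b) * ll r p a = 0) :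
    (∀ j : Fin 3, a (Fin.castAdd 2 j) = 0 ∧ b (Fin.castAdd 2 j) = 0) ∨
      (∀ k : Fin 2, a (Fin.natAdd 3 k) = 0 ∧ b (Fin.natAdd 3 k) = 0) := by
  have hg : γ 0 * γ 1 * γ 2 ≠ 0 := mul_ne_zero (mul_ne_zero (hγ 0) (hγ 1)) (hγ 2)
  have h01 : α 0 - α 1 ≠ 0 := sub_ne_zero.2 fun e => by simpa using hα e
  have h02 : α 0 - α 2 ≠ 0 := sub_ne_zero.2 fun e => by simpa using hα e
  have h12 : α 1 - α 2 ≠ 0 := sub_ne_zero.2 fun e => by simpa using hα e
  have h10 : α 1 - α 0 ≠ 0 := sub_ne_zero.2 fun e => by simpa using hα e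
  have h20 : α 2 - α 0 ≠ 0 := sub_ne_zero.2 fun e => by simpa using hα e
  have h21 : α 2 - α 1 ≠ 0 := sub_ne_zero.2 fun e => by simpa using hα e
  -- values of `nn`
  have hw : ∀ j : Fin 3, ∃ w : L, w ≠ 0 ∧ ∀ c : Fin 5 → ℤ,
      (nn α γ c).eval (α j) = (c (Fin.castAdd 2 j) : L) * w := by
    intro j
    fin_cases j
    · refine ⟨γ 0 * γ 1 * γ 2 * ((α 0 - α 1) * (α 0 - α 2)),
        mul_ne_zero hg (mul_ne_zero h01 h02), fun c => ?_⟩
      have e : (Fin.castAdd 2 (0 : Fin 3) : Fin 5) = 0 := rfl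
      simp only [nn, Polynomial.eval_add, Polynomial.eval_mul, Polynomial.eval_C,
        Polynomial.eval_sub, Polynomial.eval_X]
      change _ = (c (Fin.castAdd 2 (0 : Fin 3)) : L) * _
      rw [e]
      change (c 0 : L) * γ 0 * γ 1 * γ 2 * ((α 0 - α 1) * (α 0 - α 2)) +
        (c 1 : L) * γ 0 * γ 1 * γ 2 * ((α 0 - α 0) * (α 0 - α 2)) +
        (c 2 : L) * γ 0 * γ 1 * γ 2 * ((α 0 - α 0) * (α 0 - α 1)) = _
      ring
    · refine ⟨γ 0 * γ 1 * γ 2 * ((α 1 - α 0) * (α 1 - α 2)),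
        mul_ne_zero hg (mul_ne_zero h10 h12), fun c => ?_⟩
      have e : (Fin.castAdd 2 (1 : Fin 3) : Fin 5) = 1 := rfl
      simp only [nn, Polynomial.eval_add, Polynomial.eval_mul, Polynomial.eval_C,
        Polynomial.eval_sub, Polynomial.eval_X]
      change _ = (c (Fin.castAdd 2 (1 : Fin 3)) : L) * _
      rw [e]
      change (c 0 : L) * γ 0 * γ 1 * γ 2 * ((α 1 - α 1) * (α 1 - α 2)) +
        (c 1 : L) * γ 0 * γ 1 * γ 2 * ((α 1 - α 0) * (α 1 - α 2)) +
        (c 2 : L) * γ 0 * γ 1 * γ 2 * ((α 1 - α 0) * (α 1 - α 1)) = _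
      ring
    · refine ⟨γ 0 * γ 1 * γ 2 * ((α 2 - α 0) * (α 2 - α 1)),
        mul_ne_zero hg (mul_ne_zero h20 h21), fun c => ?_⟩
      have e : (Fin.castAdd 2 (2 : Fin 3) : Fin 5) = 2 := rfl
      simp only [nn, Polynomial.eval_add, Polynomial.eval_mul, Polynomial.eval_C,
        Polynomial.eval_sub, Polynomial.eval_X]
      change _ = (c (Fin.castAdd 2 (2 : Fin 3)) : L) * _
      rw [e]
      change (c 0 : L) * γ 0 * γ 1 * γ 2 * ((α 2 - α 1) * (α 2 - α 2)) +
        (c 1 : L) * γ 0 * γ 1 * γ 2 * ((α 2 - α 0) * (α 2 - α 2)) +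
        (c 2 : L) * γ 0 * γ 1 * γ 2 * ((α 2 - α 0) * (α 2 - α 1)) = _
      ring
  -- the basic relations
  have hrel : ∀ (j : Fin 3) (k : Fin 2),
      a (Fin.castAdd 2 j) * b (Fin.natAdd 3 k) = b (Fin.castAdd 2 j) * a (Fin.natAdd 3 k) := by
    intro j k
    obtain ⟨w, hw0, hw⟩ := hw j
    fin_cases k
    · have e := QZero_ev α γ r p a b h (α j) 0
      rw [hw, hw] at e
      simp only [mul_zero, zero_add, add_zero] at e
      have e2 : ((a (Fin.castAdd 2 j) * b 3 : ℤ) : L) = ((b (Fin.castAdd 2 j) * a 3 : ℤ) : L) := by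
        push_cast
        refine mul_right_cancel₀ (mul_ne_zero hw0 hp) ?_
        linear_combination e
      exact_mod_cast e2
    · have e := QZero_ev α γ r p a b h (α j) (-(p / r))
      rw [hw, hw] at e
      have e3 : r * -(p / r) = -p := by field_simp
      rw [mul_assoc ((b 4 : ℤ) : L), mul_assoc ((a 4 : ℤ) : L), e3] at e
      simp only [neg_add_cancel, mul_zero, zero_add] at e
      have e2 : ((a (Fin.castAdd 2 j) * b 4 : ℤ) : L) = ((b (Fin.castAdd 2 j) * a 4 : ℤ) : L) := by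
        push_cast
        refine mul_right_cancel₀ (mul_ne_zero hw0 hp) ?_
        linear_combination -e
      exact_mod_cast e2
  by_contra hcon
  rw [not_or] at hcon
  obtain ⟨hc1, hc2⟩ := hcon
  have hc1' : ∃ j : Fin 3, a (Fin.castAdd 2 j) ≠ 0 ∨ b (Fin.castAdd 2 j) ≠ 0 := by
    by_contra hcc
    push Not at hcc
    exact hc1 hcc
  have hc2' : ∃ k : Fin 2, a (Fin.natAdd 3 k) ≠ 0 ∨ b (Fin.natAdd 3 k) ≠ 0 := by
    by_contra hcc
    push Not at hcc
    exact hc2 hcc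
  obtain ⟨j0, hj0⟩ := hc1'
  obtain ⟨k0, hk0⟩ := hc2'
  have hall : ∀ i : Fin 5, a i * b (Fin.castAdd 2 j0) = b i * a (Fin.castAdd 2 j0) := by
    intro i
    refine Fin.addCases (m := 3) (n := 2) (fun j => ?_) (fun k => ?_) i
    · exact QZero_par hk0 (hrel j k0) (hrel j0 k0)
    · have := hrel j0 k
      rw [mul_comm, mul_comm (b (Fin.natAdd 3 k))]
      exact this.symm
  rw [LinearIndependent.pair_iff] at hab
  have hz := hab (b (Fin.castAdd 2 j0)) (-a (Fin.castAdd 2 j0)) (by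
    funext i
    simp only [Pi.add_apply, Pi.smul_apply, smul_eq_mul, Pi.zero_apply]
    linear_combination hall i)
  rcases hj0 with hj | hj
  · exact hj (neg_eq_zero.1 hz.2)
  · exact hj hz.1

end BMF
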