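import Mathlib

/-! The points `s` such that `s` and `r s + p` are both roots of unity are roots of one
polynomial over `L`.

Proof.  Choose an embedding `τ` of `L` into `ℂ`.  The set `Z` of `z ∈ ℂ` with `‖z‖ = 1`,
`‖τ r * z + τ p‖ = 1` has at most two elements (two circles with different centres, `p ≠ 0`,
`r ≠ 0`).  Let `g` be the product of the minimal polynomials over `L` of the elements of `Z` which
are algebraic over `L` (algebra structure of `ℂ` over `L` given by `τ`).  If `s ∈ K`, extend `τ` to an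
embedding `σ` of `K`; then `σ s ∈ Z`. -/

open Polynomial Polynomial.Bivariate

namespace BMF

private theorem circles_root (a b z : ℂ) (hz : ‖z‖ = 1) (hw : ‖a * z + b‖ = 1) :
    a * (starRingEnd ℂ) b * z ^ 2 - (1 - a * (starRingEnd ℂ) a - b * (starRingEnd ℂ) b) * z +
      (starRingEnd ℂ) a * b = 0 := by
  have h1 : z * (starRingEnd ℂ) z = 1 := by
    rw [Complex.mul_conj, Complex.normSq_eq_norm_sq, hz]
    simp
  have h2 : (a * z + b) * ((starRingEnd ℂ) a * (starRingEnd ℂ) z + (starRingEnd ℂ) b) = 1 := by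
    have h3 : (starRingEnd ℂ) (a * z + b) =
        (starRingEnd ℂ) a * (starRingEnd ℂ) z + (starRingEnd ℂ) b := by
      rw [map_add, map_mul]
    rw [← h3, Complex.mul_conj, Complex.normSq_eq_norm_sq, hw]
    simp
  linear_combination z * h2 -
    (a * (starRingEnd ℂ) a * z + (starRingEnd ℂ) a * b) * h1

theorem tors_y {L : Type} [Field L] [NumberField L] (r p : L) (hr : r ≠ 0) (hp : p ≠ 0) :
    ∃ g : L[X], g ≠ 0 ∧ ∀ (K : Type) [Field K] [NumberField K] [Algebra L K] (s : K) (m n : ℕ),
      0 < m → 0 < n → s ^ m = 1 → (algebraMap L K r * s + algebraMap L K p) ^ n = 1 →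
      aeval s g = 0 := by
  classical
  obtain ⟨τ⟩ : Nonempty (L →+* ℂ) := inferInstance
  let _ : Algebra L ℂ := τ.toAlgebra
  obtain ⟨a, ha⟩ : ∃ a : ℂ, a = algebraMap L ℂ r := ⟨_, rfl⟩
  obtain ⟨b, hb⟩ : ∃ b : ℂ, b = algebraMap L ℂ p := ⟨_, rfl⟩
  have ha0 : a ≠ 0 := by
    rw [ha]
    exact (map_ne_zero_iff _ (algebraMap L ℂ).injective).2 hr
  have hb0 : b ≠ 0 := by
    rw [hb]
    exact (map_ne_zero_iff _ (algebraMap L ℂ).injective).2 hp
  let q : ℂ[X] := C (a * (starRingEnd ℂ) b) * X ^ 2 -
    C (1 - a * (starRingEnd ℂ) a - b * (starRingEnd ℂ) b) * X + C ((starRingEnd ℂ) a * b)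
  have hq : q ≠ 0 := by
    intro h
    have h1 : q.coeff 2 = 0 := by rw [h, coeff_zero]
    have h2 : q.coeff 2 = a * (starRingEnd ℂ) b := by
      simp only [q, coeff_add, coeff_sub, coeff_C_mul, coeff_X_pow, coeff_X, coeff_C]
      norm_num
    rw [h2] at h1
    rcases mul_eq_zero.1 h1 with h3 | h3
    · exact ha0 h3
    · exact hb0 ((map_eq_zero (starRingEnd ℂ)).1 h3)
  refine ⟨∏ z ∈ q.roots.toFinset, if IsIntegral L z then minpoly L z else 1, ?_, ?_⟩
  · rw [Finset.prod_ne_zero_iff]
    intro z _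
    split_ifs with h
    · exact minpoly.ne_zero h
    · exact one_ne_zero
  · intro K _ _ _ s m n hm hn hs hsn
    have : IsScalarTower ℚ L K := IsScalarTower.rat
    have : FiniteDimensional L K := Module.Finite.of_restrictScalars_finite ℚ L K
    have : Algebra.IsAlgebraic L K := inferInstance
    let σ : K →ₐ[L] ℂ := IsAlgClosed.lift
    have hint : IsIntegral L s := Algebra.IsIntegral.isIntegral s
    have h1 : ‖σ s‖ = 1 := by
      apply Complex.norm_eq_one_of_pow_eq_one (n := m) _ hm.ne'
      rw [← map_pow, hs, map_one]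
    have h2 : ‖a * σ s + b‖ = 1 := by
      apply Complex.norm_eq_one_of_pow_eq_one (n := n) _ hn.ne'
      have h3 : a * σ s + b = σ (algebraMap L K r * s + algebraMap L K p) := by
        rw [map_add, map_mul, AlgHom.commutes, AlgHom.commutes, ha, hb]
      rw [h3, ← map_pow, hsn, map_one]
    have h4 : σ s ∈ q.roots.toFinset := by
      rw [Multiset.mem_toFinset, mem_roots hq, IsRoot.def]
      have h5 := circles_root a b (σ s) h1 h2
      simp only [q, eval_add, eval_sub, eval_mul, eval_C, eval_pow, eval_X]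
      exact h5
    have h6 : IsIntegral L (σ s) := hint.map σ
    have h7 : minpoly L (σ s) = minpoly L s := minpoly.algHom_eq σ σ.injective s
    rw [map_prod]
    apply Finset.prod_eq_zero h4
    rw [if_pos h6, h7, minpoly.aeval]

end BMF
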