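import Pool.Agent.Lib.MP_a325a5_ag.F.TypU
import Pool.Agent.Lib.MP_a325a5_ag.F.TorsY
import Pool.Agent.Lib.MP_a325a5_ag.F.AnomA
import Pool.Agent.Lib.MP_a325a5_ag.F.QZero

/-! One polynomial which vanishes at all points on common factors of two binomials.

Proof.  `G = G' * g(Y)` with `G'` from `exists_anom` and `g` from `tors_y` (as a polynomial in `Y`, that
is `g.map C`).  Let `q`, `t`, `s`, `a`, `b` be as in the statement.  `q` divides no coordinate function
(it would be associated to the prime `co i` and not vanish at the point).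
If `q.natDegree = 0`, `q = C q₀`, `q₀(t) = 0`: `anom_deg0` for `a` and `b`: the restrictions of `a`, `b` to
the first three entries are independent relations between the `c_j(t)`: contradiction to `hc`.
Otherwise, if `Q = 0`, `qzero`: either the first three entries of `a`, `b` vanish: then
`s ^ a_3 * (r s + p) ^ a_4 = 1 = s ^ b_3 * (r s + p) ^ b_4` with independent exponents, so `s` and
`r s + p` are roots of unity (exponent `|a_3 b_4 - a_4 b_3| > 0`) and `g (s) = 0`; or the last two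
entries vanish: contradiction to `hc`.  If `Q ≠ 0`: `exists_typ`, `q ∣ G'`, `G'` vanishes at the point. -/

open Polynomial Polynomial.Bivariate

namespace BMF

private theorem AnomB_split {L : Type} [Field L] (α γ : Fin 3 → L) (r p : L) {K : Type} [Field K]
    [Algebra L K] (t s : K) (v : Fin 5 → ℤ) : ∏ i, cv α γ r p t s i ^ v i =
      (∏ j : Fin 3, cv α γ r p t s (Fin.castAdd 2 j) ^ v (Fin.castAdd 2 j)) *
        s ^ v 3 * (algebraMap L K r * s + algebraMap L K p) ^ v 4 := by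
  rw [Fin.prod_univ_five, Fin.prod_univ_three]
  rfl

private theorem AnomB_indep (a b : Fin 5 → ℤ) (hab : LinearIndependent ℤ ![a, b]) (a3 : a 3 = 0)
    (a4 : a 4 = 0) (b3 : b 3 = 0) (b4 : b 4 = 0) :
    LinearIndependent ℤ ![fun j : Fin 3 => a (Fin.castAdd 2 j),
      fun j : Fin 3 => b (Fin.castAdd 2 j)] := by
  rw [LinearIndependent.pair_iff] at hab ⊢
  intro x y h
  refine hab x y ?_
  have e0 := congrFun h 0
  have e1 := congrFun h 1
  have e2 := congrFun h 2
  funext i
  simp only [Pi.add_apply, Pi.smul_apply, smul_eq_mul, Pi.zero_apply] at e0 e1 e2 ⊢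
  fin_cases i
  · exact e0
  · exact e1
  · exact e2
  · show x * a 3 + y * b 3 = 0
    rw [a3, b3]; ring
  · show x * a 4 + y * b 4 = 0
    rw [a4, b4]; ring

private theorem AnomB_gY {L : Type} [Field L] {K : Type} [Field K] [Algebra L K] (t s : K)
    (g : L[X]) : aevalAeval t s (g.map C : L[X][Y]) = aeval s g := by
  rw [← Bivariate.swap_C, Bivariate.aevalAeval_swap, aevalAeval_C]

private theorem AnomB_tors {K : Type} [Field K] (s w : K) (hs : s ≠ 0) (hw : w ≠ 0)
    (a3 a4 b3 b4 : ℤ) (hD : a3 * b4 - a4 * b3 ≠ 0) (h1 : s ^ a3 * w ^ a4 = 1)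
    (h2 : s ^ b3 * w ^ b4 = 1) : ∃ m : ℕ, 0 < m ∧ s ^ m = 1 ∧ w ^ m = 1 := by
  have e1 : s ^ (a3 * b4 - a4 * b3) = 1 := by
    have h : s ^ (a3 * b4 - a4 * b3) = (s ^ a3 * w ^ a4) ^ b4 * (s ^ b3 * w ^ b4) ^ (-a4) := by
      rw [mul_zpow, mul_zpow, ← zpow_mul, ← zpow_mul, ← zpow_mul, ← zpow_mul]
      have : s ^ (a3 * b4) * w ^ (a4 * b4) * (s ^ (b3 * -a4) * w ^ (b4 * -a4)) =
          (s ^ (a3 * b4) * s ^ (b3 * -a4)) * (w ^ (a4 * b4) * w ^ (b4 * -a4)) := by ring
      rw [this, ← zpow_add₀ hs, ← zpow_add₀ hw]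
      have x1 : a4 * b4 + b4 * -a4 = 0 := by ring
      have x2 : a3 * b4 + b3 * -a4 = a3 * b4 - a4 * b3 := by ring
      rw [x1, x2, zpow_zero, mul_one]
    rw [h, h1, h2, one_zpow, one_zpow, one_mul]
  have e2 : w ^ (a3 * b4 - a4 * b3) = 1 := by
    have h : w ^ (a3 * b4 - a4 * b3) = (s ^ a3 * w ^ a4) ^ (-b3) * (s ^ b3 * w ^ b4) ^ a3 := by
      rw [mul_zpow, mul_zpow, ← zpow_mul, ← zpow_mul, ← zpow_mul, ← zpow_mul]
      have : s ^ (a3 * -b3) * w ^ (a4 * -b3) * (s ^ (b3 * a3) * w ^ (b4 * a3)) =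
          (s ^ (a3 * -b3) * s ^ (b3 * a3)) * (w ^ (a4 * -b3) * w ^ (b4 * a3)) := by ring
      rw [this, ← zpow_add₀ hs, ← zpow_add₀ hw]
      have x1 : a3 * -b3 + b3 * a3 = 0 := by ring
      have x2 : a4 * -b3 + b4 * a3 = a3 * b4 - a4 * b3 := by ring
      rw [x1, x2, zpow_zero, one_mul]
    rw [h, h1, h2, one_zpow, one_zpow, one_mul]
  have key : ∀ u : K, u ^ (a3 * b4 - a4 * b3) = 1 → u ^ (a3 * b4 - a4 * b3).natAbs = 1 := by
    intro u hu
    rcases Int.natAbs_eq (a3 * b4 - a4 * b3) with h | h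
    · rw [h, zpow_natCast] at hu
      exact hu
    · rw [h, zpow_neg, zpow_natCast, inv_eq_one] at hu
      exact hu
  exact ⟨(a3 * b4 - a4 * b3).natAbs, Int.natAbs_pos.mpr hD, key s e1, key w e2⟩

theorem anom_irr {L : Type} [Field L] [NumberField L] (α γ : Fin 3 → L) (r p : L)
    (hα : Function.Injective α) (hγ : ∀ j, γ j ≠ 0) (hr : r ≠ 0) (hp : p ≠ 0) :
    ∃ G : L[X][Y], G ≠ 0 ∧ ∀ (K : Type) [Field K] [NumberField K] [Algebra L K] (t s : K),
      (∀ i, cv α γ r p t s i ≠ 0) →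
      (∀ a b : Fin 3 → ℤ, LinearIndependent ℤ ![a, b] →
        ¬ (∏ j : Fin 3, cv α γ r p t s (Fin.castAdd 2 j) ^ a j = 1 ∧
          ∏ j : Fin 3, cv α γ r p t s (Fin.castAdd 2 j) ^ b j = 1)) →
      ∀ a b : Fin 5 → ℤ, LinearIndependent ℤ ![a, b] →
      ∏ i, cv α γ r p t s i ^ a i = 1 → ∏ i, cv α γ r p t s i ^ b i = 1 →
      ∀ q : L[X][Y], Irreducible q → q ∣ bin α γ r p a → q ∣ bin α γ r p b →
      aevalAeval t s q = 0 → aevalAeval t s G = 0 := by
  obtain ⟨G', hG', hG2⟩ := exists_anom α r p hα hr hp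
  obtain ⟨g, hg, hg2⟩ := tors_y r p hr hp
  refine ⟨G' * g.map C, mul_ne_zero hG' ?_, ?_⟩
  · rw [Ne, Polynomial.map_eq_zero_iff C_injective]
    exact hg
  intro K _ _ _ t s hcv hc a b hab ha hb q hq hqa hqb hq0
  rw [map_mul, AnomB_gY]
  have hco : ∀ i, ¬ q ∣ co α γ r p i := by
    intro i hi
    obtain ⟨u, hu⟩ := hi
    have h1 := congrArg (aevalAeval t s) hu
    rw [map_mul, hq0, zero_mul, aeval_co] at h1
    exact hcv i h1
  have hs : s ≠ 0 := hcv 3
  have hw : algebraMap L K r * s + algebraMap L K p ≠ 0 := hcv 4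
  have hlast : a 3 = 0 → a 4 = 0 → b 3 = 0 → b 4 = 0 → False := by
    intro a3 a4 b3 b4
    refine hc _ _ (AnomB_indep a b hab a3 a4 b3 b4) ⟨?_, ?_⟩
    · have h1 := ha
      rw [AnomB_split, a3, a4, zpow_zero, zpow_zero, mul_one, mul_one] at h1
      exact h1
    · have h1 := hb
      rw [AnomB_split, b3, b4, zpow_zero, zpow_zero, mul_one, mul_one] at h1
      exact h1
  by_cases hdeg : q.natDegree = 0
  · exfalso
    have hqC := eq_C_of_natDegree_eq_zero hdeg
    set q₀ := q.coeff 0 with hq₀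
    have h0 : aeval t q₀ = 0 := by
      rw [hqC, aevalAeval_C] at hq0
      exact hq0
    have ht : ∀ j, t ≠ algebraMap L K (α j) := by
      intro j hj
      have h1 : cv α γ r p t s (Fin.castAdd 2 j) = 0 := by
        fin_cases j
        · show algebraMap L K (γ 0) * (t - algebraMap L K (α 0)) = 0
          rw [hj]; simp
        · show algebraMap L K (γ 1) * (t - algebraMap L K (α 1)) = 0
          rw [hj]; simp
        · show algebraMap L K (γ 2) * (t - algebraMap L K (α 2)) = 0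
          rw [hj]; simp
      exact hcv _ h1
    have x1 := anom_deg0 α γ r p hγ hr hp K t s q₀ h0 ht a (by rw [← hqC]; exact hqa)
    have x2 := anom_deg0 α γ r p hγ hr hp K t s q₀ h0 ht b (by rw [← hqC]; exact hqb)
    exact hlast x1.1 x1.2.1 x2.1 x2.2.1
  by_cases hQ : C (nn α γ a) * ll r p b - C (nn α γ b) * ll r p a = 0
  · rcases qzero α γ r p hα hγ hr hp a b hab hQ with h | h
    · have a0 : a 0 = 0 := (h 0).1
      have a1 : a 1 = 0 := (h 1).1
      have a2 : a 2 = 0 := (h 2).1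
      have b0 : b 0 = 0 := (h 0).2
      have b1 : b 1 = 0 := (h 1).2
      have b2 : b 2 = 0 := (h 2).2
      have p1 : ∏ j : Fin 3, cv α γ r p t s (Fin.castAdd 2 j) ^ a (Fin.castAdd 2 j) = 1 :=
        Finset.prod_eq_one fun j _ => by rw [(h j).1, zpow_zero]
      have p2 : ∏ j : Fin 3, cv α γ r p t s (Fin.castAdd 2 j) ^ b (Fin.castAdd 2 j) = 1 :=
        Finset.prod_eq_one fun j _ => by rw [(h j).2, zpow_zero]
      have ha' := ha
      have hb' := hb
      rw [AnomB_split, p1, one_mul] at ha'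
      rw [AnomB_split, p2, one_mul] at hb'
      have hD : a 3 * b 4 - a 4 * b 3 ≠ 0 := by
        intro hD
        rw [LinearIndependent.pair_iff] at hab
        have hx : ∀ x y : ℤ, x * a 3 + y * b 3 = 0 → x * a 4 + y * b 4 = 0 → x = 0 ∧ y = 0 := by
          intro x y h3 h4
          refine hab x y ?_
          funext i
          simp only [Pi.add_apply, Pi.smul_apply, smul_eq_mul, Pi.zero_apply]
          fin_cases i
          · show x * a 0 + y * b 0 = 0
            rw [a0, b0]; ring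
          · show x * a 1 + y * b 1 = 0
            rw [a1, b1]; ring
          · show x * a 2 + y * b 2 = 0
            rw [a2, b2]; ring
          · exact h3
          · exact h4
        have y1 := hx (b 3) (-a 3) (by ring) (by linarith)
        have y2 := hx (b 4) (-a 4) (by linarith) (by ring)
        have a3 : a 3 = 0 := by linarith [y1.2]
        have a4 : a 4 = 0 := by linarith [y2.2]
        have y3 := hx 1 0 (by rw [a3]; ring) (by rw [a4]; ring)
        exact one_ne_zero y3.1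
      obtain ⟨m, hm, hm1, hm2⟩ := AnomB_tors s _ hs hw _ _ _ _ hD ha' hb'
      rw [hg2 K s m m hm hm hm1 hm2, mul_zero]
    · exact (hlast (h 0).1 (h 1).1 (h 0).2 (h 1).2).elim
  · obtain ⟨e, f, g', hT⟩ := exists_typ α γ r p hα hγ hr hp q hq hdeg hco a b hab hqa hqb hQ
    obtain ⟨u, hu⟩ := hG2 e f g' q hT
    rw [hu, map_mul, hq0, zero_mul, zero_mul]

end BMF
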