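import Pool.Agent.Lib.MP_a325a5_ag.F.Hgt

/-! The local error at the complex embeddings, and the first inequalities for sums.

Proofs.  `tot_ar` is `tot_inf_const`.  `lg_add_le`: at an embedding `‖x + y‖ ≤ 2 max`, at a finite
place `av_inr_add_le`; if `x = 0` (or `y = 0`) use `lg v 0 = 0` and that the maximum is at least
`lg v y`.  `lg_add_near`: at an embedding `‖x‖ < ‖y‖ / 2`, so `‖y‖ / 2 ≤ ‖x + y‖ ≤ 2 ‖y‖`; at a
finite place `|x| < |y|` gives `|x + y| = |y|` (from `av_inr_add_le` for `x + y` and for
`y = (x + y) - x`). -/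

open NumberField

namespace BMF

variable {K : Type} [Field K] [NumberField K]

/-- `log 2` at the complex embeddings, `0` at the finite places -/
noncomputable def ar (v : Pl K) : ℝ := Sum.elim (fun _ => Real.log 2) (fun _ => 0) v

theorem ar_nonneg (v : Pl K) : 0 ≤ ar v := by
  rcases v with σ | w
  · exact Real.log_nonneg (by norm_num)
  · exact le_refl (0 : ℝ)

theorem fs_ar : FS (ar : Pl K → ℝ) := FS.inf _ fun _ => rfl

theorem tot_ar : tot (ar : Pl K → ℝ) = Real.log 2 := tot_inf_const _

theorem lg_zero (v : Pl K) : lg v (0 : K) = 0 := by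
  unfold lg
  rw [map_zero, Real.log_zero]

private theorem Ar_lg_le {v : Pl K} {x : K} (hx : x ≠ 0) {c : ℝ} (h : av v x ≤ c) :
    lg v x ≤ Real.log c := Real.log_le_log (av_pos v hx) h

private theorem Ar_av_le_exp (v : Pl K) (x : K) : av v x ≤ Real.exp (lg v x) := by
  rcases eq_or_ne x 0 with rfl | hx
  · rw [map_zero]; exact (Real.exp_pos _).le
  · unfold lg
    rw [Real.exp_log (av_pos v hx)]

theorem lg_add_le (v : Pl K) {x y : K} (h : x + y ≠ 0) :
    lg v (x + y) ≤ max (lg v x) (lg v y) + ar v := by
  set M := max (lg v x) (lg v y) with hM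
  have hx : av v x ≤ Real.exp M := (Ar_av_le_exp v x).trans (Real.exp_le_exp.2 (le_max_left _ _))
  have hy : av v y ≤ Real.exp M := (Ar_av_le_exp v y).trans (Real.exp_le_exp.2 (le_max_right _ _))
  rcases v with σ | w
  · have h1 : av (.inl σ) (x + y) ≤ 2 * Real.exp M := by
      have := (av (.inl σ)).add_le x y
      linarith
    refine (Ar_lg_le h h1).trans ?_
    rw [Real.log_mul (by norm_num) (Real.exp_pos _).ne', Real.log_exp]
    change Real.log 2 + M ≤ M + Real.log 2
    linarith
  · have h1 : av (.inr w) (x + y) ≤ Real.exp M :=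
      (av_inr_add_le w x y).trans (max_le hx hy)
    refine (Ar_lg_le h h1).trans ?_
    rw [Real.log_exp]
    change M ≤ M + 0
    linarith

theorem lg_sub_le (v : Pl K) {x y : K} (h : x ≠ y) :
    lg v (x - y) ≤ max (lg v x) 0 + max (lg v y) 0 + ar v := by
  have h1 : x + -y ≠ 0 := by
    rw [← sub_eq_add_neg]; exact sub_ne_zero.2 h
  have h2 := lg_add_le v h1
  rw [lg_neg, ← sub_eq_add_neg] at h2
  have h3 : max (lg v x) (lg v y) ≤ max (lg v x) 0 + max (lg v y) 0 := by
    refine max_le ?_ ?_
    · have a := le_max_left (lg v x) 0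
      have b := le_max_right (lg v y) 0
      linarith
    · have a := le_max_left (lg v y) 0
      have b := le_max_right (lg v x) 0
      linarith
  linarith

theorem lg_add_near (v : Pl K) {x y : K} (hx : x ≠ 0) (hy : y ≠ 0)
    (h : lg v x < lg v y - ar v) : |lg v (x + y) - lg v y| ≤ ar v := by
  have har := ar_nonneg v
  have hlt : lg v x < lg v y := by linarith
  have hxy : x + y ≠ 0 := by
    intro h0
    have : x = -y := eq_neg_of_add_eq_zero_left h0
    rw [this, lg_neg] at hlt
    exact lt_irrefl _ hlt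
  have h1 := lg_add_le v hxy
  rw [max_eq_right hlt.le] at h1
  have h2 : lg v y ≤ lg v (x + y) + ar v := by
    have e : (x + y) + -x = y := by ring
    have h3 := lg_add_le v (x := x + y) (y := -x) (by rw [e]; exact hy)
    rw [e, lg_neg] at h3
    rcases le_total (lg v x) (lg v (x + y)) with h4 | h4
    · rw [max_eq_left h4] at h3
      exact h3
    · rw [max_eq_right h4] at h3
      linarith
  rw [abs_le]
  constructor <;> linarith

end BMF
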