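import Pool.Agent.Lib.MP_a325a5_ag.F.Def

open NumberField MvPolynomial

namespace BMF

/-- Cramer's rule for an alternating map -/
theorem B1_cramer {V : Type} [AddCommGroup V] [Module ℝ V] {r : ℕ} (D : V [⋀^Fin r]→ₗ[ℝ] ℝ)
    (v : Fin r → V) (c : Fin r → ℝ) (j : Fin r) :
    D (Function.update v j (∑ k, c k • v k)) = c j * D v := by
  rw [AlternatingMap.map_update_sum]
  rw [Finset.sum_eq_single j]
  · rw [AlternatingMap.map_update_smul, Function.update_eq_self, smul_eq_mul]
  · intro k _ hk
    rw [AlternatingMap.map_update_smul, AlternatingMap.map_update_self _ _ hk.symm, smul_zero]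
  · intro h
    exact absurd (Finset.mem_univ j) h

/-- functionals of maximal determinant: the others are combinations with coefficients in `[-1,1]` -/
theorem max_det {E : Type} [AddCommGroup E] [Module ℝ E] {ι : Type} [Fintype ι] (f : ι → E) :
    ∃ s : Finset ι, s.card = Module.finrank ℝ (Submodule.span ℝ (Set.range f)) ∧
      ∀ i, ∃ c : ι → ℝ, (∀ j ∈ s, |c j| ≤ 1) ∧ f i = ∑ j ∈ s, c j • f j := by
  classical
  obtain ⟨V, hV⟩ : ∃ V : Submodule ℝ E, V = Submodule.span ℝ (Set.range f) := ⟨_, rfl⟩
  rw [← hV]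
  have : FiniteDimensional ℝ V := by
    rw [hV]
    exact FiniteDimensional.span_of_finite ℝ (Set.finite_range f)
  obtain ⟨g, hg⟩ : ∃ g : ι → V, ∀ i, (g i : E) = f i :=
    ⟨fun i => ⟨f i, hV ▸ Submodule.subset_span ⟨i, rfl⟩⟩, fun i => rfl⟩
  have hspan : Submodule.span ℝ (Set.range g) = ⊤ := by
    rw [← Submodule.map_injective_of_injective V.injective_subtype |>.eq_iff]
    rw [Submodule.map_span, Submodule.map_subtype_top]
    refine Eq.trans ?_ hV.symm
    congr 1
    ext x
    constructor
    · rintro ⟨_, ⟨i, rfl⟩, rfl⟩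
      exact ⟨i, (hg i).symm⟩
    · rintro ⟨i, rfl⟩
      exact ⟨g i, ⟨i, rfl⟩, hg i⟩
  obtain ⟨e⟩ : Nonempty (Module.Basis (Fin (Module.finrank ℝ V)) ℝ V) := ⟨Module.finBasis ℝ V⟩
  -- some determinant is not zero
  obtain ⟨t0, ht0⟩ : ∃ t : Fin (Module.finrank ℝ V) → ι, e.det (g ∘ t) ≠ 0 := by
    obtain ⟨b, hb1, hb2, hb3⟩ := exists_linearIndependent ℝ (Set.range g)
    rw [hspan] at hb2
    have hbb : ⊤ ≤ Submodule.span ℝ (Set.range (fun x : b => (x : V))) := by
      rw [Subtype.range_coe, hb2]
    obtain ⟨B⟩ : Nonempty (Module.Basis b ℝ V) := ⟨Module.Basis.mk hb3 hbb⟩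
    have : Finite b := (Set.finite_range g).subset hb1
    have : Fintype b := Fintype.ofFinite b
    have hcard : Fintype.card b = Module.finrank ℝ V := (Module.finrank_eq_card_basis B).symm
    let σ : Fin (Module.finrank ℝ V) ≃ b := (finCongr hcard.symm).trans (Fintype.equivFin b).symm
    have hch : ∀ x : b, ∃ i, g i = x := fun x => by
      obtain ⟨i, hi⟩ := hb1 x.2
      exact ⟨i, hi⟩
    choose τ hτ using hch
    refine ⟨fun k => τ (σ k), ?_⟩
    have h1 : (g ∘ fun k => τ (σ k)) = (fun x : b => (x : V)) ∘ σ := by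
      funext k
      exact hτ (σ k)
    have h2 : LinearIndependent ℝ (g ∘ fun k => τ (σ k)) := by
      rw [h1]
      exact hb3.comp σ σ.injective
    have h3 : Submodule.span ℝ (Set.range (g ∘ fun k => τ (σ k))) = ⊤ := by
      rw [h1, σ.surjective.range_comp]
      exact top_le_iff.1 hbb
    exact (((Module.Basis.is_basis_iff_det e).1 ⟨h2, h3⟩)).ne_zero
  have : Nonempty (Fin (Module.finrank ℝ V) → ι) := ⟨t0⟩
  obtain ⟨t, ht⟩ := Finite.exists_max (fun t : Fin (Module.finrank ℝ V) → ι => |e.det (g ∘ t)|)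
  have hD : e.det (g ∘ t) ≠ 0 := by
    have h1 := ht t0
    have h2 := abs_pos.2 ht0
    exact abs_pos.1 (h2.trans_le h1)
  have hbas := (Module.Basis.is_basis_iff_det e).2 (IsUnit.mk0 _ hD)
  have hinj : Function.Injective t := by
    intro a b hab
    have h1 := hbas.1.injective
    exact h1 (show (g ∘ t) a = (g ∘ t) b by simp [hab])
  refine ⟨Finset.univ.image t, ?_, fun i => ?_⟩
  · rw [Finset.card_image_of_injective _ hinj, Finset.card_univ, Fintype.card_fin]
  · have h1 : g i ∈ Submodule.span ℝ (Set.range (g ∘ t)) := by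
      rw [hbas.2]
      trivial
    obtain ⟨c, hc⟩ := (Submodule.mem_span_range_iff_exists_fun ℝ).1 h1
    have h2 : ∀ j, |c j| ≤ 1 := by
      intro j
      have h3 := B1_cramer e.det (g ∘ t) c j
      rw [hc] at h3
      have h4 : Function.update (g ∘ t) j (g i) = g ∘ Function.update t j i := by
        funext k
        by_cases hk : k = j
        · subst hk
          simp
        · simp [Function.update_of_ne hk]
      rw [h4] at h3
      have h5 : |e.det (g ∘ Function.update t j i)| ≤ |e.det (g ∘ t)| := ht (Function.update t j i)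
      rw [h3, abs_mul] at h5
      have h6 : 0 < |e.det (g ∘ t)| := abs_pos.2 hD
      by_contra hcon
      rw [not_le] at hcon
      nlinarith
    refine ⟨fun x => if h : ∃ k, t k = x then c h.choose else 0, ?_, ?_⟩
    · intro x _
      show |if h : ∃ k, t k = x then c h.choose else 0| ≤ 1
      split_ifs with h
      · exact h2 _
      · rw [abs_zero]
        exact zero_le_one
    · rw [Finset.sum_image (fun a _ b _ h => hinj h)]
      have h7 : ∀ k, (if h : ∃ k', t k' = t k then c h.choose else 0) = c k := by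
        intro k
        have h8 : ∃ k', t k' = t k := ⟨k, rfl⟩
        rw [dif_pos h8]
        congr 1
        exact hinj h8.choose_spec
      simp only [h7]
      have h9 := congrArg (fun x : V => (x : E)) hc
      simp only [Submodule.coe_sum, Submodule.coe_smul, Function.comp_apply, hg] at h9
      exact h9.symm

end BMF
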