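import Pool.Agent.Lib.MP_a325a5_ag.F.A1
import Pool.Agent.Lib.MP_a325a5_ag.F.A2
import Pool.Agent.Lib.MP_a325a5_ag.F.A3

/-! The space of polynomials vanishing to order `T`: lower bound for its dimension, and the
polynomial of minimal weight vanishing at a point. -/

open NumberField MvPolynomial

namespace BMF

variable {M : ℕ} {k K : Type} [Field k] [NumberField k] [Field K] [NumberField K] [Algebra k K]

theorem b6_eval (g : Fin 2 → K) (f : P2 k) :
    ev (RingHom.id k) 1 g f = eval g (toK K (RingHom.id k) f) := by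
  unfold ev toK
  rw [eval_map]
  simp only [pow_one, RingHom.comp_id, coe_eval₂Hom]

theorem b6_aeval (g : Fin 2 → K) (f : P2 k) : ev (RingHom.id k) 1 g f = aeval g f := by
  unfold ev
  simp only [pow_one, RingHom.comp_id, coe_eval₂Hom]
  rfl

theorem b6_le (T : ℕ) (L : Fin 2 → ℕ) (g : Fin 2 → K) : vanSub k T L g ≤ bx k L :=
  fun _ hG => hG.1

instance b6_fin (T : ℕ) (L : Fin 2 → ℕ) (g : Fin 2 → K) : Module.Finite k (vanSub k T L g) :=
  Submodule.finiteDimensional_of_le (b6_le T L g)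

theorem b6_mem (T : ℕ) (g : Fin 2 → K) (L : Fin 2 → ℕ) {A : P2 k}
    (hAg : ev (RingHom.id k) 1 g A = 0) (hL : ∀ i, T * A.degreeOf i ≤ L i) {G : P2 k}
    (hG : G ∈ bx k (fun i => L i - T * A.degreeOf i)) : A ^ T * G ∈ vanSub k T L g := by
  refine ⟨fun i => ?_, ?_⟩
  · have h1 := degreeOf_mul_le i (A ^ T) G
    have h2 := degreeOf_pow_le i A T
    have h3 : G.degreeOf i ≤ L i - T * A.degreeOf i := hG i
    have h4 := hL i
    omega
  · rw [map_mul, map_pow]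
    have h1 : van T ((toK K (RingHom.id k) A) ^ T) g := van_pow T (by rw [← b6_eval, hAg])
    have h2 : van 0 (toK K (RingHom.id k) G) g := fun i hi => absurd hi (Nat.not_lt_zero _)
    exact van_mul h1 h2

/-- lower bound for the space of polynomials vanishing to order `T` -/
theorem vanSub_dim (T : ℕ) (g : Fin 2 → K) (L : Fin 2 → ℕ) {A : P2 k} (hA : A ≠ 0)
    (hAg : ev (RingHom.id k) 1 g A = 0) :
    (1 - T * wt L A) * (((L 0 : ℝ) + 1) * ((L 1 : ℝ) + 1)) ≤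
      Module.finrank k (vanSub k T L g) := by
  have p0 : (0 : ℝ) < (L 0 : ℝ) + 1 := by positivity
  have p1 : (0 : ℝ) < (L 1 : ℝ) + 1 := by positivity
  have e : (1 - T * wt L A) * (((L 0 : ℝ) + 1) * ((L 1 : ℝ) + 1)) =
      ((L 0 : ℝ) + 1) * ((L 1 : ℝ) + 1) - T * A.degreeOf 0 * ((L 1 : ℝ) + 1) -
        T * A.degreeOf 1 * ((L 0 : ℝ) + 1) := by
    unfold wt
    field_simp
    ring
  rw [e]
  by_cases hL : ∀ i, T * A.degreeOf i ≤ L i
  · let φ : bx k (fun i => L i - T * A.degreeOf i) →ₗ[k] vanSub k T L g :=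
      { toFun := fun G => ⟨A ^ T * G.1, b6_mem T g L hAg hL G.2⟩
        map_add' := fun x y => Subtype.ext (mul_add _ _ _)
        map_smul' := fun c x => Subtype.ext (mul_smul_comm _ _ _) }
    have hφ : Function.Injective φ := by
      intro x y hxy
      have h1 : A ^ T * x.1 = A ^ T * y.1 := congrArg Subtype.val hxy
      exact Subtype.ext (mul_left_cancel₀ (pow_ne_zero T hA) h1)
    have h1 := LinearMap.finrank_le_finrank_of_injective hφ
    rw [finrank_bx] at h1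
    have h2 : (((L 0 - T * A.degreeOf 0 + 1) * (L 1 - T * A.degreeOf 1 + 1) : ℕ) : ℝ) ≤
        Module.finrank k (vanSub k T L g) := by exact_mod_cast h1
    push_cast [Nat.cast_sub (hL 0), Nat.cast_sub (hL 1)] at h2
    refine le_trans ?_ h2
    have h3 : (0 : ℝ) ≤ (T : ℝ) * A.degreeOf 0 * ((T : ℝ) * A.degreeOf 1) := by positivity
    nlinarith [h3]
  · push Not at hL
    obtain ⟨i, hi⟩ := hL
    have h0 : (0 : ℝ) ≤ Module.finrank k (vanSub k T L g) := by positivity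
    refine le_trans ?_ h0
    have q0 : (0 : ℝ) ≤ (T : ℝ) * A.degreeOf 0 * ((L 1 : ℝ) + 1) := by positivity
    have q1 : (0 : ℝ) ≤ (T : ℝ) * A.degreeOf 1 * ((L 0 : ℝ) + 1) := by positivity
    have hi' : ((L i : ℝ) + 1) ≤ (T : ℝ) * A.degreeOf i := by exact_mod_cast hi
    fin_cases i
    · have h3 := mul_le_mul_of_nonneg_right hi' p1.le
      simp only [Fin.zero_eta] at h3
      linarith
    · have h3 := mul_le_mul_of_nonneg_right hi' p0.le
      simp only [Fin.mk_one] at h3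
      linarith [mul_comm ((L 1 : ℝ) + 1) ((L 0 : ℝ) + 1)]

theorem b6_exists (g : Fin 2 → K) (a : Fin 2 → ℕ) (h : dg k g 1 < (a 0 + 1) * (a 1 + 1)) :
    ∃ A : P2 k, A ≠ 0 ∧ ev (RingHom.id k) 1 g A = 0 ∧ A ∈ bx k a := by
  let u : Fin 2 → IntermediateField.adjoin k (Set.range fun i => g i ^ 1) :=
    fun i => ⟨g i ^ 1, IntermediateField.subset_adjoin k _ ⟨i, rfl⟩⟩
  let ψ : P2 k →ₐ[k] IntermediateField.adjoin k (Set.range fun i => g i ^ 1) := aeval u
  have hψ : ∀ f : P2 k, ((ψ f : IntermediateField.adjoin k (Set.range fun i => g i ^ 1)) : K) =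
      ev (RingHom.id k) 1 g f := by
    intro f
    rw [b6_aeval]
    have h1 : (IntermediateField.val _).comp ψ = (aeval g : P2 k →ₐ[k] K) := by
      refine MvPolynomial.algHom_ext fun i => ?_
      simp [ψ, u]
    exact congrArg (fun F : P2 k →ₐ[k] K => F f) h1
  have h1 : Module.finrank k (IntermediateField.adjoin k (Set.range fun i => g i ^ 1)) <
      Module.finrank k (bx k a) := by
    rw [finrank_bx]
    exact h
  have h2 := LinearMap.ker_ne_bot_of_finrank_lt (f := ψ.toLinearMap.comp (bx k a).subtype) h1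
  obtain ⟨x, hx, hx0⟩ := Submodule.exists_mem_ne_zero_of_ne_bot h2
  refine ⟨x.1, fun h3 => hx0 (Subtype.ext h3), ?_, x.2⟩
  rw [← hψ]
  have h3 : ψ x.1 = 0 := hx
  rw [h3]
  rfl

/-- a polynomial of small weight vanishing at the point -/
theorem exists_small (g : Fin 2 → K) (L : Fin 2 → ℕ) {θ : ℝ} (h0 : 0 < θ) (h1 : θ ≤ 1)
    (h : (dg k g 1 : ℝ) ≤ θ ^ 2 * (((L 0 : ℝ) + 1) * ((L 1 : ℝ) + 1))) :
    ∃ A : P2 k, A ≠ 0 ∧ ev (RingHom.id k) 1 g A = 0 ∧ wt L A ≤ 2 * θ := by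
  have p : ∀ i, (0 : ℝ) < (L i : ℝ) + 1 := fun i => by positivity
  have hf : ∀ i, (⌊θ * ((L i : ℝ) + 1)⌋₊ : ℝ) ≤ θ * ((L i : ℝ) + 1) :=
    fun i => Nat.floor_le (by have := p i; positivity)
  have hg : ∀ i, θ * ((L i : ℝ) + 1) < (⌊θ * ((L i : ℝ) + 1)⌋₊ : ℝ) + 1 :=
    fun i => Nat.lt_floor_add_one _
  obtain ⟨A, hA, hAg, hAb⟩ := b6_exists (k := k) g (fun i => ⌊θ * ((L i : ℝ) + 1)⌋₊) (by
    have h2 : (dg k g 1 : ℝ) < (((⌊θ * ((L 0 : ℝ) + 1)⌋₊ + 1) *
        (⌊θ * ((L 1 : ℝ) + 1)⌋₊ + 1) : ℕ) : ℝ) := by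
      push_cast
      have h3 := mul_lt_mul'' (hg 0) (hg 1) (by have := p 0; positivity)
        (by have := p 1; positivity)
      calc (dg k g 1 : ℝ) ≤ θ ^ 2 * (((L 0 : ℝ) + 1) * ((L 1 : ℝ) + 1)) := h
        _ = θ * ((L 0 : ℝ) + 1) * (θ * ((L 1 : ℝ) + 1)) := by ring
        _ < _ := h3
    exact_mod_cast h2)
  refine ⟨A, hA, hAg, ?_⟩
  unfold wt
  have q : ∀ i, (A.degreeOf i : ℝ) / ((L i : ℝ) + 1) ≤ θ := by
    intro i
    rw [div_le_iff₀ (p i)]
    have h2 : A.degreeOf i ≤ ⌊θ * ((L i : ℝ) + 1)⌋₊ := hAb i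
    have h3 : (A.degreeOf i : ℝ) ≤ (⌊θ * ((L i : ℝ) + 1)⌋₊ : ℝ) := by exact_mod_cast h2
    exact h3.trans (hf i)
  have := q 0
  have := q 1
  linarith

/-- the minimal weight is attained and positive -/
theorem exists_min (g : Fin 2 → K) (L : Fin 2 → ℕ) :
    ∃ A : P2 k, A ≠ 0 ∧ ev (RingHom.id k) 1 g A = 0 ∧ 0 < wt L A ∧
      ∀ B : P2 k, B ≠ 0 → ev (RingHom.id k) 1 g B = 0 → wt L A ≤ wt L B := by
  have p0 : (0 : ℝ) < (L 0 : ℝ) + 1 := by positivity
  have p1 : (0 : ℝ) < (L 1 : ℝ) + 1 := by positivity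
  let w : P2 k → ℕ := fun f => f.degreeOf 0 * (L 1 + 1) + f.degreeOf 1 * (L 0 + 1)
  have hw : ∀ f : P2 k, wt L f = (w f : ℝ) / (((L 0 : ℝ) + 1) * ((L 1 : ℝ) + 1)) := by
    intro f
    simp only [w]
    unfold wt
    push_cast
    field_simp
  have hne : ∃ n : ℕ, ∃ A : P2 k, (A ≠ 0 ∧ ev (RingHom.id k) 1 g A = 0) ∧ w A = n := by
    obtain ⟨A, h1, h2, -⟩ := b6_exists (k := k) g (fun _ => dg k g 1) (by nlinarith)
    exact ⟨w A, A, ⟨h1, h2⟩, rfl⟩
  classical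
  obtain ⟨A, ⟨hA, hAg⟩, hwA⟩ := Nat.find_spec hne
  refine ⟨A, hA, hAg, ?_, ?_⟩
  · refine lt_of_le_of_ne (wt_nonneg L A) fun h0 => ?_
    obtain ⟨c, hc⟩ := wt_eq_zero h0.symm
    have hc0 : c ≠ 0 := by
      rintro rfl
      exact hA (by rw [hc, map_zero])
    rw [hc, b6_aeval, aeval_C] at hAg
    exact hc0 ((map_eq_zero _).mp hAg)
  · intro B hB hBg
    rw [hw, hw]
    have h1 : w A ≤ w B := by
      rw [hwA]
      exact Nat.find_min' hne ⟨B, ⟨hB, hBg⟩, rfl⟩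
    have h2 : (w A : ℝ) ≤ (w B : ℝ) := by exact_mod_cast h1
    exact div_le_div_of_nonneg_right h2 (by positivity)

end BMF
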