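import Pool.Agent.Lib.MP_a325a5_ag.F.Def

open NumberField MvPolynomial

namespace BMF

/-- the number of prime factors below `P` -/
def N2_k (P M : ℕ) : ℕ := (M.primeFactors.filter fun p => p < P).card

theorem N2_k_mul (P : ℕ) {a b : ℕ} (h : a.Coprime b) : N2_k P (a * b) = N2_k P a + N2_k P b := by
  unfold N2_k
  rw [h.primeFactors_mul, Finset.filter_union, Finset.card_union_of_disjoint]
  exact Finset.disjoint_filter_filter h.disjoint_primeFactors

theorem N2_k_le (P M : ℕ) : N2_k P M ≤ P := by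
  unfold N2_k
  calc (M.primeFactors.filter fun p => p < P).card ≤ (Finset.range P).card :=
        Finset.card_le_card fun p hp => Finset.mem_range.2 (Finset.mem_filter.1 hp).2
    _ = P := Finset.card_range P

theorem N2_main (ε : ℝ) (hε : 0 < ε) (P : ℕ) (hP : (2 : ℝ) ^ (1 + ε) ≤ (P : ℝ) ^ ε) (M : ℕ) :
    0 < M → (M : ℝ) ≤ ((2 : ℝ) ^ (1 + ε)) ^ N2_k P M * (M.totient : ℝ) ^ (1 + ε) := by
  induction M using Nat.recOnPosPrimePosCoprime with
  | zero => intro h; exact absurd h (lt_irrefl _)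
  | one =>
    intro _
    simp [N2_k]
  | prime_pow p n hp hn =>
    intro _
    have hp2 := hp.two_le
    obtain ⟨q, hq⟩ : ∃ q : ℕ, q = p ^ (n - 1) * (p - 1) := ⟨_, rfl⟩
    have htot : (p ^ n).totient = q := by rw [Nat.totient_prime_pow hp hn, hq]
    have h1 : p ^ n ≤ 2 * q := by
      have e : p ^ n = p ^ (n - 1) * p := by
        rw [← pow_succ, show n - 1 + 1 = n by omega]
      rw [e, hq, mul_left_comm]
      exact Nat.mul_le_mul_left _ (by omega)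
    have h1' : ((p ^ n : ℕ) : ℝ) ≤ 2 * (q : ℝ) := by exact_mod_cast h1
    have hpn1 : (1 : ℝ) ≤ ((p ^ n : ℕ) : ℝ) := by
      exact_mod_cast Nat.one_le_pow _ _ hp.pos
    have h2 : ((p ^ n : ℕ) : ℝ) ^ (1 + ε) ≤ (2 : ℝ) ^ (1 + ε) * (q : ℝ) ^ (1 + ε) := by
      rw [← Real.mul_rpow (by norm_num) (Nat.cast_nonneg q)]
      exact Real.rpow_le_rpow (by linarith) h1' (by linarith)
    have h3 : ((p ^ n : ℕ) : ℝ) ^ (1 + ε) = ((p ^ n : ℕ) : ℝ) * ((p ^ n : ℕ) : ℝ) ^ ε := by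
      rw [Real.rpow_add (by linarith), Real.rpow_one]
    rw [htot]
    have hk : N2_k P (p ^ n) = if p < P then 1 else 0 := by
      unfold N2_k
      rw [Nat.primeFactors_prime_pow hn.ne' hp, Finset.filter_singleton]
      split_ifs <;> simp
    rw [hk]
    split_ifs with hlt
    · rw [pow_one]
      refine le_trans ?_ h2
      rw [h3]
      have h4 : 1 ≤ ((p ^ n : ℕ) : ℝ) ^ ε := Real.one_le_rpow hpn1 hε.le
      nlinarith
    · rw [pow_zero, one_mul]
      have h4 : (2 : ℝ) ^ (1 + ε) ≤ ((p ^ n : ℕ) : ℝ) ^ ε := by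
        refine hP.trans (Real.rpow_le_rpow (Nat.cast_nonneg P) ?_ hε.le)
        have h5 : P ≤ p ^ n := (not_lt.1 hlt).trans (Nat.le_self_pow hn.ne' p)
        exact_mod_cast h5
      have h5 : 0 < (2 : ℝ) ^ (1 + ε) := Real.rpow_pos_of_pos (by norm_num) _
      rw [h3] at h2
      have h6 : (2 : ℝ) ^ (1 + ε) * ((p ^ n : ℕ) : ℝ) ≤ (2 : ℝ) ^ (1 + ε) * (q : ℝ) ^ (1 + ε) := by
        nlinarith
      exact le_of_mul_le_mul_left h6 h5
  | coprime a b ha hb hab iha ihb =>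
    intro _
    have h1 := iha (by omega)
    have h2 := ihb (by omega)
    rw [N2_k_mul P hab, Nat.totient_mul hab, pow_add]
    push_cast
    rw [Real.mul_rpow (Nat.cast_nonneg _) (Nat.cast_nonneg _)]
    calc (a : ℝ) * b ≤ (((2 : ℝ) ^ (1 + ε)) ^ N2_k P a * (a.totient : ℝ) ^ (1 + ε)) *
          (((2 : ℝ) ^ (1 + ε)) ^ N2_k P b * (b.totient : ℝ) ^ (1 + ε)) :=
          mul_le_mul h1 h2 (Nat.cast_nonneg _) ((Nat.cast_nonneg _).trans h1)
      _ = _ := by ring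

theorem totient_lower (ε : ℝ) (hε : 0 < ε) :
    ∃ C : ℝ, 0 < C ∧ ∀ M : ℕ, 0 < M → (M : ℝ) ≤ C * (M.totient : ℝ) ^ (1 + ε) := by
  obtain ⟨P, hP⟩ := exists_nat_ge ((2 : ℝ) ^ ((1 + ε) / ε))
  have hP' : (2 : ℝ) ^ (1 + ε) ≤ (P : ℝ) ^ ε := by
    have h1 : ((2 : ℝ) ^ ((1 + ε) / ε)) ^ ε ≤ (P : ℝ) ^ ε :=
      Real.rpow_le_rpow (by positivity) hP hε.le
    rwa [← Real.rpow_mul (by norm_num), div_mul_cancel₀ _ hε.ne'] at h1
  refine ⟨((2 : ℝ) ^ (1 + ε)) ^ P, by positivity, fun M hM => ?_⟩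
  refine (N2_main ε hε P hP' M hM).trans ?_
  refine mul_le_mul_of_nonneg_right ?_ (by positivity)
  exact pow_le_pow_right₀ (Real.one_le_rpow (by norm_num) (by linarith)) (N2_k_le P M)

end BMF
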