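import Pool.Agent.Lib.MP_a325a5_ag.F.Def

open NumberField MvPolynomial

namespace BMF

/-- box principle with one coordinate known up to a cell of length `n` -/
private lemma Q2_box {G : Type} [CommGroup G] {k : ℕ} (P : Fin k → G) (A n : ℕ) (hn : 1 ≤ n)
    (i₀ : Fin k) (s : Finset G) (hs : ∀ u : Fin k → ℕ, (∀ i, u i ≤ A) → ∏ i, P i ^ u i ∈ s)
    (hc : s.card * (A / n + 1) < (A + 1) ^ k) :
    ∃ b : Fin k → ℤ, b ≠ 0 ∧ ∏ i, P i ^ b i = 1 ∧ (∀ i, |b i| ≤ A) ∧ |b i₀| < n := by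
  classical
  let T : Finset (Fin k → ℕ) := Fintype.piFinset fun _ => Finset.range (A + 1)
  let F : (Fin k → ℕ) → G × ℕ := fun u => (∏ i, P i ^ u i, u i₀ / n)
  have hT : T.card = (A + 1) ^ k := by
    simp only [T, Fintype.card_piFinset, Finset.card_range, Finset.prod_const, Finset.card_univ,
      Fintype.card_fin]
  have hmem : ∀ u ∈ T, ∀ i, u i ≤ A := by
    intro u hu i
    have := Fintype.mem_piFinset.mp hu i
    rw [Finset.mem_range] at this
    omega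
  have hF : ∀ u ∈ T, F u ∈ s ×ˢ Finset.range (A / n + 1) := by
    intro u hu
    rw [Finset.mem_product, Finset.mem_range]
    exact ⟨hs u (hmem u hu), Nat.lt_succ_of_le (Nat.div_le_div_right (hmem u hu i₀))⟩
  obtain ⟨u, hu, v, hv, huv, hE⟩ := Finset.exists_ne_map_eq_of_card_lt_of_maps_to
    (by rw [Finset.card_product, Finset.card_range, hT]; exact hc) hF
  have h1 : ∏ i, P i ^ u i = ∏ i, P i ^ v i := congrArg Prod.fst hE
  have h2 : u i₀ / n = v i₀ / n := congrArg Prod.snd hE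
  refine ⟨fun i => (u i : ℤ) - v i, ?_, ?_, ?_, ?_⟩
  · intro h0
    apply huv
    funext i
    have := congrFun h0 i
    simp only [Pi.zero_apply] at this
    omega
  · have : ∏ i, P i ^ ((u i : ℤ) - v i) = (∏ i, P i ^ u i) / ∏ i, P i ^ v i := by
      rw [← Finset.prod_div_distrib]
      refine Finset.prod_congr rfl fun i _ => ?_
      rw [zpow_sub, zpow_natCast, zpow_natCast, div_eq_mul_inv]
    rw [this, h1, div_self']
  · intro i
    have a1 := hmem u hu i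
    have a2 := hmem v hv i
    show |(u i : ℤ) - v i| ≤ A
    rw [abs_le]
    constructor <;> omega
  · show |(u i₀ : ℤ) - v i₀| < n
    have a1 := Nat.div_add_mod (u i₀) n
    have a2 := Nat.div_add_mod (v i₀) n
    have a3 := Nat.mod_lt (u i₀) (by omega : n > 0)
    have a4 := Nat.mod_lt (v i₀) (by omega : n > 0)
    rw [h2] at a1
    rw [abs_lt]
    constructor <;> omega

/-- two small independent relations by the box principle -/
theorem two_relations {G : Type} [CommGroup G] (P : Fin 5 → G) {c : ℝ} (hc : 1 ≤ c)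
    (h : ∀ A : ℕ, 1 ≤ A → ∃ s : Finset G, (∀ u : Fin 5 → ℕ, (∀ i, u i ≤ A) →
      ∏ i, P i ^ u i ∈ s) ∧ (s.card : ℝ) ≤ c * A ^ 2) :
    ∃ a a' : Fin 5 → ℤ, LinearIndependent ℤ ![a, a'] ∧ ∏ i, P i ^ a i = 1 ∧
      ∏ i, P i ^ a' i = 1 ∧ ((∑ i, |a i| : ℤ) : ℝ) * ((∑ i, |a' i| : ℤ) : ℝ) ≤
        1000 * c ^ (2 / 3 : ℝ) := by
  classical
  have hc0 : (0 : ℝ) < c := by linarith
  set r : ℝ := c ^ (1 / 3 : ℝ) with hr
  have hr1 : 1 ≤ r := Real.one_le_rpow hc (by norm_num)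
  have hr3 : r ^ 3 = c := by
    rw [hr, ← Real.rpow_natCast, ← Real.rpow_mul hc0.le]; norm_num
  have hr2 : r ^ 2 = c ^ (2 / 3 : ℝ) := by
    rw [hr, ← Real.rpow_natCast, ← Real.rpow_mul hc0.le]; norm_num
  -- the first relation
  set A₁ : ℕ := ⌈r⌉₊ with hA₁
  have hA1r : r ≤ A₁ := Nat.le_ceil r
  have hA1u : (A₁ : ℝ) ≤ 2 * r := by
    have := Nat.ceil_lt_add_one (by linarith : (0 : ℝ) ≤ r)
    rw [← hA₁] at this
    linarith
  have hA11 : 1 ≤ A₁ := by
    have : (1 : ℝ) ≤ A₁ := hr1.trans hA1r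
    exact_mod_cast this
  have hex : ∃ n : ℕ, ∃ a : Fin 5 → ℤ, a ≠ 0 ∧ ∏ i, P i ^ a i = 1 ∧ ∀ i, |a i| ≤ n := by
    obtain ⟨s, hs1, hs2⟩ := h A₁ hA11
    obtain ⟨b, hb0, hb1, hb2, _⟩ := Q2_box P A₁ (A₁ + 1) (by omega) 0 s hs1 (by
      rw [Nat.div_eq_of_lt (by omega), zero_add, mul_one]
      have : (s.card : ℝ) < ((A₁ + 1 : ℕ) : ℝ) ^ 5 := by
        calc (s.card : ℝ) ≤ c * A₁ ^ 2 := hs2
          _ ≤ (A₁ : ℝ) ^ 3 * A₁ ^ 2 := by
              refine mul_le_mul_of_nonneg_right ?_ (by positivity)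
              rw [← hr3]
              exact pow_le_pow_left₀ (by linarith) hA1r 3
          _ = (A₁ : ℝ) ^ 5 := by ring
          _ < _ := by
              refine pow_lt_pow_left₀ ?_ (by positivity) (by norm_num)
              push_cast; linarith
      exact_mod_cast this)
    exact ⟨A₁, b, hb0, hb1, hb2⟩
  set n : ℕ := Nat.find hex with hn
  obtain ⟨a, ha0, ha1, ha2⟩ : ∃ a : Fin 5 → ℤ, a ≠ 0 ∧ ∏ i, P i ^ a i = 1 ∧ ∀ i, |a i| ≤ n :=
    Nat.find_spec hex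
  have hmin : ∀ b : Fin 5 → ℤ, b ≠ 0 → ∏ i, P i ^ b i = 1 → ∀ m : ℕ, (∀ i, |b i| ≤ m) →
      n ≤ m := fun b hb0 hb1 m hm => Nat.find_min' hex ⟨b, hb0, hb1, hm⟩
  have hnA1 : n ≤ A₁ := by
    obtain ⟨s, hs1, hs2⟩ := h A₁ hA11
    obtain ⟨b, hb0, hb1, hb2, _⟩ := Q2_box P A₁ (A₁ + 1) (by omega) 0 s hs1 (by
      rw [Nat.div_eq_of_lt (by omega), zero_add, mul_one]
      have : (s.card : ℝ) < ((A₁ + 1 : ℕ) : ℝ) ^ 5 := by
        calc (s.card : ℝ) ≤ c * A₁ ^ 2 := hs2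
          _ ≤ (A₁ : ℝ) ^ 3 * A₁ ^ 2 := by
              refine mul_le_mul_of_nonneg_right ?_ (by positivity)
              rw [← hr3]
              exact pow_le_pow_left₀ (by linarith) hA1r 3
          _ = (A₁ : ℝ) ^ 5 := by ring
          _ < _ := by
              refine pow_lt_pow_left₀ ?_ (by positivity) (by norm_num)
              push_cast; linarith
      exact_mod_cast this)
    exact hmin b hb0 hb1 A₁ hb2
  have hn1 : 1 ≤ n := by
    by_contra h0
    have h0' : n = 0 := by omega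
    apply ha0
    funext i
    have := ha2 i
    rw [h0'] at this
    exact abs_nonpos_iff.mp (by exact_mod_cast this)
  -- a coordinate where the minimum is attained
  obtain ⟨i₀, hi₀⟩ : ∃ i, |a i| = n := by
    by_contra hne
    push Not at hne
    have h2 : ∀ i, |a i| ≤ ((n - 1 : ℕ) : ℤ) := by
      intro i
      have h3 := ha2 i
      have h4 := hne i
      have h5 : |a i| < n := lt_of_le_of_ne h3 h4
      omega
    have := hmin a ha0 ha1 (n - 1) h2
    omega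
  have hnR : (1 : ℝ) ≤ n := by exact_mod_cast hn1
  have hn2r : (n : ℝ) ≤ 2 * r := le_trans (by exact_mod_cast hnA1) hA1u
  set A₂ : ℕ := max n ⌈Real.sqrt (2 * c / n)⌉₊ with hA₂
  have hA2n : n ≤ A₂ := le_max_left _ _
  have hA21 : 1 ≤ A₂ := hn1.trans hA2n
  have hA2R : (n : ℝ) ≤ A₂ := by exact_mod_cast hA2n
  have hsq : 2 * c / n ≤ (A₂ : ℝ) ^ 2 := by
    have h1 : Real.sqrt (2 * c / n) ≤ A₂ :=
      (Nat.le_ceil _).trans (by exact_mod_cast le_max_right n ⌈Real.sqrt (2 * c / n)⌉₊)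
    have h2 : 0 ≤ 2 * c / (n : ℝ) := by positivity
    calc 2 * c / (n : ℝ) = Real.sqrt (2 * c / n) ^ 2 := (Real.sq_sqrt h2).symm
      _ ≤ _ := pow_le_pow_left₀ (Real.sqrt_nonneg _) h1 2
  obtain ⟨s, hs1, hs2⟩ := h A₂ hA21
  obtain ⟨b, hb0, hb1, hb2, hb3⟩ := Q2_box P A₂ n hn1 i₀ s hs1 (by
    have h1 : ((A₂ / n + 1 : ℕ) : ℝ) ≤ 2 * A₂ / n := by
      push_cast
      have h2 : ((A₂ / n : ℕ) : ℝ) ≤ (A₂ : ℝ) / n := Nat.cast_div_le
      have h3 : (1 : ℝ) ≤ (A₂ : ℝ) / n := by rw [le_div_iff₀ (by linarith)]; linarith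
      have h4 : 2 * (A₂ : ℝ) / n = (A₂ : ℝ) / n + (A₂ : ℝ) / n := by ring
      rw [h4]; linarith
    have h5 : ((s.card * (A₂ / n + 1) : ℕ) : ℝ) < ((A₂ + 1 : ℕ) : ℝ) ^ 5 := by
      calc ((s.card * (A₂ / n + 1) : ℕ) : ℝ) = (s.card : ℝ) * ((A₂ / n + 1 : ℕ) : ℝ) := by
            push_cast; ring
        _ ≤ (c * A₂ ^ 2) * (2 * A₂ / n) := by
            refine mul_le_mul hs2 h1 (by positivity) (by positivity)
        _ = (2 * c / n) * (A₂ : ℝ) ^ 3 := by ring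
        _ ≤ (A₂ : ℝ) ^ 2 * (A₂ : ℝ) ^ 3 := mul_le_mul_of_nonneg_right hsq (by positivity)
        _ = (A₂ : ℝ) ^ 5 := by ring
        _ < _ := by
            refine pow_lt_pow_left₀ ?_ (by positivity) (by norm_num)
            push_cast; linarith
    exact_mod_cast h5)
  refine ⟨a, b, ?_, ha1, hb1, ?_⟩
  · rw [LinearIndependent.pair_iff]
    intro x y hxy
    have hy : y = 0 := by
      by_contra hy0
      have h1 : ∀ j, |b j| ≤ ((n - 1 : ℕ) : ℤ) := by
        intro j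
        have e1 : ∀ j, |y| * |b j| = |x| * |a j| := by
          intro j
          have h2 := congrFun hxy j
          simp only [Pi.add_apply, Pi.smul_apply, smul_eq_mul, Pi.zero_apply] at h2
          rw [← abs_mul, ← abs_mul]
          have : y * b j = -(x * a j) := by linarith
          rw [this, abs_neg]
        have e2 : |y| * |b j| ≤ |y| * |b i₀| := by
          rw [e1 j, e1 i₀, hi₀]
          exact mul_le_mul_of_nonneg_left (ha2 j) (abs_nonneg _)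
        have e3 := le_of_mul_le_mul_left e2 (abs_pos.mpr hy0)
        omega
      have := hmin b hb0 hb1 (n - 1) h1
      omega
    refine ⟨?_, hy⟩
    rw [hy, zero_smul, add_zero] at hxy
    by_contra hx
    exact ha0 ((smul_eq_zero.mp hxy).resolve_left hx)
  · have hs5 : ∀ (f : Fin 5 → ℤ) (m : ℕ), (∀ i, |f i| ≤ m) → ((∑ i, |f i| : ℤ) : ℝ) ≤ 5 * m := by
      intro f m hf
      have : (∑ i, |f i| : ℤ) ≤ 5 * m := by
        calc (∑ i, |f i| : ℤ) ≤ ∑ _i : Fin 5, (m : ℤ) := Finset.sum_le_sum fun i _ => hf i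
          _ = 5 * m := by simp
      exact_mod_cast this
    have h1 := hs5 a n ha2
    have h2 := hs5 b A₂ hb2
    have h3 : (0 : ℝ) ≤ ((∑ i, |b i| : ℤ) : ℝ) := by
      exact_mod_cast Finset.sum_nonneg fun i _ => abs_nonneg (b i)
    have hnA : (n : ℝ) * A₂ ≤ 4 * r ^ 2 := by
      rcases le_total n ⌈Real.sqrt (2 * c / n)⌉₊ with hle | hle
      · have hA2e : A₂ = ⌈Real.sqrt (2 * c / n)⌉₊ := max_eq_right hle
        have h5 : (A₂ : ℝ) ≤ Real.sqrt (2 * c / n) + 1 := by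
          rw [hA2e]; exact (Nat.ceil_lt_add_one (Real.sqrt_nonneg _)).le
        have h6 : (n : ℝ) * Real.sqrt (2 * c / n) ≤ 2 * r ^ 2 := by
          have h7 : (n : ℝ) * Real.sqrt (2 * c / n) = Real.sqrt (2 * c * n) := by
            have : (2 * c * n : ℝ) = (n : ℝ) ^ 2 * (2 * c / n) := by field_simp
            rw [this, Real.sqrt_mul (by positivity), Real.sqrt_sq (by linarith)]
          rw [h7]
          refine Real.sqrt_le_iff.mpr ⟨by positivity, ?_⟩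
          have h8 : (2 * r ^ 2) ^ 2 = 4 * (r ^ 3 * r) := by ring
          rw [h8, hr3]
          nlinarith
        nlinarith [mul_le_mul_of_nonneg_left h5 (by linarith : (0 : ℝ) ≤ n)]
      · have hA2e : A₂ = n := max_eq_left hle
        rw [hA2e]
        nlinarith
    calc ((∑ i, |a i| : ℤ) : ℝ) * ((∑ i, |b i| : ℤ) : ℝ) ≤ (5 * n) * (5 * A₂) :=
          mul_le_mul h1 h2 h3 (by positivity)
      _ = 25 * ((n : ℝ) * A₂) := by ring
      _ ≤ 25 * (4 * r ^ 2) := by linarith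
      _ ≤ 1000 * c ^ (2 / 3 : ℝ) := by rw [← hr2]; nlinarith [sq_nonneg r]

/-- one small relation by the box principle -/
theorem one_relation {G : Type} [CommGroup G] (P : Fin 3 → G) {c : ℝ} (hc : 1 ≤ c)
    (h : ∀ A : ℕ, 1 ≤ A → ∃ s : Finset G, (∀ u : Fin 3 → ℕ, (∀ i, u i ≤ A) →
      ∏ i, P i ^ u i ∈ s) ∧ (s.card : ℝ) ≤ c * A) :
    ∃ a : Fin 3 → ℤ, a ≠ 0 ∧ ∏ i, P i ^ a i = 1 ∧
      ((∑ i, |a i| : ℤ) : ℝ) ≤ 100 * c ^ (1 / 2 : ℝ) := by
  classical
  have hc0 : (0 : ℝ) < c := by linarith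
  set r : ℝ := c ^ (1 / 2 : ℝ) with hr
  have hr1 : 1 ≤ r := Real.one_le_rpow hc (by norm_num)
  have hr2 : r ^ 2 = c := by
    rw [hr, ← Real.rpow_natCast, ← Real.rpow_mul hc0.le]; norm_num
  set A₁ : ℕ := ⌈r⌉₊ with hA₁
  have hA1r : r ≤ A₁ := Nat.le_ceil r
  have hA1u : (A₁ : ℝ) ≤ 2 * r := by
    have := Nat.ceil_lt_add_one (by linarith : (0 : ℝ) ≤ r)
    rw [← hA₁] at this
    linarith
  have hA11 : 1 ≤ A₁ := by
    have : (1 : ℝ) ≤ A₁ := hr1.trans hA1r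
    exact_mod_cast this
  obtain ⟨s, hs1, hs2⟩ := h A₁ hA11
  obtain ⟨b, hb0, hb1, hb2, _⟩ := Q2_box P A₁ (A₁ + 1) (by omega) 0 s hs1 (by
    rw [Nat.div_eq_of_lt (by omega), zero_add, mul_one]
    have : (s.card : ℝ) < ((A₁ + 1 : ℕ) : ℝ) ^ 3 := by
      calc (s.card : ℝ) ≤ c * A₁ := hs2
        _ ≤ (A₁ : ℝ) ^ 2 * A₁ := by
            refine mul_le_mul_of_nonneg_right ?_ (by positivity)
            rw [← hr2]
            exact pow_le_pow_left₀ (by linarith) hA1r 2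
        _ = (A₁ : ℝ) ^ 3 := by ring
        _ < _ := by
            refine pow_lt_pow_left₀ ?_ (by positivity) (by norm_num)
            push_cast; linarith
    exact_mod_cast this)
  refine ⟨b, hb0, hb1, ?_⟩
  have h1 : (∑ i, |b i| : ℤ) ≤ 3 * A₁ := by
    calc (∑ i, |b i| : ℤ) ≤ ∑ _i : Fin 3, (A₁ : ℤ) := Finset.sum_le_sum fun i _ => hb2 i
      _ = 3 * A₁ := by simp
  have h2 : ((∑ i, |b i| : ℤ) : ℝ) ≤ 3 * A₁ := by exact_mod_cast h1
  linarith

end BMF
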