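import Pool.Agent.Lib.MP_a325a5_ag.F.G2
import Pool.Agent.Lib.MP_a325a5_ag.F.N2
import Pool.Agent.Lib.MP_a325a5_ag.F.N4
import Pool.Agent.Lib.MP_a325a5_ag.F.P1
import Pool.Agent.Lib.MP_a325a5_ag.F.Q4

open NumberField MvPolynomial

namespace BMF

private theorem DegB_MV {c Cε W D M V φ h dg : ℝ} (hc : 0 < c) (hCε : 0 < Cε)
    (hD : 1 ≤ D) (hV : 0 ≤ V) (hφ : 1 ≤ φ) (hdg : 1 ≤ dg)
    (h1 : c * D ^ (-(1 / 10 : ℝ)) ≤ h * dg) (h2 : h * V ≤ W) (h3 : φ * dg ≤ D)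
    (h4 : M ≤ Cε * φ ^ (1 + 1 / 10 : ℝ)) : M * V ≤ Cε * (W / c) * D ^ (6 / 5 : ℝ) := by
  have hD0 : 0 < D := by linarith
  have hφ0 : 0 < φ := by linarith
  have hφD : φ ≤ D := by nlinarith
  set E := D ^ (1 / 10 : ℝ) with hE
  have hE0 : 0 < E := Real.rpow_pos_of_pos hD0 _
  have hinv : D ^ (-(1 / 10 : ℝ)) * E = 1 := by
    rw [hE, ← Real.rpow_add hD0]; norm_num
  have hφE : φ ^ (1 / 10 : ℝ) ≤ E := Real.rpow_le_rpow hφ0.le hφD (by norm_num)
  have h5 : M ≤ Cε * (φ * E) := by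
    refine h4.trans ?_
    rw [Real.rpow_add hφ0, Real.rpow_one]
    exact mul_le_mul_of_nonneg_left (mul_le_mul_of_nonneg_left hφE hφ0.le) hCε.le
  have h6 : c ≤ h * dg * E := by
    have := mul_le_mul_of_nonneg_right h1 hE0.le
    rwa [mul_assoc, hinv, mul_one] at this
  have hh0 : 0 < h := by
    by_contra hneg
    push Not at hneg
    have : h * dg * E ≤ 0 :=
      mul_nonpos_of_nonpos_of_nonneg (mul_nonpos_of_nonpos_of_nonneg hneg (by linarith)) hE0.le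
    linarith
  have hW : 0 ≤ W := le_trans (by positivity) h2
  have h7 : c * (V * φ) ≤ W * D * E := by
    calc c * (V * φ) ≤ (h * dg * E) * (V * φ) :=
          mul_le_mul_of_nonneg_right h6 (by positivity)
      _ = (h * V) * (φ * dg) * E := by ring
      _ ≤ W * D * E := by
          apply mul_le_mul_of_nonneg_right _ hE0.le
          exact mul_le_mul h2 h3 (by positivity) hW
  have h8 : V * φ ≤ W / c * (D * E) := by
    rw [div_mul_eq_mul_div, le_div_iff₀ hc]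
    linarith
  have hDE : D ^ (6 / 5 : ℝ) = D * E * E := by
    rw [hE, mul_assoc, ← Real.rpow_add hD0]
    nth_rewrite 2 [← Real.rpow_one D]
    rw [← Real.rpow_add hD0]
    norm_num
  calc M * V ≤ Cε * (φ * E) * V := mul_le_mul_of_nonneg_right h5 hV
    _ = Cε * E * (V * φ) := by ring
    _ ≤ Cε * E * (W / c * (D * E)) := mul_le_mul_of_nonneg_left h8 (by positivity)
    _ = Cε * (W / c) * D ^ (6 / 5 : ℝ) := by rw [hDE]; ring

private theorem DegB_fin {A E s MV D : ℝ} (hA : 0 ≤ A) (hE : 0 ≤ E) (hD : 1 ≤ D) (hMV : 0 ≤ MV)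
    (hs0 : 0 ≤ s) (hs : s ≤ 2 / 3) (h1 : D ≤ A * MV ^ s) (h2 : MV ≤ E * D ^ (6 / 5 : ℝ)) :
    D ≤ (A * E ^ s) ^ 5 := by
  have hD0 : 0 < D := by linarith
  have h3 : MV ^ s ≤ E ^ s * D ^ (4 / 5 : ℝ) := by
    calc MV ^ s ≤ (E * D ^ (6 / 5 : ℝ)) ^ s := Real.rpow_le_rpow hMV h2 hs0
      _ = E ^ s * D ^ (6 / 5 * s : ℝ) := by
          rw [Real.mul_rpow hE (by positivity), ← Real.rpow_mul hD0.le]
      _ ≤ E ^ s * D ^ (4 / 5 : ℝ) := by
          apply mul_le_mul_of_nonneg_left _ (by positivity)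
          exact Real.rpow_le_rpow_of_exponent_le hD (by linarith)
  have h4 : D ≤ A * E ^ s * D ^ (4 / 5 : ℝ) := by
    calc D ≤ A * MV ^ s := h1
      _ ≤ A * (E ^ s * D ^ (4 / 5 : ℝ)) := mul_le_mul_of_nonneg_left h3 hA
      _ = _ := by ring
  have h5 : D ^ (1 / 5 : ℝ) ≤ A * E ^ s := by
    have hp : 0 < D ^ (4 / 5 : ℝ) := Real.rpow_pos_of_pos hD0 _
    have e : D = D ^ (1 / 5 : ℝ) * D ^ (4 / 5 : ℝ) := by
      rw [← Real.rpow_add hD0]; norm_num
    have : D ^ (1 / 5 : ℝ) * D ^ (4 / 5 : ℝ) ≤ A * E ^ s * D ^ (4 / 5 : ℝ) := by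
      rw [← e]; exact h4
    exact le_of_mul_le_mul_right this hp
  calc D = (D ^ (1 / 5 : ℝ)) ^ 5 := by
        rw [← Real.rpow_natCast, ← Real.rpow_mul hD0.le]; norm_num
    _ ≤ (A * E ^ s) ^ 5 := pow_le_pow_left₀ (by positivity) h5 5

/-- bounded height and rank two: the degree is bounded -/
theorem degree_bound2 (L : Type) [Field L] [NumberField L] (B C1 : ℝ) :
    ∃ D2 : ℕ, ∀ (K : Type) [Field K] [NumberField K] [Algebra L K] (P : Fin 5 → Kˣ),
      (∀ i, ht (P i : K) ≤ B) → mrk P = 2 →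
      (∀ a a' : Fin 5 → ℤ, LinearIndependent ℤ ![a, a'] → ∏ i, P i ^ a i = 1 →
        ∏ i, P i ^ a' i = 1 → (Module.finrank L K : ℝ) ≤
          C1 * ((∑ i, |a i| : ℤ) : ℝ) * ((∑ i, |a' i| : ℤ) : ℝ)) →
      Module.finrank ℚ K ≤ D2 := by
  obtain ⟨c, hc, hD2⟩ := D2main (1 / 10) (by norm_num)
  obtain ⟨Cε, hCε, hN2⟩ := totient_lower (1 / 10) (by norm_num)
  obtain ⟨C, hC, hQ⟩ := pigeon2
  refine ⟨⌈((Module.finrank ℚ L : ℝ) * |C1| * C * (Cε * (C * B ^ 2 / c)) ^ (2 / 3 : ℝ)) ^ 5⌉₊, ?_⟩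
  intro K _ _ _ P hP hr hdeg
  obtain ⟨V, M, ζ, g, a, a', hV, hM, hζ, hg, hind, hV2, hai, h1, h2, haa⟩ := hQ K B P hP hr
  obtain ⟨k, _, _, _, ⟨Z⟩⟩ := exists_cyc hM hζ
  have hmain := hD2 M k K Z g hg hind
  have hN4 := totient_mul_dg_le Z g
  have hdg : 0 < dg k g 1 := dg_pos g 1
  have hφ : 0 < M.totient := Nat.totient_pos.2 hM
  have hDpos : (1 : ℝ) ≤ Module.finrank ℚ K := by
    exact_mod_cast (Module.finrank_pos : 0 < Module.finrank ℚ K)
  have hMV := DegB_MV (D := (Module.finrank ℚ K : ℝ)) (M := (M : ℝ)) (V := (V : ℝ))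
    (φ := (M.totient : ℝ)) (h := ht (g 0) * ht (g 1)) (dg := (dg k g 1 : ℝ)) (W := C * B ^ 2)
    hc hCε hDpos (Nat.cast_nonneg V) (by exact_mod_cast hφ) (by exact_mod_cast hdg) hmain hV2
    (by exact_mod_cast hN4) (hN2 M hM)
  have hd := hdeg a a' hai h1 h2
  have htow : (Module.finrank ℚ K : ℝ) = (Module.finrank ℚ L : ℝ) * Module.finrank L K := by
    exact_mod_cast (Module.finrank_mul_finrank ℚ L K).symm
  have hDle : (Module.finrank ℚ K : ℝ) ≤ ((Module.finrank ℚ L : ℝ) * |C1| * C) *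
      ((M : ℝ) * V) ^ (2 / 3 : ℝ) := by
    rw [htow]
    have hn : (0 : ℝ) ≤ ((∑ i, |a i| : ℤ) : ℝ) * ((∑ i, |a' i| : ℤ) : ℝ) := by
      have e1 : (0 : ℤ) ≤ ∑ i, |a i| := Finset.sum_nonneg fun i _ => abs_nonneg _
      have e2 : (0 : ℤ) ≤ ∑ i, |a' i| := Finset.sum_nonneg fun i _ => abs_nonneg _
      exact mul_nonneg (by exact_mod_cast e1) (by exact_mod_cast e2)
    have hL0 : (0 : ℝ) ≤ Module.finrank ℚ L := Nat.cast_nonneg _
    calc (Module.finrank ℚ L : ℝ) * Module.finrank L K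
        ≤ (Module.finrank ℚ L : ℝ) * (|C1| * (C * ((M : ℝ) * V) ^ (2 / 3 : ℝ))) := by
          apply mul_le_mul_of_nonneg_left _ hL0
          refine hd.trans ?_
          rw [mul_assoc]
          calc C1 * (((∑ i, |a i| : ℤ) : ℝ) * ((∑ i, |a' i| : ℤ) : ℝ))
              ≤ |C1| * (((∑ i, |a i| : ℤ) : ℝ) * ((∑ i, |a' i| : ℤ) : ℝ)) :=
                mul_le_mul_of_nonneg_right (le_abs_self _) hn
            _ ≤ _ := mul_le_mul_of_nonneg_left haa (abs_nonneg _)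
      _ = _ := by ring
  have hE0 : 0 ≤ Cε * (C * B ^ 2 / c) := by positivity
  have hfin := DegB_fin (A := (Module.finrank ℚ L : ℝ) * |C1| * C)
    (E := Cε * (C * B ^ 2 / c)) (s := 2 / 3) (MV := (M : ℝ) * V) (D := (Module.finrank ℚ K : ℝ))
    (by positivity) hE0 hDpos (by positivity) (by norm_num) le_rfl hDle hMV
  exact_mod_cast hfin.trans (Nat.le_ceil _)

/-- bounded height and rank at most one for a curve -/
theorem degree_bound1 (L : Type) [Field L] [NumberField L] (B C1 : ℝ) :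
    ∃ D1 : ℕ, ∀ (K : Type) [Field K] [NumberField K] [Algebra L K] (P : Fin 3 → Kˣ),
      (∀ i, ht (P i : K) ≤ B) → mrk P ≤ 1 →
      (∀ a : Fin 3 → ℤ, a ≠ 0 → ∏ i, P i ^ a i = 1 → (Module.finrank L K : ℝ) ≤
          C1 * ((∑ i, |a i| : ℤ) : ℝ)) →
      Module.finrank ℚ K ≤ D1 := by
  obtain ⟨c, hc, hD1⟩ := D1main (1 / 10) (by norm_num)
  obtain ⟨Cε, hCε, hN2⟩ := totient_lower (1 / 10) (by norm_num)
  obtain ⟨C, hC, hQ⟩ := pigeon1
  refine ⟨⌈((Module.finrank ℚ L : ℝ) * |C1| * C *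
    (Cε + Cε * (C * |B| / c)) ^ (1 / 2 : ℝ)) ^ 5⌉₊, ?_⟩
  intro K _ _ _ P hP hr hdeg
  obtain ⟨V, M, ζ, a, hV, hM, hζ, hVg, ha, h1, haa⟩ := hQ K B P hP hr
  obtain ⟨k, _, _, _, ⟨Z⟩⟩ := exists_cyc hM hζ
  have hφ : 0 < M.totient := Nat.totient_pos.2 hM
  have hDpos : (1 : ℝ) ≤ Module.finrank ℚ K := by
    exact_mod_cast (Module.finrank_pos : 0 < Module.finrank ℚ K)
  have hD0 : (0 : ℝ) < Module.finrank ℚ K := by linarith
  have hMV : (M : ℝ) * V ≤ (Cε + Cε * (C * |B| / c)) * (Module.finrank ℚ K : ℝ) ^ (6 / 5 : ℝ) := by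
    have hpow : (0 : ℝ) ≤ (Module.finrank ℚ K : ℝ) ^ (6 / 5 : ℝ) := by positivity
    rcases hVg with hV1 | ⟨g, hg0, hgt, hgV⟩
    · have hdg1 : 0 < dg k (fun _ : Fin 2 => (1 : K)) 1 := dg_pos _ 1
      have hN4 := totient_mul_dg_le Z (fun _ : Fin 2 => (1 : K))
      have hφD : (M.totient : ℝ) ≤ Module.finrank ℚ K := by
        have : M.totient ≤ Module.finrank ℚ K := le_trans (Nat.le_mul_of_pos_right _ hdg1) hN4
        exact_mod_cast this
      have hM1 := hN2 M hM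
      have hM2 : (M : ℝ) ≤ Cε * (Module.finrank ℚ K : ℝ) ^ (6 / 5 : ℝ) := by
        refine hM1.trans (mul_le_mul_of_nonneg_left ?_ hCε.le)
        calc (M.totient : ℝ) ^ (1 + 1 / 10 : ℝ) ≤ (Module.finrank ℚ K : ℝ) ^ (1 + 1 / 10 : ℝ) :=
              Real.rpow_le_rpow (Nat.cast_nonneg _) hφD (by norm_num)
          _ ≤ _ := Real.rpow_le_rpow_of_exponent_le hDpos (by norm_num)
      rw [hV1, Nat.cast_one, mul_one]
      refine hM2.trans (mul_le_mul_of_nonneg_right ?_ hpow)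
      have : 0 ≤ Cε * (C * |B| / c) := by positivity
      linarith
    · have hmain := hD1 M k K Z g hg0 hgt
      have hdge : dg k (fun _ : Fin 2 => g) 1 =
          Module.finrank k (IntermediateField.adjoin k {g}) := by
        unfold dg
        have : (Set.range fun _ : Fin 2 => g ^ 1) = {g} := by
          rw [pow_one, Set.range_const]
        rw [this]
      have hdg : 0 < dg k (fun _ : Fin 2 => g) 1 := dg_pos _ 1
      have hN4 := totient_mul_dg_le Z (fun _ : Fin 2 => g)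
      rw [← hdge] at hmain
      have hW : ht g * V ≤ C * |B| := hgV.trans (mul_le_mul_of_nonneg_left (le_abs_self B) hC.le)
      have := DegB_MV (D := (Module.finrank ℚ K : ℝ)) (M := (M : ℝ)) (V := (V : ℝ))
        (φ := (M.totient : ℝ)) (h := ht g) (dg := (dg k (fun _ : Fin 2 => g) 1 : ℝ))
        (W := C * |B|) hc hCε hDpos (Nat.cast_nonneg V) (by exact_mod_cast hφ)
        (by exact_mod_cast hdg) hmain hW (by exact_mod_cast hN4) (hN2 M hM)
      refine this.trans (mul_le_mul_of_nonneg_right ?_ hpow)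
      linarith
  have hd := hdeg a ha h1
  have htow : (Module.finrank ℚ K : ℝ) = (Module.finrank ℚ L : ℝ) * Module.finrank L K := by
    exact_mod_cast (Module.finrank_mul_finrank ℚ L K).symm
  have hDle : (Module.finrank ℚ K : ℝ) ≤ ((Module.finrank ℚ L : ℝ) * |C1| * C) *
      ((M : ℝ) * V) ^ (1 / 2 : ℝ) := by
    rw [htow]
    have hn : (0 : ℝ) ≤ ((∑ i, |a i| : ℤ) : ℝ) := by
      have e1 : (0 : ℤ) ≤ ∑ i, |a i| := Finset.sum_nonneg fun i _ => abs_nonneg _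
      exact_mod_cast e1
    have hL0 : (0 : ℝ) ≤ Module.finrank ℚ L := Nat.cast_nonneg _
    calc (Module.finrank ℚ L : ℝ) * Module.finrank L K
        ≤ (Module.finrank ℚ L : ℝ) * (|C1| * (C * ((M : ℝ) * V) ^ (1 / 2 : ℝ))) := by
          apply mul_le_mul_of_nonneg_left _ hL0
          refine hd.trans ?_
          calc C1 * ((∑ i, |a i| : ℤ) : ℝ)
              ≤ |C1| * ((∑ i, |a i| : ℤ) : ℝ) :=
                mul_le_mul_of_nonneg_right (le_abs_self _) hn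
            _ ≤ _ := mul_le_mul_of_nonneg_left haa (abs_nonneg _)
      _ = _ := by ring
  have hE0 : 0 ≤ Cε + Cε * (C * |B| / c) := by positivity
  have hfin := DegB_fin (A := (Module.finrank ℚ L : ℝ) * |C1| * C)
    (E := Cε + Cε * (C * |B| / c)) (s := 1 / 2) (MV := (M : ℝ) * V)
    (D := (Module.finrank ℚ K : ℝ))
    (by positivity) hE0 hDpos (by positivity) (by norm_num) (by norm_num) hDle hMV
  exact_mod_cast hfin.trans (Nat.le_ceil _)

end BMF
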