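import Pool.Agent.Lib.MP_a325a5_ag.F.Hgt

/-! The height of a fixed element is bounded in all extensions.

Proof.  Let `n` be a nonzero integer with `n * x` integral over `ℤ`.  At a finite place
`max (lg v x) 0 ≤ - lg v n`, at an embedding `max (lg v x) 0 ≤ c` where `c` is the maximum over the
embeddings of `L`.  The product formula for `n` gives `ht x ≤ c + log n`. -/

open NumberField

namespace BMF

private theorem HtC_int_le {K : Type} [Field K] [NumberField K] (w : FinitePlace K) (y : K)
    (hy : IsIntegral ℤ y) : av (.inr w) y ≤ 1 := by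
  rw [av_inr, ← FinitePlace.norm_embedding_eq]
  exact FinitePlace.norm_le_one K w.maximalIdeal (⟨y, hy⟩ : 𝓞 K)

private theorem HtC_inf {L : Type} [Field L] [NumberField L] (x : L) :
    ∃ c : ℝ, 0 ≤ c ∧ ∀ (K : Type) [Field K] [NumberField K] [Algebra L K] (σ : K →+* ℂ),
      lg (.inl σ) (algebraMap L K x) ≤ c := by
  refine ⟨∑ τ : L →+* ℂ, |Real.log ‖τ x‖|, Finset.sum_nonneg fun _ _ => abs_nonneg _, ?_⟩
  intro K _ _ _ σ
  have h1 : lg (.inl σ) (algebraMap L K x) = Real.log ‖(σ.comp (algebraMap L K)) x‖ := rfl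
  rw [h1]
  refine (le_abs_self _).trans ?_
  exact Finset.single_le_sum (f := fun τ : L →+* ℂ => |Real.log ‖τ x‖|)
    (fun _ _ => abs_nonneg _) (Finset.mem_univ _)

/-- The height of a fixed element is bounded in all extensions. -/
theorem ht_bdd {L : Type} [Field L] [NumberField L] (x : L) :
    ∃ C : ℝ, 0 ≤ C ∧ ∀ (K : Type) [Field K] [NumberField K] [Algebra L K],
      ht (algebraMap L K x) ≤ C := by
  obtain ⟨c, hc, hinf⟩ := HtC_inf x
  have hz : IsAlgebraic ℤ x := by
    have h1 : IsAlgebraic ℚ x := Algebra.IsAlgebraic.isAlgebraic x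
    exact (IsFractionRing.isAlgebraic_iff ℤ ℚ L).2 h1
  obtain ⟨n, hn, hint⟩ := hz.exists_integral_multiple
  have hn1 : (1 : ℝ) ≤ |(n : ℝ)| := by
    have := Int.one_le_abs hn
    exact_mod_cast this
  refine ⟨c + Real.log |(n : ℝ)|, add_nonneg hc (Real.log_nonneg hn1), ?_⟩
  intro K _ _ _
  have hnK : (n : K) ≠ 0 := by exact_mod_cast hn
  have hbound : ht (algebraMap L K x) ≤
      tot (fun v : Pl K => Sum.elim (fun _ => c + Real.log |(n : ℝ)|) (fun _ => 0) v -
        lg v (n : K)) := by
    unfold ht
    refine tot_mono (fs_ht _) ((FS.inf _ fun w => rfl).sub (fs_lg hnK)) ?_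
    intro v
    rcases v with σ | w
    · have h1 : lg (.inl σ) (n : K) = Real.log |(n : ℝ)| := by
        unfold lg
        rw [av_inl, map_intCast, Complex.norm_intCast]
      rw [h1]
      simp only [Sum.elim_inl]
      rw [add_sub_cancel_right]
      exact max_le (hinf K σ) hc
    · have h1 : av (.inr w) (n : K) ≤ 1 := HtC_int_le w _ (isIntegral_algebraMap (A := K) (x := n))
      have h2 : lg (.inr w) (n : K) ≤ 0 := Real.log_nonpos ((av _).nonneg _) h1
      simp only [Sum.elim_inr]
      rw [zero_sub]
      refine max_le ?_ (by linarith)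
      rcases eq_or_ne (algebraMap L K x) 0 with h0 | h0
      · rw [h0]
        have h3 : lg (.inr w) (0 : K) = 0 := by
          unfold lg
          rw [map_zero, Real.log_zero]
        rw [h3]
        linarith
      · have h4 : IsIntegral ℤ ((n : K) * algebraMap L K x) := by
          have h5 := hint.algebraMap (B := K)
          rw [zsmul_eq_mul, map_mul, map_intCast] at h5
          exact h5
        have h6 : lg (.inr w) ((n : K) * algebraMap L K x) ≤ 0 :=
          Real.log_nonpos ((av _).nonneg _) (HtC_int_le w _ h4)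
        rw [lg_mul _ hnK h0] at h6
        linarith
  refine hbound.trans ?_
  rw [tot_sub (FS.inf _ fun w => rfl) (fs_lg hnK), tot_lg hnK, tot_inf_const]
  simp

end BMF
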