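import Pool.Agent.Lib.MP_a325a5_ag.F.Ar
import Pool.Agent.Lib.MP_a325a5_ag.F.HtC

/-! The masses of the cusps of a line in a torus.  The line has the coordinates `κ j * (x - β j)`.

Proof of `mass_local`.  If `lg v (x - β i) < lg v (β i - β j) - ar v` for all `j ≠ i`, then
`|lg v (x - β j) - lg v (β i - β j)| ≤ ar v` by `lg_add_near` (`x - β j = (x - β i) + (β i - β j)`),
so `|lg v (κ j * (x - β j))| ≤ err v` for `j ≠ i` and
`|lg v (κ i * (x - β i)) - lg v (x - β i)| = |lg v (κ i)| ≤ err v`.  Otherwise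
`-lg v (x - β i) ≤ |lg v (β i - β j)| + ar v ≤ err v` for some `j`.
`mass_tot`: sum over all places (`tot_mono`, `tot_const_mul`, `tot_add`), and
`tot (max (-lg v y) 0) = ht y⁻¹ = ht y`.
`tot_err_le`: `tot_abs_lg`, `ht_bdd` for the finitely many constants. -/

open NumberField

namespace BMF

variable {K : Type} [Field K] [NumberField K] {ι : Type} [Fintype ι]

/-- the local error of the line with cusps `β j` and coefficients `κ j` -/
noncomputable def err (β κ : ι → K) (v : Pl K) : ℝ :=
  ∑ j, |lg v (κ j)| + ∑ j, ∑ k, |lg v (β j - β k)| + 2 * ar v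

theorem err_nonneg (β κ : ι → K) (v : Pl K) : 0 ≤ err β κ v := by
  unfold err
  have h1 : 0 ≤ ∑ j, |lg v (κ j)| := Finset.sum_nonneg fun _ _ => abs_nonneg _
  have h2 : 0 ≤ ∑ j, ∑ k, |lg v (β j - β k)| :=
    Finset.sum_nonneg fun _ _ => Finset.sum_nonneg fun _ _ => abs_nonneg _
  have h3 := ar_nonneg v
  linarith

private theorem Mass_fs (x : K) : FS fun v => |lg v x| := by
  rcases eq_or_ne x 0 with rfl | hx
  · exact FS.zero.mono fun v _ => by rw [lg_zero, abs_zero]
  · exact (fs_lg hx).abs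

private theorem Mass_tot (x : K) : tot (fun v => |lg v x|) = 2 * ht x := by
  rcases eq_or_ne x 0 with rfl | hx
  · have h1 : (fun v : Pl K => |lg v (0 : K)|) = fun _ => 0 := by
      funext v
      rw [lg_zero, abs_zero]
    rw [h1, ht_zero]
    simp [tot]
  · exact tot_abs_lg hx

private theorem Mass_fs1 (κ : ι → K) : FS fun v => ∑ j, |lg v (κ j)| :=
  FS.sum Finset.univ fun j _ => Mass_fs (κ j)

private theorem Mass_fs2 (β : ι → K) : FS fun v => ∑ j, ∑ k, |lg v (β j - β k)| :=
  FS.sum Finset.univ fun j _ => FS.sum Finset.univ fun k _ => Mass_fs (β j - β k)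

theorem fs_err (β κ : ι → K) : FS (err β κ) :=
  ((Mass_fs1 κ).add (Mass_fs2 β)).add (fs_ar.const_mul 2)

private theorem Mass_le1 (β κ : ι → K) (v : Pl K) (j : ι) :
    |lg v (κ j)| + ar v ≤ err β κ v := by
  unfold err
  have h1 : |lg v (κ j)| ≤ ∑ j, |lg v (κ j)| :=
    Finset.single_le_sum (f := fun j => |lg v (κ j)|) (fun _ _ => abs_nonneg _)
      (Finset.mem_univ j)
  have h2 : 0 ≤ ∑ j, ∑ k, |lg v (β j - β k)| :=
    Finset.sum_nonneg fun _ _ => Finset.sum_nonneg fun _ _ => abs_nonneg _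
  have h3 := ar_nonneg v
  linarith

private theorem Mass_le2 (β κ : ι → K) (v : Pl K) (i j l : ι) :
    |lg v (κ l)| + |lg v (β i - β j)| + ar v ≤ err β κ v := by
  unfold err
  have h1 : |lg v (κ l)| ≤ ∑ j, |lg v (κ j)| :=
    Finset.single_le_sum (f := fun j => |lg v (κ j)|) (fun _ _ => abs_nonneg _)
      (Finset.mem_univ l)
  have h2 : |lg v (β i - β j)| ≤ ∑ j, ∑ k, |lg v (β j - β k)| :=
    (Finset.single_le_sum (f := fun k => |lg v (β i - β k)|) (fun _ _ => abs_nonneg _)
      (Finset.mem_univ j)).trans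
      (Finset.single_le_sum (f := fun i => ∑ k, |lg v (β i - β k)|)
        (fun _ _ => Finset.sum_nonneg fun _ _ => abs_nonneg _) (Finset.mem_univ i))
  have h3 := ar_nonneg v
  linarith

theorem mass_local (β κ : ι → K) (hβ : Function.Injective β) (hκ : ∀ j, κ j ≠ 0) (x : K)
    (hx : ∀ j, x ≠ β j) (a : ι → ℝ) (i : ι) (v : Pl K) :
    |a i| * max (-lg v (x - β i)) 0 ≤
      |∑ j, a j * lg v (κ j * (x - β j))| + (∑ j, |a j|) * err β κ v := by
  classical
  have he := err_nonneg β κ v
  have hai : |a i| ≤ ∑ j, |a j| :=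
    Finset.single_le_sum (f := fun j => |a j|) (fun _ _ => abs_nonneg _) (Finset.mem_univ i)
  by_cases h : ∀ j, j ≠ i → lg v (x - β i) < lg v (β i - β j) - ar v
  · -- close to the cusp
    have h1 : ∀ j ∈ Finset.univ.erase i, |a j * lg v (κ j * (x - β j))| ≤ |a j| * err β κ v := by
      intro j hj
      have hji : j ≠ i := Finset.ne_of_mem_erase hj
      have h2 := lg_add_near v (sub_ne_zero.2 (hx i)) (sub_ne_zero.2 (hβ.ne hji.symm)) (h j hji)
      rw [sub_add_sub_cancel] at h2
      rw [abs_mul]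
      refine mul_le_mul_of_nonneg_left ?_ (abs_nonneg _)
      rw [lg_mul v (hκ j) (sub_ne_zero.2 (hx j))]
      have h3 := Mass_le2 β κ v i j j
      have h4 := abs_add_le (lg v (κ j)) (lg v (x - β j))
      have h5 : |lg v (x - β j)| ≤ |lg v (β i - β j)| + ar v := by
        have := abs_sub_abs_le_abs_sub (lg v (x - β j)) (lg v (β i - β j))
        linarith
      linarith
    have h2 : |∑ j ∈ Finset.univ.erase i, a j * lg v (κ j * (x - β j))| ≤
        (∑ j ∈ Finset.univ.erase i, |a j|) * err β κ v := by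
      refine (Finset.abs_sum_le_sum_abs _ _).trans ?_
      rw [Finset.sum_mul]
      exact Finset.sum_le_sum h1
    have h3 : ∑ j, a j * lg v (κ j * (x - β j)) =
        a i * lg v (κ i * (x - β i)) + ∑ j ∈ Finset.univ.erase i, a j * lg v (κ j * (x - β j)) :=
      (Finset.add_sum_erase _ _ (Finset.mem_univ i)).symm
    have h4 : ∑ j, |a j| = |a i| + ∑ j ∈ Finset.univ.erase i, |a j| :=
      (Finset.add_sum_erase _ _ (Finset.mem_univ i)).symm
    have h5 : |a i| * max (-lg v (x - β i)) 0 ≤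
        |a i * lg v (κ i * (x - β i))| + |a i| * err β κ v := by
      rw [abs_mul, ← mul_add]
      refine mul_le_mul_of_nonneg_left ?_ (abs_nonneg _)
      rw [lg_mul v (hκ i) (sub_ne_zero.2 (hx i))]
      have h6 := Mass_le1 β κ v i
      have h7 := ar_nonneg v
      refine max_le ?_ (add_nonneg (abs_nonneg _) he)
      have h8 := neg_abs_le (lg v (κ i) + lg v (x - β i))
      have h9 := le_abs_self (lg v (κ i))
      linarith
    have h6 : |a i * lg v (κ i * (x - β i))| ≤ |∑ j, a j * lg v (κ j * (x - β j))| +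
        |∑ j ∈ Finset.univ.erase i, a j * lg v (κ j * (x - β j))| := by
      have h7 : a i * lg v (κ i * (x - β i)) = ∑ j, a j * lg v (κ j * (x - β j)) -
          ∑ j ∈ Finset.univ.erase i, a j * lg v (κ j * (x - β j)) := by
        rw [h3]
        ring
      rw [h7]
      exact abs_sub _ _
    rw [h4]
    nlinarith
  · push Not at h
    obtain ⟨j, _, h1⟩ := h
    have h2 := Mass_le2 β κ v i j j
    have h3 : max (-lg v (x - β i)) 0 ≤ err β κ v := by
      refine max_le ?_ he
      have h4 := neg_abs_le (lg v (β i - β j))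
      have h5 := abs_nonneg (lg v (κ j))
      linarith
    calc |a i| * max (-lg v (x - β i)) 0 ≤ (∑ j, |a j|) * err β κ v :=
          mul_le_mul hai h3 (le_max_right _ _) (Finset.sum_nonneg fun _ _ => abs_nonneg _)
      _ ≤ _ := le_add_of_nonneg_left (abs_nonneg _)

theorem mass_tot (β κ : ι → K) (hβ : Function.Injective β) (hκ : ∀ j, κ j ≠ 0) (x : K)
    (hx : ∀ j, x ≠ β j) (a : ι → ℝ) (i : ι) :
    |a i| * ht (x - β i) ≤
      tot (fun v => |∑ j, a j * lg v (κ j * (x - β j))|) + (∑ j, |a j|) * tot (err β κ) := by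
  have hne : ∀ j, κ j * (x - β j) ≠ 0 := fun j => mul_ne_zero (hκ j) (sub_ne_zero.2 (hx j))
  have hfs : FS fun v => |∑ j, a j * lg v (κ j * (x - β j))| :=
    (FS.sum Finset.univ fun j _ => (fs_lg (hne j)).const_mul (a j)).abs
  have h1 : ht (x - β i) = tot (fun v => max (-lg v (x - β i)) 0) := by
    rw [← ht_inv]
    unfold ht
    simp only [lg_inv]
  rw [h1, ← tot_const_mul, ← tot_const_mul, ← tot_add hfs ((fs_err β κ).const_mul _)]
  refine tot_mono ?_ (hfs.add ((fs_err β κ).const_mul _)) fun v =>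
    mass_local β κ hβ hκ x hx a i v
  exact (((fs_lg (sub_ne_zero.2 (hx i))).neg).max FS.zero).const_mul _

theorem tot_err_le {L : Type} [Field L] [NumberField L] (β κ : ι → L) :
    ∃ C : ℝ, 0 ≤ C ∧ ∀ (K : Type) [Field K] [NumberField K] [Algebra L K],
      tot (err (fun j => algebraMap L K (β j)) (fun j => algebraMap L K (κ j))) ≤ C := by
  choose C hC0 hC using fun x : L => ht_bdd x
  refine ⟨∑ j, 2 * C (κ j) + ∑ j, ∑ k, 2 * C (β j - β k) + 2 * Real.log 2, ?_, ?_⟩
  · have h1 : 0 ≤ ∑ j, 2 * C (κ j) := Finset.sum_nonneg fun j _ => by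
      have := hC0 (κ j)
      linarith
    have h2 : 0 ≤ ∑ j, ∑ k, 2 * C (β j - β k) :=
      Finset.sum_nonneg fun j _ => Finset.sum_nonneg fun k _ => by
        have := hC0 (β j - β k)
        linarith
    have h3 : 0 ≤ Real.log 2 := Real.log_nonneg (by norm_num)
    linarith
  · intro K _ _ _
    unfold err
    rw [tot_add ((Mass_fs1 _).add (Mass_fs2 _)) (fs_ar.const_mul 2),
      tot_add (Mass_fs1 _) (Mass_fs2 _), tot_const_mul, tot_ar,
      tot_sum _ fun j _ => Mass_fs _,
      tot_sum _ fun j _ => FS.sum Finset.univ fun k _ => Mass_fs _]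
    refine add_le_add (add_le_add ?_ ?_) le_rfl
    · refine Finset.sum_le_sum fun j _ => ?_
      rw [Mass_tot]
      have := hC (κ j) K
      linarith
    · refine Finset.sum_le_sum fun j _ => ?_
      rw [tot_sum _ fun k _ => Mass_fs _]
      refine Finset.sum_le_sum fun k _ => ?_
      rw [Mass_tot, ← map_sub]
      have := hC (β j - β k) K
      linarith

end BMF
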