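import Pool.Agent.Lib.MP_a325a5_ag.F.Anom
import Pool.Agent.Lib.MP_a325a5_ag.F.DegB
import Pool.Agent.Lib.MP_a325a5_ag.F.Mass
import Pool.Agent.Lib.MP_a325a5_ag.UL.Pts

/-! Bounded height implies bounded degree, outside the anomalous curves.

Proof.  `G` from `anom`.  The heights of the coordinates are at most some `B'` (`ht_mul_le`,
`ht_add_le`, `ht_sub_le`, `ht_bdd`).  Apply `degree_bound2` with `B'` and `C1 = 2` to `P = x`:
`mrk x = mr x` (the same definition) is at most `2`, and it is not at most `1`: otherwise the first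
three coordinates would satisfy two independent relations (`hc`).  The degree bound is `anom`
(`l1 a = ∑ |a i|`).  `finrank L K ≤ finrank ℚ K`. -/

open NumberField Polynomial Polynomial.Bivariate Pool.Agent.Lib.MP_a325a5_ag.UL

namespace BMF

/-- two independent integer vectors orthogonal to a given one -/
private theorem BH_orth (M : ℤ) (hM : M ≠ 0) (q : Fin 3 → ℤ) :
    ∃ a b : Fin 3 → ℤ, LinearIndependent ℤ ![a, b] ∧ ∑ j, a j * q j = 0 ∧ ∑ j, b j * q j = 0 ∧
      (∀ j, M ∣ a j) ∧ ∀ j, M ∣ b j := by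
  have key : ∀ a b : Fin 3 → ℤ, ∀ i j : Fin 3, a i * b j - a j * b i ≠ 0 →
      LinearIndependent ℤ ![a, b] := by
    intro a b i j h
    rw [LinearIndependent.pair_iff]
    intro s t hst
    have hi : s * a i + t * b i = 0 := by simpa using congrFun hst i
    have hj : s * a j + t * b j = 0 := by simpa using congrFun hst j
    constructor
    · have h1 : s * (a i * b j - a j * b i) = 0 := by linear_combination b j * hi - b i * hj
      exact (mul_eq_zero.1 h1).resolve_right h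
    · have h1 : t * (a i * b j - a j * b i) = 0 := by linear_combination a i * hj - a j * hi
      exact (mul_eq_zero.1 h1).resolve_right h
  by_cases h0 : q 0 ≠ 0
  · refine ⟨![M * q 1, -(M * q 0), 0], ![M * q 2, 0, -(M * q 0)], key _ _ 1 2 ?_, ?_, ?_, ?_, ?_⟩
    · simp [hM, h0]
    · simp [Fin.sum_univ_three]; ring
    · simp [Fin.sum_univ_three]; ring
    · intro j; fin_cases j <;> simp
    · intro j; fin_cases j <;> simp
  by_cases h1 : q 1 ≠ 0
  · refine ⟨![M * q 1, -(M * q 0), 0], ![0, M * q 2, -(M * q 1)], key _ _ 0 2 ?_, ?_, ?_, ?_, ?_⟩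
    · simp [hM, h1]
    · simp [Fin.sum_univ_three]; ring
    · simp [Fin.sum_univ_three]; ring
    · intro j; fin_cases j <;> simp
    · intro j; fin_cases j <;> simp
  push Not at h0 h1
  refine ⟨![M, 0, 0], ![0, M, 0], key _ _ 0 1 ?_, ?_, ?_, ?_, ?_⟩
  · simp [hM]
  · simp [Fin.sum_univ_three, h0]
  · simp [Fin.sum_univ_three, h1]
  · intro j; fin_cases j <;> simp
  · intro j; fin_cases j <;> simp

private theorem BH_rank {K : Type} [Field K] [NumberField K] (x : Fin 5 → Kˣ)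
    (h : mrk x ≤ 1) : ∃ a b : Fin 3 → ℤ, LinearIndependent ℤ ![a, b] ∧
      ∏ j : Fin 3, x (Fin.castAdd 2 j) ^ a j = 1 ∧
      ∏ j : Fin 3, x (Fin.castAdd 2 j) ^ b j = 1 := by
  obtain ⟨M, ζ, e, t, p, hM, hζ, hx, -⟩ := coords1 x h
  obtain ⟨a, b, hab, ha, hb, haM, hbM⟩ :=
    BH_orth M (by exact_mod_cast hM.ne') (fun j => p (Fin.castAdd 2 j))
  have key : ∀ c : Fin 3 → ℤ, ∑ j, c j * p (Fin.castAdd 2 j) = 0 → (∀ j, (M : ℤ) ∣ c j) →
      ∏ j : Fin 3, x (Fin.castAdd 2 j) ^ c j = 1 := by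
    intro c hc hcM
    have h1 : ∀ j : Fin 3, x (Fin.castAdd 2 j) ^ c j = e ^ (c j * p (Fin.castAdd 2 j)) := by
      intro j
      obtain ⟨d, hd⟩ := hcM j
      rw [hx, mul_zpow]
      have h2 : (ζ ^ t (Fin.castAdd 2 j)) ^ c j = 1 := by
        rw [hd, ← zpow_natCast, ← zpow_mul,
          show (t (Fin.castAdd 2 j) : ℤ) * ((M : ℤ) * d) = (M : ℤ) * (t (Fin.castAdd 2 j) * d) by
            ring, zpow_mul, zpow_natCast, hζ.pow_eq_one, one_zpow]
      rw [h2, one_mul, ← zpow_mul, mul_comm]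
    rw [Finset.prod_congr rfl fun j _ => h1 j]
    rw [Fin.prod_univ_three, ← zpow_add, ← zpow_add]
    rw [Fin.sum_univ_three] at hc
    rw [hc, zpow_zero]
  exact ⟨a, b, hab, key a ha haM, key b hb hbM⟩

theorem bh {L : Type} [Field L] [NumberField L] (α γ : Fin 3 → L) (r p : L)
    (hα : Function.Injective α) (hγ : ∀ j, γ j ≠ 0) (hr : r ≠ 0) (hp : p ≠ 0) :
    ∃ G : L[X][Y], G ≠ 0 ∧ ∀ B : ℝ, ∃ D₂ : ℕ, ∀ (K : Type) [Field K] [NumberField K]
      [Algebra L K] (t s : K), IntermediateField.adjoin L {t, s} = ⊤ →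
      ∀ (x : Fin 5 → Kˣ), (∀ i, (x i : K) = cv α γ r p t s i) → mr x ≤ 2 →
      (∀ a b : Fin 3 → ℤ, LinearIndependent ℤ ![a, b] →
        ¬ (∏ j : Fin 3, x (Fin.castAdd 2 j) ^ a j = 1 ∧
          ∏ j : Fin 3, x (Fin.castAdd 2 j) ^ b j = 1)) →
      ht t ≤ B → ht s ≤ B → aevalAeval t s G ≠ 0 → Module.finrank L K ≤ D₂ := by
  obtain ⟨G, hG, hG2⟩ := anom α γ r p hα hγ hr hp
  refine ⟨G, hG, fun B => ?_⟩
  choose C hC0 hC using fun x : L => ht_bdd x
  set B' : ℝ := ∑ j, C (γ j) + ∑ j, C (α j) + C r + C p + |B| + Real.log 2 with hB'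
  obtain ⟨D2, hD2⟩ := degree_bound2 L B' 2
  refine ⟨D2, ?_⟩
  intro K _ _ _ t s hadj x hx hmr hc ht1 ht2 hGts
  have hprod : ∀ a : Fin 5 → ℤ, ∏ i, x i ^ a i = 1 → ∏ i, cv α γ r p t s i ^ a i = 1 := by
    intro a ha
    have := congrArg (Units.val) ha
    push_cast at this
    rw [← this]
    exact Finset.prod_congr rfl fun i _ => by rw [hx i]
  have hcv : ∀ i, cv α γ r p t s i ≠ 0 := fun i => by
    rw [← hx i]
    exact (x i).ne_zero
  have hc' : ∀ a b : Fin 3 → ℤ, LinearIndependent ℤ ![a, b] →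
      ¬ (∏ j : Fin 3, cv α γ r p t s (Fin.castAdd 2 j) ^ a j = 1 ∧
        ∏ j : Fin 3, cv α γ r p t s (Fin.castAdd 2 j) ^ b j = 1) := by
    intro a b hab h
    have hu : ∀ c : Fin 3 → ℤ, ∏ j : Fin 3, cv α γ r p t s (Fin.castAdd 2 j) ^ c j = 1 →
        ∏ j : Fin 3, x (Fin.castAdd 2 j) ^ c j = 1 := by
      intro c h
      apply Units.ext
      push_cast
      rw [← h]
      exact Finset.prod_congr rfl fun i _ => by rw [hx]
    exact hc a b hab ⟨hu a h.1, hu b h.2⟩
  have hlog : 0 ≤ Real.log 2 := Real.log_nonneg (by norm_num)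
  have hBa : B ≤ |B| := le_abs_self B
  have s1 : ∀ j, C (γ j) ≤ ∑ j, C (γ j) := fun j =>
    Finset.single_le_sum (f := fun j => C (γ j)) (fun _ _ => hC0 _) (Finset.mem_univ j)
  have s2 : ∀ j, C (α j) ≤ ∑ j, C (α j) := fun j =>
    Finset.single_le_sum (f := fun j => C (α j)) (fun _ _ => hC0 _) (Finset.mem_univ j)
  have n1 : 0 ≤ ∑ j, C (γ j) := Finset.sum_nonneg fun _ _ => hC0 _
  have n2 : 0 ≤ ∑ j, C (α j) := Finset.sum_nonneg fun _ _ => hC0 _
  have hline : ∀ j, ht (algebraMap L K (γ j) * (t - algebraMap L K (α j))) ≤ B' := by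
    intro j
    have e1 := ht_mul_le (algebraMap L K (γ j)) (t - algebraMap L K (α j))
    have e2 := ht_sub_le t (algebraMap L K (α j))
    have e3 := hC (γ j) K
    have e4 := hC (α j) K
    have e5 := s1 j
    have e6 := s2 j
    have e7 := hC0 r
    have e8 := hC0 p
    rw [hB']
    linarith
  have hht : ∀ i, ht (x i : K) ≤ B' := by
    intro i
    rw [hx i]
    have e7 := hC0 r
    have e8 := hC0 p
    fin_cases i
    · exact hline 0
    · exact hline 1
    · exact hline 2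
    · show ht s ≤ B'
      rw [hB']
      linarith
    · show ht (algebraMap L K r * s + algebraMap L K p) ≤ B'
      have e1 := ht_add_le (algebraMap L K r * s) (algebraMap L K p)
      have e2 := ht_mul_le (algebraMap L K r) s
      have e3 := hC r K
      have e4 := hC p K
      rw [hB']
      linarith
  have hmrk : mrk x = 2 := by
    have h1 : mrk x = mr x := rfl
    by_contra h2
    have h3 : mrk x ≤ 1 := by omega
    obtain ⟨a, b, hab, ha, hb⟩ := BH_rank x h3
    exact hc a b hab ⟨ha, hb⟩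
  have hl1 : ∀ a : Fin 5 → ℤ, ((∑ i, |a i| : ℤ) : ℝ) = (l1 a : ℝ) := by
    intro a
    have h1 : (∑ i, |a i| : ℤ) = ((l1 a : ℕ) : ℤ) := by
      unfold l1
      push_cast
      rfl
    rw [h1]
    push_cast
    rfl
  have hfin := hD2 K x hht hmrk (by
    intro a a' haa ha ha'
    have h1 := hG2 K t s hadj hcv hc' hGts a a' haa (hprod a ha) (hprod a' ha')
    rw [hl1, hl1]
    exact_mod_cast h1)
  have htower : IsScalarTower ℚ L K := IsScalarTower.of_algebraMap_eq fun x => by simp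
  have h5 := Module.finrank_mul_finrank ℚ L K
  have h6 : 0 < Module.finrank ℚ L := Module.finrank_pos
  calc Module.finrank L K ≤ Module.finrank ℚ L * Module.finrank L K :=
        Nat.le_mul_of_pos_left _ h6
    _ = Module.finrank ℚ K := h5
    _ ≤ D2 := hfin

end BMF
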