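import Pool.Agent.Lib.MP_a325a5_ag.F.A4

open NumberField MvPolynomial

namespace BMF

/-- Bezout for a point: the degree of the field generated by a common zero of two coprime curves -/
theorem bez_field {L K : Type} [Field L] [Field K] [Algebra L K] {f h : P2 L} (hf : f ≠ 0)
    (hh : h ≠ 0) (hc : IsRelPrime f h) (z : Fin 2 → K)
    (hz : IntermediateField.adjoin L (Set.range z) = ⊤) (hal : ∀ i, IsAlgebraic L (z i))
    (h1 : aeval z f = 0) (h2 : aeval z h = 0) :
    Module.finrank L K ≤ f.degreeOf 0 * h.degreeOf 1 + f.degreeOf 1 * h.degreeOf 0 := by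
  have hsurj : Function.Surjective (aeval z : P2 L →ₐ[L] K) := by
    have hr : (aeval z : P2 L →ₐ[L] K).range = ⊤ := by
      rw [← Algebra.adjoin_range_eq_range_aeval]
      exact (IntermediateField.adjoin_eq_top_iff_of_isAlgebraic (by
          rintro _ ⟨i, rfl⟩
          exact hal i)).1 hz
    exact AlgHom.range_eq_top _ |>.1 hr
  let e : (P2 L ⧸ RingHom.ker (aeval z : P2 L →ₐ[L] K)) ≃ₐ[L] K :=
    Ideal.quotientKerAlgEquivOfSurjective hsurj
  have hfin : FiniteDimensional L K := by
    have h3 : FiniteDimensional L (IntermediateField.adjoin L (Set.range z)) :=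
      IntermediateField.finiteDimensional_adjoin (by
        rintro _ ⟨i, rfl⟩
        exact (hal i).isIntegral)
    rw [hz] at h3
    exact LinearEquiv.finiteDimensional (IntermediateField.topEquiv (F := L) (E := K)).toLinearEquiv
  have hmax : (RingHom.ker (aeval z : P2 L →ₐ[L] K)).IsMaximal :=
    RingHom.ker_isMaximal_of_surjective (aeval z : P2 L →ₐ[L] K).toRingHom hsurj
  have hb := bezout hf hh hc ({()} : Finset Unit)
    (fun _ => RingHom.ker (aeval z : P2 L →ₐ[L] K)) (fun _ _ => hmax)
    (fun _ _ => Module.Finite.equiv e.symm.toLinearEquiv)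
    (fun i _ j _ hij => absurd (Subsingleton.elim i j) hij)
    (fun _ _ => ⟨h1, h2⟩)
  rw [Finset.sum_singleton, e.toLinearEquiv.finrank_eq] at hb
  exact hb

end BMF
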