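import Pool.Agent.Lib.MP_a325a5_ag.F.Bez

/-! Bezout's theorem in the ring `L[X][Y]`.

Proofs.  `Bivariate.equivMvPolynomial` is an isomorphism of `L[X][Y]` with polynomials in two
variables (`X 0` the inner variable, `X 1` the outer one).  `aeval_equiv`: both sides are algebra
homomorphisms of `L[X][Y]`, equal on the variables.  `dX_equiv`, `dY_equiv`: write
`f = ∑ n, ∑ m, C (C a_{n m}) X^m Y^n`; the coefficient of the image at the exponent `(m, n)` is
`(f.coeff n).coeff m`; `degreeOf` is the supremum over the support.  `bez_deg`: `bez_field` for the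
images (`IsRelPrime` is preserved by a ring isomorphism; if `f = 0` then `g` is a unit and has no
zero); number fields: everything is algebraic. -/

open Polynomial Polynomial.Bivariate

namespace BMF

variable {L : Type} [Field L]

/-- the degree in the inner variable -/
noncomputable def dX (f : L[X][Y]) : ℕ := f.support.sup fun n => (f.coeff n).natDegree

/-- the degree in the outer variable -/
noncomputable def dY (f : L[X][Y]) : ℕ := f.natDegree

theorem aeval_equiv {K : Type} [Field K] [Algebra L K] (t s : K) (f : L[X][Y]) :
    MvPolynomial.aeval ![t, s] (equivMvPolynomial L f) = aevalAeval t s f := by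
  set φ : L[X][Y] →ₐ[L] K :=
    (MvPolynomial.aeval ![t, s]).comp (equivMvPolynomial L : L[X][Y] →ₐ[L] _) with hφ
  have h1 : φ = aevalAevalEquiv L K ((aevalAevalEquiv L K).symm φ) :=
    ((aevalAevalEquiv L K).apply_symm_apply φ).symm
  have h2 : (aevalAevalEquiv L K).symm φ = (t, s) := by
    have h3 : (aevalAevalEquiv L K).symm φ = (φ (C X), φ Y) := rfl
    rw [h3, hφ]
    simp
  rw [h2] at h1
  exact congrArg (fun ψ : L[X][Y] →ₐ[L] K => ψ f) h1

private theorem bezxy_coeff (f : L[X][Y]) (m : Fin 2 →₀ ℕ) :
    (equivMvPolynomial L f).coeff m = (f.coeff (m 1)).coeff (m 0) := by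
  induction f using Polynomial.induction_on' with
  | add f g hf hg => rw [map_add, MvPolynomial.coeff_add, hf, hg, coeff_add, coeff_add]
  | monomial n q =>
    induction q using Polynomial.induction_on' with
    | add f g hf hg =>
      rw [map_add, map_add, MvPolynomial.coeff_add, hf, hg, coeff_add, coeff_add]
    | monomial k a =>
      have h1 : equivMvPolynomial L (monomial n (monomial k a)) =
          MvPolynomial.monomial (Finsupp.single 0 k + Finsupp.single 1 n) a := by
        rw [← C_mul_X_pow_eq_monomial, ← C_mul_X_pow_eq_monomial]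
        simp only [map_mul, map_pow, equivMvPolynomial_C_C, equivMvPolynomial_C_X,
          equivMvPolynomial_X]
        rw [MvPolynomial.X_pow_eq_monomial, MvPolynomial.X_pow_eq_monomial,
          MvPolynomial.C_mul_monomial, MvPolynomial.monomial_mul]
        simp
      rw [h1, MvPolynomial.coeff_monomial, coeff_monomial]
      by_cases hn : n = m 1
      · rw [if_pos hn, coeff_monomial]
        by_cases hk : k = m 0
        · rw [if_pos hk, if_pos]
          ext i
          fin_cases i
          · simp [hk]
          · simp [hn]
        · rw [if_neg hk, if_neg]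
          intro h
          apply hk
          rw [← h]
          simp
      · rw [if_neg hn, if_neg]
        · simp
        · intro h
          apply hn
          rw [← h]
          simp

theorem dX_equiv (f : L[X][Y]) : (equivMvPolynomial L f).degreeOf 0 = dX f := by
  apply le_antisymm
  · rw [MvPolynomial.degreeOf_le_iff]
    intro m hm
    rw [MvPolynomial.mem_support_iff, bezxy_coeff] at hm
    have h1 : m 1 ∈ f.support := by
      rw [mem_support_iff]
      intro h
      rw [h, coeff_zero] at hm
      exact hm rfl
    exact (le_natDegree_of_ne_zero hm).trans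
      (Finset.le_sup (f := fun n => (f.coeff n).natDegree) h1)
  · unfold dX
    rw [Finset.sup_le_iff]
    intro n hn
    rw [mem_support_iff] at hn
    set m : Fin 2 →₀ ℕ := Finsupp.single 0 (f.coeff n).natDegree + Finsupp.single 1 n with hm
    have h0 : m 0 = (f.coeff n).natDegree := by rw [hm]; simp
    have h1 : m 1 = n := by rw [hm]; simp
    have h2 : m ∈ (equivMvPolynomial L f).support := by
      rw [MvPolynomial.mem_support_iff, bezxy_coeff, h0, h1]
      exact leadingCoeff_ne_zero.mpr hn
    rw [← h0]
    exact MvPolynomial.monomial_le_degreeOf 0 h2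

theorem dY_equiv (f : L[X][Y]) : (equivMvPolynomial L f).degreeOf 1 = dY f := by
  apply le_antisymm
  · rw [MvPolynomial.degreeOf_le_iff]
    intro m hm
    rw [MvPolynomial.mem_support_iff, bezxy_coeff] at hm
    unfold dY
    apply le_natDegree_of_ne_zero
    intro h
    rw [h, coeff_zero] at hm
    exact hm rfl
  · unfold dY
    by_cases hf : f = 0
    · rw [hf]
      simp
    set m : Fin 2 →₀ ℕ := Finsupp.single 0 (f.coeff f.natDegree).natDegree +
      Finsupp.single 1 f.natDegree with hm
    have h0 : m 0 = (f.coeff f.natDegree).natDegree := by rw [hm]; simp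
    have h1 : m 1 = f.natDegree := by rw [hm]; simp
    have h2 : m ∈ (equivMvPolynomial L f).support := by
      rw [MvPolynomial.mem_support_iff, bezxy_coeff, h0, h1]
      exact leadingCoeff_ne_zero.mpr (leadingCoeff_ne_zero.mpr hf)
    rw [← h1]
    exact MvPolynomial.monomial_le_degreeOf 1 h2

private theorem bezxy_unit {K : Type} [Field K] [Algebra L K] (g : L[X][Y]) (t s : K)
    (h : IsRelPrime 0 g) (hg : aevalAeval t s g = 0) : False := by
  have h1 : IsUnit g := h (dvd_zero g) dvd_rfl
  have h2 : IsUnit (aevalAeval t s g) := h1.map (aevalAeval t s)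
  rw [hg] at h2
  exact not_isUnit_zero h2

theorem bez_deg {K : Type} [Field K] [NumberField K] [NumberField L] [Algebra L K] (f g : L[X][Y])
    (h : IsRelPrime f g) (t s : K) (hadj : IntermediateField.adjoin L {t, s} = ⊤)
    (hf : aevalAeval t s f = 0) (hg : aevalAeval t s g = 0) :
    Module.finrank L K ≤ dX f * dY g + dX g * dY f := by
  by_cases hf0 : f = 0
  · exfalso
    rw [hf0] at h
    exact bezxy_unit g t s h hg
  by_cases hg0 : g = 0
  · exfalso
    rw [hg0] at h
    exact bezxy_unit f t s h.symm hf
  have hinj := (equivMvPolynomial L).injective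
  have hrel : IsRelPrime (equivMvPolynomial L f) (equivMvPolynomial L g) := by
    intro d hd1 hd2
    have h1 : (equivMvPolynomial L).symm d ∣ f := by
      have := map_dvd (equivMvPolynomial L).symm hd1
      rwa [AlgEquiv.symm_apply_apply] at this
    have h2 : (equivMvPolynomial L).symm d ∣ g := by
      have := map_dvd (equivMvPolynomial L).symm hd2
      rwa [AlgEquiv.symm_apply_apply] at this
    have h3 := (h h1 h2).map (equivMvPolynomial L)
    rwa [AlgEquiv.apply_symm_apply] at h3
  have hal : Algebra.IsAlgebraic L K := Algebra.IsAlgebraic.tower_top (K := ℚ) L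
  have hrange : Set.range ![t, s] = {t, s} := by
    ext x
    simp only [Set.mem_range, Fin.exists_fin_two, Matrix.cons_val_zero, Matrix.cons_val_one,
      Set.mem_insert_iff, Set.mem_singleton_iff]
    constructor
    · rintro (h1 | h1)
      · left; exact h1.symm
      · right; exact h1.symm
    · rintro (h1 | h1)
      · left; exact h1.symm
      · right; exact h1.symm
  have h1 := bez_field (L := L) (K := K) (f := equivMvPolynomial L f) (h := equivMvPolynomial L g)
    (by rw [Ne, map_eq_zero_iff _ hinj]; exact hf0) (by rw [Ne, map_eq_zero_iff _ hinj]; exact hg0)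
    hrel ![t, s] (by rw [hrange]; exact hadj) (fun i => hal.isAlgebraic _)
    (by rw [aeval_equiv]; exact hf) (by rw [aeval_equiv]; exact hg)
  rw [dX_equiv, dX_equiv, dY_equiv, dY_equiv] at h1
  refine h1.trans (le_of_eq ?_)
  ring

end BMF
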