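import Pool.Agent.Lib.MP_a325a5_ag.F.C1
import Pool.Agent.Lib.MP_a325a5_ag.F.C2
import Pool.Agent.Lib.MP_a325a5_ag.F.A2

open NumberField MvPolynomial

namespace BMF

/-! Hasse derivatives and homogenised evaluation. -/

section hasse

variable {R : Type} [CommRing R]

/-- an exponent vector -/
private noncomputable def exf (i : Fin 2 → ℕ) : Fin 2 →₀ ℕ := Finsupp.equivFunOnFinite.symm i

@[simp] private theorem exf_apply (i : Fin 2 → ℕ) (j : Fin 2) : exf i j = i j := rfl

/-- Hasse derivative -/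
private noncomputable def hs (i : Fin 2 → ℕ) : P2 R →ₗ[R] P2 R :=
  (basisMonomials (Fin 2) R).constr R
    (fun m => monomial (m - exf i) (((m 0).choose (i 0) : R) * ((m 1).choose (i 1) : R)))

private theorem hs_monomial (i : Fin 2 → ℕ) (m : Fin 2 →₀ ℕ) (a : R) :
    hs i (monomial m a) =
      monomial (m - exf i) (a * (((m 0).choose (i 0) : R) * ((m 1).choose (i 1) : R))) := by
  have h1 : (monomial m a : P2 R) = a • (basisMonomials (Fin 2) R) m := by
    rw [coe_basisMonomials, smul_monomial, smul_eq_mul, mul_one]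
  rw [h1, map_smul, hs, Module.Basis.constr_basis, smul_monomial, smul_eq_mul]

private theorem eval_monomial2 (z : Fin 2 → R) (m : Fin 2 →₀ ℕ) (a : R) :
    eval z (monomial m a) = a * (z 0 ^ m 0 * z 1 ^ m 1) := by
  rw [eval_monomial, Finsupp.prod_fintype _ _ (fun i => pow_zero _), Fin.prod_univ_two]

private theorem eval_hs_monomial (z : Fin 2 → R) (i : Fin 2 → ℕ) (m : Fin 2 →₀ ℕ) (a : R) :
    eval z (hs i (monomial m a)) =
      a * ((((m 0).choose (i 0) : R) * z 0 ^ (m 0 - i 0)) *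
        (((m 1).choose (i 1) : R) * z 1 ^ (m 1 - i 1))) := by
  rw [hs_monomial, eval_monomial2]
  simp only [Finsupp.coe_tsub, Pi.sub_apply, exf_apply]
  ring

private theorem hs_comp (i j : Fin 2 → ℕ) (G : P2 R) :
    hs j (hs i G) =
      (((i 0 + j 0).choose (i 0) * (i 1 + j 1).choose (i 1) : ℕ) : R) • hs (i + j) G := by
  induction G using MvPolynomial.induction_on' with
  | monomial m a =>
    rw [hs_monomial, hs_monomial, hs_monomial, smul_monomial, smul_eq_mul]
    have e1 : m - exf i - exf j = m - exf (i + j) := by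
      ext q
      simp [Nat.sub_sub]
    have e2 : ∀ q : Fin 2, ((m q).choose (i q) * (m q - i q).choose (j q) : ℕ) =
        (i q + j q).choose (i q) * (m q).choose (i q + j q) := by
      intro q
      have := Nat.choose_mul (n := m q) (k := i q + j q) (s := i q) (Nat.le_add_right _ _)
      rw [Nat.add_sub_cancel_left] at this
      rw [← this, mul_comm]
    rw [e1]
    congr 1
    simp only [Finsupp.coe_tsub, Pi.sub_apply, exf_apply, Pi.add_apply]
    have h0 := congrArg (Nat.cast (R := R)) (e2 0)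
    have h1 := congrArg (Nat.cast (R := R)) (e2 1)
    push_cast at h0 h1 ⊢
    linear_combination a * (((m 1).choose (i 1) : R) * ((m 1 - i 1).choose (j 1) : R)) * h0 +
      a * (((i 0 + j 0).choose (i 0) : R) * ((m 0).choose (i 0 + j 0) : R)) * h1
  | add f g hf hg =>
    rw [map_add, map_add, hf, hg, map_add, smul_add]

private theorem hs_map {S : Type} [CommRing S] (f : R →+* S) (i : Fin 2 → ℕ) (G : P2 R) :
    hs i (MvPolynomial.map f G) = MvPolynomial.map f (hs i G) := by
  induction G using MvPolynomial.induction_on' with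
  | monomial m a =>
    rw [hs_monomial, map_monomial, map_monomial, hs_monomial]
    simp
  | add p q hp hq => rw [map_add, map_add, map_add, map_add, hp, hq]

/-- homogenised evaluation -/
private noncomputable def hev (L : Fin 2 → ℕ) (b s : Fin 2 → R) : P2 R →ₗ[R] R :=
  (basisMonomials (Fin 2) R).constr R
    (fun m => (b 0 ^ m 0 * s 0 ^ (L 0 - m 0)) * (b 1 ^ m 1 * s 1 ^ (L 1 - m 1)))

private theorem hev_monomial (L : Fin 2 → ℕ) (b s : Fin 2 → R) (m : Fin 2 →₀ ℕ) (a : R) :
    hev L b s (monomial m a) =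
      a * ((b 0 ^ m 0 * s 0 ^ (L 0 - m 0)) * (b 1 ^ m 1 * s 1 ^ (L 1 - m 1))) := by
  have h1 : (monomial m a : P2 R) = a • (basisMonomials (Fin 2) R) m := by
    rw [coe_basisMonomials, smul_monomial, smul_eq_mul, mul_one]
  rw [h1, map_smul, hev, Module.Basis.constr_basis, smul_eq_mul]

private theorem hev_map {S : Type} [CommRing S] (f : R →+* S) (L : Fin 2 → ℕ) (b s : Fin 2 → R)
    (G : P2 R) :
    hev L (fun j => f (b j)) (fun j => f (s j)) (MvPolynomial.map f G) = f (hev L b s G) := by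
  induction G using MvPolynomial.induction_on' with
  | monomial m a =>
    rw [map_monomial, hev_monomial, hev_monomial]
    simp
  | add p q hp hq => rw [map_add, map_add, map_add, map_add, hp, hq]

/-- bounded exponents -/
private def Bd (L : Fin 2 → ℕ) (G : P2 R) : Prop := ∀ m ∈ G.support, ∀ j, m j ≤ L j

private theorem exists_bd (G : P2 R) : Bd (fun j => G.degreeOf j) G := fun _ hm j =>
  monomial_le_degreeOf j hm

private theorem bd_ext {M : Type} [AddCommMonoid M] (L : Fin 2 → ℕ) (F H : P2 R →+ M)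
    (h : ∀ m : Fin 2 →₀ ℕ, (∀ j, m j ≤ L j) → ∀ a : R, F (monomial m a) = H (monomial m a))
    {G : P2 R} (hG : Bd L G) : F G = H G := by
  rw [G.as_sum, map_sum, map_sum]
  exact Finset.sum_congr rfl fun m hm => h m (hG m hm) _

/-- one variable Taylor formula -/
private theorem taylor_one (z s n : R) (m L : ℕ) (h : m ≤ L) :
    (z * s + n) ^ m * s ^ (L - m) =
      ∑ i ∈ Finset.range (L + 1), ((m.choose i : R) * z ^ (m - i)) * (s ^ (L - i) * n ^ i) := by
  have h1 : ∑ i ∈ Finset.range (L + 1), ((m.choose i : R) * z ^ (m - i)) * (s ^ (L - i) * n ^ i)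
      = ∑ i ∈ Finset.range (m + 1),
        ((m.choose i : R) * z ^ (m - i)) * (s ^ (L - i) * n ^ i) := by
    symm
    apply Finset.sum_subset
    · intro i hi
      rw [Finset.mem_range] at hi ⊢
      omega
    · intro i _ hi
      rw [Finset.mem_range, not_lt] at hi
      rw [Nat.choose_eq_zero_of_lt (by omega)]
      simp
  rw [h1, add_comm (z * s) n, add_pow, Finset.sum_mul]
  refine Finset.sum_congr rfl fun i hi => ?_
  rw [Finset.mem_range] at hi
  have h2 : L - i = (m - i) + (L - m) := by omega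
  rw [h2, pow_add, mul_pow]
  ring

/-- Taylor formula -/
private theorem hev_taylor (L : Fin 2 → ℕ) (z s n : Fin 2 → R) {G : P2 R} (hG : Bd L G) :
    hev L (fun j => z j * s j + n j) s G =
      ∑ a ∈ Finset.range (L 0 + 1), ∑ b ∈ Finset.range (L 1 + 1),
        eval z (hs ![a, b] G) * ((s 0 ^ (L 0 - a) * n 0 ^ a) * (s 1 ^ (L 1 - b) * n 1 ^ b)) := by
  let H : P2 R →+ R := ∑ a ∈ Finset.range (L 0 + 1), ∑ b ∈ Finset.range (L 1 + 1),
    (AddMonoidHom.mulRight ((s 0 ^ (L 0 - a) * n 0 ^ a) * (s 1 ^ (L 1 - b) * n 1 ^ b))).comp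
      ((eval z : P2 R →+* R).toAddMonoidHom.comp (hs ![a, b]).toAddMonoidHom)
  have hH : ∀ G, H G = ∑ a ∈ Finset.range (L 0 + 1), ∑ b ∈ Finset.range (L 1 + 1),
        eval z (hs ![a, b] G) * ((s 0 ^ (L 0 - a) * n 0 ^ a) * (s 1 ^ (L 1 - b) * n 1 ^ b)) := by
    intro G
    simp only [H, AddMonoidHom.finsetSum_apply]
    rfl
  rw [← hH]
  refine bd_ext L (hev L (fun j => z j * s j + n j) s).toAddMonoidHom H ?_ hG
  intro m hm a
  rw [hH]
  change hev L (fun j => z j * s j + n j) s (monomial m a) = _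
  rw [hev_monomial, taylor_one _ _ _ _ _ (hm 0), taylor_one _ _ _ _ _ (hm 1),
    Finset.sum_mul_sum, Finset.mul_sum]
  refine Finset.sum_congr rfl fun i _ => ?_
  rw [Finset.mul_sum]
  refine Finset.sum_congr rfl fun j _ => ?_
  rw [eval_hs_monomial]
  simp only [Matrix.cons_val_zero, Matrix.cons_val_one]
  ring

/-- evaluation as a homogenised evaluation -/
private theorem hev_one (L : Fin 2 → ℕ) (z : Fin 2 → R) (G : P2 R) :
    hev L z (fun _ => 1) G = eval z G := by
  induction G using MvPolynomial.induction_on' with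
  | monomial m a => rw [hev_monomial, eval_monomial2]; simp
  | add p q hp hq => rw [map_add, map_add, hp, hq]

private theorem hev_field {F : Type} [Field F] (L : Fin 2 → ℕ) (b s : Fin 2 → F)
    (hs0 : ∀ j, s j ≠ 0) {G : P2 F} (hG : Bd L G) :
    hev L b s G = (s 0 ^ L 0 * s 1 ^ L 1) * eval (fun j => b j / s j) G := by
  refine bd_ext L (hev L b s).toAddMonoidHom ((AddMonoidHom.mulLeft (s 0 ^ L 0 * s 1 ^ L 1)).comp
    ((eval (fun j => b j / s j) : P2 F →+* F).toAddMonoidHom)) ?_ hG
  intro m hm a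
  change hev L b s (monomial m a) = (s 0 ^ L 0 * s 1 ^ L 1) *
    eval (fun j => b j / s j) (monomial m a)
  rw [hev_monomial, eval_monomial2]
  have e : ∀ j, b j ^ m j * s j ^ (L j - m j) = s j ^ L j * (b j / s j) ^ m j := by
    intro j
    have h1 : s j ^ L j = s j ^ m j * s j ^ (L j - m j) := by
      rw [← pow_add, Nat.add_sub_cancel' (hm j)]
    have h2 : s j ^ m j ≠ 0 := pow_ne_zero _ (hs0 j)
    rw [h1, div_pow]
    field_simp
  rw [e 0, e 1]
  ring

/-- relation of the two kinds of derivatives -/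
private theorem eval_hd_eq {F : Type} [Field F] (z : Fin 2 → F) (i : Fin 2 → ℕ) (G : P2 F) :
    eval z (hd i G) = (z 0 ^ i 0 * z 1 ^ i 1) * eval z (hs i G) := by
  induction G using MvPolynomial.induction_on' with
  | monomial m a =>
    have h1 : (monomial m a : P2 F) = a • (basisMonomials (Fin 2) F) m := by
      rw [coe_basisMonomials, smul_monomial, smul_eq_mul, mul_one]
    have h2 : hd i (monomial m a : P2 F) =
        monomial m (a * (((m 0).choose (i 0) : F) * ((m 1).choose (i 1) : F))) := by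
      rw [h1, map_smul, hd, Module.Basis.constr_basis, smul_monomial, smul_eq_mul]
    rw [h2, eval_monomial2, eval_hs_monomial]
    have e : ∀ j, ((m j).choose (i j) : F) * z j ^ m j =
        z j ^ i j * (((m j).choose (i j) : F) * z j ^ (m j - i j)) := by
      intro j
      rcases Nat.lt_or_ge (m j) (i j) with h | h
      · rw [Nat.choose_eq_zero_of_lt h]
        simp
      · have h1 : z j ^ m j = z j ^ i j * z j ^ (m j - i j) := by
          rw [← pow_add, Nat.add_sub_cancel' h]
        rw [h1]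
        ring
    linear_combination a * ((m 1).choose (i 1) : F) * z 1 ^ m 1 * e 0 +
      a * (z 0 ^ i 0 * (((m 0).choose (i 0) : F) * z 0 ^ (m 0 - i 0))) * e 1
  | add p q hp hq => rw [map_add, map_add, hp, hq, map_add, map_add, mul_add]

end hasse

/-! Divisibility by a power of the minimal polynomial. -/

section minp

open Polynomial in
private theorem minpoly_pow_dvd {k K : Type} [Field k] [CharZero k] [Field K] [Algebra k K]
    {θ : K} (hθ : IsIntegral k θ) (T : ℕ) :
    ∀ H : Polynomial k, (Polynomial.X - Polynomial.C θ) ^ T ∣ H.map (algebraMap k K) →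
      (minpoly k θ) ^ T ∣ H := by
  induction T with
  | zero => intro H _; simp
  | succ T ih =>
    intro H hH
    have hroot : Polynomial.aeval θ H = 0 := by
      have h1 : (Polynomial.X - Polynomial.C θ) ∣ H.map (algebraMap k K) :=
        (dvd_pow_self _ (Nat.succ_ne_zero T)).trans hH
      rw [Polynomial.dvd_iff_isRoot, Polynomial.IsRoot.def, Polynomial.eval_map_algebraMap] at h1
      exact h1
    obtain ⟨H1, rfl⟩ := minpoly.dvd k θ hroot
    obtain ⟨e, he⟩ : (Polynomial.X - Polynomial.C θ) ∣ (minpoly k θ).map (algebraMap k K) := by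
      rw [Polynomial.dvd_iff_isRoot, Polynomial.IsRoot.def, Polynomial.eval_map_algebraMap]
      exact minpoly.aeval k θ
    have he0 : e.eval θ ≠ 0 := by
      have hsep : (minpoly k θ).Separable := (minpoly.irreducible hθ).separable
      have h1 := hsep.aeval_derivative_ne_zero (minpoly.aeval k θ)
      intro h2
      apply h1
      rw [← Polynomial.eval_map_algebraMap, ← Polynomial.derivative_map, he,
        Polynomial.derivative_mul]
      simp [h2]
    rw [Polynomial.map_mul, he, pow_succ, mul_comm ((Polynomial.X - Polynomial.C θ) ^ T),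
      mul_assoc] at hH
    have hne : (Polynomial.X - Polynomial.C θ) ≠ 0 := Polynomial.X_sub_C_ne_zero θ
    have h3 := (mul_dvd_mul_iff_left hne).mp hH
    have hcop : IsCoprime ((Polynomial.X - Polynomial.C θ) ^ T) e := by
      apply IsCoprime.pow_left
      apply (Polynomial.irreducible_X_sub_C θ).coprime_iff_not_dvd.mpr
      rw [Polynomial.dvd_iff_isRoot]
      exact he0
    have h4 := hcop.dvd_of_dvd_mul_left h3
    rw [pow_succ, mul_comm]
    exact mul_dvd_mul_left _ (ih H1 h4)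

end minp

section nf

variable {M : ℕ} {k K : Type} [Field k] [NumberField k] [Field K] [NumberField K] [Algebra k K]

private theorem w_int (w : FinitePlace K) {x : K} (hx : IsIntegral ℤ x) : w x ≤ 1 := by
  rw [← FinitePlace.norm_embedding_eq]
  exact FinitePlace.norm_le_one K w.maximalIdeal (⟨x, hx⟩ : 𝓞 K)

private theorem w_sum (w : FinitePlace K) {ι : Type} (s : Finset ι) (f : ι → K) {B : ℝ}
    (hB : 0 ≤ B) (h : ∀ i ∈ s, w (f i) ≤ B) : w (∑ i ∈ s, f i) ≤ B := by
  classical
  induction s using Finset.induction_on with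
  | empty => simpa using hB
  | insert a s ha ih =>
    rw [Finset.sum_insert ha]
    exact (FinitePlace.add_le w _ _).trans (max_le (h a (Finset.mem_insert_self _ _))
      (ih fun i hi => h i (Finset.mem_insert_of_mem hi)))

private theorem w_sub (w : FinitePlace K) (x y : K) : w (x - y) ≤ max (w x) (w y) := by
  have h := FinitePlace.add_le w x (-y)
  rw [← sub_eq_add_neg] at h
  have h2 : w (-y) = w y := by
    change w.val (-y) = w.val y
    exact w.val.map_neg y
  rwa [h2] at h

/-- embedding of coefficients -/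
private noncomputable def em (K : Type) [Field K] [Algebra k K] (φ : k →+* k) : 𝓞 k →+* K :=
  (algebraMap k K).comp (φ.comp (algebraMap (𝓞 k) k))

/-- specialisation -/
private noncomputable def sp (φ : k →+* k) (t : K) : Polynomial (𝓞 k) →+* K :=
  Polynomial.eval₂RingHom (em K φ) t

omit [NumberField k] [NumberField K] in
private theorem sp_C (φ : k →+* k) (t : K) (c : 𝓞 k) :
    sp φ t (Polynomial.C c) = algebraMap k K (φ (c : k)) := by
  unfold sp
  rw [Polynomial.coe_eval₂RingHom, Polynomial.eval₂_C]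
  rfl

omit [NumberField k] [NumberField K] in
private theorem sp_X (φ : k →+* k) (t : K) : sp φ t Polynomial.X = t := by
  unfold sp
  rw [Polynomial.coe_eval₂RingHom, Polynomial.eval₂_X]

omit [NumberField k] [NumberField K] in
private theorem sp_int (φ : k →+* k) {t : K} (ht : IsIntegral ℤ t) (a : Polynomial (𝓞 k)) :
    IsIntegral ℤ (sp φ t a) := by
  induction a using Polynomial.induction_on' with
  | add p q hp hq => rw [map_add]; exact hp.add hq
  | monomial n c =>
    rw [← Polynomial.C_mul_X_pow_eq_monomial, map_mul, map_pow, sp_X, sp_C]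
    exact (map_isIntegral_int (algebraMap k K)
      (map_isIntegral_int φ (RingOfIntegers.isIntegral_coe c))).mul (ht.pow n)

private theorem sp_congr (Z : Cyc M k) {p : ℕ} (hp : p.Prime) (hpM : ¬ p ∣ M) {θ : K}
    (hθ : IsIntegral ℤ θ) (a : Polynomial (𝓞 k)) :
    ∃ y : K, IsIntegral ℤ y ∧ sp (Z.fr p) (θ ^ p) a = sp (RingHom.id k) θ a ^ p + p * y := by
  have hmul : ∀ a b : Polynomial (𝓞 k),
      (∃ y : K, IsIntegral ℤ y ∧ sp (Z.fr p) (θ ^ p) a = sp (RingHom.id k) θ a ^ p + p * y) →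
      (∃ y : K, IsIntegral ℤ y ∧ sp (Z.fr p) (θ ^ p) b = sp (RingHom.id k) θ b ^ p + p * y) →
      (∃ y : K, IsIntegral ℤ y ∧
        sp (Z.fr p) (θ ^ p) (a * b) = sp (RingHom.id k) θ (a * b) ^ p + p * y) := by
    rintro a b ⟨y, hy, ha⟩ ⟨x, hx, hb⟩
    have hia := sp_int (RingHom.id k) hθ a
    have hib := sp_int (RingHom.id k) hθ b
    refine ⟨sp (RingHom.id k) θ a ^ p * x + y * sp (RingHom.id k) θ b ^ p + p * y * x, ?_, ?_⟩
    · exact (((hia.pow p).mul hx).add (hy.mul (hib.pow p))).add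
        ((((isIntegral_algebraMap (R := ℤ) (A := K) (x := (p : ℤ))) |> fun h => by
          simpa using h : IsIntegral ℤ (p : K)).mul hy).mul hx)
    · rw [map_mul, map_mul, ha, hb]
      ring
  have hX : ∃ y : K, IsIntegral ℤ y ∧
      sp (Z.fr p) (θ ^ p) Polynomial.X = sp (RingHom.id k) θ Polynomial.X ^ p + p * y :=
    ⟨0, isIntegral_zero, by rw [sp_X, sp_X]; ring⟩
  induction a using Polynomial.induction_on with
  | C c =>
    obtain ⟨y, hy, h⟩ := frob_congr Z hp hpM (RingOfIntegers.isIntegral_coe c)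
    refine ⟨algebraMap k K y, map_isIntegral_int _ hy, ?_⟩
    rw [sp_C, sp_C, h]
    simp
  | add a b ha hb =>
    obtain ⟨y, hy, ha⟩ := ha
    obtain ⟨x, hx, hb⟩ := hb
    set A : 𝓞 K := ⟨sp (RingHom.id k) θ a, sp_int (RingHom.id k) hθ a⟩ with hA
    set B : 𝓞 K := ⟨sp (RingHom.id k) θ b, sp_int (RingHom.id k) hθ b⟩ with hB
    obtain ⟨r, hr⟩ := exists_add_pow_prime_eq hp A B
    have hr' := congrArg (fun x : 𝓞 K => (x : K)) hr
    simp only [map_add, map_pow, map_mul, map_natCast] at hr'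
    have hAv : algebraMap (𝓞 K) K A = sp (RingHom.id k) θ a := rfl
    have hBv : algebraMap (𝓞 K) K B = sp (RingHom.id k) θ b := rfl
    rw [hAv, hBv] at hr'
    refine ⟨y + x - algebraMap (𝓞 K) K (A * B * r), ?_, ?_⟩
    · exact (hy.add hx).sub (RingOfIntegers.isIntegral_coe _)
    · rw [map_add, map_add, ha, hb, hr']
      simp only [map_mul]
      rw [hAv, hBv]
      ring
  | monomial n a h =>
    rw [pow_succ, ← mul_assoc]
    exact hmul _ _ h hX

private theorem eval_map' {R S : Type} [CommRing R] [CommRing S] (f : R →+* S) (z : Fin 2 → R)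
    (G : P2 R) : eval (fun j => f (z j)) (MvPolynomial.map f G) = f (eval z G) := by
  have h := hev_map f (fun _ => 0) z (fun _ => 1) G
  rw [hev_one] at h
  rw [← h, ← hev_one (fun _ => 0)]
  simp

private theorem w_sp_eq_one (Z : Cyc M k) {p : ℕ} (hp : p.Prime) (hpM : ¬ p ∣ M)
    (w : FinitePlace K) (hw : w (p : K) < 1) {θ : K} (hθ : IsIntegral ℤ θ)
    (s : Polynomial (𝓞 k)) (hs : w (sp (RingHom.id k) θ s) = 1) :
    w (sp (Z.fr p) (θ ^ p) s) = 1 := by
  obtain ⟨y, hy, h⟩ := sp_congr Z hp hpM hθ s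
  apply le_antisymm (w_int w (sp_int _ (hθ.pow p) s))
  have h1 : sp (RingHom.id k) θ s ^ p = sp (Z.fr p) (θ ^ p) s - p * y := by rw [h]; ring
  have h2 : (1 : ℝ) ≤ max (w (sp (Z.fr p) (θ ^ p) s)) (w (p * y)) := by
    calc (1 : ℝ) = w (sp (RingHom.id k) θ s ^ p) := by rw [map_pow, hs, one_pow]
      _ ≤ _ := by rw [h1]; exact w_sub w _ _
  rcases le_max_iff.mp h2 with h3 | h3
  · exact h3
  · exfalso
    rw [map_mul] at h3
    have h4 : w (p : K) * w y ≤ w (p : K) * 1 :=
      mul_le_mul_of_nonneg_left (w_int w hy) (apply_nonneg w _)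
    linarith

/-- the main step -/
private theorem padic_base (Z : Cyc M k) {p : ℕ} (hp : p.Prime) (hpM : ¬ p ∣ M)
    (w : FinitePlace K) (hw : w (p : K) < 1) {θ : K} (hθ : IsIntegral ℤ θ)
    (b s : Fin 2 → Polynomial (𝓞 k)) (hs1 : ∀ j, w (sp (RingHom.id k) θ (s j)) = 1) (T : ℕ)
    (G : P2 (𝓞 k))
    (hv : ∀ i : Fin 2 → ℕ, i 0 + i 1 < T →
      eval (fun j => sp (RingHom.id k) θ (b j) / sp (RingHom.id k) θ (s j))
        (hs i (MvPolynomial.map (em K (RingHom.id k)) G)) = 0) :
    w (eval (fun j => sp (Z.fr p) (θ ^ p) (b j) / sp (Z.fr p) (θ ^ p) (s j))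
      (MvPolynomial.map (em K (Z.fr p)) G)) ≤ w (p : K) ^ T := by
  classical
  set L : Fin 2 → ℕ := fun j => G.degreeOf j with hL
  have hBd : Bd L G := exists_bd G
  have hBdm : ∀ (S : Type) [CommRing S] (f : 𝓞 k →+* S), Bd L (MvPolynomial.map f G) :=
    fun S _ f m hm j => hBd m (MvPolynomial.support_map_subset f G hm) j
  set H : Polynomial (𝓞 k) := hev L b s (MvPolynomial.map Polynomial.C G) with hH
  set ρ : Polynomial (𝓞 k) →+* Polynomial K := Polynomial.mapRingHom (em K (RingHom.id k)) with hρ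
  set z : Fin 2 → K := fun j => sp (RingHom.id k) θ (b j) / sp (RingHom.id k) θ (s j) with hz
  have hρe : ∀ a, (ρ a).eval θ = sp (RingHom.id k) θ a := by
    intro a
    rw [hρ, Polynomial.coe_mapRingHom, Polynomial.eval_map]
    rfl
  have hs0 : ∀ j, sp (RingHom.id k) θ (s j) ≠ 0 := by
    intro j h
    have := hs1 j
    rw [h, map_zero] at this
    exact zero_ne_one this
  -- divisibility over `K`
  have hc : ∀ j, ∃ c : Polynomial K,
      ρ (b j) = Polynomial.C (z j) * ρ (s j) + (Polynomial.X - Polynomial.C θ) * c := by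
    intro j
    have h1 : (Polynomial.X - Polynomial.C θ) ∣ (ρ (b j) - Polynomial.C (z j) * ρ (s j)) := by
      rw [Polynomial.dvd_iff_isRoot, Polynomial.IsRoot.def, Polynomial.eval_sub,
        Polynomial.eval_mul, Polynomial.eval_C, hρe, hρe, hz]
      simp only
      rw [div_mul_cancel₀ _ (hs0 j), sub_self]
    obtain ⟨c, hc⟩ := h1
    exact ⟨c, by rw [← hc]; ring⟩
  choose c hc using hc
  have hdvdK : (Polynomial.X - Polynomial.C θ) ^ T ∣ ρ H := by
    have e1 : ρ H = hev L (fun j => Polynomial.C (z j) * ρ (s j) +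
        (Polynomial.X - Polynomial.C θ) * c j) (fun j => ρ (s j))
        (MvPolynomial.map Polynomial.C (MvPolynomial.map (em K (RingHom.id k)) G)) := by
      have e0 : ρ.comp Polynomial.C = Polynomial.C.comp (em K (RingHom.id k)) := by
        refine RingHom.ext fun x => ?_
        rw [RingHom.comp_apply, RingHom.comp_apply, hρ, Polynomial.coe_mapRingHom,
          Polynomial.map_C]
      have e3 : (fun j => ρ (b j)) = fun j => Polynomial.C (z j) * ρ (s j) +
        (Polynomial.X - Polynomial.C θ) * c j := funext hc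
      rw [hH, ← hev_map ρ, MvPolynomial.map_map, MvPolynomial.map_map, e0, e3]
    rw [e1, hev_taylor L (fun j => Polynomial.C (z j)) (fun j => ρ (s j))
      (fun j => (Polynomial.X - Polynomial.C θ) * c j) (by
        rw [MvPolynomial.map_map]
        exact hBdm _ _)]
    refine Finset.dvd_sum fun a _ => Finset.dvd_sum fun b' _ => ?_
    rw [hs_map, eval_map' Polynomial.C z]
    rcases Nat.lt_or_ge (a + b') T with h | h
    · have h1 := hv ![a, b'] (by simpa using h)
      rw [h1]
      simp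
    · refine Dvd.dvd.mul_left ?_ _
      have h2 : (Polynomial.X - Polynomial.C θ) ^ T ∣ (Polynomial.X - Polynomial.C θ) ^ a *
          (Polynomial.X - Polynomial.C θ) ^ b' := by
        rw [← pow_add]
        exact pow_dvd_pow _ h
      refine h2.trans (mul_dvd_mul ?_ ?_)
      · rw [mul_pow]
        exact ((Dvd.intro _ rfl).mul_left _)
      · rw [mul_pow]
        exact ((Dvd.intro _ rfl).mul_left _)
  -- divisibility over the ring of integers
  have hθk : IsIntegral (𝓞 k) θ := hθ.tower_top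
  have hmp : minpoly k θ = (minpoly (𝓞 k) θ).map (algebraMap (𝓞 k) k) :=
    minpoly.isIntegrallyClosed_eq_field_fractions' k hθk
  have hdvd : (minpoly (𝓞 k) θ) ^ T ∣ H := by
    have h1 : (minpoly k θ) ^ T ∣ H.map (algebraMap (𝓞 k) k) := by
      apply minpoly_pow_dvd (hθk.tower_top)
      rw [Polynomial.map_map]
      exact hdvdK
    rw [hmp, ← Polynomial.map_pow] at h1
    exact (Polynomial.map_dvd_map _ (IsFractionRing.injective (𝓞 k) k)
      ((minpoly.monic hθk).pow T)).mp h1
  obtain ⟨g, hg⟩ := hdvd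
  -- specialisation
  have hE : w (sp (Z.fr p) (θ ^ p) (minpoly (𝓞 k) θ)) ≤ w (p : K) := by
    obtain ⟨y, hy, h⟩ := sp_congr Z hp hpM hθ (minpoly (𝓞 k) θ)
    have h0 : sp (RingHom.id k) θ (minpoly (𝓞 k) θ) = 0 := by
      have := minpoly.aeval (𝓞 k) θ
      rw [Polynomial.aeval_def] at this
      exact this
    rw [h, h0, zero_pow hp.ne_zero, zero_add, map_mul]
    calc w (p : K) * w y ≤ w (p : K) * 1 :=
        mul_le_mul_of_nonneg_left (w_int w hy) (apply_nonneg w _)
      _ = w (p : K) := mul_one _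
  have hHw : w (sp (Z.fr p) (θ ^ p) H) ≤ w (p : K) ^ T := by
    rw [hg, map_mul, map_pow, map_mul, map_pow]
    calc w (sp (Z.fr p) (θ ^ p) (minpoly (𝓞 k) θ)) ^ T * w (sp (Z.fr p) (θ ^ p) g)
        ≤ w (p : K) ^ T * 1 := by
          apply mul_le_mul (pow_le_pow_left₀ (apply_nonneg w _) hE T)
            (w_int w (sp_int _ (hθ.pow p) g)) (apply_nonneg w _)
            (pow_nonneg (apply_nonneg w _) _)
      _ = w (p : K) ^ T := mul_one _
  have hs2 : ∀ j, w (sp (Z.fr p) (θ ^ p) (s j)) = 1 := fun j =>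
    w_sp_eq_one Z hp hpM w hw hθ (s j) (hs1 j)
  have hs3 : ∀ j, sp (Z.fr p) (θ ^ p) (s j) ≠ 0 := by
    intro j h
    have := hs2 j
    rw [h, map_zero] at this
    exact zero_ne_one this
  have e2 : sp (Z.fr p) (θ ^ p) H = (sp (Z.fr p) (θ ^ p) (s 0) ^ L 0 *
      sp (Z.fr p) (θ ^ p) (s 1) ^ L 1) *
      eval (fun j => sp (Z.fr p) (θ ^ p) (b j) / sp (Z.fr p) (θ ^ p) (s j))
      (MvPolynomial.map (em K (Z.fr p)) G) := by
    rw [← hev_field L (fun j => sp (Z.fr p) (θ ^ p) (b j)) (fun j => sp (Z.fr p) (θ ^ p) (s j))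
      hs3 (hBdm _ _), hH, ← hev_map, MvPolynomial.map_map]
    have e0 : (sp (Z.fr p) (θ ^ p)).comp Polynomial.C = em K (Z.fr p) := by
      refine RingHom.ext fun x => ?_
      rw [RingHom.comp_apply, sp_C]
      rfl
    rw [e0]
  rw [e2, map_mul, map_mul, map_pow, map_pow, hs2, hs2, one_pow, one_pow, one_mul, one_mul] at hHw
  exact hHw

omit [NumberField k] [NumberField K] in
private theorem toK_map (φ : k →+* k) (G : P2 (𝓞 k)) :
    toK K φ (MvPolynomial.map (algebraMap (𝓞 k) k) G) = MvPolynomial.map (em K φ) G := by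
  unfold toK
  rw [MvPolynomial.map_map]
  rfl

omit [NumberField k] [NumberField K] in
private theorem sp_id (θ : K) (a : Polynomial (𝓞 k)) :
    sp (RingHom.id k) θ a = Polynomial.aeval θ (a.map (algebraMap (𝓞 k) k)) := by
  rw [Polynomial.aeval_def, Polynomial.eval₂_map]
  rfl

/-- the p-adic lemma at a point with integral coordinates (ordinary evaluation) -/
theorem padic_int (Z : Cyc M k) {p : ℕ} (hp : p.Prime) (hpM : ¬ p ∣ M) (w : FinitePlace K)
    (hw : w (p : K) < 1) (T : ℕ) {G : P2 k} (hG : ∀ m, IsIntegral ℤ (coeff m G)) (z : Fin 2 → K)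
    (hz0 : ∀ i, z i ≠ 0) (hz : ∀ i, w (z i) ≤ 1) (hv : van T (toK K (RingHom.id k) G) z)
    (i : Fin 2 → ℕ) :
    w (eval (fun j => z j ^ p) (hd i (toK K (Z.fr p) G))) ≤ w (p : K) ^ (T - (i 0 + i 1)) := by
  have hwp0 : 0 ≤ w (p : K) := apply_nonneg w _
  -- lift of the polynomial
  obtain ⟨G', rfl⟩ : ∃ G' : P2 (𝓞 k), MvPolynomial.map (algebraMap (𝓞 k) k) G' = G := by
    have h1 : G ∈ Set.range (MvPolynomial.map (σ := Fin 2) (algebraMap (𝓞 k) k)) := by
      rw [mem_range_map_iff_coeffs_subset]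
      intro c hc
      have hc' : c ∈ G.coeffs := hc
      rw [MvPolynomial.mem_coeffs_iff] at hc'
      obtain ⟨m, -, rfl⟩ := hc'
      exact ⟨⟨coeff m G, hG m⟩, rfl⟩
    exact h1
  rw [toK_map] at hv ⊢
  -- the generator
  obtain ⟨θ, hθ, -, hrep⟩ := local_gen (k := k) w
  have hlift : ∀ q : Polynomial k, (∀ n, IsIntegral ℤ (q.coeff n)) →
      ∃ q' : Polynomial (𝓞 k), q'.map (algebraMap (𝓞 k) k) = q := by
    intro q hq
    have h1 : q ∈ Polynomial.lifts (algebraMap (𝓞 k) k) := by
      rw [Polynomial.lifts_iff_coeff_lifts]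
      intro n
      exact ⟨⟨q.coeff n, hq n⟩, rfl⟩
    exact Polynomial.mem_lifts q |>.mp h1
  have hbs : ∀ j, ∃ b s : Polynomial (𝓞 k), w (sp (RingHom.id k) θ s) = 1 ∧
      z j * sp (RingHom.id k) θ s = sp (RingHom.id k) θ b := by
    intro j
    obtain ⟨b, s, hb, hs, h1, h2⟩ := hrep (z j) (hz j)
    obtain ⟨b', rfl⟩ := hlift b hb
    obtain ⟨s', rfl⟩ := hlift s hs
    exact ⟨b', s', by rw [sp_id]; exact h1, by rw [sp_id, sp_id]; exact h2⟩
  choose b s hs1 hbs using hbs
  have hs0 : ∀ j, sp (RingHom.id k) θ (s j) ≠ 0 := by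
    intro j h
    have := hs1 j
    rw [h, map_zero] at this
    exact zero_ne_one this
  have hzq : (fun j => sp (RingHom.id k) θ (b j) / sp (RingHom.id k) θ (s j)) = z := by
    funext j
    rw [← hbs j, mul_div_cancel_right₀ _ (hs0 j)]
  have hs2 : ∀ j, w (sp (Z.fr p) (θ ^ p) (s j)) = 1 := fun j =>
    w_sp_eq_one Z hp hpM w hw hθ (s j) (hs1 j)
  have hs3 : ∀ j, sp (Z.fr p) (θ ^ p) (s j) ≠ 0 := by
    intro j h
    have := hs2 j
    rw [h, map_zero] at this
    exact zero_ne_one this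
  set z' : Fin 2 → K := fun j => sp (Z.fr p) (θ ^ p) (b j) / sp (Z.fr p) (θ ^ p) (s j) with hz'
  -- vanishing of the Hasse derivatives
  have hv2 : ∀ j : Fin 2 → ℕ, j 0 + j 1 < T →
      eval z (hs j (MvPolynomial.map (em K (RingHom.id k)) G')) = 0 := by
    intro j hj
    have h1 := hv j hj
    rw [eval_hd_eq] at h1
    rcases mul_eq_zero.mp h1 with h2 | h2
    · exact absurd h2 (mul_ne_zero (pow_ne_zero _ (hz0 0)) (pow_ne_zero _ (hz0 1)))
    · exact h2
  -- all derivatives at `z'`
  have hall : ∀ j : Fin 2 → ℕ, w (eval z' (hs j (MvPolynomial.map (em K (Z.fr p)) G'))) ≤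
      w (p : K) ^ (T - (j 0 + j 1)) := by
    intro j
    rw [hs_map]
    refine padic_base Z hp hpM w hw hθ b s hs1 (T - (j 0 + j 1)) (hs j G') ?_
    intro i hi
    rw [hzq, ← hs_map, hs_comp, MvPolynomial.smul_eval, hv2 (j + i) (by
      simp only [Pi.add_apply]
      omega), mul_zero]
  -- the distance of `z'` and `z ^ p`
  have hδ : ∀ j, w (z j ^ p - z' j) ≤ w (p : K) := by
    intro j
    obtain ⟨y, hy, h1⟩ := sp_congr Z hp hpM hθ (b j)
    obtain ⟨x, hx, h2⟩ := sp_congr Z hp hpM hθ (s j)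
    have h3 : z j ^ p - z' j = (p : K) * (z j ^ p * x - y) / sp (Z.fr p) (θ ^ p) (s j) := by
      rw [eq_div_iff (hs3 j), hz', sub_mul, div_mul_cancel₀ _ (hs3 j), h1, h2, ← hbs j]
      ring
    rw [h3, map_div₀, hs2, div_one, map_mul]
    have h4 : w (z j ^ p * x - y) ≤ 1 := by
      refine (w_sub w _ _).trans (max_le ?_ (w_int w hy))
      rw [map_mul, map_pow]
      exact mul_le_one₀ (pow_le_one₀ (apply_nonneg w _) (hz j)) (apply_nonneg w _) (w_int w hx)
    calc w (p : K) * w (z j ^ p * x - y) ≤ w (p : K) * 1 := mul_le_mul_of_nonneg_left h4 hwp0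
      _ = w (p : K) := mul_one _
  -- Taylor
  set F : P2 K := hs i (MvPolynomial.map (em K (Z.fr p)) G') with hF
  have hmain : w (eval (fun j => z j ^ p) F) ≤ w (p : K) ^ (T - (i 0 + i 1)) := by
    have e1 : (fun j => z j ^ p) = fun j => z' j * (fun _ : Fin 2 => (1 : K)) j +
        (z j ^ p - z' j) := by
      funext j
      simp
    have e2 : eval (fun j => z j ^ p) F = hev (fun j => F.degreeOf j) (fun j => z j ^ p)
      (fun _ => 1) F := (hev_one _ _ F).symm
    rw [e2, e1, hev_taylor (fun j => F.degreeOf j) z' (fun _ => 1) (fun j => z j ^ p - z' j)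
      (exists_bd F)]
    refine w_sum w _ _ (pow_nonneg hwp0 _) fun a _ => w_sum w _ _ (pow_nonneg hwp0 _) fun c _ => ?_
    rw [hF, hs_comp, MvPolynomial.smul_eval]
    simp only [one_pow, one_mul, map_mul, map_pow]
    have h1 := hall (i + ![a, c])
    simp only [Pi.add_apply, Matrix.cons_val_zero, Matrix.cons_val_one] at h1
    have h2 : w ((((i 0 + (![a, c] : Fin 2 → ℕ) 0).choose (i 0) *
        (i 1 + (![a, c] : Fin 2 → ℕ) 1).choose (i 1) : ℕ) : K)) ≤ 1 :=
      w_int w (by
        have := isIntegral_algebraMap (R := ℤ) (A := K)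
          (x := (((i 0 + (![a, c] : Fin 2 → ℕ) 0).choose (i 0) *
        (i 1 + (![a, c] : Fin 2 → ℕ) 1).choose (i 1) : ℕ) : ℤ))
        simpa using this)
    have h3 : w (z 0 ^ p - z' 0) ^ a ≤ w (p : K) ^ a :=
      pow_le_pow_left₀ (apply_nonneg w _) (hδ 0) a
    have h4 : w (z 1 ^ p - z' 1) ^ c ≤ w (p : K) ^ c :=
      pow_le_pow_left₀ (apply_nonneg w _) (hδ 1) c
    have h5 : w (z 0 ^ p - z' 0) ^ a * w (z 1 ^ p - z' 1) ^ c ≤ w (p : K) ^ a * w (p : K) ^ c :=
      mul_le_mul h3 h4 (pow_nonneg (apply_nonneg w _) _) (pow_nonneg hwp0 _)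
    have h6 : w ((((i 0 + (![a, c] : Fin 2 → ℕ) 0).choose (i 0) *
        (i 1 + (![a, c] : Fin 2 → ℕ) 1).choose (i 1) : ℕ) : K)) *
        w (eval z' (hs (i + ![a, c]) (MvPolynomial.map (em K (Z.fr p)) G'))) ≤
        w (p : K) ^ (T - (i 0 + a + (i 1 + c))) := by
      calc _ ≤ 1 * w (p : K) ^ (T - (i 0 + a + (i 1 + c))) :=
            mul_le_mul h2 h1 (apply_nonneg w _) zero_le_one
        _ = _ := one_mul _
    calc _ ≤ w (p : K) ^ (T - (i 0 + a + (i 1 + c))) * (w (p : K) ^ a * w (p : K) ^ c) :=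
          mul_le_mul h6 h5 (mul_nonneg (pow_nonneg (apply_nonneg w _) _)
            (pow_nonneg (apply_nonneg w _) _)) (pow_nonneg hwp0 _)
      _ = w (p : K) ^ (T - (i 0 + a + (i 1 + c)) + (a + c)) := by rw [pow_add, pow_add]
      _ ≤ w (p : K) ^ (T - (i 0 + i 1)) := pow_le_pow_of_le_one hwp0 hw.le (by omega)
  rw [eval_hd_eq, map_mul]
  have h7 : w ((z 0 ^ p) ^ i 0 * (z 1 ^ p) ^ i 1) ≤ 1 := by
    rw [map_mul, map_pow, map_pow, map_pow, map_pow]
    exact mul_le_one₀ (pow_le_one₀ (pow_nonneg (apply_nonneg w _) _)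
      (pow_le_one₀ (apply_nonneg w _) (hz 0))) (pow_nonneg (pow_nonneg (apply_nonneg w _) _) _)
      (pow_le_one₀ (pow_nonneg (apply_nonneg w _) _) (pow_le_one₀ (apply_nonneg w _) (hz 1)))
  calc _ ≤ 1 * w (p : K) ^ (T - (i 0 + i 1)) :=
        mul_le_mul h7 hmain (apply_nonneg w _) zero_le_one
    _ = _ := one_mul _

end nf

end BMF
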