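import Pool.Agent.Lib.MP_a325a5_ag.UL.MRa
import Pool.Agent.Lib.MP_a325a5_ag.UL.MRb

/-! A group generated by five elements with rank at most two.

Proof.  If the three elements `x j` were independent then `mr` of `x` would be `3 ≤ 2`
(`mr_eq_card_iff`, `mr_le_of_pow_mem`): so there is a relation.  If `y₁`, `y₂` are independent then
for every `j` the three elements `y₁`, `y₂`, `x j` are dependent: `y₁ ^ b₁ * y₂ ^ b₂ * x j ^ b₃ = 1`
with `b ≠ 0`, so `b₃ ≠ 0` and `N = |b₃|`. -/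

open Pool.Agent.Lib.MP_a325a5_ag.UL

namespace BMF

private theorem cases_sub {K : Type} [Field K] {ι κ : Type} [Fintype ι] [Fintype κ] (p : ι → Kˣ)
    (q : κ → Kˣ) (h : ∀ j, ∃ i, q j = p i) : mr q ≤ mr p := by
  refine mr_le_of_pow_mem p q fun j => ?_
  obtain ⟨i, hi⟩ := h j
  refine ⟨1, one_pos, ?_⟩
  rw [pow_one, hi]
  exact Subgroup.subset_closure ⟨i, rfl⟩

private theorem cases_dep {K : Type} [Field K] (q : Fin 3 → Kˣ) (h : mr q ≤ 2) :
    ∃ a : Fin 3 → ℤ, a ≠ 0 ∧ ∏ j, q j ^ a j = 1 := by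
  by_contra hcon
  push Not at hcon
  have h1 : mr q = Fintype.card (Fin 3) := by
    rw [mr_eq_card_iff]
    intro a ha
    by_contra hne
    exact hcon a hne ha
  rw [h1, Fintype.card_fin] at h
  omega

theorem cases5 {K : Type} [Field K] (x : Fin 3 → Kˣ) (y₁ y₂ : Kˣ)
    (h : mr ![x 0, x 1, x 2, y₁, y₂] ≤ 2) :
    (∃ a : Fin 3 → ℤ, a ≠ 0 ∧ ∏ j, x j ^ a j = 1) ∧
      ((∃ b : Fin 2 → ℤ, b ≠ 0 ∧ y₁ ^ b 0 * y₂ ^ b 1 = 1) ∨
        ∀ j, ∃ N : ℕ, 0 < N ∧ ∃ A B : ℤ, x j ^ N = y₁ ^ A * y₂ ^ B) := by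
  constructor
  · refine cases_dep x (le_trans (cases_sub _ x fun j => ?_) h)
    fin_cases j
    · exact ⟨0, rfl⟩
    · exact ⟨1, rfl⟩
    · exact ⟨2, rfl⟩
  · by_cases hdep : ∃ b : Fin 2 → ℤ, b ≠ 0 ∧ y₁ ^ b 0 * y₂ ^ b 1 = 1
    · exact Or.inl hdep
    · right
      intro j
      have h1 : mr ![y₁, y₂, x j] ≤ 2 := by
        refine le_trans (cases_sub _ _ fun k => ?_) h
        fin_cases k
        · exact ⟨3, rfl⟩
        · exact ⟨4, rfl⟩
        · fin_cases j
          · exact ⟨0, rfl⟩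
          · exact ⟨1, rfl⟩
          · exact ⟨2, rfl⟩
      obtain ⟨b, hb, hprod⟩ := cases_dep _ h1
      rw [Fin.prod_univ_three] at hprod
      have hprod' : y₁ ^ b 0 * y₂ ^ b 1 * x j ^ b 2 = 1 := hprod
      have hb2 : b 2 ≠ 0 := by
        intro h0
        apply hdep
        refine ⟨![b 0, b 1], ?_, ?_⟩
        · intro hz
          apply hb
          funext i
          have e0 : b 0 = 0 := congrFun hz 0
          have e1 : b 1 = 0 := congrFun hz 1
          fin_cases i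
          · exact e0
          · exact e1
          · exact h0
        · rw [h0, zpow_zero, mul_one] at hprod'
          exact hprod'
      have hx : x j ^ b 2 = (y₁ ^ b 0 * y₂ ^ b 1)⁻¹ := eq_inv_of_mul_eq_one_right hprod'
      refine ⟨(b 2).natAbs, Int.natAbs_pos.2 hb2, ?_⟩
      rcases Int.natAbs_eq (b 2) with hs | hs
      · refine ⟨-b 0, -b 1, ?_⟩
        rw [← zpow_natCast, ← hs, hx, mul_inv, ← zpow_neg, ← zpow_neg]
      · refine ⟨b 0, b 1, ?_⟩
        have hs' : ((b 2).natAbs : ℤ) = -b 2 := by omega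
        rw [← zpow_natCast, hs', zpow_neg, hx, inv_inv]

end BMF
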