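import Pool.Agent.Lib.MP_a325a5_ag.F.Near

/-! Two circles with different centres, and the parameter on a ray.

Proofs.  `circ_fin`: `‖z - a‖ ^ 2 - ‖z - b‖ ^ 2` is a nonconstant real affine function of `z`, so `z`
is on a line, and on a circle: at most two points.  `ray_inf`: if only finitely many `x` occur
then the ray is finite: for each `x` the `z` with `‖g 0 (z - a 0)‖ = exp (x * d 0)`,
`‖g 1 (z - a 1)‖ = exp (x * d 1)` are finite in number. -/

namespace BMF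

theorem circ_fin (a b : ℂ) (hab : a ≠ b) (R S : ℝ) : {z : ℂ | ‖z - a‖ = R ∧ ‖z - b‖ = S}.Finite := by
  have hc : (starRingEnd ℂ) a - (starRingEnd ℂ) b ≠ 0 := by
    rw [← map_sub]
    exact (map_ne_zero _).2 (sub_ne_zero.2 hab)
  obtain ⟨c, hcd⟩ : ∃ c, c = (starRingEnd ℂ) a - (starRingEnd ℂ) b := ⟨_, rfl⟩
  rw [← hcd] at hc
  obtain ⟨P, hP⟩ : ∃ P : Polynomial ℂ, P = Polynomial.C c * Polynomial.X ^ 2 +
      Polynomial.C (-(c * a) - c * b + (R : ℂ) ^ 2 - (S : ℂ) ^ 2) * Polynomial.X +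
      Polynomial.C (c * a * b - (R : ℂ) ^ 2 * b + (S : ℂ) ^ 2 * a) := ⟨_, rfl⟩
  have hP0 : P ≠ 0 := by
    intro h
    have h1 := Polynomial.degree_quadratic (R := ℂ) (b := -(c * a) - c * b + (R : ℂ) ^ 2 - (S : ℂ) ^ 2)
      (c := c * a * b - (R : ℂ) ^ 2 * b + (S : ℂ) ^ 2 * a) hc
    rw [← hP, h, Polynomial.degree_zero] at h1
    exact absurd h1 (by decide)
  refine (Polynomial.finite_setOf_isRoot hP0).subset ?_
  rintro z ⟨h1, h2⟩
  show P.eval z = 0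
  have e1 : (z - a) * ((starRingEnd ℂ) z - (starRingEnd ℂ) a) = (R : ℂ) ^ 2 := by
    rw [← map_sub, Complex.mul_conj, Complex.normSq_eq_norm_sq, h1]
    push_cast
    ring
  have e2 : (z - b) * ((starRingEnd ℂ) z - (starRingEnd ℂ) b) = (S : ℂ) ^ 2 := by
    rw [← map_sub, Complex.mul_conj, Complex.normSq_eq_norm_sq, h2]
    push_cast
    ring
  rw [hP]
  simp only [Polynomial.eval_add, Polynomial.eval_mul, Polynomial.eval_C, Polynomial.eval_pow,
    Polynomial.eval_X]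
  rw [hcd]
  linear_combination (-(z - b)) * e1 + (z - a) * e2

theorem ray_inf (g a : Fin 3 → ℂ) (hg : ∀ j, g j ≠ 0) (ha : Function.Injective a) (d : Fin 3 → ℝ)
    (h : (ray g a d).Infinite) :
    {x : ℝ | ∃ z : ℂ, (∀ j, ‖z - a j‖ ^ 2 = ‖g j‖⁻¹ ^ 2 * Real.exp (2 * d j * x))}.Infinite := by
  by_contra hcon
  rw [Set.not_infinite] at hcon
  apply h
  have h01 : a 0 ≠ a 1 := fun h => absurd (ha h) (by decide)
  refine (hcon.biUnion fun x _ => circ_fin (a 0) (a 1) h01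
    (‖g 0‖⁻¹ * Real.exp (x * d 0)) (‖g 1‖⁻¹ * Real.exp (x * d 1))).subset ?_
  rintro z ⟨hz, x, -, hx⟩
  have key : ∀ j, ‖z - a j‖ = ‖g j‖⁻¹ * Real.exp (x * d j) := by
    intro j
    have h1 : 0 < ‖g j * (z - a j)‖ := norm_pos_iff.2 (mul_ne_zero (hg j) (sub_ne_zero.2 (hz j)))
    have h2 : 0 < ‖g j‖ := norm_pos_iff.2 (hg j)
    rw [← hx j, Real.exp_log h1, norm_mul, ← mul_assoc, inv_mul_cancel₀ h2.ne', one_mul]
  refine Set.mem_iUnion₂.2 ⟨x, ⟨z, fun j => ?_⟩, key 0, key 1⟩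
  rw [key j, mul_pow, ← Real.exp_nat_mul]
  congr 2
  push_cast
  ring

end BMF
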