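import Pool.Agent.Lib.MP_a325a5_ag.F.Hc
import Pool.Agent.Lib.MP_a325a5_ag.F.Mass

/-! Elements of the division hull of `⟨s, r s + p⟩` have small exponents if the height of `s` is
large.

Proof.  `mass_tot` for the line with cusps `β = ![0, -p/r]`, coefficients `κ = ![1, r]`, `x = s`,
real exponents `a = ![A, B]`: the sum `A lg v s + B lg v (r s + p)` is `N lg v z`, and
`tot |N lg v z| = 2 N ht z` (`tot_abs_lg`).  So `|A| ht s ≤ 2 N ht z + (|A| + |B|) E` and
`|B| ht (s + p/r) ≤` the same, `E = tot err ≤ C`; and `ht s ≤ ht (s + p/r) + ht (p/r) + log 2`.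
Add the two. -/

open NumberField

namespace BMF

theorem two_dim {L : Type} [Field L] [NumberField L] (r p : L) (hr : r ≠ 0) (hp : p ≠ 0) :
    ∃ C : ℝ, 0 ≤ C ∧ ∀ (K : Type) [Field K] [NumberField K] [Algebra L K] (s z : K),
      s ≠ 0 → algebraMap L K r * s + algebraMap L K p ≠ 0 → z ≠ 0 → ∀ (N : ℕ) (A B : ℤ),
      z ^ N = s ^ A * (algebraMap L K r * s + algebraMap L K p) ^ B →
      (|(A : ℝ)| + |(B : ℝ)|) * (ht s - C) ≤ 4 * N * ht z := by
  classical
  let β : Fin 2 → L := ![0, -(p / r)]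
  let κ : Fin 2 → L := ![1, r]
  obtain ⟨E, hE0, hE⟩ := tot_err_le (L := L) β κ
  obtain ⟨C1, hC1⟩ := ht_const L (p / r)
  refine ⟨2 * E + |C1| + Real.log 2, ?_, ?_⟩
  · have := abs_nonneg C1
    have h2 : 0 ≤ Real.log 2 := Real.log_nonneg (by norm_num)
    linarith
  intro K _ _ _ s z hs hrs hz N A B hN
  have hinj : Function.Injective (algebraMap L K) := (algebraMap L K).injective
  have hr' : algebraMap L K r ≠ 0 := fun h => hr (hinj (by rw [h, map_zero]))
  have hp' : algebraMap L K p ≠ 0 := fun h => hp (hinj (by rw [h, map_zero]))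
  let β' : Fin 2 → K := fun j => algebraMap L K (β j)
  let κ' : Fin 2 → K := fun j => algebraMap L K (κ j)
  have b0 : β' 0 = 0 := by simp [β', β]
  have b1 : β' 1 = -(algebraMap L K p / algebraMap L K r) := by simp [β', β]
  have k0 : κ' 0 = 1 := by simp [κ', κ]
  have k1 : κ' 1 = algebraMap L K r := by simp [κ', κ]
  have hq : algebraMap L K p / algebraMap L K r ≠ 0 := div_ne_zero hp' hr'
  have hβ' : Function.Injective β' := by
    intro i j hij
    fin_cases i <;> fin_cases j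
    · rfl
    · exfalso
      change β' 0 = β' 1 at hij
      rw [b0, b1] at hij
      exact hq (by rw [← neg_neg (algebraMap L K p / algebraMap L K r), ← hij, neg_zero])
    · exfalso
      change β' 1 = β' 0 at hij
      rw [b0, b1] at hij
      exact hq (by rw [← neg_neg (algebraMap L K p / algebraMap L K r), hij, neg_zero])
    · rfl
  have hκ' : ∀ j, κ' j ≠ 0 := by
    intro j
    fin_cases j
    · change κ' 0 ≠ 0
      rw [k0]; exact one_ne_zero
    · change κ' 1 ≠ 0
      rw [k1]; exact hr'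
  have hrs2 : algebraMap L K r * (s - β' 1) = algebraMap L K r * s + algebraMap L K p := by
    rw [b1]
    field_simp
    ring
  have hx : ∀ j, s ≠ β' j := by
    intro j
    fin_cases j
    · change s ≠ β' 0
      rw [b0]; exact hs
    · change s ≠ β' 1
      intro h
      rw [← h, sub_self, mul_zero] at hrs2
      exact hrs hrs2.symm
  have key : ∀ v : Pl K, (∑ j, (![(A : ℝ), (B : ℝ)] : Fin 2 → ℝ) j * lg v (κ' j * (s - β' j)))
      = N * lg v z := by
    intro v
    rw [Fin.sum_univ_two]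
    have e0 : κ' 0 * (s - β' 0) = s := by rw [k0, b0]; ring
    have e1 : κ' 1 * (s - β' 1) = algebraMap L K r * s + algebraMap L K p := by
      rw [k1, hrs2]
    rw [e0, e1]
    have h3 : lg v (z ^ N) = A * lg v s + B * lg v (algebraMap L K r * s + algebraMap L K p) := by
      rw [hN, lg_mul v (zpow_ne_zero _ hs) (zpow_ne_zero _ hrs), lg_zpow, lg_zpow]
    rw [lg_pow] at h3
    rw [h3]
    simp
  have htot : tot (fun v : Pl K => |∑ j, (![(A : ℝ), (B : ℝ)] : Fin 2 → ℝ) j *
      lg v (κ' j * (s - β' j))|) = 2 * N * ht z := by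
    have h4 : (fun v : Pl K => |∑ j, (![(A : ℝ), (B : ℝ)] : Fin 2 → ℝ) j *
        lg v (κ' j * (s - β' j))|) = fun v => (N : ℝ) * |lg v z| := by
      funext v
      rw [key v, abs_mul, Nat.abs_cast]
    rw [h4, tot_const_mul, tot_abs_lg hz]
    ring
  have hsum : (∑ j : Fin 2, |(![(A : ℝ), (B : ℝ)] : Fin 2 → ℝ) j|) = |(A : ℝ)| + |(B : ℝ)| := by
    rw [Fin.sum_univ_two]
    simp
  have hm0 := mass_tot β' κ' hβ' hκ' s hx ![(A : ℝ), (B : ℝ)] 0
  have hm1 := mass_tot β' κ' hβ' hκ' s hx ![(A : ℝ), (B : ℝ)] 1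
  rw [htot, hsum] at hm0 hm1
  have hEK : tot (err β' κ') ≤ E := hE K
  have e0 : s - β' 0 = s := by rw [b0, sub_zero]
  rw [e0] at hm0
  simp only [Matrix.cons_val_zero, Matrix.cons_val_one] at hm0 hm1
  have hC : ht (algebraMap L K (p / r)) ≤ |C1| := (hC1 K).trans (le_abs_self _)
  have hsb : ht s ≤ ht (s - β' 1) + |C1| + Real.log 2 := by
    have h5 := ht_sub_le (s - β' 1) (algebraMap L K (p / r))
    have h6 : s - β' 1 - algebraMap L K (p / r) = s := by
      rw [b1, map_div₀]; ring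
    rw [h6] at h5
    linarith
  have hA := abs_nonneg (A : ℝ)
  have hB := abs_nonneg (B : ℝ)
  have hl2 : 0 ≤ Real.log 2 := Real.log_nonneg (by norm_num)
  have hc1 := abs_nonneg C1
  have h7 : |(B : ℝ)| * ht s ≤ |(B : ℝ)| * ht (s - β' 1) + |(B : ℝ)| * (|C1| + Real.log 2) := by
    have := mul_le_mul_of_nonneg_left hsb hB
    linarith
  have h8 : (|(A : ℝ)| + |(B : ℝ)|) * tot (err β' κ') ≤ (|(A : ℝ)| + |(B : ℝ)|) * E :=
    mul_le_mul_of_nonneg_left hEK (by linarith)
  have h9 : 0 ≤ |(A : ℝ)| * (|C1| + Real.log 2) := mul_nonneg hA (by linarith)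
  nlinarith [hm0, hm1, h7, h8, h9]

end BMF
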