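import Pool.Agent.Lib.MP_a325a5_ag.F.ClusG
import Pool.Agent.Lib.MP_a325a5_ag.F.TwoDim

/-! Either the height of `s` is bounded or the degree of `t` is bounded.

Proof.  Let `κ`, `D₁` be as in `clus_gal`, `C` as in `two_dim`, `H` a bound for `ht (c_j)`
(`one_rel` bounds `ht t`; `ht_mul_le`, `ht_sub_le`, `ht_const`), and `B₁ = C + 4 (H + 1) / κ + 1`.
If `B₁ < ht s` then `(|A_j| + |B_j|) (ht s - C) ≤ 4 N_j H` gives `|A_j| + |B_j| ≤ κ N_j`.  Embed `K`
into a Galois extension `F` of `L` (`exists_galois`); all hypotheses are carried to `F` by the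
embedding and the minimal polynomial of `t` over `L` does not change (`minpoly.algHom_eq`).
Apply `clus_gal`. -/

open NumberField

namespace BMF

theorem clus {L : Type} [Field L] [NumberField L] (α γ : Fin 3 → L) (r p : L)
    (hα : Function.Injective α) (hγ : ∀ j, γ j ≠ 0) (hr : r ≠ 0) (hp : p ≠ 0) (τ : L →+* ℂ)
    (hNA : ∀ d : Fin 3 → ℝ, d ≠ 0 → (ray (fun j => τ (γ j)) (fun j => τ (α j)) d).Finite) :
    ∃ B₁ : ℝ, ∃ D₁ : ℕ, ∀ (K : Type) [Field K] [NumberField K] [Algebra L K] (t s : K),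
      (∀ j, t ≠ algebraMap L K (α j)) → s ≠ 0 →
      algebraMap L K r * s + algebraMap L K p ≠ 0 →
      (∃ a : Fin 3 → ℤ, a ≠ 0 ∧
        ∏ j, (algebraMap L K (γ j) * (t - algebraMap L K (α j))) ^ a j = 1) →
      (∀ j, ∃ N : ℕ, 0 < N ∧ ∃ A B : ℤ,
        (algebraMap L K (γ j) * (t - algebraMap L K (α j))) ^ N =
          s ^ A * (algebraMap L K r * s + algebraMap L K p) ^ B) →
      ht s ≤ B₁ ∨ (minpoly L t).natDegree ≤ D₁ := by
  classical
  obtain ⟨κ, hκ, D₁, hD₁⟩ := clus_gal α γ r p hα hγ hr hp τ hNA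
  obtain ⟨C, hC0, hC⟩ := two_dim (L := L) r p hr hp
  obtain ⟨Bt, hBt0, hBt⟩ := one_rel (L := L) α γ hα hγ
  choose cg hcg using fun j => ht_const L (γ j)
  choose ca hca using fun j => ht_const L (α j)
  have hl2 : 0 ≤ Real.log 2 := Real.log_nonneg (by norm_num)
  have hsg : 0 ≤ ∑ j, |cg j| := Finset.sum_nonneg fun j _ => abs_nonneg _
  have hsa : 0 ≤ ∑ j, |ca j| := Finset.sum_nonneg fun j _ => abs_nonneg _
  set H : ℝ := ∑ j, |cg j| + (Bt + ∑ j, |ca j| + Real.log 2) with hH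
  have hH0 : 0 ≤ H := by positivity
  refine ⟨C + 4 * (H + 1) / κ + 1, D₁, ?_⟩
  intro K _ _ _ t s ht0 hs hrs hrel hN
  by_cases hB : ht s ≤ C + 4 * (H + 1) / κ + 1
  · exact Or.inl hB
  right
  push Not at hB
  have hinj : Function.Injective (algebraMap L K) := (algebraMap L K).injective
  obtain ⟨a, ha, hprod⟩ := hrel
  have hht : ht t ≤ Bt := hBt K t ht0 a ha hprod
  have hcj : ∀ j, ht (algebraMap L K (γ j) * (t - algebraMap L K (α j))) ≤ H := by
    intro j
    have h1 := ht_mul_le (algebraMap L K (γ j)) (t - algebraMap L K (α j))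
    have h2 := ht_sub_le t (algebraMap L K (α j))
    have h3 : ht (algebraMap L K (γ j)) ≤ ∑ j, |cg j| :=
      ((hcg j K).trans (le_abs_self _)).trans
        (Finset.single_le_sum (f := fun j => |cg j|) (fun j _ => abs_nonneg _)
          (Finset.mem_univ j))
    have h4 : ht (algebraMap L K (α j)) ≤ ∑ j, |ca j| :=
      ((hca j K).trans (le_abs_self _)).trans
        (Finset.single_le_sum (f := fun j => |ca j|) (fun j _ => abs_nonneg _)
          (Finset.mem_univ j))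
    rw [hH]
    linarith
  have hcj0 : ∀ j, algebraMap L K (γ j) * (t - algebraMap L K (α j)) ≠ 0 := fun j =>
    mul_ne_zero (fun h => hγ j (hinj (by rw [h, map_zero]))) (sub_ne_zero.2 (ht0 j))
  have hpos : 4 * (H + 1) / κ < ht s - C := by linarith
  have hq0 : 0 < 4 * (H + 1) / κ := by positivity
  have hsmall : ∀ j, ∃ N : ℕ, 0 < N ∧ ∃ A B : ℤ,
      (algebraMap L K (γ j) * (t - algebraMap L K (α j))) ^ N =
        s ^ A * (algebraMap L K r * s + algebraMap L K p) ^ B ∧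
      |(A : ℝ)| + |(B : ℝ)| ≤ κ * N := by
    intro j
    obtain ⟨N, hN0, A, B, hAB⟩ := hN j
    refine ⟨N, hN0, A, B, hAB, ?_⟩
    have h1 := hC K s _ hs hrs (hcj0 j) N A B hAB
    have hNr : (0 : ℝ) < N := by exact_mod_cast hN0
    have h2 : 4 * (N : ℝ) * ht (algebraMap L K (γ j) * (t - algebraMap L K (α j))) ≤
        4 * N * H := mul_le_mul_of_nonneg_left (hcj j) (by positivity)
    have hX : 0 ≤ |(A : ℝ)| + |(B : ℝ)| := by positivity
    have h3 : (|(A : ℝ)| + |(B : ℝ)|) * (4 * (H + 1) / κ) ≤ 4 * N * H :=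
      (mul_le_mul_of_nonneg_left hpos.le hX).trans (h1.trans h2)
    have h4 : (|(A : ℝ)| + |(B : ℝ)|) * (4 * (H + 1)) ≤ κ * N * (4 * (H + 1)) := by
      have h5 : (|(A : ℝ)| + |(B : ℝ)|) * (4 * (H + 1)) =
          κ * ((|(A : ℝ)| + |(B : ℝ)|) * (4 * (H + 1) / κ)) := by
        field_simp
      rw [h5]
      calc κ * ((|(A : ℝ)| + |(B : ℝ)|) * (4 * (H + 1) / κ)) ≤ κ * (4 * N * H) :=
            mul_le_mul_of_nonneg_left h3 hκ.le
        _ ≤ κ * N * (4 * (H + 1)) := by
            have : 0 ≤ κ * N := by positivity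
            nlinarith
    exact le_of_mul_le_mul_right h4 (by positivity)
  obtain ⟨F, iF, iNF, iA, iG, ⟨φ⟩⟩ := exists_galois L K
  have hφ : Function.Injective φ := φ.toRingHom.injective
  have hc : ∀ x : L, φ (algebraMap L K x) = algebraMap L F x := φ.commutes
  rw [← minpoly.algHom_eq φ hφ t]
  refine hD₁ F (φ t) (φ s) ?_ ?_ ?_ ?_ ?_
  · intro j h
    exact ht0 j (hφ (by rw [h, hc]))
  · exact fun h => hs (hφ (by rw [h, map_zero]))
  · intro h
    refine hrs (hφ ?_)
    rw [map_add, map_mul, hc, hc, map_zero]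
    exact h
  · refine ⟨a, ha, ?_⟩
    have h1 := congrArg φ hprod
    rw [map_prod, map_one] at h1
    rw [← h1]
    refine Finset.prod_congr rfl fun j _ => ?_
    rw [map_zpow₀, map_mul, map_sub, hc, hc]
  · intro j
    obtain ⟨N, hN0, A, B, hAB, hle⟩ := hsmall j
    refine ⟨N, hN0, A, B, ?_, hle⟩
    have h1 := congrArg φ hAB
    rw [map_pow, map_mul, map_sub, hc, hc, map_mul, map_zpow₀, map_zpow₀, map_add, map_mul, hc,
      hc] at h1
    exact h1

end BMF
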