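import Mathlib

/-! Points of a complex line whose logarithmic image is close to a ray.

Proof of `near_local` by contradiction: take sequences `d n → d₀`, `z n`, `x n ≥ 0` with
`|log ‖g j (z n - a j)‖ - x n * d n j| ≤ 1 / n`, and `z n` in the compact set
`{z : ‖z‖ ≤ 1 / ε, ε ≤ ‖z - e‖ for e in the closed set S ∪ range a}`; pass to a subsequence
`z n → z`; the logarithms converge (`z ≠ a j`); some `d₀ j ≠ 0`, so `x n = (x n * d n j) / d n j`
converges to some `x ≥ 0`, and `log ‖g j (z - a j)‖ = x * d₀ j` for all `j`, so `z ∈ S`: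
contradiction with `ε ≤ ‖z - z‖`. (The set `S` need not be closed: only that `z ∈ S` has distance
at least `ε` from itself is used, and that the inequalities `ε ≤ ‖z n - e‖` pass to the limit.) -/

namespace BMF

/-- the points `z` of the line such that `(log ‖g j (z - a j)‖)_j` is on the ray of `d` -/
def ray (g a : Fin 3 → ℂ) (d : Fin 3 → ℝ) : Set ℂ :=
  {z | (∀ j, z ≠ a j) ∧ ∃ x : ℝ, 0 ≤ x ∧ ∀ j, Real.log ‖g j * (z - a j)‖ = x * d j}

/-- the points `z` such that `(log ‖g j (z - a j)‖)_j` is within `δ` of the ray of `d` -/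
def Near (g a : Fin 3 → ℂ) (δ : ℝ) (d : Fin 3 → ℝ) (z : ℂ) : Prop :=
  (∀ j, z ≠ a j) ∧ ∃ x : ℝ, 0 ≤ x ∧ ∀ j, |Real.log ‖g j * (z - a j)‖ - x * d j| ≤ δ

theorem near_zero (g a : Fin 3 → ℂ) (δ : ℝ) (d : Fin 3 → ℝ) (z : ℂ) (h : Near g a δ 0 z) :
    Near g a δ d z := by
  obtain ⟨h1, x, hx, h2⟩ := h
  refine ⟨h1, 0, le_rfl, fun j => ?_⟩
  have := h2 j
  simpa using this

theorem near_smul (g a : Fin 3 → ℂ) (δ : ℝ) (d : Fin 3 → ℝ) (c : ℝ) (hc : 0 < c) (z : ℂ)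
    (h : Near g a δ (c • d) z) : Near g a δ d z := by
  obtain ⟨h1, x, hx, h2⟩ := h
  refine ⟨h1, x * c, by positivity, fun j => ?_⟩
  have := h2 j
  simpa [mul_assoc] using this

theorem near_local (g a : Fin 3 → ℂ) (hg : ∀ j, g j ≠ 0) (d₀ : Fin 3 → ℝ) (hd : d₀ ≠ 0) (ε : ℝ)
    (hε : 0 < ε) :
    ∃ δ : ℝ, 0 < δ ∧ ∀ d : Fin 3 → ℝ, ‖d - d₀‖ < δ → ∀ z : ℂ, Near g a δ d z →
      (∃ e ∈ ray g a d₀ ∪ Set.range a, ‖z - e‖ < ε) ∨ 1 / ε < ‖z‖ := by
  by_contra hcon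
  push Not at hcon
  have hex : ∀ n : ℕ, ∃ (d : Fin 3 → ℝ) (z : ℂ) (x : ℝ), ‖d - d₀‖ < 1 / ((n : ℝ) + 1) ∧ 0 ≤ x ∧
      (∀ j, |Real.log ‖g j * (z - a j)‖ - x * d j| ≤ 1 / ((n : ℝ) + 1)) ∧
      (∀ e ∈ ray g a d₀ ∪ Set.range a, ε ≤ ‖z - e‖) ∧ ‖z‖ ≤ 1 / ε := by
    intro n
    obtain ⟨d, h1, z, ⟨h2, x, h3, h4⟩, h5, h6⟩ := hcon (1 / ((n : ℝ) + 1)) (by positivity)
    exact ⟨d, z, x, h1, h3, h4, h5, h6⟩
  choose d z x h1 h2 h3 h4 h5 using hex
  have hz : ∀ n, z n ∈ Metric.closedBall (0 : ℂ) (1 / ε) := fun n => by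
    rw [mem_closedBall_zero_iff]
    exact h5 n
  obtain ⟨z₀, -, φ, hφ, hlim⟩ := (isCompact_closedBall (0 : ℂ) (1 / ε)).tendsto_subseq hz
  have hinv : Filter.Tendsto (fun n : ℕ => 1 / ((n : ℝ) + 1)) Filter.atTop (nhds 0) :=
    tendsto_one_div_add_atTop_nhds_zero_nat
  have hinv' : Filter.Tendsto (fun n : ℕ => 1 / (((φ n : ℕ) : ℝ) + 1)) Filter.atTop (nhds 0) :=
    hinv.comp hφ.tendsto_atTop
  have hza : ∀ j, ε ≤ ‖z₀ - a j‖ := by
    intro j
    have h6 : Filter.Tendsto (fun n => ‖(z ∘ φ) n - a j‖) Filter.atTop (nhds ‖z₀ - a j‖) :=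
      (hlim.sub_const (a j)).norm
    exact ge_of_tendsto' h6 fun n => h4 (φ n) (a j) (Or.inr ⟨j, rfl⟩)
  have hne : ∀ j, z₀ - a j ≠ 0 := fun j h => by
    have := hza j
    rw [h, norm_zero] at this
    linarith
  have hlog : ∀ j, Filter.Tendsto (fun n => Real.log ‖g j * ((z ∘ φ) n - a j)‖) Filter.atTop
      (nhds (Real.log ‖g j * (z₀ - a j)‖)) := by
    intro j
    refine Filter.Tendsto.log ?_ (norm_ne_zero_iff.2 (mul_ne_zero (hg j) (hne j)))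
    exact ((hlim.sub_const (a j)).const_mul (g j)).norm
  have hxd : ∀ j, Filter.Tendsto (fun n => x (φ n) * d (φ n) j) Filter.atTop
      (nhds (Real.log ‖g j * (z₀ - a j)‖)) := by
    intro j
    have h6 : Filter.Tendsto (fun n => Real.log ‖g j * ((z ∘ φ) n - a j)‖ - x (φ n) * d (φ n) j)
        Filter.atTop (nhds 0) := by
      refine squeeze_zero_norm (fun n => ?_) hinv'
      rw [Real.norm_eq_abs]
      exact h3 (φ n) j
    have h7 := (hlog j).sub h6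
    simpa using h7
  have hd0 : ∀ j, Filter.Tendsto (fun n => d (φ n) j) Filter.atTop (nhds (d₀ j)) := by
    intro j
    rw [tendsto_iff_norm_sub_tendsto_zero]
    refine squeeze_zero (fun n => norm_nonneg _) (fun n => ?_) hinv'
    exact (norm_le_pi_norm (d (φ n) - d₀) j).trans (h1 (φ n)).le
  obtain ⟨j₀, hj₀⟩ : ∃ j, d₀ j ≠ 0 := by
    by_contra hc
    push Not at hc
    exact hd (funext hc)
  have hx : Filter.Tendsto (fun n => x (φ n)) Filter.atTop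
      (nhds (Real.log ‖g j₀ * (z₀ - a j₀)‖ / d₀ j₀)) := by
    have h6 := (hxd j₀).div (hd0 j₀) hj₀
    refine h6.congr' ?_
    have h7 : ∀ᶠ n in Filter.atTop, d (φ n) j₀ ≠ 0 := (hd0 j₀).eventually_ne hj₀
    filter_upwards [h7] with n hn
    show x (φ n) * d (φ n) j₀ / d (φ n) j₀ = x (φ n)
    rw [mul_div_assoc, div_self hn, mul_one]
  have hmem : z₀ ∈ ray g a d₀ := by
    refine ⟨fun j h => hne j (sub_eq_zero.2 h), Real.log ‖g j₀ * (z₀ - a j₀)‖ / d₀ j₀, ?_, ?_⟩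
    · exact ge_of_tendsto' hx fun n => h2 (φ n)
    · intro j
      exact tendsto_nhds_unique (hxd j) (hx.mul (hd0 j))
  have hlast : Filter.Tendsto (fun n => ‖(z ∘ φ) n - z₀‖) Filter.atTop (nhds ‖z₀ - z₀‖) :=
    (hlim.sub_const z₀).norm
  rw [sub_self, norm_zero] at hlast
  have := ge_of_tendsto' hlast fun n => h4 (φ n) z₀ (Or.inl hmem)
  linarith

end BMF
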