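import Pool.Agent.Lib.MP_a325a5_ag.F.Tripod
import Pool.Agent.Lib.MP_a325a5_ag.F.Near

/-! At a complex embedding the point is close to one of three fixed rays.

Proof.  `tripod` (constant `C`) for `y` gives `k`, `x ≥ 0`.  Take logarithms in `hj`:
`N j * log ‖g j (z - a j)‖ = A j * log ‖y‖ + B j * log ‖r y + p‖`, so
`|log ‖g j (z - a j)‖ - x * dir k j| ≤ (|A j| + |B j|) / N j * C ≤ κ C`. -/

namespace BMF

/-- the three directions -/
noncomputable def dir (N : Fin 3 → ℕ) (A B : Fin 3 → ℤ) (k : Fin 3) : Fin 3 → ℝ :=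
  fun j => ((A j : ℝ) / N j) * trp k 0 + ((B j : ℝ) / N j) * trp k 1

theorem near_emb (r p : ℂ) (hr : r ≠ 0) (hp : p ≠ 0) :
    ∃ C : ℝ, 0 < C ∧ ∀ (g a : Fin 3 → ℂ), (∀ j, g j ≠ 0) → ∀ (z y : ℂ), (∀ j, z ≠ a j) → y ≠ 0 →
      r * y + p ≠ 0 → ∀ (N : Fin 3 → ℕ) (A B : Fin 3 → ℤ), (∀ j, 0 < N j) →
      (∀ j, (g j * (z - a j)) ^ N j = y ^ A j * (r * y + p) ^ B j) → ∀ κ : ℝ,
      (∀ j, |(A j : ℝ)| + |(B j : ℝ)| ≤ κ * N j) →
      ∃ k, Near g a (κ * C) (dir N A B k) z := by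
  obtain ⟨C, hC0, hC⟩ := tripod r p hr hp
  refine ⟨C + 1, by linarith, ?_⟩
  intro g a hg z y hz hy hry N A B hN hj κ hκ
  obtain ⟨k, x, hx0, hx1, hx2⟩ := hC y hy hry
  refine ⟨k, hz, x, hx0, fun j => ?_⟩
  have hNj : (0 : ℝ) < N j := by exact_mod_cast hN j
  have h1 : (N j : ℝ) * Real.log ‖g j * (z - a j)‖ =
      A j * Real.log ‖y‖ + B j * Real.log ‖r * y + p‖ := by
    have h2 := congrArg (fun w : ℂ => Real.log ‖w‖) (hj j)
    simp only [norm_pow, norm_mul, norm_zpow] at h2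
    rw [Real.log_mul (zpow_ne_zero _ (norm_ne_zero_iff.2 hy))
      (zpow_ne_zero _ (norm_ne_zero_iff.2 hry)), Real.log_zpow, Real.log_zpow,
      Real.log_pow] at h2
    rw [norm_mul]
    exact h2
  have h3 : Real.log ‖g j * (z - a j)‖ - x * dir N A B k j =
      (A j * (Real.log ‖y‖ - x * trp k 0) + B j * (Real.log ‖r * y + p‖ - x * trp k 1)) / N j := by
    rw [eq_div_iff hNj.ne']
    unfold dir
    have e1 : (Real.log ‖g j * (z - a j)‖ - x * ((A j : ℝ) / N j * trp k 0 +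
        (B j : ℝ) / N j * trp k 1)) * N j = N j * Real.log ‖g j * (z - a j)‖ -
        x * (A j * trp k 0 + B j * trp k 1) := by
      field_simp
    rw [e1, h1]
    ring
  rw [h3, abs_div, abs_of_pos hNj, div_le_iff₀ hNj]
  have hA := abs_nonneg (A j : ℝ)
  have hB := abs_nonneg (B j : ℝ)
  calc |(A j : ℝ) * (Real.log ‖y‖ - x * trp k 0) + B j * (Real.log ‖r * y + p‖ - x * trp k 1)|
      ≤ |(A j : ℝ)| * |Real.log ‖y‖ - x * trp k 0| +
        |(B j : ℝ)| * |Real.log ‖r * y + p‖ - x * trp k 1| := by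
        refine (abs_add_le _ _).trans ?_
        rw [abs_mul, abs_mul]
    _ ≤ |(A j : ℝ)| * C + |(B j : ℝ)| * C :=
        add_le_add (mul_le_mul_of_nonneg_left hx1 hA) (mul_le_mul_of_nonneg_left hx2 hB)
    _ = (|(A j : ℝ)| + |(B j : ℝ)|) * C := by ring
    _ ≤ (κ * N j) * C := mul_le_mul_of_nonneg_right (hκ j) hC0
    _ ≤ (κ * N j) * (C + 1) := by
        have : 0 ≤ κ * N j := (add_nonneg hA hB).trans (hκ j)
        nlinarith
    _ = κ * (C + 1) * N j := by ring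

end BMF
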