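import Mathlib

/-! Counting pairs in the same class.

Proof.  `∑ c, m_c = n` for the class sizes `m_c`, the number of pairs is `∑ c, m_c ^ 2`, and
`n ^ 2 ≤ N ∑ c, m_c ^ 2` (Cauchy, `sq_sum_le_card_mul_sum_sq`); the diagonal has `n` pairs. -/

namespace BMF

theorem pair_card {A : Type} [DecidableEq A] (O : Finset A) (N : ℕ) (f : A → Fin N) :
    (O.card : ℝ) ^ 2 / N - O.card ≤ ((O.offDiag.filter fun p => f p.1 = f p.2).card : ℝ) := by
  classical
  set m : Fin N → ℕ := fun c => (O.filter fun x => f x = c).card with hm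
  have h1 : O.card = ∑ c : Fin N, m c :=
    Finset.card_eq_sum_card_fiberwise (f := f) (t := Finset.univ) (fun _ _ => Finset.mem_univ _)
  have h2 : ((O ×ˢ O).filter fun p => f p.1 = f p.2).card = ∑ c : Fin N, m c ^ 2 := by
    rw [Finset.card_eq_sum_card_fiberwise (f := fun p : A × A => f p.1) (t := Finset.univ)
      (fun _ _ => Finset.mem_univ _)]
    refine Finset.sum_congr rfl fun c _ => ?_
    have : (((O ×ˢ O).filter fun p => f p.1 = f p.2).filter fun p => f p.1 = c)
        = (O.filter fun x => f x = c) ×ˢ (O.filter fun x => f x = c) := by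
      ext ⟨x, y⟩
      simp only [Finset.mem_filter, Finset.mem_product]
      constructor
      · rintro ⟨⟨⟨hx, hy⟩, hxy⟩, hc⟩
        exact ⟨⟨hx, hc⟩, hy, hxy ▸ hc⟩
      · rintro ⟨⟨hx, hc⟩, hy, hc'⟩
        exact ⟨⟨⟨hx, hy⟩, hc.trans hc'.symm⟩, hc⟩
    rw [this, Finset.card_product, sq]
  have h3 : ((O ×ˢ O).filter fun p => f p.1 = f p.2).card ≤
      (O.offDiag.filter fun p => f p.1 = f p.2).card + O.card := by
    have hsub : ((O ×ˢ O).filter fun p => f p.1 = f p.2) ⊆
        (O.offDiag.filter fun p => f p.1 = f p.2) ∪ O.diag := by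
      rintro ⟨x, y⟩ hxy
      simp only [Finset.mem_filter, Finset.mem_product] at hxy
      simp only [Finset.mem_union, Finset.mem_filter, Finset.mem_offDiag, Finset.mem_diag]
      by_cases h : x = y
      · exact Or.inr ⟨hxy.1.1, h⟩
      · exact Or.inl ⟨⟨hxy.1.1, hxy.1.2, h⟩, hxy.2⟩
    refine (Finset.card_le_card hsub).trans ((Finset.card_union_le _ _).trans ?_)
    rw [Finset.diag_card]
  have h4 : (O.card : ℝ) ^ 2 ≤ N * ∑ c : Fin N, (m c : ℝ) ^ 2 := by
    have := @sq_sum_le_card_mul_sum_sq (Fin N) ℝ _ _ _ _ Finset.univ (fun c => (m c : ℝ))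
    rw [Finset.card_univ, Fintype.card_fin] at this
    rw [h1]
    push_cast
    exact this
  have h5 : (O.card : ℝ) ^ 2 / N ≤ ∑ c : Fin N, (m c : ℝ) ^ 2 := by
    rcases Nat.eq_zero_or_pos N with h0 | h0
    · subst h0
      simp
    · rw [div_le_iff₀ (by exact_mod_cast h0)]
      linarith
  have h6 : (∑ c : Fin N, (m c : ℝ) ^ 2) ≤
      ((O.offDiag.filter fun p => f p.1 = f p.2).card : ℝ) + O.card := by
    have := h3
    rw [h2] at this
    exact_mod_cast this
  linarith

end BMF
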