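import Pool.Agent.Lib.MP_a325a5_ag.F.CntEmb
import Pool.Agent.Lib.MP_a325a5_ag.F.Pair

/-! The discriminant inequality: clustering at the embeddings above `τ` bounds the number of
elements.

Proof.  Put `m v x = max (lg v x) 0`.  For every place `∑_{(x,y) ∈ O.offDiag} lg v (x - y) ≤
∑_{(x,y)} (m v x + m v y) + card (offDiag) * ar v` (`lg_sub_le`).  At an embedding `σ` above `τ` the
pairs with `f (σ x) = f (σ y)` satisfy `lg (x - y) ≤ log ε + m x + m y` (`log (max 1 a) = max (log a) 0`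
for `a ≥ 0`), so one can subtract `(n ^ 2 / N - n) * log (2 / ε)` (`pair_card`, `ε ≤ 2`).  Apply `tot`:
the left side is `0` (`tot_lg`, `x - y ≠ 0`), on the right
`∑_{(x,y)} (ht x + ht y) + n (n - 1) log 2 - (n ^ 2 / N - n) log (2 / ε) / [L : ℚ]` (`tot_ar`,
`tot_emb`), where `ht x ≤ B`. -/

open NumberField

namespace BMF

private lemma disc_logmax {a : ℝ} : Real.log (max 1 a) ≤ max (Real.log a) 0 := by
  rcases le_total a 1 with h | h
  · rw [max_eq_left h, Real.log_one]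
    exact le_max_right _ _
  · rw [max_eq_right h]
    exact le_max_left _ _

private lemma disc_near {F : Type} [Field F] [NumberField F] (σ : F →+* ℂ) {x y : F} (hxy : x ≠ y)
    {ε : ℝ} (hε : 0 < ε) (h : ‖σ x - σ y‖ ≤ ε * (max 1 ‖σ x‖ * max 1 ‖σ y‖)) :
    lg (.inl σ) (x - y) ≤ max (lg (.inl σ) x) 0 + max (lg (.inl σ) y) 0 + Real.log 2 -
      Real.log (2 / ε) := by
  have h0 : 0 < ‖σ x - σ y‖ := by
    rw [norm_pos_iff, sub_ne_zero]
    exact fun e => hxy (σ.injective e)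
  have hm : ∀ a : ℝ, 0 < max 1 a := fun a => lt_of_lt_of_le one_pos (le_max_left _ _)
  have h1 := Real.log_le_log h0 h
  rw [Real.log_mul hε.ne' (mul_pos (hm _) (hm _)).ne', Real.log_mul (hm _).ne' (hm _).ne'] at h1
  have h2 : lg (.inl σ) (x - y) = Real.log ‖σ x - σ y‖ := by
    unfold lg
    rw [av_inl, map_sub]
  have h3 : lg (.inl σ) x = Real.log ‖σ x‖ := rfl
  have h4 : lg (.inl σ) y = Real.log ‖σ y‖ := rfl
  rw [h2, h3, h4, Real.log_div two_ne_zero hε.ne']
  have h5 := disc_logmax (a := ‖σ x‖)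
  have h6 := disc_logmax (a := ‖σ y‖)
  linarith

open Classical in
theorem disc {L : Type} [Field L] [NumberField L] {F : Type} [Field F] [NumberField F]
    [Algebra L F] (τ : L →+* ℂ) (O : Finset F) (B : ℝ) (hB : ∀ x ∈ O, ht x ≤ B) (N : ℕ)
    (f : ℂ → Fin N) (ε : ℝ) (hε : 0 < ε) (hε2 : ε ≤ 2)
    (h : ∀ σ : F →+* ℂ, σ.comp (algebraMap L F) = τ → ∀ x ∈ O, ∀ y ∈ O, f (σ x) = f (σ y) →
      ‖σ x - σ y‖ ≤ ε * (max 1 ‖σ x‖ * max 1 ‖σ y‖)) :
    ((O.card : ℝ) ^ 2 / N - O.card) * Real.log (2 / ε) ≤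
      (Module.finrank ℚ L : ℝ) * ((O.card : ℝ) * (O.card - 1) * (2 * B + Real.log 2)) := by
  have hlog : 0 ≤ Real.log (2 / ε) := Real.log_nonneg (by rw [le_div_iff₀ hε]; linarith)
  obtain ⟨c, hc⟩ : ∃ c, ((O.card : ℝ) ^ 2 / N - O.card) * Real.log (2 / ε) = c := ⟨_, rfl⟩
  have hne : ∀ p ∈ O.offDiag, p.1 ≠ p.2 := fun p hp => (Finset.mem_offDiag.1 hp).2.2
  -- the local inequality
  have hloc : ∀ v : Pl F, ∑ p ∈ O.offDiag, lg v (p.1 - p.2) ≤
      ∑ p ∈ O.offDiag, (max (lg v p.1) 0 + max (lg v p.2) 0 + ar v) -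
        Sum.elim (fun σ : F →+* ℂ => if σ.comp (algebraMap L F) = τ then c else 0)
          (fun _ => 0) v := by
    intro v
    have hgen : ∑ p ∈ O.offDiag, lg v (p.1 - p.2) ≤
        ∑ p ∈ O.offDiag, (max (lg v p.1) 0 + max (lg v p.2) 0 + ar v) :=
      Finset.sum_le_sum fun p hp => lg_sub_le v (hne p hp)
    rcases v with σ | w
    · simp only [Sum.elim_inl]
      split_ifs with hσ
      · have hpair : ∀ p ∈ O.offDiag, lg (.inl σ) (p.1 - p.2) ≤
            (max (lg (.inl σ) p.1) 0 + max (lg (.inl σ) p.2) 0 + ar (.inl σ)) -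
              (if f (σ p.1) = f (σ p.2) then Real.log (2 / ε) else 0) := by
          intro p hp
          obtain ⟨hp1, hp2, hp3⟩ := Finset.mem_offDiag.1 hp
          split_ifs with hf
          · exact disc_near σ hp3 hε (h σ hσ p.1 hp1 p.2 hp2 hf)
          · rw [sub_zero]
            exact lg_sub_le _ hp3
        refine (Finset.sum_le_sum hpair).trans ?_
        rw [Finset.sum_sub_distrib]
        refine sub_le_sub_left ?_ _
        rw [← Finset.sum_filter, Finset.sum_const, nsmul_eq_mul, ← hc]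
        refine mul_le_mul_of_nonneg_right ?_ hlog
        exact pair_card O N fun x => f (σ x)
      · rw [sub_zero]
        exact hgen
    · simp only [Sum.elim_inr]
      rw [sub_zero]
      exact hgen
  have fs1 : ∀ p ∈ O.offDiag, FS fun v : Pl F => lg v (p.1 - p.2) := fun p hp =>
    fs_lg (sub_ne_zero.2 (hne p hp))
  have fs2 : ∀ p : F × F, FS fun v : Pl F => max (lg v p.1) 0 + max (lg v p.2) 0 + ar v :=
    fun p => ((fs_ht p.1).add (fs_ht p.2)).add fs_ar
  have fs3 : FS fun v : Pl F => Sum.elim (fun σ : F →+* ℂ =>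
      if σ.comp (algebraMap L F) = τ then c else 0) (fun _ => 0) v := FS.inf _ fun w => rfl
  have htot := tot_mono (FS.sum _ fs1) ((FS.sum _ fun p _ => fs2 p).sub fs3) hloc
  rw [tot_sum _ fs1, tot_sub (FS.sum _ fun p _ => fs2 p) fs3, tot_sum _ fun p _ => fs2 p,
    tot_emb τ c, Finset.sum_eq_zero fun p hp => tot_lg (sub_ne_zero.2 (hne p hp))] at htot
  have hterm : ∑ p ∈ O.offDiag, tot (fun v : Pl F => max (lg v p.1) 0 + max (lg v p.2) 0 + ar v) ≤
      (O.card : ℝ) * (O.card - 1) * (2 * B + Real.log 2) := by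
    have h1 : ∀ p ∈ O.offDiag, tot (fun v : Pl F => max (lg v p.1) 0 + max (lg v p.2) 0 + ar v) ≤
        2 * B + Real.log 2 := by
      intro p hp
      obtain ⟨hp1, hp2, -⟩ := Finset.mem_offDiag.1 hp
      rw [tot_add ((fs_ht p.1).add (fs_ht p.2)) fs_ar, tot_add (fs_ht p.1) (fs_ht p.2), tot_ar]
      have h2 := hB p.1 hp1
      have h3 := hB p.2 hp2
      unfold ht at h2 h3
      linarith
    refine (Finset.sum_le_sum h1).trans (le_of_eq ?_)
    rw [Finset.sum_const, nsmul_eq_mul, Finset.offDiag_card, Nat.cast_sub (Nat.le_mul_self _)]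
    push_cast
    ring
  have hL : (0 : ℝ) < (Module.finrank ℚ L : ℝ) := finrank_pos
  have h5 : c / (Module.finrank ℚ L : ℝ) ≤ (O.card : ℝ) * (O.card - 1) * (2 * B + Real.log 2) := by
    linarith
  rw [div_le_iff₀ hL] at h5
  rw [hc]
  linarith

end BMF
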