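import Mathlib

/-! Galois extensions and orbits.

`exists_galois`: the normal closure of `K / L` in an algebraic closure of `K`
(`normalClosure L K (AlgebraicClosure K)`), a finite extension of `L`, hence a number field.
`card_orbit`: the roots of the minimal polynomial of `t` over `L` in the Galois extension `F` are
the conjugates `g t` (`minpoly.exists_algEquiv_of_root` or `Normal.minpoly_eq_iff_mem_orbit`), it
splits and is separable. -/

open NumberField

namespace BMF

theorem exists_galois (L K : Type) [Field L] [NumberField L] [Field K] [NumberField K]
    [Algebra L K] :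
    ∃ (F : Type) (_ : Field F) (_ : NumberField F) (_ : Algebra L F) (_ : IsGalois L F),
      Nonempty (K →ₐ[L] F) := by
  have : IsScalarTower ℚ L K := IsScalarTower.rat
  have : FiniteDimensional L K := Module.Finite.of_restrictScalars_finite ℚ L K
  have : Algebra.IsAlgebraic L (AlgebraicClosure K) :=
    Algebra.IsAlgebraic.trans L K (AlgebraicClosure K)
  have : Normal L (AlgebraicClosure K) :=
    normal_iff.2 fun x => ⟨(Algebra.IsAlgebraic.isAlgebraic x).isIntegral, IsAlgClosed.splits _⟩
  have h1 : FiniteDimensional L (IntermediateField.normalClosure L K (AlgebraicClosure K)) := inferInstance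
  have : CharZero (IntermediateField.normalClosure L K (AlgebraicClosure K)) :=
    charZero_of_injective_algebraMap
      (algebraMap L (IntermediateField.normalClosure L K (AlgebraicClosure K))).injective
  have : IsScalarTower ℚ L (IntermediateField.normalClosure L K (AlgebraicClosure K)) := IsScalarTower.rat
  have : FiniteDimensional ℚ (IntermediateField.normalClosure L K (AlgebraicClosure K)) :=
    FiniteDimensional.trans ℚ L _
  have : Normal L (IntermediateField.normalClosure L K (AlgebraicClosure K)) := inferInstance
  exact ⟨IntermediateField.normalClosure L K (AlgebraicClosure K), inferInstance, NumberField.mk,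
    inferInstance, IsGalois.mk, ⟨IsScalarTower.toAlgHom L K _⟩⟩

theorem card_orbit {L F : Type} [Field L] [NumberField L] [Field F] [NumberField F]
    [Algebra L F] [IsGalois L F] (t : F) :
    ∃ O : Finset F, (∀ x : F, x ∈ O ↔ ∃ g : F ≃ₐ[L] F, x = g t) ∧
      O.card = (minpoly L t).natDegree := by
  classical
  have : Normal L F := inferInstance
  have hint : IsIntegral L t := Normal.isIntegral inferInstance t
  have hne : minpoly L t ≠ 0 := minpoly.ne_zero hint
  refine ⟨((minpoly L t).rootSet F).toFinset, ?_, ?_⟩
  · intro x
    rw [Set.mem_toFinset, Polynomial.mem_rootSet]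
    constructor
    · rintro ⟨-, h⟩
      obtain ⟨σ, hσ⟩ := minpoly.exists_algEquiv_of_root' (hint.isAlgebraic) h
      exact ⟨σ, hσ.symm⟩
    · rintro ⟨g, rfl⟩
      refine ⟨hne, ?_⟩
      have h2 := minpoly.algEquiv_eq g t
      rw [← h2]
      exact minpoly.aeval L (g t)
  · rw [Set.toFinset_card]
    exact Polynomial.card_rootSet_eq_natDegree (IsGalois.separable L t) (IsGalois.splits L t)

end BMF
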