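import Pool.Agent.Lib.MP_a325a5_ag.F.NearTri

/-! Clustering, uniform in the three directions (compactness of the product of three spheres).

Proof.  The set `X` of all `D` with `‖D k‖ = 1` for all `k` is compact.  For each `D₀ ∈ X` take
`N`, `δ` from `near_tri`; finitely many of the open sets `{D : ‖D k - D₀ k‖ < δ for all k}` cover
`X`.  Let `δ` be the minimum, `N₀` the maximum.  (`Near` with a smaller `δ` implies `Near` with a
larger one.)  For an arbitrary `d` put `D k = ‖d k‖⁻¹ • d k` if `d k ≠ 0`, and `D k` any unit vector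
otherwise; `Near g a δ (d k) z` implies `Near g a δ (D k) z` (`near_smul`, `near_zero`). -/

namespace BMF

theorem near_cov (g a : Fin 3 → ℂ) (hg : ∀ j, g j ≠ 0)
    (hNA : ∀ d : Fin 3 → ℝ, d ≠ 0 → (ray g a d).Finite) (ε : ℕ → ℝ) (hε : ∀ n, 0 < ε n) :
    ∃ δ : ℝ, 0 < δ ∧ ∃ N₀ : ℕ, ∀ d : Fin 3 → Fin 3 → ℝ, ∃ N : ℕ, N ≤ N₀ ∧
      ∃ f : ℂ → Fin N, ∀ z w : ℂ, (∃ k, Near g a δ (d k) z) → (∃ k, Near g a δ (d k) w) →
        f z = f w → ‖z - w‖ ≤ ε N * (max 1 ‖z‖ * max 1 ‖w‖) := by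
  classical
  obtain ⟨X, hXd⟩ : ∃ X : Set (Fin 3 → Fin 3 → ℝ),
      X = Set.pi Set.univ fun _ => Metric.sphere (0 : Fin 3 → ℝ) 1 := ⟨_, rfl⟩
  have hXc : IsCompact X := by
    rw [hXd]
    exact isCompact_univ_pi fun _ => isCompact_sphere _ _
  have hXm : ∀ D, D ∈ X ↔ ∀ k, ‖D k‖ = 1 := by
    intro D
    rw [hXd]
    simp [Set.mem_pi]
  have key : ∀ D₀ : Fin 3 → Fin 3 → ℝ, ∃ N : ℕ, ∃ δ : ℝ, 0 < δ ∧ (D₀ ∈ X →
      ∀ D : Fin 3 → Fin 3 → ℝ, (∀ k, ‖D k - D₀ k‖ < δ) →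
      ∃ f : ℂ → Fin N, ∀ z w : ℂ, (∃ k, Near g a δ (D k) z) → (∃ k, Near g a δ (D k) w) →
        f z = f w → ‖z - w‖ ≤ ε N * (max 1 ‖z‖ * max 1 ‖w‖)) := by
    intro D₀
    by_cases hD : D₀ ∈ X
    · have hD0 : ∀ k, D₀ k ≠ 0 := fun k h => by
        have := (hXm D₀).1 hD k
        rw [h, norm_zero] at this
        exact zero_ne_one this
      obtain ⟨N, δ, h1, h2⟩ := near_tri g a hg D₀ hD0 (fun k => hNA _ (hD0 k)) ε hε
      exact ⟨N, δ, h1, fun _ => h2⟩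
    · exact ⟨0, 1, one_pos, fun h => absurd h hD⟩
  choose N δ hδ hkey using key
  obtain ⟨t, ht1, ht2⟩ := hXc.elim_nhds_subcover
    (fun D₀ => {D : Fin 3 → Fin 3 → ℝ | ∀ k, ‖D k - D₀ k‖ < δ D₀}) (fun D₀ _ => by
      have hopen : IsOpen {D : Fin 3 → Fin 3 → ℝ | ∀ k, ‖D k - D₀ k‖ < δ D₀} := by
        rw [Set.setOf_forall]
        refine isOpen_iInter_of_finite fun k => ?_
        exact isOpen_lt (by fun_prop) continuous_const
      refine hopen.mem_nhds fun k => ?_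
      rw [sub_self, norm_zero]
      exact hδ D₀)
  have hmin : ∀ s : Finset (Fin 3 → Fin 3 → ℝ), ∃ δ₀ : ℝ, 0 < δ₀ ∧ ∀ D ∈ s, δ₀ ≤ δ D := by
    intro s
    induction s using Finset.induction_on with
    | empty => exact ⟨1, one_pos, fun D hD => absurd hD (Finset.notMem_empty D)⟩
    | insert D s _ ih =>
      obtain ⟨δ₀, h1, h2⟩ := ih
      refine ⟨min δ₀ (δ D), lt_min h1 (hδ D), fun E hE => ?_⟩
      rcases Finset.mem_insert.1 hE with rfl | hE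
      · exact min_le_right _ _
      · exact (min_le_left _ _).trans (h2 E hE)
  obtain ⟨δ₀, h1, h2⟩ := hmin t
  refine ⟨δ₀, h1, t.sup N, fun d => ?_⟩
  obtain ⟨D, hD⟩ : ∃ D : Fin 3 → Fin 3 → ℝ, ∀ k, D k = if d k = 0 then 1 else ‖d k‖⁻¹ • d k :=
    ⟨_, fun k => rfl⟩
  have hDX : D ∈ X := by
    rw [hXm]
    intro k
    rw [hD]
    split_ifs with h
    · exact norm_one
    · exact norm_smul_inv_norm h
  obtain ⟨D₀, hD₀t, hD₀⟩ := Set.mem_iUnion₂.1 (ht2 hDX)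
  obtain ⟨f, hf⟩ := hkey D₀ (ht1 D₀ hD₀t) D hD₀
  have hnear : ∀ z : ℂ, (∃ k, Near g a δ₀ (d k) z) → ∃ k, Near g a (δ D₀) (D k) z := by
    rintro z ⟨k, hk⟩
    refine ⟨k, near_mono (h2 D₀ hD₀t) ?_⟩
    by_cases h : d k = 0
    · rw [h] at hk
      exact near_zero g a δ₀ (D k) z hk
    · have hn : 0 < ‖d k‖ := norm_pos_iff.2 h
      refine near_smul g a δ₀ (D k) ‖d k‖ hn z ?_
      rw [hD, if_neg h, smul_smul, mul_inv_cancel₀ hn.ne', one_smul]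
      exact hk
  exact ⟨N D₀, Finset.le_sup hD₀t, f, fun z w hz hw => hf z w (hnear z hz) (hnear w hw)⟩

end BMF
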