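import Pool.Agent.Lib.MP_a325a5_ag.F.OneRel
import Pool.Agent.Lib.MP_a325a5_ag.F.ClusN
import Pool.Agent.Lib.MP_a325a5_ag.F.NearCov
import Pool.Agent.Lib.MP_a325a5_ag.F.Disc
import Pool.Agent.Lib.MP_a325a5_ag.F.GalEx

/-! The clustering argument in a Galois extension.

Proof.  Let `B` be the constant of `one_rel` for `α`, `γ`, `n = [L : ℚ]`,
`ε N = 2 exp (-(2 N (n (2 B + log 2) + 1)))` (at most `2`), and `δ`, `N₀` from `near_cov` for the
complex numbers `τ (γ j)`, `τ (α j)`.  Let `C` be the constant of `near_emb` for `τ r`, `τ p`, and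
`κ = δ / C`.  Let `D₁ = 2 N₀`.
Let `t`, `s`, and for every `j` the integers `N j`, `A j`, `B j` be as in the statement (`choose`).
For `g ∈ Gal (F / L)` the relation `a` holds for `g t`, so `ht (g t) ≤ B`.  For an embedding `σ`
above `τ` and `g`, `near_emb` for `z = σ (g t)`, `y = σ (g s)` gives `Near .. δ (dir N A B k) (σ (g t))`
for some `k`; the three directions do not depend on `σ`, `g`.  So with the orbit `O` of `t`
(`card_orbit`) and `f`, `N ≤ N₀` of `near_cov` for `d = dir N A B` the hypotheses of `disc` hold with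
`ε = ε N`.  If `card O > 2 N` then `(card O) ^ 2 / N - card O ≥ (card O) ^ 2 / (2 N)`, and `disc` gives
`(card O) ^ 2 (n (2 B + log 2) + 1) ≤ n (card O) ^ 2 (2 B + log 2)`, a contradiction.  So
`card O ≤ 2 N ≤ 2 N₀`. -/

open NumberField

namespace BMF

private theorem ClusG_emb {L F : Type} [Field L] [Field F] [Algebra L F] (α γ : Fin 3 → L) (r p : L)
    (τ : L →+* ℂ) (C δ : ℝ) (N : Fin 3 → ℕ) (A B : Fin 3 → ℤ) (κ : ℝ) (hκ : κ * C = δ)
    (hN : ∀ j, 0 < N j) (hle : ∀ j, |(A j : ℝ)| + |(B j : ℝ)| ≤ κ * N j)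
    (hnear : ∀ (g a : Fin 3 → ℂ), (∀ j, g j ≠ 0) → ∀ (z y : ℂ), (∀ j, z ≠ a j) → y ≠ 0 →
      τ r * y + τ p ≠ 0 → ∀ (N : Fin 3 → ℕ) (A B : Fin 3 → ℤ), (∀ j, 0 < N j) →
      (∀ j, (g j * (z - a j)) ^ N j = y ^ A j * (τ r * y + τ p) ^ B j) → ∀ κ : ℝ,
      (∀ j, |(A j : ℝ)| + |(B j : ℝ)| ≤ κ * N j) →
      ∃ k, Near g a (κ * C) (dir N A B k) z)
    (hγ : ∀ j, γ j ≠ 0) (t s : F) (ht : ∀ j, t ≠ algebraMap L F (α j)) (hs : s ≠ 0)
    (hrs : algebraMap L F r * s + algebraMap L F p ≠ 0)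
    (heq : ∀ j, (algebraMap L F (γ j) * (t - algebraMap L F (α j))) ^ N j =
          s ^ A j * (algebraMap L F r * s + algebraMap L F p) ^ B j)
    (σ : F →+* ℂ) (hσ : σ.comp (algebraMap L F) = τ) (g : F ≃ₐ[L] F) :
    ∃ k, Near (fun j => τ (γ j)) (fun j => τ (α j)) δ (dir N A B k) (σ (g t)) := by
  have hc : ∀ x : L, σ (g (algebraMap L F x)) = τ x := by
    intro x
    rw [g.commutes, ← hσ]
    rfl
  have hρ : Function.Injective fun x => σ (g x) := σ.injective.comp g.injective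
  rw [← hκ]
  refine hnear (fun j => τ (γ j)) (fun j => τ (α j)) ?_ (σ (g t)) (σ (g s)) ?_ ?_ ?_ N A B hN ?_ κ hle
  · intro j h0
    exact hγ j ((map_eq_zero τ).1 h0)
  · intro j h0
    rw [← hc] at h0
    exact ht j (hρ h0)
  · intro h0
    exact hs ((map_eq_zero g).1 ((map_eq_zero σ).1 h0))
  · intro h0
    apply hrs
    have h1 : σ (g (algebraMap L F r * s + algebraMap L F p)) = 0 := by
      rw [map_add, map_mul, map_add, map_mul, hc, hc]
      exact h0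
    exact (map_eq_zero g).1 ((map_eq_zero σ).1 h1)
  · intro j
    have h1 := congrArg (fun x => σ (g x)) (heq j)
    simp only [map_pow, map_mul, map_sub, map_zpow₀, map_add, hc] at h1
    exact h1

private theorem ClusG_num (c N : ℕ) (n R : ℝ) (hn : 0 ≤ n) (hR : 0 ≤ R) (hN : 0 < N) (hc : 0 < c)
    (h : ((c : ℝ) ^ 2 / N - c) * (2 * N * (n * R + 1)) ≤ n * ((c : ℝ) * (c - 1) * R)) :
    c ≤ 2 * N := by
  by_contra hlt
  push Not at hlt
  have hN' : (0 : ℝ) < N := by exact_mod_cast hN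
  have hc' : (0 : ℝ) < c := by exact_mod_cast hc
  have hlt' : 2 * (N : ℝ) < c := by exact_mod_cast hlt
  have h1 : ((c : ℝ) ^ 2 / N - c) * (2 * N * (n * R + 1)) =
      (2 * (c : ℝ) ^ 2 - 2 * N * c) * (n * R + 1) := by
    field_simp
  rw [h1] at h
  have hnR : 0 ≤ n * R := mul_nonneg hn hR
  have h2 : (c : ℝ) ^ 2 ≤ 2 * (c : ℝ) ^ 2 - 2 * N * c := by nlinarith
  have h3 : (c : ℝ) ^ 2 * (n * R + 1) ≤ (2 * (c : ℝ) ^ 2 - 2 * N * c) * (n * R + 1) :=
    mul_le_mul_of_nonneg_right h2 (by linarith)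
  have h4 : n * ((c : ℝ) * (c - 1) * R) = (c : ℝ) ^ 2 * (n * R) - c * (n * R) := by ring
  have h5 : 0 ≤ (c : ℝ) * (n * R) := mul_nonneg hc'.le hnR
  have h6 : 0 < (c : ℝ) ^ 2 := by positivity
  nlinarith

theorem clus_gal {L : Type} [Field L] [NumberField L] (α γ : Fin 3 → L) (r p : L)
    (hα : Function.Injective α) (hγ : ∀ j, γ j ≠ 0) (hr : r ≠ 0) (hp : p ≠ 0) (τ : L →+* ℂ)
    (hNA : ∀ d : Fin 3 → ℝ, d ≠ 0 → (ray (fun j => τ (γ j)) (fun j => τ (α j)) d).Finite) :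
    ∃ κ : ℝ, 0 < κ ∧ ∃ D₁ : ℕ, ∀ (F : Type) [Field F] [NumberField F] [Algebra L F]
      [IsGalois L F] (t s : F), (∀ j, t ≠ algebraMap L F (α j)) → s ≠ 0 →
      algebraMap L F r * s + algebraMap L F p ≠ 0 →
      (∃ a : Fin 3 → ℤ, a ≠ 0 ∧
        ∏ j, (algebraMap L F (γ j) * (t - algebraMap L F (α j))) ^ a j = 1) →
      (∀ j, ∃ N : ℕ, 0 < N ∧ ∃ A B : ℤ,
        (algebraMap L F (γ j) * (t - algebraMap L F (α j))) ^ N =
          s ^ A * (algebraMap L F r * s + algebraMap L F p) ^ B ∧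
        |(A : ℝ)| + |(B : ℝ)| ≤ κ * N) →
      (minpoly L t).natDegree ≤ D₁ := by
  classical
  obtain ⟨B, hB0, hB⟩ := one_rel α γ hα hγ
  set n : ℝ := (Module.finrank ℚ L : ℝ) with hn
  have hn0 : 0 < n := finrank_pos
  set R : ℝ := 2 * B + Real.log 2 with hR
  have hlog2 : 0 ≤ Real.log 2 := Real.log_nonneg (by norm_num)
  have hR0 : 0 ≤ R := by linarith
  have hnR : 0 ≤ n * R := mul_nonneg hn0.le hR0
  set ε : ℕ → ℝ := fun N => 2 * Real.exp (-(2 * N * (n * R + 1))) with hε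
  have hε0 : ∀ N, 0 < ε N := fun N => by
    simp only [hε]
    positivity
  have hγ' : ∀ j, τ (γ j) ≠ 0 := fun j h0 => hγ j ((map_eq_zero τ).1 h0)
  obtain ⟨δ, hδ, N₀, hcov⟩ := near_cov (fun j => τ (γ j)) (fun j => τ (α j)) hγ' hNA ε hε0
  have hr' : τ r ≠ 0 := fun h0 => hr ((map_eq_zero τ).1 h0)
  have hp' : τ p ≠ 0 := fun h0 => hp ((map_eq_zero τ).1 h0)
  obtain ⟨C, hC, hnear⟩ := near_emb (τ r) (τ p) hr' hp'
  refine ⟨δ / C, div_pos hδ hC, 2 * N₀, ?_⟩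
  intro F _ _ _ _ t s ht0 hs hrs hrel hj
  choose N hN A B' heq hle using hj
  obtain ⟨a, ha, hrel⟩ := hrel
  have hκ : δ / C * C = δ := div_mul_cancel₀ _ hC.ne'
  obtain ⟨M, hM, f, hf⟩ := hcov (dir N A B')
  obtain ⟨O, hO, hcard⟩ := card_orbit (L := L) t
  have hht : ∀ x ∈ O, ht x ≤ B := by
    intro x hx
    obtain ⟨g, rfl⟩ := (hO x).1 hx
    refine hB F (g t) ?_ a ha ?_
    · intro j h0
      apply ht0 j
      apply g.injective
      rw [h0, g.commutes]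
    · have h1 := congrArg g hrel
      simp only [map_prod, map_zpow₀, map_mul, map_sub, g.commutes, map_one] at h1
      exact h1
  have hM0 : 0 < M := by
    rcases Nat.eq_zero_or_pos M with h0 | h0
    · subst h0
      exact (f 0).elim0
    · exact h0
  have hε2 : ε M ≤ 2 := by
    simp only [hε]
    have h1 : Real.exp (-(2 * M * (n * R + 1))) ≤ 1 := by
      rw [Real.exp_le_one_iff]
      have : (0 : ℝ) ≤ 2 * M * (n * R + 1) := by positivity
      linarith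
    linarith
  have hd := disc τ O B hht M f (ε M) (hε0 M) hε2 (by
    intro σ hσ x hx y hy hxy
    obtain ⟨g, rfl⟩ := (hO x).1 hx
    obtain ⟨g', rfl⟩ := (hO y).1 hy
    exact hf _ _
      (ClusG_emb α γ r p τ C δ N A B' (δ / C) hκ hN hle hnear hγ t s ht0 hs hrs heq σ hσ g)
      (ClusG_emb α γ r p τ C δ N A B' (δ / C) hκ hN hle hnear hγ t s ht0 hs hrs heq σ hσ g') hxy)
  have hlog : Real.log (2 / ε M) = 2 * M * (n * R + 1) := by
    simp only [hε]
    rw [div_mul_eq_div_div, div_self (two_ne_zero), one_div, ← Real.exp_neg, neg_neg, Real.log_exp]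
  rw [hlog] at hd
  have hOpos : 0 < O.card := Finset.card_pos.2 ⟨t, (hO t).2 ⟨AlgEquiv.refl, rfl⟩⟩
  have h1 := ClusG_num O.card M n R hn0.le hR0 hM0 hOpos hd
  rw [← hcard]
  omega

end BMF
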