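import Pool.Agent.Lib.MP_a325a5_ag.F.Ar

/-! The proportion of the complex embeddings of `F` above a fixed embedding `τ` of `L` is
`1 / [L : ℚ]`.

Proof.  The `σ : F →+* ℂ` with `σ.comp (algebraMap L F) = τ` correspond to the `L`-algebra
homomorphisms `F →ₐ[L] ℂ` for the algebra structure given by `τ`; their number is `[F : L]`
(`AlgHom.card`), and `[F : ℚ] = [F : L] [L : ℚ]`.  The support is finite (`FS.inf`) and the finsum
is a finite sum (`finsum_split`). -/

open NumberField

namespace BMF

open Classical in
theorem tot_emb {L : Type} [Field L] [NumberField L] {F : Type} [Field F] [NumberField F]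
    [Algebra L F] (τ : L →+* ℂ) (c : ℝ) :
    tot (fun v : Pl F => Sum.elim
      (fun σ => if σ.comp (algebraMap L F) = τ then c else 0) (fun _ => 0) v) =
      c / (Module.finrank ℚ L : ℝ) := by
  have : IsScalarTower ℚ L F := IsScalarTower.rat
  have : FiniteDimensional L F := Module.Finite.of_restrictScalars_finite ℚ L F
  have hcard : ((Finset.univ : Finset (F →+* ℂ)).filter
      fun σ => σ.comp (algebraMap L F) = τ).card = Module.finrank L F := by
    let : Algebra L ℂ := τ.toAlgebra
    rw [← AlgHom.card L F ℂ, ← Finset.card_univ]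
    refine (Finset.card_bij (fun (φ : F →ₐ[L] ℂ) _ => (φ : F →+* ℂ)) ?_ ?_ ?_).symm
    · intro φ _
      rw [Finset.mem_filter]
      refine ⟨Finset.mem_univ _, ?_⟩
      ext x
      exact φ.commutes x
    · intro φ _ ψ _ h
      ext x
      exact congrArg (fun f : F →+* ℂ => f x) h
    · intro σ hσ
      rw [Finset.mem_filter] at hσ
      exact ⟨{ σ with commutes' := fun x => congrArg (fun f : L →+* ℂ => f x) hσ.2 },
        Finset.mem_univ _, RingHom.ext fun _ => rfl⟩
  unfold tot
  rw [finsum_split (FS.inf _ fun w => rfl)]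
  have h0 : ∑ᶠ w : FinitePlace F, Sum.elim
      (fun σ : F →+* ℂ => if σ.comp (algebraMap L F) = τ then c else 0) (fun _ : FinitePlace F => (0 : ℝ))
      (Sum.inr w) = 0 := by
    simp only [Sum.elim_inr]
    exact finsum_zero
  have h1 : ∑ σ : F →+* ℂ, Sum.elim
      (fun σ : F →+* ℂ => if σ.comp (algebraMap L F) = τ then c else 0) (fun _ : FinitePlace F => (0 : ℝ))
      (Sum.inl σ) = (Module.finrank L F : ℝ) * c := by
    simp only [Sum.elim_inl]
    rw [← Finset.sum_filter, Finset.sum_const, nsmul_eq_mul, hcard]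
  rw [h0, h1, add_zero, ← Module.finrank_mul_finrank ℚ L F]
  have h2 : (0 : ℝ) < Module.finrank L F := by exact_mod_cast Module.finrank_pos
  have h3 : (0 : ℝ) < Module.finrank ℚ L := by exact_mod_cast Module.finrank_pos
  push_cast
  field_simp

end BMF
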