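import Pool.Agent.Lib.MP_a325a5_ag.F.BezXY

/-! The coordinate functions of the surface and the binomials of exponent vectors.

Proofs.  `aeval_co` by cases.  `aeval_bin`: `∏ cv i ^ (a i)⁺ = ∏ cv i ^ (a i)⁻` iff
`∏ cv i ^ a i = 1` for nonzero values.  Degrees: `dX (f * g) ≤ dX f + dX g`,
`dX (f - g) ≤ max`, the same for `dY`; each coordinate function has degrees at most `1`. -/

open Polynomial Polynomial.Bivariate

namespace BMF

variable {L : Type} [Field L]

/-- the five coordinate functions -/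
noncomputable def co (α γ : Fin 3 → L) (r p : L) : Fin 5 → L[X][Y] :=
  ![C (C (γ 0) * (X - C (α 0))), C (C (γ 1) * (X - C (α 1))), C (C (γ 2) * (X - C (α 2))), Y,
    C (C r) * Y + C (C p)]

/-- the values of the five coordinate functions at the point `(t, s)` -/
noncomputable def cv (α γ : Fin 3 → L) (r p : L) {K : Type} [Field K] [Algebra L K] (t s : K) :
    Fin 5 → K :=
  ![algebraMap L K (γ 0) * (t - algebraMap L K (α 0)),
    algebraMap L K (γ 1) * (t - algebraMap L K (α 1)),
    algebraMap L K (γ 2) * (t - algebraMap L K (α 2)), s,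
    algebraMap L K r * s + algebraMap L K p]

/-- the binomial of an exponent vector -/
noncomputable def bin (α γ : Fin 3 → L) (r p : L) (a : Fin 5 → ℤ) : L[X][Y] :=
  ∏ i, co α γ r p i ^ (a i).toNat - ∏ i, co α γ r p i ^ (-a i).toNat

/-- the size of an exponent vector -/
def l1 {n : ℕ} (a : Fin n → ℤ) : ℕ := ∑ i, (a i).natAbs

theorem aeval_co (α γ : Fin 3 → L) (r p : L) {K : Type} [Field K] [Algebra L K] (t s : K)
    (i : Fin 5) : aevalAeval t s (co α γ r p i) = cv α γ r p t s i := by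
  fin_cases i <;> simp [co, cv]

theorem aeval_bin (α γ : Fin 3 → L) (r p : L) {K : Type} [Field K] [Algebra L K] (t s : K)
    (h : ∀ i, cv α γ r p t s i ≠ 0) (a : Fin 5 → ℤ) :
    aevalAeval t s (bin α γ r p a) = 0 ↔ ∏ i, cv α γ r p t s i ^ a i = 1 := by
  have h1 : ∏ i, cv α γ r p t s i ^ a i =
      (∏ i, cv α γ r p t s i ^ (a i).toNat) / ∏ i, cv α γ r p t s i ^ (-a i).toNat := by
    rw [← Finset.prod_div_distrib]
    refine Finset.prod_congr rfl fun i _ => ?_
    rw [← zpow_natCast, ← zpow_natCast, ← zpow_sub₀ (h i)]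
    congr 1
    omega
  have h2 : ∏ i, cv α γ r p t s i ^ (-a i).toNat ≠ 0 :=
    Finset.prod_ne_zero_iff.mpr fun i _ => pow_ne_zero _ (h i)
  rw [h1, div_eq_one_iff_eq h2, bin, map_sub, map_prod, map_prod, sub_eq_zero]
  simp only [map_pow, aeval_co]

theorem dX_mul_le (f g : L[X][Y]) : dX (f * g) ≤ dX f + dX g := by
  rw [← dX_equiv, ← dX_equiv, ← dX_equiv, map_mul]
  exact MvPolynomial.degreeOf_mul_le _ _ _

theorem dX_mul (f g : L[X][Y]) (hf : f ≠ 0) (hg : g ≠ 0) : dX (f * g) = dX f + dX g := by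
  rw [← dX_equiv, ← dX_equiv, ← dX_equiv, map_mul]
  refine MvPolynomial.degreeOf_mul_eq ?_ ?_
  · exact (map_ne_zero_iff _ (equivMvPolynomial L).injective).mpr hf
  · exact (map_ne_zero_iff _ (equivMvPolynomial L).injective).mpr hg

private theorem dX_co (α γ : Fin 3 → L) (r p : L) (i : Fin 5) : dX (co α γ r p i) ≤ 1 := by
  unfold dX
  refine Finset.sup_le fun n _ => ?_
  fin_cases i
  · simp only [co, Fin.zero_eta, Matrix.cons_val_zero, coeff_C]
    split_ifs
    · exact (natDegree_C_mul_le _ _).trans (natDegree_X_sub_C_le _)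
    · simp
  · simp only [co, Fin.mk_one, Matrix.cons_val_one, Matrix.cons_val_zero, coeff_C]
    split_ifs
    · exact (natDegree_C_mul_le _ _).trans (natDegree_X_sub_C_le _)
    · simp
  · simp only [co, Fin.reduceFinMk, Matrix.cons_val, coeff_C]
    split_ifs
    · exact (natDegree_C_mul_le _ _).trans (natDegree_X_sub_C_le _)
    · simp
  · simp only [co, Fin.reduceFinMk, Matrix.cons_val, coeff_X]
    split_ifs <;> simp
  · simp only [co, Fin.reduceFinMk, Matrix.cons_val, coeff_add, coeff_C_mul, coeff_X, coeff_C]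
    split_ifs <;> simp

private theorem dY_co (α γ : Fin 3 → L) (r p : L) (i : Fin 5) : (co α γ r p i).natDegree ≤ 1 := by
  fin_cases i
  · simp only [co, Fin.zero_eta, Matrix.cons_val_zero, natDegree_C]
    omega
  · simp only [co, Fin.mk_one, Matrix.cons_val_one, Matrix.cons_val_zero, natDegree_C]
    omega
  · simp only [co, Fin.reduceFinMk, Matrix.cons_val, natDegree_C]
    omega
  · simp only [co, Fin.reduceFinMk, Matrix.cons_val]
    exact natDegree_X_le
  · simp only [co, Fin.reduceFinMk, Matrix.cons_val]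
    exact natDegree_linear_le

private theorem dX_pp (α γ : Fin 3 → L) (r p : L) (e : Fin 5 → ℕ) :
    dX (∏ i, co α γ r p i ^ e i) ≤ ∑ i, e i := by
  rw [← dX_equiv, map_prod]
  refine (MvPolynomial.degreeOf_prod_le _ _ _).trans (Finset.sum_le_sum fun i _ => ?_)
  rw [map_pow]
  refine (MvPolynomial.degreeOf_pow_le _ _ _).trans ?_
  rw [dX_equiv]
  calc e i * dX (co α γ r p i) ≤ e i * 1 := Nat.mul_le_mul_left _ (dX_co α γ r p i)
    _ = e i := Nat.mul_one _

private theorem dY_pp (α γ : Fin 3 → L) (r p : L) (e : Fin 5 → ℕ) :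
    (∏ i, co α γ r p i ^ e i).natDegree ≤ ∑ i, e i := by
  refine (natDegree_prod_le _ _).trans (Finset.sum_le_sum fun i _ => ?_)
  refine natDegree_pow_le.trans ?_
  calc e i * (co α γ r p i).natDegree ≤ e i * 1 := Nat.mul_le_mul_left _ (dY_co α γ r p i)
    _ = e i := Nat.mul_one _

private theorem s1 (a : Fin 5 → ℤ) : ∑ i, (a i).toNat ≤ l1 a := by
  unfold l1
  exact Finset.sum_le_sum fun i _ => by omega

private theorem s2 (a : Fin 5 → ℤ) : ∑ i, (-a i).toNat ≤ l1 a := by
  unfold l1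
  exact Finset.sum_le_sum fun i _ => by omega

theorem dX_bin (α γ : Fin 3 → L) (r p : L) (a : Fin 5 → ℤ) : dX (bin α γ r p a) ≤ l1 a := by
  have h1 := dX_pp α γ r p (fun i => (a i).toNat)
  have h2 := dX_pp α γ r p (fun i => (-a i).toNat)
  rw [← dX_equiv] at h1 h2 ⊢
  rw [bin, map_sub]
  refine (MvPolynomial.degreeOf_sub_le _ _ _).trans (max_le ?_ ?_)
  · exact h1.trans (s1 a)
  · exact h2.trans (s2 a)

theorem dY_bin (α γ : Fin 3 → L) (r p : L) (a : Fin 5 → ℤ) : dY (bin α γ r p a) ≤ l1 a := by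
  unfold dY bin
  refine (natDegree_sub_le _ _).trans (max_le ?_ ?_)
  · exact (dY_pp α γ r p (fun i => (a i).toNat)).trans (s1 a)
  · exact (dY_pp α γ r p (fun i => (-a i).toNat)).trans (s2 a)

end BMF
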