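import Pool.Agent.Lib.MP_a325a5_ag.F.Co

/-! The coordinate functions are pairwise non associated primes of `L[X][Y]`.

Proofs.  `X - α j` is irreducible in `L[X]`, hence prime in `L[X]`, and `C` of a prime is prime
(`Polynomial.prime_C_iff`); `Y` and `r Y + p` are of degree one in `Y` with a unit of `L[X]` as leading
coefficient (up to a unit they are `Y - C c`, `Polynomial.prime_X_sub_C`).  `co_dvd_co`: evaluate at a
zero `(t, s)` of `co i` which is no zero of `co k`.  `bin_ne_zero`: if `bin a = 0` and `a i > 0` then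
`co i` divides `∏ co k ^ (a k)⁻`, so it divides some `co k` with `a k < 0`; the same if `a i < 0`. -/

open Polynomial Polynomial.Bivariate

namespace BMF

variable {L : Type} [Field L]

private theorem pr1 (a g : L) (hg : g ≠ 0) : Prime (C (C g * (X - C a)) : L[X][Y]) := by
  rw [prime_C_iff]
  have hu : IsUnit (C g : L[X]) := isUnit_C.mpr (isUnit_iff_ne_zero.mpr hg)
  exact (associated_unit_mul_left (X - C a) (C g) hu).symm.prime (prime_X_sub_C a)

private theorem pr2 (r p : L) (hr : r ≠ 0) : Prime (C (C r) * Y + C (C p) : L[X][Y]) := by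
  have hu : IsUnit (C (C r) : L[X][Y]) :=
    isUnit_C.mpr (isUnit_C.mpr (isUnit_iff_ne_zero.mpr hr))
  have h1 : (C (C r) * Y + C (C p) : L[X][Y]) = C (C r) * (Y - C (C (-(p / r)))) := by
    rw [mul_sub, ← C_mul, ← C_mul, mul_neg, mul_div_cancel₀ _ hr, C_neg, C_neg, sub_neg_eq_add]
  rw [h1]
  exact (associated_unit_mul_left _ _ hu).symm.prime (prime_X_sub_C _)

theorem co_prime (α γ : Fin 3 → L) (r p : L) (hγ : ∀ j, γ j ≠ 0) (hr : r ≠ 0) (i : Fin 5) :
    Prime (co α γ r p i) := by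
  fin_cases i
  · exact pr1 _ _ (hγ 0)
  · exact pr1 _ _ (hγ 1)
  · exact pr1 _ _ (hγ 2)
  · exact prime_X
  · exact pr2 _ _ hr

private theorem co_key (α γ : Fin 3 → L) (r p : L) (i k : Fin 5) (h : co α γ r p i ∣ co α γ r p k)
    (t s : L) (hi : cv α γ r p t s i = 0) : cv α γ r p t s k = 0 := by
  obtain ⟨q, hq⟩ := h
  have h1 := congrArg (aevalAeval t s) hq
  rw [map_mul, aeval_co, aeval_co, hi, zero_mul] at h1
  exact h1

private theorem co_sep (α γ : Fin 3 → L) (r p : L) (hα : Function.Injective α) (hγ : ∀ j, γ j ≠ 0)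
    (hr : r ≠ 0) (hp : p ≠ 0) (i k : Fin 5) (h : i ≠ k) :
    ∃ t s : L, cv α γ r p t s i = 0 ∧ cv α γ r p t s k ≠ 0 := by
  have h01 : α 0 - α 1 ≠ 0 := sub_ne_zero.mpr (fun h => by simpa using hα h)
  have h02 : α 0 - α 2 ≠ 0 := sub_ne_zero.mpr (fun h => by simpa using hα h)
  have h10 : α 1 - α 0 ≠ 0 := sub_ne_zero.mpr (fun h => by simpa using hα h)
  have h12 : α 1 - α 2 ≠ 0 := sub_ne_zero.mpr (fun h => by simpa using hα h)
  have h20 : α 2 - α 0 ≠ 0 := sub_ne_zero.mpr (fun h => by simpa using hα h)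
  have h21 : α 2 - α 1 ≠ 0 := sub_ne_zero.mpr (fun h => by simpa using hα h)
  have g0 := hγ 0
  have g1 := hγ 1
  have g2 := hγ 2
  have hpr : -(p / r) ≠ 0 := neg_ne_zero.mpr (div_ne_zero hp hr)
  have hz : r * -(p / r) + p = 0 := by field_simp; ring
  fin_cases i <;> fin_cases k
  · exact absurd rfl h
  · exact ⟨α 0, 0, by simp [cv], by simp [cv, h01, g1]⟩
  · exact ⟨α 0, 0, by simp [cv], by simp [cv, h02, g2]⟩
  · exact ⟨α 0, 1, by simp [cv], by simp [cv]⟩
  · exact ⟨α 0, 0, by simp [cv], by simp [cv, hp]⟩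
  · exact ⟨α 1, 0, by simp [cv], by simp [cv, h10, g0]⟩
  · exact absurd rfl h
  · exact ⟨α 1, 0, by simp [cv], by simp [cv, h12, g2]⟩
  · exact ⟨α 1, 1, by simp [cv], by simp [cv]⟩
  · exact ⟨α 1, 0, by simp [cv], by simp [cv, hp]⟩
  · exact ⟨α 2, 0, by simp [cv], by simp [cv, h20, g0]⟩
  · exact ⟨α 2, 0, by simp [cv], by simp [cv, h21, g1]⟩
  · exact absurd rfl h
  · exact ⟨α 2, 1, by simp [cv], by simp [cv]⟩
  · exact ⟨α 2, 0, by simp [cv], by simp [cv, hp]⟩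
  · exact ⟨α 0 + 1, 0, by simp [cv], by simp [cv, g0]⟩
  · exact ⟨α 1 + 1, 0, by simp [cv], by simp [cv, g1]⟩
  · exact ⟨α 2 + 1, 0, by simp [cv], by simp [cv, g2]⟩
  · exact absurd rfl h
  · exact ⟨0, 0, by simp [cv], by simp [cv, hp]⟩
  · exact ⟨α 0 + 1, -(p / r), by simpa [cv] using hz, by simp [cv, g0]⟩
  · exact ⟨α 1 + 1, -(p / r), by simpa [cv] using hz, by simp [cv, g1]⟩
  · exact ⟨α 2 + 1, -(p / r), by simpa [cv] using hz, by simp [cv, g2]⟩
  · exact ⟨0, -(p / r), by simpa [cv] using hz, by simpa [cv] using ⟨hp, hr⟩⟩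
  · exact absurd rfl h

theorem co_dvd_co (α γ : Fin 3 → L) (r p : L) (hα : Function.Injective α) (hγ : ∀ j, γ j ≠ 0)
    (hr : r ≠ 0) (hp : p ≠ 0) (i k : Fin 5) (h : co α γ r p i ∣ co α γ r p k) : i = k := by
  by_contra hik
  obtain ⟨t, s, h1, h2⟩ := co_sep α γ r p hα hγ hr hp i k hik
  exact h2 (co_key α γ r p i k h t s h1)

private theorem co_pp (α γ : Fin 3 → L) (r p : L) (hα : Function.Injective α) (hγ : ∀ j, γ j ≠ 0)
    (hr : r ≠ 0) (hp : p ≠ 0) (e f : Fin 5 → ℕ) (i : Fin 5) (he : e i ≠ 0) (hf : f i = 0) :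
    ∏ k, co α γ r p k ^ e k ≠ ∏ k, co α γ r p k ^ f k := by
  intro heq
  have hpr := co_prime α γ r p hγ hr i
  have h1 : co α γ r p i ∣ ∏ k, co α γ r p k ^ e k :=
    (dvd_pow_self _ he).trans (Finset.dvd_prod_of_mem _ (Finset.mem_univ i))
  rw [heq, hpr.dvd_finsetProd_iff] at h1
  obtain ⟨k, -, hk⟩ := h1
  have h2 := hpr.dvd_of_dvd_pow hk
  have h3 := co_dvd_co α γ r p hα hγ hr hp i k h2
  rw [← h3, hf, pow_zero] at hk
  exact hpr.not_isUnit (isUnit_of_dvd_one hk)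

theorem bin_ne_zero (α γ : Fin 3 → L) (r p : L) (hα : Function.Injective α) (hγ : ∀ j, γ j ≠ 0)
    (hr : r ≠ 0) (hp : p ≠ 0) (a : Fin 5 → ℤ) (ha : a ≠ 0) : bin α γ r p a ≠ 0 := by
  obtain ⟨i, hi⟩ := Function.ne_iff.mp ha
  have hi' : a i ≠ 0 := hi
  unfold bin
  rw [sub_ne_zero]
  rcases lt_or_gt_of_ne hi' with h | h
  · refine (co_pp α γ r p hα hγ hr hp (fun k => (-a k).toNat) (fun k => (a k).toNat) i ?_ ?_).symm
    · show (-a i).toNat ≠ 0
      omega
    · show (a i).toNat = 0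
      omega
  · refine co_pp α γ r p hα hγ hr hp (fun k => (a k).toNat) (fun k => (-a k).toNat) i ?_ ?_
    · show (a i).toNat ≠ 0
      omega
    · show (-a i).toNat = 0
      omega

end BMF
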