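import Pool.Agent.Lib.MP_a325a5_ag.F.C4
import Pool.Agent.Lib.MP_a325a5_ag.F.C5

open NumberField MvPolynomial

namespace BMF

variable {M : ℕ} {k K : Type} [Field k] [NumberField k] [Field K] [NumberField K] [Algebra k K]

private theorem d1_le_one (w : FinitePlace K) {x : K} (hx : IsIntegral ℤ x) : w x ≤ 1 := by
  have h := FinitePlace.norm_le_one K w.maximalIdeal (⟨x, hx⟩ : 𝓞 K)
  rwa [FinitePlace.norm_embedding_eq] at h

private theorem d1_nat (n : ℕ) : IsIntegral ℤ (n : K) := by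
  have h := isIntegral_algebraMap (R := ℤ) (A := K) (x := (n : ℤ))
  simpa using h

private theorem d1_log_max {a : ℝ} (ha : 0 ≤ a) : Real.log (max 1 a) = max (Real.log a) 0 := by
  rcases le_total a 1 with h | h
  · rw [max_eq_left h, Real.log_one, max_eq_right (Real.log_nonpos ha h)]
  · rw [max_eq_right h, max_eq_left (Real.log_nonneg h)]

omit [NumberField K] in
private theorem d1_eval (P : P2 K) (y : Fin 2 → K) :
    eval y P = ∑ m ∈ P.support, coeff m P * (y 0 ^ m 0 * y 1 ^ m 1) := by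
  rw [eval_eq']
  refine Finset.sum_congr rfl (fun m _ => ?_)
  rw [Fin.prod_univ_two]

omit [NumberField k] [NumberField K] in
private theorem d1_coeff (φ : k →+* k) (G : P2 k) (i : Fin 2 → ℕ) (m : Fin 2 →₀ ℕ) :
    coeff m (hd i (toK K φ G)) = algebraMap k K (φ (coeff m G)) *
      (((m 0).choose (i 0) : K) * ((m 1).choose (i 1) : K)) := by
  rw [coeff_hd, toK, coeff_map, RingHom.comp_apply]

private theorem d1_supp {L : Fin 2 → ℕ} (φ : k →+* k) {G : P2 k} (hG : G ∈ bx k L)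
    (i : Fin 2 → ℕ) {m : Fin 2 →₀ ℕ} (hm : m ∈ (hd i (toK K φ G)).support) (j : Fin 2) :
    m j ≤ L j := by
  have h1 : coeff m (hd i (toK K φ G)) ≠ 0 := mem_support_iff.1 hm
  have h2 : coeff m G ≠ 0 := by
    intro h0
    apply h1
    rw [d1_coeff, h0, map_zero, map_zero, zero_mul]
  exact (degreeOf_le_iff.1 (hG j)) m (mem_support_iff.2 h2)

private theorem d1_card {L : Fin 2 → ℕ} (φ : k →+* k) {G : P2 k} (hG : G ∈ bx k L)
    (i : Fin 2 → ℕ) : ((hd i (toK K φ G)).support.card : ℝ) ≤ ((L 0 : ℝ) + 1) * ((L 1 : ℝ) + 1) := by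
  have h : (hd i (toK K φ G)).support.card ≤
      (Finset.range (L 0 + 1) ×ˢ Finset.range (L 1 + 1)).card := by
    refine Finset.card_le_card_of_injOn (fun m => (m 0, m 1)) ?_ ?_
    · intro m hm
      have h0 := d1_supp φ hG i hm 0
      have h1 := d1_supp φ hG i hm 1
      simp only [Finset.coe_product, Set.mem_prod, Finset.coe_range, Set.mem_Iio]
      omega
    · intro m _ m' _ hmm
      have h0 : m 0 = m' 0 := congrArg Prod.fst hmm
      have h1 : m 1 = m' 1 := congrArg Prod.snd hmm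
      ext j
      fin_cases j
      · exact h0
      · exact h1
  rw [Finset.card_product, Finset.card_range, Finset.card_range] at h
  exact_mod_cast h

private theorem d1_mono {a : ℝ} (ha : 0 ≤ a) (N : ℕ) {m L : ℕ} (h : m ≤ L) :
    (a ^ N) ^ m ≤ max 1 a ^ (N * L) := by
  have h1 : a ^ N ≤ max 1 a ^ N := pow_le_pow_left₀ ha (le_max_right _ _) N
  have h2 : (a ^ N) ^ m ≤ (max 1 a ^ N) ^ m := pow_le_pow_left₀ (pow_nonneg ha N) h1 m
  have h3 : (1 : ℝ) ≤ max 1 a ^ N := one_le_pow₀ (le_max_left _ _)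
  rw [pow_mul]
  exact h2.trans (pow_le_pow_right₀ h3 h)

private theorem d1_arch {L : Fin 2 → ℕ} {A : ℝ} {G : P2 k} (hGL : G ∈ bx k L) (hA : 1 ≤ A)
    (hG : House A G) (φ : k →+* k) (i : Fin 2 → ℕ) (y : Fin 2 → K) (N : ℕ) (σ : K →+* ℂ) :
    ‖σ (eval (fun j => y j ^ N) (hd i (toK K φ G)))‖ ≤
      ((L 0 : ℝ) + 1) * ((L 1 : ℝ) + 1) * A * ((L 0 : ℝ) + L 1 + 1) ^ (i 0 + i 1) *
        (max 1 ‖σ (y 0)‖ ^ (N * L 0) * max 1 ‖σ (y 1)‖ ^ (N * L 1)) := by
  have hS : (0 : ℝ) ≤ (L 0 : ℝ) + L 1 + 1 := by positivity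
  have hterm : ∀ m ∈ (hd i (toK K φ G)).support,
      ‖σ (coeff m (hd i (toK K φ G)) * ((y 0 ^ N) ^ m 0 * (y 1 ^ N) ^ m 1))‖ ≤
      A * ((L 0 : ℝ) + L 1 + 1) ^ (i 0 + i 1) *
        (max 1 ‖σ (y 0)‖ ^ (N * L 0) * max 1 ‖σ (y 1)‖ ^ (N * L 1)) := by
    intro m hm
    have h0 := d1_supp φ hGL i hm 0
    have h1 := d1_supp φ hGL i hm 1
    rw [d1_coeff]
    simp only [map_mul, map_pow, norm_mul, norm_pow, map_natCast, Complex.norm_natCast]
    have e1 : ‖σ (algebraMap k K (φ (coeff m G)))‖ ≤ A :=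
      (hG m).2 ((σ.comp (algebraMap k K)).comp φ)
    have e2 : (((m 0).choose (i 0) : ℕ) : ℝ) ≤ ((L 0 : ℝ) + L 1 + 1) ^ (i 0) := by
      have h2 : (((m 0).choose (i 0) : ℕ) : ℝ) ≤ ((m 0 : ℕ) : ℝ) ^ (i 0) := by
        exact_mod_cast Nat.choose_le_pow (m 0) (i 0)
      refine h2.trans (pow_le_pow_left₀ (Nat.cast_nonneg _) ?_ _)
      have h3 : ((m 0 : ℕ) : ℝ) ≤ L 0 := by exact_mod_cast h0
      have h4 : (0 : ℝ) ≤ (L 1 : ℝ) := Nat.cast_nonneg _
      linarith
    have e3 : (((m 1).choose (i 1) : ℕ) : ℝ) ≤ ((L 0 : ℝ) + L 1 + 1) ^ (i 1) := by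
      have h2 : (((m 1).choose (i 1) : ℕ) : ℝ) ≤ ((m 1 : ℕ) : ℝ) ^ (i 1) := by
        exact_mod_cast Nat.choose_le_pow (m 1) (i 1)
      refine h2.trans (pow_le_pow_left₀ (Nat.cast_nonneg _) ?_ _)
      have h3 : ((m 1 : ℕ) : ℝ) ≤ L 1 := by exact_mod_cast h1
      have h4 : (0 : ℝ) ≤ (L 0 : ℝ) := Nat.cast_nonneg _
      linarith
    have e4 := d1_mono (norm_nonneg (σ (y 0))) N h0
    have e5 := d1_mono (norm_nonneg (σ (y 1))) N h1
    rw [pow_add]
    refine mul_le_mul (mul_le_mul e1 (mul_le_mul e2 e3 (Nat.cast_nonneg _)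
      (pow_nonneg hS _)) (by positivity) (by linarith)) (mul_le_mul e4 e5 (by positivity)
      (by positivity)) (by positivity) (mul_nonneg (by linarith) (by positivity))
  rw [d1_eval, map_sum]
  refine (norm_sum_le_of_le _ hterm).trans ?_
  rw [Finset.sum_const, nsmul_eq_mul]
  have h6 := d1_card (K := K) φ hGL i
  have h7 : 0 ≤ A * ((L 0 : ℝ) + L 1 + 1) ^ (i 0 + i 1) *
        (max 1 ‖σ (y 0)‖ ^ (N * L 0) * max 1 ‖σ (y 1)‖ ^ (N * L 1)) :=
    mul_nonneg (mul_nonneg (by linarith) (by positivity)) (by positivity)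
  refine (mul_le_mul_of_nonneg_right h6 h7).trans_eq ?_
  ring

private theorem d1_fin {L : Fin 2 → ℕ} {G : P2 k} (hGL : G ∈ bx k L)
    (hG : ∀ m, IsIntegral ℤ (coeff m G)) (φ : k →+* k) (i : Fin 2 → ℕ) (y : Fin 2 → K) (N : ℕ)
    (w : FinitePlace K) :
    w (eval (fun j => y j ^ N) (hd i (toK K φ G))) ≤
        (max 1 (w (y 0)) ^ (N * L 0) * max 1 (w (y 1)) ^ (N * L 1)) := by
  have hB : (0 : ℝ) ≤ (max 1 (w (y 0)) ^ (N * L 0) * max 1 (w (y 1)) ^ (N * L 1)) := by positivity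
  rw [d1_eval]
  have hsum : ∀ (s : Finset (Fin 2 →₀ ℕ)) (f : (Fin 2 →₀ ℕ) → K),
      (∀ m ∈ s, w (f m) ≤ (max 1 (w (y 0)) ^ (N * L 0) * max 1 (w (y 1)) ^ (N * L 1))) →
      w (∑ m ∈ s, f m) ≤ (max 1 (w (y 0)) ^ (N * L 0) * max 1 (w (y 1)) ^ (N * L 1)) := by
    classical
    intro s f
    induction s using Finset.induction_on with
    | empty =>
      intro _
      rw [Finset.sum_empty, map_zero]
      exact hB
    | insert a s ha ih =>
      intro h
      rw [Finset.sum_insert ha]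
      exact (FinitePlace.add_le w _ _).trans (max_le (h a (Finset.mem_insert_self _ _))
        (ih (fun m hm => h m (Finset.mem_insert_of_mem hm))))
  refine hsum _ _ (fun m hm => ?_)
  have h0 := d1_supp φ hGL i hm 0
  have h1 := d1_supp φ hGL i hm 1
  have hint : IsIntegral ℤ (coeff m (hd i (toK K φ G))) := by
    rw [d1_coeff]
    have h2 : IsIntegral ℤ (algebraMap k K (φ (coeff m G))) := by
      have h3 := (hG m).map (φ.toIntAlgHom)
      have h4 := h3.map ((algebraMap k K).toIntAlgHom)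
      exact h4
    exact h2.mul ((d1_nat _).mul (d1_nat _))
  rw [map_mul, map_mul, map_pow, map_pow, map_pow, map_pow]
  have e4 := d1_mono (apply_nonneg w (y 0)) N h0
  have e5 := d1_mono (apply_nonneg w (y 1)) N h1
  calc w (coeff m (hd i (toK K φ G))) * ((w (y 0) ^ N) ^ m 0 * (w (y 1) ^ N) ^ m 1)
      ≤ 1 * (max 1 (w (y 0)) ^ (N * L 0) * max 1 (w (y 1)) ^ (N * L 1)) :=
        mul_le_mul (d1_le_one w hint) (mul_le_mul e4 e5 (by positivity) (by positivity))
          (by positivity) zero_le_one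
    _ = _ := one_mul _

/-- extrapolation: the zeros propagate along Frobenius -/
theorem extrap (Z : Cyc M k) (g : Fin 2 → K) (hg : ∀ i, g i ≠ 0) (L : Fin 2 → ℕ) {A : ℝ}
    (hA : 1 ≤ A) {G : P2 k} (hGL : G ∈ bx k L) (hG : House A G) {m p T T' : ℕ}
    (hm : m.Coprime M) (hp : p.Prime) (hpM : ¬ p ∣ M) (hT : T' ≤ T)
    (hv : van T (toK K (Z.fr m) G) (fun i => g i ^ m))
    (hnum : Real.log (((L 0 : ℝ) + 1) * ((L 1 : ℝ) + 1) * A) +
      T' * Real.log ((L 0 : ℝ) + L 1 + 1) + m * p * (L 0 * ht (g 0) + L 1 * ht (g 1)) <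
      ((T : ℝ) - T' + 1) * Real.log p) :
    van T' (toK K (Z.fr (m * p)) G) (fun i => g i ^ (m * p)) := by
  intro i hi
  by_contra hβ
  have hpM' : p.Coprime M := (Nat.Prime.coprime_iff_not_dvd hp).2 hpM
  have hp0 : (p : K) ≠ 0 := Nat.cast_ne_zero.2 hp.ne_zero
  obtain ⟨β, hβe⟩ : ∃ β, β = eval (fun j => g j ^ (m * p)) (hd i (toK K (Z.fr (m * p)) G)) :=
    ⟨_, rfl⟩
  rw [← hβe] at hβ
  -- the conjugate polynomial
  obtain ⟨H, hH⟩ : ∃ H : P2 k, H = MvPolynomial.map (Z.fr m) G := ⟨_, rfl⟩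
  have hH1 : toK K (RingHom.id k) H = toK K (Z.fr m) G := by
    rw [hH, toK, toK, MvPolynomial.map_map, RingHom.comp_id]
  have hH2 : toK K (Z.fr p) H = toK K (Z.fr (m * p)) G := by
    rw [hH, toK, toK, MvPolynomial.map_map, RingHom.comp_assoc, fr_mul Z hpM' hm, mul_comm p m]
  have hHL : H ∈ bx k L := by
    intro j
    rw [hH]
    refine degreeOf_le_iff.2 (fun d hd => ?_)
    exact degreeOf_le_iff.1 (hGL j) d (support_map_subset _ _ hd)
  have hHI : ∀ m, IsIntegral ℤ (coeff m H) := by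
    intro d
    rw [hH, coeff_map]
    exact (hG d).1.map ((Z.fr m).toIntAlgHom)
  have hvH : van T (toK K (RingHom.id k) H) (fun i => g i ^ m) := by
    rw [hH1]; exact hv
  -- bounds at the places
  have hS0 : (0 : ℝ) < (L 0 : ℝ) + L 1 + 1 := by positivity
  have hC0 : (0 : ℝ) < ((L 0 : ℝ) + 1) * ((L 1 : ℝ) + 1) * A := by
    have : (0 : ℝ) < A := by linarith
    positivity
  obtain ⟨c, hc⟩ : ∃ c : ℝ, c = Real.log (((L 0 : ℝ) + 1) * ((L 1 : ℝ) + 1) * A) +
      ((i 0 + i 1 : ℕ) : ℝ) * Real.log ((L 0 : ℝ) + L 1 + 1) := ⟨_, rfl⟩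
  obtain ⟨s, hs⟩ : ∃ s : ℝ, s = ((T - (i 0 + i 1) : ℕ) : ℝ) := ⟨_, rfl⟩
  have hlogmax : ∀ (v : Pl K) (x : K) (n : ℕ), Real.log (max 1 (av v x) ^ n) =
      n * max (lg v x) 0 := by
    intro v x n
    rw [Real.log_pow, d1_log_max ((av v).nonneg x)]
    rfl
  have hle : ∀ v : Pl K, lg v β ≤ Sum.elim (fun _ => c) (fun _ => 0) v +
      (s * Sum.elim (fun _ => 0) (fun w => Real.log (w (p : K))) v +
      (((m * p * L 0 : ℕ) : ℝ) * max (lg v (g 0)) 0 + ((m * p * L 1 : ℕ) : ℝ) * max (lg v (g 1)) 0)) := by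
    intro v
    have hpos := av_pos v hβ
    rcases v with σ | w
    · have h1 := d1_arch hGL hA hG (Z.fr (m * p)) i g (m * p) σ
      rw [← hβe] at h1
      have h2 := Real.log_le_log hpos h1
      have h3 : (0 : ℝ) < max 1 ‖σ (g 0)‖ ^ (m * p * L 0) := by positivity
      have h4 : (0 : ℝ) < max 1 ‖σ (g 1)‖ ^ (m * p * L 1) := by positivity
      rw [Real.log_mul (mul_pos hC0 (pow_pos hS0 _)).ne' (mul_pos h3 h4).ne',
        Real.log_mul hC0.ne' (pow_pos hS0 _).ne', Real.log_mul h3.ne' h4.ne', Real.log_pow] at h2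
      have h5 := hlogmax (.inl σ) (g 0) (m * p * L 0)
      have h6 := hlogmax (.inl σ) (g 1) (m * p * L 1)
      simp only [av_inl] at h5 h6
      rw [h5, h6] at h2
      simp only [Sum.elim_inl, mul_zero, zero_add]
      rw [hc]
      exact h2
    · simp only [Sum.elim_inr, zero_add]
      have hwp : 0 < w (p : K) := FinitePlace.pos_iff.2 hp0
      have hwp1 : w (p : K) ≤ 1 := d1_le_one w (d1_nat p)
      have hpos' : 0 < w β := hpos
      have key : w β ≤ w (p : K) ^ (T - (i 0 + i 1)) *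
          (max 1 (w (g 0)) ^ (m * p * L 0) * max 1 (w (g 1)) ^ (m * p * L 1)) := by
        rcases lt_or_eq_of_le hwp1 with h | h
        · have h1 := padic Z hp hpM w h T L hHL hHI (fun i => g i ^ m)
            (fun j => pow_ne_zero m (hg j)) hvH i
          have h2 : (fun j => (g j ^ m) ^ p) = fun j => g j ^ (m * p) := by
            funext j; rw [← pow_mul]
          rw [hH2, h2, ← hβe] at h1
          refine h1.trans (mul_le_mul_of_nonneg_left ?_ (by positivity))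
          have h3 : ∀ (a : ℝ) (l : ℕ), 0 ≤ a → max 1 (a ^ m) ^ (p * l) ≤ max 1 a ^ (m * p * l) := by
            intro a l ha
            have h4 : max 1 (a ^ m) ≤ max 1 a ^ m :=
              max_le (one_le_pow₀ (le_max_left _ _)) (pow_le_pow_left₀ ha (le_max_right _ _) m)
            calc max 1 (a ^ m) ^ (p * l) ≤ (max 1 a ^ m) ^ (p * l) :=
                  pow_le_pow_left₀ (by positivity) h4 _
              _ = max 1 a ^ (m * p * l) := by rw [← pow_mul, mul_assoc]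
          rw [map_pow, map_pow]
          exact mul_le_mul (h3 _ _ (apply_nonneg w _)) (h3 _ _ (apply_nonneg w _)) (by positivity)
            (by positivity)
        · rw [h, one_pow, one_mul, hβe]
          exact d1_fin hGL (fun d => (hG d).1) (Z.fr (m * p)) i g (m * p) w
      have h2 := Real.log_le_log hpos' key
      have h3 : (0 : ℝ) < max 1 (w (g 0)) ^ (m * p * L 0) := by positivity
      have h4 : (0 : ℝ) < max 1 (w (g 1)) ^ (m * p * L 1) := by positivity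
      rw [Real.log_mul (pow_pos hwp _).ne' (mul_pos h3 h4).ne', Real.log_mul h3.ne' h4.ne',
        Real.log_pow] at h2
      have h5 := hlogmax (.inr w) (g 0) (m * p * L 0)
      have h6 := hlogmax (.inr w) (g 1) (m * p * L 1)
      simp only [av_inr] at h5 h6
      rw [h5, h6, ← hs] at h2
      exact h2
  have f1 : FS (fun v : Pl K => Sum.elim (fun _ => c) (fun _ => (0 : ℝ)) v) :=
    FS.inf _ (fun w => rfl)
  have f2 : FS (fun v : Pl K => s * Sum.elim (fun _ => (0 : ℝ)) (fun w => Real.log (w (p : K))) v) := by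
    refine FS.const_mul ((fs_lg hp0).mono (fun v hv => ?_)) s
    rcases v with σ | w
    · rfl
    · exact hv
  have f3 : FS (fun v : Pl K => ((m * p * L 0 : ℕ) : ℝ) * max (lg v (g 0)) 0) :=
    (fs_ht _).const_mul _
  have f4 : FS (fun v : Pl K => ((m * p * L 1 : ℕ) : ℝ) * max (lg v (g 1)) 0) :=
    (fs_ht _).const_mul _
  have h1 := tot_mono (fs_lg hβ) (f1.add (f2.add (f3.add f4))) hle
  rw [tot_lg hβ, tot_add f1 (f2.add (f3.add f4)), tot_add f2 (f3.add f4), tot_add f3 f4,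
    tot_inf_const, tot_const_mul, tot_const_mul, tot_const_mul, tot_p hp] at h1
  have h2 : tot (fun v : Pl K => max (lg v (g 0)) 0) = ht (g 0) := rfl
  have h3 : tot (fun v : Pl K => max (lg v (g 1)) 0) = ht (g 1) := rfl
  rw [h2, h3] at h1
  have hlp : 0 < Real.log p := Real.log_pos (by exact_mod_cast hp.one_lt)
  have hlS : 0 ≤ Real.log ((L 0 : ℝ) + L 1 + 1) := by
    refine Real.log_nonneg ?_
    have : (0 : ℝ) ≤ (L 0 : ℝ) + L 1 := by positivity
    linarith
  have hiT : ((i 0 + i 1 : ℕ) : ℝ) + 1 ≤ T' := by exact_mod_cast hi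
  have hsT : s = (T : ℝ) - ((i 0 + i 1 : ℕ) : ℝ) := by
    rw [hs, Nat.cast_sub (le_trans hi.le hT)]
  have h4 : ((T : ℝ) - T' + 1) * Real.log p ≤ s * Real.log p :=
    mul_le_mul_of_nonneg_right (by rw [hsT]; linarith) hlp.le
  have h5 : ((i 0 + i 1 : ℕ) : ℝ) * Real.log ((L 0 : ℝ) + L 1 + 1) ≤
      T' * Real.log ((L 0 : ℝ) + L 1 + 1) :=
    mul_le_mul_of_nonneg_right (by linarith) hlS
  push_cast at h1 h5 hc hnum
  rw [hc] at h1
  have h6 : (m : ℝ) * p * (L 0 * ht (g 0) + L 1 * ht (g 1)) =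
    (m : ℝ) * p * L 0 * ht (g 0) + (m : ℝ) * p * L 1 * ht (g 1) := by ring
  linarith

end BMF
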