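import Pool.Agent.Lib.MP_a325a5_ag.F.Hgt

open NumberField MvPolynomial

namespace BMF

/-- polynomials in two variables -/
abbrev P2 (k : Type) [CommSemiring k] : Type := MvPolynomial (Fin 2) k

section poly
variable {k : Type} [Field k]

/-- polynomials of bidegree at most `L` -/
noncomputable def bx (k : Type) [Field k] (L : Fin 2 → ℕ) : Submodule k (P2 k) where
  carrier := {f | ∀ i, f.degreeOf i ≤ L i}
  add_mem' := fun {f g} hf hg i => (degreeOf_add_le i f g).trans (max_le (hf i) (hg i))
  zero_mem' := fun i => by simp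
  smul_mem' := fun c f hf i => by
    rw [MvPolynomial.smul_eq_C_mul]
    exact (degreeOf_C_mul_le f i c).trans (hf i)

/-- weighted bidegree -/
noncomputable def wt (L : Fin 2 → ℕ) (f : P2 k) : ℝ :=
  (f.degreeOf 0 : ℝ) / (L 0 + 1) + (f.degreeOf 1 : ℝ) / (L 1 + 1)

/-- binomial derivative: the monomial `x^m` goes to `choose (m 0) (i 0) * choose (m 1) (i 1) * x^m` -/
noncomputable def hd (i : Fin 2 → ℕ) : P2 k →ₗ[k] P2 k :=
  (MvPolynomial.basisMonomials (Fin 2) k).constr k
    (fun m => monomial m (((m 0).choose (i 0) : k) * ((m 1).choose (i 1) : k)))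

/-- vanishing of order at least `T` at a point with nonzero coordinates -/
def van (T : ℕ) (f : P2 k) (z : Fin 2 → k) : Prop :=
  ∀ i : Fin 2 → ℕ, i 0 + i 1 < T → eval z (hd i f) = 0

/-- the support lies on a line -/
def LineSupp (f : P2 k) : Prop :=
  ∃ a b : ℤ, (a, b) ≠ (0, 0) ∧ ∀ m ∈ f.support, ∀ m' ∈ f.support,
    a * ((m 0 : ℤ) - m' 0) + b * ((m 1 : ℤ) - m' 1) = 0

end poly

/-- the cyclotomic field of level `M` with a compatible family of endomorphisms -/
structure Cyc (M : ℕ) (k : Type) [Field k] [NumberField k] where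
  pos : 0 < M
  ζ : k
  prim : IsPrimitiveRoot ζ M
  gen : IntermediateField.adjoin ℚ {ζ} = ⊤
  fr : ℕ → (k →+* k)
  fr_spec : ∀ m : ℕ, m.Coprime M → fr m ζ = ζ ^ m

section dat
variable {M : ℕ} {k K : Type} [Field k] [NumberField k] [Field K] [NumberField K] [Algebra k K]

/-- coefficients conjugated by `φ` and mapped to `K` -/
noncomputable def toK (K : Type) [Field K] [Algebra k K] (φ : k →+* k) : P2 k →+* P2 K :=
  MvPolynomial.map ((algebraMap k K).comp φ)

/-- value of the conjugate polynomial at the `m`-th power of the point -/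
noncomputable def ev (φ : k →+* k) (m : ℕ) (g : Fin 2 → K) : P2 k →+* K :=
  eval₂Hom ((algebraMap k K).comp φ) (fun i => g i ^ m)

/-- `B ↦ B^φ (x^p, y^p)` -/
noncomputable def psi (φ : k →+* k) (p : ℕ) (B : P2 k) : P2 k :=
  expand p (MvPolynomial.map φ B)

/-- multiplicative independence of two numbers -/
def MInd (g : Fin 2 → K) : Prop := ∀ a b : ℤ, g 0 ^ a * g 1 ^ b = 1 → a = 0 ∧ b = 0

/-- degree of the field generated over `k` by the `m`-th powers -/
noncomputable def dg (k : Type) {K : Type} [Field k] [Field K] [Algebra k K] (g : Fin 2 → K)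
    (m : ℕ) : ℕ :=
  Module.finrank k (IntermediateField.adjoin k (Set.range fun i => g i ^ m))

/-- integral coefficients with all conjugates at most `A` -/
def House (A : ℝ) (G : P2 k) : Prop :=
  ∀ m, IsIntegral ℤ (coeff m G) ∧ ∀ σ : k →+* ℂ, ‖σ (coeff m G)‖ ≤ A

/-- polynomials in the box vanishing to order `T` at `g` -/
noncomputable def vanSub (k : Type) {K : Type} [Field k] [Field K] [Algebra k K] (T : ℕ)
    (L : Fin 2 → ℕ) (g : Fin 2 → K) : Submodule k (P2 k) where
  carrier := {G | G ∈ bx k L ∧ van T (toK K (RingHom.id k) G) g}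
  add_mem' := fun {f h} hf hh => ⟨(bx k L).add_mem hf.1 hh.1, fun i hi => by
    rw [map_add, map_add, map_add, hf.2 i hi, hh.2 i hi, add_zero]⟩
  zero_mem' := ⟨(bx k L).zero_mem, fun i hi => by simp⟩
  smul_mem' := fun c f hf => ⟨(bx k L).smul_mem c hf.1, fun i hi => by
    have h1 : toK K (RingHom.id k) (c • f) = (algebraMap k K c) • toK K (RingHom.id k) f := by
      rw [MvPolynomial.smul_eq_C_mul, map_mul, MvPolynomial.smul_eq_C_mul]
      simp [toK]
    rw [h1, map_smul, MvPolynomial.smul_eval, hf.2 i hi, mul_zero]⟩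

end dat

end BMF
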