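import Pool.Agent.Lib.MP_a325a5_ag.F.C2

open NumberField MvPolynomial

namespace BMF

variable {M : ℕ} {k K : Type} [Field k] [NumberField k] [Field K] [NumberField K] [Algebra k K]

theorem ev_psi (Z : Cyc M k) (g : Fin 2 → K) {m p : ℕ} (hm : m.Coprime M) (hp : p.Coprime M)
    (B : P2 k) :
    ev (Z.fr m) m g (psi (Z.fr p) p B) = ev (Z.fr (m * p)) (m * p) g B := by
  have h : ((ev (Z.fr m) m g).comp ((expand p : P2 k →ₐ[k] P2 k).toRingHom)).comp
      (MvPolynomial.map (Z.fr p)) = ev (Z.fr (m * p)) (m * p) g := by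
    apply MvPolynomial.ringHom_ext
    · intro c
      have h1 : Z.fr m (Z.fr p c) = Z.fr (m * p) c := by
        rw [← fr_mul Z hm hp]
        rfl
      simp [ev, h1]
    · intro i
      simp [ev, pow_mul]
  exact congrArg (fun f : P2 k →+* K => f B) h

theorem ev_eq_eval (φ : k →+* k) (m : ℕ) (g : Fin 2 → K) (B : P2 k) :
    ev φ m g B = eval (fun i => g i ^ m) (toK K φ B) := by
  unfold ev toK
  rw [MvPolynomial.eval_map]
  rfl

/-- the automorphism of the polynomial ring given by the coefficients -/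
private noncomputable def e1_Phi (Z : Cyc M k) {m : ℕ} (hm : m.Coprime M) : P2 k ≃+* P2 k :=
  MvPolynomial.mapEquiv (Fin 2) (RingEquiv.ofBijective (Z.fr m) (fr_bijective Z hm))

private theorem e1_ev (Z : Cyc M k) (g : Fin 2 → K) {m : ℕ} (hm : m.Coprime M) :
    ev (Z.fr m) m g =
      (aeval (fun i => g i ^ m) : P2 k →ₐ[k] K).toRingHom.comp (e1_Phi Z hm).toRingHom := by
  apply MvPolynomial.ringHom_ext
  · intro c
    simp [ev, e1_Phi]
  · intro i
    simp [ev, e1_Phi]

private theorem e1_finite : Module.Finite k K := by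
  have : Module.Finite ℚ K := inferInstance
  exact Module.Finite.of_restrictScalars_finite ℚ k K

private theorem e1_finrank_aeval (z : Fin 2 → K) :
    Module.finrank k (P2 k ⧸ RingHom.ker (aeval z : P2 k →ₐ[k] K).toRingHom) =
      Module.finrank k (IntermediateField.adjoin k (Set.range z)) := by
  have := e1_finite (k := k) (K := K)
  have h1 : (IntermediateField.adjoin k (Set.range z)).toSubalgebra =
      (aeval z : P2 k →ₐ[k] K).range := by
    rw [IntermediateField.adjoin_toSubalgebra_of_isAlgebraic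
      (fun x _ => Algebra.IsAlgebraic.isAlgebraic x), Algebra.adjoin_range_eq_range_aeval]
  have h2 : Module.finrank k (IntermediateField.adjoin k (Set.range z)) =
      Module.finrank k (aeval z : P2 k →ₐ[k] K).range := by
    rw [← h1]
    rfl
  rw [h2]
  exact (Ideal.quotientKerEquivRange (aeval z : P2 k →ₐ[k] K)).toLinearEquiv.finrank_eq

theorem finrank_ker_ev (Z : Cyc M k) (g : Fin 2 → K) {m : ℕ} (hm : m.Coprime M) :
    Module.finrank k (P2 k ⧸ RingHom.ker (ev (Z.fr m) m g)) = dg k g m := by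
  unfold dg
  rw [← e1_finrank_aeval]
  have hker : RingHom.ker (ev (Z.fr m) m g) =
      (RingHom.ker (aeval (fun i => g i ^ m) : P2 k →ₐ[k] K).toRingHom).comap
        (e1_Phi Z hm).toRingHom := by
    rw [e1_ev Z g hm, RingHom.comap_ker]
  have hmap : RingHom.ker (aeval (fun i => g i ^ m) : P2 k →ₐ[k] K).toRingHom =
      (RingHom.ker (ev (Z.fr m) m g)).map (e1_Phi Z hm : P2 k →+* P2 k) := by
    rw [hker]
    exact (Ideal.map_comap_of_surjective _ (e1_Phi Z hm).surjective _).symm
  refine Algebra.finrank_eq_of_equiv_equiv (RingEquiv.ofBijective (Z.fr m) (fr_bijective Z hm))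
    (Ideal.quotientEquiv _ _ (e1_Phi Z hm) hmap) ?_
  ext c
  simp only [RingHom.comp_apply]
  change Ideal.Quotient.mk _ (C ((Z.fr m) c)) =
    (Ideal.quotientEquiv _ _ (e1_Phi Z hm) hmap) (Ideal.Quotient.mk _ (C c))
  rw [Ideal.quotientEquiv_mk]
  congr 1
  simp [e1_Phi]

theorem finite_ker_ev (Z : Cyc M k) (g : Fin 2 → K) {m : ℕ} (hm : m.Coprime M) :
    Module.Finite k (P2 k ⧸ RingHom.ker (ev (Z.fr m) m g)) := by
  have := e1_finite (k := k) (K := K)
  apply Module.finite_of_finrank_pos
  rw [finrank_ker_ev Z g hm]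
  exact Module.finrank_pos

/-- the kernel of the evaluation is a maximal ideal of residue degree `dg k g m` -/
theorem ker_ev_isMaximal (Z : Cyc M k) (g : Fin 2 → K) {m : ℕ} (hm : m.Coprime M) :
    (RingHom.ker (ev (Z.fr m) m g)).IsMaximal := by
  have hf := finite_ker_ev Z g hm
  have hp : (RingHom.ker (ev (Z.fr m) m g)).IsPrime := RingHom.ker_isPrime _
  apply Ideal.Quotient.maximal_of_isField
  have hi : Algebra.IsIntegral k (P2 k ⧸ RingHom.ker (ev (Z.fr m) m g)) :=
    Algebra.IsIntegral.of_finite k _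
  exact isField_of_isIntegral_of_isField' (Field.toIsField k)

end BMF
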