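import Pool.Agent.Lib.MP_a325a5_ag.F.E2
import Pool.Agent.Lib.MP_a325a5_ag.F.A4
import Pool.Agent.Lib.MP_a325a5_ag.F.A1

open NumberField MvPolynomial

namespace BMF

variable {M : ℕ} {k K : Type} [Field k] [NumberField k] [Field K] [NumberField K] [Algebra k K]

/-- common zeros of two coprime polynomials along the powers -/
theorem ev_count (Z : Cyc M k) (g : Fin 2 → K) (hg : g 0 ≠ 0)
    (hnt : ∀ n : ℕ, 0 < n → g 0 ^ n ≠ 1) {f h : P2 k} (hf : f ≠ 0) (hh : h ≠ 0)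
    (hc : IsRelPrime f h) (s : Finset ℕ) (hs : ∀ m ∈ s, 0 < m ∧ m.Coprime M ∧
      dg k g m = dg k g 1 ∧ ev (Z.fr m) m g f = 0 ∧ ev (Z.fr m) m g h = 0) :
    s.card * dg k g 1 ≤ f.degreeOf 0 * h.degreeOf 1 + f.degreeOf 1 * h.degreeOf 0 := by
  have h1 := bezout hf hh hc s (fun m => RingHom.ker (ev (Z.fr m) m g))
    (fun m hm => ker_ev_isMaximal Z g (hs m hm).2.1)
    (fun m hm => finite_ker_ev Z g (hs m hm).2.1)
    (fun m hm n hn hmn => ker_ev_ne Z g hg hnt (hs m hm).2.1 (hs n hn).2.1 (hs m hm).1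
      (hs n hn).1 hmn)
    (fun m hm => ⟨(hs m hm).2.2.2.1, (hs m hm).2.2.2.2⟩)
  have h2 : ∑ m ∈ s, Module.finrank k (P2 k ⧸ RingHom.ker (ev (Z.fr m) m g)) =
      s.card * dg k g 1 := by
    rw [Finset.sum_congr rfl fun m hm => (finrank_ker_ev Z g (hs m hm).2.1).trans
      (hs m hm).2.2.1, Finset.sum_const, smul_eq_mul]
  rw [h2] at h1
  exact h1

end BMF
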