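import Mathlib

/-! Real exponential sums: with infinitely many zeros they vanish identically.

Proof of `exp_zero`.  Induction on the number of terms.  `g x = f x * exp (-μ 0 * x)` has the same
zeros as `f`; its derivative is an exponential sum with one term less.  If the zeros of `g'` form
a finite set `Z'`, then `z ↦ card {x ∈ Z' : x < z}` is strictly increasing on the zeros of `g`
(Rolle), so they are finite in number: contradiction.  So `g' = 0` everywhere by induction, `g` is
constant, with a zero. -/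

namespace BMF

/-- finite sums of real exponentials -/
def IsExp (f : ℝ → ℝ) : Prop :=
  ∃ (n : ℕ) (c μ : Fin n → ℝ), ∀ x, f x = ∑ i, c i * Real.exp (μ i * x)

theorem IsExp.exp (c μ : ℝ) : IsExp fun x => c * Real.exp (μ * x) :=
  ⟨1, fun _ => c, fun _ => μ, fun x => by simp⟩

theorem IsExp.const (c : ℝ) : IsExp fun _ => c :=
  ⟨1, fun _ => c, fun _ => 0, fun x => by simp⟩

theorem IsExp.add {f g : ℝ → ℝ} (hf : IsExp f) (hg : IsExp g) : IsExp fun x => f x + g x := by
  obtain ⟨n, c, μ, h⟩ := hf
  obtain ⟨m, c', μ', h'⟩ := hg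
  refine ⟨n + m, Fin.append c c', Fin.append μ μ', fun x => ?_⟩
  show f x + g x = _
  rw [Fin.sum_univ_add, h x, h' x]
  simp only [Fin.append_left, Fin.append_right]

theorem IsExp.mul {f g : ℝ → ℝ} (hf : IsExp f) (hg : IsExp g) : IsExp fun x => f x * g x := by
  obtain ⟨n, c, μ, h⟩ := hf
  obtain ⟨m, c', μ', h'⟩ := hg
  refine ⟨n * m, fun k => c (finProdFinEquiv.symm k).1 * c' (finProdFinEquiv.symm k).2,
    fun k => μ (finProdFinEquiv.symm k).1 + μ' (finProdFinEquiv.symm k).2, fun x => ?_⟩
  show f x * g x = _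
  rw [Equiv.sum_comp finProdFinEquiv.symm (fun ij : Fin n × Fin m =>
    c ij.1 * c' ij.2 * Real.exp ((μ ij.1 + μ' ij.2) * x)), Fintype.sum_prod_type, h x, h' x,
    Finset.sum_mul_sum]
  refine Finset.sum_congr rfl fun i _ => Finset.sum_congr rfl fun j _ => ?_
  rw [add_mul, Real.exp_add]
  ring

private theorem ExpPoly_rolle {g g' : ℝ → ℝ} (hg : ∀ x, HasDerivAt g (g' x) x)
    (h : {x : ℝ | g x = 0}.Infinite) : {x : ℝ | g' x = 0}.Infinite := by
  intro hfin
  apply h
  have hmem : ∀ x, x ∈ hfin.toFinset ↔ g' x = 0 := fun x => by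
    rw [Set.Finite.mem_toFinset]
    rfl
  have hinj : Set.InjOn (fun z : ℝ => (hfin.toFinset.filter (fun w => w < z)).card)
      {x : ℝ | g x = 0} := by
    have key : ∀ a b : ℝ, g a = 0 → g b = 0 → a < b →
        (hfin.toFinset.filter (fun w => w < a)).card
          < (hfin.toFinset.filter (fun w => w < b)).card := by
      intro a b ha hb hab
      have hc : ContinuousOn g (Set.Icc a b) := fun x _ => (hg x).continuousAt.continuousWithinAt
      obtain ⟨w, hw, hw0⟩ := exists_hasDerivAt_eq_zero hab hc (by rw [ha, hb])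
        (fun x _ => hg x)
      apply Finset.card_lt_card
      rw [Finset.ssubset_iff_of_subset]
      · refine ⟨w, ?_, ?_⟩
        · rw [Finset.mem_filter, hmem]
          exact ⟨hw0, hw.2⟩
        · rw [Finset.mem_filter]
          rintro ⟨-, h2⟩
          exact absurd h2 (not_lt.mpr hw.1.le)
      · intro x hx
        rw [Finset.mem_filter] at hx ⊢
        exact ⟨hx.1, hx.2.trans hab⟩
    intro a ha b hb hab
    rcases lt_trichotomy a b with h1 | h1 | h1
    · exact absurd hab (key a b ha hb h1).ne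
    · exact h1
    · exact absurd hab (key b a hb ha h1).ne'
  apply Set.Finite.of_finite_image _ hinj
  apply (Set.finite_Iic (hfin.toFinset.card)).subset
  rintro _ ⟨z, -, rfl⟩
  exact Finset.card_filter_le _ _

private theorem ExpPoly_zero : ∀ (n : ℕ) (c μ : Fin n → ℝ),
    {x : ℝ | ∑ i, c i * Real.exp (μ i * x) = 0}.Infinite →
      ∀ x : ℝ, ∑ i, c i * Real.exp (μ i * x) = 0
  | 0, c, μ, _, x => by simp
  | n + 1, c, μ, h, x => by
    have hder : ∀ y : ℝ, HasDerivAt
        (fun x : ℝ => c 0 + ∑ i : Fin n, c i.succ * Real.exp ((μ i.succ - μ 0) * x))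
        (∑ i : Fin n, (c i.succ * (μ i.succ - μ 0)) * Real.exp ((μ i.succ - μ 0) * y)) y := by
      intro y
      have h1 : HasDerivAt (fun x : ℝ => ∑ i : Fin n, c i.succ * Real.exp ((μ i.succ - μ 0) * x))
          (∑ i : Fin n, (c i.succ * (μ i.succ - μ 0)) * Real.exp ((μ i.succ - μ 0) * y)) y := by
        apply HasDerivAt.fun_sum
        intro i _
        have h2 : HasDerivAt (fun x : ℝ => (μ i.succ - μ 0) * x) (μ i.succ - μ 0) y := by
          have := (hasDerivAt_id y).const_mul (μ i.succ - μ 0)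
          rw [mul_one] at this
          exact this
        have h3 := (h2.exp).const_mul (c i.succ)
        have h4 : c i.succ * (Real.exp ((μ i.succ - μ 0) * y) * (μ i.succ - μ 0))
            = (c i.succ * (μ i.succ - μ 0)) * Real.exp ((μ i.succ - μ 0) * y) := by ring
        rw [h4] at h3
        exact h3
      exact h1.const_add (c 0)
    have hg : ∀ y : ℝ, ∑ i, c i * Real.exp (μ i * y) = Real.exp (μ 0 * y) *
        (c 0 + ∑ i : Fin n, c i.succ * Real.exp ((μ i.succ - μ 0) * y)) := by
      intro y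
      rw [Fin.sum_univ_succ, mul_add, Finset.mul_sum]
      congr 1
      · ring
      · refine Finset.sum_congr rfl fun i _ => ?_
        have : μ i.succ * y = μ 0 * y + (μ i.succ - μ 0) * y := by ring
        rw [this, Real.exp_add]
        ring
    have hinf : {x : ℝ | c 0 + ∑ i : Fin n, c i.succ * Real.exp ((μ i.succ - μ 0) * x)
        = 0}.Infinite := by
      refine h.mono fun y hy => ?_
      rw [Set.mem_ofPred_eq, hg y] at hy
      exact (mul_eq_zero.mp hy).resolve_left (Real.exp_pos _).ne'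
    have h0 := ExpPoly_zero n (fun i => c i.succ * (μ i.succ - μ 0)) (fun i => μ i.succ - μ 0)
      (ExpPoly_rolle hder hinf)
    obtain ⟨z, hz⟩ := hinf.nonempty
    have hconst := is_const_of_deriv_eq_zero (fun y => (hder y).differentiableAt)
      (fun y => (hder y).deriv.trans (h0 y)) x z
    rw [hg x]
    have h5 : c 0 + ∑ i : Fin n, c i.succ * Real.exp ((μ i.succ - μ 0) * x) = 0 :=
      hconst.trans hz
    rw [h5, mul_zero]

theorem exp_zero {f : ℝ → ℝ} (hf : IsExp f) (h : {x : ℝ | f x = 0}.Infinite) : ∀ x, f x = 0 := by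
  obtain ⟨n, c, μ, hf⟩ := hf
  intro x
  rw [hf x]
  apply ExpPoly_zero n c μ
  have : {x : ℝ | f x = 0} = {x : ℝ | ∑ i, c i * Real.exp (μ i * x) = 0} := by
    ext y
    rw [Set.mem_ofPred_eq, Set.mem_ofPred_eq, hf y]
  rw [← this]
  exact h

/-- the exponential characters -/
private noncomputable def ExpPoly_chi (e : ℝ) : Multiplicative ℝ →* ℝ where
  toFun x := Real.exp (e * x.toAdd)
  map_one' := by simp
  map_mul' x y := by
    rw [toAdd_mul, mul_add, Real.exp_add]

private theorem ExpPoly_chi_apply (e : ℝ) (x : ℝ) :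
    ExpPoly_chi e (Multiplicative.ofAdd x) = Real.exp (e * x) := rfl

private theorem ExpPoly_chi_inj {e e' : ℝ} (h : ExpPoly_chi e = ExpPoly_chi e') : e = e' := by
  have h1 := DFunLike.congr_fun h (Multiplicative.ofAdd (1 : ℝ))
  rw [ExpPoly_chi_apply, ExpPoly_chi_apply, mul_one, mul_one] at h1
  exact Real.exp_injective h1

private theorem ExpPoly_coef (B d : Fin 3 → ℝ)
    (h : ∀ x : ℝ, ∑ j, B j * Real.exp (d j * x) = 1) (e : ℝ) :
    (∑ j, if d j = e then B j else 0) = if (0 : ℝ) = e then 1 else 0 := by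
  classical
  have hli := linearIndependent_monoidHom (Multiplicative ℝ) ℝ
  rw [linearIndependent_iff] at hli
  have h1 := hli ((∑ j, Finsupp.single (ExpPoly_chi (d j)) (B j))
    - Finsupp.single (ExpPoly_chi 0) 1) (by
      rw [map_sub, map_sum]
      simp only [Finsupp.linearCombination_single]
      funext x
      rw [Pi.sub_apply, Finset.sum_apply, Pi.zero_apply]
      have h2 := h x.toAdd
      simp only [Pi.smul_apply, smul_eq_mul]
      have h3 : ∀ e : ℝ, ExpPoly_chi e x = Real.exp (e * x.toAdd) := fun e => rfl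
      simp only [h3]
      rw [h2]
      simp)
  have h4 := DFunLike.congr_fun h1 (ExpPoly_chi e)
  rw [Finsupp.sub_apply, Finsupp.finsetSum_apply, Finsupp.zero_apply, sub_eq_zero] at h4
  simp only [Finsupp.single_apply] at h4
  have h5 : ∀ e', (ExpPoly_chi e' = ExpPoly_chi e) ↔ e' = e :=
    fun e' => ⟨ExpPoly_chi_inj, fun h => by rw [h]⟩
  simp only [h5] at h4
  exact h4

/-- three exponentials and a constant -/
theorem exp_three (B d : Fin 3 → ℝ) (hB : ∀ j, B j ≠ 0) (hd : d ≠ 0)
    (h : ∀ x : ℝ, ∑ j, B j * Real.exp (d j * x) = 1) :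
    ∃ k i j : Fin 3, k ≠ i ∧ k ≠ j ∧ i ≠ j ∧ d k = 0 ∧ d i = d j := by
  have h0 := ExpPoly_coef B d h 0
  rw [if_pos rfl] at h0
  obtain ⟨k, hk⟩ : ∃ k, d k = 0 := by
    by_contra hcon
    push Not at hcon
    rw [Finset.sum_eq_zero (fun j _ => if_neg (hcon j))] at h0
    exact zero_ne_one h0
  obtain ⟨i, hi⟩ : ∃ i, d i ≠ 0 := by
    by_contra hcon
    push Not at hcon
    exact hd (funext hcon)
  have h1 := ExpPoly_coef B d h (d i)
  rw [if_neg hi.symm] at h1
  obtain ⟨j, hj, hji⟩ : ∃ j, d j = d i ∧ j ≠ i := by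
    by_contra hcon
    push Not at hcon
    rw [Finset.sum_eq_single i] at h1
    · rw [if_pos rfl] at h1
      exact hB i h1
    · intro b _ hb
      exact if_neg (fun hc => hb (hcon b hc))
    · intro hn
      exact absurd (Finset.mem_univ i) hn
  refine ⟨k, i, j, ?_, ?_, hji.symm, hk, hj.symm⟩
  · rintro rfl
    exact hi hk
  · rintro rfl
    exact hi (hj ▸ hk)

end BMF
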