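import Pool.Agent.Lib.MP_a325a5_ag.F.SurfDef
import Pool.Agent.Lib.MP_a325a5_ag.UL.MRa

/-! The coordinates of the generic point are multiplicatively independent.

Proof.  `mr_eq_card_iff`: if `∏ gp i ^ a i = 1` then `aeval_bin` (at the point `(gX, gY)` of `FF`) gives
`aevalAeval gX gY (bin a) = 0`, that is the image of `bin a` in `FF`, so `bin a = 0` and `a = 0` by
`bin_ne_zero`. -/

open Polynomial Polynomial.Bivariate Pool.Agent.Lib.MP_a325a5_ag.UL

namespace BMF

theorem gp_mr (α γ : Fin 3 → ℂ) (r p : ℂ) (hα : Function.Injective α) (hγ : ∀ j, γ j ≠ 0)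
    (hr : r ≠ 0) (hp : p ≠ 0) : mr (gp α γ r p hγ hr) = 5 := by
  have key : mr (gp α γ r p hγ hr) = Fintype.card (Fin 5) := by
    rw [mr_eq_card_iff]
    intro a ha
    have h1 : ∏ i, cv α γ r p gX gY i ^ a i = 1 := by
      have h2 := congrArg (fun u : FFˣ => (u : FF)) ha
      simpa [gp, Units.coe_prod] using h2
    have h3 := (aeval_bin α γ r p gX gY (gp_ne α γ r p hγ hr) a).mpr h1
    rw [SurfDef_aeval] at h3
    have h4 : bin α γ r p a = 0 :=
      (map_eq_zero_iff _ (IsFractionRing.injective ℂ[X][Y] FF)).mp h3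
    by_contra hne
    exact bin_ne_zero α γ r p hα hγ hr hp a hne h4
  simpa using key

end BMF
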