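import Pool.Agent.Lib.MP_a325a5_ag.F.SurfDef
import Pool.Agent.Lib.MP_a325a5_ag.UL.TD

/-! The transcendence degree of the generic point is two.

Proof.  `X`, `Y` are algebraically independent over `ℂ` in `FF`, hence so are
`gp 0 = γ 0 (X - α 0)` and `gp 3 = Y` (an automorphism of the polynomial ring), and every coordinate is
algebraic over (even in) the algebra generated by these two.  Use the lemmas on `td` in `UL.TD`
(`td_spec`, `le_td`, ...). -/

open Polynomial Polynomial.Bivariate Pool.Agent.Lib.MP_a325a5_ag.UL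

namespace BMF

private theorem surfTd_indep : AlgebraicIndependent ℂ ![gX, gY] := by
  have h : (MvPolynomial.aeval ![gX, gY] : MvPolynomial (Fin 2) ℂ →ₐ[ℂ] FF) =
      ((Algebra.ofId ℂ[X][Y] FF).restrictScalars ℂ).comp
        (equivMvPolynomial ℂ).symm.toAlgHom := by
    refine MvPolynomial.algHom_ext fun i => ?_
    fin_cases i
    · simp [equivMvPolynomial, gX]
    · simp [equivMvPolynomial, gY]
  rw [AlgebraicIndependent, h]
  exact (IsFractionRing.injective ℂ[X][Y] FF).comp (equivMvPolynomial ℂ).symm.injective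

theorem gp_td (α γ : Fin 3 → ℂ) (r p : ℂ) (hγ : ∀ j, γ j ≠ 0) (hr : r ≠ 0) :
    td ℂ (gp α γ r p hγ hr) = 2 := by
  have hv : ∀ i, (gp α γ r p hγ hr i : FF) = cv α γ r p gX gY i := fun i => rfl
  have alg : ∀ (S : Subalgebra ℂ FF) (a : FF), a ∈ S → IsAlgebraic S a := by
    intro S a ha
    exact isAlgebraic_algebraMap (⟨a, ha⟩ : S)
  apply le_antisymm
  · have h := td_le_card_of_algebraic (K := ℂ) (gp α γ r p hγ hr) ![gX, gY] (fun i => by
      apply alg
      have hX : gX ∈ Algebra.adjoin ℂ (Set.range ![gX, gY]) :=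
        Algebra.subset_adjoin ⟨0, rfl⟩
      have hY : gY ∈ Algebra.adjoin ℂ (Set.range ![gX, gY]) :=
        Algebra.subset_adjoin ⟨1, rfl⟩
      have hc : ∀ c : ℂ, algebraMap ℂ FF c ∈ Algebra.adjoin ℂ (Set.range ![gX, gY]) :=
        fun c => Subalgebra.algebraMap_mem _ c
      rw [hv]
      unfold cv
      fin_cases i
      · exact Subalgebra.mul_mem _ (hc _) (Subalgebra.sub_mem _ hX (hc _))
      · exact Subalgebra.mul_mem _ (hc _) (Subalgebra.sub_mem _ hX (hc _))
      · exact Subalgebra.mul_mem _ (hc _) (Subalgebra.sub_mem _ hX (hc _))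
      · exact hY
      · exact Subalgebra.add_mem _ (Subalgebra.mul_mem _ (hc _) hY) (hc _))
    simpa using h
  · have h := le_td (K := ℂ) (gp α γ r p hγ hr) ![gX, gY] surfTd_indep (fun i => by
      apply alg
      have h0 : (gp α γ r p hγ hr 0 : FF) ∈
          Algebra.adjoin ℂ (Set.range fun i => (gp α γ r p hγ hr i : FF)) :=
        Algebra.subset_adjoin ⟨0, rfl⟩
      have h3 : (gp α γ r p hγ hr 3 : FF) ∈
          Algebra.adjoin ℂ (Set.range fun i => (gp α γ r p hγ hr i : FF)) :=
        Algebra.subset_adjoin ⟨3, rfl⟩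
      have hc : ∀ c : ℂ, algebraMap ℂ FF c ∈
          Algebra.adjoin ℂ (Set.range fun i => (gp α γ r p hγ hr i : FF)) :=
        fun c => Subalgebra.algebraMap_mem _ c
      fin_cases i
      · have e : gX = algebraMap ℂ FF (γ 0)⁻¹ * (gp α γ r p hγ hr 0 : FF) +
            algebraMap ℂ FF (α 0) := by
          have e1 : (gp α γ r p hγ hr 0 : FF) =
              algebraMap ℂ FF (γ 0) * (gX - algebraMap ℂ FF (α 0)) := rfl
          rw [e1, ← mul_assoc, ← map_mul, inv_mul_cancel₀ (hγ 0), map_one, one_mul,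
            sub_add_cancel]
        have := Subalgebra.add_mem _ (Subalgebra.mul_mem _ (hc (γ 0)⁻¹) h0) (hc (α 0))
        rw [← e] at this
        exact this
      · exact h3)
    simpa using h

end BMF
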