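import Pool.Agent.Lib.MP_a325a5_ag.F.SurfLoc
import Pool.Agent.Lib.MP_a325a5_ag.F.SurfMr
import Pool.Agent.Lib.MP_a325a5_ag.F.SurfTd
import Pool.Agent.Lib.MP_a325a5_ag.UL.PtsDense

/-! From algebraic points to the complex surface.

Proof of `main_of_g`.  `surf_irr`, `surf_locus`, `gp_mr`, `gp_td` and `denseIn_iff`: it suffices that the
points `x` of the surface with `mr x ≤ 2` are not dense.  Let `G` be the polynomial over `Q̄`, and
`f = G (x 0 / γ 0 + α 0, x 3)`, a polynomial in five variables over `Q̄`.  If `φ f` does not vanish at a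
point `x ∈ surf` with `mr x ≤ 2`, apply `exists_torsion_point` to `K = Q̄`, `L = ℂ` (algebra structure
`φ.toAlgebra`), `p = x`: a point `x'` over `Q̄` with `f (x') ≠ 0`, `mr x' ≤ mr x ≤ 2`, and on which all
polynomials over `Q̄` vanishing at `x` vanish, so `x' = cv t' s'` with `t' = x' 0 / γ 0 + α 0`,
`s' = x' 3`: contradiction to the property of `G`.
So the image of `f` under `φ` is in the vanishing ideal of the set of small rank; it is not in
`vanIdeal surf`: `G ≠ 0` does not vanish at all `(t, s)` with nonzero coordinates (multiply with the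
`co i`; or: `vanIdeal surf = locus gp` and `f (gp)` is the image of `φ G` in the field of fractions). -/

open Polynomial Polynomial.Bivariate Pool.Agent.Lib.MP_a325a5_ag.UL

namespace BMF

/-- the polynomial in five variables -/
private noncomputable def maing_f {A : Type} [Field A] (a c : A) (G : A[X][Y]) :
    MvPolynomial (Fin 5) A :=
  eval₂ (eval₂RingHom (MvPolynomial.C : A →+* MvPolynomial (Fin 5) A)
    (MvPolynomial.C c⁻¹ * MvPolynomial.X 0 + MvPolynomial.C a)) (MvPolynomial.X 3) G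

private theorem maing_eval {A : Type} [Field A] (a c : A) (G : A[X][Y]) {R : Type} [Field R]
    (ψ : A →+* R) (z : Fin 5 → R) :
    MvPolynomial.eval₂ ψ z (maing_f a c G) =
      eval₂ (eval₂RingHom ψ ((ψ c)⁻¹ * z 0 + ψ a)) (z 3) G := by
  have h : (MvPolynomial.eval₂Hom ψ z).comp
      (eval₂RingHom (eval₂RingHom (MvPolynomial.C : A →+* MvPolynomial (Fin 5) A)
        (MvPolynomial.C c⁻¹ * MvPolynomial.X 0 + MvPolynomial.C a)) (MvPolynomial.X 3)) =
      eval₂RingHom (eval₂RingHom ψ ((ψ c)⁻¹ * z 0 + ψ a)) (z 3) := by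
    apply Polynomial.ringHom_ext'
    · apply Polynomial.ringHom_ext'
      · ext x
        simp
      · simp
    · simp
  exact congrArg (fun F : A[X][Y] →+* R => F G) h

private theorem maing_FF {A : Type} [Field A] (φ : A →+* ℂ) (G : A[X][Y]) :
    eval₂ (eval₂RingHom ((algebraMap ℂ FF).comp φ) gX) gY G =
      algebraMap ℂ[X][Y] FF (G.map (mapRingHom φ)) := by
  have h : eval₂RingHom (eval₂RingHom ((algebraMap ℂ FF).comp φ) gX) gY =
      (algebraMap ℂ[X][Y] FF).comp (mapRingHom (mapRingHom φ)) := by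
    apply Polynomial.ringHom_ext'
    · apply Polynomial.ringHom_ext'
      · ext x
        simp only [RingHom.coe_comp, Function.comp_apply, coe_eval₂RingHom, eval₂_C,
          coe_mapRingHom, map_C]
        rfl
      · simp only [RingHom.coe_comp, Function.comp_apply, coe_eval₂RingHom, eval₂_C, eval₂_X,
          coe_mapRingHom, map_C, map_X]
        rfl
    · simp only [RingHom.coe_comp, Function.comp_apply, coe_eval₂RingHom, eval₂_X,
        coe_mapRingHom, map_X]
      rfl
  exact congrArg (fun F : A[X][Y] →+* FF => F G) h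

theorem main_of_g (α γ : Fin 3 → AlgebraicClosure ℚ) (r p : AlgebraicClosure ℚ)
    (hα : Function.Injective α) (hγ : ∀ j, γ j ≠ 0) (hr : r ≠ 0) (hp : p ≠ 0)
    (φ : AlgebraicClosure ℚ →+* ℂ)
    (h : ∃ G : (AlgebraicClosure ℚ)[X][Y], G ≠ 0 ∧ ∀ t s : AlgebraicClosure ℚ,
      ∀ x : Fin 5 → (AlgebraicClosure ℚ)ˣ, (∀ i, (x i : AlgebraicClosure ℚ) = cv α γ r p t s i) →
      mr x ≤ 2 → evalEval t s G = 0) :
    ¬ DenseIn (HLatyp (surf (fun j => φ (α j)) (fun j => φ (γ j)) (φ r) (φ p)))
      (surf (fun j => φ (α j)) (fun j => φ (γ j)) (φ r) (φ p)) := by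
  obtain ⟨G, hG0, hG⟩ := h
  letI : Algebra (AlgebraicClosure ℚ) ℂ := φ.toAlgebra
  have hα' : Function.Injective fun j => φ (α j) := fun i j hij => hα (φ.injective hij)
  have hγ' : ∀ j, φ (γ j) ≠ 0 := fun j => (map_ne_zero φ).mpr (hγ j)
  have hr' : φ r ≠ 0 := (map_ne_zero φ).mpr hr
  have hp' : φ p ≠ 0 := (map_ne_zero φ).mpr hp
  set X₀ := surf (fun j => φ (α j)) (fun j => φ (γ j)) (φ r) (φ p) with hX₀
  have hirr : IrrClosed X₀ := surf_irr _ _ _ _ hγ' hr'
  set P := gp (fun j => φ (α j)) (fun j => φ (γ j)) (φ r) (φ p) hγ' hr' with hP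
  have hloc : locus ℂ P = vanIdeal X₀ := surf_locus _ _ _ _ hγ' hr'
  have hmr : mr P = 5 := gp_mr _ _ _ _ hα' hγ' hr' hp'
  have htd : td ℂ P = 2 := gp_td _ _ _ _ hγ' hr'
  rw [denseIn_iff X₀ hirr P hloc, hmr, htd]
  intro hd
  set f := maing_f (α 0) (γ 0) G with hf
  -- the polynomial vanishes on the points of small rank
  have h1 : MvPolynomial.map φ f ∈ vanIdeal {x | x ∈ X₀ ∧ mr x + 2 < 5} := by
    rintro x ⟨hx, hxr⟩
    by_contra hne
    rw [MvPolynomial.eval_map] at hne
    have hfl : f ∉ locus (AlgebraicClosure ℚ) x := fun hm => hne (mem_locus.mp hm)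
    obtain ⟨x', hx1, hx2, hx3⟩ := exists_torsion_point x f hfl
    have hmem : ∀ g : MvPolynomial (Fin 5) (AlgebraicClosure ℚ),
        MvPolynomial.eval₂ φ (fun i => (x i : ℂ)) g = 0 →
        MvPolynomial.eval (fun i => (x' i : AlgebraicClosure ℚ)) g = 0 := fun g hg =>
      mem_locus_self.mp (hx1 (mem_locus.mpr hg))
    obtain ⟨t, s, e0, e1, e2, e3, e4⟩ := hx
    set t' : AlgebraicClosure ℚ := (γ 0)⁻¹ * x' 0 + α 0 with ht'
    have hφγ := hγ' 0
    have hγ0 := hγ 0
    have hx0 : (x' 0 : AlgebraicClosure ℚ) = γ 0 * (t' - α 0) := by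
      rw [ht']
      field_simp
      ring
    have hcoord : ∀ j : Fin 3, ∀ i : Fin 5, (x i : ℂ) = φ (γ j) * (t - φ (α j)) →
        (x' i : AlgebraicClosure ℚ) = γ j * (t' - α j) := by
      intro j i hi
      have := hmem (MvPolynomial.X i - MvPolynomial.C (γ j) *
        (MvPolynomial.C (γ 0)⁻¹ * MvPolynomial.X 0 + MvPolynomial.C (α 0) -
          MvPolynomial.C (α j))) (by
        simp only [MvPolynomial.eval₂_sub, MvPolynomial.eval₂_mul, MvPolynomial.eval₂_add,
          MvPolynomial.eval₂_X, MvPolynomial.eval₂_C]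
        rw [hi, e0, map_inv₀]
        field_simp
        ring)
      simp only [map_sub, map_mul, map_add, MvPolynomial.eval_X, MvPolynomial.eval_C] at this
      rw [ht']
      linear_combination this
    have hc4 : (x' 4 : AlgebraicClosure ℚ) = r * x' 3 + p := by
      have := hmem (MvPolynomial.X 4 - (MvPolynomial.C r * MvPolynomial.X 3 +
        MvPolynomial.C p)) (by
        simp only [MvPolynomial.eval₂_sub, MvPolynomial.eval₂_mul, MvPolynomial.eval₂_add,
          MvPolynomial.eval₂_X, MvPolynomial.eval₂_C]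
        rw [e4, e3]
        ring)
      simp only [map_sub, map_mul, map_add, MvPolynomial.eval_X, MvPolynomial.eval_C] at this
      linear_combination this
    have hcv : ∀ i, (x' i : AlgebraicClosure ℚ) = cv α γ r p t' (x' 3 : AlgebraicClosure ℚ) i := by
      intro i
      fin_cases i
      · exact hcoord 0 0 e0
      · exact hcoord 1 1 e1
      · exact hcoord 2 2 e2
      · rfl
      · exact hc4
    have h0 := hG t' (x' 3 : AlgebraicClosure ℚ) x' hcv (by omega)
    apply hx2
    rw [mem_locus_self, ← MvPolynomial.eval₂_id, hf, maing_eval]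
    rw [← h0]
    change eval₂ (eval₂RingHom (RingHom.id _) t') _ G = _
    rw [show eval₂RingHom (RingHom.id (AlgebraicClosure ℚ)) t' = evalRingHom t' from rfl]
    exact congrFun (eval₂_evalRingHom t') _ ▸ rfl
  have h2 := hd h1
  rw [← hloc, mem_locus, MvPolynomial.aeval_def, MvPolynomial.eval₂_map, hf, maing_eval] at h2
  have e0 : (((algebraMap ℂ FF).comp φ) (γ 0))⁻¹ * ((P 0 : FFˣ) : FF) +
      ((algebraMap ℂ FF).comp φ) (α 0) = gX := by
    have h3 : ((P 0 : FFˣ) : FF) = algebraMap ℂ FF (φ (γ 0)) * (gX - algebraMap ℂ FF (φ (α 0))) :=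
      rfl
    rw [h3]
    simp only [RingHom.coe_comp, Function.comp_apply]
    have h4 : algebraMap ℂ FF (φ (γ 0)) ≠ 0 := (_root_.map_ne_zero _).mpr (hγ' 0)
    field_simp
    ring
  have e3 : ((P 3 : FFˣ) : FF) = gY := rfl
  rw [e0, e3, maing_FF] at h2
  have h5 : G.map (mapRingHom φ) = 0 := (map_eq_zero_iff _ (IsFractionRing.injective ℂ[X][Y] FF)).mp h2
  exact hG0 ((Polynomial.map_injective _ (Polynomial.map_injective _ φ.injective))
    (h5.trans (Polynomial.map_zero _).symm))

end BMF
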