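import Mathlib

/-! Stewart's theorem for three collinear points, and a Cayley-Menger identity for three points.

Proof of `stewart`.  `a j = a 0 + s j * u` with `u = a 1 - a 0 ≠ 0`, `s 0 = 0`, `s 1 = 1`, `s 2` real
(`hcol`: `(a 2 - a 0) / (a 1 - a 0)` is real), all different.  `β j = 1 / (‖u‖ ^ 2 * ∏_{i ≠ j} (s j - s i))`.
`∑ β j = 0`, `∑ β j s j = 0`, `∑ β j (s j) ^ 2 = ‖u‖⁻²`, and
`‖z - a j‖ ^ 2 = ‖z - a 0‖ ^ 2 - 2 s j Re ((z - a 0) conj u) + (s j) ^ 2 ‖u‖ ^ 2`.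
Proof of `cayley`.  `∑ E j = 0` and `∑ a j E j = 0`, so with
`‖z - a j‖ ^ 2 = z conj z - z conj (a j) - conj z a j + ‖a j‖ ^ 2` one gets `∑ ‖z - a j‖ ^ 2 E j = κ - z Δ`,
`κ - z Δ - (κ - a 0 Δ) = - (z - a 0) Δ`. -/

namespace BMF

theorem stewart (a : Fin 3 → ℂ) (ha : Function.Injective a)
    (hcol : ((a 1 - a 0) * (starRingEnd ℂ) (a 2 - a 0)).im = 0) :
    ∃ β : Fin 3 → ℝ, (∀ j, β j ≠ 0) ∧ ∀ z : ℂ, ∑ j, β j * ‖z - a j‖ ^ 2 = 1 := by
  obtain ⟨u, hu⟩ : ∃ u, u = a 1 - a 0 := ⟨_, rfl⟩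
  obtain ⟨w, hw⟩ : ∃ w, w = a 2 - a 0 := ⟨_, rfl⟩
  have hu0 : u ≠ 0 := by
    rw [hu]
    exact sub_ne_zero.2 (fun h => absurd (ha h) (by decide))
  have hw0 : w ≠ 0 := by
    rw [hw]
    exact sub_ne_zero.2 (fun h => absurd (ha h) (by decide))
  have huw : u ≠ w := by
    intro h
    have h1 : a 1 = a 2 := by
      have h2 : a 1 - a 0 = a 2 - a 0 := by rw [← hu, ← hw, h]
      exact sub_left_injective h2
    exact absurd (ha h1) (by decide)
  rw [← hu, ← hw] at hcol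
  simp only [Complex.mul_im, Complex.conj_re, Complex.conj_im] at hcol
  obtain ⟨N, hN⟩ : ∃ N : ℝ, N = u.re * u.re + u.im * u.im := ⟨_, rfl⟩
  have hN0 : N ≠ 0 := by
    rw [hN, ← Complex.normSq_apply]
    exact fun h => hu0 (Complex.normSq_eq_zero.1 h)
  obtain ⟨s, hs⟩ : ∃ s : ℝ, s = (w.re * u.re + w.im * u.im) / N := ⟨_, rfl⟩
  have e1 : w.re = s * u.re := by
    rw [hs, div_mul_eq_mul_div, eq_div_iff hN0, hN]
    linear_combination u.im * hcol
  have e2 : w.im = s * u.im := by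
    rw [hs, div_mul_eq_mul_div, eq_div_iff hN0, hN]
    linear_combination - u.re * hcol
  have hs0 : s ≠ 0 := by
    intro h
    refine hw0 (Complex.ext ?_ ?_)
    · rw [e1, h, zero_mul, Complex.zero_re]
    · rw [e2, h, zero_mul, Complex.zero_im]
  have hs1 : 1 - s ≠ 0 := by
    intro h
    have h' : s = 1 := by linarith
    refine huw (Complex.ext ?_ ?_)
    · rw [e1, h', one_mul]
    · rw [e2, h', one_mul]
  refine ⟨![1 / (N * s), 1 / (N * (1 - s)), - (1 / (N * (s * (1 - s))))], ?_, ?_⟩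
  · intro j
    fin_cases j
    · exact one_div_ne_zero (mul_ne_zero hN0 hs0)
    · exact one_div_ne_zero (mul_ne_zero hN0 hs1)
    · exact neg_ne_zero.2 (one_div_ne_zero (mul_ne_zero hN0 (mul_ne_zero hs0 hs1)))
  · intro z
    obtain ⟨p, hp⟩ : ∃ p, p = z - a 0 := ⟨_, rfl⟩
    have h1 : z - a 1 = p - u := by rw [hp, hu]; ring
    have h2 : z - a 2 = p - w := by rw [hp, hw]; ring
    rw [Fin.sum_univ_three, h1, h2, ← hp, Complex.sq_norm, Complex.sq_norm, Complex.sq_norm,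
      Complex.normSq_apply, Complex.normSq_apply, Complex.normSq_apply, Complex.sub_re, Complex.sub_im,
      Complex.sub_re, Complex.sub_im, e1, e2]
    simp only [Matrix.cons_val_zero, Matrix.cons_val_one, Matrix.cons_val]
    have key : 1 / (N * s) * (p.re * p.re + p.im * p.im) +
        1 / (N * (1 - s)) * ((p.re - u.re) * (p.re - u.re) + (p.im - u.im) * (p.im - u.im)) +
        - (1 / (N * (s * (1 - s)))) * ((p.re - s * u.re) * (p.re - s * u.re) +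
          (p.im - s * u.im) * (p.im - s * u.im)) = (u.re * u.re + u.im * u.im) / N := by
      field_simp
      ring
    rw [key, ← hN, div_self hN0]

/-- the edges of the triangle -/
def ed (a : Fin 3 → ℂ) : Fin 3 → ℂ := ![a 1 - a 2, a 2 - a 0, a 0 - a 1]

noncomputable def dl (a : Fin 3 → ℂ) : ℂ := ∑ j, (starRingEnd ℂ) (a j) * ed a j

noncomputable def kp (a : Fin 3 → ℂ) : ℂ := ∑ j, ((‖a j‖ ^ 2 : ℝ) : ℂ) * ed a j

theorem cayley_lin (a : Fin 3 → ℂ) (z : ℂ) :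
    ∑ j, ((‖z - a j‖ ^ 2 : ℝ) : ℂ) * ed a j = kp a - z * dl a := by
  have h : ∀ w : ℂ, ((‖w‖ ^ 2 : ℝ) : ℂ) = w * (starRingEnd ℂ) w := by
    intro w
    rw [Complex.mul_conj, Complex.sq_norm]
  simp only [kp, dl, Fin.sum_univ_three, h, map_sub]
  simp only [ed, Matrix.cons_val_zero, Matrix.cons_val_one, Matrix.cons_val]
  ring

theorem cayley (a : Fin 3 → ℂ) (z : ℂ) :
    ‖∑ j, ((‖z - a j‖ ^ 2 : ℝ) : ℂ) * ed a j - (kp a - a 0 * dl a)‖ ^ 2 =
      ‖dl a‖ ^ 2 * ‖z - a 0‖ ^ 2 := by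
  have h : kp a - z * dl a - (kp a - a 0 * dl a) = - ((z - a 0) * dl a) := by ring
  rw [cayley_lin, h, norm_neg, norm_mul]
  ring

theorem dl_ne (a : Fin 3 → ℂ) (hcol : ((a 1 - a 0) * (starRingEnd ℂ) (a 2 - a 0)).im ≠ 0) :
    dl a ≠ 0 := by
  intro h
  apply hcol
  have h1 : (dl a).im = -2 * ((a 1 - a 0) * (starRingEnd ℂ) (a 2 - a 0)).im := by
    simp only [dl, Fin.sum_univ_three, ed, Matrix.cons_val_zero, Matrix.cons_val_one, Matrix.cons_val, Complex.add_im,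
      Complex.mul_im, Complex.sub_re, Complex.sub_im, Complex.conj_re, Complex.conj_im]
    ring
  rw [h, Complex.zero_im] at h1
  linarith

end BMF
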