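import Pool.Agent.Lib.MP_a325a5_ag.F.Circ
import Pool.Agent.Lib.MP_a325a5_ag.F.ExpPoly
import Pool.Agent.Lib.MP_a325a5_ag.F.Stew

/-! Collinear centres.

Proof.  `stewart` gives `β`.  If the ray is infinite, `ray_inf` and `exp_zero` (for the exponential
sum `∑ j, β j ‖g j‖⁻² exp (2 d j x) - 1`) give `∑ j, β j ‖g j‖⁻² exp (2 d j x) = 1` for all real `x`,
and `exp_three` gives `k`, `i`, `j` with `d k = 0`, `d i = d j`.  Then the ray is contained in the
finite set of the hypothesis `h` (`log ‖g k (z - a k)‖ = 0` and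
`log ‖g i (z - a i)‖ = log ‖g j (z - a j)‖`): contradiction. -/

namespace BMF

theorem na_col (g a : Fin 3 → ℂ) (hg : ∀ j, g j ≠ 0) (ha : Function.Injective a)
    (hcol : ((a 1 - a 0) * (starRingEnd ℂ) (a 2 - a 0)).im = 0)
    (h : ∀ k i j : Fin 3, k ≠ i → k ≠ j → i ≠ j →
      {z : ℂ | ‖g k * (z - a k)‖ = 1 ∧ ‖g i * (z - a i)‖ = ‖g j * (z - a j)‖}.Finite)
    (d : Fin 3 → ℝ) (hd : d ≠ 0) : (ray g a d).Finite := by
  by_contra hinf
  have hinf' : (ray g a d).Infinite := hinf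
  obtain ⟨β, hβ, hst⟩ := stewart a ha hcol
  have hX := ray_inf g a hg ha d hinf'
  have hE : IsExp fun x => (β 0 * ‖g 0‖⁻¹ ^ 2) * Real.exp ((2 * d 0) * x) +
      (β 1 * ‖g 1‖⁻¹ ^ 2) * Real.exp ((2 * d 1) * x) + (β 2 * ‖g 2‖⁻¹ ^ 2) * Real.exp ((2 * d 2) * x)
      + (-1) :=
    (((IsExp.exp _ _).add (IsExp.exp _ _)).add (IsExp.exp _ _)).add (IsExp.const _)
  have hz := exp_zero hE (hX.mono (by
    rintro x ⟨z, hz⟩
    have h1 := hst z
    rw [Fin.sum_univ_three, hz 0, hz 1, hz 2] at h1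
    simp only [Set.mem_setOf_eq]
    linarith))
  have hd2 : (fun j => 2 * d j) ≠ 0 := by
    intro h0
    apply hd
    funext j
    have := congrFun h0 j
    simpa using this
  have hB : ∀ j, β j * ‖g j‖⁻¹ ^ 2 ≠ 0 := fun j =>
    mul_ne_zero (hβ j) (pow_ne_zero 2 (inv_ne_zero (norm_ne_zero_iff.2 (hg j))))
  obtain ⟨k, i, j, hki, hkj, hij, hk0, hij0⟩ := exp_three (fun j => β j * ‖g j‖⁻¹ ^ 2)
    (fun j => 2 * d j) hB hd2 (by
      intro x
      rw [Fin.sum_univ_three]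
      have := hz x
      linarith)
  have hk : d k = 0 := by
    have : 2 * d k = 0 := hk0
    linarith
  have hdij : d i = d j := by
    have : 2 * d i = 2 * d j := hij0
    linarith
  refine hinf ((h k i j hki hkj hij).subset ?_)
  rintro z ⟨hne, x, hx, hlog⟩
  have hpos : ∀ l, 0 < ‖g l * (z - a l)‖ := fun l =>
    norm_pos_iff.2 (mul_ne_zero (hg l) (sub_ne_zero.2 (hne l)))
  constructor
  · have h1 := hlog k
    rw [hk, mul_zero] at h1
    exact Real.eq_one_of_pos_of_log_eq_zero (hpos k) h1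
  · have h1 := hlog i
    have h2 := hlog j
    rw [hdij, ← h2] at h1
    exact Real.log_injOn_pos (Set.mem_Ioi.2 (hpos i)) (Set.mem_Ioi.2 (hpos j)) h1

end BMF
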