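import Pool.Agent.Lib.MP_a325a5_ag.F.Circ
import Pool.Agent.Lib.MP_a325a5_ag.F.ExpPoly
import Pool.Agent.Lib.MP_a325a5_ag.F.Stew

/-! Non collinear centres.

Proof.  Put `E = ed a`, `Δ = dl a` (`≠ 0`), `κ' = kp a - a 0 * dl a`, `δ j = ‖g j‖⁻²`.
If the ray of `d` is infinite then by `ray_inf` and `cayley` the exponential sum
`F x = ‖∑ j, δ j exp (2 d j x) E j - κ'‖ ^ 2 - ‖Δ‖ ^ 2 δ 0 exp (2 d 0 x)` has infinitely
many zeros, so `F = 0` (`exp_zero`; `IsExp.add`, `IsExp.mul` for the real and imaginary part).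
Some `d j ≠ 0`; let `m` be the largest `d j` if it is positive and the smallest `d j` otherwise
(then it is negative).  `exp (-4 m x) F x` tends to `‖∑_{d j = m} δ j E j‖ ^ 2` for `x → +∞` (or
`-∞`), so this sum is `0`.  As `E 0`, `E 1` are independent over the reals and
`E 2 = -E 0 - E 1`, all three `d j` are `m` and `δ 0 = δ 1 = δ 2`.  Then on the ray the
`‖z - a j‖ ^ 2` are equal, `cayley_lin` gives `z = kp a / dl a` (`∑ E j = 0`): one point,
contradiction. -/

namespace BMF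

open Filter Topology

private theorem nn_tend (t : ℝ) (ht : t ≤ 0) :
    Tendsto (fun x : ℝ => Real.exp (t * x)) atTop (𝓝 (if t = 0 then 1 else 0)) := by
  by_cases h : t = 0
  · simp [h]
  · rw [if_neg h]
    have ht' : t < 0 := lt_of_le_of_ne ht h
    exact Real.tendsto_exp_atBot.comp (tendsto_id.const_mul_atTop_of_neg ht')

private theorem nn_core (δ d e f : Fin 3 → ℝ) (p q D : ℝ) (hδ : ∀ j, 0 < δ j)
    (he : e 0 + e 1 + e 2 = 0) (hf : f 0 + f 1 + f 2 = 0) (hdet : e 0 * f 1 - e 1 * f 0 ≠ 0)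
    (h : ∀ x : ℝ, (∑ j, δ j * Real.exp (2 * d j * x) * e j - p) ^ 2 +
      (∑ j, δ j * Real.exp (2 * d j * x) * f j - q) ^ 2 = D * Real.exp (2 * d 0 * x))
    (hpos : ∃ j, 0 < d j) :
    (∀ i j, d i = d j) ∧ ∀ i j, δ i = δ j := by
  obtain ⟨i0, -, hi0⟩ := Finset.exists_max_image (Finset.univ : Finset (Fin 3)) d
    ⟨0, Finset.mem_univ _⟩
  obtain ⟨m, hm⟩ : ∃ m, m = d i0 := ⟨_, rfl⟩
  have hle : ∀ j, d j ≤ m := fun j => hm ▸ hi0 j (Finset.mem_univ _)
  have hm0 : 0 < m := by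
    obtain ⟨j, hj⟩ := hpos
    exact lt_of_lt_of_le hj (hle j)
  have hT : ∀ j, Tendsto (fun x : ℝ => Real.exp ((2 * (d j - m)) * x)) atTop
      (𝓝 (if 2 * (d j - m) = 0 then 1 else 0)) := fun j => nn_tend _ (by linarith [hle j])
  have hTm : Tendsto (fun x : ℝ => Real.exp ((-2 * m) * x)) atTop (𝓝 0) := by
    have h1 := nn_tend (-2 * m) (by linarith)
    rwa [if_neg (by linarith)] at h1
  have hTD : Tendsto (fun x : ℝ => Real.exp ((2 * d 0 - 4 * m) * x)) atTop (𝓝 0) := by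
    have h1 := nn_tend (2 * d 0 - 4 * m) (by linarith [hle 0])
    rwa [if_neg (by linarith [hle 0])] at h1
  have hid : ∀ x : ℝ, (∑ j, δ j * Real.exp ((2 * (d j - m)) * x) * e j -
      p * Real.exp ((-2 * m) * x)) ^ 2 + (∑ j, δ j * Real.exp ((2 * (d j - m)) * x) * f j -
      q * Real.exp ((-2 * m) * x)) ^ 2 = D * Real.exp ((2 * d 0 - 4 * m) * x) := by
    intro x
    have h1 : ∀ j, Real.exp ((2 * (d j - m)) * x) = Real.exp (2 * d j * x) * Real.exp ((-2 * m) * x) :=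
      fun j => by rw [← Real.exp_add]; congr 1; ring
    have h2 : Real.exp ((2 * d 0 - 4 * m) * x) =
        Real.exp (2 * d 0 * x) * Real.exp ((-2 * m) * x) * Real.exp ((-2 * m) * x) := by
      rw [← Real.exp_add, ← Real.exp_add]; congr 1; ring
    have h3 := h x
    simp only [h1, h2, Fin.sum_univ_three] at h3 ⊢
    linear_combination (Real.exp ((-2 * m) * x)) ^ 2 * h3
  obtain ⟨w, hw⟩ : ∃ w : Fin 3 → ℝ, ∀ j, w j = δ j * (if 2 * (d j - m) = 0 then 1 else 0) :=
    ⟨_, fun _ => rfl⟩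
  have hlim : ∀ (e : Fin 3 → ℝ) (p : ℝ), Tendsto (fun x : ℝ =>
      ∑ j, δ j * Real.exp ((2 * (d j - m)) * x) * e j - p * Real.exp ((-2 * m) * x)) atTop
      (𝓝 (∑ j, w j * e j)) := by
    intro e p
    have h1 : Tendsto (fun x : ℝ => ∑ j, δ j * Real.exp ((2 * (d j - m)) * x) * e j) atTop
        (𝓝 (∑ j, w j * e j)) := by
      refine tendsto_finsetSum _ (fun j _ => ?_)
      rw [hw j]
      exact ((hT j).const_mul (δ j)).mul_const (e j)
    have h2 := h1.sub (hTm.const_mul p)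
    simpa using h2
  have hzero : (∑ j, w j * e j) ^ 2 + (∑ j, w j * f j) ^ 2 = 0 := by
    have h1 := ((hlim e p).pow 2).add ((hlim f q).pow 2)
    have h2 : Tendsto (fun x : ℝ => D * Real.exp ((2 * d 0 - 4 * m) * x)) atTop (𝓝 0) := by
      simpa using hTD.const_mul D
    refine tendsto_nhds_unique h1 (h2.congr (fun x => (hid x).symm))
  have hE : ∑ j, w j * e j = 0 := by
    have h1 := sq_nonneg (∑ j, w j * e j)
    have h2 := sq_nonneg (∑ j, w j * f j)
    exact pow_eq_zero_iff (two_ne_zero) |>.1 (by linarith)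
  have hF : ∑ j, w j * f j = 0 := by
    have h1 := sq_nonneg (∑ j, w j * e j)
    have h2 := sq_nonneg (∑ j, w j * f j)
    exact pow_eq_zero_iff (two_ne_zero) |>.1 (by linarith)
  rw [Fin.sum_univ_three] at hE hF
  have e2 : e 2 = - e 0 - e 1 := by linarith
  have f2 : f 2 = - f 0 - f 1 := by linarith
  rw [e2] at hE
  rw [f2] at hF
  have h02 : w 0 = w 2 := by
    have h1 : (w 0 - w 2) * (e 0 * f 1 - e 1 * f 0) = 0 := by
      linear_combination f 1 * hE - e 1 * hF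
    exact sub_eq_zero.1 ((mul_eq_zero.1 h1).resolve_right hdet)
  have h12 : w 1 = w 2 := by
    have h1 : (w 1 - w 2) * (e 0 * f 1 - e 1 * f 0) = 0 := by
      linear_combination - f 0 * hE + e 0 * hF
    exact sub_eq_zero.1 ((mul_eq_zero.1 h1).resolve_right hdet)
  have hall : ∀ i, w i = w 2 := by
    intro i
    fin_cases i
    · exact h02
    · exact h12
    · rfl
  have hi0w : w i0 = δ i0 := by
    rw [hw, ← hm, sub_self, mul_zero, if_pos rfl, mul_one]
  have hdj : ∀ j, d j = m := by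
    intro j
    by_contra hne
    have h1 : w j = 0 := by
      rw [hw, if_neg, mul_zero]
      intro h2
      apply hne
      linarith
    have h3 : w i0 = 0 := by rw [hall i0, ← hall j, h1]
    have := hδ i0
    rw [← hi0w, h3] at this
    exact lt_irrefl _ this
  have hwj : ∀ j, w j = δ j := by
    intro j
    rw [hw, hdj j, sub_self, mul_zero, if_pos rfl, mul_one]
  exact ⟨fun i j => by rw [hdj i, hdj j], fun i j => by rw [← hwj i, ← hwj j, hall i, hall j]⟩

private theorem nn_core' (δ d e f : Fin 3 → ℝ) (p q D : ℝ) (hδ : ∀ j, 0 < δ j)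
    (he : e 0 + e 1 + e 2 = 0) (hf : f 0 + f 1 + f 2 = 0) (hdet : e 0 * f 1 - e 1 * f 0 ≠ 0)
    (h : ∀ x : ℝ, (∑ j, δ j * Real.exp (2 * d j * x) * e j - p) ^ 2 +
      (∑ j, δ j * Real.exp (2 * d j * x) * f j - q) ^ 2 = D * Real.exp (2 * d 0 * x))
    (hd : d ≠ 0) :
    (∀ i j, d i = d j) ∧ ∀ i j, δ i = δ j := by
  by_cases hpos : ∃ j, 0 < d j
  · exact nn_core δ d e f p q D hδ he hf hdet h hpos
  · have hneg : ∃ j, 0 < (fun j => - d j) j := by
      by_contra hcon
      apply hd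
      funext j
      have h1 : ¬ 0 < d j := fun h0 => hpos ⟨j, h0⟩
      have h2 : ¬ 0 < - d j := fun h0 => hcon ⟨j, h0⟩
      have h3 : d j = 0 := by linarith
      simpa using h3
    obtain ⟨h1, h2⟩ := nn_core δ (fun j => - d j) e f p q D hδ he hf hdet (fun x => by
      have h3 := h (-x)
      have h4 : ∀ j, 2 * d j * -x = 2 * (- d j) * x := fun j => by ring
      simp only [h4] at h3
      exact h3) hneg
    exact ⟨fun i j => neg_injective (h1 i j), h2⟩

theorem na_non (g a : Fin 3 → ℂ) (hg : ∀ j, g j ≠ 0) (ha : Function.Injective a)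
    (hcol : ((a 1 - a 0) * (starRingEnd ℂ) (a 2 - a 0)).im ≠ 0)
    (d : Fin 3 → ℝ) (hd : d ≠ 0) : (ray g a d).Finite := by
  by_contra hinf
  have hinf' : (ray g a d).Infinite := hinf
  have hX := ray_inf g a hg ha d hinf'
  obtain ⟨δ, hδ⟩ : ∃ δ : Fin 3 → ℝ, ∀ j, δ j = ‖g j‖⁻¹ ^ 2 := ⟨_, fun _ => rfl⟩
  have hδ0 : ∀ j, 0 < δ j := fun j => by
    rw [hδ j]
    exact pow_pos (inv_pos.2 (norm_pos_iff.2 (hg j))) 2
  obtain ⟨κ, hκ⟩ : ∃ κ, κ = kp a - a 0 * dl a := ⟨_, rfl⟩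
  have hres : (ed a 0).re + (ed a 1).re + (ed a 2).re = 0 := by
    simp only [ed, Matrix.cons_val_zero, Matrix.cons_val_one, Matrix.cons_val, Complex.sub_re]
    ring
  have hims : (ed a 0).im + (ed a 1).im + (ed a 2).im = 0 := by
    simp only [ed, Matrix.cons_val_zero, Matrix.cons_val_one, Matrix.cons_val, Complex.sub_im]
    ring
  have hdet : (ed a 0).re * (ed a 1).im - (ed a 1).re * (ed a 0).im ≠ 0 := by
    intro h
    apply hcol
    simp only [ed, Matrix.cons_val_zero, Matrix.cons_val_one, Matrix.cons_val, Complex.sub_im,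
      Complex.sub_re] at h
    simp only [Complex.mul_im, Complex.sub_re, Complex.sub_im, Complex.conj_re, Complex.conj_im]
    linarith
  have hEx : ∀ (e : Fin 3 → ℝ) (p : ℝ), IsExp fun x =>
      (δ 0 * e 0) * Real.exp ((2 * d 0) * x) + (δ 1 * e 1) * Real.exp ((2 * d 1) * x) +
      (δ 2 * e 2) * Real.exp ((2 * d 2) * x) + (-p) := fun e p =>
    (((IsExp.exp _ _).add (IsExp.exp _ _)).add (IsExp.exp _ _)).add (IsExp.const _)
  have hF := (((hEx (fun j => (ed a j).re) κ.re).mul (hEx (fun j => (ed a j).re) κ.re)).add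
    ((hEx (fun j => (ed a j).im) κ.im).mul (hEx (fun j => (ed a j).im) κ.im))).add
      (IsExp.exp (- (‖dl a‖ ^ 2 * δ 0)) (2 * d 0))
  have key : ∀ x : ℝ, ((∃ z : ℂ, (∀ j, ‖z - a j‖ ^ 2 = ‖g j‖⁻¹ ^ 2 * Real.exp (2 * d j * x))) →
      (∑ j, δ j * Real.exp (2 * d j * x) * (ed a j).re - κ.re) ^ 2 +
      (∑ j, δ j * Real.exp (2 * d j * x) * (ed a j).im - κ.im) ^ 2 =
        (‖dl a‖ ^ 2 * δ 0) * Real.exp (2 * d 0 * x)) := by
    rintro x ⟨z, hz⟩
    have h1 := cayley a z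
    simp only [hz, ← hδ, ← hκ] at h1
    rw [Complex.sq_norm, Complex.normSq_apply] at h1
    simp only [Complex.sub_re, Complex.sub_im, Complex.re_sum, Complex.im_sum,
      Complex.re_ofReal_mul, Complex.im_ofReal_mul] at h1
    linarith
  have hall := exp_zero hF (hX.mono (by
    intro x hx
    have h1 := key x hx
    simp only [Fin.sum_univ_three] at h1
    show _ = _
    linarith))
  have hid : ∀ x : ℝ, (∑ j, δ j * Real.exp (2 * d j * x) * (ed a j).re - κ.re) ^ 2 +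
      (∑ j, δ j * Real.exp (2 * d j * x) * (ed a j).im - κ.im) ^ 2 =
        (‖dl a‖ ^ 2 * δ 0) * Real.exp (2 * d 0 * x) := by
    intro x
    have h1 := hall x
    simp only [Fin.sum_univ_three]
    linarith
  obtain ⟨h1, h2⟩ := nn_core' δ d (fun j => (ed a j).re) (fun j => (ed a j).im) κ.re κ.im
    (‖dl a‖ ^ 2 * δ 0) hδ0 hres hims hdet hid hd
  refine hinf ((Set.finite_singleton (kp a / dl a)).subset ?_)
  rintro z ⟨hne, x, hx, hlog⟩
  have hn : ∀ j, ‖z - a j‖ ^ 2 = δ 0 * Real.exp (2 * d 0 * x) := by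
    intro j
    have hp : 0 < ‖g j * (z - a j)‖ := norm_pos_iff.2 (mul_ne_zero (hg j) (sub_ne_zero.2 (hne j)))
    have h3 : ‖g j * (z - a j)‖ = Real.exp (x * d j) := by
      rw [← hlog j, Real.exp_log hp]
    rw [norm_mul] at h3
    have hgj : ‖g j‖ ≠ 0 := norm_ne_zero_iff.2 (hg j)
    have h4 : ‖z - a j‖ = ‖g j‖⁻¹ * Real.exp (x * d j) := by
      rw [← h3, inv_mul_cancel_left₀ hgj]
    rw [h4, mul_pow, ← hδ, h2 j 0, h1 j 0, ← Real.exp_nat_mul]
    congr 2
    push_cast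
    ring
  have h5 := cayley_lin a z
  simp only [hn] at h5
  have h6 : ∑ j, ((δ 0 * Real.exp (2 * d 0 * x) : ℝ) : ℂ) * ed a j = 0 := by
    rw [← Finset.mul_sum, Fin.sum_univ_three]
    simp only [ed, Matrix.cons_val_zero, Matrix.cons_val_one, Matrix.cons_val]
    ring
  rw [h6] at h5
  have h7 : z * dl a = kp a := by
    linear_combination h5
  rw [Set.mem_singleton_iff, eq_div_iff (dl_ne a hcol), h7]

end BMF
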