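import Pool.Agent.Lib.MP_a325a5_ag.F.QbarG
import Pool.Agent.Lib.MP_a325a5_ag.F.MainG
import Pool.Agent.Lib.MP_a325a5_ag.F.NaCol
import Pool.Agent.Lib.MP_a325a5_ag.F.NaNon

/-! The theorem over the complex numbers. -/

open Polynomial Polynomial.Bivariate Pool.Agent.Lib.MP_a325a5_ag.UL

namespace BMF

theorem na (g a : Fin 3 → ℂ) (hg : ∀ j, g j ≠ 0) (ha : Function.Injective a)
    (h : ((a 1 - a 0) * (starRingEnd ℂ) (a 2 - a 0)).im = 0 → ∀ k i j : Fin 3, k ≠ i → k ≠ j →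
      i ≠ j →
      {z : ℂ | ‖g k * (z - a k)‖ = 1 ∧ ‖g i * (z - a i)‖ = ‖g j * (z - a j)‖}.Finite)
    (d : Fin 3 → ℝ) (hd : d ≠ 0) : (ray g a d).Finite := by
  by_cases hcol : ((a 1 - a 0) * (starRingEnd ℂ) (a 2 - a 0)).im = 0
  · exact na_col g a hg ha hcol (h hcol) d hd
  · exact na_non g a hg ha hcol d hd

theorem theoremF (α γ : Fin 3 → AlgebraicClosure ℚ) (r p : AlgebraicClosure ℚ)
    (hα : Function.Injective α) (hγ : ∀ j, γ j ≠ 0) (hr : r ≠ 0) (hp : p ≠ 0)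
    (τ : AlgebraicClosure ℚ →+* ℂ)
    (h : ((τ (α 1) - τ (α 0)) * (starRingEnd ℂ) (τ (α 2) - τ (α 0))).im = 0 →
      ∀ k i j : Fin 3, k ≠ i → k ≠ j → i ≠ j →
        {z : ℂ | ‖τ (γ k) * (z - τ (α k))‖ = 1 ∧
          ‖τ (γ i) * (z - τ (α i))‖ = ‖τ (γ j) * (z - τ (α j))‖}.Finite)
    (φ : AlgebraicClosure ℚ →+* ℂ) :
    IrrClosed (surf (fun j => φ (α j)) (fun j => φ (γ j)) (φ r) (φ p)) ∧
    ¬ DenseIn (HLatyp (surf (fun j => φ (α j)) (fun j => φ (γ j)) (φ r) (φ p)))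
      (surf (fun j => φ (α j)) (fun j => φ (γ j)) (φ r) (φ p)) := by
  refine ⟨surf_irr _ _ _ _ ?_ ?_, main_of_g α γ r p hα hγ hr hp φ
    (qbar_g α γ r p hα hγ hr hp τ ?_)⟩
  · exact fun j => (map_ne_zero φ).mpr (hγ j)
  · exact (map_ne_zero φ).mpr hr
  · exact na _ _ (fun j => (map_ne_zero τ).mpr (hγ j)) (fun i j hij => hα (τ.injective hij)) h

end BMF
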