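import Pool.Agent.Lib.MP_a325a5_ag.F.Hgt
import Pool.Agent.Lib.MP_a325a5_ag.F.Hn

/-! From algebraic numbers to number fields, and finiteness.

`exists_field`: `K` is `IntermediateField.adjoin L S` for the finite set `S ⊆ Q̄` (as an
intermediate field of `Q̄ / L`), `i` the inclusion.
`fin_of_bd`: by `northcott` (degree at most `D [L : ℚ]`) the images of the elements of the set
under an embedding of `Q̄` into `ℂ` (extending nothing) are in a finite set; the embedding is
injective. -/

open NumberField

namespace BMF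

theorem exists_field (L : Type) [Field L] [NumberField L] [Algebra L (AlgebraicClosure ℚ)]
    (S : Set (AlgebraicClosure ℚ)) (hS : S.Finite) :
    ∃ (K : Type) (_ : Field K) (_ : NumberField K) (_ : Algebra L K)
      (i : K →ₐ[L] AlgebraicClosure ℚ), S ⊆ Set.range i ∧
        IntermediateField.adjoin L (i ⁻¹' S) = ⊤ := by
  have hint : ∀ x ∈ S, IsIntegral L x := by
    intro x _
    have h1 : IsIntegral ℚ x := (AlgebraicClosure.isAlgebraic ℚ).isAlgebraic x |>.isIntegral
    exact h1.tower_top
  have := hS.to_subtype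
  have hfd : FiniteDimensional L (IntermediateField.adjoin L S) :=
    IntermediateField.finiteDimensional_adjoin hint
  have : FiniteDimensional ℚ (IntermediateField.adjoin L S) := Module.Finite.trans L _
  have : NumberField (IntermediateField.adjoin L S) := ⟨⟩
  refine ⟨IntermediateField.adjoin L S, inferInstance, inferInstance, inferInstance,
    (IntermediateField.adjoin L S).val, ?_, ?_⟩
  · intro x hx
    exact ⟨⟨x, IntermediateField.subset_adjoin L S hx⟩, rfl⟩
  · apply IntermediateField.lift_injective (IntermediateField.adjoin L S)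
    rw [IntermediateField.lift_top, IntermediateField.lift_adjoin]
    congr 1
    ext x
    constructor
    · rintro ⟨y, hy, rfl⟩
      exact hy
    · intro hx
      exact ⟨⟨x, IntermediateField.subset_adjoin L S hx⟩, hx, rfl⟩

theorem fin_of_bd (L : Type) [Field L] [NumberField L] [Algebra L (AlgebraicClosure ℚ)]
    (D : ℕ) (B : ℝ) (T : Set (AlgebraicClosure ℚ))
    (h : ∀ t ∈ T, ∃ (K : Type) (_ : Field K) (_ : NumberField K) (_ : Algebra L K)
      (i : K →ₐ[L] AlgebraicClosure ℚ) (t' : K), i t' = t ∧ Module.finrank L K ≤ D ∧ ht t' ≤ B) :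
    T.Finite := by
  obtain ⟨S, hS, hS'⟩ := northcott (Module.finrank ℚ L * D) B
  have hA : Algebra.IsAlgebraic ℚ (AlgebraicClosure ℚ) := AlgebraicClosure.isAlgebraic ℚ
  let τ : AlgebraicClosure ℚ →+* ℂ := (IsAlgClosed.lift : AlgebraicClosure ℚ →ₐ[ℚ] ℂ).toRingHom
  have hfin : (τ ⁻¹' S).Finite := hS.preimage τ.injective.injOn
  apply hfin.subset
  intro t ht'
  obtain ⟨K, hK1, hK2, hK3, i, t', hi, hd, hh⟩ := h t ht'
  have hdeg : Module.finrank ℚ K ≤ Module.finrank ℚ L * D := by
    rw [← Module.finrank_mul_finrank ℚ L K]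
    exact Nat.mul_le_mul_left _ hd
  have := hS' K hdeg t' hh (τ.comp i.toRingHom)
  show τ t ∈ S
  rw [← hi]
  exact this

end BMF
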