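import Pool.Agent.Lib.MP_a325a5_ag.F.OneRel
import Pool.Agent.Lib.MP_a325a5_ag.F.DegB
import Pool.Agent.Lib.MP_a325a5_ag.F.Co
import Pool.Agent.Lib.MP_a325a5_ag.F.Hc

/-! Points `t` with two independent relations between the `c_j(t)` have bounded degree.

Proof.  Apply `degree_bound1` with `C1 = 1` to `P j = c_j(t) = γ j (t - α j)` (units of `K`).
`ht t ≤ C` by `one_rel` (`a ≠ 0` by independence), so `ht (c_j(t)) ≤ C'` (`ht_mul_le`, `ht_sub_le`,
`ht_const`).  `mrk P ≤ 1`: two independent relations in `ℤ³` (with `x` of rank at least two there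
would be two independent elements among the three up to torsion, ... ; use `mr_spec` or
`coords2`-free linear algebra: `mrk P = 3 - rank` of the relation lattice; e.g. with
`UL.mr_eq_card_iff` and `UL.mr_spec`).  For a relation `a ≠ 0` the polynomial
`∏ (γ j (X - α j)) ^ (a j)⁺ - ∏ (γ j (X - α j)) ^ (a j)⁻` of `L[X]` is nonzero (an `α j` with `a j ≠ 0` is a
zero of one product only), has the root `t` and degree at most `∑ |a j|`, and
`[L(t) : L] = (minpoly L t).natDegree`. -/

open NumberField Polynomial Polynomial.Bivariate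

namespace BMF

private theorem T1_mrk {K : Type} [Field K] (P : Fin 3 → Kˣ) (a b : Fin 3 → ℤ)
    (h : LinearIndependent ℤ ![a, b]) (ha : ∏ i, P i ^ a i = 1) (hb : ∏ i, P i ^ b i = 1) :
    mrk P ≤ 1 := by
  let f : (Fin 3 → ℤ) →ₗ[ℤ] Additive Kˣ :=
    Fintype.linearCombination ℤ (fun i => Additive.ofMul (P i))
  have hf : ∀ c, f c = Additive.ofMul (∏ i, P i ^ c i) := by
    intro c
    rw [ofMul_prod]
    rfl
  have hr : LinearMap.range f = Submodule.span ℤ (Set.range fun i => Additive.ofMul (P i)) :=
    Fintype.range_linearCombination ℤ _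
  have hk : 2 ≤ Module.finrank ℤ (LinearMap.ker f) := by
    have ha' : a ∈ LinearMap.ker f := by
      rw [LinearMap.mem_ker, hf, ha]; rfl
    have hb' : b ∈ LinearMap.ker f := by
      rw [LinearMap.mem_ker, hf, hb]; rfl
    have hli : LinearIndependent ℤ (![⟨a, ha'⟩, ⟨b, hb'⟩] : Fin 2 → LinearMap.ker f) := by
      apply LinearIndependent.of_comp (LinearMap.ker f).subtype
      have : (LinearMap.ker f).subtype ∘ (![⟨a, ha'⟩, ⟨b, hb'⟩] : Fin 2 → LinearMap.ker f) =
          ![a, b] := by
        funext i
        fin_cases i <;> rfl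
      rw [this]
      exact h
    have := hli.fintype_card_le_finrank
    rwa [Fintype.card_fin] at this
  have h3 := Submodule.finrank_quotient_add_finrank (LinearMap.ker f)
  rw [Module.finrank_fin_fun, (LinearMap.quotKerEquivRange f).finrank_eq, hr] at h3
  unfold mrk
  omega

theorem t1 {L : Type} [Field L] [NumberField L] (α γ : Fin 3 → L)
    (hα : Function.Injective α) (hγ : ∀ j, γ j ≠ 0) :
    ∃ D₀ : ℕ, ∀ (K : Type) [Field K] [NumberField K] [Algebra L K] (t : K),
      IntermediateField.adjoin L {t} = ⊤ → (∀ j, t ≠ algebraMap L K (α j)) →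
      ∀ a b : Fin 3 → ℤ, LinearIndependent ℤ ![a, b] →
      ∏ j, (algebraMap L K (γ j) * (t - algebraMap L K (α j))) ^ a j = 1 →
      ∏ j, (algebraMap L K (γ j) * (t - algebraMap L K (α j))) ^ b j = 1 →
      Module.finrank L K ≤ D₀ := by
  obtain ⟨C', hC0, hC⟩ := one_rel α γ hα hγ
  choose ca hca using fun j => ht_const L (α j)
  choose cg hcg using fun j => ht_const L (γ j)
  have hl2 : 0 ≤ Real.log 2 := Real.log_nonneg (by norm_num)
  obtain ⟨D₀, hD₀⟩ := degree_bound1 L (∑ j, |cg j| + C' + ∑ j, |ca j| + Real.log 2) 1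
  refine ⟨D₀, ?_⟩
  intro K _ _ _ t htop htα a b hab h1 h2
  have hne : ∀ j, algebraMap L K (γ j) * (t - algebraMap L K (α j)) ≠ 0 := fun j =>
    mul_ne_zero ((_root_.map_ne_zero _).2 (hγ j)) (sub_ne_zero.2 (htα j))
  let P : Fin 3 → Kˣ := fun j => Units.mk0 _ (hne j)
  have hPprod : ∀ c : Fin 3 → ℤ, ((∏ j, P j ^ c j : Kˣ) : K) =
      ∏ j, (algebraMap L K (γ j) * (t - algebraMap L K (α j))) ^ c j := by
    intro c
    rw [Units.coe_prod]
    refine Finset.prod_congr rfl fun j _ => ?_
    rw [Units.val_zpow_eq_zpow_val]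
    rfl
  have hP1 : ∀ c : Fin 3 → ℤ, ∏ j, P j ^ c j = 1 ↔
      ∏ j, (algebraMap L K (γ j) * (t - algebraMap L K (α j))) ^ c j = 1 := by
    intro c
    rw [← hPprod c, Units.val_eq_one]
  have ha0 : a ≠ 0 := by
    have := hab.ne_zero 0
    exact this
  have hht : BMF.ht t ≤ C' := hC K t htα a ha0 h1
  have hcount : Module.finrank L K ≤ Module.finrank ℚ K := by
    rw [← Module.finrank_mul_finrank ℚ L K]
    exact Nat.le_mul_of_pos_left _ Module.finrank_pos
  refine hcount.trans (hD₀ K P ?_ (T1_mrk P a b hab ((hP1 a).2 h1) ((hP1 b).2 h2)) ?_)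
  · intro j
    have e1 : BMF.ht (P j : K) ≤ BMF.ht (algebraMap L K (γ j)) + BMF.ht (t - algebraMap L K (α j)) :=
      ht_mul_le _ _
    have e2 := ht_sub_le t (algebraMap L K (α j))
    have e3 := hcg j K
    have e4 := hca j K
    have e5 : |cg j| ≤ ∑ j, |cg j| :=
      Finset.single_le_sum (f := fun j => |cg j|) (fun i _ => abs_nonneg _) (Finset.mem_univ j)
    have e6 : |ca j| ≤ ∑ j, |ca j| :=
      Finset.single_le_sum (f := fun j => |ca j|) (fun i _ => abs_nonneg _) (Finset.mem_univ j)
    have e7 := le_abs_self (cg j)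
    have e8 := le_abs_self (ca j)
    linarith
  · intro c hc hrel
    rw [hP1] at hrel
    rw [one_mul]
    -- the polynomial
    let u : Fin 3 → L[X] := fun j => C (γ j) * (X - C (α j))
    set f : L[X] := ∏ j, u j ^ (c j).toNat - ∏ j, u j ^ (-c j).toNat with hf
    have hev : ∀ j k, k ≠ j → eval (α j) (u k) ≠ 0 := by
      intro j k hkj
      simp only [u, eval_mul, eval_C, eval_sub, eval_X]
      exact mul_ne_zero (hγ k) (sub_ne_zero.2 (fun hh => hkj (hα hh).symm))
    have hev0 : ∀ j, eval (α j) (u j) = 0 := by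
      intro j
      simp [u]
    have hf0 : f ≠ 0 := by
      intro hzero
      apply hc
      have hpoly : ∏ j, u j ^ (c j).toNat = ∏ j, u j ^ (-c j).toNat := sub_eq_zero.1 hzero
      funext j
      have h1 := congrArg (eval (α j)) hpoly
      rw [eval_prod, eval_prod] at h1
      simp only [eval_pow] at h1
      rw [Pi.zero_apply]
      by_contra hne
      rcases lt_or_gt_of_ne hne with hlt | hgt
      · have hr0 : ∏ k, eval (α j) (u k) ^ (-c k).toNat = 0 := by
          apply Finset.prod_eq_zero (Finset.mem_univ j)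
          rw [hev0, zero_pow]
          omega
        rw [hr0, Finset.prod_eq_zero_iff] at h1
        obtain ⟨k, _, hk⟩ := h1
        by_cases hkj : k = j
        · subst hkj
          have : (c k).toNat = 0 := by omega
          rw [this, pow_zero] at hk
          exact one_ne_zero hk
        · exact pow_ne_zero _ (hev j k hkj) hk
      · have hr0 : ∏ k, eval (α j) (u k) ^ (c k).toNat = 0 := by
          apply Finset.prod_eq_zero (Finset.mem_univ j)
          rw [hev0, zero_pow]
          omega
        rw [hr0] at h1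
        have h2 := h1.symm
        rw [Finset.prod_eq_zero_iff] at h2
        obtain ⟨k, _, hk⟩ := h2
        by_cases hkj : k = j
        · subst hkj
          have : (-c k).toNat = 0 := by omega
          rw [this, pow_zero] at hk
          exact one_ne_zero hk
        · exact pow_ne_zero _ (hev j k hkj) hk
    have hroot : aeval t f = 0 := by
      have hu : ∀ j, aeval t (u j) = algebraMap L K (γ j) * (t - algebraMap L K (α j)) := by
        intro j
        simp [u]
      rw [hf, map_sub, map_prod, map_prod, sub_eq_zero]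
      simp only [map_pow, hu]
      have hN0 : ∏ j, (algebraMap L K (γ j) * (t - algebraMap L K (α j))) ^ (-c j).toNat ≠ 0 :=
        Finset.prod_ne_zero_iff.2 fun j _ => pow_ne_zero _ (hne j)
      rw [← div_eq_one_iff_eq hN0, ← hrel, ← Finset.prod_div_distrib]
      refine Finset.prod_congr rfl fun j _ => ?_
      rw [← zpow_natCast, ← zpow_natCast, ← zpow_sub₀ (hne j)]
      congr 1
      omega
    have hdu : ∀ j, (u j).natDegree ≤ 1 := by
      intro j
      refine (natDegree_C_mul_le _ _).trans ?_
      rw [natDegree_X_sub_C]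
    have hdeg : f.natDegree ≤ ∑ j, (c j).natAbs := by
      refine (natDegree_sub_le _ _).trans (max_le ?_ ?_)
      · refine (natDegree_prod_le _ _).trans (Finset.sum_le_sum fun j _ => ?_)
        refine (natDegree_pow_le).trans ?_
        calc (c j).toNat * (u j).natDegree ≤ (c j).toNat * 1 := Nat.mul_le_mul_left _ (hdu j)
          _ ≤ (c j).natAbs := by omega
      · refine (natDegree_prod_le _ _).trans (Finset.sum_le_sum fun j _ => ?_)
        refine (natDegree_pow_le).trans ?_
        calc (-c j).toNat * (u j).natDegree ≤ (-c j).toNat * 1 := Nat.mul_le_mul_left _ (hdu j)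
          _ ≤ (c j).natAbs := by omega
    have hfin : Module.finrank L K = (minpoly L t).natDegree := by
      have : FiniteDimensional L K := Module.Finite.of_restrictScalars_finite ℚ L K
      have hi : IsIntegral L t := Algebra.IsIntegral.isIntegral t
      have := IntermediateField.adjoin.finrank hi
      rw [htop, IntermediateField.finrank_top'] at this
      exact this
    have hle : (minpoly L t).natDegree ≤ f.natDegree :=
      natDegree_le_of_dvd (minpoly.dvd L t hroot) hf0
    have hsum : ((∑ j, |c j| : ℤ) : ℝ) = ((∑ j, (c j).natAbs : ℕ) : ℝ) := by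
      push_cast
      refine Finset.sum_congr rfl fun j _ => ?_
      rw [Nat.cast_natAbs]
      norm_cast
    rw [hsum, hfin]
    exact_mod_cast hle.trans hdeg

end BMF
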