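import Pool.Agent.Lib.MP_a325a5_ag.F.OneRel
import Pool.Agent.Lib.MP_a325a5_ag.F.T1
import Pool.Agent.Lib.MP_a325a5_ag.F.Sub

/-! Two finite sets of algebraic numbers.

Proofs.  `exists_field` with `S = {t}`: `K = L(t')`, `i t' = t`; the relations hold for `t'` in `K` (`i`
is injective).  `fin_T1`: `t1` bounds `[K : L]`, `one_rel` bounds `ht t'`; `fin_of_bd`.  (Independent
`a`, `b`: `a ≠ 0`.)  `fin_T2`: `[K : L] = (minpoly L t).natDegree ≤ D`
(`IntermediateField.adjoin.finrank` and `minpoly.algHom_eq`), `one_rel` bounds the height. -/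

open NumberField

namespace BMF

private theorem FinT_aux (L : Type) [Field L] [NumberField L] [Algebra L (AlgebraicClosure ℚ)]
    (t : AlgebraicClosure ℚ) :
    ∃ (K : Type) (_ : Field K) (_ : NumberField K) (_ : Algebra L K)
      (i : K →ₐ[L] AlgebraicClosure ℚ) (t' : K), i t' = t ∧
        IntermediateField.adjoin L {t'} = ⊤ := by
  obtain ⟨K, iF, iN, iA, i, hS, htop⟩ := exists_field L {t} (Set.finite_singleton t)
  obtain ⟨t', ht'⟩ := hS (Set.mem_singleton t)
  refine ⟨K, iF, iN, iA, i, t', ht', ?_⟩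
  have h1 : i ⁻¹' {t} = {t'} := by
    ext x
    simp only [Set.mem_preimage, Set.mem_singleton_iff]
    constructor
    · intro h
      exact i.toRingHom.injective (h.trans ht'.symm)
    · rintro rfl
      exact ht'
  rw [h1] at htop
  exact htop

private theorem FinT_rel {L K : Type} [Field L] [Field K] [Algebra L K]
    [Algebra L (AlgebraicClosure ℚ)] (i : K →ₐ[L] AlgebraicClosure ℚ) (α γ : Fin 3 → L) (t' : K)
    (a : Fin 3 → ℤ)
    (h : ∏ j, (algebraMap L (AlgebraicClosure ℚ) (γ j) *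
      (i t' - algebraMap L (AlgebraicClosure ℚ) (α j))) ^ a j = 1) :
    ∏ j, (algebraMap L K (γ j) * (t' - algebraMap L K (α j))) ^ a j = 1 := by
  apply i.toRingHom.injective
  change i _ = i _
  rw [map_prod, map_one, ← h]
  refine Finset.prod_congr rfl fun j _ => ?_
  rw [map_zpow₀, map_mul, map_sub, i.commutes, i.commutes]

theorem fin_T1 (L : Type) [Field L] [NumberField L] [Algebra L (AlgebraicClosure ℚ)]
    (α γ : Fin 3 → L) (hα : Function.Injective α) (hγ : ∀ j, γ j ≠ 0) :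
    {t : AlgebraicClosure ℚ | (∀ j, t ≠ algebraMap L _ (α j)) ∧ ∃ a b : Fin 3 → ℤ,
      LinearIndependent ℤ ![a, b] ∧
      ∏ j, (algebraMap L _ (γ j) * (t - algebraMap L _ (α j))) ^ a j = 1 ∧
      ∏ j, (algebraMap L _ (γ j) * (t - algebraMap L _ (α j))) ^ b j = 1}.Finite := by
  obtain ⟨D₀, hD⟩ := t1 (L := L) α γ hα hγ
  obtain ⟨C, -, hC⟩ := one_rel (L := L) α γ hα hγ
  refine fin_of_bd L D₀ C _ ?_
  rintro t ⟨ht, a, b, hab, ha, hb⟩
  obtain ⟨K, iF, iN, iA, i, t', hit, htop⟩ := FinT_aux L t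
  subst hit
  have hne : ∀ j, t' ≠ algebraMap L K (α j) := by
    intro j h
    exact ht j (by rw [h, i.commutes])
  have ha' := FinT_rel i α γ t' a ha
  have hb' := FinT_rel i α γ t' b hb
  have ha0 : a ≠ 0 := by
    have := hab.ne_zero 0
    simpa using this
  exact ⟨K, iF, iN, iA, i, t', rfl, hD K t' htop hne a b hab ha' hb', hC K t' hne a ha0 ha'⟩

theorem fin_T2 (L : Type) [Field L] [NumberField L] [Algebra L (AlgebraicClosure ℚ)]
    (α γ : Fin 3 → L) (hα : Function.Injective α) (hγ : ∀ j, γ j ≠ 0) (D : ℕ) :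
    {t : AlgebraicClosure ℚ | (∀ j, t ≠ algebraMap L _ (α j)) ∧ (∃ a : Fin 3 → ℤ, a ≠ 0 ∧
      ∏ j, (algebraMap L _ (γ j) * (t - algebraMap L _ (α j))) ^ a j = 1) ∧
      (minpoly L t).natDegree ≤ D}.Finite := by
  obtain ⟨C, -, hC⟩ := one_rel (L := L) α γ hα hγ
  refine fin_of_bd L D C _ ?_
  rintro t ⟨ht, ⟨a, ha0, ha⟩, hdeg⟩
  obtain ⟨K, iF, iN, iA, i, t', hit, htop⟩ := FinT_aux L t
  subst hit
  have hne : ∀ j, t' ≠ algebraMap L K (α j) := by
    intro j h
    exact ht j (by rw [h, i.commutes])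
  have ha' := FinT_rel i α γ t' a ha
  refine ⟨K, iF, iN, iA, i, t', rfl, ?_, hC K t' hne a ha0 ha'⟩
  have hinj : Function.Injective i := i.toRingHom.injective
  rw [minpoly.algHom_eq i hinj] at hdeg
  have hint : IsIntegral L t' := by
    have h1 : IsIntegral ℚ t' := Algebra.IsIntegral.isIntegral t'
    exact h1.tower_top
  have h2 := IntermediateField.adjoin.finrank hint
  rw [htop, IntermediateField.finrank_top'] at h2
  rw [h2]
  exact hdeg

end BMF
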