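import Pool.Agent.Lib.MP_a325a5_ag.F.B5
import Pool.Agent.Lib.MP_a325a5_ag.F.B6
import Pool.Agent.Lib.MP_a325a5_ag.F.D1
import Pool.Agent.Lib.MP_a325a5_ag.F.E3
import Pool.Agent.Lib.MP_a325a5_ag.F.E4
import Pool.Agent.Lib.MP_a325a5_ag.F.N1
import Pool.Agent.Lib.MP_a325a5_ag.F.N3
import Pool.Agent.Lib.MP_a325a5_ag.F.N4

open NumberField MvPolynomial

namespace BMF

private theorem g1_num (η : ℝ) (hη : 0 < η) (q : ℕ) (X0 : ℝ) : ∃ D0 : ℕ, ∀ D : ℕ,
    D0 ≤ D → 128 ≤ D ∧ q ^ 2 ≤ D ∧ (q : ℝ) ^ 2 ≤ (D : ℝ) ^ η ∧ X0 ≤ (D : ℝ) ^ (η / 4) ∧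
      (q : ℝ) ^ 2 + (3 * Real.logb 2 D + 2) ≤ ((D : ℝ) ^ (η / 4)) ^ (3 / 4 : ℝ) ∧
      8 * (q : ℝ) ^ 2 * ((D : ℝ) ^ (η / 4) * (D : ℝ) ^ (-η)) ≤ Real.log D := by
  have hl2 : 0 < Real.log 2 := Real.log_pos (by norm_num)
  have h1 : ∀ᶠ x : ℝ in Filter.atTop, (q : ℝ) ^ 2 ≤ x ^ η :=
    (tendsto_rpow_atTop hη).eventually_ge_atTop _
  have h2 : ∀ᶠ x : ℝ in Filter.atTop, X0 ≤ x ^ (η / 4) :=
    (tendsto_rpow_atTop (by positivity)).eventually_ge_atTop _
  have h3 : ∀ᶠ x : ℝ in Filter.atTop, 2 * ((q : ℝ) ^ 2 + 2) ≤ x ^ (η / 4 * (3 / 4)) :=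
    (tendsto_rpow_atTop (by positivity)).eventually_ge_atTop _
  have h4 : ∀ᶠ x : ℝ in Filter.atTop, ‖Real.log x‖ ≤ (Real.log 2 / 6) * ‖x ^ (η / 4 * (3 / 4))‖ :=
    (isLittleO_log_rpow_atTop (r := η / 4 * (3 / 4)) (by positivity)).bound (by positivity)
  have h5 : ∀ᶠ x : ℝ in Filter.atTop, 8 * (q : ℝ) ^ 2 ≤ x ^ (3 * η / 4) :=
    (tendsto_rpow_atTop (by positivity)).eventually_ge_atTop _
  have h6 : ∀ᶠ x : ℝ in Filter.atTop, 1 ≤ Real.log x :=
    Real.tendsto_log_atTop.eventually_ge_atTop _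
  have h7 : ∀ᶠ x : ℝ in Filter.atTop, (128 : ℝ) ≤ x := Filter.eventually_ge_atTop _
  have h8 : ∀ᶠ x : ℝ in Filter.atTop, ((q ^ 2 : ℕ) : ℝ) ≤ x := Filter.eventually_ge_atTop _
  obtain ⟨x0, hx0⟩ := Filter.eventually_atTop.1
    (h1.and (h2.and (h3.and (h4.and (h5.and (h6.and (h7.and h8)))))))
  refine ⟨⌈x0⌉₊, fun D hD => ?_⟩
  obtain ⟨a1, a2, a3, a4, a5, a6, a7, a8⟩ := hx0 (D : ℝ) ((Nat.le_ceil x0).trans
    (by exact_mod_cast hD))
  have hDpos : (0 : ℝ) < D := by linarith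
  refine ⟨by exact_mod_cast a7, by exact_mod_cast a8, a1, a2, ?_, ?_⟩
  · rw [← Real.rpow_mul hDpos.le]
    have hpos : 0 < (D : ℝ) ^ (η / 4 * (3 / 4)) := Real.rpow_pos_of_pos hDpos _
    rw [Real.norm_of_nonneg (by linarith), Real.norm_of_nonneg hpos.le] at a4
    have h9 : 3 * Real.logb 2 D ≤ (D : ℝ) ^ (η / 4 * (3 / 4)) / 2 := by
      rw [Real.logb, mul_div_assoc', div_le_iff₀ hl2]
      linarith
    linarith
  · refine le_trans ?_ a6
    rw [← Real.rpow_add hDpos, show η / 4 + -η = -(3 * η / 4) by ring, Real.rpow_neg hDpos.le]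
    have hpos : 0 < (D : ℝ) ^ (3 * η / 4) := Real.rpow_pos_of_pos hDpos _
    rw [mul_inv_le_iff₀ hpos, one_mul]
    exact a5

variable {M : ℕ} {k K : Type} [Field k] [NumberField k] [Field K] [NumberField K] [Algebra k K]

omit [NumberField k] in
private theorem g1_rel {L0 : ℕ} {G : P2 k} (hG : G ∈ bx k ![L0, 0]) (hG0 : G ≠ 0) :
    IsRelPrime G (X 1 - 1 : P2 k) := by
  have h10 : (X 1 - 1 : P2 k) ≠ 0 := by
    intro h
    have h1 := congrArg (eval (fun _ => (0 : k))) h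
    simp at h1
  intro d hdG hdh
  have hd0 : d ≠ 0 := fun h => hG0 (zero_dvd_iff.1 (h ▸ hdG))
  have h1 : d.degreeOf 1 = 0 := by
    obtain ⟨c, hc⟩ := hdG
    have hc0 : c ≠ 0 := fun h => hG0 (by rw [hc, h, mul_zero])
    have h2 : G.degreeOf 1 ≤ 0 := hG 1
    rw [hc, degreeOf_mul_eq hd0 hc0] at h2
    omega
  have h0 : d.degreeOf 0 = 0 := by
    obtain ⟨c, hc⟩ := hdh
    have hc0 : c ≠ 0 := fun h => h10 (by rw [hc, h, mul_zero])
    have h2 : (X 1 - 1 : P2 k).degreeOf 0 ≤ 0 := by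
      refine (degreeOf_sub_le 0 _ _).trans (max_le ?_ ?_)
      · rw [degreeOf_X_of_ne (by decide)]
      · rw [degreeOf_one]
    rw [hc, degreeOf_mul_eq hd0 hc0] at h2
    omega
  have hw : wt ![L0, 0] d = 0 := by
    rw [wt, h0, h1]
    simp
  obtain ⟨c, hc⟩ := wt_eq_zero hw
  have hc0 : c ≠ 0 := by
    intro h
    apply hd0
    rw [hc, h, C_0]
  rw [hc]
  exact (isUnit_iff_ne_zero.2 hc0).map C

private theorem g1_main (Z : Cyc M k) (g : K) (hg : g ≠ 0) (hnt : ∀ n : ℕ, 0 < n → g ^ n ≠ 1)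
    (η : ℝ) (hη1 : η ≤ 1) (T q : ℕ) (hT : 9 ≤ (T : ℝ) * (η / 4))
    (hT0 : 1 ≤ T) (hq : q = 2 * T * (2 * T + 7) + 1) (X0 : ℝ)
    (hX0 : 1 ≤ X0) (hprimes : ∀ X : ℝ, X0 ≤ X → ∃ P : Finset ℕ,
      (∀ p ∈ P, p.Prime ∧ X < p ∧ (p : ℝ) ≤ 8 * X) ∧ X ^ (3 / 4 : ℝ) ≤ P.card)
    (D : ℕ) (hDK : D = Module.finrank ℚ K) (hη : 0 < η)
    (hnum : 128 ≤ D ∧ q ^ 2 ≤ D ∧ (q : ℝ) ^ 2 ≤ (D : ℝ) ^ η ∧ X0 ≤ (D : ℝ) ^ (η / 4) ∧
      (q : ℝ) ^ 2 + (3 * Real.logb 2 D + 2) ≤ ((D : ℝ) ^ (η / 4)) ^ (3 / 4 : ℝ) ∧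
      8 * (q : ℝ) ^ 2 * ((D : ℝ) ^ (η / 4) * (D : ℝ) ^ (-η)) ≤ Real.log D) :
    (D : ℝ) ^ (-η) ≤ ht g * dg k ![g, 1] 1 := by
  classical
  obtain ⟨n1, n2, n3, n4, n5, n6⟩ := hnum
  by_contra hlt
  rw [not_le] at hlt
  obtain ⟨D', hD'⟩ : ∃ D', D' = dg k ![g, 1] 1 := ⟨_, rfl⟩
  rw [← hD'] at hlt
  have hD'0 : 0 < D' := by rw [hD']; exact dg_pos _ _
  have htot : 0 < M.totient := Nat.totient_pos.2 Z.pos
  have hMD : M.totient * D' ≤ D := by
    rw [hD', hDK]; exact totient_mul_dg_le Z _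
  have hD'D : D' ≤ D := le_trans (Nat.le_mul_of_pos_left _ htot) hMD
  have hMD1 : M.totient ≤ D := le_trans (Nat.le_mul_of_pos_right _ hD'0) hMD
  have hDR : (128 : ℝ) ≤ D := by exact_mod_cast n1
  have hD0 : (0 : ℝ) < D := by linarith
  have hq1 : 1 ≤ q := by omega
  have hqR : (1 : ℝ) ≤ q := by exact_mod_cast hq1
  have hg' : ∀ i, (![g, 1] : Fin 2 → K) i ≠ 0 := by
    intro i
    fin_cases i
    · exact hg
    · exact one_ne_zero
  have hLpos : 0 < D' * q ^ 2 := Nat.mul_pos hD'0 (pow_pos hq1 2)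
  obtain ⟨L0, hL0⟩ : ∃ L0, L0 + 1 = D' * q ^ 2 := ⟨D' * q ^ 2 - 1, by omega⟩
  obtain ⟨L, hL⟩ : ∃ L : Fin 2 → ℕ, L = ![L0, 0] := ⟨_, rfl⟩
  have hLa : L 0 = L0 := by rw [hL]; rfl
  have hLb : L 1 = 0 := by rw [hL]; rfl
  have hL0D : L0 + 1 ≤ D ^ 2 := by
    rw [hL0, sq D]
    exact Nat.mul_le_mul hD'D n2
  have hht : 0 ≤ ht g := ht_nonneg g
  -- small height
  have hLh : (L0 : ℝ) * ht g ≤ (q : ℝ) ^ 2 * (D : ℝ) ^ (-η) := by
    have h1 : (L0 : ℝ) ≤ D' * (q : ℝ) ^ 2 := by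
      have : L0 ≤ D' * q ^ 2 := by omega
      exact_mod_cast this
    calc (L0 : ℝ) * ht g ≤ (D' * (q : ℝ) ^ 2) * ht g := mul_le_mul_of_nonneg_right h1 hht
      _ = (q : ℝ) ^ 2 * (ht g * D') := by ring
      _ ≤ (q : ℝ) ^ 2 * (D : ℝ) ^ (-η) := mul_le_mul_of_nonneg_left hlt.le (by positivity)
  have hηpos : 0 < (D : ℝ) ^ η := Real.rpow_pos_of_pos hD0 _
  have hy : (L 0 : ℝ) * ht (![g, 1] 0) + (L 1 : ℝ) * ht (![g, 1] 1) ≤ 1 := by
    have h1 : (![g, 1] : Fin 2 → K) 0 = g := rfl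
    rw [h1, hLa, hLb, Nat.cast_zero, zero_mul, add_zero]
    refine hLh.trans ?_
    rw [Real.rpow_neg hD0.le, mul_inv_le_iff₀ hηpos, one_mul]
    exact n3
  -- a polynomial of small weight
  obtain ⟨θ, hθ⟩ : ∃ θ : ℝ, θ = 1 / q := ⟨_, rfl⟩
  have hθ0 : 0 < θ := by rw [hθ]; positivity
  have hθ1 : θ ≤ 1 := by rw [hθ, div_le_one (by positivity)]; exact hqR
  have hLm : ((L 0 : ℝ) + 1) * ((L 1 : ℝ) + 1) = D' * (q : ℝ) ^ 2 := by
    rw [hLa, hLb, Nat.cast_zero, zero_add, mul_one]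
    exact_mod_cast hL0
  obtain ⟨A, hA0, hA1, hA2⟩ := exists_small (k := k) ![g, 1] L hθ0 hθ1 (by
    rw [hLm, ← hD', hθ]
    refine le_of_eq ?_
    field_simp)
  have hdim := vanSub_dim T ![g, 1] L hA0 hA1
  obtain ⟨v, hv⟩ : ∃ v, v = Module.finrank k (vanSub k T L ![g, 1]) := ⟨_, rfl⟩
  rw [← hv, hLm] at hdim
  -- the family
  obtain ⟨S, hS1, hS2⟩ := box_family Z T ![g, 1] hg' L (by rw [← hDK]; exact n1) (by
      rw [← hDK, hLa, hLb, hL0, zero_add, mul_one, ← mul_assoc, sq D]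
      exact Nat.mul_le_mul hMD n2) (by
      intro i
      rw [← hDK]
      fin_cases i
      · show L 0 ≤ D ^ 2
        rw [hLa]; omega
      · show L 1 ≤ D ^ 2
        rw [hLb]; exact Nat.zero_le _) hy
  rw [← hv] at hS2
  rw [← hDK] at hS1
  obtain ⟨d, hd⟩ : ∃ d, d = Module.finrank k (Submodule.span k S) := ⟨_, rfl⟩
  rw [← hd, hLa, hLb, hL0, zero_add, mul_one] at hS2
  have hd0 : d ≠ 0 := by
    intro h0
    rw [h0, zero_add] at hS2
    have hqpos : (0 : ℝ) < D' * (q : ℝ) ^ 2 := by exact_mod_cast hLpos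
    have hTw : (T : ℝ) * wt L A ≤ 2 * T * θ := by
      have h1 : (T : ℝ) * wt L A ≤ T * (2 * θ) :=
        mul_le_mul_of_nonneg_left hA2 (Nat.cast_nonneg _)
      linarith
    have h1 : (1 - 2 * T * θ) * (D' * (q : ℝ) ^ 2) ≤ v :=
      (mul_le_mul_of_nonneg_right (by linarith) hqpos.le).trans hdim
    have h2 : ((D' * q ^ 2 - v : ℕ) : ℝ) ≤ 2 * T * θ * (D' * (q : ℝ) ^ 2) := by
      rcases Nat.le_total (D' * q ^ 2) v with h | h
      · rw [Nat.sub_eq_zero_of_le h, Nat.cast_zero]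
        positivity
      · rw [Nat.cast_sub h]
        push_cast
        linarith
    have h3 : (D' * (q : ℝ) ^ 2) ≤ (2 * T + 7) * (2 * T * θ * (D' * (q : ℝ) ^ 2)) := by
      have h4 : ((D' * q ^ 2 : ℕ) : ℝ) ≤ ((2 * T + 7) * (D' * q ^ 2 - v) : ℕ) := by
        exact_mod_cast hS2
      push_cast at h4
      refine h4.trans (mul_le_mul_of_nonneg_left ?_ (by positivity))
      exact h2
    have h5 : (2 * (T : ℝ) + 7) * (2 * T * θ) < 1 := by
      have h6 : (2 * (T : ℝ) + 7) * (2 * T) + 1 = q := by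
        rw [hq]; push_cast; ring
      have h7 : (2 * (T : ℝ) + 7) * (2 * T * θ) = ((2 * (T : ℝ) + 7) * (2 * T)) / q := by
        rw [hθ]; ring
      rw [h7, div_lt_one (by positivity)]
      linarith
    have h8 : (2 * (T : ℝ) + 7) * (2 * T * θ * (D' * (q : ℝ) ^ 2)) =
        ((2 * (T : ℝ) + 7) * (2 * T * θ)) * (D' * (q : ℝ) ^ 2) := by ring
    rw [h8] at h3
    have h9 := mul_lt_mul_of_pos_right h5 hqpos
    linarith
  obtain ⟨G, hGS, hG0⟩ : ∃ G ∈ S, G ≠ 0 := by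
    by_contra hcon
    apply hd0
    have h1 : Submodule.span k S = ⊥ := by
      rw [Submodule.span_eq_bot]
      intro G hG
      by_contra h0
      exact hcon ⟨G, hG, h0⟩
    rw [hd, h1, finrank_bot]
  obtain ⟨⟨hGL, hGv⟩, hGH⟩ := hS1 G hGS
  -- primes
  obtain ⟨P, hP1, hP2⟩ := hprimes _ n4
  obtain ⟨R, hRP, hR1, hR2⟩ := good_primes (k := k) ![g, 1] hg' 1 P (fun p hp => (hP1 p hp).1)
  obtain ⟨W, hW⟩ : ∃ W, W = (P \ R) \ M.primeFactors := ⟨_, rfl⟩
  have hWcard : (q : ℝ) ^ 2 ≤ W.card := by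
    have h1 : P.card ≤ W.card + R.card + M.primeFactors.card := by
      have h2 : P ⊆ (W ∪ R) ∪ M.primeFactors := by
        intro p hp
        by_cases hpR : p ∈ R
        · exact Finset.mem_union_left _ (Finset.mem_union_right _ hpR)
        · by_cases hpM : p ∈ M.primeFactors
          · exact Finset.mem_union_right _ hpM
          · refine Finset.mem_union_left _ (Finset.mem_union_left _ ?_)
            rw [hW]
            exact Finset.mem_sdiff.2 ⟨Finset.mem_sdiff.2 ⟨hp, hpR⟩, hpM⟩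
      refine (Finset.card_le_card h2).trans ((Finset.card_union_le _ _).trans ?_)
      exact Nat.add_le_add_right (Finset.card_union_le _ _) _
    have h3 : (P.card : ℝ) ≤ W.card + R.card + M.primeFactors.card := by exact_mod_cast h1
    have h4 := card_primes_dvd (K := K) Z
    have h5 : Real.logb 2 (dg k (![g, 1] : Fin 2 → K) 1) ≤ Real.logb 2 D := by
      rw [← hD']
      exact Real.logb_le_logb_of_le (by norm_num) (by exact_mod_cast hD'0) (by exact_mod_cast hD'D)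
    have h6 : (R.card : ℝ) ≤ Real.logb 2 D := by
      refine hR1.trans ?_
      rw [Nat.cast_one, one_mul]
      exact h5
    rw [← hDK] at h4
    linarith
  have hlogD : 0 < Real.log D := Real.log_pos (by linarith)
  have hXpos : 0 < (D : ℝ) ^ (η / 4) := Real.rpow_pos_of_pos hD0 _
  -- the zeros
  have hz : ∀ p ∈ W, 0 < p ∧ p.Coprime M ∧ dg k ![g, 1] p = dg k ![g, 1] 1 ∧
      ev (Z.fr p) p ![g, 1] G = 0 ∧ ev (Z.fr p) p ![g, 1] (X 1 - 1 : P2 k) = 0 := by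
    intro p hp
    rw [hW, Finset.mem_sdiff] at hp
    obtain ⟨hpR, hpM⟩ := hp
    obtain ⟨hpp, hpX, hp8⟩ := hP1 p (Finset.mem_sdiff.1 hpR).1
    have hpM' : ¬ p ∣ M := fun h => hpM (Nat.mem_primeFactors.2 ⟨hpp, h, Z.pos.ne'⟩)
    refine ⟨hpp.pos, (Nat.Prime.coprime_iff_not_dvd hpp).2 hpM', ?_, ?_, ?_⟩
    · have h1 := hR2 {p} (Finset.singleton_subset_iff.2 hpR) (by rw [Finset.card_singleton])
      rwa [Finset.prod_singleton] at h1
    · have h1 : (1 : ℝ) ≤ (M.totient : ℝ) * D := by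
        have h2 : (1 : ℝ) ≤ M.totient := by exact_mod_cast htot
        have h3 : (1 : ℝ) ≤ D := by linarith
        exact one_le_mul_of_one_le_of_one_le h2 h3
      have h2 := extrap Z ![g, 1] hg' L h1 hGL hGH (m := 1) (p := p) (T := T) (T' := 1)
        (Nat.coprime_one_left M) hpp hpM' hT0 (by
          rw [fr_one]
          simpa only [pow_one] using hGv) (by
          have e1 : (![g, 1] : Fin 2 → K) 0 = g := rfl
          rw [e1, hLa, hLb, Nat.cast_zero, Nat.cast_one, zero_mul, add_zero, zero_add, mul_one,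
            one_mul, one_mul, add_zero, sub_add_cancel]
          have hL0R : (0 : ℝ) < (L0 : ℝ) + 1 := by positivity
          have hLR : (L0 : ℝ) + 1 ≤ (D : ℝ) ^ 2 := by exact_mod_cast hL0D
          have hAR : (M.totient : ℝ) * D ≤ (D : ℝ) ^ 2 := by
            rw [sq]
            exact mul_le_mul_of_nonneg_right (by exact_mod_cast hMD1) hD0.le
          have e2 : Real.log (((L0 : ℝ) + 1) * ((M.totient : ℝ) * D)) ≤ 4 * Real.log D := by
            have h3 : Real.log ((D : ℝ) ^ 4) = 4 * Real.log D := by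
              rw [Real.log_pow]; norm_num
            rw [← h3]
            refine Real.log_le_log (mul_pos hL0R (by linarith)) ?_
            calc ((L0 : ℝ) + 1) * ((M.totient : ℝ) * D) ≤ (D : ℝ) ^ 2 * (D : ℝ) ^ 2 :=
                  mul_le_mul hLR hAR (by linarith) (by positivity)
              _ = (D : ℝ) ^ 4 := by ring
          have e3 : Real.log ((L0 : ℝ) + 1) ≤ 2 * Real.log D := by
            have h3 : Real.log ((D : ℝ) ^ 2) = 2 * Real.log D := by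
              rw [Real.log_pow]; norm_num
            rw [← h3]
            exact Real.log_le_log hL0R hLR
          have e4 : (p : ℝ) * ((L0 : ℝ) * ht g) ≤ Real.log D := by
            refine le_trans ?_ n6
            calc (p : ℝ) * ((L0 : ℝ) * ht g) ≤ (8 * (D : ℝ) ^ (η / 4)) *
                  ((q : ℝ) ^ 2 * (D : ℝ) ^ (-η)) :=
                  mul_le_mul hp8 hLh (mul_nonneg (Nat.cast_nonneg _) hht) (by positivity)
              _ = _ := by ring
          have e5 : (η / 4) * Real.log D ≤ Real.log p := by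
            rw [← Real.log_rpow hD0]
            exact Real.log_le_log hXpos hpX.le
          have e6 : (T : ℝ) * ((η / 4) * Real.log D) ≤ T * Real.log p :=
            mul_le_mul_of_nonneg_left e5 (Nat.cast_nonneg _)
          have e7 : 9 * Real.log D ≤ (T : ℝ) * ((η / 4) * Real.log D) := by
            rw [← mul_assoc]
            exact mul_le_mul_of_nonneg_right hT hlogD.le
          linarith)
      have h3 := (van_one_iff _ _).1 h2
      rw [one_mul] at h3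
      rw [ev_eq_eval]
      exact h3
    · rw [map_sub, map_one, ev, eval₂Hom_X']
      show (1 : K) ^ p - 1 = 0
      rw [one_pow, sub_self]
  have hcount := ev_count Z ![g, 1] hg hnt hG0 (by
    intro h
    have h1 := congrArg (eval (fun _ => (0 : k))) h
    simp at h1 : (X 1 - 1 : P2 k) ≠ 0) (g1_rel (L0 := L0) (hL ▸ hGL) hG0) W hz
  have hd1 : (X 1 - 1 : P2 k).degreeOf 1 ≤ 1 := by
    refine (degreeOf_sub_le 1 _ _).trans (max_le ?_ ?_)
    · rw [degreeOf_X_self]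
    · rw [degreeOf_one]; exact Nat.zero_le _
  have hG0' : G.degreeOf 0 ≤ L0 := hLa ▸ hGL 0
  have hG1' : G.degreeOf 1 = 0 := Nat.le_zero.1 (hLb ▸ hGL 1)
  rw [hG1', zero_mul, add_zero, ← hD'] at hcount
  have h1 : W.card * D' ≤ L0 := hcount.trans ((Nat.mul_le_mul hG0' hd1).trans_eq (mul_one _))
  have h2 : q ^ 2 ≤ W.card := by exact_mod_cast hWcard
  have h3 : q ^ 2 * D' ≤ W.card * D' := Nat.mul_le_mul_right _ h2
  have h4 : D' * q ^ 2 = q ^ 2 * D' := mul_comm _ _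
  omega

/-- relative Dobrowolski type lower bound (weak form) -/
theorem D1main (η : ℝ) (hη : 0 < η) : ∃ c : ℝ, 0 < c ∧ ∀ (M : ℕ) (k K : Type) [Field k]
    [NumberField k] [Field K] [NumberField K] [Algebra k K] (_ : Cyc M k) (g : K), g ≠ 0 →
    (∀ n : ℕ, 0 < n → g ^ n ≠ 1) →
    c * (Module.finrank ℚ K : ℝ) ^ (-η) ≤
      ht g * Module.finrank k (IntermediateField.adjoin k {g}) := by
  obtain ⟨η', hη'⟩ : ∃ η', η' = min η 1 := ⟨_, rfl⟩
  have hη'0 : 0 < η' := by rw [hη']; exact lt_min hη one_pos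
  have hη'1 : η' ≤ 1 := by rw [hη']; exact min_le_right _ _
  have hη'η : η' ≤ η := by rw [hη']; exact min_le_left _ _
  obtain ⟨X0, hX0, hprimes⟩ := exists_primes
  obtain ⟨T, hT⟩ := exists_nat_ge (9 / (η' / 4) + 1)
  have hT9 : 9 ≤ (T : ℝ) * (η' / 4) := by
    have h1 : 9 / (η' / 4) ≤ (T : ℝ) := by linarith
    rwa [div_le_iff₀ (by positivity)] at h1
  have hT1 : 1 ≤ T := by
    have h1 : 0 ≤ 9 / (η' / 4) := by positivity
    have h2 : (1 : ℝ) ≤ T := by linarith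
    exact_mod_cast h2
  obtain ⟨q, hq⟩ : ∃ q, q = 2 * T * (2 * T + 7) + 1 := ⟨_, rfl⟩
  obtain ⟨D0, hD0⟩ := g1_num η' hη'0 q X0
  obtain ⟨c1, hc1, hlow⟩ := ht_lower D0
  refine ⟨min 1 c1, lt_min one_pos hc1, ?_⟩
  intro M k K _ _ _ _ _ Z g hg hnt
  obtain ⟨D, hDK⟩ : ∃ D, D = Module.finrank ℚ K := ⟨_, rfl⟩
  rw [← hDK]
  have hDpos : 0 < D := by rw [hDK]; exact Module.finrank_pos
  have hD1 : (1 : ℝ) ≤ D := by exact_mod_cast hDpos
  have hset : (Set.range fun i => (![g, 1] : Fin 2 → K) i ^ 1) = {g, 1} := by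
    ext x
    constructor
    · rintro ⟨i, rfl⟩
      fin_cases i
      · left; exact pow_one g
      · right; exact pow_one 1
    · rintro (rfl | hx)
      · exact ⟨0, pow_one _⟩
      · rw [Set.mem_singleton_iff.1 hx]
        exact ⟨1, pow_one _⟩
  have hdg : dg k ![g, 1] 1 = Module.finrank k (IntermediateField.adjoin k {g}) := by
    have h1 : IntermediateField.adjoin k (Set.range fun i => (![g, 1] : Fin 2 → K) i ^ 1) =
        IntermediateField.adjoin k {g} := by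
      rw [hset]
      apply le_antisymm
      · rw [IntermediateField.adjoin_le_iff]
        rintro x (rfl | hx)
        · exact IntermediateField.mem_adjoin_simple_self k _
        · rw [Set.mem_singleton_iff.1 hx]
          exact one_mem _
      · exact IntermediateField.adjoin.mono k _ _ (Set.singleton_subset_iff.2 (Set.mem_insert _ _))
    rw [dg, h1]
  have hdgpos : 0 < dg k ![g, 1] 1 := dg_pos _ _
  rw [← hdg]
  have hmono : (D : ℝ) ^ (-η) ≤ (D : ℝ) ^ (-η') :=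
    Real.rpow_le_rpow_of_exponent_le hD1 (by linarith)
  have hpos : 0 < (D : ℝ) ^ (-η) := Real.rpow_pos_of_pos (by linarith) _
  rcases le_or_gt D0 D with h | h
  · have h1 := g1_main Z g hg hnt η' hη'1 T q hT9 hT1 hq X0 hX0 hprimes D hDK hη'0 (hD0 D h)
    calc min 1 c1 * (D : ℝ) ^ (-η) ≤ 1 * (D : ℝ) ^ (-η) :=
          mul_le_mul_of_nonneg_right (min_le_left _ _) hpos.le
      _ = (D : ℝ) ^ (-η) := one_mul _
      _ ≤ _ := hmono.trans h1
  · have h1 := hlow K (by rw [← hDK]; exact h.le) g hg hnt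
    have h2 : (D : ℝ) ^ (-η) ≤ 1 := Real.rpow_le_one_of_one_le_of_nonpos hD1 (by linarith)
    have h3 : (1 : ℝ) ≤ dg k ![g, 1] 1 := by exact_mod_cast hdgpos
    calc min 1 c1 * (D : ℝ) ^ (-η) ≤ c1 * 1 :=
          mul_le_mul (min_le_right _ _) h2 hpos.le hc1.le
      _ ≤ ht g * dg k ![g, 1] 1 := mul_le_mul h1 h3 zero_le_one (ht_nonneg g)

end BMF
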