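import Pool.Agent.Lib.MP_a325a5_ag.F.L3

open NumberField MvPolynomial

namespace BMF

/-- splitting a large finite set into a list of disjoint sets of equal size -/
theorem g2_split (s : ℕ) : ∀ (n : ℕ) (P : Finset ℕ), n * s ≤ P.card →
    ∃ l : List (Finset ℕ), l.length = n ∧ (∀ Q ∈ l, Q ⊆ P ∧ Q.card = s) ∧
      l.Pairwise fun Q Q' => Disjoint Q Q' := by
  intro n
  induction n with
  | zero => intro P _; exact ⟨[], rfl, by simp, List.Pairwise.nil⟩
  | succ n ih =>
    intro P hP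
    have h1 : s ≤ P.card := le_trans (by nlinarith) hP
    obtain ⟨Q, hQ, hQs⟩ := Finset.exists_subset_card_eq h1
    have h2 : n * s ≤ (P \ Q).card := by
      rw [Finset.card_sdiff_of_subset hQ, hQs]
      have : (n + 1) * s = n * s + s := by ring
      omega
    obtain ⟨l, hl, hl2, hl3⟩ := ih (P \ Q) h2
    refine ⟨Q :: l, by simp [hl], ?_, ?_⟩
    · intro Q' hQ'
      rcases List.mem_cons.1 hQ' with rfl | h
      · exact ⟨hQ, hQs⟩
      · exact ⟨(hl2 Q' h).1.trans Finset.sdiff_subset, (hl2 Q' h).2⟩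
    · rw [List.pairwise_cons]
      exact ⟨fun Q' hQ' => Finset.disjoint_of_subset_right (hl2 Q' hQ').1
        Finset.disjoint_sdiff, hl3⟩

/-- elements of `prods` are products of a small set of distinct elements -/
theorem g2_prods (P : Finset ℕ) : ∀ l : List (Finset ℕ), (∀ Q ∈ l, Q ⊆ P) →
    (l.Pairwise fun Q Q' => Disjoint Q Q') → ∀ m ∈ prods l,
      ∃ S ⊆ P, S.card ≤ l.length ∧ (∀ p ∈ S, ∃ Q ∈ l, p ∈ Q) ∧ m = ∏ p ∈ S, p := by
  intro l
  induction l with
  | nil =>
    intro _ _ m hm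
    refine ⟨∅, by simp, by simp, by simp, ?_⟩
    simpa [prods] using hm
  | cons Q l ih =>
    intro hl hd m hm
    rw [List.pairwise_cons] at hd
    simp only [prods, Finset.mem_image, Finset.mem_product, Prod.exists] at hm
    obtain ⟨a, q, ⟨ha, hq⟩, rfl⟩ := hm
    obtain ⟨S, hS, hc, hSl, rfl⟩ := ih (fun Q' h => hl Q' (List.mem_cons_of_mem _ h)) hd.2 a ha
    have hqS : q ∉ S := by
      intro h
      obtain ⟨Q', hQ', hq'⟩ := hSl q h
      exact Finset.disjoint_left.1 (hd.1 Q' hQ') hq hq'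
    refine ⟨insert q S, ?_, ?_, ?_, ?_⟩
    · exact Finset.insert_subset (hl Q (List.mem_cons_self ..) hq) hS
    · rw [Finset.card_insert_of_notMem hqS]
      simpa using hc
    · intro p hp
      rcases Finset.mem_insert.1 hp with rfl | h
      · exact ⟨Q, List.mem_cons_self .., hq⟩
      · obtain ⟨Q', hQ', hp'⟩ := hSl p h
        exact ⟨Q', List.mem_cons_of_mem _ hQ', hp'⟩
    · rw [Finset.prod_insert hqS, mul_comm]

theorem g2_prods_pos {M : ℕ} : ∀ l : List (Finset ℕ),
    (∀ Q ∈ l, ∀ q ∈ Q, q.Prime ∧ ¬ q ∣ M) → ∀ m ∈ prods l, 0 < m ∧ m.Coprime M := by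
  intro l
  induction l with
  | nil => intro _ m hm; simp only [prods, Finset.mem_singleton] at hm; subst hm; simp
  | cons Q l ih =>
    intro hl m hm
    simp only [prods, Finset.mem_image, Finset.mem_product, Prod.exists] at hm
    obtain ⟨a, q, ⟨ha, hq⟩, rfl⟩ := hm
    have h1 := ih (fun Q' h => hl Q' (List.mem_cons_of_mem _ h)) a ha
    have h2 := hl Q (List.mem_cons_self ..) q hq
    exact ⟨Nat.mul_pos h1.1 h2.1.pos, Nat.Coprime.mul_left h1.2
      ((Nat.Prime.coprime_iff_not_dvd h2.1).2 h2.2)⟩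

theorem g2_prods_le {X : ℝ} (hX : 1 ≤ X) : ∀ l : List (Finset ℕ),
    (∀ Q ∈ l, ∀ q ∈ Q, (q : ℝ) ≤ 8 * X) → ∀ m ∈ prods l, (m : ℝ) ≤ (8 * X) ^ l.length := by
  intro l
  induction l with
  | nil => intro _ m hm; simp only [prods, Finset.mem_singleton] at hm; subst hm; simp
  | cons Q l ih =>
    intro hl m hm
    simp only [prods, Finset.mem_image, Finset.mem_product, Prod.exists] at hm
    obtain ⟨a, q, ⟨ha, hq⟩, rfl⟩ := hm
    have h1 := ih (fun Q' h => hl Q' (List.mem_cons_of_mem _ h)) a ha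
    have h2 := hl Q (List.mem_cons_self ..) q hq
    rw [List.length_cons, pow_succ, Nat.cast_mul]
    exact mul_le_mul h1 h2 (by positivity) (by positivity)

end BMF
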