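import Mathlib

open Filter

namespace BMF

theorem g2_ev (C a b : ℝ) (h : a < b) : ∀ᶠ x : ℝ in atTop, C * x ^ a ≤ x ^ b := by
  have h1 : Tendsto (fun x : ℝ => x ^ (b - a)) atTop atTop :=
    tendsto_rpow_atTop (by linarith)
  filter_upwards [h1.eventually_ge_atTop C, eventually_gt_atTop 0] with x hx h0
  have : x ^ b = x ^ (b - a) * x ^ a := by
    rw [← Real.rpow_add h0]; ring_nf
  rw [this]
  exact mul_le_mul_of_nonneg_right hx (Real.rpow_nonneg h0.le _)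

theorem g2_num (η c1 c2 X0 : ℝ) (hη : 0 < η) (hη1 : η ≤ 1) (hc1 : 0 < c1) (hc2 : 0 < c2)
    (t T : ℕ) (C0 C3 : ℝ) : ∃ D0 : ℝ, ∀ x : ℝ, D0 ≤ x →
      128 ≤ x ∧ C0 + 8 ≤ x ∧
      Real.sqrt C0 * x ^ (-(η / 2)) + 2 * (x ^ (-(7 * η / 8)) / c1) ≤ x ^ (-(η / 3)) ∧
      2 * x ^ (-(η / 3)) ≤ 1 ∧
      (8 * x ^ (η / 400)) ^ 8 * (2 * x ^ (-(η / 3))) ≤ 1 ∧
      Real.sqrt C0 * x ^ (-(3 * η / 8)) / c1 ≤ 1 ∧
      24 * x ^ (η / 400) ≤ x ^ 2 ∧ X0 ≤ x ^ (η / 400) ∧ 4 ≤ x ^ (η / 400) ∧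
      8 * (Real.sqrt (x ^ (η / 400)) + 1 + t) + (2 * Real.logb 2 x + 2) + 8 * Real.logb 2 x ≤
        (x ^ (η / 400)) ^ (3 / 4 : ℝ) ∧
      C3 ^ 8 < Real.sqrt (x ^ (η / 400)) ^ 3 ∧
      2 * (C0 + 8) ≤ Real.sqrt (x ^ (η / 400)) ^ 5 ∧
      (8 * x ^ (η / 400)) ^ 9 * x ^ (-(η / 3)) < c2 * x ^ (-(η / 16)) ∧
      (2 / Real.sqrt (x ^ (η / 400))) ^ 8 * (2 * (2 * T + 7) * T) < 1 := by
  have e1 := eventually_ge_atTop (128 : ℝ)
  have e2 := eventually_ge_atTop (C0 + 8 : ℝ)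
  have e3a := g2_ev (2 * Real.sqrt C0) (-(η / 2)) (-(η / 3)) (by linarith)
  have e3b := g2_ev (4 / c1) (-(7 * η / 8)) (-(η / 3)) (by linarith)
  have e4 := g2_ev 2 (-(η / 3)) 0 (by linarith)
  have e5 := g2_ev (8 ^ 8 * 2) (8 * (η / 400) - η / 3) 0 (by linarith)
  have e6 := g2_ev (Real.sqrt C0 / c1) (-(3 * η / 8)) 0 (by linarith)
  have e7 := g2_ev 24 (η / 400) 2 (by linarith)
  have hX : Tendsto (fun x : ℝ => x ^ (η / 400)) atTop atTop :=
    tendsto_rpow_atTop (by linarith)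
  have e8 := hX.eventually_ge_atTop X0
  have e9 := hX.eventually_ge_atTop 4
  have hl : ∀ᶠ x : ℝ in atTop, Real.log x ≤ x ^ (η / 800) :=
    ((isLittleO_log_rpow_atTop (r := η / 800) (by linarith)).bound (c := 1) one_pos).mp
      ((eventually_ge_atTop 1).mono fun x hx h => by
        rw [one_mul, Real.norm_of_nonneg (Real.log_nonneg hx),
          Real.norm_of_nonneg (Real.rpow_nonneg (by linarith) _)] at h
        exact h)
  have e10a := g2_ev (8 * 3) (η / 800) (3 * η / 1600) (by linarith)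
  have e10b := g2_ev ((8 * (1 + t) + 2) * 3) 0 (3 * η / 1600) (by linarith)
  have e10c := g2_ev (10 / Real.log 2 * 3) (η / 800) (3 * η / 1600) (by linarith)
  have e11 := g2_ev (C3 ^ 8 + 1) 0 (3 * η / 800) (by linarith)
  have e12 := g2_ev (2 * (C0 + 8)) 0 (5 * η / 800) (by linarith)
  have e13 := g2_ev (2 * 8 ^ 9 / c2) (9 * (η / 400) - η / 3) (-(η / 16)) (by linarith)
  have e14 := g2_ev (2 * (2 ^ 8 * (2 * (2 * T + 7) * T)) + 1) (-(8 * η / 800)) 0 (by linarith)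
  obtain ⟨D0, hD0⟩ := eventually_atTop.1 (e1.and (e2.and (e3a.and (e3b.and (e4.and (e5.and (e6.and
    (e7.and (e8.and (e9.and (hl.and (e10a.and (e10b.and (e10c.and (e11.and (e12.and (e13.and
      e14)))))))))))))))))
  refine ⟨D0, fun x hx => ?_⟩
  obtain ⟨h1, h2, h3a, h3b, h4, h5, h6, h7, h8, h9, hlx, h10a, h10b, h10c, h11, h12, h13, h14⟩ :=
    hD0 x hx
  have x0 : (0 : ℝ) < x := by linarith
  have hs : Real.sqrt (x ^ (η / 400)) = x ^ (η / 800) := by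
    rw [Real.sqrt_eq_rpow, ← Real.rpow_mul x0.le]; ring_nf
  have hq0 : 0 < x ^ (η / 800) := Real.rpow_pos_of_pos x0 _
  refine ⟨h1, h2, ?_, by simpa using h4, ?_, ?_, ?_, h8, h9, ?_, ?_, ?_, ?_, ?_⟩
  · have : 2 * (x ^ (-(7 * η / 8)) / c1) = (4 / c1 * x ^ (-(7 * η / 8))) / 2 := by
      field_simp; ring
    rw [this]
    linarith
  · have : (8 * x ^ (η / 400)) ^ 8 * (2 * x ^ (-(η / 3))) =
        8 ^ 8 * 2 * x ^ (8 * (η / 400) - η / 3) := by
      rw [mul_pow, ← Real.rpow_natCast (x ^ (η / 400)) 8, ← Real.rpow_mul x0.le,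
        sub_eq_add_neg, Real.rpow_add x0]
      push_cast
      ring_nf
    rw [this]
    simpa using h5
  · have : Real.sqrt C0 * x ^ (-(3 * η / 8)) / c1 = Real.sqrt C0 / c1 * x ^ (-(3 * η / 8)) := by
      ring
    rw [this]; simpa using h6
  · simpa using h7
  · rw [hs, ← Real.rpow_mul x0.le]
    have hlog : Real.logb 2 x = Real.log x / Real.log 2 := rfl
    have hl2 : 0 < Real.log 2 := Real.log_pos (by norm_num)
    have h10 : 10 * Real.logb 2 x ≤ (10 / Real.log 2) * x ^ (η / 800) := by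
      rw [hlog, ← mul_div_assoc, div_mul_eq_mul_div]
      exact div_le_div_of_nonneg_right (by linarith) hl2.le
    have hr : x ^ (η / 400 * (3 / 4)) = x ^ (3 * η / 1600) := by ring_nf
    rw [hr]
    rw [Real.rpow_zero, mul_one] at h10b
    linarith
  · rw [hs, ← Real.rpow_natCast (x ^ (η / 800)) 3, ← Real.rpow_mul x0.le]
    have : η / 800 * ((3 : ℕ) : ℝ) = 3 * η / 800 := by push_cast; ring
    rw [this]
    rw [Real.rpow_zero, mul_one] at h11
    linarith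
  · rw [hs, ← Real.rpow_natCast (x ^ (η / 800)) 5, ← Real.rpow_mul x0.le]
    have : η / 800 * ((5 : ℕ) : ℝ) = 5 * η / 800 := by push_cast; ring
    rw [this]
    rw [Real.rpow_zero, mul_one] at h12
    exact h12
  · have : (8 * x ^ (η / 400)) ^ 9 * x ^ (-(η / 3)) = 8 ^ 9 * x ^ (9 * (η / 400) - η / 3) := by
      rw [mul_pow, ← Real.rpow_natCast (x ^ (η / 400)) 9, ← Real.rpow_mul x0.le,
        sub_eq_add_neg, Real.rpow_add x0]
      push_cast
      ring_nf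
    rw [this]
    have hp : 0 < x ^ (9 * (η / 400) - η / 3) := Real.rpow_pos_of_pos x0 _
    have h13' : 2 * 8 ^ 9 * x ^ (9 * (η / 400) - η / 3) ≤ c2 * x ^ (-(η / 16)) := by
      have := mul_le_mul_of_nonneg_left h13 hc2.le
      calc 2 * 8 ^ 9 * x ^ (9 * (η / 400) - η / 3)
          = c2 * (2 * 8 ^ 9 / c2 * x ^ (9 * (η / 400) - η / 3)) := by field_simp
        _ ≤ _ := this
    nlinarith
  · rw [hs, div_pow, ← Real.rpow_natCast (x ^ (η / 800)) 8, ← Real.rpow_mul x0.le]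
    have e : η / 800 * ((8 : ℕ) : ℝ) = 8 * η / 800 := by push_cast; ring
    rw [e]
    have h15 : x ^ (-(8 * η / 800)) = (x ^ (8 * η / 800))⁻¹ := Real.rpow_neg x0.le _
    have hp : 0 < x ^ (8 * η / 800) := Real.rpow_pos_of_pos x0 _
    rw [h15, Real.rpow_zero] at h14
    have h16 : 2 * (2 ^ 8 * (2 * (2 * (T : ℝ) + 7) * T)) + 1 ≤ x ^ (8 * η / 800) := by
      rw [← div_eq_mul_inv, div_le_one hp] at h14
      exact h14
    rw [div_mul_eq_mul_div, div_lt_one hp]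
    have hT : (0 : ℝ) ≤ 2 ^ 8 * (2 * (2 * (T : ℝ) + 7) * T) := by positivity
    linarith

end BMF
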