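import Pool.Agent.Lib.MP_a325a5_ag.F.Def
import Pool.Agent.Lib.MP_a325a5_ag.F.G2b

open NumberField MvPolynomial

namespace BMF

variable {k K : Type} [Field k] [NumberField k] [Field K] [NumberField K] [Algebra k K]

theorem g2_nt {g : Fin 2 → K} (hI : MInd g) (i : Fin 2) : ∀ n : ℕ, 0 < n → g i ^ n ≠ 1 := by
  intro n hn h
  fin_cases i
  · have := hI n 0 (by simpa using h)
    have h1 := this.1
    have : n = 0 := by exact_mod_cast h1
    omega
  · have := hI 0 n (by simpa using h)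
    have h1 := this.2
    have : n = 0 := by exact_mod_cast h1
    omega

theorem g2_fin_le (g : Fin 2 → K) (i : Fin 2) :
    Module.finrank k (IntermediateField.adjoin k {g i}) ≤ dg k g 1 := by
  haveI : FiniteDimensional k K := by
    haveI : IsScalarTower ℚ k K := inferInstance
    exact Module.Finite.of_restrictScalars_finite ℚ k K
  unfold dg
  have hle : IntermediateField.adjoin k {g i} ≤
      IntermediateField.adjoin k (Set.range fun i => g i ^ 1) := by
    rw [IntermediateField.adjoin_simple_le_iff]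
    apply IntermediateField.subset_adjoin
    exact ⟨i, by simp⟩
  exact IntermediateField.finrank_le_of_le_right hle

theorem g2_Tf {c0 : ℝ} (hc : 0 < c0) : ∃ Tf : ℕ → ℕ, Tf 8 = 1 ∧ ∀ j < 8,
    Tf (j + 1) ≤ Tf j ∧ 6 + 3 * (Tf (j + 1) : ℝ) ≤ ((Tf j : ℝ) - Tf (j + 1) + 1) * c0 := by
  let a : ℕ → ℕ := fun n => Nat.rec (motive := fun _ => ℕ) 1 (fun _ r => r + ⌈(6 + 3 * (r : ℝ)) / c0⌉₊) n
  refine ⟨fun j => a (8 - j), rfl, fun j hj => ?_⟩
  obtain ⟨i, hi⟩ : ∃ i, 8 - j = i + 1 := ⟨7 - j, by omega⟩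
  have hi2 : 8 - (j + 1) = i := by omega
  simp only [hi, hi2]
  have ha : a (i + 1) = a i + ⌈(6 + 3 * (a i : ℝ)) / c0⌉₊ := rfl
  rw [ha]
  refine ⟨Nat.le_add_right _ _, ?_⟩
  have h1 := Nat.le_ceil ((6 + 3 * (a i : ℝ)) / c0)
  rw [div_le_iff₀ hc] at h1
  push_cast
  nlinarith

end BMF
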