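import Mathlib

namespace BMF

/-- choice of the degrees -/
theorem g2_pick {η c1 C0 x h0 h1 D' : ℝ} (hc1 : 0 < c1) (hC0 : 1 ≤ C0) (hx : 0 < x)
    (hD' : 1 ≤ D') (hl0 : c1 * x ^ (-(η / 8)) ≤ h0 * D') (hl1 : c1 * x ^ (-(η / 8)) ≤ h1 * D')
    (hneg : h0 * h1 * D' < x ^ (-η))
    (h3 : Real.sqrt C0 * x ^ (-(η / 2)) + 2 * (x ^ (-(7 * η / 8)) / c1) ≤ x ^ (-(η / 3)))
    (h6 : Real.sqrt C0 * x ^ (-(3 * η / 8)) / c1 ≤ 1) :
    ∃ L0 L1 : ℕ, ((L0 : ℝ) + 1) * h0 ≤ x ^ (-(η / 3)) ∧ ((L1 : ℝ) + 1) * h1 ≤ x ^ (-(η / 3)) ∧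
      C0 * D' ≤ ((L0 : ℝ) + 1) * ((L1 : ℝ) + 1) ∧
      ((L0 : ℝ) + 1) * ((L1 : ℝ) + 1) ≤ (C0 + 8) * D' ∧
      (L0 : ℝ) + 1 ≤ 3 * D' ∧ (L1 : ℝ) + 1 ≤ 3 * D' := by
  have hD0 : 0 < D' := by linarith
  have e8 : 0 < x ^ (-(η / 8)) := Real.rpow_pos_of_pos hx _
  have p0 : 0 < h0 := by
    have : 0 < h0 * D' := lt_of_lt_of_le (by positivity) hl0
    exact pos_of_mul_pos_left this hD0.le
  have p1 : 0 < h1 := by
    have : 0 < h1 * D' := lt_of_lt_of_le (by positivity) hl1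
    exact pos_of_mul_pos_left this hD0.le
  -- upper bounds for the heights
  have ee : x ^ (-η) = x ^ (-(7 * η / 8)) * x ^ (-(η / 8)) := by
    rw [← Real.rpow_add hx]; ring_nf
  have up : ∀ a b : ℝ, 0 < a → 0 < b → c1 * x ^ (-(η / 8)) ≤ b * D' → a * b * D' < x ^ (-η) →
      a ≤ x ^ (-(7 * η / 8)) / c1 := by
    intro a b ha hb hb1 hab
    rw [le_div_iff₀ hc1]
    have h1 : a * (c1 * x ^ (-(η / 8))) ≤ a * (b * D') := mul_le_mul_of_nonneg_left hb1 ha.le
    rw [ee] at hab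
    have h2 : (a * c1) * x ^ (-(η / 8)) < x ^ (-(7 * η / 8)) * x ^ (-(η / 8)) := by
      calc (a * c1) * x ^ (-(η / 8)) = a * (c1 * x ^ (-(η / 8))) := by ring
        _ ≤ a * (b * D') := h1
        _ = a * b * D' := by ring
        _ < _ := hab
    exact (lt_of_mul_lt_mul_right h2 e8.le).le
  have u0 := up h0 h1 p0 p1 hl1 hneg
  have u1 := up h1 h0 p1 p0 hl0 (by linarith [mul_comm h0 h1])
  set lam := Real.sqrt (C0 * D' * h0 * h1) with hlam
  have lam2 : lam ^ 2 = C0 * D' * h0 * h1 := Real.sq_sqrt (by positivity)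
  have lam0 : 0 < lam := Real.sqrt_pos.2 (by positivity)
  have lamle : lam ≤ Real.sqrt C0 * x ^ (-(η / 2)) := by
    apply Real.sqrt_le_iff.2
    refine ⟨by positivity, ?_⟩
    rw [mul_pow, Real.sq_sqrt (by linarith), ← Real.rpow_natCast (x ^ (-(η / 2))) 2,
      ← Real.rpow_mul hx.le]
    have : -(η / 2) * ((2 : ℕ) : ℝ) = -η := by push_cast; ring
    rw [this]
    nlinarith
  -- the quotients lam / h
  have quo : ∀ a b : ℝ, 0 < a → 0 < b → c1 * x ^ (-(η / 8)) ≤ a * D' →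
      b ≤ x ^ (-(7 * η / 8)) / c1 → lam ^ 2 = C0 * D' * a * b → lam / a ≤ D' := by
    intro a b ha hb ha1 hb1 hl
    rw [div_le_iff₀ ha]
    apply le_of_sq_le_sq _ (by positivity)
    rw [hl]
    -- C0 * D' * a * b ≤ (D' * a)^2
    have s1 : C0 * b ≤ D' * a := by
      have h61 : C0 * x ^ (-(3 * η / 4)) ≤ c1 ^ 2 := by
        rw [div_le_one hc1] at h6
        have := mul_self_le_mul_self (by positivity) h6
        have e : Real.sqrt C0 * x ^ (-(3 * η / 8)) * (Real.sqrt C0 * x ^ (-(3 * η / 8))) =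
            C0 * x ^ (-(3 * η / 4)) := by
          have e1 : x ^ (-(3 * η / 8)) * x ^ (-(3 * η / 8)) = x ^ (-(3 * η / 4)) := by
            rw [← Real.rpow_add hx]; ring_nf
          have e2 : Real.sqrt C0 * Real.sqrt C0 = C0 := Real.mul_self_sqrt (by linarith)
          calc _ = (Real.sqrt C0 * Real.sqrt C0) * (x ^ (-(3 * η / 8)) * x ^ (-(3 * η / 8))) := by
                ring
            _ = _ := by rw [e1, e2]
        rw [e] at this
        nlinarith
      have e3 : x ^ (-(7 * η / 8)) = x ^ (-(3 * η / 4)) * x ^ (-(η / 8)) := by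
        rw [← Real.rpow_add hx]; ring_nf
      calc C0 * b ≤ C0 * (x ^ (-(7 * η / 8)) / c1) :=
            mul_le_mul_of_nonneg_left hb1 (by linarith)
        _ = (C0 * x ^ (-(3 * η / 4))) * x ^ (-(η / 8)) / c1 := by rw [e3]; ring
        _ ≤ c1 ^ 2 * x ^ (-(η / 8)) / c1 := by
            apply div_le_div_of_nonneg_right _ hc1.le
            exact mul_le_mul_of_nonneg_right h61 e8.le
        _ = c1 * x ^ (-(η / 8)) := by field_simp
        _ ≤ a * D' := ha1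
        _ = D' * a := by ring
    nlinarith [mul_pos hD0 ha]
  have q0 := quo h0 h1 p0 p1 hl0 u1 lam2
  have q1 := quo h1 h0 p1 p0 hl1 u0 (by rw [lam2]; ring)
  have c0' := Nat.le_ceil (lam / h0)
  have c1' := Nat.le_ceil (lam / h1)
  have d0 := (Nat.ceil_lt_add_one (a := lam / h0) (by positivity)).le
  have d1 := (Nat.ceil_lt_add_one (a := lam / h1) (by positivity)).le
  refine ⟨⌈lam / h0⌉₊, ⌈lam / h1⌉₊, ?_, ?_, ?_, ?_, ?_, ?_⟩
  · calc ((⌈lam / h0⌉₊ : ℝ) + 1) * h0 ≤ (lam / h0 + 2) * h0 :=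
          mul_le_mul_of_nonneg_right (by linarith) p0.le
      _ = lam + 2 * h0 := by field_simp
      _ ≤ _ := by linarith
  · calc ((⌈lam / h1⌉₊ : ℝ) + 1) * h1 ≤ (lam / h1 + 2) * h1 :=
          mul_le_mul_of_nonneg_right (by linarith) p1.le
      _ = lam + 2 * h1 := by field_simp
      _ ≤ _ := by linarith
  · have : C0 * D' = (lam / h0) * (lam / h1) := by
      rw [div_mul_div_comm, ← sq, lam2]; field_simp
    rw [this]
    exact mul_le_mul (by linarith) (by linarith) (by positivity) (by positivity)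
  · have e : (lam / h0) * (lam / h1) = C0 * D' := by
      rw [div_mul_div_comm, ← sq, lam2]; field_simp
    calc ((⌈lam / h0⌉₊ : ℝ) + 1) * ((⌈lam / h1⌉₊ : ℝ) + 1)
        ≤ (lam / h0 + 2) * (lam / h1 + 2) :=
          mul_le_mul (by linarith) (by linarith) (by positivity) (by positivity)
      _ = C0 * D' + 2 * (lam / h0) + 2 * (lam / h1) + 4 := by rw [← e]; ring
      _ ≤ _ := by nlinarith
  · linarith
  · linarith

end BMF
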