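import Pool.Agent.Lib.MP_a325a5_ag.F.A1
import Pool.Agent.Lib.MP_a325a5_ag.F.E1

open NumberField MvPolynomial

namespace BMF

variable {M : ℕ} {k K : Type} [Field k] [NumberField k] [Field K] [NumberField K] [Algebra k K]

/-- direction of a line in `ℤ²` -/
private theorem l1_dir {a b : ℤ} (hab : (a, b) ≠ (0, 0)) :
    ∃ u v : ℤ, (u ≠ 0 ∨ v ≠ 0) ∧
      ∀ d e : ℤ, a * d + b * e = 0 → ∃ j : ℤ, d = j * u ∧ e = j * v := by
  obtain ⟨G, hG⟩ : ∃ G : ℤ, G = (Int.gcd a b : ℤ) := ⟨_, rfl⟩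
  have hg0 : G ≠ 0 := by
    intro h
    rw [hG, Int.natCast_eq_zero, Int.gcd_eq_zero_iff] at h
    exact hab (Prod.ext h.1 h.2)
  obtain ⟨a', ha'⟩ : G ∣ a := by rw [hG]; exact Int.gcd_dvd_left _ _
  obtain ⟨b', hb'⟩ : G ∣ b := by rw [hG]; exact Int.gcd_dvd_right _ _
  obtain ⟨r, s, hrs⟩ : ∃ r s : ℤ, r * a' + s * b' = 1 := by
    refine ⟨Int.gcdA a b, Int.gcdB a b, ?_⟩
    have h1 := Int.gcd_eq_gcd_ab a b
    rw [← hG] at h1
    have h2 : G * (Int.gcdA a b * a' + Int.gcdB a b * b') = G * 1 := by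
      calc G * (Int.gcdA a b * a' + Int.gcdB a b * b')
          = (G * a') * Int.gcdA a b + (G * b') * Int.gcdB a b := by ring
        _ = a * Int.gcdA a b + b * Int.gcdB a b := by rw [← ha', ← hb']
        _ = G * 1 := by rw [← h1, mul_one]
    exact mul_left_cancel₀ hg0 h2
  refine ⟨b', -a', ?_, ?_⟩
  · by_contra hcon
    push Not at hcon
    have hb0 := hcon.1
    have ha0 : a' = 0 := by have := hcon.2; omega
    rw [ha0, hb0] at hrs
    omega
  · intro d e hde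
    have h1 : a' * d + b' * e = 0 := by
      have h2 : G * (a' * d + b' * e) = 0 := by
        calc G * (a' * d + b' * e) = (G * a') * d + (G * b') * e := by ring
          _ = a * d + b * e := by rw [← ha', ← hb']
          _ = 0 := hde
      exact (mul_eq_zero.mp h2).resolve_left hg0
    refine ⟨s * d - r * e, ?_, ?_⟩
    · calc d = d * 1 := (mul_one d).symm
        _ = d * (r * a' + s * b') := by rw [hrs]
        _ = (s * d - r * e) * b' + r * (a' * d + b' * e) := by ring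
        _ = (s * d - r * e) * b' := by rw [h1]; ring
    · calc e = e * 1 := (mul_one e).symm
        _ = e * (r * a' + s * b') := by rw [hrs]
        _ = (s * d - r * e) * (-a') + s * (a' * d + b' * e) := by ring
        _ = (s * d - r * e) * (-a') := by rw [h1]; ring

/-- parametrisation of the support -/
private theorem l1_param {Y : P2 k} (hY0 : Y ≠ 0) (hl : LineSupp Y) :
    ∃ u v : ℤ, (u ≠ 0 ∨ v ≠ 0) ∧ ∃ m₀ ∈ Y.support, ∃ n : (Fin 2 →₀ ℕ) → ℕ,
      ∀ m ∈ Y.support, (m 0 : ℤ) = m₀ 0 + n m * u ∧ (m 1 : ℤ) = m₀ 1 + n m * v := by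
  obtain ⟨a, b, hab, hS⟩ := hl
  obtain ⟨u, v, huv, hj⟩ := l1_dir hab
  obtain ⟨ms, hms⟩ := (MvPolynomial.support_nonempty (p := Y)).mpr hY0
  have h1 : ∀ m : Fin 2 →₀ ℕ, ∃ j : ℤ, m ∈ Y.support →
      (m 0 : ℤ) - ms 0 = j * u ∧ (m 1 : ℤ) - ms 1 = j * v := by
    intro m
    by_cases hm : m ∈ Y.support
    · obtain ⟨j, h⟩ := hj _ _ (hS m hm ms hms)
      exact ⟨j, fun _ => h⟩
    · exact ⟨0, fun h => absurd h hm⟩
  choose J hJ using h1
  obtain ⟨m₀, hm₀, hmin⟩ := Finset.exists_min_image Y.support J ⟨ms, hms⟩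
  refine ⟨u, v, huv, m₀, hm₀, fun m => (J m - J m₀).toNat, fun m hm => ?_⟩
  have h2 := hJ m hm
  have h3 := hJ m₀ hm₀
  have h4 : (((J m - J m₀).toNat : ℕ) : ℤ) = J m - J m₀ :=
    Int.toNat_of_nonneg (by have := hmin m hm; omega)
  simp only [h4]
  constructor
  · linarith [h2.1, h3.1, sub_mul (J m) (J m₀) u]
  · linarith [h2.2, h3.2, sub_mul (J m) (J m₀) v]

/-- a polynomial supported on a line which vanishes at a point has large weight -/
theorem line_exclude (Z : Cyc M k) (g : Fin 2 → K) (hg : ∀ i, g i ≠ 0) (hI : MInd g)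
    (L : Fin 2 → ℕ) {y δ : ℝ} (hy : ∀ i, ((L i : ℝ) + 1) * ht (g i) ≤ y)
    (hD1 : ∀ c : K, c ≠ 0 → (∀ n : ℕ, 0 < n → c ^ n ≠ 1) →
      δ ≤ ht c * Module.finrank k (IntermediateField.adjoin k {c}))
    {m : ℕ} (hm : m.Coprime M) (hm0 : 0 < m) {Y : P2 k} (hY0 : Y ≠ 0) (hl : LineSupp Y)
    (hY : ev (Z.fr m) m g Y = 0) : δ ≤ m * y * wt L Y := by
  classical
  obtain ⟨u, v, huv, m₀, hm₀, n, hn⟩ := l1_param hY0 hl
  obtain ⟨m₁, hm₁, hmax⟩ := Finset.exists_max_image Y.support n ⟨m₀, hm₀⟩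
  have hn0 : n m₀ = 0 := by
    obtain ⟨h1, h2⟩ := hn m₀ hm₀
    rcases huv with h | h
    · have : (n m₀ : ℤ) * u = 0 := by linarith
      exact_mod_cast (mul_eq_zero.mp this).resolve_right h
    · have : (n m₀ : ℤ) * v = 0 := by linarith
      exact_mod_cast (mul_eq_zero.mp this).resolve_right h
  have hninj : ∀ q ∈ Y.support, n q = 0 → q = m₀ := by
    intro q hq hq0
    obtain ⟨h1, h2⟩ := hn q hq
    rw [hq0] at h1 h2
    ext i
    fin_cases i
    · change q 0 = m₀ 0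
      have : (q 0 : ℤ) = m₀ 0 := by simpa using h1
      exact_mod_cast this
    · change q 1 = m₀ 1
      have : (q 1 : ℤ) = m₀ 1 := by simpa using h2
      exact_mod_cast this
  set c : K := (g 0 ^ u * g 1 ^ v) ^ m with hc
  have hc0 : c ≠ 0 := pow_ne_zero _ (mul_ne_zero (zpow_ne_zero _ (hg 0)) (zpow_ne_zero _ (hg 1)))
  let P : Polynomial k := ∑ q ∈ Y.support, Polynomial.monomial (n q) (Z.fr m (coeff q Y))
  -- the value
  have hval : ev (Z.fr m) m g Y = ((g 0 ^ m) ^ m₀ 0 * (g 1 ^ m) ^ m₀ 1) * Polynomial.aeval c P := by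
    have h1 : ev (Z.fr m) m g Y = ∑ q ∈ Y.support, algebraMap k K (Z.fr m (coeff q Y)) *
        ((g 0 ^ m) ^ q 0 * (g 1 ^ m) ^ q 1) := by
      unfold ev
      rw [MvPolynomial.coe_eval₂Hom, MvPolynomial.eval₂_eq']
      refine Finset.sum_congr rfl fun q _ => ?_
      rw [Fin.prod_univ_two]
      rfl
    rw [h1, map_sum, Finset.mul_sum]
    refine Finset.sum_congr rfl fun q hq => ?_
    rw [Polynomial.aeval_monomial]
    obtain ⟨h2, h3⟩ := hn q hq
    have h4 : (g 0 ^ m) ^ q 0 * (g 1 ^ m) ^ q 1 =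
        ((g 0 ^ m) ^ m₀ 0 * (g 1 ^ m) ^ m₀ 1) * c ^ n q := by
      have e0 : (g 0 ^ m) ^ q 0 = (g 0 ^ m) ^ m₀ 0 * (g 0 ^ u) ^ (m * n q) := by
        have h5 : (g 0 ^ m) ^ (q 0 : ℤ) = (g 0 ^ m) ^ ((m₀ 0 : ℤ) + n q * u) := by rw [h2]
        rw [zpow_natCast] at h5
        rw [h5, zpow_add₀ (pow_ne_zero _ (hg 0)), zpow_natCast, zpow_mul]
        congr 1
        rw [zpow_natCast, ← pow_mul, ← zpow_natCast, ← zpow_natCast, ← zpow_mul, ← zpow_mul]
        congr 1
        push_cast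
        ring
      have e1 : (g 1 ^ m) ^ q 1 = (g 1 ^ m) ^ m₀ 1 * (g 1 ^ v) ^ (m * n q) := by
        have h5 : (g 1 ^ m) ^ (q 1 : ℤ) = (g 1 ^ m) ^ ((m₀ 1 : ℤ) + n q * v) := by rw [h3]
        rw [zpow_natCast] at h5
        rw [h5, zpow_add₀ (pow_ne_zero _ (hg 1)), zpow_natCast, zpow_mul]
        congr 1
        rw [zpow_natCast, ← pow_mul, ← zpow_natCast, ← zpow_natCast, ← zpow_mul, ← zpow_mul]
        congr 1
        push_cast
        ring
      rw [e0, e1, hc, ← pow_mul, mul_pow]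
      ring
    rw [h4]
    ring
  have hroot : Polynomial.aeval c P = 0 := by
    rw [hY] at hval
    have h1 : (g 0 ^ m) ^ m₀ 0 * (g 1 ^ m) ^ m₀ 1 ≠ 0 :=
      mul_ne_zero (pow_ne_zero _ (pow_ne_zero _ (hg 0))) (pow_ne_zero _ (pow_ne_zero _ (hg 1)))
    exact (mul_eq_zero.mp hval.symm).resolve_left h1
  have hP0 : P ≠ 0 := by
    intro h
    have h1 : P.coeff 0 = Z.fr m (coeff m₀ Y) := by
      change (∑ q ∈ Y.support, Polynomial.monomial (n q) (Z.fr m (coeff q Y))).coeff 0 = _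
      rw [Polynomial.finset_sum_coeff, Finset.sum_eq_single m₀]
      · rw [Polynomial.coeff_monomial, if_pos hn0]
      · intro q hq hne
        rw [Polynomial.coeff_monomial, if_neg fun h0 => hne (hninj q hq h0)]
      · intro h0
        exact absurd hm₀ h0
    rw [h, Polynomial.coeff_zero] at h1
    have h2 : coeff m₀ Y = 0 := (map_eq_zero (Z.fr m)).mp h1.symm
    exact (MvPolynomial.mem_support_iff.mp hm₀) h2
  have hPd : P.natDegree ≤ n m₁ := by
    apply Polynomial.natDegree_sum_le_of_forall_le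
    intro q hq
    exact (Polynomial.natDegree_monomial_le _).trans (hmax q hq)
  have hfin : Module.Finite k K := by
    have : Module.Finite ℚ K := inferInstance
    exact Module.Finite.of_restrictScalars_finite ℚ k K
  have hdeg : Module.finrank k (IntermediateField.adjoin k {c}) ≤ n m₁ := by
    rw [IntermediateField.adjoin.finrank (Algebra.IsIntegral.isIntegral c)]
    refine le_trans ?_ hPd
    exact Polynomial.natDegree_le_of_dvd (minpoly.dvd k c hroot) hP0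
  have htor : ∀ j : ℕ, 0 < j → c ^ j ≠ 1 := by
    intro j hj h
    have h1 : g 0 ^ (u * (m * j : ℕ)) * g 1 ^ (v * (m * j : ℕ)) = 1 := by
      rw [zpow_mul, zpow_mul, zpow_natCast, zpow_natCast, ← mul_pow, pow_mul, ← hc, h]
    obtain ⟨h2, h3⟩ := hI _ _ h1
    have h4 : ((m * j : ℕ) : ℤ) ≠ 0 := by
      exact_mod_cast (Nat.mul_pos hm0 hj).ne'
    rcases huv with h5 | h5
    · exact h5 ((mul_eq_zero.mp h2).resolve_right h4)
    · exact h5 ((mul_eq_zero.mp h3).resolve_right h4)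
  have h1 := hD1 c hc0 htor
  have hht : ht c ≤ m * (|(u : ℝ)| * ht (g 0) + |(v : ℝ)| * ht (g 1)) := by
    rw [hc, ht_pow]
    apply mul_le_mul_of_nonneg_left _ (by positivity)
    refine (ht_mul_le _ _).trans (le_of_eq ?_)
    rw [ht_zpow, ht_zpow]
  -- degrees
  have hd0 : (n m₁ : ℝ) * |(u : ℝ)| ≤ Y.degreeOf 0 := by
    have h2 := (hn m₁ hm₁).1
    have h3 := MvPolynomial.monomial_le_degreeOf 0 hm₁
    have h4 := MvPolynomial.monomial_le_degreeOf 0 hm₀
    have h5 : |(n m₁ : ℤ) * u| ≤ Y.degreeOf 0 := by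
      rw [abs_le]
      constructor <;> omega
    rw [abs_mul, Nat.abs_cast] at h5
    exact_mod_cast h5
  have hd1 : (n m₁ : ℝ) * |(v : ℝ)| ≤ Y.degreeOf 1 := by
    have h2 := (hn m₁ hm₁).2
    have h3 := MvPolynomial.monomial_le_degreeOf 1 hm₁
    have h4 := MvPolynomial.monomial_le_degreeOf 1 hm₀
    have h5 : |(n m₁ : ℤ) * v| ≤ Y.degreeOf 1 := by
      rw [abs_le]
      constructor <;> omega
    rw [abs_mul, Nat.abs_cast] at h5
    exact_mod_cast h5
  have hL0 : (0 : ℝ) < (L 0 : ℝ) + 1 := by positivity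
  have hL1 : (0 : ℝ) < (L 1 : ℝ) + 1 := by positivity
  have hy0 : ht (g 0) ≤ y / ((L 0 : ℝ) + 1) := by
    rw [le_div_iff₀ hL0, mul_comm]
    exact hy 0
  have hy1 : ht (g 1) ≤ y / ((L 1 : ℝ) + 1) := by
    rw [le_div_iff₀ hL1, mul_comm]
    exact hy 1
  have hynn : 0 ≤ y := le_trans (mul_nonneg hL0.le (ht_nonneg _)) (hy 0)
  calc δ ≤ ht c * Module.finrank k (IntermediateField.adjoin k {c}) := h1
    _ ≤ ht c * n m₁ := by
        apply mul_le_mul_of_nonneg_left _ (ht_nonneg c)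
        exact_mod_cast hdeg
    _ ≤ (m * (|(u : ℝ)| * ht (g 0) + |(v : ℝ)| * ht (g 1))) * n m₁ :=
        mul_le_mul_of_nonneg_right hht (by positivity)
    _ = m * ((n m₁ * |(u : ℝ)|) * ht (g 0) + (n m₁ * |(v : ℝ)|) * ht (g 1)) := by ring
    _ ≤ m * ((Y.degreeOf 0 : ℝ) * (y / ((L 0 : ℝ) + 1)) +
        (Y.degreeOf 1 : ℝ) * (y / ((L 1 : ℝ) + 1))) := by
        apply mul_le_mul_of_nonneg_left _ (by positivity)
        exact add_le_add (mul_le_mul hd0 hy0 (ht_nonneg _) (by positivity))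
          (mul_le_mul hd1 hy1 (ht_nonneg _) (by positivity))
    _ = m * y * wt L Y := by
        unfold wt
        ring

end BMF
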