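import Pool.Agent.Lib.MP_a325a5_ag.F.L2

open NumberField MvPolynomial

namespace BMF

variable {M : ℕ} {k K : Type} [Field k] [NumberField k] [Field K] [NumberField K] [Algebra k K]

/-- products of one element from each set of a list -/
def prods : List (Finset ℕ) → Finset ℕ
  | [] => {1}
  | P :: l => (prods l ×ˢ P).image fun x => x.1 * x.2

/-- the products are products of primes of the sets -/
theorem l3_prods (l : List (Finset ℕ)) (hl : ∀ P ∈ l, ∀ q ∈ P, q.Prime ∧ ¬ q ∣ M) :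
    ∀ m ∈ prods l, 0 < m ∧ m.Coprime M ∧ ∀ p : ℕ, p.Prime → p ∣ m → ∃ P ∈ l, p ∈ P := by
  induction l with
  | nil =>
    intro m hm
    rw [prods, Finset.mem_singleton] at hm
    subst hm
    refine ⟨one_pos, Nat.coprime_one_left M, fun p hp hd => ?_⟩
    exact absurd (Nat.dvd_one.1 hd) hp.one_lt.ne'
  | cons P l ih =>
    intro m hm
    rw [prods, Finset.mem_image] at hm
    obtain ⟨⟨a, q⟩, hx, rfl⟩ := hm
    rw [Finset.mem_product] at hx
    obtain ⟨h1, h2, h3⟩ := ih (fun P' hP' => hl P' (List.mem_cons_of_mem _ hP')) a hx.1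
    obtain ⟨hq, hqM⟩ := hl P List.mem_cons_self q hx.2
    refine ⟨Nat.mul_pos h1 hq.pos, ?_, ?_⟩
    · exact Nat.Coprime.mul_left h2 ((Nat.Prime.coprime_iff_not_dvd hq).2 hqM)
    · intro p hp hd
      rcases (Nat.Prime.dvd_mul hp).1 hd with h | h
      · obtain ⟨P', hP', hpP'⟩ := h3 p hp h
        exact ⟨P', List.mem_cons_of_mem _ hP', hpP'⟩
      · have : p = q := (Nat.prime_dvd_prime_iff_eq hp hq).1 h
        subst this
        exact ⟨P, List.mem_cons_self, hx.2⟩

open Classical in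
/-- the whole descent -/
theorem descent_all (Z : Cyc M k) (g : Fin 2 → K) (hg : g 0 ≠ 0)
    (hnt : ∀ n : ℕ, 0 < n → g 0 ^ n ≠ 1) (L : Fin 2 → ℕ) {X D C2 : ℝ} (hX : 4 ≤ X) (hD : 4 ≤ D)
    (hLm : ((L 0 : ℝ) + 1) * ((L 1 : ℝ) + 1) ≤ C2 * dg k g 1)
    (hLD : ∀ i, 8 * X * ((L i : ℝ) + 1) ≤ D ^ 3)
    (t : ℕ) (ht0 : 0 < t) (hc : 40 * Real.log D ≤ t * Real.log X)
    (l : List (Finset ℕ)) (hl : ∀ P ∈ l, t ≤ P.card ∧ Real.sqrt X ≤ P.card ∧
      ∀ q ∈ P, q.Prime ∧ ¬ q ∣ M ∧ X < q ∧ (q : ℝ) ≤ 8 * X)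
    (hdis : l.Pairwise fun P P' => Disjoint P P')
    (hgood : ∀ l', l' <:+ l → ∀ m ∈ prods l', dg k g m = dg k g 1)
    {B : P2 k} (hB : B ≠ 0) (u : ℕ → ℝ) {w : ℝ} (hw1 : w ≤ 1) (hwB : wt L B ≤ w)
    (hu0 : ((prods l).filter fun m => ev (Z.fr m) m g B ≠ 0).card ≤ u l.length)
    (hu : ∀ j < l.length, t * u (j + 1) / Real.sqrt X +
      64 * X ^ 2 * C2 * ((2 / Real.sqrt X) ^ (l.length - 1 - j) * w) ^ 2 ≤ u j)
    (hlast : u 0 < 1)
    (hline : ∀ Y : P2 k, Y ≠ 0 → LineSupp Y → wt L Y ≤ 8 * X →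
      ∀ l', l' <:+ l → ∀ m ∈ prods l', ev (Z.fr m) m g Y ≠ 0) :
    ∃ B' : P2 k, B' ≠ 0 ∧ wt L B' ≤ (2 / Real.sqrt X) ^ l.length * wt L B ∧
      ev (RingHom.id k) 1 g B' = 0 := by
  induction l generalizing B w with
  | nil =>
    refine ⟨B, hB, by simp, ?_⟩
    have h1 : ((prods []).filter fun m => ev (Z.fr m) m g B ≠ 0).card < 1 := by
      have := lt_of_le_of_lt hu0 hlast
      exact_mod_cast this
    by_contra hne
    have h2 : 1 ∈ (prods []).filter fun m => ev (Z.fr m) m g B ≠ 0 := by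
      rw [Finset.mem_filter, prods, Finset.mem_singleton]
      refine ⟨rfl, ?_⟩
      rw [fr_one Z]
      exact hne
    have h3 := Finset.card_pos.2 ⟨1, h2⟩
    omega
  | cons P l ih =>
    obtain ⟨hPt, hPX, hPq⟩ := hl P List.mem_cons_self
    have hX0 : (0 : ℝ) < X := by linarith
    have hs2 : (2 : ℝ) ≤ Real.sqrt X := by
      rw [Real.le_sqrt' (by norm_num)]
      linarith
    have hs0 : (0 : ℝ) < Real.sqrt X := by linarith
    have hr1 : 2 / Real.sqrt X ≤ 1 := by
      rw [div_le_one hs0]; exact hs2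
    have hr0 : 0 ≤ 2 / Real.sqrt X := by positivity
    have hw0 : 0 ≤ w := (wt_nonneg L B).trans hwB
    have hprod := l3_prods (M := M) l (fun P' hP' q hq =>
      ⟨((hl P' (List.mem_cons_of_mem _ hP')).2.2 q hq).1,
        ((hl P' (List.mem_cons_of_mem _ hP')).2.2 q hq).2.1⟩)
    have hLpos : (0 : ℝ) < ((L 0 : ℝ) + 1) * ((L 1 : ℝ) + 1) := by positivity
    have hC2 : 0 ≤ C2 := by
      by_contra hneg
      push Not at hneg
      have h1 : C2 * (dg k g 1 : ℝ) ≤ 0 :=
        mul_nonpos_of_nonpos_of_nonneg hneg.le (Nat.cast_nonneg _)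
      linarith
    obtain ⟨B', hB', hwB', hcB'⟩ := descent_step Z g hg hnt L (by linarith : (1 : ℝ) ≤ X) hD hLm
      hLD P (prods l) t hPt ht0 hc hPq (fun m hm => ⟨(hprod m hm).1, (hprod m hm).2.1,
        hgood l (List.suffix_cons P l) m hm⟩) hB (hwB.trans hw1)
      (fun Y hY hYl hYw m hm => hline Y hY hYl hYw l (List.suffix_cons P l) m hm)
    -- the number of exceptional pairs
    have hinj : ((prods l ×ˢ P).filter fun x : ℕ × ℕ =>
          ev (Z.fr (x.1 * x.2)) (x.1 * x.2) g B ≠ 0).card ≤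
        ((prods (P :: l)).filter fun m => ev (Z.fr m) m g B ≠ 0).card := by
      refine Finset.card_le_card_of_injOn (fun x => x.1 * x.2) ?_ ?_
      · intro x hx
        rw [Finset.mem_coe, Finset.mem_filter] at hx
        rw [Finset.mem_coe, Finset.mem_filter, prods, Finset.mem_image]
        exact ⟨⟨x, hx.1, rfl⟩, hx.2⟩
      · intro x hx y hy hxy
        rw [Finset.mem_coe, Finset.mem_filter, Finset.mem_product] at hx hy
        have hxy' : x.1 * x.2 = y.1 * y.2 := hxy
        have hxq := (hPq x.2 hx.1.2).1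
        have hyq := (hPq y.2 hy.1.2).1
        have h1 : x.2 = y.2 := by
          by_contra hne
          have hd : x.2 ∣ y.1 * y.2 := by
            rw [← hxy']; exact Dvd.intro_left _ rfl
          rcases (Nat.Prime.dvd_mul hxq).1 hd with h | h
          · obtain ⟨P', hP', hmem⟩ := (hprod y.1 hy.1.1).2.2 x.2 hxq h
            have hdj := (List.pairwise_cons.1 hdis).1 P' hP'
            exact (Finset.disjoint_left.1 hdj) hx.1.2 hmem
          · exact hne ((Nat.prime_dvd_prime_iff_eq hxq hyq).1 h)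
        rw [← h1] at hxy'
        have h2 : x.1 = y.1 := Nat.eq_of_mul_eq_mul_right hxq.pos hxy'
        exact Prod.ext h2 h1
    have hlen : (P :: l).length = l.length + 1 := rfl
    rw [hlen] at hu0 hu
    have hEu : (((prods l ×ˢ P).filter fun x : ℕ × ℕ =>
          ev (Z.fr (x.1 * x.2)) (x.1 * x.2) g B ≠ 0).card : ℝ) ≤ u (l.length + 1) := by
      refine le_trans ?_ hu0
      exact_mod_cast hinj
    have hPpos : (0 : ℝ) < P.card := lt_of_lt_of_le hs0 hPX
    have hnew : (((prods l).filter fun m => ev (Z.fr m) m g B' ≠ 0).card : ℝ) ≤ u l.length := by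
      refine hcB'.trans (le_trans ?_ (hu l.length (by omega)))
      have h0 : l.length + 1 - 1 - l.length = 0 := by omega
      rw [h0, pow_zero, one_mul]
      apply add_le_add
      · obtain ⟨E, hE⟩ : ∃ E : ℝ, E = (((prods l ×ˢ P).filter fun x : ℕ × ℕ =>
          ev (Z.fr (x.1 * x.2)) (x.1 * x.2) g B ≠ 0).card : ℝ) := ⟨_, rfl⟩
        rw [← hE] at hEu ⊢
        have hE0 : 0 ≤ E := by rw [hE]; exact Nat.cast_nonneg _
        have ht' : (0 : ℝ) ≤ t := Nat.cast_nonneg t
        calc (t : ℝ) * E / P.card ≤ t * E / Real.sqrt X :=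
              div_le_div_of_nonneg_left (mul_nonneg ht' hE0) hs0 hPX
          _ ≤ t * u (l.length + 1) / Real.sqrt X :=
              div_le_div_of_nonneg_right (mul_le_mul_of_nonneg_left hEu ht') hs0.le
      · apply mul_le_mul_of_nonneg_left _ (by positivity)
        exact pow_le_pow_left₀ (wt_nonneg L B) hwB 2
    have hw' : 2 / Real.sqrt X * w ≤ 1 := by
      calc 2 / Real.sqrt X * w ≤ 1 * 1 := mul_le_mul hr1 hw1 hw0 zero_le_one
        _ = 1 := one_mul 1
    obtain ⟨B'', h1, h2, h3⟩ := ih (fun P' hP' => hl P' (List.mem_cons_of_mem _ hP'))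
      (List.pairwise_cons.1 hdis).2 (fun l' hl' => hgood l' (hl'.trans (List.suffix_cons P l)))
      hB' hw' (hwB'.trans (mul_le_mul_of_nonneg_left hwB hr0)) hnew (by
        intro j hj
        have h4 := hu j (by omega)
        have h5 : (2 / Real.sqrt X) ^ (l.length + 1 - 1 - j) * w =
            (2 / Real.sqrt X) ^ (l.length - 1 - j) * (2 / Real.sqrt X * w) := by
          have h6 : l.length + 1 - 1 - j = (l.length - 1 - j) + 1 := by omega
          rw [h6, pow_succ, mul_assoc]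
        rw [h5] at h4
        exact h4)
      (fun Y hY hYl hYw l' hl' => hline Y hY hYl hYw l' (hl'.trans (List.suffix_cons P l)))
    refine ⟨B'', h1, ?_, h3⟩
    rw [hlen, pow_succ, mul_assoc]
    exact h2.trans (mul_le_mul_of_nonneg_left hwB' (by positivity))

end BMF
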