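import Pool.Agent.Lib.MP_a325a5_ag.F.A5
import Pool.Agent.Lib.MP_a325a5_ag.F.A6
import Pool.Agent.Lib.MP_a325a5_ag.F.D1
import Pool.Agent.Lib.MP_a325a5_ag.F.E3
import Pool.Agent.Lib.MP_a325a5_ag.F.L3

open NumberField MvPolynomial

namespace BMF

variable {M : ℕ} {k K : Type} [Field k] [NumberField k] [Field K] [NumberField K] [Algebra k K]

private theorem L4_dg_pos (g : Fin 2 → K) (m : ℕ) : 0 < dg k g m := by
  have : FiniteDimensional k K := Module.Finite.of_restrictScalars_finite ℚ k K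
  unfold dg
  exact Module.finrank_pos

open Classical in
/-- top level: the common divisor of the family -/
theorem top_level (Z : Cyc M k) (g : Fin 2 → K) (hg : g 0 ≠ 0)
    (hnt : ∀ n : ℕ, 0 < n → g 0 ^ n ≠ 1) (L : Fin 2 → ℕ) {C2 : ℝ}
    (hLm : ((L 0 : ℝ) + 1) * ((L 1 : ℝ) + 1) ≤ C2 * dg k g 1)
    (V : Submodule k (P2 k)) (hV : V ≤ bx k L) {δ : ℝ} (h0 : 0 ≤ δ) (h1 : δ < 1)
    (hdim : (1 - δ) * (((L 0 : ℝ) + 1) * ((L 1 : ℝ) + 1)) ≤ Module.finrank k V)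
    (s : Finset ℕ) (hs : ∀ m ∈ s, 0 < m ∧ m.Coprime M ∧ dg k g m = dg k g 1 ∧
      ∀ G ∈ V, ev (Z.fr m) m g G = 0) :
    ∃ B : P2 k, B ≠ 0 ∧ wt L B ≤ 2 * δ ∧
      ((s.filter fun m => ev (Z.fr m) m g B ≠ 0).card : ℝ) ≤ 2 * C2 := by
  have hfin : Module.Finite k V := Submodule.finiteDimensional_of_le hV
  have hV0 : V ≠ ⊥ := by
    rintro rfl
    rw [finrank_bot] at hdim
    have : 0 < (1 - δ) * (((L 0 : ℝ) + 1) * ((L 1 : ℝ) + 1)) := by
      have : 0 < 1 - δ := by linarith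
      positivity
    push_cast at hdim
    linarith
  obtain ⟨B, hB, hdvd, f, h, hf, hh, hBf, hBh, hrel⟩ := exists_gcd_sub V hV0
  refine ⟨B, hB, top_wt L V hV hV0 hB hdvd h0 h1.le hdim, ?_⟩
  have hc := ev_count Z g hg hnt hf hh hrel (s.filter fun m => ev (Z.fr m) m g B ≠ 0) (by
    intro m hm
    obtain ⟨hms, hmB⟩ := Finset.mem_filter.1 hm
    obtain ⟨hm0, hmc, hmd, hmG⟩ := hs m hms
    refine ⟨hm0, hmc, hmd, ?_, ?_⟩
    · have := hmG _ hBf
      rw [map_mul] at this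
      exact (mul_eq_zero.1 this).resolve_left hmB
    · have := hmG _ hBh
      rw [map_mul] at this
      exact (mul_eq_zero.1 this).resolve_left hmB)
  have hfL : ∀ i, f.degreeOf i ≤ L i := by
    intro i
    have h2 := hV hBf i
    rw [degreeOf_mul_eq hB hf] at h2
    omega
  have hhL : ∀ i, h.degreeOf i ≤ L i := by
    intro i
    have h2 := hV hBh i
    rw [degreeOf_mul_eq hB hh] at h2
    omega
  have hd : (0 : ℝ) < dg k g 1 := by exact_mod_cast L4_dg_pos g 1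
  have h3 : (s.filter fun m => ev (Z.fr m) m g B ≠ 0).card * dg k g 1 ≤
      2 * ((L 0 + 1) * (L 1 + 1)) := by
    refine hc.trans ?_
    have a1 := Nat.mul_le_mul (hfL 0) (hhL 1)
    have a2 := Nat.mul_le_mul (hfL 1) (hhL 0)
    nlinarith
  have h4 : ((s.filter fun m => ev (Z.fr m) m g B ≠ 0).card : ℝ) * dg k g 1 ≤
      2 * (((L 0 : ℝ) + 1) * ((L 1 : ℝ) + 1)) := by exact_mod_cast h3
  have h5 : ((s.filter fun m => ev (Z.fr m) m g B ≠ 0).card : ℝ) * dg k g 1 ≤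
      (2 * C2) * dg k g 1 := by linarith
  exact le_of_mul_le_mul_right h5 hd

end BMF
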