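import Pool.Agent.Lib.MP_a325a5_ag.F.D1
import Pool.Agent.Lib.MP_a325a5_ag.F.L3
import Pool.Agent.Lib.MP_a325a5_ag.F.E4
import Pool.Agent.Lib.MP_a325a5_ag.F.C2

open NumberField MvPolynomial

namespace BMF

variable {M : ℕ} {k K : Type} [Field k] [NumberField k] [Field K] [NumberField K] [Algebra k K]

private theorem L5_hd_zero {F : Type} [Field F] (f : P2 F) : hd 0 f = f := by
  have h : (hd (k := F) 0) = LinearMap.id := by
    apply (MvPolynomial.basisMonomials (Fin 2) F).ext
    intro m
    unfold hd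
    rw [Module.Basis.constr_basis]
    simp
  rw [h]
  rfl

private theorem L5_ev (φ : k →+* k) (m : ℕ) (g : Fin 2 → K) (G : P2 k) :
    eval (fun i => g i ^ m) (toK K φ G) = ev φ m g G := by
  unfold toK ev
  rw [eval_map]
  rfl

/-- extrapolation along products of primes: `Tf 0 > Tf 1 > ...` orders of vanishing -/
theorem extrap_all (Z : Cyc M k) (g : Fin 2 → K) (hg : ∀ i, g i ≠ 0) (L : Fin 2 → ℕ) {A X Y1 : ℝ}
    (hA : 1 ≤ A) (hX : 1 ≤ X) {G : P2 k} (hGL : G ∈ bx k L) (hG : House A G)
    (l : List (Finset ℕ)) (hl : ∀ P ∈ l, ∀ q ∈ P, q.Prime ∧ ¬ q ∣ M ∧ X < q ∧ (q : ℝ) ≤ 8 * X)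
    (Tf : ℕ → ℕ) (hTf : ∀ j < l.length, Tf (j + 1) ≤ Tf j) (hlast : 1 ≤ Tf l.length)
    (hv : van (Tf 0) (toK K (RingHom.id k) G) g)
    (hY1 : (8 * X) ^ l.length * (L 0 * ht (g 0) + L 1 * ht (g 1)) ≤ Y1)
    (hnum : ∀ j < l.length, Real.log (((L 0 : ℝ) + 1) * ((L 1 : ℝ) + 1) * A) +
      Tf (j + 1) * Real.log ((L 0 : ℝ) + L 1 + 1) + Y1 <
      ((Tf j : ℝ) - Tf (j + 1) + 1) * Real.log X) :
    ∀ m ∈ prods l, ev (Z.fr m) m g G = 0 := by
  have hH : 0 ≤ (L 0 * ht (g 0) + L 1 * ht (g 1) : ℝ) := by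
    have := ht_nonneg (g 0)
    have := ht_nonneg (g 1)
    positivity
  have key : ∀ l' : List (Finset ℕ), l' <:+ l → ∀ m ∈ prods l',
      m.Coprime M ∧ (m : ℝ) ≤ (8 * X) ^ l'.length ∧
      van (Tf l'.length) (toK K (Z.fr m) G) (fun i => g i ^ m) := by
    intro l'
    induction l' with
    | nil =>
      intro _ m hm
      have hm1 : m = 1 := by simpa [prods] using hm
      subst hm1
      refine ⟨Nat.coprime_one_left M, by simp, ?_⟩
      rw [fr_one]
      simpa using hv
    | cons P l'' ih =>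
      intro hs m hm
      have hs' : l'' <:+ l := (List.suffix_cons P l'').trans hs
      have hPl : P ∈ l := hs.subset (List.mem_cons_self)
      have hlen : l''.length + 1 ≤ l.length := by
        have := hs.length_le
        simpa using this
      unfold prods at hm
      rw [Finset.mem_image] at hm
      obtain ⟨⟨a, q⟩, haq, rfl⟩ := hm
      rw [Finset.mem_product] at haq
      obtain ⟨ha, hq⟩ := haq
      obtain ⟨hac, hale, hav⟩ := ih hs' a ha
      obtain ⟨hqp, hqM, hqX, hq8⟩ := hl P hPl q hq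
      have hqc : q.Coprime M := (Nat.Prime.coprime_iff_not_dvd hqp).2 hqM
      have hle : ((a * q : ℕ) : ℝ) ≤ (8 * X) ^ (l''.length + 1) := by
        push_cast
        rw [pow_succ]
        exact mul_le_mul hale hq8 (by positivity) (by positivity)
      refine ⟨Nat.Coprime.mul_left hac hqc, by simpa using hle, ?_⟩
      have hj := hnum l''.length (by omega)
      have hTj := hTf l''.length (by omega)
      have hTj' : (Tf (l''.length + 1) : ℝ) ≤ Tf l''.length := by exact_mod_cast hTj
      have hlogq : Real.log X ≤ Real.log q := Real.log_le_log (by linarith) hqX.le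
      rw [List.length_cons]
      refine extrap Z g hg L hA hGL hG hac hqp hqM hTj hav ?_
      have h1 : (a : ℝ) * q * (L 0 * ht (g 0) + L 1 * ht (g 1)) ≤ Y1 := by
        refine le_trans ?_ hY1
        apply mul_le_mul_of_nonneg_right _ hH
        have h2 : (8 * X) ^ (l''.length + 1) ≤ (8 * X) ^ l.length :=
          pow_le_pow_right₀ (by linarith) hlen
        refine le_trans ?_ h2
        have := hle
        push_cast at this
        exact this
      have h3 : ((Tf l''.length : ℝ) - Tf (l''.length + 1) + 1) * Real.log X ≤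
          ((Tf l''.length : ℝ) - Tf (l''.length + 1) + 1) * Real.log q := by
        apply mul_le_mul_of_nonneg_left hlogq
        linarith
      linarith
  intro m hm
  obtain ⟨-, -, hvan⟩ := key l List.suffix_rfl m hm
  have h0 := hvan 0 (by simp; omega)
  rw [L5_hd_zero, L5_ev] at h0
  exact h0

end BMF
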