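import Pool.Agent.Lib.MP_a325a5_ag.F.G1
import Pool.Agent.Lib.MP_a325a5_ag.F.L1
import Pool.Agent.Lib.MP_a325a5_ag.F.L4
import Pool.Agent.Lib.MP_a325a5_ag.F.L5
import Pool.Agent.Lib.MP_a325a5_ag.F.B5
import Pool.Agent.Lib.MP_a325a5_ag.F.B6
import Pool.Agent.Lib.MP_a325a5_ag.F.G2a
import Pool.Agent.Lib.MP_a325a5_ag.F.G2b
import Pool.Agent.Lib.MP_a325a5_ag.F.G2c
import Pool.Agent.Lib.MP_a325a5_ag.F.G2d

open NumberField MvPolynomial

namespace BMF

section core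
variable {M : ℕ} {k K : Type} [Field k] [NumberField k] [Field K] [NumberField K] [Algebra k K]

/-- the span of the family has large dimension -/
theorem g2_dim (T : ℕ) (g : Fin 2 → K) (L : Fin 2 → ℕ) (S : Set (P2 k)) {A : P2 k}
    (hA : A ≠ 0) (hAg : ev (RingHom.id k) 1 g A = 0)
    (hS : (L 0 + 1) * (L 1 + 1) ≤ Module.finrank k (Submodule.span k S) +
        (2 * T + 7) * ((L 0 + 1) * (L 1 + 1) - Module.finrank k (vanSub k T L g))) :
    (1 - (2 * (T : ℝ) + 7) * T * wt L A) * (((L 0 : ℝ) + 1) * ((L 1 : ℝ) + 1)) ≤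
      Module.finrank k (Submodule.span k S) := by
  have h1 := vanSub_dim T g L hA hAg
  have h2 : (((L 0 + 1) * (L 1 + 1) - Module.finrank k (vanSub k T L g) : ℕ) : ℝ) ≤
      T * wt L A * (((L 0 : ℝ) + 1) * ((L 1 : ℝ) + 1)) := by
    rcases le_total (Module.finrank k (vanSub k T L g)) ((L 0 + 1) * (L 1 + 1)) with h | h
    · rw [Nat.cast_sub h]
      push_cast
      linarith
    · rw [Nat.sub_eq_zero_of_le h]
      have := wt_nonneg L A
      push_cast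
      positivity
  have h3 : (((L 0 + 1) * (L 1 + 1) : ℕ) : ℝ) ≤ ((Module.finrank k (Submodule.span k S) +
        (2 * T + 7) * ((L 0 + 1) * (L 1 + 1) - Module.finrank k (vanSub k T L g)) : ℕ) : ℝ) := by
    exact_mod_cast hS
  rw [Nat.cast_add, Nat.cast_mul (2 * T + 7)] at h3
  push_cast at h3 h2
  have h4 : (2 * (T : ℝ) + 7) * (((L 0 + 1) * (L 1 + 1) -
      Module.finrank k (vanSub k T L g) : ℕ) : ℝ) ≤
      (2 * (T : ℝ) + 7) * (T * wt L A * (((L 0 : ℝ) + 1) * ((L 1 : ℝ) + 1))) :=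
    mul_le_mul_of_nonneg_left h2 (by positivity)
  push_cast at h4
  linarith

theorem g2_lognum {x c0 φ : ℝ} {L0 L1 : ℕ} {a b : ℕ} (h128 : 128 ≤ x)
    (hN : φ * (((L0 : ℝ) + 1) * ((L1 : ℝ) + 1)) ≤ x ^ 2) (h0 : (L0 : ℝ) + 1 ≤ 3 * x)
    (h1 : (L1 : ℝ) + 1 ≤ 3 * x) (hφ : 1 ≤ φ)
    (hT : 6 + 3 * (b : ℝ) ≤ ((a : ℝ) - b + 1) * c0) (hl : 1 < Real.log x) :
    Real.log (((L0 : ℝ) + 1) * ((L1 : ℝ) + 1) * (φ * x)) +
      b * Real.log ((L0 : ℝ) + L1 + 1) + 1 < ((a : ℝ) - b + 1) * (c0 * Real.log x) := by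
  have x0 : 0 < x := by linarith
  have l1 : Real.log (((L0 : ℝ) + 1) * ((L1 : ℝ) + 1) * (φ * x)) ≤ 3 * Real.log x := by
    have e : ((L0 : ℝ) + 1) * ((L1 : ℝ) + 1) * (φ * x) ≤ x ^ 3 := by
      calc _ = (φ * (((L0 : ℝ) + 1) * ((L1 : ℝ) + 1))) * x := by ring
        _ ≤ x ^ 2 * x := mul_le_mul_of_nonneg_right hN x0.le
        _ = x ^ 3 := by ring
    have := Real.log_le_log (by positivity) e
    rwa [Real.log_pow] at this
  have l2 : Real.log ((L0 : ℝ) + L1 + 1) ≤ 3 * Real.log x := by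
    have e : (L0 : ℝ) + L1 + 1 ≤ x ^ 3 := by
      have e2 : 6 * x ≤ x ^ 3 := by
        have : 6 ≤ x ^ 2 := by nlinarith
        calc 6 * x ≤ x ^ 2 * x := mul_le_mul_of_nonneg_right this x0.le
          _ = x ^ 3 := by ring
      linarith
    have := Real.log_le_log (by positivity) e
    rwa [Real.log_pow] at this
  have l3 : (b : ℝ) * Real.log ((L0 : ℝ) + L1 + 1) ≤ b * (3 * Real.log x) :=
    mul_le_mul_of_nonneg_left l2 (by positivity)
  have l4 : (6 + 3 * (b : ℝ)) * Real.log x ≤ (((a : ℝ) - b + 1) * c0) * Real.log x :=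
    mul_le_mul_of_nonneg_right hT (by linarith)
  have l5 : (6 + 3 * (b : ℝ)) * Real.log x = 6 * Real.log x + b * (3 * Real.log x) := by ring
  have l6 : (((a : ℝ) - b + 1) * c0) * Real.log x = ((a : ℝ) - b + 1) * (c0 * Real.log x) := by
    ring
  rw [l5, l6] at l4
  push_cast at l1
  linarith

/-- the recursion for the exceptional sets -/
theorem g2_rec {q C2 C3 : ℝ} (hq : 1 ≤ q) (hC2 : 0 ≤ C2) (t : ℕ) (h1 : 2 * (t : ℝ) ≤ C3)
    (h2 : 128 * C2 ≤ C3) (h3 : 4 ≤ C3) (j : ℕ) (hj : j < 8) :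
    t * (C3 ^ (8 - (j + 1)) * q ^ (j + 1) / q ^ 3) / q +
      64 * (q ^ 2) ^ 2 * C2 * ((2 / q) ^ (8 - 1 - j) * 1) ^ 2 ≤ C3 ^ (8 - j) * q ^ j / q ^ 3 := by
  have q0 : 0 < q := by linarith
  obtain ⟨i, hi⟩ : ∃ i, i + j = 7 := ⟨7 - j, by omega⟩
  have e1 : 8 - (j + 1) = i := by omega
  have e2 : 8 - 1 - j = i := by omega
  have e3 : 8 - j = i + 1 := by omega
  rw [e1, e2, e3]
  have hCi : 0 < C3 ^ i := by positivity
  have a1 : t * (C3 ^ i * q ^ (j + 1) / q ^ 3) / q = (t : ℝ) * C3 ^ i * q ^ j / q ^ 3 := by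
    rw [pow_succ]; field_simp
  have a2 : 64 * (q ^ 2) ^ 2 * C2 * ((2 / q) ^ i * 1) ^ 2 =
      64 * C2 * 4 ^ i * (q ^ 7 / q ^ (2 * i)) / q ^ 3 := by
    rw [mul_one, div_pow, div_pow, ← pow_mul, ← pow_mul 2 i 2]
    have : (2 : ℝ) ^ (i * 2) = 4 ^ i := by rw [mul_comm, pow_mul]; norm_num
    rw [this, mul_comm 2 i]
    field_simp
    ring
  have a3 : q ^ 7 / q ^ (2 * i) ≤ q ^ j := by
    rw [div_le_iff₀ (by positivity), ← pow_add]
    exact pow_le_pow_right₀ hq (by omega)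
  have a4 : (4 : ℝ) ^ i ≤ C3 ^ i := pow_le_pow_left₀ (by norm_num) h3 i
  rw [a1, a2, ← add_div]
  apply div_le_div_of_nonneg_right _ (by positivity)
  have a5 : 64 * C2 * 4 ^ i * (q ^ 7 / q ^ (2 * i)) ≤ 64 * C2 * C3 ^ i * q ^ j := by
    apply mul_le_mul _ a3 (by positivity) (by positivity)
    exact mul_le_mul_of_nonneg_left a4 (by positivity)
  have hqj : 0 < q ^ j := by positivity
  have a6 : (t : ℝ) * C3 ^ i * q ^ j ≤ (C3 / 2) * C3 ^ i * q ^ j := by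
    apply mul_le_mul_of_nonneg_right _ hqj.le
    apply mul_le_mul_of_nonneg_right _ hCi.le
    linarith
  have a7 : 64 * C2 * C3 ^ i * q ^ j ≤ (C3 / 2) * C3 ^ i * q ^ j := by
    apply mul_le_mul_of_nonneg_right _ hqj.le
    apply mul_le_mul_of_nonneg_right _ hCi.le
    linarith
  calc _ ≤ (C3 / 2) * C3 ^ i * q ^ j + (C3 / 2) * C3 ^ i * q ^ j := by linarith
    _ = C3 ^ (i + 1) * q ^ j := by rw [pow_succ]; ring

end core

set_option maxHeartbeats 1600000 in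
open Classical in
theorem g2_core (η c1 c2 : ℝ) (hη : 0 < η) (hη1 : η ≤ 1) (hc1 : 0 < c1) (hc2 : 0 < c2) :
    ∃ D0 : ℝ, ∀ (M : ℕ) (k K : Type) [Field k] [NumberField k] [Field K] [NumberField K]
      [Algebra k K] (_ : Cyc M k) (g : Fin 2 → K), (∀ i, g i ≠ 0) → MInd g →
      (∀ c : K, c ≠ 0 → (∀ n : ℕ, 0 < n → c ^ n ≠ 1) →
        c1 * (Module.finrank ℚ K : ℝ) ^ (-(η / 8)) ≤
          ht c * Module.finrank k (IntermediateField.adjoin k {c})) →
      (∀ c : K, c ≠ 0 → (∀ n : ℕ, 0 < n → c ^ n ≠ 1) →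
        c2 * (Module.finrank ℚ K : ℝ) ^ (-(η / 16)) ≤
          ht c * Module.finrank k (IntermediateField.adjoin k {c})) →
      D0 ≤ Module.finrank ℚ K →
      (Module.finrank ℚ K : ℝ) ^ (-η) ≤ ht (g 0) * ht (g 1) * dg k g 1 := by
  have hc0 : 0 < η / 400 := by linarith
  set t : ℕ := ⌈40 / (η / 400)⌉₊ with ht_def
  have ht1 : 40 / (η / 400) ≤ t := Nat.le_ceil _
  have ht0 : 0 < t := Nat.ceil_pos.2 (by positivity)
  obtain ⟨Tf, hTf8, hTf⟩ := g2_Tf hc0
  set T : ℕ := Tf 0 with hT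
  have hT1 : 1 ≤ T := by
    have h0 := (hTf 0 (by norm_num)).1
    have h1 := (hTf 1 (by norm_num)).1
    have h2 := (hTf 2 (by norm_num)).1
    have h3 := (hTf 3 (by norm_num)).1
    have h4 := (hTf 4 (by norm_num)).1
    have h5 := (hTf 5 (by norm_num)).1
    have h6 := (hTf 6 (by norm_num)).1
    have h7 := (hTf 7 (by norm_num)).1
    norm_num at h0 h1 h2 h3 h4 h5 h6 h7
    omega
  have hT1r : (1 : ℝ) ≤ T := by exact_mod_cast hT1
  set C0 : ℝ := (8 * ((2 * (T : ℝ) + 7) * T)) ^ 2 with hC0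
  have hbase : (1 : ℝ) ≤ 8 * ((2 * (T : ℝ) + 7) * T) := by nlinarith
  have hC01 : 1 ≤ C0 := by rw [hC0]; exact one_le_pow₀ hbase
  have hsq : Real.sqrt C0 = 8 * ((2 * (T : ℝ) + 7) * T) := Real.sqrt_sq (by linarith)
  set C3 : ℝ := 2 * (t : ℝ) + 128 * (C0 + 8) + 4 with hC3
  obtain ⟨X0, hX01, hX0⟩ := exists_primes
  obtain ⟨D0, hD0⟩ := g2_num η c1 c2 X0 hη hη1 hc1 hc2 t T C0 C3
  refine ⟨D0, ?_⟩
  intro M k K _ _ _ _ _ Z g hg hI hA1 hA2 hDD
  by_contra hlt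
  push Not at hlt
  set x : ℝ := (Module.finrank ℚ K : ℝ) with hx
  obtain ⟨h128, hC0x, h3, h2y, h8y, h6, h24, hXX0, hX4, hprim, hC3q, hC2q, hline', hfin⟩ :=
    hD0 x hDD
  have x0 : 0 < x := by linarith
  set X : ℝ := x ^ (η / 400) with hXdef
  set q : ℝ := Real.sqrt X with hq
  have hX0' : 0 < X := by linarith
  have hX1 : 1 ≤ X := by linarith
  have hq2 : q ^ 2 = X := Real.sq_sqrt hX0'.le
  have hq1 : 1 ≤ q := by rw [hq]; exact Real.one_le_sqrt.2 hX1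
  have q0 : 0 < q := by linarith
  have hD'pos : 0 < dg k g 1 := dg_pos g 1
  have hD'1 : (1 : ℝ) ≤ dg k g 1 := by exact_mod_cast hD'pos
  have hnt0 := g2_nt hI 0
  have hl : ∀ i, c1 * x ^ (-(η / 8)) ≤ ht (g i) * dg k g 1 := by
    intro i
    refine (hA1 (g i) (hg i) (g2_nt hI i)).trans ?_
    exact mul_le_mul_of_nonneg_left (by exact_mod_cast g2_fin_le g i) (ht_nonneg _)
  obtain ⟨L0, L1, hy0, hy1, hLlow, hLup, hL0, hL1⟩ := g2_pick (η := η) hc1 hC01 x0 hD'1 (hl 0)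
    (hl 1) hlt h3 h6
  set L : Fin 2 → ℕ := ![L0, L1] with hLdef
  have eL0 : L 0 = L0 := rfl
  have eL1 : L 1 = L1 := rfl
  set y : ℝ := x ^ (-(η / 3)) with hy
  have hφ : ((M.totient : ℝ)) * dg k g 1 ≤ x := by
    rw [hx]; exact_mod_cast totient_mul_dg_le Z g
  have hM1 : 1 ≤ M.totient := Nat.totient_pos.2 Z.pos
  have hM1r : (1 : ℝ) ≤ M.totient := by exact_mod_cast hM1
  have hD'x : (dg k g 1 : ℝ) ≤ x := by
    refine le_trans ?_ hφ
    have := mul_le_mul_of_nonneg_right hM1r (by linarith : (0 : ℝ) ≤ dg k g 1)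
    rwa [one_mul] at this
  have hNr : (M.totient : ℝ) * (((L0 : ℝ) + 1) * ((L1 : ℝ) + 1)) ≤ x ^ 2 := by
    calc (M.totient : ℝ) * (((L0 : ℝ) + 1) * ((L1 : ℝ) + 1))
        ≤ M.totient * ((C0 + 8) * dg k g 1) := mul_le_mul_of_nonneg_left hLup (by linarith)
      _ = (C0 + 8) * (M.totient * dg k g 1) := by ring
      _ ≤ (C0 + 8) * x := mul_le_mul_of_nonneg_left hφ (by linarith)
      _ ≤ x * x := mul_le_mul_of_nonneg_right hC0x x0.le
      _ = x ^ 2 := by ring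
  have hN : M.totient * ((L 0 + 1) * (L 1 + 1)) ≤ (Module.finrank ℚ K) ^ 2 := by
    have : ((M.totient * ((L 0 + 1) * (L 1 + 1)) : ℕ) : ℝ) ≤ ((Module.finrank ℚ K) ^ 2 : ℕ) := by
      push_cast
      rw [eL0, eL1, ← hx]
      exact hNr
    exact_mod_cast this
  have hLx : ∀ i, (L i : ℝ) + 1 ≤ 3 * x := by
    intro i
    fin_cases i
    · exact hL0.trans (by linarith)
    · exact hL1.trans (by linarith)
  have hLle : ∀ i, L i ≤ (Module.finrank ℚ K) ^ 2 := by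
    intro i
    have : ((L i : ℕ) : ℝ) ≤ ((Module.finrank ℚ K) ^ 2 : ℕ) := by
      push_cast
      rw [← hx]
      have h1 := hLx i
      have h2 : 3 * x ≤ x ^ 2 := by
        rw [sq]
        exact mul_le_mul_of_nonneg_right (by linarith) x0.le
      linarith
    exact_mod_cast this
  have hht : ∀ i, 0 ≤ ht (g i) := fun i => ht_nonneg _
  have hy' : ∀ i, ((L i : ℝ) + 1) * ht (g i) ≤ y := by
    intro i
    fin_cases i
    · exact hy0
    · exact hy1
  have hsum : (L0 : ℝ) * ht (g 0) + L1 * ht (g 1) ≤ 2 * y := by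
    have := hht 0
    have := hht 1
    linarith [hy0, hy1]
  have h128n : 128 ≤ Module.finrank ℚ K := by
    have h : ((128 : ℕ) : ℝ) ≤ (Module.finrank ℚ K : ℝ) := h128
    exact Nat.cast_le.1 h
  obtain ⟨S, hS1, hS2⟩ := box_family Z T g hg L h128n hN hLle
    (by rw [eL0, eL1]; linarith)
  set V : Submodule k (P2 k) := Submodule.span k S with hV
  have hVL : V ≤ bx k L := Submodule.span_le.2 fun G hG => (hS1 G hG).1.1
  obtain ⟨A, hA0, hAg, hApos, hAmin⟩ := exists_min (k := k) g L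
  have hθ : wt L A ≤ 2 * (1 / Real.sqrt C0) := by
    have hs0 : 0 < Real.sqrt C0 := by rw [hsq]; linarith
    obtain ⟨A', hA'0, hA'g, hA'w⟩ := exists_small (k := k) g L (θ := 1 / Real.sqrt C0)
      (by positivity) (by rw [div_le_one hs0, hsq]; exact hbase) (by
        rw [div_pow, one_pow, Real.sq_sqrt (by linarith), eL0, eL1, div_mul_eq_mul_div, one_mul,
          le_div_iff₀ (by linarith)]
        linarith)
    exact (hAmin A' hA'0 hA'g).trans hA'w
  set δ : ℝ := (2 * (T : ℝ) + 7) * T * wt L A with hδ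
  have hδ0 : 0 ≤ δ := by rw [hδ]; positivity
  have hTT : 0 < (2 * (T : ℝ) + 7) * T := by
    have : (0 : ℝ) < T := by linarith
    positivity
  have hδ4 : δ ≤ 1 / 4 := by
    calc δ ≤ (2 * (T : ℝ) + 7) * T * (2 * (1 / Real.sqrt C0)) :=
          mul_le_mul_of_nonneg_left hθ hTT.le
      _ = 1 / 4 := by rw [hsq]; field_simp; norm_num
  have hdim : (1 - δ) * (((L 0 : ℝ) + 1) * ((L 1 : ℝ) + 1)) ≤ Module.finrank k V :=
    g2_dim T g L S hA0 hAg hS2
  -- primes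
  obtain ⟨P0, hP0, hP0c⟩ := hX0 X hXX0
  set P1 : Finset ℕ := P0 \ M.primeFactors with hP1
  obtain ⟨R, hRP, hRc, hR⟩ := good_primes (k := k) g hg 8 P1 (fun p hp =>
    (hP0 p (Finset.mem_sdiff.1 hp).1).1)
  have hcard : 8 * (⌈q⌉₊ + t) ≤ (P1 \ R).card := by
    have c1 : (P0.card : ℝ) ≤ P1.card + M.primeFactors.card := by
      have := Finset.card_le_card_sdiff_add_card (s := P0) (t := M.primeFactors)
      exact_mod_cast this
    have c2 : (P1.card : ℝ) ≤ (P1 \ R).card + R.card := by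
      have := Finset.card_le_card_sdiff_add_card (s := P1) (t := R)
      exact_mod_cast this
    have c3 := card_primes_dvd (K := K) Z
    have c4 : Real.logb 2 (dg k g 1) ≤ Real.logb 2 x :=
      Real.logb_le_logb_of_le (by norm_num) (by linarith) hD'x
    have c5 : (⌈q⌉₊ : ℝ) ≤ q + 1 := (Nat.ceil_lt_add_one q0.le).le
    have : ((8 * (⌈q⌉₊ + t) : ℕ) : ℝ) ≤ (P1 \ R).card := by
      push_cast
      push_cast at hRc
      rw [← hx] at c3
      linarith
    exact_mod_cast this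
  obtain ⟨l, hl8, hlQ, hldis⟩ := g2_split (⌈q⌉₊ + t) 8 (P1 \ R) hcard
  have hPq : ∀ p ∈ P1 \ R, p.Prime ∧ ¬ p ∣ M ∧ X < p ∧ (p : ℝ) ≤ 8 * X := by
    intro p hp
    have hp1 := (Finset.mem_sdiff.1 hp).1
    have hp0 := Finset.mem_sdiff.1 hp1
    have := hP0 p hp0.1
    refine ⟨this.1, fun hd => hp0.2 ?_, this.2.1, this.2.2⟩
    exact Nat.mem_primeFactors.2 ⟨this.1, hd, Z.pos.ne'⟩
  have hlq : ∀ Q ∈ l, ∀ p ∈ Q, p.Prime ∧ ¬ p ∣ M ∧ X < p ∧ (p : ℝ) ≤ 8 * X :=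
    fun Q hQ p hp => hPq p ((hlQ Q hQ).1 hp)
  have hgood : ∀ l', l' <:+ l → ∀ m ∈ prods l', dg k g m = dg k g 1 := by
    intro l' hl' m hm
    obtain ⟨S', hS', hc', -, rfl⟩ := g2_prods (P1 \ R) l'
      (fun Q hQ => (hlQ Q (hl'.subset hQ)).1) (hldis.sublist hl'.sublist) m hm
    exact hR S' hS' (hc'.trans (hl'.length_le.trans hl8.le))
  have hpos : ∀ l', l' <:+ l → ∀ m ∈ prods l', 0 < m ∧ m.Coprime M := by
    intro l' hl' m hm
    exact g2_prods_pos l' (fun Q hQ p hp =>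
      ⟨(hlq Q (hl'.subset hQ) p hp).1, (hlq Q (hl'.subset hQ) p hp).2.1⟩) m hm
  have hmle : ∀ l', l' <:+ l → ∀ m ∈ prods l', (m : ℝ) ≤ (8 * X) ^ 8 := by
    intro l' hl' m hm
    refine (g2_prods_le hX1 l' (fun Q hQ p hp => (hlq Q (hl'.subset hQ) p hp).2.2.2) m hm).trans ?_
    exact pow_le_pow_right₀ (by linarith) (hl'.length_le.trans hl8.le)
  have hlogx : 1 < Real.log x := by
    rw [Real.lt_log_iff_exp_lt x0]
    have := Real.exp_one_lt_d9
    linarith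
  have hlogX : Real.log X = η / 400 * Real.log x := Real.log_rpow x0 _
  -- extrapolation
  have hev : ∀ m ∈ prods l, ∀ G ∈ V, ev (Z.fr m) m g G = 0 := by
    intro m hm
    have hSev : ∀ G ∈ S, ev (Z.fr m) m g G = 0 := by
      intro G hG
      have hA1' : (1 : ℝ) ≤ (M.totient : ℝ) * Module.finrank ℚ K := by
        rw [← hx]
        have := mul_le_mul hM1r (by linarith : (1 : ℝ) ≤ x) zero_le_one (by linarith)
        linarith
      refine extrap_all Z g hg L hA1' hX1 (hS1 G hG).1.1 (hS1 G hG).2 l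
        (fun P hP q hq => hlq P hP q hq) Tf (fun j hj => (hTf j (by omega)).1)
        (by rw [hl8, hTf8]) (hS1 G hG).1.2 (Y1 := 1) ?_ ?_ m hm
      · rw [hl8, eL0, eL1]
        calc (8 * X) ^ 8 * ((L0 : ℝ) * ht (g 0) + L1 * ht (g 1)) ≤ (8 * X) ^ 8 * (2 * y) :=
              mul_le_mul_of_nonneg_left hsum (by positivity)
          _ ≤ 1 := h8y
      · intro j hj
        rw [hl8] at hj
        have hT' := (hTf j hj).2
        rw [eL0, eL1, ← hx, hlogX]
        exact g2_lognum h128 hNr (hLx 0) (hLx 1) hM1r hT' hlogx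
    intro G hG
    induction hG using Submodule.span_induction with
    | mem G hG => exact hSev G hG
    | zero => exact map_zero _
    | add a b _ _ ha hb => rw [map_add, ha, hb, add_zero]
    | smul c a _ ha => rw [MvPolynomial.smul_eq_C_mul, map_mul, ha, mul_zero]
  have hLm : ((L 0 : ℝ) + 1) * ((L 1 : ℝ) + 1) ≤ (C0 + 8) * dg k g 1 := hLup
  obtain ⟨B, hB0, hBw, hBc⟩ := top_level Z g (hg 0) hnt0 L hLm V hVL hδ0 (by linarith) hdim
    (prods l) (fun m hm => ⟨(hpos l (List.suffix_refl l) m hm).1,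
      (hpos l (List.suffix_refl l) m hm).2, hgood l (List.suffix_refl l) m hm, hev m hm⟩)
  -- descent
  have hlineX : ∀ Y : P2 k, Y ≠ 0 → LineSupp Y → wt L Y ≤ 8 * X →
      ∀ l', l' <:+ l → ∀ m ∈ prods l', ev (Z.fr m) m g Y ≠ 0 := by
    intro Y hY0 hYl hYw l' hl' m hm hY
    have hmm := hpos l' hl' m hm
    have e1 := line_exclude Z g hg hI L hy' (hA2) hmm.2 hmm.1 hY0 hYl hY
    have e2 : (m : ℝ) * y * wt L Y ≤ (8 * X) ^ 9 * y := by
      have y0 : 0 ≤ y := Real.rpow_nonneg x0.le _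
      calc (m : ℝ) * y * wt L Y ≤ ((8 * X) ^ 8 * y) * (8 * X) :=
            mul_le_mul (mul_le_mul_of_nonneg_right (hmle l' hl' m hm) y0) hYw
              (wt_nonneg _ _) (by positivity)
        _ = (8 * X) ^ 9 * y := by ring
    linarith
  have hC3a : 2 * (t : ℝ) ≤ C3 := by rw [hC3]; linarith
  have hC3b : 128 * (C0 + 8) ≤ C3 := by rw [hC3]; linarith [(Nat.cast_nonneg t : (0 : ℝ) ≤ t)]
  have hC3c : 4 ≤ C3 := by rw [hC3]; linarith [(Nat.cast_nonneg t : (0 : ℝ) ≤ t)]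
  obtain ⟨B', hB'0, hB'w, hB'ev⟩ := descent_all Z g (hg 0) hnt0 L (X := X) (D := x)
    (C2 := C0 + 8) hX4 (by linarith) hLm
    (fun i => by
      have := hLx i
      calc 8 * X * ((L i : ℝ) + 1) ≤ 8 * X * (3 * x) :=
            mul_le_mul_of_nonneg_left this (by positivity)
        _ = (24 * X) * x := by ring
        _ ≤ x ^ 2 * x := mul_le_mul_of_nonneg_right h24 x0.le
        _ = x ^ 3 := by ring)
    t ht0 (by
      rw [hlogX]
      have : 40 ≤ (t : ℝ) * (η / 400) := by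
        rw [div_le_iff₀ hc0] at ht1
        exact ht1
      calc 40 * Real.log x ≤ ((t : ℝ) * (η / 400)) * Real.log x :=
            mul_le_mul_of_nonneg_right this (by linarith)
        _ = t * (η / 400 * Real.log x) := by ring)
    l (fun P hP => by
      have hc := (hlQ P hP).2
      refine ⟨by omega, ?_, hlq P hP⟩
      rw [hc]
      push_cast
      have := Nat.le_ceil q
      linarith [(Nat.cast_nonneg t : (0 : ℝ) ≤ t)])
    hldis hgood hB0 (fun j => C3 ^ (8 - j) * q ^ j / q ^ 3) (w := 1) le_rfl (by linarith)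
    (by
      rw [hl8]
      refine hBc.trans ?_
      have : C3 ^ (8 - 8) * q ^ 8 / q ^ 3 = q ^ 5 := by
        rw [Nat.sub_self, pow_zero, one_mul]
        field_simp
      rw [this]
      exact hC2q)
    (by
      intro j hj
      rw [hl8] at hj ⊢
      have := g2_rec hq1 (by linarith : (0 : ℝ) ≤ C0 + 8) t hC3a hC3b hC3c j hj
      rw [hq2] at this
      exact this)
    (by
      simp only [pow_zero, mul_one, Nat.sub_zero]
      rw [div_lt_one (by positivity)]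
      exact hC3q)
    hlineX
  have hmin := hAmin B' hB'0 hB'ev
  rw [hl8] at hB'w
  have hz0 : 0 ≤ (2 / q) ^ 8 := by positivity
  have : wt L A ≤ ((2 / q) ^ 8 * (2 * (2 * (T : ℝ) + 7) * T)) * wt L A := by
    calc wt L A ≤ (2 / q) ^ 8 * wt L B := hmin.trans hB'w
      _ ≤ (2 / q) ^ 8 * (2 * δ) := mul_le_mul_of_nonneg_left hBw hz0
      _ = _ := by rw [hδ]; ring
  have h2 : ((2 / q) ^ 8 * (2 * (2 * (T : ℝ) + 7) * T)) * wt L A < 1 * wt L A :=
    mul_lt_mul_of_pos_right hfin hApos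
  linarith

/-- relative Amoroso-David type lower bound in dimension two (weak form) -/
theorem D2main (η : ℝ) (hη : 0 < η) : ∃ c : ℝ, 0 < c ∧ ∀ (M : ℕ) (k K : Type) [Field k]
    [NumberField k] [Field K] [NumberField K] [Algebra k K] (_ : Cyc M k) (g : Fin 2 → K),
    (∀ i, g i ≠ 0) → MInd g →
    c * (Module.finrank ℚ K : ℝ) ^ (-η) ≤ ht (g 0) * ht (g 1) * dg k g 1 := by
  set η' : ℝ := min η 1 with hη'
  have h0 : 0 < η' := lt_min hη one_pos
  have h1 : η' ≤ 1 := min_le_right _ _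
  obtain ⟨c1, hc1, H1⟩ := D1main (η' / 8) (by linarith)
  obtain ⟨c2, hc2, H2⟩ := D1main (η' / 16) (by linarith)
  obtain ⟨D0, hD0⟩ := g2_core η' c1 c2 h0 h1 hc1 hc2
  obtain ⟨c3, hc3, H3⟩ := ht_lower ⌈D0⌉₊
  refine ⟨min 1 (c3 ^ 2), by positivity, ?_⟩
  intro M k K _ _ _ _ _ Z g hg hI
  have hx1 : (1 : ℝ) ≤ (Module.finrank ℚ K : ℝ) := by exact_mod_cast Module.finrank_pos
  have hD' : (1 : ℝ) ≤ dg k g 1 := by exact_mod_cast dg_pos g 1
  rcases le_total D0 (Module.finrank ℚ K : ℝ) with h | h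
  · have := hD0 M k K Z g hg hI (fun c hc hn => H1 M k K Z c hc hn)
      (fun c hc hn => H2 M k K Z c hc hn) h
    refine le_trans ?_ this
    have e1 : (Module.finrank ℚ K : ℝ) ^ (-η) ≤ (Module.finrank ℚ K : ℝ) ^ (-η') :=
      Real.rpow_le_rpow_of_exponent_le hx1 (by linarith [min_le_left η 1])
    calc min 1 (c3 ^ 2) * (Module.finrank ℚ K : ℝ) ^ (-η) ≤
          1 * (Module.finrank ℚ K : ℝ) ^ (-η) :=
          mul_le_mul_of_nonneg_right (min_le_left _ _) (Real.rpow_nonneg (by linarith) _)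
      _ ≤ _ := by rw [one_mul]; exact e1
  · have hle : Module.finrank ℚ K ≤ ⌈D0⌉₊ := by
      have := Nat.le_ceil D0
      exact_mod_cast h.trans this
    have a0 := H3 K hle (g 0) (hg 0) (g2_nt hI 0)
    have a1 := H3 K hle (g 1) (hg 1) (g2_nt hI 1)
    have e2 : (Module.finrank ℚ K : ℝ) ^ (-η) ≤ 1 :=
      Real.rpow_le_one_of_one_le_of_nonpos hx1 (by linarith)
    calc min 1 (c3 ^ 2) * (Module.finrank ℚ K : ℝ) ^ (-η) ≤ c3 ^ 2 * 1 :=
          mul_le_mul (min_le_right _ _) e2 (Real.rpow_nonneg (by linarith) _) (by positivity)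
      _ = c3 * c3 * 1 := by ring
      _ ≤ ht (g 0) * ht (g 1) * dg k g 1 :=
          mul_le_mul (mul_le_mul a0 a1 hc3.le (hc3.le.trans a0)) hD' (by norm_num)
            (mul_nonneg (ht_nonneg _) (ht_nonneg _))

end BMF
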