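import Pool.Agent.Lib.MP_a325a5_ag.F.Co

/-! A common factor of two binomials divides a polynomial of bidegree `(2, 1)`.

Proof.  Let `D` be the derivation `q_Y ∂_X - q_X ∂_Y` of `L[X][Y]` (`∂_Y` is `derivative`, `∂_X` the
derivation acting on the coefficients, e.g. transport by `Bivariate.swap`, or `Derivation.mapCoeff`
if available).  `D q = 0`, so `q ∣ D f` for all multiples `f` of `q`.  Put
`P = c 0 * c 1 * c 2` (coordinate functions), `y 1`, `y 2` the last two.  For `n : Fin 5 → ℕ` and the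
monomial `M n = ∏ co i ^ n i`:
`P * y 1 * y 2 * D (M n) = M n * (q_Y * N n * y 1 * y 2 - q_X * P * ℓ n)` with `N`, `ℓ` the additive
functions `nn`, `ll` below (`D (c j) = q_Y * γ j`, `D (y 1) = - q_X`, `D (y 2) = - r q_X`).
Let `E n` be the bracket, additive in `n`.  Then `P y 1 y 2 D (bin a) = M a⁺ * E a + bin a * E a⁻`,
so `q ∣ M a⁺ * E a` and `q ∣ E a` (`q` is prime and divides no coordinate function); the same for
`b`.  `ℓ b * E a - ℓ a * E b = q_Y * y 1 * y 2 * (N a * ℓ b - N b * ℓ a)`.  `q` does not divide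
`q_Y = derivative q` (smaller degree, nonzero as the degree is positive and the characteristic
is `0`). -/

open Polynomial Polynomial.Bivariate

namespace BMF

variable {L : Type} [Field L]

/-- the polynomial `∑ a_j γ_j ∏_{i ≠ j} c_i` -/
noncomputable def nn (α γ : Fin 3 → L) (a : Fin 5 → ℤ) : L[X] :=
  C ((a 0 : L) * γ 0 * γ 1 * γ 2) * ((X - C (α 1)) * (X - C (α 2))) +
  C ((a 1 : L) * γ 0 * γ 1 * γ 2) * ((X - C (α 0)) * (X - C (α 2))) +
  C ((a 2 : L) * γ 0 * γ 1 * γ 2) * ((X - C (α 0)) * (X - C (α 1)))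

/-- the polynomial `a_3 (r Y + p) + a_4 r Y` -/
noncomputable def ll (r p : L) (a : Fin 5 → ℤ) : L[X][Y] :=
  C (C (a 3 : L)) * (C (C r) * Y + C (C p)) + C (C ((a 4 : L) * r)) * Y

/-- the derivative in the inner variable -/
private noncomputable def gdx (f : L[X][Y]) : L[X][Y] := swap (derivative (swap f))

private lemma gdx_add (f g : L[X][Y]) : gdx (f + g) = gdx f + gdx g := by
  unfold gdx
  rw [map_add, derivative_add, map_add]

private lemma gdx_mul (f g : L[X][Y]) : gdx (f * g) = gdx f * g + f * gdx g := by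
  unfold gdx
  rw [map_mul, derivative_mul, map_add, map_mul, map_mul, swap_swap_apply, swap_swap_apply]

private lemma gdx_CC (a : L) : gdx (C (C a)) = 0 := by
  unfold gdx
  rw [swap_C_C, derivative_C, map_zero]

private lemma gdx_CX : gdx (C X : L[X][Y]) = 1 := by
  unfold gdx
  rw [swap_X, derivative_X, map_one]

private lemma gdx_Y : gdx (Y : L[X][Y]) = 0 := by
  unfold gdx
  rw [swap_Y, derivative_C, map_zero]

/-- the derivation which kills `q` -/
private noncomputable def gD (q f : L[X][Y]) : L[X][Y] := derivative q * gdx f - gdx q * derivative f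

private lemma gD_add (q f g : L[X][Y]) : gD q (f + g) = gD q f + gD q g := by
  unfold gD
  rw [gdx_add, derivative_add]
  ring

private lemma gD_mul (q f g : L[X][Y]) : gD q (f * g) = gD q f * g + f * gD q g := by
  unfold gD
  rw [gdx_mul, derivative_mul]
  ring

private lemma gD_one (q : L[X][Y]) : gD q 1 = 0 := by
  have h := gD_mul q 1 1
  rw [one_mul] at h
  have h2 : gD q 1 + 0 = gD q 1 + gD q 1 := by
    rw [add_zero]
    calc gD q 1 = gD q 1 * 1 + 1 * gD q 1 := h
      _ = gD q 1 + gD q 1 := by ring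
  exact (add_left_cancel h2).symm

private lemma gD_sub (q f g : L[X][Y]) : gD q (f - g) = gD q f - gD q g := by
  have h := gD_add q (f - g) g
  rw [sub_add_cancel] at h
  rw [h]
  ring

private lemma gD_self (q : L[X][Y]) : gD q q = 0 := by
  unfold gD
  ring

private lemma gD_dvd {q f : L[X][Y]} (h : q ∣ f) : q ∣ gD q f := by
  obtain ⟨g, rfl⟩ := h
  rw [gD_mul, gD_self, zero_mul, zero_add]
  exact Dvd.intro _ rfl

private lemma gD_pow (q f : L[X][Y]) (n : ℕ) : f * gD q (f ^ n) = n * f ^ n * gD q f := by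
  induction n with
  | zero => rw [pow_zero, gD_one]; simp
  | succ n ih =>
    rw [pow_succ, gD_mul]
    push_cast
    linear_combination f * ih

private lemma gD_mon (q : L[X][Y]) (c : Fin 5 → L[X][Y]) (n : Fin 5 → ℕ) :
    (∏ i, c i) * gD q (∏ i, c i ^ n i) = (∏ i, c i ^ n i) *
      (n 0 * (c 1 * c 2 * c 3 * c 4) * gD q (c 0) + n 1 * (c 0 * c 2 * c 3 * c 4) * gD q (c 1) +
       n 2 * (c 0 * c 1 * c 3 * c 4) * gD q (c 2) + n 3 * (c 0 * c 1 * c 2 * c 4) * gD q (c 3) +
       n 4 * (c 0 * c 1 * c 2 * c 3) * gD q (c 4)) := by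
  rw [Fin.prod_univ_five, Fin.prod_univ_five]
  have h0 := gD_pow q (c 0) (n 0)
  have h1 := gD_pow q (c 1) (n 1)
  have h2 := gD_pow q (c 2) (n 2)
  have h3 := gD_pow q (c 3) (n 3)
  have h4 := gD_pow q (c 4) (n 4)
  rw [gD_mul, gD_mul, gD_mul, gD_mul]
  generalize gD q (c 0 ^ n 0) = d0 at *
  generalize gD q (c 1 ^ n 1) = d1 at *
  generalize gD q (c 2 ^ n 2) = d2 at *
  generalize gD q (c 3 ^ n 3) = d3 at *
  generalize gD q (c 4 ^ n 4) = d4 at *
  generalize c 0 ^ n 0 = e0 at *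
  generalize c 1 ^ n 1 = e1 at *
  generalize c 2 ^ n 2 = e2 at *
  generalize c 3 ^ n 3 = e3 at *
  generalize c 4 ^ n 4 = e4 at *
  linear_combination (c 1 * c 2 * c 3 * c 4 * (e1 * e2 * e3 * e4)) * h0 +
    (c 0 * c 2 * c 3 * c 4 * (e0 * e2 * e3 * e4)) * h1 +
    (c 0 * c 1 * c 3 * c 4 * (e0 * e1 * e3 * e4)) * h2 +
    (c 0 * c 1 * c 2 * c 4 * (e0 * e1 * e2 * e4)) * h3 +
    (c 0 * c 1 * c 2 * c 3 * (e0 * e1 * e2 * e3)) * h4

/-- the bracket -/
private noncomputable def gE (α γ : Fin 3 → L) (r p : L) (q : L[X][Y]) (a : Fin 5 → ℤ) : L[X][Y] :=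
  (a 0 : L[X][Y]) * (co α γ r p 1 * co α γ r p 2 * co α γ r p 3 * co α γ r p 4) * gD q (co α γ r p 0) +
  a 1 * (co α γ r p 0 * co α γ r p 2 * co α γ r p 3 * co α γ r p 4) * gD q (co α γ r p 1) +
  a 2 * (co α γ r p 0 * co α γ r p 1 * co α γ r p 3 * co α γ r p 4) * gD q (co α γ r p 2) +
  a 3 * (co α γ r p 0 * co α γ r p 1 * co α γ r p 2 * co α γ r p 4) * gD q (co α γ r p 3) +
  a 4 * (co α γ r p 0 * co α γ r p 1 * co α γ r p 2 * co α γ r p 3) * gD q (co α γ r p 4)

private lemma gE_bin (α γ : Fin 3 → L) (r p : L) (q : L[X][Y]) (a : Fin 5 → ℤ) :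
    (∏ i, co α γ r p i) * gD q (bin α γ r p a) =
      (∏ i, co α γ r p i ^ (a i).toNat) * gE α γ r p q a +
      bin α γ r p a * gE α γ r p q (fun i => ((-a i).toNat : ℤ)) := by
  have hM := gD_mon q (co α γ r p) (fun i => (a i).toNat)
  have hN := gD_mon q (co α γ r p) (fun i => (-a i).toNat)
  have hd : ∀ i, (a i : L[X][Y]) = ((a i).toNat : L[X][Y]) - ((-a i).toNat : L[X][Y]) := by
    intro i
    have h : a i = ((a i).toNat : ℤ) - ((-a i).toNat : ℤ) := by omega
    nth_rewrite 1 [h]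
    push_cast
    rfl
  unfold bin
  rw [gD_sub, mul_sub, hM, hN]
  unfold gE
  rw [hd 0, hd 1, hd 2, hd 3, hd 4]
  push_cast
  ring

private lemma gE_eq (α γ : Fin 3 → L) (r p : L) (q : L[X][Y]) (a : Fin 5 → ℤ) :
    gE α γ r p q a = derivative q * C (nn α γ a) * (co α γ r p 3 * co α γ r p 4) -
      gdx q * (co α γ r p 0 * co α γ r p 1 * co α γ r p 2) * ll r p a := by
  have c0 : co α γ r p 0 = C (C (γ 0) * (X - C (α 0))) := rfl
  have c1 : co α γ r p 1 = C (C (γ 1) * (X - C (α 1))) := rfl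
  have c2 : co α γ r p 2 = C (C (γ 2) * (X - C (α 2))) := rfl
  have c3 : co α γ r p 3 = Y := rfl
  have c4 : co α γ r p 4 = C (C r) * Y + C (C p) := rfl
  have hlin : ∀ g α' : L, gD q (C (C g * (X - C α'))) = derivative q * C (C g) := by
    intro g α'
    have h1 : (C (C g * (X - C α')) : L[X][Y]) = C (C g) * (C X) + C (C (-(g * α'))) := by
      rw [map_mul, map_sub]
      have h2 : (C (C (-(g * α'))) : L[X][Y]) = -(C (C g) * C (C α')) := by
        rw [map_neg, map_neg, map_mul, map_mul]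
      rw [h2]
      ring
    rw [h1]
    unfold gD
    rw [gdx_add, gdx_mul, gdx_CC, gdx_CX, gdx_CC, derivative_add, derivative_mul, derivative_C,
      derivative_C, derivative_C]
    ring
  have h3 : gD q (co α γ r p 3) = -gdx q := by
    rw [c3]
    unfold gD
    rw [gdx_Y, derivative_X]
    ring
  have h4 : gD q (co α γ r p 4) = -(gdx q * C (C r)) := by
    rw [c4]
    unfold gD
    rw [gdx_add, gdx_mul, gdx_Y, gdx_CC, gdx_CC, derivative_add, derivative_mul, derivative_C,
      derivative_C, derivative_X]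
    ring
  unfold gE
  rw [h3, h4, c0, c1, c2, hlin, hlin, hlin, c3, c4]
  unfold nn ll
  have hint : ∀ z : ℤ, (z : L[X][Y]) = C (C (z : L)) := by
    intro z
    rw [map_intCast, map_intCast]
  rw [hint, hint, hint, hint, hint]
  simp only [map_add, map_mul, map_sub]
  ring

theorem grad [CharZero L] (α γ : Fin 3 → L) (r p : L) (q : L[X][Y]) (hq : Irreducible q)
    (hdeg : q.natDegree ≠ 0) (hco : ∀ i, ¬ q ∣ co α γ r p i) (a b : Fin 5 → ℤ)
    (ha : q ∣ bin α γ r p a) (hb : q ∣ bin α γ r p b) :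
    q ∣ C (nn α γ a) * ll r p b - C (nn α γ b) * ll r p a := by
  have hp : Prime q := hq.prime
  have key : ∀ c : Fin 5 → ℤ, q ∣ bin α γ r p c → q ∣ gE α γ r p q c := by
    intro c hc
    have h1 : q ∣ (∏ i, co α γ r p i) * gD q (bin α γ r p c) := (gD_dvd hc).mul_left _
    rw [gE_bin] at h1
    have h2 : q ∣ (∏ i, co α γ r p i ^ (c i).toNat) * gE α γ r p q c :=
      (dvd_add_left (hc.mul_right _)).1 h1
    rcases hp.dvd_or_dvd h2 with h3 | h3
    · exfalso
      obtain ⟨i, -, hi⟩ := (Prime.dvd_finsetProd_iff hp _).1 h3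
      exact hco i (hp.dvd_of_dvd_pow hi)
    · exact h3
  have h1 : q ∣ ll r p b * gE α γ r p q a - ll r p a * gE α γ r p q b :=
    dvd_sub ((key a ha).mul_left _) ((key b hb).mul_left _)
  have e : ll r p b * gE α γ r p q a - ll r p a * gE α γ r p q b =
      derivative q * (co α γ r p 3 * (co α γ r p 4 *
        (C (nn α γ a) * ll r p b - C (nn α γ b) * ll r p a))) := by
    rw [gE_eq, gE_eq]
    ring
  rw [e] at h1
  have hd : ¬ q ∣ derivative q := by
    intro h
    have h0 : derivative q ≠ 0 := fun h0 => hdeg (natDegree_eq_zero_of_derivative_eq_zero h0)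
    have h2 := natDegree_le_of_dvd h h0
    have h3 := natDegree_derivative_lt hdeg
    omega
  have h2 := (hp.dvd_or_dvd h1).resolve_left hd
  have h3 := (hp.dvd_or_dvd h2).resolve_left (hco 3)
  exact (hp.dvd_or_dvd h3).resolve_left (hco 4)

end BMF
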