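import Pool.Agent.Lib.MP_a325a5_ag.F.Cases
import Pool.Agent.Lib.MP_a325a5_ag.F.Clus
import Pool.Agent.Lib.MP_a325a5_ag.F.Co

/-! Bounded height of the points of small rank, up to points `t` of bounded degree.

Proof.  `cases5` for `x` (`x 0, x 1, x 2` and `x 3`, `x 4`): a relation `a` between the `c_j(t)`, so
`ht t ≤ C₁` by `one_rel`.  If `s ^ b₀ * (r s + p) ^ b₁ = 1` with `b ≠ 0` then `ht s ≤ C₂` by `one_rel`
for the line with cusps `0`, `- p / r` and coefficients `1`, `r`.  Otherwise `clus`: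
`ht s ≤ B₁` or `(minpoly L t).natDegree ≤ D₁`. -/

open NumberField Polynomial Polynomial.Bivariate Pool.Agent.Lib.MP_a325a5_ag.UL

namespace BMF

theorem hbd {L : Type} [Field L] [NumberField L] (α γ : Fin 3 → L) (r p : L)
    (hα : Function.Injective α) (hγ : ∀ j, γ j ≠ 0) (hr : r ≠ 0) (hp : p ≠ 0) (τ : L →+* ℂ)
    (hNA : ∀ d : Fin 3 → ℝ, d ≠ 0 → (ray (fun j => τ (γ j)) (fun j => τ (α j)) d).Finite) :
    ∃ B : ℝ, ∃ D₁ : ℕ, ∀ (K : Type) [Field K] [NumberField K] [Algebra L K] (t s : K)
      (x : Fin 5 → Kˣ), (∀ i, (x i : K) = cv α γ r p t s i) → mr x ≤ 2 →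
      (∃ a : Fin 3 → ℤ, a ≠ 0 ∧
        ∏ j, (algebraMap L K (γ j) * (t - algebraMap L K (α j))) ^ a j = 1) ∧ ht t ≤ B ∧
      (ht s ≤ B ∨ (minpoly L t).natDegree ≤ D₁) := by
  obtain ⟨C₁, -, h1⟩ := one_rel α γ hα hγ
  have hinj : Function.Injective (![0, -p / r] : Fin 2 → L) := by
    have hne : (0 : L) ≠ -p / r := (div_ne_zero (neg_ne_zero.2 hp) hr).symm
    intro i j hij
    fin_cases i <;> fin_cases j
    · rfl
    · exact absurd hij hne
    · exact absurd hij.symm hne
    · rfl
  have hκ : ∀ j, (![1, r] : Fin 2 → L) j ≠ 0 := by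
    intro j
    fin_cases j
    · exact one_ne_zero
    · exact hr
  obtain ⟨C₂, -, h2⟩ := one_rel (![0, -p / r] : Fin 2 → L) (![1, r] : Fin 2 → L) hinj hκ
  obtain ⟨B₁, D₁, h3⟩ := clus α γ r p hα hγ hr hp τ hNA
  refine ⟨max C₁ (max C₂ B₁), D₁, ?_⟩
  intro K _ _ _ t s x hx hmr
  have hxe : x = ![(![x 0, x 1, x 2] : Fin 3 → Kˣ) 0, (![x 0, x 1, x 2] : Fin 3 → Kˣ) 1,
      (![x 0, x 1, x 2] : Fin 3 → Kˣ) 2, x 3, x 4] := by
    funext i
    fin_cases i <;> rfl
  have hcv : ∀ j : Fin 3, (((![x 0, x 1, x 2] : Fin 3 → Kˣ) j : Kˣ) : K) =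
      algebraMap L K (γ j) * (t - algebraMap L K (α j)) := by
    intro j
    fin_cases j
    · exact hx 0
    · exact hx 1
    · exact hx 2
  have hs : ((x 3 : Kˣ) : K) = s := hx 3
  have hw : ((x 4 : Kˣ) : K) = algebraMap L K r * s + algebraMap L K p := hx 4
  have ht0 : ∀ j, t ≠ algebraMap L K (α j) := by
    intro j hj
    have h4 := hcv j
    rw [hj, sub_self, mul_zero] at h4
    exact Units.ne_zero _ h4
  have hs0 : s ≠ 0 := by
    rw [← hs]
    exact Units.ne_zero _
  have hw0 : algebraMap L K r * s + algebraMap L K p ≠ 0 := by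
    rw [← hw]
    exact Units.ne_zero _
  rw [hxe] at hmr
  obtain ⟨⟨a, ha, hprod⟩, hcase⟩ := cases5 (![x 0, x 1, x 2] : Fin 3 → Kˣ) (x 3) (x 4) hmr
  have hrel : ∏ j, (algebraMap L K (γ j) * (t - algebraMap L K (α j))) ^ a j = 1 := by
    have h5 := congrArg (fun u : Kˣ => (u : K)) hprod
    simp only [Units.coe_prod, Units.val_zpow_eq_zpow_val, Units.val_one] at h5
    rw [← h5]
    exact Finset.prod_congr rfl fun j _ => by rw [hcv j]
  refine ⟨⟨a, ha, hrel⟩, (h1 K t ht0 a ha hrel).trans (le_max_left _ _), ?_⟩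
  rcases hcase with ⟨b, hb, hb1⟩ | hcl
  · left
    have h6 : ht s ≤ C₂ := by
      refine h2 K s ?_ b hb ?_
      · intro j
        fin_cases j
        · show s ≠ algebraMap L K 0
          rw [map_zero]
          exact hs0
        · show s ≠ algebraMap L K (-p / r)
          intro h7
          apply hw0
          rw [h7, map_div₀, map_neg]
          have hr' : algebraMap L K r ≠ 0 := (map_ne_zero_iff _ (algebraMap L K).injective).2 hr
          field_simp
          ring
      · rw [Fin.prod_univ_two]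
        show (algebraMap L K 1 * (s - algebraMap L K 0)) ^ b 0 *
          (algebraMap L K r * (s - algebraMap L K (-p / r))) ^ b 1 = 1
        have hr' : algebraMap L K r ≠ 0 := (map_ne_zero_iff _ (algebraMap L K).injective).2 hr
        have e1 : algebraMap L K 1 * (s - algebraMap L K 0) = s := by
          rw [map_one, map_zero, sub_zero, one_mul]
        have e2 : algebraMap L K r * (s - algebraMap L K (-p / r)) =
            algebraMap L K r * s + algebraMap L K p := by
          rw [map_div₀, map_neg]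
          field_simp
          ring
        rw [e1, e2]
        have h5 := congrArg (fun u : Kˣ => (u : K)) hb1
        simp only [Units.val_mul, Units.val_zpow_eq_zpow_val, Units.val_one] at h5
        rw [hs, hw] at h5
        exact h5
    exact h6.trans ((le_max_left _ _).trans (le_max_right _ _))
  · have h8 := h3 K t s ht0 hs0 hw0 ⟨a, ha, hrel⟩ (by
      intro j
      obtain ⟨n, hn, A, B, hAB⟩ := hcl j
      refine ⟨n, hn, A, B, ?_⟩
      have h5 := congrArg (fun u : Kˣ => (u : K)) hAB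
      simp only [Units.val_mul, Units.val_zpow_eq_zpow_val, Units.val_pow_eq_pow_val] at h5
      rw [hcv j, hs, hw] at h5
      exact h5)
    rcases h8 with h9 | h9
    · exact Or.inl (h9.trans ((le_max_right _ _).trans (le_max_right _ _)))
    · exact Or.inr h9

end BMF
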