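import Mathlib

open NumberField

namespace BMF

/-- places of a number field: complex embeddings and finite places -/
abbrev Pl (K : Type) [Field K] [NumberField K] : Type := (K →+* ℂ) ⊕ FinitePlace K

variable {K : Type} [Field K] [NumberField K]

/-- the absolute value of a place (normalised as in the product formula over all complex
embeddings and all finite places) -/
noncomputable def av (v : Pl K) : AbsoluteValue K ℝ :=
  Sum.elim (fun σ => NumberField.place σ) (fun w => w.val) v

/-- `log |x|_v` -/
noncomputable def lg (v : Pl K) (x : K) : ℝ := Real.log (av v x)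

/-- finite support -/
def FS (f : Pl K → ℝ) : Prop := f.support.Finite

/-- normalised sum over all places -/
noncomputable def tot (f : Pl K → ℝ) : ℝ := (∑ᶠ v, f v) / (Module.finrank ℚ K : ℝ)

/-- absolute logarithmic height of an element of a number field -/
noncomputable def ht (x : K) : ℝ := tot fun v => max (lg v x) 0

theorem av_inl (σ : K →+* ℂ) (x : K) : av (.inl σ) x = ‖σ x‖ := rfl

theorem av_inr (w : FinitePlace K) (x : K) : av (.inr w) x = w x := rfl

theorem av_pos (v : Pl K) {x : K} (hx : x ≠ 0) : 0 < av v x := (av v).pos hx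

theorem av_inr_add_le (w : FinitePlace K) (x y : K) :
    av (.inr w) (x + y) ≤ max (av (.inr w) x) (av (.inr w) y) := FinitePlace.add_le w x y

theorem lg_mul (v : Pl K) {x y : K} (hx : x ≠ 0) (hy : y ≠ 0) :
    lg v (x * y) = lg v x + lg v y := by
  unfold lg
  rw [map_mul, Real.log_mul (av_pos v hx).ne' (av_pos v hy).ne']

theorem lg_inv (v : Pl K) (x : K) : lg v x⁻¹ = - lg v x := by
  unfold lg
  rw [map_inv₀, Real.log_inv]

theorem lg_div (v : Pl K) {x y : K} (hx : x ≠ 0) (hy : y ≠ 0) :
    lg v (x / y) = lg v x - lg v y := by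
  rw [div_eq_mul_inv, lg_mul v hx (inv_ne_zero hy), lg_inv]; ring

theorem lg_zpow (v : Pl K) (x : K) (n : ℤ) : lg v (x ^ n) = n * lg v x := by
  unfold lg
  rw [map_zpow₀, Real.log_zpow]

theorem lg_pow (v : Pl K) (x : K) (n : ℕ) : lg v (x ^ n) = n * lg v x := by
  unfold lg
  rw [map_pow, Real.log_pow]

theorem lg_one (v : Pl K) : lg v (1 : K) = 0 := by
  unfold lg
  rw [map_one, Real.log_one]

theorem lg_neg (v : Pl K) (x : K) : lg v (-x) = lg v x := by
  unfold lg
  rw [(av v).map_neg]

theorem finrank_pos : (0 : ℝ) < (Module.finrank ℚ K : ℝ) := by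
  exact_mod_cast Module.finrank_pos

theorem FS.zero : FS (fun _ : Pl K => 0) := by
  simp [FS]

theorem FS.add {f g : Pl K → ℝ} (hf : FS f) (hg : FS g) : FS fun v => f v + g v :=
  (hf.union hg).subset (Function.support_add f g)

theorem FS.sub {f g : Pl K → ℝ} (hf : FS f) (hg : FS g) : FS fun v => f v - g v :=
  (hf.union hg).subset (Function.support_sub f g)

theorem FS.mono {f g : Pl K → ℝ} (hf : FS f) (h : ∀ v, f v = 0 → g v = 0) : FS g :=
  hf.subset fun v hv => fun h0 => hv (h v h0)

theorem FS.const_mul {f : Pl K → ℝ} (hf : FS f) (c : ℝ) : FS fun v => c * f v :=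
  hf.mono fun v h => by simp [h]

theorem FS.neg {f : Pl K → ℝ} (hf : FS f) : FS fun v => - f v :=
  hf.mono fun v h => by simp [h]

theorem FS.abs {f : Pl K → ℝ} (hf : FS f) : FS fun v => |f v| :=
  hf.mono fun v h => by simp [h]

theorem FS.max {f g : Pl K → ℝ} (hf : FS f) (hg : FS g) : FS fun v => max (f v) (g v) := by
  refine (hf.union hg).subset fun v hv => ?_
  by_contra hc
  simp only [Set.mem_union, Function.mem_support, not_or, not_not] at hc
  exact hv (by simp [hc.1, hc.2])

theorem FS.sum {ι : Type*} (s : Finset ι) {f : ι → Pl K → ℝ} (hf : ∀ i ∈ s, FS (f i)) :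
    FS fun v => ∑ i ∈ s, f i v := by
  classical
  induction s using Finset.induction_on with
  | empty => simpa using! FS.zero
  | insert a s ha ih =>
    simp only [Finset.sum_insert ha]
    exact (hf a (Finset.mem_insert_self _ _)).add
      (ih fun i hi => hf i (Finset.mem_insert_of_mem hi))

/-- functions supported at the complex embeddings -/
theorem FS.inf (f : Pl K → ℝ) (h : ∀ w : FinitePlace K, f (.inr w) = 0) : FS f := by
  refine (Set.finite_range (Sum.inl : (K →+* ℂ) → Pl K)).subset fun v hv => ?_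
  rcases v with σ | w
  · exact ⟨σ, rfl⟩
  · exact absurd (h w) hv

theorem tot_add {f g : Pl K → ℝ} (hf : FS f) (hg : FS g) :
    tot (fun v => f v + g v) = tot f + tot g := by
  unfold tot
  rw [finsum_add_distrib hf hg, add_div]

theorem tot_sub {f g : Pl K → ℝ} (hf : FS f) (hg : FS g) :
    tot (fun v => f v - g v) = tot f - tot g := by
  unfold tot
  rw [finsum_sub_distrib hf hg, sub_div]

theorem tot_const_mul (c : ℝ) (f : Pl K → ℝ) :
    tot (fun v => c * f v) = c * tot f := by
  unfold tot
  have := smul_finsum c f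
  simp only [smul_eq_mul] at this
  rw [← this, mul_div_assoc]

theorem tot_neg (f : Pl K → ℝ) : tot (fun v => - f v) = - tot f := by
  unfold tot
  rw [finsum_neg_distrib, neg_div]

theorem tot_mono {f g : Pl K → ℝ} (hf : FS f) (hg : FS g) (h : ∀ v, f v ≤ g v) :
    tot f ≤ tot g := by
  unfold tot
  exact div_le_div_of_nonneg_right (finsum_le_finsum' hf hg h) finrank_pos.le

theorem tot_nonneg {f : Pl K → ℝ} (h : ∀ v, 0 ≤ f v) : 0 ≤ tot f := by
  unfold tot
  exact div_nonneg (finsum_nonneg h) finrank_pos.le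

theorem tot_sum {ι : Type*} (s : Finset ι) {f : ι → Pl K → ℝ} (hf : ∀ i ∈ s, FS (f i)) :
    tot (fun v => ∑ i ∈ s, f i v) = ∑ i ∈ s, tot (f i) := by
  classical
  induction s using Finset.induction_on with
  | empty => simp [tot]
  | insert a s ha ih =>
    simp only [Finset.sum_insert ha]
    rw [tot_add (hf a (Finset.mem_insert_self _ _))
      (FS.sum s fun i hi => hf i (Finset.mem_insert_of_mem hi)),
      ih fun i hi => hf i (Finset.mem_insert_of_mem hi)]

/-- a constant at every complex embedding and `0` at the finite places -/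
theorem tot_inf_const (c : ℝ) :
    tot (fun v : Pl K => Sum.elim (fun _ => c) (fun _ => 0) v) = c := by
  unfold tot
  rw [finsum_eq_finsetSum_of_support_subset (s := (Finset.univ : Finset (K →+* ℂ)).map
    ⟨Sum.inl, Sum.inl_injective⟩)]
  · rw [Finset.sum_map]
    simp only [Function.Embedding.coeFn_mk, Sum.elim_inl, Finset.sum_const, Finset.card_univ,
      nsmul_eq_mul, NumberField.Embeddings.card]
    field_simp [finrank_pos.ne']
  · intro v hv
    rcases v with σ | w
    · simp
    · simp at hv

/-- one place is bounded by the total -/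
theorem le_tot {f : Pl K → ℝ} (hf : FS f) (h : ∀ v, 0 ≤ f v) (v : Pl K) :
    f v ≤ (Module.finrank ℚ K : ℝ) * tot f := by
  unfold tot
  rw [mul_div_cancel₀ _ finrank_pos.ne']
  exact single_le_finsum v hf h

theorem fs_lg {x : K} (hx : x ≠ 0) : FS fun v => lg v x := by
  have h := FinitePlace.hasFiniteMulSupport hx
  refine ((Set.finite_range (Sum.inl : (K →+* ℂ) → Pl K)).union
    (h.image (Sum.inr : FinitePlace K → Pl K))).subset fun v hv => ?_
  rcases v with σ | w
  · exact Or.inl ⟨σ, rfl⟩
  · refine Or.inr ⟨w, fun h1 => hv ?_, rfl⟩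
    have h2 : w x = 1 := h1
    change Real.log (w x) = 0
    rw [h2, Real.log_one]

theorem finsum_split {f : Pl K → ℝ} (hf : FS f) :
    ∑ᶠ v, f v = (∑ σ : K →+* ℂ, f (.inl σ)) + ∑ᶠ w : FinitePlace K, f (.inr w) := by
  classical
  have hr : (Function.support fun w : FinitePlace K => f (.inr w)).Finite := by
    refine Set.Finite.of_finite_image (f := (Sum.inr : FinitePlace K → Pl K)) ?_
      Sum.inr_injective.injOn
    refine hf.subset ?_
    rintro _ ⟨w, hw, rfl⟩
    exact hw
  have h1 : f = fun v => Sum.elim (fun σ => f (.inl σ)) (fun _ => 0) v +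
      Sum.elim (fun _ => 0) (fun w => f (.inr w)) v := by
    funext v
    rcases v with σ | w <;> simp
  have e1 : ∑ᶠ v : Pl K, Sum.elim (fun σ => f (.inl σ)) (fun _ => (0 : ℝ)) v
      = ∑ σ : K →+* ℂ, f (.inl σ) := by
    rw [finsum_eq_finsetSum_of_support_subset (s := (Finset.univ : Finset (K →+* ℂ)).map
      ⟨Sum.inl, Sum.inl_injective⟩)]
    · simp
    · intro v hv
      rcases v with σ | w
      · simp
      · simp at hv
  have e2 : ∑ᶠ v : Pl K, Sum.elim (fun _ => (0 : ℝ)) (fun w => f (.inr w)) v
      = ∑ᶠ w : FinitePlace K, f (.inr w) := by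
    rw [finsum_eq_finsetSum_of_support_subset (s := hr.toFinset.map
      ⟨Sum.inr, Sum.inr_injective⟩),
      finsum_eq_finsetSum_of_support_subset (s := hr.toFinset)]
    · simp
    · simp
    · intro v hv
      rcases v with σ | w
      · simp at hv
      · simpa using hv
  conv_lhs => rw [h1]
  rw [finsum_add_distrib, e1, e2]
  · exact FS.inf _ fun w => rfl
  · refine (hr.image Sum.inr).subset fun v hv => ?_
    rcases v with σ | w
    · simp at hv
    · exact ⟨w, hv, rfl⟩

theorem sum_emb (g : InfinitePlace K → ℝ) :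
    ∑ σ : K →+* ℂ, g (InfinitePlace.mk σ) = ∑ w : InfinitePlace K, (w.mult : ℝ) * g w := by
  classical
  rw [← Finset.sum_fiberwise_of_maps_to (g := InfinitePlace.mk) (t := Finset.univ)
    (fun _ _ => Finset.mem_univ _)]
  refine Finset.sum_congr rfl fun w _ => ?_
  rw [Finset.sum_congr rfl (g := fun _ => g w), Finset.sum_const,
    InfinitePlace.card_filter_mk_eq, nsmul_eq_mul]
  intro σ hσ
  rw [(Finset.mem_filter.1 hσ).2]

/-- product formula -/
theorem tot_lg {x : K} (hx : x ≠ 0) : tot (fun v => lg v x) = 0 := by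
  unfold tot
  rw [finsum_split (fs_lg hx)]
  have h := NumberField.prod_abs_eq_one hx
  have e1 : ∑ σ : K →+* ℂ, lg (.inl σ) x
      = Real.log (∏ w : InfinitePlace K, w x ^ w.mult) := by
    rw [Real.log_prod fun w _ => (pow_pos (InfinitePlace.pos_iff.2 hx) _).ne']
    simp only [Real.log_pow]
    exact sum_emb fun w => Real.log (w x)
  have e2 : ∑ᶠ w : FinitePlace K, lg (.inr w) x
      = Real.log (∏ᶠ w : FinitePlace K, w x) := by
    have hs : (Function.mulSupport fun w : FinitePlace K => w x).Finite :=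
      FinitePlace.hasFiniteMulSupport hx
    rw [finprod_eq_finsetProd_of_mulSupport_subset (s := hs.toFinset) _ (by simp),
      Real.log_prod fun w _ => (FinitePlace.pos_iff.2 hx).ne',
      finsum_eq_finsetSum_of_support_subset (s := hs.toFinset)]
    · rfl
    · intro w hw
      simp only [Set.Finite.coe_toFinset, Function.mem_mulSupport]
      intro h1
      refine hw ?_
      change Real.log (w x) = 0
      rw [h1, Real.log_one]
  rw [e1, e2, ← Real.log_mul, h]
  · simp
  · exact Finset.prod_ne_zero_iff.2 fun w _ => (pow_pos (InfinitePlace.pos_iff.2 hx) _).ne'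
  · intro h0
    rw [h0, mul_zero] at h
    exact zero_ne_one h

theorem fs_ht (x : K) : FS fun v => max (lg v x) 0 := by
  rcases eq_or_ne x 0 with rfl | hx
  · refine FS.zero.mono fun v _ => ?_
    simp [lg]
  · exact (fs_lg hx).max FS.zero

theorem ht_eq (x : K) : ht x = Height.logHeight₁ x / (Module.finrank ℚ K : ℝ) := by
  unfold ht tot
  rw [finsum_split (fs_ht x), NumberField.logHeight₁_eq]
  congr 2
  · have := sum_emb fun w : InfinitePlace K => Real.posLog (w x)
    rw [← this]
    refine Finset.sum_congr rfl fun σ _ => ?_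
    rw [Real.posLog_def, max_comm]
    rfl
  · refine finsum_congr fun w => ?_
    rw [Real.posLog_def, max_comm]
    rfl

theorem ht_nonneg (x : K) : 0 ≤ ht x := tot_nonneg fun _ => le_max_right _ _

theorem ht_zero : ht (0 : K) = 0 := by
  simp [ht, lg, tot]

theorem ht_one : ht (1 : K) = 0 := by
  simp [ht, lg, tot]

theorem ht_inv (x : K) : ht x⁻¹ = ht x := by
  rw [ht_eq, ht_eq, Height.logHeight₁_inv]

theorem ht_neg (x : K) : ht (-x) = ht x := by
  rw [ht_eq, ht_eq, Height.logHeight₁_neg]

theorem ht_mul_le (x y : K) : ht (x * y) ≤ ht x + ht y := by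
  rw [ht_eq, ht_eq, ht_eq, ← add_div]
  exact div_le_div_of_nonneg_right (Height.logHeight₁_mul_le x y) finrank_pos.le

theorem ht_pow (x : K) (n : ℕ) : ht (x ^ n) = n * ht x := by
  rw [ht_eq, ht_eq, Height.logHeight₁_pow, mul_div_assoc]

theorem ht_zpow (x : K) (n : ℤ) : ht (x ^ n) = |(n : ℝ)| * ht x := by
  rw [ht_eq, ht_eq, Height.logHeight₁_zpow, mul_div_assoc, Nat.cast_natAbs, Int.cast_abs]

theorem ht_add_le (x y : K) : ht (x + y) ≤ ht x + ht y + Real.log 2 := by
  rw [ht_eq, ht_eq, ht_eq, ← add_div, div_add' _ _ _ finrank_pos.ne']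
  refine div_le_div_of_nonneg_right ((Height.logHeight₁_add_le x y).trans_eq ?_) finrank_pos.le
  rw [NumberField.totalWeight_eq_finrank]
  ring

theorem ht_sub_le (x y : K) : ht (x - y) ≤ ht x + ht y + Real.log 2 := by
  rw [sub_eq_add_neg, ← ht_neg y]; exact ht_add_le x (-y)

theorem tot_abs_lg {x : K} (hx : x ≠ 0) : tot (fun v => |lg v x|) = 2 * ht x := by
  have h : (fun v => |lg v x|) = fun v => 2 * max (lg v x) 0 - lg v x := by
    funext v
    rcases le_total (lg v x) 0 with h | h
    · rw [abs_of_nonpos h, max_eq_right h]; ring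
    · rw [abs_of_nonneg h, max_eq_left h]; ring
  rw [h, tot_sub ((fs_ht x).const_mul 2) (fs_lg hx), tot_lg hx, tot_const_mul]
  simp [ht]

/-- Liouville: one place is bounded by the height -/
theorem abs_lg_le (v : Pl K) {x : K} (hx : x ≠ 0) :
    |lg v x| ≤ 2 * (Module.finrank ℚ K : ℝ) * ht x := by
  have := le_tot (fs_lg hx).abs (fun _ => abs_nonneg _) v
  rw [tot_abs_lg hx] at this
  linarith

end BMF
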