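import Pool.Agent.Lib.MP_a325a5_ag.F.Hn

open NumberField MvPolynomial

namespace BMF

variable {K : Type} [Field K] [NumberField K]

/-- height zero means root of unity (Kronecker) -/
theorem ht_eq_zero {x : K} (hx : x ≠ 0) (h : ht x = 0) : ∃ n : ℕ, 0 < n ∧ x ^ n = 1 := by
  obtain ⟨S, hS, hS'⟩ := northcott (Module.finrank ℚ K) 0
  obtain ⟨σ⟩ : Nonempty (K →+* ℂ) := inferInstance
  have h1 : ∀ j : ℕ, σ (x ^ j) ∈ S := fun j => hS' K le_rfl (x ^ j) (by rw [ht_pow, h, mul_zero]) σ
  have h2 : ¬ Function.Injective (fun j : ℕ => σ (x ^ j)) := by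
    intro hinj
    have h3 : (Set.range fun j : ℕ => σ (x ^ j)).Infinite := Set.infinite_range_of_injective hinj
    exact h3 (hS.subset (by rintro _ ⟨j, rfl⟩; exact h1 j))
  have key : ∀ i j : ℕ, i < j → x ^ i = x ^ j → ∃ n : ℕ, 0 < n ∧ x ^ n = 1 := by
    intro i j hij he
    refine ⟨j - i, by omega, ?_⟩
    have h4 : x ^ i * x ^ (j - i) = x ^ i * 1 := by
      rw [← pow_add, mul_one, Nat.add_sub_cancel' hij.le]
      exact he.symm
    exact mul_left_cancel₀ (pow_ne_zero _ hx) h4
  simp only [Function.Injective, not_forall] at h2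
  obtain ⟨i, j, he, hne⟩ := h2
  have he' : x ^ i = x ^ j := σ.injective he
  rcases lt_or_gt_of_ne hne with hij | hij
  · exact key i j hij he'
  · exact key j i hij he'.symm

end BMF
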