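import Pool.Agent.Lib.MP_a325a5_ag.F.A11
import Pool.Agent.Lib.MP_a325a5_ag.F.E3

open NumberField MvPolynomial

namespace BMF

variable {M : ℕ} {k K : Type} [Field k] [NumberField k] [Field K] [NumberField K] [Algebra k K]

/-- a subset of given size with small sum -/
theorem l2_choose {α : Type} (P : Finset α) (e : α → ℕ) (t : ℕ) (ht : t ≤ P.card) :
    ∃ Q ⊆ P, Q.card = t ∧ P.card * ∑ q ∈ Q, e q ≤ t * ∑ q ∈ P, e q := by
  classical
  obtain ⟨n, hn⟩ : ∃ n, n = P.card - t := ⟨_, rfl⟩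
  induction n generalizing P with
  | zero =>
    have h1 : P.card = t := by omega
    exact ⟨P, subset_rfl, h1, by rw [h1]⟩
  | succ n ih =>
    have hne : P.Nonempty := by
      rw [← Finset.card_pos]; omega
    obtain ⟨p, hp, hmax⟩ := P.exists_max_image e hne
    have hc : (P.erase p).card = P.card - 1 := Finset.card_erase_of_mem hp
    obtain ⟨Q, hQ, hQc, hQs⟩ := ih (P.erase p) (by omega) (by omega)
    refine ⟨Q, hQ.trans (Finset.erase_subset _ _), hQc, ?_⟩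
    have hsum : ∑ q ∈ P, e q = e p + ∑ q ∈ P.erase p, e q := (Finset.add_sum_erase P e hp).symm
    have hle : ∑ q ∈ P.erase p, e q ≤ (P.erase p).card * e p := by
      have := Finset.sum_le_card_nsmul (P.erase p) e (e p)
        (fun x hx => hmax x (Finset.mem_of_mem_erase hx))
      simpa using this
    obtain ⟨c, hcc⟩ : ∃ c, c = (P.erase p).card := ⟨_, rfl⟩
    obtain ⟨s, hs⟩ : ∃ s, s = ∑ q ∈ P.erase p, e q := ⟨_, rfl⟩
    obtain ⟨u, hu⟩ : ∃ u, u = ∑ q ∈ Q, e q := ⟨_, rfl⟩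
    rw [← hs, ← hcc] at hle
    rw [← hs, ← hu, ← hcc] at hQs
    rw [hsum, ← hs, ← hu]
    have hPc : P.card = c + 1 := by omega
    rw [hPc]
    rcases Nat.eq_zero_or_pos c with h0 | h0
    · have ht0 : t = 0 := by
        have := Finset.card_le_card hQ
        omega
      have hu0 : u = 0 := by
        rw [hu]
        have : Q = ∅ := by
          rw [← Finset.card_eq_zero]; omega
        rw [this, Finset.sum_empty]
      rw [hu0, ht0]; simp
    · have h1 : c * ((c + 1) * u) ≤ c * (t * (e p + s)) := by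
        calc c * ((c + 1) * u) = (c + 1) * (c * u) := by ring
          _ ≤ (c + 1) * (t * s) := Nat.mul_le_mul_left _ hQs
          _ = t * (c * s + s) := by ring
          _ ≤ t * (c * s + c * e p) := Nat.mul_le_mul_left _ (Nat.add_le_add_left hle _)
          _ = c * (t * (e p + s)) := by ring
      exact Nat.le_of_mul_le_mul_left h1 h0

/-- representatives of the irreducible factors -/
theorem l2_factors {k : Type} [Field k] {A : P2 k} (hA : A ≠ 0) : ∃ R : Finset (P2 k),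
    (∀ Y ∈ R, Irreducible Y ∧ Y ∣ A) ∧ (∀ Y ∈ R, ∀ Y' ∈ R, Associated Y Y' → Y = Y') ∧
    ∀ (F : Type) [Field F] (φ : P2 k →+* F), φ A = 0 → ∃ Y ∈ R, φ Y = 0 := by
  classical
  obtain ⟨r, hr⟩ : ∃ r : P2 k → P2 k, r = fun Y => Quot.out (Associates.mk Y) := ⟨_, rfl⟩
  have hra : ∀ Y, Associated (r Y) Y := fun Y => by rw [hr]; exact Associates.mk_quot_out Y
  have hrr : ∀ Y Y', Associated Y Y' → r Y = r Y' := by
    intro Y Y' h
    rw [hr]
    simp only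
    rw [Associates.mk_eq_mk_iff_associated.2 h]
  refine ⟨((UniqueFactorizationMonoid.factors A).map r).toFinset, ?_, ?_, ?_⟩
  · intro Y hY
    rw [Multiset.mem_toFinset, Multiset.mem_map] at hY
    obtain ⟨W, hW, rfl⟩ := hY
    exact ⟨(hra W).irreducible_iff.2 (UniqueFactorizationMonoid.irreducible_of_factor W hW),
      (hra W).dvd.trans (UniqueFactorizationMonoid.dvd_of_mem_factors hW)⟩
  · intro Y hY Y' hY' h
    rw [Multiset.mem_toFinset, Multiset.mem_map] at hY hY'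
    obtain ⟨W, hW, rfl⟩ := hY
    obtain ⟨W', hW', rfl⟩ := hY'
    exact hrr W W' ((hra W).symm.trans (h.trans (hra W')))
  · intro F _ φ hφ
    obtain ⟨u, hu⟩ := UniqueFactorizationMonoid.factors_prod hA
    have h1 : φ (UniqueFactorizationMonoid.factors A).prod = 0 := by
      rw [← hu, map_mul] at hφ
      rcases mul_eq_zero.1 hφ with h | h
      · exact h
      · exact absurd h (u.isUnit.map φ).ne_zero
    rw [map_multiset_prod, Multiset.prod_eq_zero_iff, Multiset.mem_map] at h1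
    obtain ⟨W, hW, hW0⟩ := h1
    refine ⟨r W, ?_, ?_⟩
    · rw [Multiset.mem_toFinset, Multiset.mem_map]
      exact ⟨W, hW, rfl⟩
    · obtain ⟨v, hv⟩ := hra W
      rw [← hv, map_mul] at hW0
      rcases mul_eq_zero.1 hW0 with h | h
      · exact h
      · exact absurd h (v.isUnit.map φ).ne_zero

theorem l2_wt_prod {k : Type} [Field k] (L : Fin 2 → ℕ) (S : Finset (P2 k)) (hS : ∀ Y ∈ S, Y ≠ 0) :
    wt L (∏ Y ∈ S, Y) = ∑ Y ∈ S, wt L Y := by
  classical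
  induction S using Finset.induction_on with
  | empty =>
    rw [Finset.prod_empty, Finset.sum_empty]
    unfold wt
    rw [degreeOf_one, degreeOf_one]
    simp
  | insert a S ha ih =>
    rw [Finset.prod_insert ha, Finset.sum_insert ha, wt_mul L (hS a (Finset.mem_insert_self _ _)) ?_,
      ih fun Y hY => hS Y (Finset.mem_insert_of_mem hY)]
    rw [Finset.prod_ne_zero_iff]
    exact fun Y hY => hS Y (Finset.mem_insert_of_mem hY)

theorem l2_psi_ne_zero {k : Type} [Field k] (φ : k →+* k) {p : ℕ} (hp : 0 < p) {B : P2 k}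
    (hB : B ≠ 0) : psi φ p B ≠ 0 := by
  unfold psi
  rw [expand_ne_zero hp]
  intro h
  apply hB
  apply MvPolynomial.map_injective φ φ.injective
  rw [h, map_zero]

/-- the weights of non associated irreducible divisors -/
theorem l2_sum_wt {k : Type} [Field k] (L : Fin 2 → ℕ) {A : P2 k} (hA : A ≠ 0) (R : Finset (P2 k))
    (hR : ∀ Y ∈ R, Irreducible Y ∧ Y ∣ A) (hR2 : ∀ Y ∈ R, ∀ Y' ∈ R, Associated Y Y' → Y = Y') :
    ∑ Y ∈ R, wt L Y ≤ wt L A := by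
  rw [← l2_wt_prod L R fun Y hY => (hR Y hY).1.ne_zero]
  apply wt_mono_dvd L hA
  apply Finset.prod_dvd_of_isRelPrime (s := fun Y => Y)
  · intro Y hY Y' hY' hne
    rw [Function.onFun]
    rw [(hR Y hY).1.isRelPrime_iff_not_dvd]
    intro hd
    exact hne (hR2 Y hY Y' hY' ((hR Y hY).1.associated_of_dvd (hR Y' hY').1 hd))
  · exact fun Y hY => (hR Y hY).2

open Classical in
/-- one step of the descent -/
theorem descent_step (Z : Cyc M k) (g : Fin 2 → K) (hg : g 0 ≠ 0)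
    (hnt : ∀ n : ℕ, 0 < n → g 0 ^ n ≠ 1) (L : Fin 2 → ℕ) {X D C2 : ℝ} (hX : 1 ≤ X) (hD : 4 ≤ D)
    (hLm : ((L 0 : ℝ) + 1) * ((L 1 : ℝ) + 1) ≤ C2 * dg k g 1)
    (hLD : ∀ i, 8 * X * ((L i : ℝ) + 1) ≤ D ^ 3)
    (P MM : Finset ℕ) (t : ℕ) (ht : t ≤ P.card) (ht0 : 0 < t)
    (hc : 40 * Real.log D ≤ t * Real.log X)
    (hP : ∀ q ∈ P, q.Prime ∧ ¬ q ∣ M ∧ X < q ∧ (q : ℝ) ≤ 8 * X)
    (hM : ∀ m ∈ MM, 0 < m ∧ m.Coprime M ∧ dg k g m = dg k g 1)
    {B : P2 k} (hB : B ≠ 0) (hwB : wt L B ≤ 1)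
    (hline : ∀ Y : P2 k, Y ≠ 0 → LineSupp Y → wt L Y ≤ 8 * X →
      ∀ m ∈ MM, ev (Z.fr m) m g Y ≠ 0) :
    ∃ B' : P2 k, B' ≠ 0 ∧ wt L B' ≤ 2 / Real.sqrt X * wt L B ∧
      ((MM.filter fun m => ev (Z.fr m) m g B' ≠ 0).card : ℝ) ≤
        t * ((MM ×ˢ P).filter fun x : ℕ × ℕ =>
          ev (Z.fr (x.1 * x.2)) (x.1 * x.2) g B ≠ 0).card / P.card +
        64 * X ^ 2 * C2 * wt L B ^ 2 := by
  have hX0 : (0 : ℝ) < X := lt_of_lt_of_le one_pos hX
  obtain ⟨e, he⟩ : ∃ e : ℕ → ℕ, e = fun q =>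
    (MM.filter fun m => ev (Z.fr (m * q)) (m * q) g B ≠ 0).card := ⟨_, rfl⟩
  obtain ⟨Q, hQP, hQc, hQs⟩ := l2_choose P e t ht
  have hsumP : ∑ q ∈ P, e q = ((MM ×ˢ P).filter fun x : ℕ × ℕ =>
      ev (Z.fr (x.1 * x.2)) (x.1 * x.2) g B ≠ 0).card := by
    rw [Finset.card_filter, Finset.sum_product_right]
    refine Finset.sum_congr rfl fun q _ => ?_
    rw [he]
    simp only
    rw [Finset.card_filter]
  have hQne : Q.Nonempty := by rw [← Finset.card_pos, hQc]; exact ht0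
  obtain ⟨q0, hq0⟩ := hQne
  obtain ⟨hq0p, hq0M, hq0X, hq0X8⟩ := hP q0 (hQP hq0)
  obtain ⟨A, hAe⟩ : ∃ A : P2 k, A = psi (Z.fr q0) q0 B := ⟨_, rfl⟩
  have hA : A ≠ 0 := by rw [hAe]; exact l2_psi_ne_zero _ hq0p.pos hB
  have hwA : wt L A ≤ 8 * X * wt L B := by
    rw [hAe, wt_psi L _ q0 hq0p.pos]
    exact mul_le_mul_of_nonneg_right hq0X8 (wt_nonneg L B)
  obtain ⟨R, hR1, hR2, hR3⟩ := l2_factors hA
  have hwR := l2_sum_wt L hA R hR1 hR2
  obtain ⟨S, hSe⟩ : ∃ S : Finset (P2 k), S = R.filter (fun Y => (∀ q ∈ Q, Y ∣ psi (Z.fr q) q B) ∧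
    ∃ m ∈ MM, ev (Z.fr m) m g Y = 0) := ⟨_, rfl⟩
  have hS : ∀ Y ∈ S, Irreducible Y ∧ ¬ LineSupp Y ∧ ∀ q ∈ Q, Y ∣ psi (Z.fr q) q B := by
    intro Y hY
    rw [hSe, Finset.mem_filter] at hY
    obtain ⟨hYR, hYd, m, hm, hm0⟩ := hY
    refine ⟨(hR1 Y hYR).1, ?_, hYd⟩
    intro hl
    refine hline Y (hR1 Y hYR).1.ne_zero hl ?_ m hm hm0
    calc wt L Y ≤ wt L A := wt_mono_dvd L hA (hR1 Y hYR).2
      _ ≤ 8 * X * wt L B := hwA
      _ ≤ 8 * X * 1 := mul_le_mul_of_nonneg_left hwB (by positivity)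
      _ = 8 * X := mul_one _
  have hSR : S ⊆ R := by rw [hSe]; exact Finset.filter_subset _ _
  have hdeg : ∀ i, 8 * X * (B.degreeOf i : ℝ) ≤ D ^ 3 := by
    intro i
    refine le_trans (mul_le_mul_of_nonneg_left ?_ (by positivity)) (hLD i)
    have hpos : (0 : ℝ) ≤ (L i : ℝ) + 1 := by positivity
    calc (B.degreeOf i : ℝ) ≤ wt L B * (L i + 1) := degreeOf_le_wt L B i
      _ ≤ 1 * (L i + 1) := mul_le_mul_of_nonneg_right hwB hpos
      _ = (L i : ℝ) + 1 := one_mul _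
  have hK := klemma Z.fr L hX hD Q (fun q hq => ⟨(hP q (hQP hq)).1, (hP q (hQP hq)).2.2.1,
    (hP q (hQP hq)).2.2.2⟩) (by rw [hQc]; exact hc) hB hdeg S hS
    (fun Y hY Y' hY' h => hR2 Y (hSR hY) Y' (hSR hY') h)
  refine ⟨∏ Y ∈ S, Y, ?_, ?_, ?_⟩
  · rw [Finset.prod_ne_zero_iff]
    exact fun Y hY => (hS Y hY).1.ne_zero
  · rw [l2_wt_prod L S fun Y hY => (hS Y hY).1.ne_zero]
    exact hK
  -- the count
  obtain ⟨qq, hqq⟩ : ∃ qq : P2 k → ℕ, ∀ Y, (¬ ∀ q ∈ Q, Y ∣ psi (Z.fr q) q B) →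
      qq Y ∈ Q ∧ ¬ Y ∣ psi (Z.fr (qq Y)) (qq Y) B := by
    have h1 : ∀ Y : P2 k, ∃ q : ℕ, (¬ ∀ q ∈ Q, Y ∣ psi (Z.fr q) q B) →
        q ∈ Q ∧ ¬ Y ∣ psi (Z.fr q) q B := by
      intro Y
      by_cases h : ∀ q ∈ Q, Y ∣ psi (Z.fr q) q B
      · exact ⟨0, fun h' => absurd h h'⟩
      · push Not at h
        obtain ⟨q, hq, hqd⟩ := h
        exact ⟨q, fun _ => ⟨hq, hqd⟩⟩
    choose qq hqq using h1
    exact ⟨qq, hqq⟩
  obtain ⟨R', hR'⟩ : ∃ R' : Finset (P2 k), R' = R.filter (fun Y => ¬ ∀ q ∈ Q, Y ∣ psi (Z.fr q) q B) :=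
    ⟨_, rfl⟩
  obtain ⟨s, hs⟩ : ∃ s : P2 k → Finset ℕ, s = fun Y => MM.filter (fun m =>
    ev (Z.fr m) m g Y = 0 ∧ ev (Z.fr m) m g (psi (Z.fr (qq Y)) (qq Y) B) = 0) := ⟨_, rfl⟩
  have hcov : (MM.filter fun m => ev (Z.fr m) m g (∏ Y ∈ S, Y) ≠ 0) ⊆
      (Q.biUnion fun q => MM.filter fun m => ev (Z.fr (m * q)) (m * q) g B ≠ 0) ∪ R'.biUnion s := by
    intro m hm
    rw [Finset.mem_filter] at hm
    obtain ⟨hmM, hm0⟩ := hm
    rw [Finset.mem_union]
    by_cases hall : ∀ q ∈ Q, ev (Z.fr (m * q)) (m * q) g B = 0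
    · right
      have hpsi : ∀ q ∈ Q, ev (Z.fr m) m g (psi (Z.fr q) q B) = 0 := by
        intro q hq
        rw [ev_psi Z g (hM m hmM).2.1 ?_ B]
        · exact hall q hq
        · exact (Nat.Prime.coprime_iff_not_dvd (hP q (hQP hq)).1).2 (hP q (hQP hq)).2.1
      obtain ⟨Y, hY, hY0⟩ := hR3 K (ev (Z.fr m) m g) (by rw [hAe]; exact hpsi q0 hq0)
      rw [Finset.mem_biUnion]
      have hnd : ¬ ∀ q ∈ Q, Y ∣ psi (Z.fr q) q B := by
        intro hd
        apply hm0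
        rw [map_prod]
        apply Finset.prod_eq_zero (i := Y) _ hY0
        rw [hSe, Finset.mem_filter]
        exact ⟨hY, hd, m, hmM, hY0⟩
      refine ⟨Y, ?_, ?_⟩
      · rw [hR', Finset.mem_filter]
        exact ⟨hY, hnd⟩
      · rw [hs]
        simp only
        rw [Finset.mem_filter]
        exact ⟨hmM, hY0, hpsi _ (hqq Y hnd).1⟩
    · left
      push Not at hall
      obtain ⟨q, hq, hq1⟩ := hall
      rw [Finset.mem_biUnion]
      exact ⟨q, hq, by rw [Finset.mem_filter]; exact ⟨hmM, hq1⟩⟩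
  have hcard : ((MM.filter fun m => ev (Z.fr m) m g (∏ Y ∈ S, Y) ≠ 0).card : ℝ) ≤
      ((∑ q ∈ Q, e q : ℕ) : ℝ) + ∑ Y ∈ R', ((s Y).card : ℝ) := by
    have h1 := Finset.card_le_card hcov
    have h2 := h1.trans (Finset.card_union_le _ _)
    have h3 : (Q.biUnion fun q => MM.filter fun m => ev (Z.fr (m * q)) (m * q) g B ≠ 0).card ≤
        ∑ q ∈ Q, e q := by
      rw [he]
      exact Finset.card_biUnion_le
    have h4 : (R'.biUnion s).card ≤ ∑ Y ∈ R', (s Y).card := Finset.card_biUnion_le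
    have h5 := h2.trans (Nat.add_le_add h3 h4)
    have h6 : ((∑ Y ∈ R', (s Y).card : ℕ) : ℝ) = ∑ Y ∈ R', ((s Y).card : ℝ) := by
      rw [Nat.cast_sum]
    rw [← h6]
    exact_mod_cast h5
  have hPpos : (0 : ℝ) < P.card := by
    have : 0 < P.card := lt_of_lt_of_le ht0 ht
    exact_mod_cast this
  have hfirst : ((∑ q ∈ Q, e q : ℕ) : ℝ) ≤ t * ((MM ×ˢ P).filter fun x : ℕ × ℕ =>
          ev (Z.fr (x.1 * x.2)) (x.1 * x.2) g B ≠ 0).card / P.card := by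
    rw [le_div_iff₀ hPpos, ← hsumP]
    have : ((P.card * ∑ q ∈ Q, e q : ℕ) : ℝ) ≤ ((t * ∑ q ∈ P, e q : ℕ) : ℝ) := by
      exact_mod_cast hQs
    rw [Nat.cast_mul, Nat.cast_mul] at this
    linarith
  have hLpos : (0 : ℝ) < ((L 0 : ℝ) + 1) * ((L 1 : ℝ) + 1) := by positivity
  have hdgpos : (0 : ℝ) < (dg k g 1 : ℝ) := by
    rcases Nat.eq_zero_or_pos (dg k g 1) with h | h
    · rw [h] at hLm
      simp only [Nat.cast_zero, mul_zero] at hLm
      linarith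
    · exact_mod_cast h
  have hsecond : ∑ Y ∈ R', ((s Y).card : ℝ) ≤ 64 * X ^ 2 * C2 * wt L B ^ 2 := by
    have hone : ∀ Y ∈ R', ((s Y).card : ℝ) * dg k g 1 ≤
        ((L 0 : ℝ) + 1) * ((L 1 : ℝ) + 1) * wt L Y * (8 * X * wt L B) := by
      intro Y hY
      rw [hR', Finset.mem_filter] at hY
      obtain ⟨hq1, hq2⟩ := hqq Y hY.2
      have hqpos := (hP _ (hQP hq1)).1.pos
      have h1 := ev_count Z g hg hnt (f := Y) (h := psi (Z.fr (qq Y)) (qq Y) B)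
        (hR1 Y hY.1).1.ne_zero (l2_psi_ne_zero _ hqpos hB)
        ((hR1 Y hY.1).1.isRelPrime_iff_not_dvd.2 hq2) (s Y) (by
          intro m hm
          rw [hs] at hm
          simp only at hm
          rw [Finset.mem_filter] at hm
          exact ⟨(hM m hm.1).1, (hM m hm.1).2.1, (hM m hm.1).2.2, hm.2.1, hm.2.2⟩)
      have h2 : (((s Y).card * dg k g 1 : ℕ) : ℝ) ≤ ((Y.degreeOf 0 *
        (psi (Z.fr (qq Y)) (qq Y) B).degreeOf 1 + Y.degreeOf 1 *
          (psi (Z.fr (qq Y)) (qq Y) B).degreeOf 0 : ℕ) : ℝ) := by exact_mod_cast h1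
      rw [Nat.cast_mul] at h2
      refine h2.trans ((deg_mul_le_wt L _ _).trans ?_)
      apply mul_le_mul_of_nonneg_left
      · rw [wt_psi L _ _ hqpos]
        exact mul_le_mul_of_nonneg_right (hP _ (hQP hq1)).2.2.2 (wt_nonneg L B)
      · exact mul_nonneg hLpos.le (wt_nonneg L Y)
    have hsum : (∑ Y ∈ R', ((s Y).card : ℝ)) * dg k g 1 ≤
        64 * X ^ 2 * C2 * wt L B ^ 2 * dg k g 1 := by
      rw [Finset.sum_mul]
      refine (Finset.sum_le_sum hone).trans ?_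
      have h1 : ∑ Y ∈ R', ((L 0 : ℝ) + 1) * ((L 1 : ℝ) + 1) * wt L Y * (8 * X * wt L B) =
          ((L 0 : ℝ) + 1) * ((L 1 : ℝ) + 1) * (8 * X * wt L B) * ∑ Y ∈ R', wt L Y := by
        rw [Finset.mul_sum]
        refine Finset.sum_congr rfl fun Y _ => by ring
      rw [h1]
      have h2 : ∑ Y ∈ R', wt L Y ≤ 8 * X * wt L B := by
        have h3 : ∑ Y ∈ R', wt L Y ≤ ∑ Y ∈ R, wt L Y := by
          apply Finset.sum_le_sum_of_subset_of_nonneg
          · rw [hR']; exact Finset.filter_subset _ _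
          · exact fun Y _ _ => wt_nonneg L Y
        exact h3.trans (hwR.trans hwA)
      have h4 : 0 ≤ 8 * X * wt L B := mul_nonneg (by positivity) (wt_nonneg L B)
      calc ((L 0 : ℝ) + 1) * ((L 1 : ℝ) + 1) * (8 * X * wt L B) * ∑ Y ∈ R', wt L Y
          ≤ ((L 0 : ℝ) + 1) * ((L 1 : ℝ) + 1) * (8 * X * wt L B) * (8 * X * wt L B) :=
            mul_le_mul_of_nonneg_left h2 (mul_nonneg hLpos.le h4)
        _ = (((L 0 : ℝ) + 1) * ((L 1 : ℝ) + 1)) * ((8 * X * wt L B) * (8 * X * wt L B)) := by ring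
        _ ≤ (C2 * dg k g 1) * ((8 * X * wt L B) * (8 * X * wt L B)) :=
            mul_le_mul_of_nonneg_right hLm (mul_nonneg h4 h4)
        _ = 64 * X ^ 2 * C2 * wt L B ^ 2 * dg k g 1 := by ring
    exact le_of_mul_le_mul_right hsum hdgpos
  linarith

end BMF
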