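import Pool.Agent.Lib.MP_a325a5_ag.F.Near

/-! Clustering near a fixed triple of directions.

Proof.  `S = (⋃ k, ray g a (D₀ k)) ∪ range a` is finite (`hNA`); let `N = card S + 1`, `η = ε N / 2`
(replace `ε N` by its minimum with `1`), and `δ` the minimum of the three `δ` of `near_local` for
`D₀ k` and `η`.  Let `f z` be an element `e` of `S` with `‖z - e‖ < η` if there is one and the
additional class otherwise.  If `z`, `w` are in the class of `e` then `‖z - w‖ ≤ 2 η = ε N` and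
`max 1 _ ≥ 1`; if both are in the additional class then `‖z‖, ‖w‖ > 1 / η` (by `near_local`) and
`‖z - w‖ ≤ ‖z‖ + ‖w‖ ≤ 2 η ‖z‖ ‖w‖`. -/

namespace BMF

theorem near_mono {g a : Fin 3 → ℂ} {δ δ' : ℝ} (h : δ ≤ δ') {d : Fin 3 → ℝ} {z : ℂ}
    (hn : Near g a δ d z) : Near g a δ' d z := by
  obtain ⟨h1, x, hx, h2⟩ := hn
  exact ⟨h1, x, hx, fun j => (h2 j).trans h⟩

theorem near_tri (g a : Fin 3 → ℂ) (hg : ∀ j, g j ≠ 0) (D₀ : Fin 3 → Fin 3 → ℝ)
    (hD : ∀ k, D₀ k ≠ 0) (hfin : ∀ k, (ray g a (D₀ k)).Finite) (ε : ℕ → ℝ) (hε : ∀ n, 0 < ε n) :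
    ∃ N : ℕ, ∃ δ : ℝ, 0 < δ ∧ ∀ D : Fin 3 → Fin 3 → ℝ, (∀ k, ‖D k - D₀ k‖ < δ) →
      ∃ f : ℂ → Fin N, ∀ z w : ℂ, (∃ k, Near g a δ (D k) z) → (∃ k, Near g a δ (D k) w) →
        f z = f w → ‖z - w‖ ≤ ε N * (max 1 ‖z‖ * max 1 ‖w‖) := by
  classical
  have hS : ((⋃ k, ray g a (D₀ k)) ∪ Set.range a).Finite :=
    (Set.finite_iUnion hfin).union (Set.finite_range a)
  obtain ⟨T, hT⟩ : ∃ T : Finset ℂ, ∀ e, e ∈ T ↔ e ∈ (⋃ k, ray g a (D₀ k)) ∪ Set.range a :=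
    ⟨hS.toFinset, fun e => hS.mem_toFinset⟩
  obtain ⟨η, hη, hη1, hη2⟩ : ∃ η : ℝ, 0 < η ∧ 2 * η ≤ ε (T.card + 1) ∧ 2 * η ≤ 1 := by
    refine ⟨min (ε (T.card + 1)) 1 / 2, ?_, ?_, ?_⟩
    · have := lt_min (hε (T.card + 1)) one_pos
      positivity
    · have := min_le_left (ε (T.card + 1)) 1
      linarith
    · have := min_le_right (ε (T.card + 1)) 1
      linarith
  have hloc := fun k => near_local g a hg (D₀ k) (hD k) η hη
  choose δ hδ hδ2 using hloc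
  refine ⟨T.card + 1, min (δ 0) (min (δ 1) (δ 2)), lt_min (hδ 0) (lt_min (hδ 1) (hδ 2)), ?_⟩
  intro D hDD
  have hle : ∀ k, min (δ 0) (min (δ 1) (δ 2)) ≤ δ k := by
    intro k
    fin_cases k
    · exact min_le_left _ _
    · exact (min_le_right _ _).trans (min_le_left _ _)
    · exact (min_le_right _ _).trans (min_le_right _ _)
  have key : ∀ z : ℂ, (∃ k, Near g a (min (δ 0) (min (δ 1) (δ 2))) (D k) z) →
      (∃ e ∈ T, ‖z - e‖ < η) ∨ 1 / η < ‖z‖ := by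
    rintro z ⟨k, hk⟩
    rcases hδ2 k (D k) ((hDD k).trans_le (hle k)) z (near_mono (hle k) hk) with ⟨e, he, h⟩ | h
    · left
      refine ⟨e, (hT e).2 ?_, h⟩
      rcases he with he | he
      · exact Or.inl (Set.mem_iUnion.2 ⟨k, he⟩)
      · exact Or.inr he
    · exact Or.inr h
  refine ⟨fun z => if h : ∃ e ∈ T, ‖z - e‖ < η then
    (T.equivFin ⟨h.choose, h.choose_spec.1⟩).castSucc else Fin.last _, ?_⟩
  intro z w hz hw hf
  have hm : 1 ≤ max 1 ‖z‖ * max 1 ‖w‖ := by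
    have h1 : (1 : ℝ) ≤ max 1 ‖z‖ := le_max_left _ _
    have h2 : (1 : ℝ) ≤ max 1 ‖w‖ := le_max_left _ _
    nlinarith
  by_cases h1 : ∃ e ∈ T, ‖z - e‖ < η
  · by_cases h2 : ∃ e ∈ T, ‖w - e‖ < η
    · simp only [dif_pos h1, dif_pos h2] at hf
      have h3 := T.equivFin.injective (Fin.castSucc_injective _ hf)
      have h4 : h1.choose = h2.choose := congrArg Subtype.val h3
      have h5 := h1.choose_spec.2
      have h6 := h2.choose_spec.2
      rw [← h4] at h6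
      have h7 : ‖z - w‖ ≤ ‖z - h1.choose‖ + ‖w - h1.choose‖ := by
        have e1 : z - w = (z - h1.choose) - (w - h1.choose) := by ring
        rw [e1]
        exact norm_sub_le _ _
      have h8 := hε (T.card + 1)
      nlinarith
    · simp only [dif_pos h1, dif_neg h2] at hf
      exact absurd hf (Fin.castSucc_lt_last _).ne
  · by_cases h2 : ∃ e ∈ T, ‖w - e‖ < η
    · simp only [dif_neg h1, dif_pos h2] at hf
      exact absurd hf.symm (Fin.castSucc_lt_last _).ne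
    · have h3 := (key z hz).resolve_left h1
      have h4 := (key w hw).resolve_left h2
      rw [div_lt_iff₀ hη] at h3 h4
      have h5 : ‖z - w‖ ≤ ‖z‖ + ‖w‖ := norm_sub_le _ _
      have h6 : ‖z‖ ≤ max 1 ‖z‖ := le_max_right _ _
      have h7 : ‖w‖ ≤ max 1 ‖w‖ := le_max_right _ _
      have h8 : ‖z‖ + ‖w‖ ≤ 2 * η * (‖z‖ * ‖w‖) := by
        have hz0 := norm_nonneg z
        have hw0 := norm_nonneg w
        nlinarith
      have h9 : ‖z‖ * ‖w‖ ≤ max 1 ‖z‖ * max 1 ‖w‖ :=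
        mul_le_mul h6 h7 (norm_nonneg _) (by positivity)
      calc ‖z - w‖ ≤ 2 * η * (‖z‖ * ‖w‖) := h5.trans h8
        _ ≤ ε (T.card + 1) * (max 1 ‖z‖ * max 1 ‖w‖) :=
          mul_le_mul hη1 h9 (by positivity) (hε _).le

end BMF
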