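import Pool.Agent.Lib.MP_a325a5_ag.F.Hc
import Pool.Agent.Lib.MP_a325a5_ag.F.Mass

/-! A point of a line with a multiplicative relation between its coordinates has bounded height.

Proof.  Take logarithms of the relation: `∑ j, a j * lg v (κ j * (x - β j)) = 0` for all `v`
(`lg_zpow`, `lg_mul`).  `mass_tot` with `|a i|` maximal gives
`ht (x - β i) ≤ card ι * tot err ≤ card ι * C` and
`ht x ≤ ht (x - β i) + ht (β i) + log 2` (`ht_add_le`, `ht_const`). -/

open NumberField

namespace BMF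

private theorem OneRel_lg_prod {K : Type} [Field K] [NumberField K] {ι : Type} [Fintype ι]
    (v : Pl K) (y : ι → K) (hy : ∀ j, y j ≠ 0) (a : ι → ℤ) :
    lg v (∏ j, y j ^ a j) = ∑ j, (a j : ℝ) * lg v (y j) := by
  unfold lg
  rw [map_prod, Real.log_prod fun j _ => (av_pos v (zpow_ne_zero _ (hy j))).ne']
  refine Finset.sum_congr rfl fun j _ => ?_
  rw [map_zpow₀, Real.log_zpow]

theorem one_rel {L : Type} [Field L] [NumberField L] {ι : Type} [Fintype ι] (β κ : ι → L)
    (hβ : Function.Injective β) (hκ : ∀ j, κ j ≠ 0) :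
    ∃ C : ℝ, 0 ≤ C ∧ ∀ (K : Type) [Field K] [NumberField K] [Algebra L K] (x : K),
      (∀ j, x ≠ algebraMap L K (β j)) → ∀ a : ι → ℤ, a ≠ 0 →
      ∏ j, (algebraMap L K (κ j) * (x - algebraMap L K (β j))) ^ a j = 1 → ht x ≤ C := by
  classical
  obtain ⟨E, hE0, hE⟩ := tot_err_le (L := L) β κ
  choose c hc using fun j => ht_const L (β j)
  have hl2 : 0 ≤ Real.log 2 := Real.log_nonneg (by norm_num)
  have hs0 : 0 ≤ ∑ j, |c j| := Finset.sum_nonneg fun j _ => abs_nonneg _
  refine ⟨(Fintype.card ι : ℝ) * E + ∑ j, |c j| + Real.log 2, by positivity, ?_⟩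
  intro K _ _ _ x hx a ha hprod
  have hinj : Function.Injective (algebraMap L K) := (algebraMap L K).injective
  let β' : ι → K := fun j => algebraMap L K (β j)
  let κ' : ι → K := fun j => algebraMap L K (κ j)
  have hβ' : Function.Injective β' := hinj.comp hβ
  have hκ' : ∀ j, κ' j ≠ 0 := fun j h => hκ j (hinj (by rw [map_zero]; exact h))
  have hy : ∀ j, κ' j * (x - β' j) ≠ 0 := fun j => mul_ne_zero (hκ' j) (sub_ne_zero.2 (hx j))
  have hzero : (fun v : Pl K => |∑ j, (a j : ℝ) * lg v (κ' j * (x - β' j))|) = fun _ => 0 := by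
    funext v
    rw [← OneRel_lg_prod v (fun j => κ' j * (x - β' j)) hy a]
    have : ∏ j, (κ' j * (x - β' j)) ^ a j = 1 := hprod
    rw [this, lg_one, abs_zero]
  have htot : tot (fun v : Pl K => |∑ j, (a j : ℝ) * lg v (κ' j * (x - β' j))|) = 0 := by
    rw [hzero]
    simp [tot]
  obtain ⟨i0, hi0⟩ : ∃ i, a i ≠ 0 := by
    by_contra h
    push Not at h
    exact ha (funext h)
  obtain ⟨i, -, hi⟩ := Finset.exists_max_image (Finset.univ : Finset ι) (fun j => |(a j : ℝ)|)
    ⟨i0, Finset.mem_univ _⟩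
  have hpos : 0 < |(a i : ℝ)| := by
    have h1 : 0 < |(a i0 : ℝ)| := abs_pos.2 (by exact_mod_cast hi0)
    exact h1.trans_le (hi i0 (Finset.mem_univ _))
  have hm := mass_tot β' κ' hβ' hκ' x hx (fun j => (a j : ℝ)) i
  rw [htot, zero_add] at hm
  have hEK : tot (err β' κ') ≤ E := hE K
  have hEK0 : 0 ≤ tot (err β' κ') := tot_nonneg (err_nonneg β' κ')
  have hsum : (∑ j, |(a j : ℝ)|) ≤ Fintype.card ι * |(a i : ℝ)| := by
    have := Finset.sum_le_card_nsmul (Finset.univ : Finset ι) (fun j => |(a j : ℝ)|) |(a i : ℝ)|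
      (fun j hj => hi j hj)
    rwa [Finset.card_univ, nsmul_eq_mul] at this
  have h1 : |(a i : ℝ)| * ht (x - β' i) ≤ |(a i : ℝ)| * (Fintype.card ι * E) := by
    calc |(a i : ℝ)| * ht (x - β' i) ≤ (∑ j, |(a j : ℝ)|) * tot (err β' κ') := hm
      _ ≤ (Fintype.card ι * |(a i : ℝ)|) * tot (err β' κ') :=
          mul_le_mul_of_nonneg_right hsum hEK0
      _ ≤ (Fintype.card ι * |(a i : ℝ)|) * E := mul_le_mul_of_nonneg_left hEK (by positivity)
      _ = |(a i : ℝ)| * (Fintype.card ι * E) := by ring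
  have h2 : ht (x - β' i) ≤ Fintype.card ι * E := le_of_mul_le_mul_left h1 hpos
  have h3 : ht x ≤ ht (x - β' i) + ht (β' i) + Real.log 2 := by
    have := ht_add_le (x - β' i) (β' i)
    rwa [sub_add_cancel] at this
  have h4 : ht (β' i) ≤ ∑ j, |c j| := by
    refine (hc i K).trans ((le_abs_self _).trans ?_)
    exact Finset.single_le_sum (f := fun j => |c j|) (fun j _ => abs_nonneg _) (Finset.mem_univ i)
  linarith

end BMF
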