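import Pool.Agent.Lib.MP_a325a5_ag.F.Def

open NumberField MvPolynomial

namespace BMF

/-- determinant of two integer vectors -/
def dt (p q : ℤ × ℤ) : ℤ := p.1 * q.2 - p.2 * q.1

private lemma Q1_id (p q w w' : ℤ × ℤ) :
    dt w q * dt p w' - dt p w * dt w' q = dt p q * dt w w' := by
  simp only [dt]; ring

private lemma Q1_pos (p q : ℤ × ℤ) (h : dt p q ≠ 0) (w : ℤ × ℤ) (hw : w ≠ 0) :
    0 < max |dt w q| |dt p w| := by
  by_contra hc
  have h0 := not_lt.mp hc
  have h1 : |dt w q| ≤ 0 := (le_max_left _ _).trans h0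
  have h2 : |dt p w| ≤ 0 := (le_max_right _ _).trans h0
  have h3 : dt w q = 0 := abs_nonpos_iff.mp h1
  have h4 : dt p w = 0 := abs_nonpos_iff.mp h2
  apply hw
  have e1 : dt p q * w.1 = 0 := by
    have : dt p q * w.1 = p.1 * dt w q + q.1 * dt p w := by simp only [dt]; ring
    rw [this, h3, h4]; ring
  have e2 : dt p q * w.2 = 0 := by
    have : dt p q * w.2 = p.2 * dt w q + q.2 * dt p w := by simp only [dt]; ring
    rw [this, h3, h4]; ring
  have e3 := (mul_eq_zero.mp e1).resolve_left h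
  have e4 := (mul_eq_zero.mp e2).resolve_left h
  exact Prod.ext e3 e4

/-- the reduction step: `n = |a|` dominates, `|a'| ≤ |a| / 2` -/
private lemma Q1_step (a b a' b' D N' : ℤ) (hab : |b| ≤ |a|) (ha' : 2 * |a'| ≤ |a|)
    (hN : N' = max |a'| |b'|) (hmin : |a| ≤ N') (ha : 0 < |a|) (hdet : a * b' - b * a' = D) :
    |a| * N' ≤ 2 * |D| := by
  have hN' : N' = |b'| := by
    rw [hN]
    apply max_eq_right
    by_contra hc
    have hc' := not_le.mp hc
    have : N' = |a'| := by rw [hN]; exact max_eq_left hc'.le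
    linarith [abs_nonneg a']
  have h1 : |a| * |b'| ≤ |D| + |b| * |a'| := by
    have : a * b' = D + b * a' := by linarith
    rw [← abs_mul, this, ← abs_mul]
    exact abs_add_le _ _
  have h2 : |b| * |a'| ≤ |a| * |a'| := mul_le_mul_of_nonneg_right hab (abs_nonneg _)
  have h3 : 2 * (|a| * |a'|) ≤ |a| * |b'| := by
    have : |a| * (2 * |a'|) ≤ |a| * |b'| :=
      mul_le_mul_of_nonneg_left (ha'.trans (hmin.trans hN'.le)) ha.le
    linarith
  rw [hN']
  linarith

private lemma Q1_round (a c : ℤ) (ha : 0 < |a|) : ∃ t : ℤ, 2 * |c + t * a| ≤ |a| := by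
  have ha0 : a ≠ 0 := abs_pos.mp ha
  -- nearest integer to `-c / a`
  refine ⟨-(Int.bmod c a.natAbs |> fun r => (c - r) / a), ?_⟩
  set r := Int.bmod c a.natAbs with hr
  have hdvd : a ∣ c - r := by
    have h1 : (a.natAbs : ℤ) ∣ c - r := by
      have h2 : r ≡ c [ZMOD a.natAbs] := Int.bmod_emod (x := c) (m := a.natAbs)
      exact h2.dvd
    exact Int.natAbs_dvd.mp h1
  obtain ⟨k, hk⟩ := hdvd
  have hk' : (c - r) / a = k := by rw [hk]; exact Int.mul_ediv_cancel_left _ ha0
  show 2 * |c + -((c - r) / a) * a| ≤ |a|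
  rw [hk']
  have e : c + -k * a = r := by linarith
  rw [e]
  have hpos : 0 < a.natAbs := Int.natAbs_pos.mpr ha0
  have hl := Int.le_bmod (x := c) hpos
  have hu := Int.bmod_le (x := c) hpos
  have hA : |a| = (a.natAbs : ℤ) := by simp
  rw [hA, ← hr] at *
  rcases abs_cases r with ⟨h1, _⟩ | ⟨h1, _⟩ <;> rw [h1] <;> omega

/-- reduction of binary lattices -/
theorem lattice2 (p q : ℤ × ℤ) (h : dt p q ≠ 0) : ∃ w w' : ℤ × ℤ, dt w w' ≠ 0 ∧
    max |dt w q| |dt p w| * max |dt w' q| |dt p w'| ≤ 2 * |dt p q| := by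
  classical
  have hex : ∃ n : ℕ, ∃ w : ℤ × ℤ, w ≠ 0 ∧ max |dt w q| |dt p w| = n := by
    refine ⟨(max |dt (1, 0) q| |dt p (1, 0)|).toNat, (1, 0), by simp, ?_⟩
    rw [Int.toNat_of_nonneg (le_max_of_le_left (abs_nonneg _))]
  obtain ⟨w, hw0, hwn⟩ := Nat.find_spec hex
  have hmin : ∀ v : ℤ × ℤ, v ≠ 0 → max |dt w q| |dt p w| ≤ max |dt v q| |dt p v| := by
    intro v hv
    have := Nat.find_min' hex (m := (max |dt v q| |dt p v|).toNat) ⟨v, hv, by
      rw [Int.toNat_of_nonneg (le_max_of_le_left (abs_nonneg _))]⟩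
    rw [hwn]
    have h2 : (max |dt v q| |dt p v|) = ((max |dt v q| |dt p v|).toNat : ℤ) := by
      rw [Int.toNat_of_nonneg (le_max_of_le_left (abs_nonneg _))]
    rw [h2]
    exact_mod_cast this
  have hwpos := Q1_pos p q h w hw0
  -- `w` is primitive
  have hg : Int.gcd w.1 w.2 = 1 := by
    set g := Int.gcd w.1 w.2 with hgd
    obtain ⟨a, ha⟩ : (g : ℤ) ∣ w.1 := Int.gcd_dvd_left _ _
    obtain ⟨b, hb⟩ : (g : ℤ) ∣ w.2 := Int.gcd_dvd_right _ _
    have hv : ((a, b) : ℤ × ℤ) ≠ 0 := by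
      rintro hab
      have h1 : a = 0 := congrArg Prod.fst hab
      have h2 : b = 0 := congrArg Prod.snd hab
      apply hw0
      exact Prod.ext (by rw [ha, h1]; simp) (by rw [hb, h2]; simp)
    have e1 : dt w q = g * dt (a, b) q := by simp only [dt]; rw [ha, hb]; ring
    have e2 : dt p w = g * dt p (a, b) := by simp only [dt]; rw [ha, hb]; ring
    have e3 : max |dt w q| |dt p w| = g * max |dt (a, b) q| |dt p (a, b)| := by
      rw [e1, e2, abs_mul, abs_mul, abs_of_nonneg (by positivity : (0 : ℤ) ≤ g),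
        mul_max_of_nonneg _ _ (by positivity)]
    have h3 := hmin (a, b) hv
    have h4 := Q1_pos p q h (a, b) hv
    rw [e3] at h3 hwpos
    have hg1 : (g : ℤ) ≤ 1 := by
      by_contra hc
      have : (2 : ℤ) ≤ g := by omega
      nlinarith
    have hg0 : (0 : ℤ) < g := by
      by_contra hc
      have : (g : ℤ) = 0 := by omega
      rw [this] at hwpos
      simp at hwpos
    omega
  obtain ⟨u, v, huv⟩ : ∃ u v : ℤ, w.1 * u + w.2 * v = 1 := by
    refine ⟨Int.gcdA w.1 w.2, Int.gcdB w.1 w.2, ?_⟩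
    rw [← Int.gcd_eq_gcd_ab, hg]; rfl
  have hz : dt w (-v, u) = 1 := by simp only [dt]; linarith
  have hshift : ∀ t : ℤ, dt w ((-v, u) + (t * w.1, t * w.2)) = 1 := by
    intro t
    have : dt w ((-v, u) + (t * w.1, t * w.2)) = dt w (-v, u) := by
      simp only [dt, Prod.fst_add, Prod.snd_add]; ring
    rw [this, hz]
  rcases le_total |dt p w| |dt w q| with hc | hc
  · obtain ⟨t, ht⟩ := Q1_round (dt w q) (dt (-v, u) q) (by rwa [max_eq_left hc] at hwpos)
    refine ⟨w, (-v, u) + (t * w.1, t * w.2), by rw [hshift]; norm_num, ?_⟩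
    set w' : ℤ × ℤ := (-v, u) + (t * w.1, t * w.2) with hw'
    have hw'0 : w' ≠ 0 := by
      intro h0
      have := hshift t
      rw [← hw', h0] at this
      simp [dt] at this
    have h1 : dt w' q = dt (-v, u) q + t * dt w q := by
      simp only [hw', dt, Prod.fst_add, Prod.snd_add]; ring
    have h2 := hmin w' hw'0
    rw [max_eq_left hc] at h2 ⊢
    refine Q1_step (dt w q) (dt p w) (dt w' q) (dt p w') (dt p q) _ hc (by rw [h1]; exact ht) rfl
      h2 (by rwa [max_eq_left hc] at hwpos) ?_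
    rw [Q1_id, hshift, mul_one]
  · obtain ⟨t, ht⟩ := Q1_round (dt p w) (dt p (-v, u)) (by rwa [max_eq_right hc] at hwpos)
    refine ⟨w, (-v, u) + (t * w.1, t * w.2), by rw [hshift]; norm_num, ?_⟩
    set w' : ℤ × ℤ := (-v, u) + (t * w.1, t * w.2) with hw'
    have hw'0 : w' ≠ 0 := by
      intro h0
      have := hshift t
      rw [← hw', h0] at this
      simp [dt] at this
    have h1 : dt p w' = dt p (-v, u) + t * dt p w := by
      simp only [hw', dt, Prod.fst_add, Prod.snd_add]; ring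
    have h2 := hmin w' hw'0
    rw [max_eq_right hc] at h2 ⊢
    rw [← abs_neg (dt p q)]
    refine Q1_step (dt p w) (dt w q) (dt p w') (dt w' q) (-dt p q) _ hc (by rw [h1]; exact ht)
      (max_comm _ _) h2 (by rwa [max_eq_right hc] at hwpos) ?_
    have h3 := Q1_id p q w w'
    rw [hshift, mul_one] at h3
    linarith

private lemma Q1_index (p q : ℤ × ℤ) (h : dt p q ≠ 0) : ∃ N : Submodule ℤ (Fin 2 → ℤ),
    Nat.card ((Fin 2 → ℤ) ⧸ N) = (dt p q).natAbs ∧
    ∀ v ∈ N, ∃ i j : ℤ, v 0 = i * p.1 + j * q.1 ∧ v 1 = i * p.2 + j * q.2 := by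
  let A : Matrix (Fin 2) (Fin 2) ℤ := !![p.1, q.1; p.2, q.2]
  have hdet : A.det = dt p q := by
    simp only [A, Matrix.det_fin_two_of, dt]; ring
  let f : (Fin 2 → ℤ) →ₗ[ℤ] (Fin 2 → ℤ) := Matrix.toLin' A
  have hf : Function.Injective f := by
    intro x y hxy
    have h1 : A.mulVec x = A.mulVec y := by simpa [f, Matrix.toLin'_apply] using hxy
    have h2 : A.adjugate.mulVec (A.mulVec x) = A.adjugate.mulVec (A.mulVec y) := by rw [h1]
    rw [Matrix.mulVec_mulVec, Matrix.mulVec_mulVec, Matrix.adjugate_mul, Matrix.smul_mulVec,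
      Matrix.smul_mulVec, Matrix.one_mulVec, Matrix.one_mulVec, hdet] at h2
    funext i
    have h3 := congrFun h2 i
    simp only [Pi.smul_apply, smul_eq_mul] at h3
    exact mul_left_cancel₀ h h3
  refine ⟨LinearMap.range f, ?_, ?_⟩
  · have h1 := Submodule.natAbs_det_equiv (LinearMap.range f) (LinearEquiv.ofInjective f hf)
    rw [← h1, ← hdet]
    congr 1
    have h2 : (LinearMap.range f).subtype ∘ₗ
        AddMonoidHom.toIntLinearMap ((LinearEquiv.ofInjective f hf : _ ≃ₗ[ℤ] _) :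
          (Fin 2 → ℤ) →+ LinearMap.range f) = f := by
      ext; rfl
    rw [h2]
    exact LinearMap.det_toLin' A
  · rintro v ⟨x, rfl⟩
    refine ⟨x 0, x 1, ?_, ?_⟩
    · simp [f, A, Matrix.toLin'_apply, Matrix.mulVec, dotProduct, Fin.sum_univ_two]; ring
    · simp [f, A, Matrix.toLin'_apply, Matrix.mulVec, dotProduct, Fin.sum_univ_two]; ring

/-- number of integer vectors in a parallelogram -/
theorem lattice2_count (p q : ℤ × ℤ) (h : dt p q ≠ 0) (R : ℕ) (s : Finset (ℤ × ℤ))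
    (hs : ∀ w ∈ s, |dt w q| ≤ R * |dt p q| ∧ |dt p w| ≤ R * |dt p q|) :
    (s.card : ℤ) ≤ |dt p q| * (2 * R + 2) ^ 2 := by
  classical
  obtain ⟨N, hN, hmem⟩ := Q1_index p q h
  set D := |dt p q| with hD
  have hDpos : 0 < D := abs_pos.mpr h
  have hfin : Finite ((Fin 2 → ℤ) ⧸ N) :=
    Nat.finite_of_card_ne_zero (by rw [hN]; exact Int.natAbs_ne_zero.mpr h)
  have : Fintype ((Fin 2 → ℤ) ⧸ N) := Fintype.ofFinite _
  let F : ℤ × ℤ → (ℤ × ℤ) × ((Fin 2 → ℤ) ⧸ N) := fun w =>
    ((dt w q / D, dt p w / D), N.mkQ ![w.1, w.2])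
  have hbox : ∀ x : ℤ, |x| ≤ R * D → x / D ∈ Finset.Icc (-(R : ℤ)) R := by
    intro x hx
    rw [abs_le] at hx
    rw [Finset.mem_Icc]
    constructor
    · rw [Int.le_ediv_iff_mul_le hDpos]; linarith [hx.1]
    · exact Int.ediv_le_of_le_mul hDpos hx.2
  have hinj : Set.InjOn F s := by
    intro w _ w' _ hww
    have h1 : dt w q / D = dt w' q / D := congrArg (fun z => z.1.1) hww
    have h2 : dt p w / D = dt p w' / D := congrArg (fun z => z.1.2) hww
    have h3 : N.mkQ ![w.1, w.2] = N.mkQ ![w'.1, w'.2] := congrArg Prod.snd hww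
    have h4 : (![w.1, w.2] : Fin 2 → ℤ) - ![w'.1, w'.2] ∈ N := by
      rw [← Submodule.Quotient.eq]; exact h3
    obtain ⟨i, j, hi, hj⟩ := hmem _ h4
    simp only [Pi.sub_apply, Matrix.cons_val_zero, Matrix.cons_val_one] at hi hj
    have e1 : dt w q - dt w' q = i * dt p q := by
      have : dt w q - dt w' q = (w.1 - w'.1) * q.2 - (w.2 - w'.2) * q.1 := by
        simp only [dt]; ring
      rw [this, hi, hj]; simp only [dt]; ring
    have e2 : dt p w - dt p w' = j * dt p q := by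
      have : dt p w - dt p w' = p.1 * (w.2 - w'.2) - p.2 * (w.1 - w'.1) := by
        simp only [dt]; ring
      rw [this, hi, hj]; simp only [dt]; ring
    have hlt : ∀ x y : ℤ, x / D = y / D → |x - y| < D := by
      intro x y hxy
      have a1 := Int.emod_add_mul_ediv x D
      have a2 := Int.emod_add_mul_ediv y D
      have a3 := Int.emod_nonneg x hDpos.ne'
      have a4 := Int.emod_lt_of_pos x hDpos
      have a5 := Int.emod_nonneg y hDpos.ne'
      have a6 := Int.emod_lt_of_pos y hDpos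
      rw [hxy] at a1
      rw [abs_lt]
      constructor <;> linarith
    have hz : ∀ k x : ℤ, x = k * dt p q → |x| < D → k = 0 := by
      intro k x hx hlt
      by_contra hk
      have : 1 ≤ |k| := Int.one_le_abs hk
      rw [hx, abs_mul, ← hD] at hlt
      nlinarith
    have i0 := hz i _ e1 (hlt _ _ h1)
    have j0 := hz j _ e2 (hlt _ _ h2)
    rw [i0, j0] at hi hj
    exact Prod.ext (by linarith) (by linarith)
  have hmaps : ∀ w ∈ s, F w ∈ ((Finset.Icc (-(R : ℤ)) R ×ˢ Finset.Icc (-(R : ℤ)) R) ×ˢ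
      (Finset.univ : Finset ((Fin 2 → ℤ) ⧸ N))) := by
    intro w hw
    rw [Finset.mem_product, Finset.mem_product]
    exact ⟨⟨hbox _ (hs w hw).1, hbox _ (hs w hw).2⟩, Finset.mem_univ _⟩
  have hcard := Finset.card_le_card_of_injOn F hmaps hinj
  rw [Finset.card_product, Finset.card_product, Finset.card_univ, ← Nat.card_eq_fintype_card,
    hN, Int.card_Icc] at hcard
  have hR : ((R : ℤ) + 1 - -(R : ℤ)).toNat = 2 * R + 1 := by omega
  rw [hR] at hcard
  have hcast : (s.card : ℤ) ≤ ((2 * R + 1) * (2 * R + 1) * (dt p q).natAbs : ℕ) := by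
    exact_mod_cast hcard
  have hnat : (((dt p q).natAbs : ℕ) : ℤ) = D := by rw [hD]; simp
  rw [Nat.cast_mul, hnat] at hcast
  push_cast at hcast
  refine hcast.trans ?_
  nlinarith [hDpos]

end BMF
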