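import Pool.Agent.Lib.MP_a325a5_ag.F.QbarL

/-! The theorem for algebraic points.

Proof.  Let `L` be the number field generated by the parameters (`IntermediateField.adjoin ℚ` of a
finite set of algebraic numbers), with parameters `α'`, `γ'`, `r'`, `p'` in `L`, and `τ'` the
restriction of `τ` to `L`.  Apply `qbar_L`. -/

open NumberField Polynomial Polynomial.Bivariate Pool.Agent.Lib.MP_a325a5_ag.UL

namespace BMF

theorem qbar_g (α γ : Fin 3 → AlgebraicClosure ℚ) (r p : AlgebraicClosure ℚ)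
    (hα : Function.Injective α) (hγ : ∀ j, γ j ≠ 0) (hr : r ≠ 0) (hp : p ≠ 0)
    (τ : AlgebraicClosure ℚ →+* ℂ)
    (hNA : ∀ d : Fin 3 → ℝ, d ≠ 0 → (ray (fun j => τ (γ j)) (fun j => τ (α j)) d).Finite) :
    ∃ G : (AlgebraicClosure ℚ)[X][Y], G ≠ 0 ∧ ∀ t s : AlgebraicClosure ℚ,
      ∀ x : Fin 5 → (AlgebraicClosure ℚ)ˣ, (∀ i, (x i : AlgebraicClosure ℚ) = cv α γ r p t s i) →
      mr x ≤ 2 → evalEval t s G = 0 := by
  let S : Set (AlgebraicClosure ℚ) := Set.range α ∪ Set.range γ ∪ {r, p}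
  have hSf : S.Finite :=
    ((Set.finite_range α).union (Set.finite_range γ)).union (Set.toFinite _)
  haveI : Finite S := hSf.to_subtype
  let L := IntermediateField.adjoin ℚ S
  haveI hfd : FiniteDimensional ℚ L :=
    IntermediateField.finiteDimensional_adjoin fun x _ =>
      (AlgebraicClosure.isAlgebraic ℚ).isAlgebraic x |>.isIntegral
  haveI : NumberField L := { to_charZero := inferInstance, to_finiteDimensional := hfd }
  have hsub : ∀ x ∈ S, x ∈ L := fun x hx => IntermediateField.subset_adjoin ℚ S hx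
  let α' : Fin 3 → L := fun j => ⟨α j, hsub _ (Or.inl (Or.inl ⟨j, rfl⟩))⟩
  let γ' : Fin 3 → L := fun j => ⟨γ j, hsub _ (Or.inl (Or.inr ⟨j, rfl⟩))⟩
  let r' : L := ⟨r, hsub _ (Or.inr (Or.inl rfl))⟩
  let p' : L := ⟨p, hsub _ (Or.inr (Or.inr rfl))⟩
  have hα' : Function.Injective α' := fun i j hij => hα (congrArg Subtype.val hij)
  have hγ' : ∀ j, γ' j ≠ 0 := fun j h => hγ j (congrArg Subtype.val h)
  have hr' : r' ≠ 0 := fun h => hr (congrArg Subtype.val h)
  have hp' : p' ≠ 0 := fun h => hp (congrArg Subtype.val h)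
  obtain ⟨G, hG0, hG⟩ := qbar_L α' γ' r' p' hα' hγ' hr' hp'
    (τ.comp (algebraMap L (AlgebraicClosure ℚ))) hNA
  refine ⟨G, hG0, fun t s x hx hm => hG t s x (fun i => ?_) hm⟩
  rw [hx i]
  fin_cases i <;> rfl

end BMF
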