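import Pool.Agent.Lib.MP_a325a5_ag.F.HBd
import Pool.Agent.Lib.MP_a325a5_ag.F.FinT
import Pool.Agent.Lib.MP_a325a5_ag.F.BH
import Pool.Agent.Lib.MP_a325a5_ag.UL.MR

/-! The theorem for algebraic points, parameters in a number field `L` inside `Q̄`.

Proof.  Let `B`, `D₁` be as in `hbd`, `G₁` as in `bh`, `D₂` the constant of `bh` for `B`.  Let `P` be the
set of all `t` for which there is `s` with: `cv t s i ≠ 0` for all `i`, and for `K = L(t, s)`
(`exists_field` for `{t, s}`, elements `t'`, `s'` of `K`) `[K : L] ≤ D₂` and `ht t' ≤ B`: `P` is finite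
by `fin_of_bd`.  With `T₁`, `T₂` from `fin_T1`, `fin_T2` (for `D₁`) put
`G = G₁ (mapped to Q̄) * ∏_{t ∈ T₁ ∪ T₂ ∪ P} C (X - C t)`.
Let `(t, s)`, `x` be given with `mr x ≤ 2`, `t ∉ T₁ ∪ T₂`; take `K = L(t, s)` and the point `x'` over `K`
(`mr x' = mr x` by `mr_congr`).  `hbd`: `ht t' ≤ B`, and `ht s' ≤ B` (otherwise `t ∈ T₂`;
`minpoly L t' = minpoly L t`).  `bh`: `G₁ (t', s') = 0` or `[K : L] ≤ D₂`, `t ∈ P`. -/

open NumberField Polynomial Polynomial.Bivariate Pool.Agent.Lib.MP_a325a5_ag.UL

namespace BMF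

theorem qbL_map {L F : Type} [Field L] [Field F] [Algebra L F] (G : L[X][Y]) (t s : F) :
    evalEval t s (G.map (mapRingHom (algebraMap L F))) = aevalAeval t s G := by
  have h : (aevalAeval t s : L[X][Y] →ₐ[L] F).toRingHom =
      (evalEvalRingHom t s).comp (mapRingHom (mapRingHom (algebraMap L F))) := by
    ext <;> simp
  exact (congrArg (fun f : L[X][Y] →+* F => f G) h).symm

theorem qbL_hom {L K F : Type} [Field L] [Field K] [Field F] [Algebra L K] [Algebra L F]
    (i : K →ₐ[L] F) (G : L[X][Y]) (t s : K) :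
    i (aevalAeval t s G) = aevalAeval (i t) (i s) G := by
  have h : i.comp (aevalAeval t s) = (aevalAeval (i t) (i s) : L[X][Y] →ₐ[L] F) :=
    (aevalAevalEquiv L F).symm.injective (by simp)
  exact congrArg (fun f : L[X][Y] →ₐ[L] F => f G) h

theorem qbL_cv {L K F : Type} [Field L] [Field K] [Field F] [Algebra L K] [Algebra L F]
    (i : K →ₐ[L] F) (α γ : Fin 3 → L) (r p : L) (t s : K) (k : Fin 5) :
    i (cv α γ r p t s k) = cv α γ r p (i t) (i s) k := by
  fin_cases k <;> simp [cv]

theorem qbL_cvj {L K : Type} [Field L] [Field K] [Algebra L K]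
    (α γ : Fin 3 → L) (r p : L) (t s : K) (j : Fin 3) :
    cv α γ r p t s (Fin.castAdd 2 j) =
      algebraMap L K (γ j) * (t - algebraMap L K (α j)) := by
  fin_cases j <;> rfl

theorem qbL_rel {L K F : Type} [Field L] [Field K] [Field F] [Algebra L K] [Algebra L F]
    (i : K →ₐ[L] F) (α γ : Fin 3 → L) (t : K) (a : Fin 3 → ℤ)
    (h : ∏ j, (algebraMap L K (γ j) * (t - algebraMap L K (α j))) ^ a j = 1) :
    ∏ j, (algebraMap L F (γ j) * (i t - algebraMap L F (α j))) ^ a j = 1 := by
  have h1 := congrArg i h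
  rw [map_prod, map_one] at h1
  rw [← h1]
  refine Finset.prod_congr rfl fun j _ => ?_
  rw [map_zpow₀, map_mul, map_sub, AlgHom.commutes, AlgHom.commutes]

theorem qbL_val {L K : Type} [Field L] [Field K] [Algebra L K]
    (α γ : Fin 3 → L) (r p : L) (t s : K) (x : Fin 5 → Kˣ)
    (hx : ∀ k, (x k : K) = cv α γ r p t s k) (a : Fin 3 → ℤ)
    (h : ∏ j : Fin 3, x (Fin.castAdd 2 j) ^ a j = 1) :
    ∏ j, (algebraMap L K (γ j) * (t - algebraMap L K (α j))) ^ a j = 1 := by
  have h1 := congrArg (fun u : Kˣ => (u : K)) h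
  simp only [Units.coe_prod, Units.val_zpow_eq_zpow_val, Units.val_one] at h1
  rw [← h1]
  refine Finset.prod_congr rfl fun j _ => ?_
  rw [hx, qbL_cvj]

theorem qbar_L {L : Type} [Field L] [NumberField L] [Algebra L (AlgebraicClosure ℚ)]
    (α γ : Fin 3 → L) (r p : L) (hα : Function.Injective α) (hγ : ∀ j, γ j ≠ 0) (hr : r ≠ 0)
    (hp : p ≠ 0) (τ : L →+* ℂ)
    (hNA : ∀ d : Fin 3 → ℝ, d ≠ 0 → (ray (fun j => τ (γ j)) (fun j => τ (α j)) d).Finite) :
    ∃ G : (AlgebraicClosure ℚ)[X][Y], G ≠ 0 ∧ ∀ t s : AlgebraicClosure ℚ,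
      ∀ x : Fin 5 → (AlgebraicClosure ℚ)ˣ, (∀ i, (x i : AlgebraicClosure ℚ) = cv α γ r p t s i) →
      mr x ≤ 2 → evalEval t s G = 0 := by
  classical
  obtain ⟨B, D₁, hB⟩ := hbd α γ r p hα hγ hr hp τ hNA
  obtain ⟨G₁, hG₁, hG⟩ := bh α γ r p hα hγ hr hp
  obtain ⟨D₂, hD⟩ := hG B
  obtain ⟨P, hPdef⟩ : ∃ P : Set (AlgebraicClosure ℚ), P = {t | ∃ (K : Type) (_ : Field K)
      (_ : NumberField K) (_ : Algebra L K) (i : K →ₐ[L] AlgebraicClosure ℚ) (t' : K),
      i t' = t ∧ Module.finrank L K ≤ D₂ ∧ ht t' ≤ B} := ⟨_, rfl⟩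
  have hP : P.Finite := fin_of_bd L D₂ B P (fun t ht => by rw [hPdef] at ht; exact ht)
  have h1 := fin_T1 L α γ hα hγ
  have h2 := fin_T2 L α γ hα hγ D₁
  refine ⟨G₁.map (mapRingHom (algebraMap L (AlgebraicClosure ℚ))) *
    ∏ c ∈ (h1.toFinset ∪ h2.toFinset ∪ hP.toFinset), C (X - C c), mul_ne_zero ?_ ?_, ?_⟩
  · refine (Polynomial.map_ne_zero_iff ?_).mpr hG₁
    rw [coe_mapRingHom]
    exact Polynomial.map_injective _ (algebraMap L (AlgebraicClosure ℚ)).injective
  · exact Finset.prod_ne_zero_iff.mpr fun c _ => C_ne_zero.mpr (X_sub_C_ne_zero c)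
  · intro t s x hx hmr
    rw [evalEval_mul, evalEval_prod]
    by_cases ht : t ∈ h1.toFinset ∪ h2.toFinset ∪ hP.toFinset
    · rw [Finset.prod_eq_zero ht, mul_zero]
      rw [evalEval_C]
      simp
    · simp only [Finset.mem_union, Set.Finite.mem_toFinset, not_or] at ht
      obtain ⟨⟨n1, n2⟩, n3⟩ := ht
      have hz : evalEval t s (G₁.map (mapRingHom (algebraMap L (AlgebraicClosure ℚ)))) = 0 := by
        rw [qbL_map]
        obtain ⟨K, iF, iN, iA, i, hi1, hi2⟩ := exists_field L {t, s} (Set.toFinite _)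
        obtain ⟨t', ht'⟩ := hi1 (Set.mem_insert t {s})
        obtain ⟨s', hs'⟩ := hi1 (Set.mem_insert_of_mem t (Set.mem_singleton s))
        have hpre : i ⁻¹' {t, s} = {t', s'} := by
          ext z
          simp only [Set.mem_preimage, Set.mem_insert_iff, Set.mem_singleton_iff]
          constructor
          · rintro (h | h)
            · exact Or.inl (i.injective (h.trans ht'.symm))
            · exact Or.inr (i.injective (h.trans hs'.symm))
          · rintro (rfl | rfl)
            · exact Or.inl ht'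
            · exact Or.inr hs'
        rw [hpre] at hi2
        have hcv : ∀ k, i (cv α γ r p t' s' k) = x k := by
          intro k
          rw [qbL_cv, ht', hs']
          exact (hx k).symm
        have hne : ∀ k, cv α γ r p t' s' k ≠ 0 := by
          intro k h0
          have h3 := hcv k
          rw [h0, map_zero] at h3
          exact (x k).ne_zero h3.symm
        obtain ⟨x', hx'⟩ : ∃ x' : Fin 5 → Kˣ, ∀ k, (x' k : K) = cv α γ r p t' s' k :=
          ⟨fun k => Units.mk0 _ (hne k), fun k => rfl⟩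
        have hrel : ∀ a : Fin 5 → ℤ, ∏ k, x' k ^ a k = 1 ↔ ∏ k, x k ^ a k = 1 := by
          intro a
          have e : ∏ k, x k ^ a k =
              Units.map (i : K →* AlgebraicClosure ℚ) (∏ k, x' k ^ a k) := by
            rw [map_prod]
            refine Finset.prod_congr rfl fun k _ => ?_
            rw [map_zpow]
            refine congrArg (fun u : (AlgebraicClosure ℚ)ˣ => u ^ a k) (Units.ext ?_)
            rw [← hcv k, ← hx' k]
            rfl
          rw [e]
          constructor
          · intro h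
            rw [h, map_one]
          · intro h
            exact Units.map_injective (f := (i : K →* AlgebraicClosure ℚ)) i.injective
              (h.trans (map_one _).symm)
        have hmr' : mr x' ≤ 2 := by
          rw [← mr_congr x x' hrel]
          exact hmr
        obtain ⟨⟨a, ha0, ha⟩, hht, hor⟩ := hB K t' s' x' hx' hmr'
        have hta : ∀ j, t ≠ algebraMap L _ (α j) := by
          intro j hj
          have h3 := hx (Fin.castAdd 2 j)
          rw [qbL_cvj, hj, sub_self, mul_zero] at h3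
          exact (x (Fin.castAdd 2 j)).ne_zero h3
        have hs : ht s' ≤ B := by
          rcases hor with h | h
          · exact h
          · refine absurd ?_ n2
            refine ⟨hta, ⟨a, ha0, ?_⟩, ?_⟩
            · rw [← ht']
              exact qbL_rel i α γ t' a ha
            · rw [← ht', minpoly.algHom_eq i i.injective]
              exact h
        by_contra hcon
        have hcon' : aevalAeval t' s' G₁ ≠ 0 := by
          intro h0
          apply hcon
          rw [← ht', ← hs', ← qbL_hom, h0, map_zero]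
        have hfr := hD K t' s' hi2 x' hx' hmr' (fun a b hab hh => n1 ⟨hta, a, b, hab, by
            rw [← ht']
            exact qbL_rel i α γ t' a (qbL_val α γ r p t' s' x' hx' a hh.1), by
            rw [← ht']
            exact qbL_rel i α γ t' b (qbL_val α γ r p t' s' x' hx' b hh.2)⟩) hht hs hcon'
        apply n3
        rw [hPdef]
        exact ⟨K, iF, iN, iA, i, t', ht', hfr, hht⟩
      rw [hz, zero_mul]

end BMF
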