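import Pool.Agent.Lib.MP_a325a5_ag.F.CoPr
import Pool.Agent.Lib.MP_a325a5_ag.UL.Pts

/-! The surface and its generic point.

Proof of `gp_ne`: `cv` at the point `(X, Y)` of the field of fractions is the image of `co`
(`aeval_co` with the algebra map of `ℂ[X][Y]` into the field of fractions, which is `aevalAeval gX gY`),
and `co i ≠ 0` (`co_prime`). -/

open Polynomial Polynomial.Bivariate Pool.Agent.Lib.MP_a325a5_ag.UL

namespace BMF

/-- the product of a line in `𝔾_m³` and a line in `𝔾_m²`, as a subset of the torus `𝔾_m⁵` -/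
def surf (α γ : Fin 3 → ℂ) (r p : ℂ) : Set (Fin 5 → ℂˣ) :=
  {z | ∃ t s : ℂ, (z 0 : ℂ) = γ 0 * (t - α 0) ∧ (z 1 : ℂ) = γ 1 * (t - α 1) ∧
    (z 2 : ℂ) = γ 2 * (t - α 2) ∧ (z 3 : ℂ) = s ∧ (z 4 : ℂ) = r * s + p}

/-- the function field -/
abbrev FF : Type := FractionRing ℂ[X][Y]

noncomputable def gX : FF := algebraMap ℂ[X][Y] FF (C X)

noncomputable def gY : FF := algebraMap ℂ[X][Y] FF Y

theorem SurfDef_aeval (f : ℂ[X][Y]) : aevalAeval gX gY f = algebraMap ℂ[X][Y] FF f := by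
  have h : (aevalAeval gX gY : ℂ[X][Y] →ₐ[ℂ] FF) = IsScalarTower.toAlgHom ℂ ℂ[X][Y] FF := by
    apply (aevalAevalEquiv ℂ FF).symm.injective
    rw [Equiv.symm_apply_apply]
    rfl
  rw [h]
  rfl

theorem algebraMap_co (α γ : Fin 3 → ℂ) (r p : ℂ) (i : Fin 5) :
    algebraMap ℂ[X][Y] FF (co α γ r p i) = cv α γ r p gX gY i := by
  rw [← SurfDef_aeval, aeval_co]

theorem gp_ne (α γ : Fin 3 → ℂ) (r p : ℂ) (hγ : ∀ j, γ j ≠ 0) (hr : r ≠ 0) (i : Fin 5) :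
    cv α γ r p gX gY i ≠ 0 := by
  rw [← algebraMap_co]
  exact fun h => (co_prime α γ r p hγ hr i).ne_zero
    ((map_eq_zero_iff _ (IsFractionRing.injective ℂ[X][Y] FF)).mp h)

/-- the generic point -/
noncomputable def gp (α γ : Fin 3 → ℂ) (r p : ℂ) (hγ : ∀ j, γ j ≠ 0) (hr : r ≠ 0) :
    Fin 5 → FFˣ :=
  fun i => Units.mk0 _ (gp_ne α γ r p hγ hr i)

end BMF
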