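import Pool.Agent.Lib.MP_a325a5_ag.F.SurfDef

/-! The surface is irreducible and closed, with generic point `gp`.

Proof.  `f ∈ locus ℂ gp` iff the polynomial `F = f (co)` in `ℂ[X][Y]` is zero (the algebra map to the
field of fractions is injective).  `f ∈ vanIdeal surf` iff `F` vanishes at all `(t, s)` with
`cv t s i ≠ 0` for all `i`; then `F * ∏ co i` vanishes at all points of `ℂ²`, so it is zero (`ℂ` is
infinite), and `F = 0`.  `surf` is closed: it is given by the linear equations
`z 0 / γ 0 + α 0 = z 1 / γ 1 + α 1 = z 2 / γ 2 + α 2`, `z 4 = r z 3 + p`, which are in the vanishing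
ideal. -/

open Polynomial Polynomial.Bivariate Pool.Agent.Lib.MP_a325a5_ag.UL

namespace BMF

private theorem surf_zero (G : ℂ[X][Y]) (h : ∀ t s : ℂ, evalEval t s G = 0) : G = 0 := by
  have h1 : ∀ t : ℂ, G.map (evalRingHom t) = 0 := by
    intro t
    refine Polynomial.funext fun s => ?_
    rw [Polynomial.eval_zero, Polynomial.eval_map, ← h t s, evalEval]
    rw [Polynomial.eval₂_eq_sum_range, Polynomial.eval_eq_sum_range (p := G) (x := C s),
      Polynomial.eval_finsetSum]
    refine Finset.sum_congr rfl fun i _ => ?_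
    simp
  ext n : 1
  refine Polynomial.funext fun t => ?_
  have h2 := congrArg (fun P => Polynomial.coeff P n) (h1 t)
  simpa using h2

private theorem surf_gp_aeval (α γ : Fin 3 → ℂ) (r p : ℂ) (hγ : ∀ j, γ j ≠ 0) (hr : r ≠ 0)
    (f : MvPolynomial (Fin 5) ℂ) :
    MvPolynomial.aeval (fun i => (gp α γ r p hγ hr i : FF)) f =
      algebraMap ℂ[X][Y] FF (MvPolynomial.aeval (co α γ r p) f) := by
  have h : (fun i => (gp α γ r p hγ hr i : FF)) =
      fun i => (Algebra.ofId ℂ[X][Y] FF).restrictScalars ℂ (co α γ r p i) := by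
    funext i
    exact (algebraMap_co α γ r p i).symm
  rw [h, ← MvPolynomial.comp_aeval_apply]
  rfl

private theorem surf_aeval (α γ : Fin 3 → ℂ) (r p : ℂ) (f : MvPolynomial (Fin 5) ℂ) (t s : ℂ) :
    MvPolynomial.eval (cv α γ r p t s) f = evalEval t s (MvPolynomial.aeval (co α γ r p) f) := by
  have h : cv α γ r p t s = fun i => aevalAeval t s (co α γ r p i) := by
    funext i
    exact (aeval_co α γ r p t s i).symm
  have h2 : MvPolynomial.aeval (fun i => aevalAeval t s (co α γ r p i)) f =
      aevalAeval t s (MvPolynomial.aeval (co α γ r p) f) := by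
    rw [← MvPolynomial.comp_aeval_apply]
  rw [h, ← coe_aevalAeval_eq_evalEval, ← h2, ← MvPolynomial.coe_aeval_eq_eval]
  rfl

private theorem surf_mem (α γ : Fin 3 → ℂ) (r p : ℂ) (z : Fin 5 → ℂˣ) :
    z ∈ surf α γ r p ↔ ∃ t s : ℂ, ∀ i, (z i : ℂ) = cv α γ r p t s i := by
  unfold surf cv
  constructor
  · rintro ⟨t, s, h0, h1, h2, h3, h4⟩
    refine ⟨t, s, fun i => ?_⟩
    fin_cases i
    · simpa using h0
    · simpa using h1
    · simpa using h2
    · simpa using h3
    · simpa using h4
  · rintro ⟨t, s, h⟩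
    refine ⟨t, s, ?_, ?_, ?_, ?_, ?_⟩
    · simpa using h 0
    · simpa using h 1
    · simpa using h 2
    · simpa using h 3
    · simpa using h 4

theorem surf_locus (α γ : Fin 3 → ℂ) (r p : ℂ) (hγ : ∀ j, γ j ≠ 0) (hr : r ≠ 0) :
    locus ℂ (gp α γ r p hγ hr) = vanIdeal (surf α γ r p) := by
  ext f
  rw [mem_locus, mem_vanIdeal, surf_gp_aeval]
  constructor
  · intro h z hz
    have h0 : MvPolynomial.aeval (co α γ r p) f = 0 := by
      apply IsFractionRing.injective ℂ[X][Y] FF
      rw [h, map_zero]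
    obtain ⟨t, s, hts⟩ := (surf_mem α γ r p z).mp hz
    have h1 : (fun i => (z i : ℂ)) = cv α γ r p t s := funext hts
    rw [h1, surf_aeval, h0]
    simp
  · intro h
    have h0 : MvPolynomial.aeval (co α γ r p) f * ∏ i, co α γ r p i = 0 := by
      apply surf_zero
      intro t s
      rw [← coe_aevalAeval_eq_evalEval, map_mul, map_prod]
      by_cases hc : ∀ i, cv α γ r p t s i ≠ 0
      · have h2 := h (fun i => Units.mk0 _ (hc i))
          ((surf_mem α γ r p _).mpr ⟨t, s, fun i => rfl⟩)
        have h3 : (fun i => ((Units.mk0 _ (hc i) : ℂˣ) : ℂ)) = cv α γ r p t s := rfl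
        rw [h3, surf_aeval, ← coe_aevalAeval_eq_evalEval] at h2
        rw [h2, zero_mul]
      · push Not at hc
        obtain ⟨i, hi⟩ := hc
        have h2 : aevalAeval t s (co α γ r p i) = 0 := by rw [aeval_co, hi]
        rw [Finset.prod_eq_zero (Finset.mem_univ i) h2, mul_zero]
    rcases mul_eq_zero.mp h0 with h1 | h1
    · rw [h1, map_zero]
    · exfalso
      rw [Finset.prod_eq_zero_iff] at h1
      obtain ⟨i, -, hi⟩ := h1
      exact (co_prime α γ r p hγ hr i).ne_zero hi

theorem surf_irr (α γ : Fin 3 → ℂ) (r p : ℂ) (hγ : ∀ j, γ j ≠ 0) (hr : r ≠ 0) :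
    IrrClosed (surf α γ r p) := by
  constructor
  · rw [← surf_locus α γ r p hγ hr]
    infer_instance
  · intro x hx
    have key : ∀ j : Fin 5, ∀ a b c : ℂ, (∀ z ∈ surf α γ r p,
        a * (z j : ℂ) - b * (z 0 : ℂ) - c = 0) → a * (x j : ℂ) - b * (x 0 : ℂ) - c = 0 := by
      intro j a b c h
      have h1 := hx (MvPolynomial.C a * MvPolynomial.X j - MvPolynomial.C b * MvPolynomial.X 0 -
        MvPolynomial.C c) (by
          rw [mem_vanIdeal]
          intro z hz
          simpa using h z hz)
      simpa using h1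
    refine ⟨(x 0 : ℂ) / γ 0 + α 0, x 3, ?_, ?_, ?_, rfl, ?_⟩
    · have := hγ 0
      field_simp
      ring
    · have h1 := key 1 (γ 0) (γ 1) (γ 0 * γ 1 * (α 0 - α 1)) (by
        rintro z ⟨t, s, h0, h1, h2, h3, h4⟩
        rw [h1, h0]
        ring)
      have := hγ 0
      field_simp
      linear_combination h1
    · have h1 := key 2 (γ 0) (γ 2) (γ 0 * γ 2 * (α 0 - α 2)) (by
        rintro z ⟨t, s, h0, h1, h2, h3, h4⟩
        rw [h2, h0]
        ring)
      have := hγ 0
      field_simp
      linear_combination h1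
    · have h1 := hx (MvPolynomial.X 4 - MvPolynomial.C r * MvPolynomial.X 3 - MvPolynomial.C p) (by
          rw [mem_vanIdeal]
          rintro z ⟨t, s, h0, h1, h2, h3, h4⟩
          simp only [map_sub, map_mul, MvPolynomial.eval_X, MvPolynomial.eval_C]
          rw [h4, h3]
          ring)
      simp only [map_sub, map_mul, MvPolynomial.eval_X, MvPolynomial.eval_C] at h1
      linear_combination h1

end BMF
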