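import Mathlib

/-! The tripod: for `y₂ = r y₁ + p` the vector `(log |y₁|, log |y₂|)` is close to one of three rays.

Proof.  Let `Λ` be large (say `Λ = |log ‖r‖| + |log ‖p‖| + 2`, one can take `C` a multiple of it).
If `log ‖y‖ ≤ -2Λ` then `‖r y‖ ≤ ‖p‖ / 2`, so `|log ‖r y + p‖ - log ‖p‖| ≤ log 2`: `k = 0`,
`x = - log ‖y‖`.  If `log ‖y‖ ≥ 2Λ` then `‖p‖ ≤ ‖r y‖ / 2`: `k = 2`, `x = log ‖y‖`.  Otherwise
`|log ‖y‖| ≤ 2Λ`, so `log ‖r y + p‖ ≤ 4Λ`: `k = 1`, `x = max (- log ‖r y + p‖) 0`. -/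

namespace BMF

/-- the three rays of the tripod -/
noncomputable def trp : Fin 3 → Fin 2 → ℝ := ![![-1, 0], ![0, -1], ![1, 1]]

private theorem Tripod_near (u v : ℂ) (hv : v ≠ 0) (h : ‖u‖ ≤ ‖v‖ / 2) :
    |Real.log ‖u + v‖ - Real.log ‖v‖| ≤ Real.log 2 := by
  have hv0 : 0 < ‖v‖ := norm_pos_iff.mpr hv
  have h1 : ‖v‖ / 2 ≤ ‖u + v‖ := by
    have := norm_sub_norm_le v (-u)
    rw [sub_neg_eq_add, norm_neg, add_comm v u] at this
    linarith
  have h2 : ‖u + v‖ ≤ 2 * ‖v‖ := by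
    have := norm_add_le u v
    linarith
  have h0 : 0 < ‖u + v‖ := by linarith
  have h3 : Real.log (‖v‖ / 2) ≤ Real.log ‖u + v‖ := Real.log_le_log (by linarith) h1
  have h4 : Real.log ‖u + v‖ ≤ Real.log (2 * ‖v‖) := Real.log_le_log h0 h2
  rw [Real.log_div hv0.ne' (by norm_num)] at h3
  rw [Real.log_mul (by norm_num) hv0.ne'] at h4
  rw [abs_le]
  constructor <;> linarith

theorem tripod (r p : ℂ) (hr : r ≠ 0) (hp : p ≠ 0) :
    ∃ C : ℝ, 0 ≤ C ∧ ∀ y : ℂ, y ≠ 0 → r * y + p ≠ 0 →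
      ∃ k : Fin 3, ∃ x : ℝ, 0 ≤ x ∧ |Real.log ‖y‖ - x * trp k 0| ≤ C ∧
        |Real.log ‖r * y + p‖ - x * trp k 1| ≤ C := by
  obtain ⟨L, hL⟩ : ∃ L : ℝ, L = |Real.log ‖r‖| + |Real.log ‖p‖| + 2 := ⟨_, rfl⟩
  have hr1 := le_abs_self (Real.log ‖r‖)
  have hr2 := neg_abs_le (Real.log ‖r‖)
  have hp1 := le_abs_self (Real.log ‖p‖)
  have hp2 := neg_abs_le (Real.log ‖p‖)
  have hr0 := abs_nonneg (Real.log ‖r‖)
  have hp0 := abs_nonneg (Real.log ‖p‖)
  have hl2 : Real.log 2 ≤ 1 := by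
    have := Real.log_two_lt_d9
    linarith
  have hl20 : 0 ≤ Real.log 2 := Real.log_nonneg (by norm_num)
  have hrn : 0 < ‖r‖ := norm_pos_iff.mpr hr
  have hpn : 0 < ‖p‖ := norm_pos_iff.mpr hp
  refine ⟨4 * L, by linarith, fun y hy hz => ?_⟩
  have hyn : 0 < ‖y‖ := norm_pos_iff.mpr hy
  have hlog : Real.log ‖r * y‖ = Real.log ‖r‖ + Real.log ‖y‖ := by
    rw [norm_mul, Real.log_mul hrn.ne' hyn.ne']
  have hryn : 0 < ‖r * y‖ := by rw [norm_mul]; positivity
  have hlh : ∀ t : ℝ, 0 < t → Real.log (t / 2) = Real.log t - Real.log 2 := fun t ht =>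
    Real.log_div ht.ne' (by norm_num)
  by_cases h1 : Real.log ‖y‖ ≤ -(2 * L)
  · refine ⟨0, -Real.log ‖y‖, by linarith, ?_, ?_⟩
    · have : Real.log ‖y‖ - -Real.log ‖y‖ * trp 0 0 = 0 := by simp [trp]
      rw [this, abs_zero]
      linarith
    · have h2 : ‖r * y‖ ≤ ‖p‖ / 2 := by
        rw [← Real.log_le_log_iff hryn (by positivity), hlog, hlh _ hpn]
        linarith
      have h3 := Tripod_near (r * y) p hp h2
      have h4 : Real.log ‖r * y + p‖ - -Real.log ‖y‖ * trp 0 1 = Real.log ‖r * y + p‖ := by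
        simp [trp]
      rw [h4]
      rw [abs_le] at h3 ⊢
      constructor <;> linarith [h3.1, h3.2]
  · by_cases h2 : 2 * L ≤ Real.log ‖y‖
    · refine ⟨2, Real.log ‖y‖, by linarith, ?_, ?_⟩
      · have : Real.log ‖y‖ - Real.log ‖y‖ * trp 2 0 = 0 := by simp [trp]
        rw [this, abs_zero]
        linarith
      · have h3 : ‖p‖ ≤ ‖r * y‖ / 2 := by
          rw [← Real.log_le_log_iff hpn (by positivity), hlh _ hryn, hlog]
          linarith
        have h4 := Tripod_near p (r * y) (mul_ne_zero hr hy) h3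
        rw [hlog, add_comm p] at h4
        have h5 : Real.log ‖r * y + p‖ - Real.log ‖y‖ * trp 2 1
            = Real.log ‖r * y + p‖ - Real.log ‖y‖ := by simp [trp]
        rw [h5]
        rw [abs_le] at h4 ⊢
        constructor <;> linarith [h4.1, h4.2]
    · push Not at h1 h2
      have hsn : 0 < ‖r * y + p‖ := norm_pos_iff.mpr hz
      have h3 : Real.log ‖r * y + p‖ ≤ 4 * L := by
        have h4 : ‖r * y + p‖ ≤ 2 * max ‖r * y‖ ‖p‖ := by
          have := norm_add_le (r * y) p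
          have h5 := le_max_left ‖r * y‖ ‖p‖
          have h6 := le_max_right ‖r * y‖ ‖p‖
          linarith
        have h5 : Real.log ‖r * y + p‖ ≤ Real.log (2 * max ‖r * y‖ ‖p‖) := Real.log_le_log hsn h4
        rw [Real.log_mul (by norm_num) (lt_max_of_lt_left hryn).ne'] at h5
        rcases max_choice ‖r * y‖ ‖p‖ with h6 | h6
        · rw [h6, hlog] at h5
          linarith
        · rw [h6] at h5
          linarith
      refine ⟨1, max (-Real.log ‖r * y + p‖) 0, le_max_right _ _, ?_, ?_⟩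
      · have : Real.log ‖y‖ - max (-Real.log ‖r * y + p‖) 0 * trp 1 0 = Real.log ‖y‖ := by
          simp [trp]
        rw [this, abs_le]
        constructor <;> linarith
      · have h7 : Real.log ‖r * y + p‖ - max (-Real.log ‖r * y + p‖) 0 * trp 1 1
            = Real.log ‖r * y + p‖ + max (-Real.log ‖r * y + p‖) 0 := by
          simp [trp]
        rw [h7]
        rcases le_total (Real.log ‖r * y + p‖) 0 with h8 | h8
        · rw [max_eq_left (by linarith), add_neg_cancel, abs_zero]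
          linarith
        · rw [max_eq_right (by linarith), add_zero, abs_of_nonneg h8]
          exact h3

end BMF
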