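import Pool.Agent.Lib.MP_a325a5_ag.F.TypB

/-! Zeros of `A` and `B` if a power of `B / A` is a monomial in the `c_j`.

Proofs.  `typ_fac`: clear denominators: `(±B) ^ |m| * ∏ c_j ^ .. = A ^ |m| * ∏ c_j ^ ..` in `L[X]`
(according to the signs of `m`, `e j`); an irreducible `π ∣ A` does not divide `B`, so it divides
some `c_j = γ j (X - α j)`; the same for `π ∣ B`.  `typ_mono`: by induction on the degree, or the
normalised factorisation: every irreducible factor is associated to some `X - α j`; the exponents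
are at most the degree, at most `2`. -/

open Polynomial Polynomial.Bivariate

namespace BMF

variable {L : Type} [Field L]

/-- the monic polynomial with zeros of order `e j` at `α j` -/
noncomputable def mon (α : Fin 3 → L) (e : Fin 3 → Fin 3) : L[X] :=
  ∏ j, (X - C (α j)) ^ (e j : ℕ)

private theorem typc_cv (α γ : Fin 3 → L) (r p : L) (φ : RatFunc L) (j : Fin 3) :
    cv α γ r p (RatFunc.X : RatFunc L) φ (Fin.castAdd 2 j) =
      algebraMap L[X] (RatFunc L) (C (γ j) * (X - C (α j))) := by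
  have h0 : ∀ a : L, algebraMap L (RatFunc L) a = algebraMap L[X] (RatFunc L) (C a) := fun a => by
    rw [RatFunc.algebraMap_C, RatFunc.algebraMap_eq_C]
  rw [map_mul, map_sub, RatFunc.algebraMap_X, ← h0, ← h0]
  fin_cases j <;> rfl

private theorem typc_pow {F : Type} [Field F] (x : F) (hx : x ≠ 0) (z : ℤ) :
    x ^ z * x ^ (-z).toNat = x ^ z.toNat := by
  rw [← zpow_natCast x (-z).toNat, ← zpow_natCast x z.toNat, ← zpow_add₀ hx]
  congr 1
  omega

private theorem typc_aux {R : Type} [CommRing R] [IsDomain R] (π U V A B : R) (hπ : Prime π) (k : ℕ)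
    (hk : k ≠ 0) (h : U ^ k * A = V ^ k * B) (hU : π ∣ U) (hV : ¬ π ∣ V) : π ∣ B := by
  have h1 : π ∣ V ^ k * B := by
    rw [← h]
    exact Dvd.dvd.mul_right (dvd_pow hU hk) A
  rcases hπ.dvd_or_dvd h1 with h2 | h2
  · exact absurd (hπ.dvd_of_dvd_pow h2) hV
  · exact h2

private theorem typc_prod (α γ : Fin 3 → L) (hγ : ∀ j, γ j ≠ 0) (e : Fin 3 → ℕ) (π : L[X])
    (hπ : Prime π) (h : π ∣ ∏ j : Fin 3, (C (γ j) * (X - C (α j))) ^ e j) :
    ∃ j, π ∣ X - C (α j) := by
  obtain ⟨j, -, h1⟩ := (hπ.dvd_finsetProd_iff _).mp h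
  have h2 := hπ.dvd_of_dvd_pow h1
  rcases hπ.dvd_or_dvd h2 with h3 | h3
  · exfalso
    exact hπ.not_isUnit (isUnit_of_dvd_unit h3 (isUnit_C.mpr (hγ j).isUnit))
  · exact ⟨j, h3⟩

theorem typ_fac (α γ : Fin 3 → L) (r p : L) (hγ : ∀ j, γ j ≠ 0) (A B : L[X]) (hA : A ≠ 0)
    (hB : B ≠ 0) (hco : IsCoprime A B) (φ : RatFunc L) (m : ℤ) (hm : m ≠ 0) (e : Fin 3 → ℤ)
    (h : (algebraMap L[X] (RatFunc L) B / algebraMap L[X] (RatFunc L) A) ^ m =
      ∏ j : Fin 3, cv α γ r p (RatFunc.X : RatFunc L) φ (Fin.castAdd 2 j) ^ e j) (π : L[X])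
    (hπ : Irreducible π) (hd : π ∣ A * B) : ∃ j, π ∣ X - C (α j) := by
  have hinj : Function.Injective (algebraMap L[X] (RatFunc L)) := RatFunc.algebraMap_injective L
  have hpr : Prime π := hπ.prime
  set a : RatFunc L := algebraMap L[X] (RatFunc L) A with ha
  set b : RatFunc L := algebraMap L[X] (RatFunc L) B with hb
  have ha0 : a ≠ 0 := by rw [ha, Ne, map_eq_zero_iff _ hinj]; exact hA
  have hb0 : b ≠ 0 := by rw [hb, Ne, map_eq_zero_iff _ hinj]; exact hB
  set c : Fin 3 → RatFunc L := fun j => algebraMap L[X] (RatFunc L) (C (γ j) * (X - C (α j))) with hc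
  have hc0 : ∀ j, c j ≠ 0 := by
    intro j
    rw [hc]
    simp only
    rw [Ne, map_eq_zero_iff _ hinj]
    exact mul_ne_zero (C_ne_zero.mpr (hγ j)) (X_sub_C_ne_zero _)
  have h1 : (b / a) ^ m = ∏ j : Fin 3, c j ^ e j := by
    rw [h]
    refine Finset.prod_congr rfl fun j _ => ?_
    rw [typc_cv]
  rw [div_zpow, div_eq_iff (zpow_ne_zero m ha0)] at h1
  have h2 : b ^ m.toNat * a ^ (-m).toNat * ∏ j : Fin 3, c j ^ (-e j).toNat =
      a ^ m.toNat * b ^ (-m).toNat * ∏ j : Fin 3, c j ^ (e j).toNat := by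
    have h3 : ∏ j : Fin 3, c j ^ (e j).toNat =
        (∏ j : Fin 3, c j ^ e j) * ∏ j : Fin 3, c j ^ (-e j).toNat := by
      rw [← Finset.prod_mul_distrib]
      refine Finset.prod_congr rfl fun j _ => ?_
      rw [typc_pow (c j) (hc0 j)]
    rw [← typc_pow b hb0 m, ← typc_pow a ha0 m, h3, h1]
    ring
  have h4 : B ^ m.toNat * A ^ (-m).toNat * ∏ j : Fin 3, (C (γ j) * (X - C (α j))) ^ (-e j).toNat =
      A ^ m.toNat * B ^ (-m).toNat * ∏ j : Fin 3, (C (γ j) * (X - C (α j))) ^ (e j).toNat := by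
    apply hinj
    simp only [map_mul, map_pow, map_prod]
    simp only [ha, hb, hc, map_mul] at h2
    exact h2
  have hnot : ∀ {U V : L[X]}, IsCoprime U V → π ∣ U → ¬ π ∣ V := by
    intro U V hUV h5 h6
    exact hpr.not_isUnit (hUV.isUnit_of_dvd' h5 h6)
  rcases hpr.dvd_or_dvd hd with hdA | hdB
  · have hnB := hnot hco hdA
    rcases lt_or_gt_of_ne hm with hlt | hgt
    · have e1 : m.toNat = 0 := by omega
      have e2 : (-m).toNat ≠ 0 := by omega
      rw [e1, pow_zero, pow_zero, one_mul, one_mul] at h4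
      exact typc_prod α γ hγ _ π hpr (typc_aux π A B _ _ hpr _ e2 h4 hdA hnB)
    · have e1 : (-m).toNat = 0 := by omega
      have e2 : m.toNat ≠ 0 := by omega
      rw [e1, pow_zero, pow_zero, mul_one, mul_one] at h4
      exact typc_prod α γ hγ _ π hpr (typc_aux π A B _ _ hpr _ e2 h4.symm hdA hnB)
  · have hnA := hnot hco.symm hdB
    rcases lt_or_gt_of_ne hm with hlt | hgt
    · have e1 : m.toNat = 0 := by omega
      have e2 : (-m).toNat ≠ 0 := by omega
      rw [e1, pow_zero, pow_zero, one_mul, one_mul] at h4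
      exact typc_prod α γ hγ _ π hpr (typc_aux π B A _ _ hpr _ e2 h4.symm hdB hnA)
    · have e1 : (-m).toNat = 0 := by omega
      have e2 : m.toNat ≠ 0 := by omega
      rw [e1, pow_zero, pow_zero, mul_one, mul_one] at h4
      exact typc_prod α γ hγ _ π hpr (typc_aux π B A _ _ hpr _ e2 h4 hdB hnA)

private theorem typc_mono (α : Fin 3 → L) : ∀ (n : ℕ) (P : L[X]), P ≠ 0 → P.natDegree ≤ n →
    (∀ π : L[X], Irreducible π → π ∣ P → ∃ j, π ∣ X - C (α j)) →
    ∃ (e : Fin 3 → ℕ) (c : L), c ≠ 0 ∧ P = C c * ∏ j, (X - C (α j)) ^ e j := by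
  intro n
  induction n with
  | zero =>
    intro P hP hdeg _
    obtain ⟨c, hc⟩ := natDegree_eq_zero.mp (Nat.le_zero.mp hdeg)
    refine ⟨fun _ => 0, c, ?_, ?_⟩
    · intro h0
      rw [h0, C_0] at hc
      exact hP hc.symm
    · simp [hc]
  | succ n ih =>
    intro P hP hdeg h
    by_cases hu : IsUnit P
    · refine ih P hP ?_ h
      rw [natDegree_eq_zero_of_isUnit hu]
      exact Nat.zero_le _
    obtain ⟨π, hπ, hπP⟩ := WfDvdMonoid.exists_irreducible_factor hu hP
    obtain ⟨j, hj⟩ := h π hπ hπP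
    have hass : Associated π (X - C (α j)) :=
      hπ.associated_of_dvd (irreducible_X_sub_C (α j)) hj
    obtain ⟨Q, hQ⟩ := hass.symm.dvd.trans hπP
    have hQ0 : Q ≠ 0 := by
      intro h0
      rw [h0, mul_zero] at hQ
      exact hP hQ
    have hQd : Q.natDegree ≤ n := by
      rw [hQ, natDegree_mul (X_sub_C_ne_zero _) hQ0, natDegree_X_sub_C] at hdeg
      omega
    obtain ⟨e, c, hc, hQe⟩ := ih Q hQ0 hQd fun π' hπ' hd' =>
      h π' hπ' (hd'.trans (by rw [hQ]; exact dvd_mul_left Q _))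
    refine ⟨e + Pi.single j 1, c, hc, ?_⟩
    rw [hQ, hQe]
    have h1 : ∏ k, (X - C (α k)) ^ (e + Pi.single j 1 : Fin 3 → ℕ) k =
        (∏ k, (X - C (α k)) ^ e k) * (X - C (α j)) := by
      simp only [Pi.add_apply, pow_add]
      rw [Finset.prod_mul_distrib]
      congr 1
      rw [Finset.prod_eq_single j]
      · simp
      · intro k _ hk
        simp [Pi.single_eq_of_ne hk]
      · intro hj'
        exact absurd (Finset.mem_univ j) hj'
    rw [h1]
    ring

theorem typ_mono (α : Fin 3 → L) (P : L[X]) (hP : P ≠ 0) (hdeg : P.natDegree ≤ 2)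
    (h : ∀ π : L[X], Irreducible π → π ∣ P → ∃ j, π ∣ X - C (α j)) :
    ∃ (e : Fin 3 → Fin 3) (c : L), c ≠ 0 ∧ P = C c * mon α e := by
  obtain ⟨e, c, hc, hPe⟩ := typc_mono α 2 P hP hdeg h
  have h1 : P.natDegree = ∑ j, e j := by
    rw [hPe, natDegree_C_mul hc, natDegree_prod_of_monic]
    · refine Finset.sum_congr rfl fun j _ => ?_
      rw [natDegree_pow, natDegree_X_sub_C, mul_one]
    · intro j _
      exact (monic_X_sub_C _).pow _
  have h2 : ∀ j, e j < 3 := by
    intro j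
    have h3 : e j ≤ ∑ j, e j := Finset.single_le_sum (fun _ _ => Nat.zero_le _) (Finset.mem_univ j)
    omega
  refine ⟨fun j => ⟨e j, h2 j⟩, c, hc, ?_⟩
  rw [hPe]
  rfl

end BMF
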