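import Pool.Agent.Lib.MP_a325a5_ag.F.TypA
import Pool.Agent.Lib.MP_a325a5_ag.F.TypC

/-! The anomalous curves have one of finitely many types.

Proof.  `typ_shape` gives `A`, `B`; `typ_rel` the two relations in `L(X)` with `φ = phi A B`:
`∏_{j < 3} c_j ^ a_j * φ ^ a_3 * (r φ + p) ^ a_4 = 1`, the same for `b`.
If `m = a_3 b_4 - a_4 b_3 = 0`: a nonzero integral combination of `a`, `b` has its last two entries
zero (if `a_3 = a_4 = 0` take `a` itself, otherwise combine with `a_3` or `a_4`; it is nonzero by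
independence), contradiction to `typ_indep` (`c = 1`).  So `m ≠ 0`, and
`φ ^ m = ∏ c_j ^ (a_4 b_j - b_4 a_j)`, `(r φ + p) ^ m = ∏ c_j ^ (a_j b_3 - b_j a_3)`.
`φ = -B / A`, `r φ + p = (p A - r B) / A`; `typ_fac` for the coprime pairs `(A, -B)` (or absorb the sign)
and `(A, p A - r B)` and `typ_mono` give `e`, `f`, `g`.
If `e = f` then `A`, `B` are proportional and coprime, hence constants, so `φ` is a constant, and both
`∏_{j < 3} c_j ^ a_j` and `∏_{j < 3} c_j ^ b_j` are constants, so `a_j = b_j = 0` for `j < 3`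
(`typ_indep`), `nn a = nn b = 0` and `Q = 0`: contradiction. -/

open Polynomial Polynomial.Bivariate

namespace BMF

variable {L : Type} [Field L]

/-- the type of an anomalous curve -/
def IsTyp (α : Fin 3 → L) (r p : L) (e f g : Fin 3 → Fin 3) (q : L[X][Y]) : Prop :=
  ∃ A₀ B₀ E₀ : L, A₀ ≠ 0 ∧ B₀ ≠ 0 ∧ E₀ ≠ 0 ∧ e ≠ f ∧
    q = C (C A₀ * mon α e) * Y + C (C B₀ * mon α f) ∧
    C p * (C A₀ * mon α e) - C r * (C B₀ * mon α f) = C E₀ * mon α g

private theorem typ_alg (c : L) : algebraMap L (RatFunc L) c = algebraMap L[X] (RatFunc L) (C c) := by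
  rw [RatFunc.algebraMap_C, RatFunc.algebraMap_eq_C]

private theorem typ_split (α γ : Fin 3 → L) (r p : L) {K : Type} [Field K] [Algebra L K] (t s : K)
    (v : Fin 5 → ℤ) : ∏ i, cv α γ r p t s i ^ v i =
      (∏ j : Fin 3, cv α γ r p t s (Fin.castAdd 2 j) ^ v (Fin.castAdd 2 j)) *
        s ^ v 3 * (algebraMap L K r * s + algebraMap L K p) ^ v 4 := by
  rw [Fin.prod_univ_five, Fin.prod_univ_three]
  rfl

theorem exists_typ [CharZero L] (α γ : Fin 3 → L) (r p : L) (hα : Function.Injective α)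
    (hγ : ∀ j, γ j ≠ 0) (hr : r ≠ 0) (hp : p ≠ 0) (q : L[X][Y]) (hq : Irreducible q)
    (hdeg : q.natDegree ≠ 0) (hco : ∀ i, ¬ q ∣ co α γ r p i) (a b : Fin 5 → ℤ)
    (hab : LinearIndependent ℤ ![a, b]) (ha : q ∣ bin α γ r p a) (hb : q ∣ bin α γ r p b)
    (hQ : C (nn α γ a) * ll r p b - C (nn α γ b) * ll r p a ≠ 0) :
    ∃ e f g : Fin 3 → Fin 3, IsTyp α r p e f g q := by
  obtain ⟨A, B, hA, hB, hE, hAB, hdA, hdB, hqe⟩ :=
    typ_shape α γ r p hr q hq hdeg hco a b ha hb hQ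
  set E : L[X] := C p * A - C r * B with hEdef
  set φ : RatFunc L := phi A B with hφ
  set ψ : RatFunc L := algebraMap L (RatFunc L) r * φ + algebraMap L (RatFunc L) p with hψ
  have hne := cv_ne α γ r p hγ A B hA hB hE
  rw [← hφ] at hne
  have hφ0 : φ ≠ 0 := hne 3
  have hψ0 : ψ ≠ 0 := hne 4
  have hRa := typ_rel α γ r p hγ A B hA hB hE a (by rw [← hqe]; exact ha)
  have hRb := typ_rel α γ r p hγ A B hA hB hE b (by rw [← hqe]; exact hb)
  rw [← hφ] at hRa hRb
  have hcomb : ∀ x y : ℤ, (∏ j : Fin 3, cv α γ r p (RatFunc.X : RatFunc L) φ (Fin.castAdd 2 j) ^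
      (x * a (Fin.castAdd 2 j) + y * b (Fin.castAdd 2 j))) *
        φ ^ (x * a 3 + y * b 3) * ψ ^ (x * a 4 + y * b 4) = 1 := by
    intro x y
    have h1 := typ_split α γ r p (RatFunc.X : RatFunc L) φ (fun i => x * a i + y * b i)
    rw [hψ, ← h1]
    have h2 : ∏ i, cv α γ r p (RatFunc.X : RatFunc L) φ i ^ (x * a i + y * b i) =
        (∏ i, cv α γ r p (RatFunc.X : RatFunc L) φ i ^ a i) ^ x *
        (∏ i, cv α γ r p (RatFunc.X : RatFunc L) φ i ^ b i) ^ y := by
      rw [← Finset.prod_zpow, ← Finset.prod_zpow, ← Finset.prod_mul_distrib]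
      refine Finset.prod_congr rfl fun i _ => ?_
      rw [zpow_add₀ (hne i), mul_comm x, mul_comm y, zpow_mul, zpow_mul]
    rw [h2, hRa, hRb, one_zpow, one_zpow, one_mul]
  have hinj : Function.Injective (algebraMap L[X] (RatFunc L)) := RatFunc.algebraMap_injective L
  have hA' : algebraMap L[X] (RatFunc L) A ≠ 0 := by rw [Ne, map_eq_zero_iff _ hinj]; exact hA
  -- the determinant
  set m : ℤ := a 3 * b 4 - a 4 * b 3 with hm
  have hm0 : m ≠ 0 := by
    intro hm0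
    obtain ⟨x, y, hxy, h3, h4⟩ : ∃ x y : ℤ, ¬ (x = 0 ∧ y = 0) ∧ x * a 3 + y * b 3 = 0 ∧
        x * a 4 + y * b 4 = 0 := by
      by_cases h1 : a 3 = 0 ∧ b 3 = 0
      · by_cases h2 : a 4 = 0 ∧ b 4 = 0
        · exact ⟨1, 0, by simp, by rw [h1.1]; ring, by rw [h2.1]; ring⟩
        · refine ⟨b 4, -a 4, ?_, by rw [h1.1, h1.2]; ring, by ring⟩
          intro h
          exact h2 ⟨by linarith [h.2], h.1⟩
      · refine ⟨b 3, -a 3, ?_, by ring, ?_⟩
        · intro h
          exact h1 ⟨by linarith [h.2], h.1⟩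
        · have : b 3 * a 4 + -a 3 * b 4 = -m := by rw [hm]; ring
          rw [this, hm0, neg_zero]
    have h5 := hcomb x y
    rw [h3, h4, zpow_zero, zpow_zero, mul_one, mul_one] at h5
    have h6 := typ_indep α γ r p hα hγ hr hp φ
      (fun j => x * a (Fin.castAdd 2 j) + y * b (Fin.castAdd 2 j)) 1 (by rw [h5, map_one])
    have h7 : x • a + y • b = 0 := by
      funext i
      have e0 := congrFun h6 0
      have e1 := congrFun h6 1
      have e2 := congrFun h6 2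
      simp only [Pi.add_apply, Pi.smul_apply, smul_eq_mul, Pi.zero_apply]
      fin_cases i
      · exact e0
      · exact e1
      · exact e2
      · exact h3
      · exact h4
    exact hxy (LinearIndependent.pair_iff.mp hab x y h7)
  have hinv : ∀ (v : Fin 3 → ℤ) (w : RatFunc L),
      (∏ j : Fin 3, cv α γ r p (RatFunc.X : RatFunc L) φ (Fin.castAdd 2 j) ^ v j) * w = 1 →
      w = ∏ j : Fin 3, cv α γ r p (RatFunc.X : RatFunc L) φ (Fin.castAdd 2 j) ^ (-v j) := by
    intro v w h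
    have h1 : ∏ j : Fin 3, cv α γ r p (RatFunc.X : RatFunc L) φ (Fin.castAdd 2 j) ^ (-v j) =
        (∏ j : Fin 3, cv α γ r p (RatFunc.X : RatFunc L) φ (Fin.castAdd 2 j) ^ v j)⁻¹ := by
      rw [← Finset.prod_inv_distrib]
      refine Finset.prod_congr rfl fun j _ => ?_
      rw [zpow_neg]
    rw [h1]
    exact eq_inv_of_mul_eq_one_right h
  have hφm : φ ^ m = ∏ j : Fin 3, cv α γ r p (RatFunc.X : RatFunc L) φ (Fin.castAdd 2 j) ^
      (-(b 4 * a (Fin.castAdd 2 j) + -a 4 * b (Fin.castAdd 2 j))) := by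
    have h1 := hcomb (b 4) (-a 4)
    have h3 : b 4 * a 3 + -a 4 * b 3 = m := by rw [hm]; ring
    have h4 : b 4 * a 4 + -a 4 * b 4 = 0 := by ring
    rw [h3, h4, zpow_zero, mul_one] at h1
    exact hinv _ _ h1
  have hψm : ψ ^ m = ∏ j : Fin 3, cv α γ r p (RatFunc.X : RatFunc L) φ (Fin.castAdd 2 j) ^
      (-(-b 3 * a (Fin.castAdd 2 j) + a 3 * b (Fin.castAdd 2 j))) := by
    have h1 := hcomb (-b 3) (a 3)
    have h3 : -b 3 * a 3 + a 3 * b 3 = 0 := by ring
    have h4 : -b 3 * a 4 + a 3 * b 4 = m := by rw [hm]; ring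
    rw [h3, h4, zpow_zero, mul_one] at h1
    exact hinv _ _ h1
  have hφe : φ = algebraMap L[X] (RatFunc L) (-B) / algebraMap L[X] (RatFunc L) A := by
    rw [hφ, map_neg]
    rfl
  have hψe : ψ = algebraMap L[X] (RatFunc L) E / algebraMap L[X] (RatFunc L) A := by
    rw [hψ, hφe, hEdef, typ_alg, typ_alg, map_sub, map_mul, map_mul, map_neg]
    field_simp
    ring
  have hAE : IsCoprime A E := by
    have h1 : IsCoprime A (C r * B) := by
      refine IsCoprime.mul_right ?_ hAB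
      exact ⟨0, C r⁻¹, by rw [zero_mul, zero_add, ← C_mul, inv_mul_cancel₀ hr, C_1]⟩
    have h2 : IsCoprime A (-(C r * B) + A * C p) := (IsCoprime.add_mul_left_right h1.neg_right (C p))
    have h3 : -(C r * B) + A * C p = E := by rw [hEdef]; ring
    rwa [h3] at h2
  have hf1 : ∀ π : L[X], Irreducible π → π ∣ A * -B → ∃ j, π ∣ X - C (α j) := fun π hπ hd =>
    typ_fac α γ r p hγ A (-B) hA (neg_ne_zero.mpr hB) hAB.neg_right φ m hm0 _
      (by rw [← hφe]; exact hφm) π hπ hd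
  have hf2 : ∀ π : L[X], Irreducible π → π ∣ A * E → ∃ j, π ∣ X - C (α j) := fun π hπ hd =>
    typ_fac α γ r p hγ A E hA hE hAE φ m hm0 _ (by rw [← hψe]; exact hψm) π hπ hd
  have hdE : E.natDegree ≤ 2 := by
    rw [hEdef]
    refine (natDegree_sub_le _ _).trans (max_le ?_ ?_)
    · exact (natDegree_C_mul_le _ _).trans hdA
    · exact (natDegree_C_mul_le _ _).trans hdB
  obtain ⟨e, A₀, hA₀, hAe⟩ := typ_mono α A hA hdA fun π hπ hd =>
    hf1 π hπ (hd.trans (dvd_mul_right A _))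
  obtain ⟨f, B₀, hB₀, hBe⟩ := typ_mono α B hB hdB fun π hπ hd =>
    hf1 π hπ ((dvd_neg.mpr hd).trans (dvd_mul_left _ A))
  obtain ⟨g, E₀, hE₀, hEe⟩ := typ_mono α E hE hdE fun π hπ hd =>
    hf2 π hπ (hd.trans (dvd_mul_left E _))
  refine ⟨e, f, g, A₀, B₀, E₀, hA₀, hB₀, hE₀, ?_, ?_, ?_⟩
  · intro hef
    -- the constants
    have hmu : IsUnit (mon α e) := by
      refine hAB.isUnit_of_dvd' ?_ ?_
      · rw [hAe]; exact dvd_mul_left _ _
      · rw [hBe, hef]; exact dvd_mul_left _ _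
    have hmon : (mon α e).Monic := by
      unfold mon
      exact monic_prod_of_monic _ _ fun j _ => (monic_X_sub_C _).pow _
    have hm1 : mon α e = 1 := hmon.eq_one_of_isUnit hmu
    have hA1 : A = C A₀ := by rw [hAe, hm1, mul_one]
    have hB1 : B = C B₀ := by rw [hBe, ← hef, hm1, mul_one]
    have hφc : φ = algebraMap L (RatFunc L) (-B₀ / A₀) := by
      rw [hφe, hA1, hB1, map_div₀, map_neg, map_neg, typ_alg, typ_alg]
    have hψc : ψ = algebraMap L (RatFunc L) (r * (-B₀ / A₀) + p) := by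
      rw [hψ, hφc, map_add, map_mul]
    have hz : ∀ v : Fin 5 → ℤ, (∏ i, cv α γ r p (RatFunc.X : RatFunc L) φ i ^ v i = 1) →
        v 0 = 0 ∧ v 1 = 0 ∧ v 2 = 0 := by
      intro v hv
      rw [typ_split, ← hψ, mul_assoc] at hv
      have h1 := eq_inv_of_mul_eq_one_left hv
      have h2 := typ_indep α γ r p hα hγ hr hp φ (fun j => v (Fin.castAdd 2 j))
        (((-B₀ / A₀) ^ v 3 * (r * (-B₀ / A₀) + p) ^ v 4)⁻¹) (by
          rw [h1, map_inv₀, map_mul, map_zpow₀, map_zpow₀, ← hφc, ← hψc])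
      exact ⟨congrFun h2 0, congrFun h2 1, congrFun h2 2⟩
    obtain ⟨a0, a1, a2⟩ := hz a hRa
    obtain ⟨b0, b1, b2⟩ := hz b hRb
    apply hQ
    have h1 : nn α γ a = 0 := by unfold nn; rw [a0, a1, a2]; simp
    have h2 : nn α γ b = 0 := by unfold nn; rw [b0, b1, b2]; simp
    rw [h1, h2]
    simp
  · rw [hqe, hAe, hBe]
  · rw [← hAe, ← hBe, ← hEe]

end BMF
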