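import Pool.Agent.Lib.MP_a325a5_ag.F.Grad

/-! The shape of a common factor of two binomials.

Proof.  By `grad`, `q` divides `Q = nn a * ll b - nn b * ll a`, which is nonzero of degree at most `1`
in `Y`; so `q.natDegree = 1`, `q = C A * Y + C B`, `A ≠ 0`, and `Q = q * C h`, `h ≠ 0`.  The
coefficients of `Q` have degree at most `2` (`nn` has degree at most two, `ll` has constant
coefficients), they are `A h` and `B h`, so `A`, `B` have degree at most `2`.  If `B = 0` then `Y`
divides `q`, so `q ∣ Y = co 3` (irreducible).  If `p A = r B` then `r q = C A * (r Y + p)`, so `q` divides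
`co 4`.  A common divisor of `A`, `B` divides `q`, so it is a unit: relatively prime, and `IsCoprime` in
the principal ideal domain `L[X]`. -/

open Polynomial Polynomial.Bivariate

namespace BMF

variable {L : Type} [Field L]

theorem typA_ll (r p : L) (a : Fin 5 → ℤ) :
    ll r p a = C (C ((a 3 : L) * r + (a 4 : L) * r)) * Y + C (C ((a 3 : L) * p)) := by
  unfold ll
  simp only [map_add, map_mul]
  ring

theorem typA_nn (α γ : Fin 3 → L) (a : Fin 5 → ℤ) : (nn α γ a).natDegree ≤ 2 := by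
  have h : ∀ c u v : L, (C c * ((X - C u) * (X - C v))).natDegree ≤ 2 := by
    intro c u v
    refine (natDegree_C_mul_le _ _).trans (natDegree_mul_le.trans ?_)
    rw [natDegree_X_sub_C, natDegree_X_sub_C]
  unfold nn
  exact (natDegree_add_le _ _).trans
    (max_le ((natDegree_add_le _ _).trans (max_le (h _ _ _) (h _ _ _))) (h _ _ _))

theorem typA_mul (f : L[X]) (hf : f.natDegree ≤ 2) (c : L) : (f * C c).natDegree ≤ 2 :=
  (natDegree_mul_C_le _ _).trans hf

theorem typA_c1 (u v : L[X]) : (C u * Y + C v : L[X][Y]).coeff 1 = u := by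
  simp [coeff_C]

theorem typA_c0 (u v : L[X]) : (C u * Y + C v : L[X][Y]).coeff 0 = v := by
  simp

theorem typ_shape [CharZero L] (α γ : Fin 3 → L) (r p : L) (hr : r ≠ 0) (q : L[X][Y])
    (hq : Irreducible q) (hdeg : q.natDegree ≠ 0) (hco : ∀ i, ¬ q ∣ co α γ r p i)
    (a b : Fin 5 → ℤ) (ha : q ∣ bin α γ r p a) (hb : q ∣ bin α γ r p b)
    (hQ : C (nn α γ a) * ll r p b - C (nn α γ b) * ll r p a ≠ 0) :
    ∃ A B : L[X], A ≠ 0 ∧ B ≠ 0 ∧ C p * A - C r * B ≠ 0 ∧ IsCoprime A B ∧ A.natDegree ≤ 2 ∧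
      B.natDegree ≤ 2 ∧ q = C A * Y + C B := by
  obtain ⟨u, hu⟩ := grad α γ r p q hq hdeg hco a b ha hb
  have hu0 : u ≠ 0 := by
    rintro rfl
    exact hQ (by rw [hu, mul_zero])
  have hform : q * u = C (nn α γ a * C ((b 3 : L) * r + (b 4 : L) * r) -
      nn α γ b * C ((a 3 : L) * r + (a 4 : L) * r)) * Y +
      C (nn α γ a * C ((b 3 : L) * p) - nn α γ b * C ((a 3 : L) * p)) := by
    rw [← hu, typA_ll, typA_ll]
    simp only [map_sub, map_mul, map_add]
    ring
  have hQd : (q * u).natDegree ≤ 1 := by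
    rw [hform]
    exact natDegree_linear_le
  have hsum : (q * u).natDegree = q.natDegree + u.natDegree := natDegree_mul hq.ne_zero hu0
  have hq1 : q.natDegree = 1 := by omega
  have hu1 : u.natDegree = 0 := by omega
  obtain ⟨h, hh⟩ : ∃ h : L[X], u = C h := ⟨_, eq_C_of_natDegree_eq_zero hu1⟩
  have hh0 : h ≠ 0 := by
    rintro rfl
    exact hu0 (by rw [hh, map_zero])
  obtain ⟨A, hA⟩ : ∃ A : L[X], A = q.coeff 1 := ⟨_, rfl⟩
  obtain ⟨B, hB⟩ : ∃ B : L[X], B = q.coeff 0 := ⟨_, rfl⟩
  have hqf : q = C A * Y + C B := by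
    rw [hA, hB]
    exact eq_X_add_C_of_natDegree_le_one hq1.le
  have hA0 : A ≠ 0 := by
    rw [hA, ← hq1]
    exact leadingCoeff_ne_zero.mpr hq.ne_zero
  have c1 : A * h = nn α γ a * C ((b 3 : L) * r + (b 4 : L) * r) -
      nn α γ b * C ((a 3 : L) * r + (a 4 : L) * r) := by
    have h1 := congrArg (fun f : L[X][Y] => f.coeff 1) hform
    simp only [hh, coeff_mul_C] at h1
    rw [← hA, typA_c1] at h1
    exact h1
  have c0 : B * h = nn α γ a * C ((b 3 : L) * p) - nn α γ b * C ((a 3 : L) * p) := by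
    have h1 := congrArg (fun f : L[X][Y] => f.coeff 0) hform
    simp only [hh, coeff_mul_C] at h1
    rw [← hB, typA_c0] at h1
    exact h1
  have hAd : A.natDegree ≤ 2 := by
    have h1 : (A * h).natDegree ≤ 2 := by
      rw [c1]
      exact (natDegree_sub_le _ _).trans
        (max_le (typA_mul _ (typA_nn α γ a) _) (typA_mul _ (typA_nn α γ b) _))
    rw [natDegree_mul hA0 hh0] at h1
    omega
  have hB0 : B ≠ 0 := by
    intro hB0
    rw [hB0, map_zero, add_zero] at hqf
    have h1 : ¬ IsUnit (Y : L[X][Y]) := not_isUnit_X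
    have h2 := (hq.isUnit_or_isUnit hqf).resolve_right h1
    refine hco 3 ?_
    change q ∣ Y
    rw [hqf]
    obtain ⟨w, hw⟩ := h2
    rw [← hw]
    exact (Units.mul_left_dvd).mpr dvd_rfl
  have hBd : B.natDegree ≤ 2 := by
    have h1 : (B * h).natDegree ≤ 2 := by
      rw [c0]
      exact (natDegree_sub_le _ _).trans
        (max_le (typA_mul _ (typA_nn α γ a) _) (typA_mul _ (typA_nn α γ b) _))
    rw [natDegree_mul hB0 hh0] at h1
    omega
  have hpr : C p * A - C r * B ≠ 0 := by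
    intro h0
    have h1 : C p * A = C r * B := sub_eq_zero.mp h0
    have h2 : q = (C (C r⁻¹) * C A) * (C (C r) * Y + C (C p)) := by
      have e1 : (C (C r⁻¹) : L[X][Y]) * C (C r) = 1 := by
        rw [← map_mul, ← map_mul, inv_mul_cancel₀ hr, map_one, map_one]
      have e2 : (C (C p) : L[X][Y]) * C A = C (C r) * C B := by
        rw [← map_mul, ← map_mul, h1]
      calc q = C A * Y + C B := hqf
        _ = (C (C r⁻¹) * C (C r)) * (C A * Y) + (C (C r⁻¹) * C (C r)) * C B := by
          rw [e1, one_mul, one_mul]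
        _ = (C (C r⁻¹) * C (C r)) * (C A * Y) + C (C r⁻¹) * (C (C p) * C A) := by
          rw [e2, mul_assoc (C (C r⁻¹)) (C (C r)) (C B)]
        _ = (C (C r⁻¹) * C A) * (C (C r) * Y + C (C p)) := by ring
    have h3 : ¬ IsUnit (C (C r) * Y + C (C p) : L[X][Y]) := by
      intro h4
      have h5 := natDegree_eq_zero_of_isUnit h4
      rw [natDegree_linear (C_ne_zero.mpr hr)] at h5
      omega
    have h4 := (hq.isUnit_or_isUnit h2).resolve_right h3
    refine hco 4 ?_
    change q ∣ C (C r) * Y + C (C p)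
    rw [h2]
    obtain ⟨w, hw⟩ := h4
    rw [← hw]
    exact (Units.mul_left_dvd).mpr dvd_rfl
  refine ⟨A, B, hA0, hB0, hpr, ?_, hAd, hBd, hqf⟩
  refine isCoprime_of_dvd A B (fun h0 => hA0 h0.1) ?_
  intro z hz hz0 hzA hzB
  obtain ⟨A', hA'⟩ := hzA
  obtain ⟨B', hB'⟩ := hzB
  have h1 : q = C z * (C A' * Y + C B') := by
    rw [hqf, hA', hB', map_mul, map_mul]
    ring
  rcases hq.isUnit_or_isUnit h1 with h2 | h2
  · exact hz (isUnit_C.mp h2)
  · have h3 := natDegree_eq_zero_of_isUnit h2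
    have h4 : C A' * Y + C B' ≠ (0 : L[X][Y]) := h2.ne_zero
    have h5 : q.natDegree = 0 := by
      rw [h1, natDegree_mul (C_ne_zero.mpr hz0) h4, natDegree_C, h3]
    exact hdeg h5

end BMF
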