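import Pool.Agent.Lib.MP_a325a5_ag.F.CoPr

/-! The relations on a curve `A Y + B = 0`, in the field `L(X)`.

Proof of `typ_rel`.  `aevalAeval X φ` with `φ = -B / A` kills `C A * Y + C B`, hence `bin a`; the values
`cv X φ i` are nonzero (`X ≠ α j`, `φ ≠ 0`, `r φ + p = (p A - r B) / A ≠ 0`); `aeval_bin`.
`typ_indep` (the first three entries of `cv` do not depend on `φ`): clear denominators:
`∏ (γ j (X - α j)) ^ (e j)⁺ = c ∏ (γ j (X - α j)) ^ (e j)⁻` in `L[X]`, `c ≠ 0`; if `e j > 0` the left side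
vanishes at `α j` and the right side does not; the same if `e j < 0`. -/

open Polynomial Polynomial.Bivariate

namespace BMF

variable {L : Type} [Field L]

/-- the function `-B / A` -/
noncomputable def phi (A B : L[X]) : RatFunc L :=
  -(algebraMap L[X] (RatFunc L) B) / algebraMap L[X] (RatFunc L) A

private theorem TypB_alg (c : L) :
    algebraMap L (RatFunc L) c = algebraMap L[X] (RatFunc L) (C c) := by
  rw [RatFunc.algebraMap_C, RatFunc.algebraMap_eq_C]

private theorem TypB_ne {q : L[X]} (h : q ≠ 0) : algebraMap L[X] (RatFunc L) q ≠ 0 :=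
  RatFunc.algebraMap_ne_zero h

private theorem TypB_lin (γ α : L) :
    algebraMap L (RatFunc L) γ * ((RatFunc.X : RatFunc L) - algebraMap L (RatFunc L) α) =
      algebraMap L[X] (RatFunc L) (C γ * (X - C α)) := by
  rw [TypB_alg, TypB_alg, map_mul, map_sub, RatFunc.algebraMap_X]

private theorem TypB_lin_ne (γ α : L) (hγ : γ ≠ 0) :
    algebraMap L (RatFunc L) γ * ((RatFunc.X : RatFunc L) - algebraMap L (RatFunc L) α) ≠ 0 := by
  rw [TypB_lin]
  exact TypB_ne (mul_ne_zero (C_ne_zero.2 hγ) (X_sub_C_ne_zero α))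

theorem cv_ne (α γ : Fin 3 → L) (r p : L) (hγ : ∀ j, γ j ≠ 0) (A B : L[X]) (hA : A ≠ 0)
    (hB : B ≠ 0) (hE : C p * A - C r * B ≠ 0) (i : Fin 5) :
    cv α γ r p (RatFunc.X : RatFunc L) (phi A B) i ≠ 0 := by
  have hphi : phi A B ≠ 0 := by
    unfold phi
    exact div_ne_zero (neg_ne_zero.2 (TypB_ne hB)) (TypB_ne hA)
  have h4 : algebraMap L (RatFunc L) r * phi A B + algebraMap L (RatFunc L) p ≠ 0 := by
    have : algebraMap L (RatFunc L) r * phi A B + algebraMap L (RatFunc L) p =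
        algebraMap L[X] (RatFunc L) (C p * A - C r * B) / algebraMap L[X] (RatFunc L) A := by
      unfold phi
      rw [TypB_alg, TypB_alg, map_sub, map_mul, map_mul]
      field_simp [TypB_ne hA]
      ring
    rw [this]
    exact div_ne_zero (TypB_ne hE) (TypB_ne hA)
  fin_cases i
  · exact TypB_lin_ne _ _ (hγ 0)
  · exact TypB_lin_ne _ _ (hγ 1)
  · exact TypB_lin_ne _ _ (hγ 2)
  · exact hphi
  · exact h4

theorem typ_rel (α γ : Fin 3 → L) (r p : L) (hγ : ∀ j, γ j ≠ 0) (A B : L[X]) (hA : A ≠ 0)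
    (hB : B ≠ 0) (hE : C p * A - C r * B ≠ 0) (a : Fin 5 → ℤ)
    (h : (C A * Y + C B) ∣ bin α γ r p a) :
    ∏ i, cv α γ r p (RatFunc.X : RatFunc L) (phi A B) i ^ a i = 1 := by
  rw [← aeval_bin α γ r p _ _ (cv_ne α γ r p hγ A B hA hB hE)]
  obtain ⟨q, hq⟩ := h
  rw [hq, map_mul]
  have h0 : aevalAeval (RatFunc.X : RatFunc L) (phi A B) (C A * Y + C B) = 0 := by
    have hX : ∀ q : L[X], aeval (RatFunc.X : RatFunc L) q = algebraMap L[X] (RatFunc L) q := by
      intro q
      rw [← RatFunc.algebraMap_X, aeval_algebraMap_apply, aeval_X_left_apply]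
    rw [map_add, map_mul, aevalAeval_C, aevalAeval_C, aevalAeval_Y, hX, hX]
    unfold phi
    field_simp [TypB_ne hA]
    ring
  rw [h0, zero_mul]

theorem typ_indep (α γ : Fin 3 → L) (r p : L) (hα : Function.Injective α) (hγ : ∀ j, γ j ≠ 0)
    (hr : r ≠ 0) (hp : p ≠ 0) (φ : RatFunc L) (e : Fin 3 → ℤ) (c : L)
    (h : ∏ j : Fin 3, cv α γ r p (RatFunc.X : RatFunc L) φ (Fin.castAdd 2 j) ^ e j =
      algebraMap L (RatFunc L) c) : e = 0 := by
  have hcv : ∀ j : Fin 3, cv α γ r p (RatFunc.X : RatFunc L) φ (Fin.castAdd 2 j) =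
      algebraMap L[X] (RatFunc L) (C (γ j) * (X - C (α j))) := by
    intro j
    rw [← TypB_lin]
    fin_cases j <;> rfl
  set u : Fin 3 → L[X] := fun j => C (γ j) * (X - C (α j)) with hu
  have hu0 : ∀ j, algebraMap L[X] (RatFunc L) (u j) ≠ 0 := fun j =>
    TypB_ne (mul_ne_zero (C_ne_zero.2 (hγ j)) (X_sub_C_ne_zero (α j)))
  have hev : ∀ j k, k ≠ j → eval (α j) (u k) ≠ 0 := by
    intro j k hkj
    simp only [hu, eval_mul, eval_C, eval_sub, eval_X]
    exact mul_ne_zero (hγ k) (sub_ne_zero.2 (fun hh => hkj (hα hh).symm))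
  have hev0 : ∀ j, eval (α j) (u j) = 0 := by
    intro j
    simp [hu]
  have hpoly : ∏ j, u j ^ (e j).toNat = C c * ∏ j, u j ^ (-e j).toNat := by
    apply RatFunc.algebraMap_injective L
    rw [map_mul, map_prod, map_prod, ← TypB_alg, ← h, ← Finset.prod_mul_distrib]
    apply Finset.prod_congr rfl
    intro j _
    rw [hcv j, map_pow, map_pow, ← zpow_natCast, ← zpow_natCast, ← zpow_add₀ (hu0 j)]
    congr 1
    omega
  have hc : c ≠ 0 := by
    rintro rfl
    rw [map_zero] at h
    rw [Finset.prod_eq_zero_iff] at h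
    obtain ⟨j, _, hj⟩ := h
    have := zpow_ne_zero (e j) (hu0 j)
    rw [hcv j] at hj
    exact this hj
  funext j
  have h1 := congrArg (eval (α j)) hpoly
  rw [eval_mul, eval_C, eval_prod, eval_prod] at h1
  simp only [eval_pow] at h1
  rw [Pi.zero_apply]
  by_contra hne
  rcases lt_or_gt_of_ne hne with hlt | hgt
  · -- e j < 0 : right side vanishes
    have hr0 : ∏ k, eval (α j) (u k) ^ (-e k).toNat = 0 := by
      apply Finset.prod_eq_zero (Finset.mem_univ j)
      rw [hev0, zero_pow]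
      omega
    rw [hr0, mul_zero, Finset.prod_eq_zero_iff] at h1
    obtain ⟨k, _, hk⟩ := h1
    by_cases hkj : k = j
    · subst hkj
      have : (e k).toNat = 0 := by omega
      rw [this, pow_zero] at hk
      exact one_ne_zero hk
    · exact pow_ne_zero _ (hev j k hkj) hk
  · have hr0 : ∏ k, eval (α j) (u k) ^ (e k).toNat = 0 := by
      apply Finset.prod_eq_zero (Finset.mem_univ j)
      rw [hev0, zero_pow]
      omega
    rw [hr0] at h1
    have h2 := (mul_eq_zero.1 h1.symm).resolve_left hc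
    rw [Finset.prod_eq_zero_iff] at h2
    obtain ⟨k, _, hk⟩ := h2
    by_cases hkj : k = j
    · subst hkj
      have : (-e k).toNat = 0 := by omega
      rw [this, pow_zero] at hk
      exact one_ne_zero hk
    · exact pow_ne_zero _ (hev j k hkj) hk

end BMF
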