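import Pool.Agent.Lib.MP_a325a5_ag.F.Typ

/-! There is at most one anomalous curve of each type.

Proof.  From `p A₀ m_e - r B₀ m_f = E₀ m_g` and `p A₁ m_e - r B₁ m_f = E₁ m_g` (`m_e = mon α e`)
one gets `(p (A₀ E₁ - A₁ E₀)) m_e = (r (B₀ E₁ - B₁ E₀)) m_f`.  `m_e`, `m_f` are monic and different
(`e ≠ f`, unique factorisation or orders of vanishing at the distinct points `α j`), so linearly
independent: `A₀ E₁ = A₁ E₀`, `B₀ E₁ = B₁ E₀`, and `E₁ q = E₀ q'`. -/

open Polynomial Polynomial.Bivariate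

namespace BMF

variable {L : Type} [Field L]

private theorem typu_count [DecidableEq L] (α : Fin 3 → L) (hα : Function.Injective α)
    (e : Fin 3 → Fin 3) (j : Fin 3) : (mon α e).roots.count (α j) = (e j : ℕ) := by
  have hne : mon α e ≠ 0 := by
    unfold mon
    exact Finset.prod_ne_zero_iff.mpr fun j _ => pow_ne_zero _ (X_sub_C_ne_zero _)
  have h : (mon α e).roots = ∑ j, (e j : ℕ) • ({α j} : Multiset L) := by
    unfold mon at hne ⊢
    rw [roots_prod _ _ hne]
    simp only [roots_pow, roots_X_sub_C]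
    rfl
  rw [h, Multiset.count_sum']
  rw [Finset.sum_eq_single j]
  · simp
  · intro i _ hij
    rw [Multiset.count_nsmul, Multiset.count_singleton]
    rw [if_neg (fun h => hij (hα h.symm)), mul_zero]
  · intro h
    exact absurd (Finset.mem_univ j) h

private theorem typu_inj (α : Fin 3 → L) (hα : Function.Injective α) (e f : Fin 3 → Fin 3)
    (h : mon α e = mon α f) : e = f := by
  classical
  funext j
  apply Fin.ext
  rw [← typu_count α hα e j, ← typu_count α hα f j, h]

private theorem typu_monic (α : Fin 3 → L) (e : Fin 3 → Fin 3) : (mon α e).Monic := by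
  unfold mon
  exact monic_prod_of_monic _ _ fun j _ => (monic_X_sub_C _).pow _

private theorem typu_lin (α : Fin 3 → L) (hα : Function.Injective α) (e f : Fin 3 → Fin 3)
    (hef : e ≠ f) (x y : L) (h : C x * mon α e = C y * mon α f) : x = 0 ∧ y = 0 := by
  have hx : (C x * mon α e).leadingCoeff = x := by
    rw [leadingCoeff_mul, leadingCoeff_C, (typu_monic α e).leadingCoeff, mul_one]
  have hy : (C y * mon α f).leadingCoeff = y := by
    rw [leadingCoeff_mul, leadingCoeff_C, (typu_monic α f).leadingCoeff, mul_one]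
  have hxy : x = y := by rw [← hx, h, hy]
  by_cases h0 : x = 0
  · exact ⟨h0, hxy ▸ h0⟩
  · exfalso
    apply hef
    apply typu_inj α hα
    rw [← hxy] at h
    exact mul_left_cancel₀ (C_ne_zero.mpr h0) h

theorem typ_unique (α : Fin 3 → L) (r p : L) (hα : Function.Injective α) (hr : r ≠ 0)
    (hp : p ≠ 0) (e f g : Fin 3 → Fin 3) (q q' : L[X][Y]) (h : IsTyp α r p e f g q)
    (h' : IsTyp α r p e f g q') : ∃ c : L, c ≠ 0 ∧ q' = C (C c) * q := by
  obtain ⟨A₀, B₀, E₀, hA, hB, hE, hef, hq, h1⟩ := h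
  obtain ⟨A₁, B₁, E₁, hA', hB', hE', -, hq', h2⟩ := h'
  have key : C (p * (A₀ * E₁ - A₁ * E₀)) * mon α e = C (r * (B₀ * E₁ - B₁ * E₀)) * mon α f := by
    simp only [C_mul, C_sub]
    linear_combination (C E₁) * h1 - (C E₀) * h2
  obtain ⟨k1, k2⟩ := typu_lin α hα e f hef _ _ key
  have e1 : A₀ * E₁ = A₁ * E₀ := by
    rcases mul_eq_zero.mp k1 with h0 | h0
    · exact absurd h0 hp
    · exact sub_eq_zero.mp h0
  have e2 : B₀ * E₁ = B₁ * E₀ := by
    rcases mul_eq_zero.mp k2 with h0 | h0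
    · exact absurd h0 hr
    · exact sub_eq_zero.mp h0
  refine ⟨E₁ / E₀, div_ne_zero hE' hE, ?_⟩
  have a1 : A₁ = E₁ / E₀ * A₀ := by
    field_simp
    linear_combination -e1
  have b1 : B₁ = E₁ / E₀ * B₀ := by
    field_simp
    linear_combination -e2
  rw [hq, hq', a1, b1]
  simp only [C_mul]
  ring

/-- one polynomial which vanishes on all anomalous curves -/
theorem exists_anom (α : Fin 3 → L) (r p : L) (hα : Function.Injective α) (hr : r ≠ 0)
    (hp : p ≠ 0) :
    ∃ G : L[X][Y], G ≠ 0 ∧ ∀ e f g : Fin 3 → Fin 3, ∀ q : L[X][Y], IsTyp α r p e f g q →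
      q ∣ G := by
  classical
  let T := (Fin 3 → Fin 3) × (Fin 3 → Fin 3) × (Fin 3 → Fin 3)
  let Q : T → L[X][Y] := fun x =>
    if h : ∃ q, IsTyp α r p x.1 x.2.1 x.2.2 q then h.choose else 1
  have hne : ∀ x, Q x ≠ 0 := by
    intro x
    by_cases h : ∃ q, IsTyp α r p x.1 x.2.1 x.2.2 q
    · have hQ : Q x = h.choose := dif_pos h
      rw [hQ]
      obtain ⟨A₀, B₀, E₀, hA, hB, hE, hef, hq, h1⟩ := h.choose_spec
      intro h0
      have h2 := congrArg (fun P : L[X][Y] => P.coeff 1) hq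
      rw [h0] at h2
      simp only [coeff_zero, coeff_add, coeff_C_mul, coeff_X_one, mul_one, coeff_C_succ,
        add_zero] at h2
      rcases mul_eq_zero.mp h2.symm with h3 | h3
      · exact hA (C_eq_zero.mp h3)
      · exact (typu_monic α x.1).ne_zero h3
    · have hQ : Q x = 1 := dif_neg h
      rw [hQ]
      exact one_ne_zero
  refine ⟨∏ x, Q x, Finset.prod_ne_zero_iff.mpr fun x _ => hne x, ?_⟩
  intro e f g q hq
  have hex : ∃ q, IsTyp α r p e f g q := ⟨q, hq⟩
  have hQ : Q (e, f, g) = hex.choose := dif_pos hex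
  obtain ⟨c, hc, hcq⟩ := typ_unique α r p hα hr hp e f g q hex.choose hq hex.choose_spec
  have h1 : q ∣ Q (e, f, g) := by
    rw [hQ, hcq]
    exact dvd_mul_left _ _
  exact h1.trans (Finset.dvd_prod_of_mem _ (Finset.mem_univ _))

end BMF
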